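import Pool.Agent.ShG.Targets

namespace Pool.Agent.ShG

open scoped BigOperators Topology ContDiff
open Set Filter

noncomputable section

lemma A0_norm_sq {n : ℕ} (x : Fs n) : ‖x‖ ^ 2 = ∑ a, (x a) ^ 2 := by
  rw [EuclideanSpace.norm_sq_eq]
  refine Finset.sum_congr rfl fun a _ => ?_
  rw [Real.norm_eq_abs, sq_abs]

lemma A0_coord {n : ℕ} (x : Fs n) (a : Fin (n + 1)) : |x a| ≤ ‖x‖ := by
  apply abs_le_of_sq_le_sq _ (norm_nonneg x)
  rw [A0_norm_sq]
  exact Finset.single_le_sum (f := fun a => (x a) ^ 2) (fun i _ => sq_nonneg _) (Finset.mem_univ a)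

lemma A0_tri {n : ℕ} (x y z : Fs n) (T : Fin (n + 1) → Fin (n + 1) → Fin (n + 1) → ℝ) {ε : ℝ}
    (hε : 0 ≤ ε) (hT : ∑ a, ∑ b, ∑ c, (T a b c) ^ 2 ≤ ε ^ 2) :
    |∑ a, ∑ b, ∑ c, x a * y b * z c * T a b c| ≤ ‖x‖ * ‖y‖ * ‖z‖ * ε := by
  have e1 : ∑ a, ∑ b, ∑ c, x a * y b * z c * T a b c
      = ∑ i : Fin (n + 1) × Fin (n + 1) × Fin (n + 1),
        (x i.1 * y i.2.1 * z i.2.2) * T i.1 i.2.1 i.2.2 := by
    rw [Fintype.sum_prod_type]
    refine Finset.sum_congr rfl fun a _ => ?_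
    rw [Fintype.sum_prod_type]
  have e2 : ∑ i : Fin (n + 1) × Fin (n + 1) × Fin (n + 1), (T i.1 i.2.1 i.2.2) ^ 2
      = ∑ a, ∑ b, ∑ c, (T a b c) ^ 2 := by
    rw [Fintype.sum_prod_type]
    refine Finset.sum_congr rfl fun a _ => ?_
    rw [Fintype.sum_prod_type]
  have e3 : ∑ i : Fin (n + 1) × Fin (n + 1) × Fin (n + 1), (x i.1 * y i.2.1 * z i.2.2) ^ 2
      = (‖x‖ * ‖y‖ * ‖z‖) ^ 2 := by
    rw [mul_pow, mul_pow, A0_norm_sq x, A0_norm_sq y, A0_norm_sq z, Fintype.sum_prod_type,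
      mul_assoc, Finset.sum_mul]
    refine Finset.sum_congr rfl fun a _ => ?_
    rw [Fintype.sum_prod_type, Finset.sum_mul, Finset.mul_sum]
    refine Finset.sum_congr rfl fun b _ => ?_
    rw [Finset.mul_sum, Finset.mul_sum]
    refine Finset.sum_congr rfl fun c _ => ?_
    ring
  rw [e1]
  apply abs_le_of_sq_le_sq _ (by positivity)
  calc (∑ i : Fin (n + 1) × Fin (n + 1) × Fin (n + 1),
        (x i.1 * y i.2.1 * z i.2.2) * T i.1 i.2.1 i.2.2) ^ 2
      ≤ (∑ i : Fin (n + 1) × Fin (n + 1) × Fin (n + 1), (x i.1 * y i.2.1 * z i.2.2) ^ 2) *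
        ∑ i : Fin (n + 1) × Fin (n + 1) × Fin (n + 1), (T i.1 i.2.1 i.2.2) ^ 2 :=
          Finset.sum_mul_sq_le_sq_mul_sq _ _ _
    _ = (‖x‖ * ‖y‖ * ‖z‖) ^ 2 * ∑ a, ∑ b, ∑ c, (T a b c) ^ 2 := by rw [e3, e2]
    _ ≤ (‖x‖ * ‖y‖ * ‖z‖) ^ 2 * ε ^ 2 := mul_le_mul_of_nonneg_left hT (sq_nonneg _)
    _ = (‖x‖ * ‖y‖ * ‖z‖ * ε) ^ 2 := by ring

lemma A0_sum1 {m : ℕ} (e f z : Fin m → ℝ) (t : Fin m → Fin m → ℝ) :
    ∑ i : Fin m × Fin m × Fin m, ((e i.1 * f i.2.1 * f i.2.2 - f i.1 * e i.2.1 * f i.2.2) / 2)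
        * (z i.1 * t i.2.1 i.2.2)
      = ((∑ a, e a * z a) * (∑ b, ∑ c, f b * f c * t b c)
        - (∑ a, f a * z a) * (∑ b, ∑ c, e b * f c * t b c)) / 2 := by
  rw [Fintype.sum_prod_type, Finset.sum_mul, Finset.sum_mul, ← Finset.sum_sub_distrib,
    Finset.sum_div]
  refine Finset.sum_congr rfl fun a _ => ?_
  rw [Fintype.sum_prod_type, Finset.mul_sum, Finset.mul_sum, ← Finset.sum_sub_distrib,
    Finset.sum_div]
  refine Finset.sum_congr rfl fun b _ => ?_
  rw [Finset.mul_sum, Finset.mul_sum, ← Finset.sum_sub_distrib, Finset.sum_div]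
  refine Finset.sum_congr rfl fun c _ => ?_
  ring

lemma A0_sum2 {m : ℕ} (e f z : Fin m → ℝ) (t : Fin m → Fin m → ℝ) :
    ∑ a, ∑ b, ∑ c, e a * f b * f c * (z a * t b c - z b * t a c)
      = (∑ a, e a * z a) * (∑ b, ∑ c, f b * f c * t b c)
        - (∑ a, f a * z a) * (∑ b, ∑ c, e b * f c * t b c) := by
  have h1 : (∑ a, e a * z a) * (∑ b, ∑ c, f b * f c * t b c)
      = ∑ a, ∑ b, ∑ c, e a * f b * f c * (z a * t b c) := by
    rw [Finset.sum_mul]
    refine Finset.sum_congr rfl fun a _ => ?_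
    rw [Finset.mul_sum]
    refine Finset.sum_congr rfl fun b _ => ?_
    rw [Finset.mul_sum]
    refine Finset.sum_congr rfl fun c _ => ?_
    ring
  have h2 : (∑ a, f a * z a) * (∑ b, ∑ c, e b * f c * t b c)
      = ∑ a, ∑ b, ∑ c, e a * f b * f c * (z b * t a c) := by
    rw [Finset.sum_comm (f := fun a b => ∑ c, e a * f b * f c * (z b * t a c)), Finset.sum_mul]
    refine Finset.sum_congr rfl fun b _ => ?_
    rw [Finset.mul_sum]
    refine Finset.sum_congr rfl fun a _ => ?_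
    rw [Finset.mul_sum]
    refine Finset.sum_congr rfl fun c _ => ?_
    ring
  rw [h1, h2, ← Finset.sum_sub_distrib]
  refine Finset.sum_congr rfl fun a _ => ?_
  rw [← Finset.sum_sub_distrib]
  refine Finset.sum_congr rfl fun b _ => ?_
  rw [← Finset.sum_sub_distrib]
  refine Finset.sum_congr rfl fun c _ => ?_
  ring

lemma A0_nz {m : ℕ} (x y N s r : Fin m → ℝ) (H : ℝ) (hx : ∑ b, x b * N b = 0)
    (hy : ∑ c, y c * N c = 0) :
    ∑ b, ∑ c, x b * y c * ((N b * s c + N c * r b) / H) = 0 := by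
  have h1 : ∑ b, ∑ c, x b * y c * ((N b * s c + N c * r b) / H)
      = (∑ b, x b * N b) * (∑ c, y c * s c / H) + (∑ b, x b * r b / H) * (∑ c, y c * N c) := by
    rw [Finset.sum_mul, Finset.sum_mul, ← Finset.sum_add_distrib]
    refine Finset.sum_congr rfl fun b _ => ?_
    rw [Finset.mul_sum, Finset.mul_sum, ← Finset.sum_add_distrib]
    refine Finset.sum_congr rfl fun c _ => ?_
    ring
  rw [h1, hx, hy]; ring

variable {n : ℕ} {S : Type} [TopologicalSpace S] {M : Hyp n S}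

lemma A0_dl_lin {κ : Type*} [Fintype κ] (k : κ → ℝ) (P : κ → S → ℝ) (p : S)
    (hP : ∀ i, M.Sm (P i) p) (g : Fin (n + 1)) :
    M.dl g (fun q => ∑ i, k i * P i q) p = ∑ i, k i * M.dl g (P i) p := by
  rw [Hyp.dl_sum (fun i _ => (hP i).const_mul (k i))]
  refine Finset.sum_congr rfl fun i _ => ?_
  exact Hyp.dl_const_mul (k i) (hP i) g

lemma A0_ddl_lin {κ : Type*} [Fintype κ] (k : κ → ℝ) (P : κ → S → ℝ) (p : S)
    (hP : ∀ i, M.Sm (P i) p) (g h : Fin (n + 1)) :
    M.dl h (M.dl g (fun q => ∑ i, k i * P i q)) p = ∑ i, k i * M.dl h (M.dl g (P i)) p := by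
  have hev : ∀ᶠ q in 𝓝 p, ∀ i, M.Sm (P i) q := by
    rw [eventually_all]
    exact fun i => (hP i).eventually
  have he : M.dl g (fun q => ∑ i, k i * P i q) =ᶠ[𝓝 p] fun q => ∑ i, k i * M.dl g (P i) q := by
    filter_upwards [hev] with q hq
    exact A0_dl_lin k P q hq g
  rw [M.dl_congr he]
  exact A0_dl_lin k (fun i => M.dl g (P i)) p (fun i => (hP i).dl g) h

/-- a unit tangent vector orthogonal to `e` on which `τ` is at least `1/n` -/
lemma A0_exists_f (hn : 2 ≤ n) (t : Fin (n + 1) → Fin (n + 1) → ℝ) (N e : Fs n) (hN : ‖N‖ = 1)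
    (he : ‖e‖ = 1) (heN : inner ℝ e N = (0:ℝ)) (htr : ∑ a, t a a = 1)
    (hNN : ∑ a, ∑ b, N a * N b * t a b = 0) (hee : ∑ a, ∑ b, e a * e b * t a b < 0) :
    ∃ f : Fs n, ‖f‖ = 1 ∧ inner ℝ f N = (0:ℝ) ∧ inner ℝ e f = (0:ℝ) ∧
      1 / (n : ℝ) ≤ ∑ a, ∑ b, f a * f b * t a b := by
  classical
  have h01 : (0 : Fin (n + 1)) ≠ 1 := by
    intro h
    have h2 := congrArg Fin.val h
    rw [Fin.val_zero, Fin.val_one', Nat.mod_eq_of_lt (by omega)] at h2
    omega
  let v : Fin (n + 1) → Fs n := fun i => if i = 0 then N else e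
  have hv0 : v 0 = N := by simp [v]
  have hv1 : v 1 = e := by simp [v, h01.symm]
  have hon : Orthonormal ℝ (({0, 1} : Set (Fin (n + 1))).domRestrict v) := by
    constructor
    · rintro ⟨i, hi⟩
      rcases hi with hi | hi
      · subst hi
        change ‖v 0‖ = 1
        rw [hv0, hN]
      · have hi' : i = 1 := hi
        subst hi'
        change ‖v 1‖ = 1
        rw [hv1, he]
    · rintro ⟨i, hi⟩ ⟨j, hj⟩ hij
      rcases hi with hi | hi <;> rcases hj with hj | hj
      · exfalso; apply hij; subst hi; subst hj; rfl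
      · have hj' : j = 1 := hj
        subst hi; subst hj'
        change inner ℝ (v 0) (v 1) = (0:ℝ)
        rw [hv0, hv1, real_inner_comm]; exact heN
      · have hi' : i = 1 := hi
        subst hj; subst hi'
        change inner ℝ (v 1) (v 0) = (0:ℝ)
        rw [hv0, hv1]; exact heN
      · exfalso; apply hij
        have hi' : i = 1 := hi
        have hj' : j = 1 := hj
        subst hi'; subst hj'; rfl
  obtain ⟨b, hb⟩ := hon.exists_orthonormalBasis_extension_of_card_eq (by simp)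
  have hb0 : b 0 = N := by rw [hb 0 (by simp), hv0]
  have hb1 : b 1 = e := by rw [hb 1 (by simp), hv1]
  have hsum : ∑ i, ∑ a, ∑ c, b i a * b i c * t a c = 1 := by
    have hcomp : ∀ a c, ∑ i, b i a * b i c = if a = c then 1 else 0 := by
      intro a c
      have h1 := b.sum_inner_mul_inner (EuclideanSpace.single a (1:ℝ)) (EuclideanSpace.single c (1:ℝ))
      have h2 : ∀ i, inner ℝ (EuclideanSpace.single a (1:ℝ)) (b i) = b i a := by
        intro i
        rw [EuclideanSpace.inner_single_left]; simp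
      have h3 : ∀ i, inner ℝ (b i) (EuclideanSpace.single c (1:ℝ)) = b i c := by
        intro i
        rw [real_inner_comm, EuclideanSpace.inner_single_left]; simp
      simp_rw [h2, h3] at h1
      rw [h1, EuclideanSpace.inner_single_left]
      simp [PiLp.single_apply]
    calc ∑ i, ∑ a, ∑ c, b i a * b i c * t a c
        = ∑ a, ∑ c, (∑ i, b i a * b i c) * t a c := by
          rw [Finset.sum_comm]
          refine Finset.sum_congr rfl fun a _ => ?_
          rw [Finset.sum_comm]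
          refine Finset.sum_congr rfl fun c _ => ?_
          rw [Finset.sum_mul]
      _ = ∑ a, t a a := by
          refine Finset.sum_congr rfl fun a _ => ?_
          rw [Finset.sum_eq_single a]
          · rw [hcomp]; simp
          · intro c _ hc
            rw [hcomp, if_neg (fun h => hc h.symm), zero_mul]
          · simp
      _ = 1 := htr
  by_contra hcon
  push Not at hcon
  have hn0 : (0 : ℝ) < n := by
    have : (2 : ℝ) ≤ n := by exact_mod_cast hn
    linarith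
  have hall : ∀ i, i ≠ 0 → ∑ a, ∑ c, b i a * b i c * t a c < 1 / (n : ℝ) := by
    intro i hi
    by_cases h1 : i = 1
    · subst h1
      rw [hb1]
      exact lt_trans hee (by positivity)
    · apply hcon (b i) (b.orthonormal.1 i)
      · rw [← hb0]; exact b.orthonormal.2 hi
      · rw [← hb1]; exact b.orthonormal.2 (fun h => h1 h.symm)
  have hlt : ∑ i, ∑ a, ∑ c, b i a * b i c * t a c
      < ∑ i : Fin (n + 1), (if i = 0 then (0 : ℝ) else 1 / (n : ℝ)) := by
    apply Finset.sum_lt_sum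
    · intro i _
      by_cases hi : i = 0
      · subst hi
        rw [hb0, hNN, if_pos rfl]
      · rw [if_neg hi]; exact (hall i hi).le
    · exact ⟨1, Finset.mem_univ _, by rw [if_neg h01.symm]; exact hall 1 h01.symm⟩
  have hsum2 : ∑ i : Fin (n + 1), (if i = 0 then (0 : ℝ) else 1 / (n : ℝ)) = 1 := by
    rw [Fin.sum_univ_succ]
    simp only [if_true, Fin.succ_ne_zero, if_false, Finset.sum_const, Finset.card_univ,
      Fintype.card_fin, nsmul_eq_mul, zero_add]
    field_simp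
  rw [hsum, hsum2] at hlt
  exact lt_irrefl _ hlt

theorem pA0 (hTAU : tTAU) (hBDS : tBDS) (hLAND : tLAND) : tA0 := by
  intro n hn
  have hn1 : (2 : ℝ) ≤ n := by exact_mod_cast hn
  have hn0 : (0 : ℝ) < n := by linarith
  obtain ⟨Λ, hΛ, hb⟩ := hBDS n (n + 2) (by positivity)
  obtain ⟨CL, hCL, hl⟩ := hLAND n (((n : ℝ) + 1) ^ 3 * Λ) (by positivity)
  refine ⟨n * ((1 + Λ) * (n + 2) + 2 * (n + 1) * Λ + 2 * (n + 1) * CL), by positivity, ?_⟩
  intro S _ _ M c hstd p ι g σ hnice hrho e ε hε hε1 he heN htq hBe hball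
  have hw2 : ∀ p, M.w p ≤ 2 := by
    intro p
    have h1 := hstd.2.2.2 p
    have h2 := hstd.2.2.1
    linarith
  have hsec := hnice.1
  -- size of `X` on the small ball
  have hXp : ‖M.X p‖ ≤ n + 1 := by
    have h1 : ‖M.X p‖ ^ 2 < 2 * n := hrho
    nlinarith [sq_nonneg (‖M.X p‖ - 1)]
  have hXu : ∀ u ∈ Metric.ball (0 : Es n) (1/32), ‖M.X (σ u)‖ ≤ n + 2 := by
    intro u hu
    have hu8 : u ∈ Metric.ball (0 : Es n) (1/8) :=
      Metric.ball_subset_ball (by norm_num) hu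
    have h0 : (0 : Es n) ∈ Metric.ball (0 : Es n) (1/8) := hsec.mem0
    have hg : |g u| ≤ 1/4 * ‖u‖ := by
      have h1 := (convex_ball (0 : Es n) (1/8)).norm_image_sub_le_of_norm_fderiv_le
        (𝕜 := ℝ) (f := g) (C := 1/4) (fun x hx => hsec.gdiff hx)
        (fun x hx => by
          have := hnice.2 x hx
          unfold gradient at this
          rwa [LinearIsometryEquiv.norm_map] at this) h0 hu8
      rw [hsec.g_zero (M.unit p)] at h1
      simpa using h1
    have hun : ‖u‖ < 1/32 := by rwa [mem_ball_zero_iff] at hu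
    have h2 := hsec.norm_sq (M.unit p) hu8
    have h3 : ‖M.X (σ u) - M.X p‖ ≤ 1 := by
      have h4 : ‖M.X (σ u) - M.X p‖ ^ 2 ≤ 1 ^ 2 := by
        rw [h2]
        have h5 : g u ^ 2 ≤ (1/4 * ‖u‖) ^ 2 := by
          rw [← sq_abs (g u)]
          exact pow_le_pow_left₀ (abs_nonneg _) hg 2
        nlinarith [norm_nonneg u]
      exact le_of_sq_le_sq h4 (by norm_num)
    calc ‖M.X (σ u)‖ = ‖M.X p + (M.X (σ u) - M.X p)‖ := by rw [add_sub_cancel]
      _ ≤ ‖M.X p‖ + ‖M.X (σ u) - M.X p‖ := norm_add_le _ _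
      _ ≤ n + 2 := by linarith
  have hHu : ∀ u ∈ Metric.ball (0 : Es n) (1/32), M.H (σ u) ≠ 0 ∧ 2/5 ≤ |M.H (σ u)| := by
    intro u hu
    have h1 := (hball u hu).1
    refine ⟨?_, by linarith⟩
    intro h0
    rw [h0, abs_zero] at h1
    linarith
  have h0b : (0 : Es n) ∈ Metric.ball (0 : Es n) (1/32) := by simp
  have hHp : M.H p ≠ 0 := by
    have := (hHu 0 h0b).1
    rwa [hsec.base] at this
  have hbp := hb S M hstd.1 hw2 p (by linarith) (by
    have := (hHu 0 h0b).2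
    rwa [hsec.base] at this)
  have hsp : M.ssq p ≤ ε ^ 2 := by
    have := (hball 0 h0b).2
    rwa [hsec.base] at this
  obtain ⟨t1, t2, t3, t4, t5, t6, t7, t8, t9⟩ := hTAU n S M hstd.1 p hHp
  have heN' : ∑ a, e a * M.N p a = 0 := by rw [← Hyp.inner_sum]; exact heN
  -- the vector `f`
  obtain ⟨f, hf1, hfN, hef, hff⟩ := A0_exists_f hn (fun a b => M.tau a b p) (M.N p) e (M.unit p) he
    heN t6 (by
      have : ∀ a, ∑ b, M.N p a * M.N p b * M.tau a b p
          = M.N p a * (∑ b, M.N p b * M.B a b p) / M.H p := by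
        intro a
        rw [Finset.mul_sum, Finset.sum_div]
        refine Finset.sum_congr rfl fun b _ => ?_
        unfold Hyp.tau; ring
      simp_rw [this, Hyp.B_N_left']
      simp) htq
  have hfN' : ∑ a, f a * M.N p a = 0 := by rw [← Hyp.inner_sum]; exact hfN
  have htef : ∑ b, ∑ c, e b * f c * M.tau b c p = 0 := by
    have h1 : ∑ b, ∑ c, e b * f c * M.tau b c p = inner ℝ f (M.Bv p e) / M.H p := by
      rw [Hyp.inner_sum, Finset.sum_comm, Finset.sum_div]
      refine Finset.sum_congr rfl fun c _ => ?_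
      rw [Hyp.Bv_apply, Finset.mul_sum, Finset.sum_div]
      refine Finset.sum_congr rfl fun b _ => ?_
      rw [Hyp.B_symm c b p]
      unfold Hyp.tau; ring
    rw [h1, hBe, inner_smul_right, real_inner_comm, hef]
    simp
  -- the function `Z`
  let K : Fin (n + 1) × Fin (n + 1) × Fin (n + 1) → ℝ := fun i =>
    (e i.1 * f i.2.1 * f i.2.2 - f i.1 * e i.2.1 * f i.2.2) / 2
  let P : Fin (n + 1) × Fin (n + 1) × Fin (n + 1) → S → ℝ := fun i q =>
    M.ze i.1 q * M.tau i.2.1 i.2.2 q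
  have hK : ∀ i, |K i| ≤ 1 := by
    intro i
    have ea : ∀ a, |e a| ≤ 1 := fun a => (A0_coord e a).trans he.le
    have fa : ∀ a, |f a| ≤ 1 := fun a => (A0_coord f a).trans hf1.le
    have h1 : |e i.1 * f i.2.1 * f i.2.2| ≤ 1 := by
      rw [abs_mul, abs_mul]
      exact mul_le_one₀ (mul_le_one₀ (ea _) (abs_nonneg _) (fa _)) (abs_nonneg _) (fa _)
    have h2 : |f i.1 * e i.2.1 * f i.2.2| ≤ 1 := by
      rw [abs_mul, abs_mul]
      exact mul_le_one₀ (mul_le_one₀ (fa _) (abs_nonneg _) (ea _)) (abs_nonneg _) (fa _)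
    change |(e i.1 * f i.2.1 * f i.2.2 - f i.1 * e i.2.1 * f i.2.2) / 2| ≤ 1
    rw [abs_div, abs_two, div_le_one (by norm_num)]
    calc |e i.1 * f i.2.1 * f i.2.2 - f i.1 * e i.2.1 * f i.2.2|
        ≤ |e i.1 * f i.2.1 * f i.2.2| + |f i.1 * e i.2.1 * f i.2.2| := abs_sub _ _
      _ ≤ 2 := by linarith
  have hPs : ∀ q, M.H q ≠ 0 → ∀ i, M.Sm (P i) q := fun q hq i =>
    (Hyp.Sm.ze hq i.1).mul (Hyp.Sm.tau hq i.2.1 i.2.2)
  have hcard : ∀ (x : Fin (n + 1) × Fin (n + 1) × Fin (n + 1) → ℝ), (∀ i, |x i| ≤ Λ) →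
      |∑ i, K i * x i| ≤ ((n : ℝ) + 1) ^ 3 * Λ := by
    intro x hx
    calc |∑ i, K i * x i| ≤ ∑ i, |K i * x i| := Finset.abs_sum_le_sum_abs _ _
      _ ≤ ∑ _i : Fin (n + 1) × Fin (n + 1) × Fin (n + 1), Λ := by
          refine Finset.sum_le_sum fun i _ => ?_
          rw [abs_mul]
          calc |K i| * |x i| ≤ 1 * Λ := mul_le_mul (hK i) (hx i) (abs_nonneg _) (by norm_num)
            _ = Λ := one_mul _
      _ = ((n : ℝ) + 1) ^ 3 * Λ := by
          rw [Finset.sum_const, Finset.card_univ, Fintype.card_prod, Fintype.card_prod,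
            Fintype.card_fin, nsmul_eq_mul]
          push_cast; ring
  have hland := hl S M p ι g σ hnice (fun q => ∑ i, K i * P i q) ε hε hε1 (by
    intro u hu
    obtain ⟨hH0, hH1⟩ := hHu u hu
    have hbu := hb S M hstd.1 hw2 (σ u) (hXu u hu) hH1
    refine ⟨Hyp.Sm.sum fun i _ => (hPs _ hH0 i).const_mul _, ?_, ?_, ?_⟩
    · -- size
      obtain ⟨s1, s2, s3, s4, s5, -⟩ := hTAU n S M hstd.1 (σ u) hH0
      have e1 : ∑ i, K i * P i (σ u) = (∑ a, ∑ b, ∑ c, e a * f b * f c * (M.ze a (σ u) *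
          M.tau b c (σ u) - M.ze b (σ u) * M.tau a c (σ u))) / 2 := by
        rw [A0_sum2 (fun a => e a) (fun a => f a) (fun a => M.ze a (σ u))
          (fun b c => M.tau b c (σ u))]
        exact A0_sum1 (fun a => e a) (fun a => f a) (fun a => M.ze a (σ u))
          (fun b c => M.tau b c (σ u))
      have e2 : ∑ a, ∑ b, ∑ c, e a * f b * f c * (M.ze a (σ u) *
          M.tau b c (σ u) - M.ze b (σ u) * M.tau a c (σ u))
          = (∑ a, ∑ b, ∑ c, f a * e b * f c * M.S3 a b c (σ u))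
            - ∑ a, ∑ b, ∑ c, e a * f b * f c * M.S3 a b c (σ u) := by
        rw [Finset.sum_comm (f := fun a b => ∑ c, f a * e b * f c * M.S3 a b c (σ u)),
          ← Finset.sum_sub_distrib]
        refine Finset.sum_congr rfl fun a _ => ?_
        rw [← Finset.sum_sub_distrib]
        refine Finset.sum_congr rfl fun b _ => ?_
        rw [← Finset.sum_sub_distrib]
        refine Finset.sum_congr rfl fun c _ => ?_
        rw [s5]; ring
      have hT : ∑ a, ∑ b, ∑ c, (M.S3 a b c (σ u)) ^ 2 ≤ ε ^ 2 := (hball u hu).2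
      have b1 := A0_tri f e f (fun a b c => M.S3 a b c (σ u)) hε hT
      have b2 := A0_tri e f f (fun a b c => M.S3 a b c (σ u)) hε hT
      rw [he, hf1] at b1 b2
      change |∑ i, K i * P i (σ u)| ≤ ε
      rw [e1, e2, abs_div, abs_two, div_le_iff₀ (by norm_num)]
      have := abs_sub (∑ a, ∑ b, ∑ c, f a * e b * f c * M.S3 a b c (σ u))
        (∑ a, ∑ b, ∑ c, e a * f b * f c * M.S3 a b c (σ u))
      linarith
    · intro a
      rw [A0_dl_lin K P (σ u) (hPs _ hH0) a]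
      exact hcard _ (fun i => hbu.2.2.2.2.2.1 i.1 i.2.1 i.2.2 a)
    · intro a b
      rw [A0_ddl_lin K P (σ u) (hPs _ hH0) b a]
      exact hcard _ (fun i => hbu.2.2.2.2.2.2 i.1 i.2.1 i.2.2 b a))
  -- the derivative in the direction `e` at `p`
  have hder : ∀ k, M.dl k (fun q => ∑ i, K i * P i q) p
      = ((∑ a, e a * M.ze a p) * (∑ b, ∑ c, f b * f c * M.dl k (M.tau b c) p)
          - (∑ a, f a * M.ze a p) * (∑ b, ∑ c, e b * f c * M.dl k (M.tau b c) p)) / 2
        + ((∑ a, e a * M.dl k (M.ze a) p) * (∑ b, ∑ c, f b * f c * M.tau b c p)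
          - (∑ a, f a * M.dl k (M.ze a) p) * (∑ b, ∑ c, e b * f c * M.tau b c p)) / 2 := by
    intro k
    rw [A0_dl_lin K P p (hPs _ hHp) k, ← A0_sum1 (fun a => e a) (fun a => f a)
      (fun a => M.ze a p) (fun b c => M.dl k (M.tau b c) p),
      ← A0_sum1 (fun a => e a) (fun a => f a)
      (fun a => M.dl k (M.ze a) p) (fun b c => M.tau b c p), ← Finset.sum_add_distrib]
    refine Finset.sum_congr rfl fun i _ => ?_
    have : M.dl k (P i) p = M.ze i.1 p * M.dl k (M.tau i.2.1 i.2.2) p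
        + M.tau i.2.1 i.2.2 p * M.dl k (M.ze i.1) p :=
      Hyp.dl_mul (Hyp.Sm.ze hHp i.1) (Hyp.Sm.tau hHp i.2.1 i.2.2) k
    rw [this]
    change (e i.1 * f i.2.1 * f i.2.2 - f i.1 * e i.2.1 * f i.2.2) / 2 * _ = _
    ring
  set ZE := ∑ a, e a * M.ze a p with hZE
  set ZF := ∑ a, f a * M.ze a p with hZF
  set TF := ∑ b, ∑ c, f b * f c * M.tau b c p with hTF
  have hDT : ∀ (x y : Fs n), ∑ a, x a * M.N p a = 0 → ∑ a, y a * M.N p a = 0 →
      ∑ k, e k * ∑ b, ∑ c, x b * y c * M.dl k (M.tau b c) p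
        = ∑ k, ∑ b, ∑ c, e k * x b * y c * M.S3 k b c p := by
    intro x y hx hy
    refine Finset.sum_congr rfl fun k _ => ?_
    have h1 : ∑ b, ∑ c, x b * y c * M.dl k (M.tau b c) p
        = ∑ b, ∑ c, x b * y c * M.S3 k b c p + ∑ b, ∑ c, x b * y c *
          ((M.N p b * M.B2 k c p + M.N p c * M.B2 k b p) / M.H p) := by
      rw [← Finset.sum_add_distrib]
      refine Finset.sum_congr rfl fun b _ => ?_
      rw [← Finset.sum_add_distrib]
      refine Finset.sum_congr rfl fun c _ => ?_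
      rw [t1]; ring
    rw [h1, A0_nz (fun a => x a) (fun a => y a) (fun a => M.N p a) (fun c => M.B2 k c p)
      (fun b => M.B2 k b p) (M.H p) hx hy, add_zero, Finset.mul_sum]
    refine Finset.sum_congr rfl fun b _ => ?_
    rw [Finset.mul_sum]
    refine Finset.sum_congr rfl fun c _ => ?_
    ring
  have hDZ : ∑ k, e k * ∑ a, e a * M.dl k (M.ze a) p
      = (∑ k, ∑ a, ∑ c, e k * e a * M.X p c * M.S3 k a c p) + M.tq e p
        - ∑ k, ∑ a, e k * e a * M.B2 k a p := by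
    have h1 : ∀ k, e k * ∑ a, e a * M.dl k (M.ze a) p
        = (∑ a, ∑ c, e k * e a * M.X p c * M.S3 k a c p) + (∑ a, e k * e a * M.tau k a p)
          - (∑ a, e k * e a * M.B2 k a p)
          + e k * ((∑ c, M.B2 k c p * M.X p c) / M.H p) * ∑ a, e a * M.N p a := by
      intro k
      rw [Finset.mul_sum, Finset.mul_sum, ← Finset.sum_add_distrib, ← Finset.sum_sub_distrib,
        ← Finset.sum_add_distrib]
      refine Finset.sum_congr rfl fun a _ => ?_
      rw [t9]
      have h2 : ∑ c, e k * e a * M.X p c * M.S3 k a c p = e k * e a * ∑ c, M.S3 k a c p * M.X p c := by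
        rw [Finset.mul_sum]
        refine Finset.sum_congr rfl fun c _ => ?_
        ring
      rw [h2]; ring
    simp_rw [h1, heN', mul_zero, add_zero]
    rw [Finset.sum_sub_distrib, Finset.sum_add_distrib]
    rfl
  have hB2 : 0 ≤ ∑ k, ∑ a, e k * e a * M.B2 k a p := by
    have h1 : ∑ k, ∑ a, e k * e a * M.B2 k a p = ∑ c, (∑ a, M.B c a p * e a) ^ 2 := by
      have h2 : ∀ c, (∑ a, M.B c a p * e a) ^ 2
          = ∑ k, ∑ a, e k * e a * (M.B k c p * M.B c a p) := by
        intro c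
        rw [pow_two, Finset.sum_mul]
        refine Finset.sum_congr rfl fun k _ => ?_
        rw [Finset.mul_sum]
        refine Finset.sum_congr rfl fun a _ => ?_
        rw [Hyp.B_symm k c p]; ring
      simp_rw [h2]
      symm
      rw [Finset.sum_comm]
      refine Finset.sum_congr rfl fun k _ => ?_
      rw [Finset.sum_comm]
      refine Finset.sum_congr rfl fun a _ => ?_
      unfold Hyp.B2
      rw [Finset.mul_sum]
    rw [h1]
    exact Finset.sum_nonneg fun c _ => sq_nonneg _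
  -- the bounds
  have hT : ∑ a, ∑ b, ∑ c, (M.S3 a b c p) ^ 2 ≤ ε ^ 2 := hsp
  have b1 := A0_tri e f f (fun a b c => M.S3 a b c p) hε hT
  have b2 := A0_tri e e f (fun a b c => M.S3 a b c p) hε hT
  have b3 := A0_tri e e (M.X p) (fun a b c => M.S3 a b c p) hε hT
  rw [he, hf1] at b1 b2
  rw [he] at b3
  set SF := ∑ a, ∑ b, ∑ c, e a * f b * f c * M.S3 a b c p with hSF
  set SE := ∑ a, ∑ b, ∑ c, e a * e b * f c * M.S3 a b c p with hSE
  set SX := ∑ a, ∑ b, ∑ c, e a * e b * M.X p c * M.S3 a b c p with hSX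
  set BB := ∑ k, ∑ a, e k * e a * M.B2 k a p with hBB
  have hmain : 2 * ∑ k, e k * M.dl k (fun q => ∑ i, K i * P i q) p
      = ZE * SF - ZF * SE + TF * (SX + M.tq e p - BB) := by
    rw [← hDZ, hSF, hSE, ← hDT f f hfN' hfN', ← hDT e f heN' hfN', Finset.mul_sum, Finset.mul_sum,
      Finset.mul_sum, Finset.mul_sum, ← Finset.sum_sub_distrib, ← Finset.sum_add_distrib]
    refine Finset.sum_congr rfl fun k _ => ?_
    rw [hder k, htef]; ring
  have hzb : ∀ x : Fs n, ‖x‖ = 1 → |∑ a, x a * M.ze a p| ≤ (n + 1) * Λ := by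
    intro x hx
    calc |∑ a, x a * M.ze a p| ≤ ∑ a, |x a * M.ze a p| := Finset.abs_sum_le_sum_abs _ _
      _ ≤ ∑ _a : Fin (n + 1), Λ := by
          refine Finset.sum_le_sum fun a _ => ?_
          rw [abs_mul]
          calc |x a| * |M.ze a p| ≤ 1 * Λ :=
                mul_le_mul ((A0_coord x a).trans hx.le) (hbp.1 a) (abs_nonneg _) (by norm_num)
            _ = Λ := one_mul _
      _ = (n + 1) * Λ := by simp
  have hZEb := hzb e he
  have hZFb := hzb f hf1
  have hTFb : |TF| ≤ 1 + Λ := by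
    have h1 : TF ^ 2 ≤ M.Fq p := by
      rw [← t7]
      have e1 : TF = ∑ i : Fin (n + 1) × Fin (n + 1), (f i.1 * f i.2) * M.tau i.1 i.2 p := by
        rw [Fintype.sum_prod_type]
      have e2 : ∑ a, ∑ b, (M.tau a b p) ^ 2
          = ∑ i : Fin (n + 1) × Fin (n + 1), (M.tau i.1 i.2 p) ^ 2 := by
        rw [Fintype.sum_prod_type]
      have e3 : ∑ i : Fin (n + 1) × Fin (n + 1), (f i.1 * f i.2) ^ 2 = 1 := by
        rw [Fintype.sum_prod_type]
        have h3 : ∑ a, (f a) ^ 2 = 1 := by rw [← A0_norm_sq, hf1]; norm_num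
        calc ∑ a, ∑ b, (f a * f b) ^ 2 = ∑ a, (f a) ^ 2 * ∑ b, (f b) ^ 2 := by
              refine Finset.sum_congr rfl fun a _ => ?_
              rw [Finset.mul_sum]
              refine Finset.sum_congr rfl fun b _ => ?_
              ring
          _ = 1 := by rw [h3]; simp [h3]
      rw [e1, e2]
      calc (∑ i : Fin (n + 1) × Fin (n + 1), (f i.1 * f i.2) * M.tau i.1 i.2 p) ^ 2
          ≤ (∑ i : Fin (n + 1) × Fin (n + 1), (f i.1 * f i.2) ^ 2) *
            ∑ i : Fin (n + 1) × Fin (n + 1), (M.tau i.1 i.2 p) ^ 2 :=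
              Finset.sum_mul_sq_le_sq_mul_sq _ _ _
        _ = _ := by rw [e3, one_mul]
    have h2 : TF ^ 2 ≤ Λ := h1.trans hbp.2.1
    apply abs_le_of_sq_le_sq _ (by positivity)
    nlinarith
  have hdb : |∑ k, e k * M.dl k (fun q => ∑ i, K i * P i q) p| ≤ (n + 1) * (CL * Real.sqrt ε) := by
    calc |∑ k, e k * M.dl k (fun q => ∑ i, K i * P i q) p|
        ≤ ∑ k, |e k * M.dl k (fun q => ∑ i, K i * P i q) p| := Finset.abs_sum_le_sum_abs _ _
      _ ≤ ∑ _k : Fin (n + 1), CL * Real.sqrt ε := by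
          refine Finset.sum_le_sum fun k _ => ?_
          rw [abs_mul]
          calc |e k| * |M.dl k (fun q => ∑ i, K i * P i q) p| ≤ 1 * (CL * Real.sqrt ε) :=
                mul_le_mul ((A0_coord e k).trans he.le) (hland k) (abs_nonneg _) (by norm_num)
            _ = CL * Real.sqrt ε := one_mul _
      _ = (n + 1) * (CL * Real.sqrt ε) := by
          rw [Finset.sum_const, Finset.card_univ, Fintype.card_fin, nsmul_eq_mul]
          push_cast; ring
  have hsq : ε ≤ Real.sqrt ε := by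
    apply Real.le_sqrt_of_sq_le
    nlinarith
  have hsq0 : 0 ≤ Real.sqrt ε := Real.sqrt_nonneg ε
  -- conclusion
  have hTFp : 1 / (n : ℝ) ≤ TF := hff
  have hTF0 : 0 < TF := lt_of_lt_of_le (by positivity) hTFp
  have c1 : |ZE * SF| ≤ (n + 1) * Λ * Real.sqrt ε := by
    rw [abs_mul]
    calc |ZE| * |SF| ≤ ((n + 1) * Λ) * ε :=
          mul_le_mul hZEb (by simpa using b1) (abs_nonneg _) (by positivity)
      _ ≤ (n + 1) * Λ * Real.sqrt ε := mul_le_mul_of_nonneg_left hsq (by positivity)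
  have c2 : |ZF * SE| ≤ (n + 1) * Λ * Real.sqrt ε := by
    rw [abs_mul]
    calc |ZF| * |SE| ≤ ((n + 1) * Λ) * ε :=
          mul_le_mul hZFb (by simpa using b2) (abs_nonneg _) (by positivity)
      _ ≤ (n + 1) * Λ * Real.sqrt ε := mul_le_mul_of_nonneg_left hsq (by positivity)
  have c3 : |TF * SX| ≤ (1 + Λ) * (n + 2) * Real.sqrt ε := by
    rw [abs_mul]
    have h1 : |SX| ≤ (n + 2) * ε := by
      refine b3.trans ?_
      have : ‖M.X p‖ * ε ≤ (n + 2) * ε := mul_le_mul_of_nonneg_right (by linarith) hε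
      linarith
    calc |TF| * |SX| ≤ (1 + Λ) * ((n + 2) * ε) :=
          mul_le_mul hTFb h1 (abs_nonneg _) (by positivity)
      _ ≤ (1 + Λ) * ((n + 2) * Real.sqrt ε) :=
          mul_le_mul_of_nonneg_left (mul_le_mul_of_nonneg_left hsq (by positivity)) (by positivity)
      _ = (1 + Λ) * (n + 2) * Real.sqrt ε := by ring
  have hfin : TF * (- M.tq e p) ≤ ((1 + Λ) * (n + 2) + 2 * (n + 1) * Λ + 2 * (n + 1) * CL)
      * Real.sqrt ε := by
    have h1 : 0 ≤ TF * BB := mul_nonneg hTF0.le hB2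
    have h2 := abs_le.1 c1
    have h3 := abs_le.1 c2
    have h4 := abs_le.1 c3
    have h5 := abs_le.1 hdb
    nlinarith [hmain]
  have htq0 : 0 ≤ - M.tq e p := by linarith
  have hfin2 : (1 / (n : ℝ)) * (- M.tq e p) ≤ ((1 + Λ) * (n + 2) + 2 * (n + 1) * Λ
      + 2 * (n + 1) * CL) * Real.sqrt ε :=
    (mul_le_mul_of_nonneg_right hTFp htq0).trans hfin
  calc - M.tq e p = n * ((1 / (n : ℝ)) * (- M.tq e p)) := by field_simp
    _ ≤ n * (((1 + Λ) * (n + 2) + 2 * (n + 1) * Λ + 2 * (n + 1) * CL) * Real.sqrt ε) :=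
        mul_le_mul_of_nonneg_left hfin2 hn0.le
    _ = _ := by ring

end

end Pool.Agent.ShG
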