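import Pool.Agent.ShG.Targets

/-! ALL: global dichotomy. -/

namespace Pool.Agent.ShG

open scoped BigOperators Topology ContDiff
open Set Filter

noncomputable section

open Hyp

lemma ALL_tendsto (x r0 m C : ℝ) (hm : 0 < m) :
    Tendsto (fun k : ℕ => C * Real.exp ((x - (r0 + k)) / m)) atTop (𝓝 0) := by
  have h1 : Tendsto (fun k : ℕ => (k : ℝ) / m) atTop atTop :=
    tendsto_natCast_atTop_atTop.atTop_div_const hm
  have h2 : Tendsto (fun k : ℕ => (x - r0) / m + -((k : ℝ) / m)) atTop atBot :=
    tendsto_atBot_add_const_left _ _ (tendsto_neg_atTop_atBot.comp h1)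
  have h3 : Tendsto (fun k : ℕ => C * Real.exp ((x - r0) / m + -((k : ℝ) / m))) atTop
      (𝓝 (C * 0)) := (Real.tendsto_exp_atBot.comp h2).const_mul C
  rw [mul_zero] at h3
  refine h3.congr fun k => ?_
  congr 2
  field_simp
  ring

theorem pALL (hBASE : tBASE) (hEXT : tEXT) (hLOWE : tLOWE) (hHW : tHW) : tALL := by
  intro n hn
  have hn2 : (2 : ℝ) ≤ n := by exact_mod_cast hn
  have hn0 : (0 : ℝ) < n := by linarith
  obtain ⟨ρ0, hρ0, hE⟩ := hEXT n hn
  obtain ⟨c1, hc1, hB⟩ := hBASE n ρ0 (1 / (200 * n)) hn (by positivity)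
  refine ⟨min c1 (1 / 100), lt_min hc1 (by norm_num), min_le_right _ _, ?_⟩
  intro S _ _ _ M hS hw
  have hStd : M.Std (min c1 (1 / 100)) :=
    ⟨hS, lt_min hc1 (by norm_num), min_le_right _ _, hw⟩
  have hB' := hB S M _ hStd (min_le_left _ _)
  have hlt : (1 : ℝ) / (200 * n) < 1 / (25 * n) := by
    apply one_div_lt_one_div_of_lt (by positivity)
    nlinarith
  have hD0 : Dich M ρ0 := by
    intro p hp
    rcases hB' p hp with h | h
    · left; linarith
    · right; linarith
  have hDk : ∀ k : ℕ, Dich M (ρ0 + k) := by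
    intro k
    induction k with
    | zero => simpa using hD0
    | succ k ih =>
      have h1 := hE S M _ hStd (fun p hp => hB' p (hp.trans hρ0)) (ρ0 + k)
        (by have : (0 : ℝ) ≤ k := Nat.cast_nonneg k
            linarith) ih
      have h2 : ρ0 + ((k + 1 : ℕ) : ℝ) = ρ0 + k + 1 := by push_cast; ring
      rw [h2]
      exact h1
  have hk : ∀ p : S, ∃ k0 : ℕ, ∀ k, k0 ≤ k → M.rho p ≤ ρ0 + k := by
    intro p
    obtain ⟨k0, hk0⟩ := exists_nat_ge (M.rho p - ρ0)
    refine ⟨k0, fun k hk => ?_⟩
    have : (k0 : ℝ) ≤ k := by exact_mod_cast hk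
    linarith
  have hD : ∀ p, 9/20 < |M.H p| ∨ M.w p < 1 / (25 * n) := by
    intro p
    obtain ⟨k0, hk0⟩ := hk p
    exact hDk k0 p (hk0 k0 le_rfl)
  have hcH : Continuous M.H := continuous_iff_continuousAt.2 fun p => (Sm.H M p).continuousAt
  have hcw : Continuous M.w := continuous_iff_continuousAt.2 fun p => (Sm.w M p).continuousAt
  have hexcl : ∀ p, 9/20 < |M.H p| → ¬ M.w p < 1 / (25 * n) := by
    intro p h1 h2
    have h3 := (hHW n S M p).1
    have h4 : (n : ℝ) * M.w p < 1 / 25 := by
      rw [lt_div_iff₀ (by positivity)] at h2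
      linarith
    have h5 : (81 : ℝ) / 400 < M.H p ^ 2 := by
      rw [← sq_abs]
      nlinarith
    linarith
  have hclop : IsClopen {p : S | 9/20 < |M.H p|} := by
    constructor
    · rw [← isOpen_compl_iff]
      have : {p : S | 9/20 < |M.H p|}ᶜ = {p | M.w p < 1 / (25 * n)} := by
        ext p
        constructor
        · intro h
          exact (hD p).resolve_left h
        · intro h h'
          exact hexcl p h' h
      rw [this]
      exact isOpen_lt hcw continuous_const
    · exact isOpen_lt continuous_const hcH.abs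
  rcases isClopen_iff.1 hclop with h | h
  · left
    intro p
    have hall : ∀ q, M.w q < 1 / (25 * n) := by
      intro q
      refine (hD q).resolve_left fun h1 => ?_
      have : q ∈ ({p : S | 9/20 < |M.H p|} : Set S) := h1
      rw [h] at this
      exact this
    obtain ⟨k0, hk0⟩ := hk p
    have hle : M.w p ≤ 0 := by
      refine ge_of_tendsto (ALL_tendsto (M.rho p) ρ0 (4 * n) (1 / (25 * n)) (by positivity)) ?_
      filter_upwards [eventually_ge_atTop k0] with k hk1
      exact hLOWE n (by omega) S M _ _ hStd (hDk k) p (hk0 k hk1) (hall p)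
    exact le_antisymm hle (w_nonneg p)
  · right
    intro p
    have : p ∈ ({p : S | 9/20 < |M.H p|} : Set S) := by rw [h]; exact mem_univ _
    exact this

end

end Pool.Agent.ShG
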