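import Pool.Agent.ShG.Targets

/-! Base of the continuation. -/

namespace Pool.Agent.ShG

open scoped BigOperators Topology ContDiff
open Set Filter Hyp

lemma BASE_norm {n : ℕ} {S : Type} [TopologicalSpace S] (M : Hyp n S) (p : S) {r : ℝ} (hr : 0 ≤ r)
    (h : M.rho p ≤ r ^ 2) : ‖M.X p‖ ≤ r := by
  unfold rho at h
  exact le_of_sq_le_sq h hr

theorem pBASE (hLEMA : tLEMA) (hLOWA : tLOWA) (hLOWC : tLOWC) (hSTR : tSTR) (hHLB : tHLB) :
    tBASE := by
  intro n r0 εw hn hεw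
  have hn1 : 1 ≤ n := by omega
  have hn0 : (0 : ℝ) < n := by exact_mod_cast (by omega : 0 < n)
  obtain ⟨δa, hδa0, hδa1, hA⟩ := hLEMA n (Real.sqrt (2 * n)) hn (Real.sqrt_nonneg _)
  set r1 : ℝ := Real.sqrt (max r0 0) with hr1
  have hr1sq : r1 ^ 2 = max r0 0 := Real.sq_sqrt (le_max_right _ _)
  have hr10 : 0 ≤ r1 := Real.sqrt_nonneg _
  obtain ⟨Rm, hRm⟩ := hLOWC n δa εw r1 hn1 hδa0 hδa1 hεw
  set R1 : ℝ := max Rm (max r1 (max 1 (Real.sqrt (2 * n)))) with hR1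
  have hR1a : Rm ≤ R1 := le_max_left _ _
  have hR1b : r1 ≤ R1 := (le_max_left _ _).trans (le_max_right _ _)
  have hR1c : 1 ≤ R1 := ((le_max_left _ _).trans (le_max_right _ _)).trans (le_max_right _ _)
  have hR10 : 0 < R1 := by linarith
  obtain ⟨δs, hδs0, hδs1, hB⟩ := hLEMA n R1 hn hR10.le
  set δb : ℝ := min δa δs with hδb
  have hδb0 : 0 < δb := lt_min hδa0 hδs0
  obtain ⟨η, hη0, hη⟩ := hHLB n
  obtain ⟨δ, hδ0, hδ⟩ := hSTR n R1 η hR10.le hη0
  set δ1 : ℝ := min (δb / 2) δ with hδ1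
  have hδ10 : 0 < δ1 := lt_min (by linarith) hδ0
  have hδ1b : δ1 < δb := lt_of_le_of_lt (min_le_left _ _) (by linarith)
  have hδba : δb ≤ δa := min_le_left _ _
  have hδbs : δb ≤ δs := min_le_right _ _
  obtain ⟨cA, hcA0, hcA⟩ := hA δ1 hδ10 (by linarith)
  obtain ⟨cB, hcB0, hcB⟩ := hB δ1 hδ10 (by linarith)
  have hR1sq : 0 < R1 ^ 2 := by positivity
  refine ⟨min cA (min cB (min (δa / 8) (n * δa / (5 * R1 ^ 2)))),
    lt_min hcA0 (lt_min hcB0 (lt_min (by linarith) (by positivity))), ?_⟩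
  intro S _ _ M c hstd hc p hp
  have hc1 : c ≤ cA := hc.trans (min_le_left _ _)
  have hc2 : c ≤ cB := (hc.trans (min_le_right _ _)).trans (min_le_left _ _)
  have hc3 : c ≤ δa / 8 :=
    ((hc.trans (min_le_right _ _)).trans (min_le_right _ _)).trans (min_le_left _ _)
  have hc4 : c ≤ n * δa / (5 * R1 ^ 2) :=
    ((hc.trans (min_le_right _ _)).trans (min_le_right _ _)).trans (min_le_right _ _)
  have hc5 : 5 * c * R1 ^ 2 < 2 * n * δa := by
    rw [le_div_iff₀ (by positivity)] at hc4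
    have : 0 < (n : ℝ) * δa := by positivity
    linarith
  have H1 : ∀ p, M.rho p ≤ 2 * n → M.vv c p < δ1 ∨ δa < M.vv c p := by
    intro p hp
    have h1 := hcA S M c hstd hc1 p (BASE_norm M p (Real.sqrt_nonneg _) (by
      rw [Real.sq_sqrt (by positivity)]; exact hp))
    by_contra hcon
    push Not at hcon
    exact h1 hcon
  have H2 : ∀ p, M.rho p ≤ R1 ^ 2 → M.vv c p < δ1 ∨ δb < M.vv c p := by
    intro p hp
    have h1 := hcB S M c hstd hc2 p (BASE_norm M p hR10.le hp)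
    by_contra hcon
    push Not at hcon
    exact h1 ⟨hcon.1, hcon.2.trans hδbs⟩
  have H3 := hLOWA n hn1 S M c δ1 δb δa R1 hstd hδ10 hδ1b hδba hR10 hc5 H1 H2
  have H4 := hRm R1 hR1a S M c δ1 δb hstd hc3 hδ10 hδ1b H2 H3
  have hp1 : M.rho p ≤ r1 ^ 2 := by
    rw [hr1sq]; exact hp.trans (le_max_left _ _)
  have hp2 : M.rho p ≤ R1 ^ 2 := hp1.trans (pow_le_pow_left₀ hr10 hR1b 2)
  rcases H2 p hp2 with h | h
  · left
    obtain ⟨_, h2, _, _, h5⟩ := hδ S M c hstd p (BASE_norm M p hR10.le hp2)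
      (h.le.trans (min_le_right _ _))
    exact hη S M p h2 h5
  · right
    exact H4 p hp1 h

end Pool.Agent.ShG
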