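import Pool.Agent.ShG.Targets

/-! BDS: bounds for the derived quantities where `|H| ≥ 2/5`, `|X| ≤ R`. -/

namespace Pool.Agent.ShG

open scoped BigOperators Topology ContDiff
open Set Filter

noncomputable section

variable {n : ℕ} {S : Type} [TopologicalSpace S] {M : Hyp n S} {p : S}

/-- value and first derivatives at `p` bounded by `K` -/
def BDS_1 (M : Hyp n S) (p : S) (K : ℝ) (Z : S → ℝ) : Prop :=
  M.Sm Z p ∧ |Z p| ≤ K ∧ ∀ f, |M.dl f Z p| ≤ K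

/-- value, first and second derivatives at `p` bounded by `K` -/
def BDS_2 (M : Hyp n S) (p : S) (K : ℝ) (Z : S → ℝ) : Prop :=
  M.Sm Z p ∧ |Z p| ≤ K ∧ ∀ f, BDS_1 M p K (M.dl f Z)

lemma BDS_nonneg1 {K : ℝ} {Z : S → ℝ} (h : BDS_1 M p K Z) : 0 ≤ K := (abs_nonneg _).trans h.2.1

lemma BDS_nonneg2 {K : ℝ} {Z : S → ℝ} (h : BDS_2 M p K Z) : 0 ≤ K := (abs_nonneg _).trans h.2.1

lemma BDS_21 {K : ℝ} {Z : S → ℝ} (h : BDS_2 M p K Z) : BDS_1 M p K Z :=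
  ⟨h.1, h.2.1, fun f => (h.2.2 f).2.1⟩

lemma BDS_mono1 {K L : ℝ} {Z : S → ℝ} (h : BDS_1 M p K Z) (hKL : K ≤ L) : BDS_1 M p L Z :=
  ⟨h.1, h.2.1.trans hKL, fun f => (h.2.2 f).trans hKL⟩

lemma BDS_mono2 {K L : ℝ} {Z : S → ℝ} (h : BDS_2 M p K Z) (hKL : K ≤ L) : BDS_2 M p L Z :=
  ⟨h.1, h.2.1.trans hKL, fun f => BDS_mono1 (h.2.2 f) hKL⟩

lemma BDS_congr1 {K : ℝ} {Z Z' : S → ℝ} (h : BDS_1 M p K Z) (e : Z' =ᶠ[𝓝 p] Z) :
    BDS_1 M p K Z' := by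
  refine ⟨h.1.congr e, ?_, fun f => ?_⟩
  · rw [e.self_of_nhds]; exact h.2.1
  · rw [M.dl_congr e]; exact h.2.2 f

lemma BDS_add1 {K L : ℝ} {Z W : S → ℝ} (h : BDS_1 M p K Z) (h' : BDS_1 M p L W) :
    BDS_1 M p (K + L) (fun q => Z q + W q) := by
  refine ⟨h.1.add h'.1, (abs_add_le _ _).trans (add_le_add h.2.1 h'.2.1), fun f => ?_⟩
  rw [Hyp.dl_add h.1 h'.1]
  exact (abs_add_le _ _).trans (add_le_add (h.2.2 f) (h'.2.2 f))

lemma BDS_neg1 {K : ℝ} {Z : S → ℝ} (h : BDS_1 M p K Z) :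
    BDS_1 M p K (fun q => - Z q) := by
  refine ⟨h.1.neg, by rw [abs_neg]; exact h.2.1, fun f => ?_⟩
  rw [Hyp.dl_neg h.1, abs_neg]
  exact h.2.2 f

lemma BDS_sub1 {K L : ℝ} {Z W : S → ℝ} (h : BDS_1 M p K Z) (h' : BDS_1 M p L W) :
    BDS_1 M p (K + L) (fun q => Z q - W q) := by
  refine ⟨h.1.sub h'.1, (abs_sub _ _).trans (add_le_add h.2.1 h'.2.1), fun f => ?_⟩
  rw [Hyp.dl_sub h.1 h'.1]
  exact (abs_sub _ _).trans (add_le_add (h.2.2 f) (h'.2.2 f))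

lemma BDS_mul1 {K L : ℝ} {Z W : S → ℝ} (h : BDS_1 M p K Z) (h' : BDS_1 M p L W) :
    BDS_1 M p (2 * K * L) (fun q => Z q * W q) := by
  have hK := BDS_nonneg1 h
  have hL := BDS_nonneg1 h'
  refine ⟨h.1.mul h'.1, ?_, fun f => ?_⟩
  · rw [abs_mul]
    have := mul_le_mul h.2.1 h'.2.1 (abs_nonneg _) hK
    nlinarith [mul_nonneg hK hL]
  · rw [Hyp.dl_mul h.1 h'.1]
    refine (abs_add_le _ _).trans ?_
    rw [abs_mul, abs_mul]
    have h1 := mul_le_mul h.2.1 (h'.2.2 f) (abs_nonneg _) hK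
    have h2 := mul_le_mul h'.2.1 (h.2.2 f) (abs_nonneg _) hL
    nlinarith

lemma BDS_sum1 {K : ℝ} {Z : Fin (n + 1) → S → ℝ} (h : ∀ i, BDS_1 M p K (Z i)) :
    BDS_1 M p ((n + 1) * K) (fun q => ∑ i, Z i q) := by
  refine ⟨Hyp.Sm.sum fun i _ => (h i).1, ?_, fun f => ?_⟩
  · refine (Finset.abs_sum_le_sum_abs _ _).trans ?_
    refine (Finset.sum_le_sum fun i _ => (h i).2.1).trans ?_
    simp
  · rw [Hyp.dl_sum fun i _ => (h i).1]
    refine (Finset.abs_sum_le_sum_abs _ _).trans ?_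
    refine (Finset.sum_le_sum fun i _ => (h i).2.2 f).trans ?_
    simp

lemma BDS_const1 (M : Hyp n S) (p : S) (c : ℝ) : BDS_1 M p |c| (fun _ => c) := by
  refine ⟨Hyp.Sm.const M c p, le_refl _, fun f => ?_⟩
  rw [Hyp.dl_const, abs_zero]
  exact abs_nonneg _

lemma BDS_mul2 {K L : ℝ} {Z W : S → ℝ} (h : BDS_2 M p K Z) (h' : BDS_2 M p L W) :
    BDS_2 M p (4 * K * L) (fun q => Z q * W q) := by
  have hK := BDS_nonneg2 h
  have hL := BDS_nonneg2 h'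
  refine ⟨h.1.mul h'.1, ?_, fun f => ?_⟩
  · rw [abs_mul]
    have := mul_le_mul h.2.1 h'.2.1 (abs_nonneg _) hK
    nlinarith [mul_nonneg hK hL]
  · have e : M.dl f (fun q => Z q * W q) =ᶠ[𝓝 p]
        fun q => Z q * M.dl f W q + W q * M.dl f Z q := by
      filter_upwards [h.1.eventually, h'.1.eventually] with q h1 h2
      exact Hyp.dl_mul h1 h2 f
    have h3 := BDS_add1 (BDS_mul1 (BDS_21 h) (h'.2.2 f)) (BDS_mul1 (BDS_21 h') (h.2.2 f))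
    exact BDS_congr1 (BDS_mono1 h3 (by nlinarith)) e

lemma BDS_sum2 {K : ℝ} {Z : Fin (n + 1) → S → ℝ} (h : ∀ i, BDS_2 M p K (Z i)) :
    BDS_2 M p ((n + 1) * K) (fun q => ∑ i, Z i q) := by
  refine ⟨Hyp.Sm.sum fun i _ => (h i).1, (BDS_sum1 fun i => BDS_21 (h i)).2.1, fun f => ?_⟩
  have e : M.dl f (fun q => ∑ i, Z i q) =ᶠ[𝓝 p] fun q => ∑ i, M.dl f (Z i) q := by
    have : ∀ᶠ q in 𝓝 p, ∀ i, M.Sm (Z i) q := eventually_all.2 fun i => (h i).1.eventually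
    filter_upwards [this] with q hq
    exact Hyp.dl_sum (fun i _ => hq i) f
  exact BDS_congr1 (BDS_sum1 fun i => (h i).2.2 f) e

lemma BDS_inv1 {L : ℝ} {W : S → ℝ} (h : BDS_1 M p L W) (h0 : 2/5 ≤ |W p|) :
    BDS_1 M p (5/2 + 25/4 * L) (fun q => (W q)⁻¹) := by
  have hL := BDS_nonneg1 h
  have hne : W p ≠ 0 := by
    intro h1
    rw [h1, abs_zero] at h0
    norm_num at h0
  have hinv : |W p|⁻¹ ≤ 5/2 := by
    rw [inv_le_comm₀ (by linarith) (by norm_num)]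
    linarith
  refine ⟨h.1.inv hne, ?_, fun f => ?_⟩
  · rw [abs_inv]
    linarith
  · rw [Hyp.dl_inv h.1 hne, abs_div, abs_neg, abs_pow]
    have h1 : |M.dl f W p| / |W p| ^ 2 = |M.dl f W p| * (|W p|⁻¹ * |W p|⁻¹) := by
      field_simp
    rw [h1]
    have h2 : |W p|⁻¹ * |W p|⁻¹ ≤ 5/2 * (5/2) :=
      mul_le_mul hinv hinv (by positivity) (by norm_num)
    have h3 := mul_le_mul (h.2.2 f) h2 (by positivity) hL
    linarith

lemma BDS_inv2 {L : ℝ} {W : S → ℝ} (h : BDS_2 M p L W) (h0 : 2/5 ≤ |W p|) :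
    BDS_2 M p ((5/2 + 25/4 * L) + 2 * L * (2 * (5/2 + 25/4 * L) * (5/2 + 25/4 * L)))
      (fun q => (W q)⁻¹) := by
  have hL := BDS_nonneg2 h
  have h1 := BDS_inv1 (BDS_21 h) h0
  have hI := BDS_nonneg1 h1
  have hne : W p ≠ 0 := by
    intro h1
    rw [h1, abs_zero] at h0
    norm_num at h0
  have hpos : 0 ≤ 2 * L * (2 * (5/2 + 25/4 * L) * (5/2 + 25/4 * L)) := by positivity
  refine ⟨h.1.inv hne, h1.2.1.trans (by linarith), fun f => ?_⟩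
  have e : M.dl f (fun q => (W q)⁻¹) =ᶠ[𝓝 p]
      fun q => (- M.dl f W q) * ((W q)⁻¹ * (W q)⁻¹) := by
    filter_upwards [h.1.eventually, h.1.continuousAt.eventually_ne hne] with q h2 h3
    rw [Hyp.dl_inv h2 h3]
    field_simp
  have h4 := BDS_mul1 (BDS_neg1 (h.2.2 f)) (BDS_mul1 h1 h1)
  exact BDS_congr1 (BDS_mono1 h4 (by linarith)) e

lemma BDS_sq {x C : ℝ} (hC : 0 ≤ C) (h : x ^ 2 ≤ C) : |x| ≤ C + 1 := by
  refine abs_le_of_sq_le_sq ?_ (by linarith) |> fun h => h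
  nlinarith

section data

variable {C R : ℝ}

/-- the basic constant -/
def BDS_K0 (C R : ℝ) : ℝ := C + R + 3

lemma BDS_B (hC : 0 ≤ C) (hR : 0 ≤ R) (hw : M.w p ≤ 2) (h1 : M.e1 p ≤ C) (h2 : M.e2 p ≤ C)
    (a b : Fin (n + 1)) : BDS_2 M p (BDS_K0 C R) (M.B a b) := by
  unfold BDS_K0
  refine ⟨Hyp.Sm.B M a b p, ?_, fun f => ⟨(Hyp.Sm.B M a b p).dl f, ?_, fun f' => ?_⟩⟩
  · have h3 : (M.B a b p) ^ 2 ≤ 2 := by
      refine le_trans ?_ hw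
      unfold Hyp.w
      refine le_trans ?_ (Finset.single_le_sum (f := fun a => ∑ b, (M.B a b p) ^ 2)
        (fun _ _ => Finset.sum_nonneg fun _ _ => sq_nonneg _) (Finset.mem_univ a))
      exact Finset.single_le_sum (f := fun b => (M.B a b p) ^ 2)
        (fun _ _ => sq_nonneg _) (Finset.mem_univ b)
    have := BDS_sq (by norm_num) h3
    linarith
  · have h3 : (M.dl f (M.B a b) p) ^ 2 ≤ C := by
      refine le_trans ?_ h1
      unfold Hyp.e1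
      refine le_trans ?_ (Finset.single_le_sum
        (f := fun f => ∑ a, ∑ b, (M.dl f (M.B a b) p) ^ 2)
        (fun _ _ => Finset.sum_nonneg fun _ _ => Finset.sum_nonneg fun _ _ => sq_nonneg _)
        (Finset.mem_univ f))
      refine le_trans ?_ (Finset.single_le_sum (f := fun a => ∑ b, (M.dl f (M.B a b) p) ^ 2)
        (fun _ _ => Finset.sum_nonneg fun _ _ => sq_nonneg _) (Finset.mem_univ a))
      exact Finset.single_le_sum (f := fun b => (M.dl f (M.B a b) p) ^ 2)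
        (fun _ _ => sq_nonneg _) (Finset.mem_univ b)
    have := BDS_sq hC h3
    linarith
  · have h3 : (M.dl f' (M.dl f (M.B a b)) p) ^ 2 ≤ C := by
      refine le_trans ?_ h2
      unfold Hyp.e2
      refine le_trans ?_ (Finset.single_le_sum
        (f := fun f' => ∑ f, ∑ a, ∑ b, (M.dl f' (M.dl f (M.B a b)) p) ^ 2)
        (fun _ _ => Finset.sum_nonneg fun _ _ => Finset.sum_nonneg fun _ _ =>
          Finset.sum_nonneg fun _ _ => sq_nonneg _)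
        (Finset.mem_univ f'))
      refine le_trans ?_ (Finset.single_le_sum
        (f := fun f => ∑ a, ∑ b, (M.dl f' (M.dl f (M.B a b)) p) ^ 2)
        (fun _ _ => Finset.sum_nonneg fun _ _ => Finset.sum_nonneg fun _ _ => sq_nonneg _)
        (Finset.mem_univ f))
      refine le_trans ?_ (Finset.single_le_sum
        (f := fun a => ∑ b, (M.dl f' (M.dl f (M.B a b)) p) ^ 2)
        (fun _ _ => Finset.sum_nonneg fun _ _ => sq_nonneg _) (Finset.mem_univ a))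
      exact Finset.single_le_sum (f := fun b => (M.dl f' (M.dl f (M.B a b)) p) ^ 2)
        (fun _ _ => sq_nonneg _) (Finset.mem_univ b)
    have := BDS_sq hC h3
    linarith

lemma BDS_coord (x : Fs n) (a : Fin (n + 1)) : |x a| ≤ ‖x‖ := by
  have := PiLp.norm_apply_le x a
  rwa [Real.norm_eq_abs] at this

lemma BDS_N (hC : 0 ≤ C) (hR : 0 ≤ R) (hw : M.w p ≤ 2) (h1 : M.e1 p ≤ C) (h2 : M.e2 p ≤ C)
    (a : Fin (n + 1)) : BDS_2 M p (BDS_K0 C R) (M.Nc a) := by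
  refine ⟨Hyp.Sm.Nc M a p, ?_, fun f => ?_⟩
  · have h3 := BDS_coord (M.N p) a
    rw [M.unit p] at h3
    unfold BDS_K0 Hyp.Nc
    linarith
  · have e : M.dl f (M.Nc a) = fun q => - M.B f a q := by
      funext q
      exact M.dl_Nc f a q
    rw [e]
    exact BDS_neg1 (BDS_21 (BDS_B hC hR hw h1 h2 f a))

lemma BDS_X (hC : 0 ≤ C) (hR : 0 ≤ R) (hw : M.w p ≤ 2) (h1 : M.e1 p ≤ C) (h2 : M.e2 p ≤ C)
    (hX : ‖M.X p‖ ≤ R) (a : Fin (n + 1)) :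
    BDS_2 M p (BDS_K0 C R + (1 + 2 * BDS_K0 C R * BDS_K0 C R)) (M.Xc a) := by
  have hK : 0 ≤ BDS_K0 C R := by unfold BDS_K0; linarith
  refine ⟨Hyp.Sm.Xc M a p, ?_, fun f => ?_⟩
  · have h3 := BDS_coord (M.X p) a
    have h4 : |M.Xc a p| ≤ BDS_K0 C R := by
      unfold BDS_K0 Hyp.Xc
      linarith
    have h5 : 0 ≤ 1 + 2 * BDS_K0 C R * BDS_K0 C R := by positivity
    linarith
  · have e : M.dl f (M.Xc a) = fun q => (if f = a then (1:ℝ) else 0) - M.Nc f q * M.Nc a q := by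
      funext q
      exact M.dl_X f a q
    rw [e]
    have h3 := BDS_const1 M p (if f = a then (1:ℝ) else 0)
    have h4 : |(if f = a then (1:ℝ) else 0)| ≤ 1 := by split_ifs <;> simp
    have h5 := BDS_sub1 (BDS_mono1 h3 h4)
      (BDS_mul1 (BDS_21 (BDS_N hC hR hw h1 h2 f)) (BDS_21 (BDS_N hC hR hw h1 h2 a)))
    exact BDS_mono1 h5 (by linarith)

end data

theorem pBDS (hBER : tBER) (hGH : tGH) : tBDS := by
  intro n R hR
  obtain ⟨C, hC, hB⟩ := hBER n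
  obtain ⟨K0, hK0⟩ : ∃ x : ℝ, x = BDS_K0 C R := ⟨_, rfl⟩
  have hK0p : 0 ≤ K0 := by rw [hK0]; unfold BDS_K0; linarith
  obtain ⟨KX, hKX⟩ : ∃ x : ℝ, x = K0 + (1 + 2 * K0 * K0) := ⟨_, rfl⟩
  obtain ⟨KH, hKH⟩ : ∃ x : ℝ, x = (n + 1) * K0 := ⟨_, rfl⟩
  obtain ⟨KI, hKI⟩ : ∃ x : ℝ, x = (5/2 + 25/4 * KH) + 2 * KH * (2 * (5/2 + 25/4 * KH) * (5/2 + 25/4 * KH)) := ⟨_, rfl⟩
  obtain ⟨KdH, hKdH⟩ : ∃ x : ℝ, x = (n + 1) * (4 * K0 * KX) := ⟨_, rfl⟩
  obtain ⟨KZ, hKZ⟩ : ∃ x : ℝ, x = 4 * KdH * KI := ⟨_, rfl⟩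
  obtain ⟨KT, hKT⟩ : ∃ x : ℝ, x = 4 * K0 * KI := ⟨_, rfl⟩
  obtain ⟨KZT, hKZT⟩ : ∃ x : ℝ, x = 4 * KZ * KT := ⟨_, rfl⟩
  obtain ⟨KB2, hKB2⟩ : ∃ x : ℝ, x = (n + 1) * (2 * K0 * K0) := ⟨_, rfl⟩
  obtain ⟨KT3, hKT3⟩ : ∃ x : ℝ, x = K0 + 2 * K0 * KB2 + 2 * K0 * KB2 := ⟨_, rfl⟩
  obtain ⟨KS, hKS⟩ : ∃ x : ℝ, x = 2 * (KT3 + 2 * KZ * K0) * KI := ⟨_, rfl⟩
  obtain ⟨Kw, hKw⟩ : ∃ x : ℝ, x = (n + 1) * ((n + 1) * (2 * K0 * K0)) := ⟨_, rfl⟩
  obtain ⟨KF, hKF⟩ : ∃ x : ℝ, x = 2 * Kw * (2 * KI * KI) := ⟨_, rfl⟩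
  have pX : 0 ≤ KX := by rw [hKX]; positivity
  have pH : 0 ≤ KH := by rw [hKH]; positivity
  have pI : 0 ≤ KI := by rw [hKI]; positivity
  have pdH : 0 ≤ KdH := by rw [hKdH]; positivity
  have pZ : 0 ≤ KZ := by rw [hKZ]; positivity
  have pT : 0 ≤ KT := by rw [hKT]; positivity
  have pZT : 0 ≤ KZT := by rw [hKZT]; positivity
  have pB2 : 0 ≤ KB2 := by rw [hKB2]; positivity
  have pT3 : 0 ≤ KT3 := by rw [hKT3]; positivity
  have pS : 0 ≤ KS := by rw [hKS]; positivity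
  have pw : 0 ≤ Kw := by rw [hKw]; positivity
  have pF : 0 ≤ KF := by rw [hKF]; positivity
  have p1 : 0 ≤ ((n:ℝ) + 1) * KF ^ 2 := by positivity
  have p2 : 0 ≤ ((n:ℝ) + 1) * (((n:ℝ) + 1) * (((n:ℝ) + 1) * KS ^ 2)) := by positivity
  have p3 : 0 ≤ ((n:ℝ) + 1) * KS ^ 2 := by positivity
  refine ⟨KZ + KF + ((n:ℝ) + 1) * KF ^ 2 + ((n:ℝ) + 1) * (((n:ℝ) + 1) * (((n:ℝ) + 1) * KS ^ 2)) +
    ((n:ℝ) + 1) * KS ^ 2 + KZT, by positivity, ?_⟩
  intro S _ _ M hM hw p hX hH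
  have hHne : M.H p ≠ 0 := by
    intro h1
    rw [h1, abs_zero] at hH
    norm_num at hH
  obtain ⟨h1, h2⟩ := hB S M hM hw p
  have bB : ∀ a b, BDS_2 M p K0 (M.B a b) := fun a b => by
    rw [hK0]; exact BDS_B hC hR (hw p) h1 h2 a b
  have bN : ∀ a, BDS_2 M p K0 (M.Nc a) := fun a => by
    rw [hK0]; exact BDS_N hC hR (hw p) h1 h2 a
  have bX : ∀ a, BDS_2 M p KX (M.Xc a) := fun a => by
    rw [hKX, hK0]; exact BDS_X hC hR (hw p) h1 h2 hX a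
  have bH : BDS_2 M p KH M.H := by
    rw [hKH]
    exact BDS_sum2 fun a => bB a a
  have bI : BDS_2 M p KI (fun q => (M.H q)⁻¹) := by
    rw [hKI]
    exact BDS_inv2 bH hH
  have bdH : ∀ a, BDS_2 M p KdH (M.dl a M.H) := by
    intro a
    have e : M.dl a M.H = fun q => ∑ b, M.B a b q * M.Xc b q := by
      funext q
      exact hGH n S M hM a q
    rw [e, hKdH]
    exact BDS_sum2 fun b => BDS_mul2 (bB a b) (bX b)
  have bZ : ∀ a, BDS_2 M p KZ (M.ze a) := by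
    intro a
    have e : M.ze a = fun q => M.dl a M.H q * (M.H q)⁻¹ := by
      funext q
      unfold Hyp.ze
      rw [div_eq_mul_inv]
    rw [e, hKZ]
    exact BDS_mul2 (bdH a) bI
  have bT : ∀ a b, BDS_2 M p KT (M.tau a b) := by
    intro a b
    have e : M.tau a b = fun q => M.B a b q * (M.H q)⁻¹ := by
      funext q
      unfold Hyp.tau
      rw [div_eq_mul_inv]
    rw [e, hKT]
    exact BDS_mul2 (bB a b) bI
  have bZT : ∀ a b c, BDS_2 M p KZT (fun q => M.ze a q * M.tau b c q) := fun a b c => by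
    rw [hKZT]
    exact BDS_mul2 (bZ a) (bT b c)
  have bB2 : ∀ a b, BDS_1 M p KB2 (M.B2 a b) := fun a b => by
    rw [hKB2]
    exact BDS_sum1 fun c => BDS_mul1 (BDS_21 (bB a c)) (BDS_21 (bB c b))
  have bT3 : ∀ a b c, BDS_1 M p KT3 (M.T3 a b c) := by
    intro a b c
    rw [hKT3]
    exact BDS_sub1 (BDS_sub1 ((bB b c).2.2 a) (BDS_mul1 (BDS_21 (bN b)) (bB2 a c)))
      (BDS_mul1 (BDS_21 (bN c)) (bB2 a b))
  have bS : ∀ a b c, BDS_1 M p KS (M.S3 a b c) := by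
    intro a b c
    have e : M.S3 a b c = fun q => (M.T3 a b c q - M.ze a q * M.B b c q) * (M.H q)⁻¹ := by
      funext q
      unfold Hyp.S3
      rw [div_eq_mul_inv]
    rw [e, hKS]
    exact BDS_mul1 (BDS_sub1 (bT3 a b c) (BDS_mul1 (BDS_21 (bZ a)) (BDS_21 (bB b c)))) (BDS_21 bI)
  have bF : BDS_1 M p KF M.Fq := by
    have e : M.Fq = fun q => (∑ a, ∑ b, M.B a b q * M.B a b q) * ((M.H q)⁻¹ * (M.H q)⁻¹) := by
      funext q
      unfold Hyp.Fq Hyp.w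
      rw [div_eq_mul_inv, sq, mul_inv]
      congr 1
      refine Finset.sum_congr rfl fun a _ => Finset.sum_congr rfl fun b _ => ?_
      rw [sq]
    rw [e, hKF, hKw]
    exact BDS_mul1 (BDS_sum1 fun a => BDS_sum1 fun b => BDS_mul1 (BDS_21 (bB a b)) (BDS_21 (bB a b)))
      (BDS_mul1 (BDS_21 bI) (BDS_21 bI))
  have sqle : ∀ {x K : ℝ}, |x| ≤ K → x ^ 2 ≤ K ^ 2 := by
    intro x K h
    rw [← sq_abs]
    exact pow_le_pow_left₀ (abs_nonneg _) h 2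
  have gs : ∀ {Z : S → ℝ} {K : ℝ}, BDS_1 M p K Z → M.gsq Z p ≤ ((n:ℝ) + 1) * K ^ 2 := by
    intro Z K h
    unfold Hyp.gsq
    refine (Finset.sum_le_sum fun a _ => sqle (h.2.2 a)).trans ?_
    simp
  refine ⟨fun a => ?_, ?_, ?_, ?_, fun a b c => ?_, fun a b c f => ?_, fun a b c f f' => ?_⟩
  · have := (bZ a).2.1
    linarith
  · have := (le_abs_self _).trans bF.2.1
    linarith
  · have := gs bF
    linarith
  · have h3 : M.ssq p ≤ ((n:ℝ) + 1) * (((n:ℝ) + 1) * (((n:ℝ) + 1) * KS ^ 2)) := by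
      unfold Hyp.ssq
      refine (Finset.sum_le_sum fun a _ => Finset.sum_le_sum fun b _ =>
        Finset.sum_le_sum fun c _ => sqle (bS a b c).2.1).trans ?_
      simp
    linarith
  · have := gs (bS a b c)
    linarith
  · have := ((bZT a b c).2.2 f).2.1
    linarith
  · have := ((bZT a b c).2.2 f).2.2 f'
    linarith

end

end Pool.Agent.ShG
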