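import Pool.Agent.ShG.Targets

/-! BER: global bounds for the first and second derivatives of the second fundamental form. -/

namespace Pool.Agent.ShG

open scoped BigOperators Topology ContDiff
open Set Filter Asymptotics

noncomputable section

lemma BER_e3 {n : ℕ} {S : Type} [TopologicalSpace S] (M : Hyp n S) (p : S) : 0 ≤ M.e3 p := by
  unfold Hyp.e3
  positivity

theorem pBER (hI1 : tI1) (hI2 : tI2) (hGE : tGE) (hCUT : tCUT) (hLW : tLW) (hT3 : tT3)
    (hHW : tHW) : tBER := by
  intro n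
  obtain ⟨A1, hA1, h1⟩ := hI1 n
  obtain ⟨C1, hC1⟩ := hCUT n (A1 + 20) (by linarith)
  obtain ⟨A2, hA2, h2⟩ := hI2 n C1
  have hA : 0 ≤ A1 + A2 + |C1| + A1 * |C1| + 4 := by positivity
  obtain ⟨C2, hC2⟩ := hCUT n (A1 + A2 + |C1| + A1 * |C1| + 4) hA
  have key : ∀ (S : Type) [TopologicalSpace S] (M : Hyp n S), M.Shr → (∀ p, M.w p ≤ 2) →
      ∀ p, M.e1 p ≤ C1 := by
    intro S _ M hM hw
    refine hC1 S M hM M.w M.e1 M.e2 (fun p => Hyp.Sm.w M p) (fun p => Hyp.Sm.e1 p)
      (fun p => Hyp.e1_nonneg p) (fun p => Hyp.e2_nonneg p) ?_ ?_ ?_ ?_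
    · intro p
      have := Hyp.w_nonneg (M := M) p
      rw [abs_of_nonneg this]
      have := hw p
      linarith
    · intro p
      have a1 := h1 S M hM p (hw p)
      have a2 := Hyp.e1_nonneg (M := M) p
      linarith
    · intro p
      have a1 := (hGE n S M p).1
      have a2 : 0 ≤ M.e1 p * M.e2 p := mul_nonneg (Hyp.e1_nonneg p) (Hyp.e2_nonneg p)
      have a3 : 0 ≤ (A1 + 16) * (M.e1 p * M.e2 p) := mul_nonneg (by linarith) a2
      linarith
    · intro p
      have a1 := (hLW n S M hM p).2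
      have a2 := (hT3 n S M p).2.2.2.1
      have a3 := (hHW n S M p).2.1
      have a4 := Hyp.w_nonneg (M := M) p
      have a5 := hw p
      have a6 := Hyp.e1_nonneg (M := M) p
      rw [a1, a2]
      nlinarith [mul_nonneg a4 (sub_nonneg.2 a5)]
  refine ⟨|C1| + |C2|, by positivity, fun S _ M hM hw p => ?_⟩
  have hk := key S M hM hw
  have b1 : C1 ≤ |C1| := le_abs_self C1
  have b2 : C2 ≤ |C2| := le_abs_self C2
  have b3 := abs_nonneg C1
  have b4 := abs_nonneg C2
  constructor
  · have := hk p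
    linarith
  · have hc2 : M.e2 p ≤ C2 := by
      refine hC2 S M hM M.e1 M.e2 M.e3 (fun p => Hyp.Sm.e1 p) (fun p => Hyp.Sm.e2 p)
        (fun p => Hyp.e2_nonneg p) (fun p => BER_e3 M p) ?_ ?_ ?_ ?_ p
      · intro p
        have a1 := Hyp.e1_nonneg (M := M) p
        rw [abs_of_nonneg a1]
        have a2 := hk p
        have a3 : 0 ≤ A1 * |C1| := mul_nonneg hA1 b3
        linarith
      · intro p
        have a1 := h2 S M hM p (hw p) (hk p)
        have a2 := Hyp.e2_nonneg (M := M) p
        have a3 : 0 ≤ A1 * |C1| := mul_nonneg hA1 b3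
        have a4 : 0 ≤ (A1 + |C1| + A1 * |C1| + 4) * M.e2 p := mul_nonneg (by linarith) a2
        linarith
      · intro p
        have a1 := (hGE n S M p).2
        have a2 : 0 ≤ M.e2 p * M.e3 p := mul_nonneg (Hyp.e2_nonneg p) (BER_e3 M p)
        have a3 : 0 ≤ (A1 + A2 + |C1| + A1 * |C1|) * (M.e2 p * M.e3 p) := mul_nonneg
          (by positivity) a2
        linarith
      · intro p
        have a1 := h1 S M hM p (hw p)
        have a2 : A1 * M.e1 p ≤ A1 * |C1| := mul_le_mul_of_nonneg_left ((hk p).trans b1) hA1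
        linarith
    linarith

end

end Pool.Agent.ShG
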