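import Pool.Agent.ShG.Targets

/-!
# Job ShG-BOC: Bochner formula for the drift Laplacian on a shrinker
-/

namespace Pool.Agent.ShG

open scoped BigOperators Topology ContDiff
open Set Filter Hyp

noncomputable section

theorem pBOC (hCOM : tCOM) : tBOC := by
  intro n S _ M hS Z p hZ
  have h1 : M.Lap (M.gsq Z) p = ∑ a, M.Lap (fun q => (M.dl a Z q) ^ 2) p :=
    Lap_sum (M := M) (s := Finset.univ) (Z := fun a q => (M.dl a Z q) ^ 2)
      fun a _ => (Sm.dl hZ a).pow 2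
  have h2 : ∀ a, M.Lap (fun q => (M.dl a Z q) ^ 2) p
      = 2 * M.dl a Z p * M.Lap (M.dl a Z) p + 2 * M.gsq (M.dl a Z) p :=
    fun a => Lap_sq (Sm.dl hZ a)
  have h3 : ∀ a, 2 * M.dl a Z p * M.Lap (M.dl a Z) p + 2 * M.gsq (M.dl a Z) p
      = 2 * (∑ b, (M.dl b (M.dl a Z) p) ^ 2) + 2 * (M.dl a Z p * M.dl a (M.Lap Z) p)
        + 2 * (M.dl a Z p) ^ 2 - 4 * (∑ b, M.B2 a b p * M.dl a Z p * M.dl b Z p)
        + 4 * (∑ b, ∑ c, M.B b c p * M.dl b (M.dl c Z) p) * (M.N p a * M.dl a Z p) := by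
    intro a
    have e : ∑ b, M.B2 a b p * M.dl a Z p * M.dl b Z p
        = M.dl a Z p * ∑ b, M.B2 a b p * M.dl b Z p := by
      rw [Finset.mul_sum]
      exact Finset.sum_congr rfl fun b _ => by ring
    have g : M.gsq (M.dl a Z) p = ∑ b, (M.dl b (M.dl a Z) p) ^ 2 := rfl
    rw [hCOM n S M hS Z p hZ a, e, g]
    ring
  have h4 : M.gsq Z p = ∑ a, (M.dl a Z p) ^ 2 := rfl
  rw [h1, Finset.sum_congr rfl fun a _ => (h2 a).trans (h3 a)]
  simp only [Finset.sum_add_distrib, Finset.sum_sub_distrib, ← Finset.mul_sum]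
  rw [dl_N (M := M) Z p, h4]
  ring

end

end Pool.Agent.ShG
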