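import Pool.Agent.ShG.TargetsX

/-! # `tCAL`: periodic profile curves are Abresch–Langer curves -/

namespace Pool.Agent.ShG

open scoped BigOperators Topology ContDiff
open Set Filter

noncomputable section

/-- the isometry of the plane -/
def CAL_e : ℂ ≃ₗᵢ[ℝ] EuclideanSpace ℝ (Fin 2) := Complex.orthonormalBasisOneI.repr

theorem CAL_e_apply (z : ℂ) : CAL_e z = WithLp.toLp 2 ![z.re, z.im] := by
  unfold CAL_e
  ext i
  simp

theorem CAL_alg (a b p q : ℝ) (h : p ^ 2 + q ^ 2 = 1) :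
    -(((a * p + b * q : ℝ) : ℂ) * (⟨p, q⟩ : ℂ))
      = -((⟨a, b⟩ : ℂ) - ((-(a * q) + b * p : ℝ) : ℝ) • (Complex.I * (⟨p, q⟩ : ℂ))) := by
  apply Complex.ext
  · simp
    linear_combination (-a) * h
  · simp
    linear_combination (-b) * h

theorem pCAL (hSMO : tSMO) : tCAL := by
  intro γ ν T hP hT hper
  have hsm := hSMO γ ν hP
  have hfun : (fun s => (WithLp.toLp 2 ![(γ s).re, (γ s).im] : EuclideanSpace ℝ (Fin 2)))
      = fun s => CAL_e (γ s) := by
    funext s
    exact (CAL_e_apply (γ s)).symm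
  rw [hfun]
  have hd1 : ∀ s, HasDerivAt (fun s => CAL_e (γ s)) (CAL_e (Complex.I * ν s)) s := by
    intro s
    exact (CAL_e.toContinuousLinearEquiv.toContinuousLinearMap.hasFDerivAt.comp_hasDerivAt s
      (hP s).1)
  have hderiv1 : deriv (fun s => CAL_e (γ s)) = fun s => CAL_e (Complex.I * ν s) :=
    funext fun s => (hd1 s).deriv
  have hd2 : ∀ s, HasDerivAt (fun s => CAL_e (Complex.I * ν s))
      (CAL_e (Complex.I * (Complex.I * ((γ s * (starRingEnd ℂ) (ν s)).re : ℂ) * ν s))) s := by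
    intro s
    exact (CAL_e.toContinuousLinearEquiv.toContinuousLinearMap.hasFDerivAt.comp_hasDerivAt s
      ((hP s).2.1.const_mul Complex.I))
  refine ⟨?_, ⟨T, hT, fun s => ?_⟩, ?_, ?_⟩
  · exact CAL_e.toContinuousLinearEquiv.toContinuousLinearMap.contDiff.comp hsm.1
  · change CAL_e (γ (s + T)) = CAL_e (γ s)
    rw [hper s]
  · intro s
    rw [hderiv1]
    change ‖CAL_e (Complex.I * ν s)‖ = 1
    rw [LinearIsometryEquiv.norm_map, norm_mul, Complex.norm_I, one_mul]
    exact (hP s).2.2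
  · intro s
    rw [hderiv1]
    change deriv (fun s => CAL_e (Complex.I * ν s)) s = -(CAL_e (γ s) -
      (inner ℝ (CAL_e (γ s)) (CAL_e (Complex.I * ν s)) : ℝ) • CAL_e (Complex.I * ν s))
    rw [(hd2 s).deriv, LinearIsometryEquiv.inner_map_map, ← LinearIsometryEquiv.map_smul,
      ← LinearIsometryEquiv.map_sub, ← map_neg CAL_e]
    congr 1
    have hn : (ν s).re ^ 2 + (ν s).im ^ 2 = 1 := by
      have h1 := (hP s).2.2
      have h2 : Complex.normSq (ν s) = 1 := by
        rw [Complex.normSq_eq_norm_sq, h1]; norm_num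
      rw [Complex.normSq_apply] at h2
      linarith [h2]
    have h3 := CAL_alg (γ s).re (γ s).im (ν s).re (ν s).im hn
    have h4 : (γ s * (starRingEnd ℂ) (ν s)).re
        = (γ s).re * (ν s).re + (γ s).im * (ν s).im := by
      simp [Complex.mul_re]
    have h5 : (inner ℝ (γ s) (Complex.I * ν s) : ℝ)
        = -((γ s).re * (ν s).im) + (γ s).im * (ν s).re := by
      rw [Complex.inner]
      simp [Complex.mul_re]
      ring
    rw [h4, h5]
    have h6 : (⟨(γ s).re, (γ s).im⟩ : ℂ) = γ s := Complex.eta _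
    have h7 : (⟨(ν s).re, (ν s).im⟩ : ℂ) = ν s := Complex.eta _
    rw [h6, h7] at h3
    rw [← h3]
    linear_combination (((γ s).re * (ν s).re + (γ s).im * (ν s).im : ℝ) : ℂ) * ν s * Complex.I_sq

end

end Pool.Agent.ShG
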