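import Pool.Agent.ShG.Targets

/-! CG1: the product case, algebra -/

namespace Pool.Agent.ShG

open scoped BigOperators Topology ContDiff
open Set Filter

noncomputable section

lemma CG1_rank1 {m : ℕ} (ζ : Fin m → ℝ) (τ : Fin m → Fin m → ℝ) (hs : ∀ a b, τ a b = τ b a)
    (h : ∀ a b c, ζ a * τ b c = ζ b * τ a c) (htr : ∑ a, τ a a = 1) (s : ℝ)
    (hsd : s = ∑ a, ζ a ^ 2) (hs0 : s ≠ 0) (b c : Fin m) : s * τ b c = ζ b * ζ c := by
  set u : Fin m → ℝ := fun c => ∑ a, ζ a * τ a c with hu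
  have E1 : ∀ b c, s * τ b c = ζ b * u c := by
    intro b c
    rw [hsd, hu, Finset.sum_mul, Finset.mul_sum]
    refine Finset.sum_congr rfl fun a _ => ?_
    linear_combination ζ a * h a b c
  have E2 : ∀ b c, ζ b * u c = ζ c * u b := by
    intro b c
    rw [← E1, ← E1, hs]
  have E3 : ∑ b, ζ b * u b = s := by
    have : ∑ b, s * τ b b = ∑ b, ζ b * u b := Finset.sum_congr rfl fun b _ => E1 b b
    rw [← this, ← Finset.mul_sum, htr, mul_one]
  have E4 : ∀ c, s * u c = s * ζ c := by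
    intro c
    calc s * u c = ∑ b, ζ b * (ζ b * u c) := by
          rw [hsd, Finset.sum_mul]
          exact Finset.sum_congr rfl fun b _ => by ring
      _ = ∑ b, ζ c * (ζ b * u b) := Finset.sum_congr rfl fun b _ => by rw [E2 b c]; ring
      _ = s * ζ c := by rw [← Finset.mul_sum, E3]; ring
  rw [E1, mul_left_cancel₀ hs0 (E4 c)]

lemma CG1_idem {m : ℕ} (ζ : Fin m → ℝ) (τ : Fin m → Fin m → ℝ) (s : ℝ)
    (hsd : s = ∑ a, ζ a ^ 2) (hs0 : s ≠ 0) (h : ∀ b c, s * τ b c = ζ b * ζ c) (a b : Fin m) :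
    ∑ c, τ a c * τ c b = τ a b := by
  have h1 : s * s * ∑ c, τ a c * τ c b = s * s * τ a b := by
    calc s * s * ∑ c, τ a c * τ c b = ∑ c, (s * τ a c) * (s * τ c b) := by
          rw [Finset.mul_sum]
          exact Finset.sum_congr rfl fun c _ => by ring
      _ = ∑ c, (ζ a * ζ b) * ζ c ^ 2 := Finset.sum_congr rfl fun c _ => by rw [h, h]; ring
      _ = s * (s * τ a b) := by rw [← Finset.mul_sum, ← hsd, h]; ring
      _ = s * s * τ a b := by ring
  exact mul_left_cancel₀ (mul_ne_zero hs0 hs0) h1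

lemma CG1_zero {m : ℕ} (N P Q : Fin m → ℝ) (W : Fin m → Fin m → ℝ)
    (h1 : ∀ b, ∑ a, N a * W a b = 0) (h2 : ∀ a, ∑ b, N b * W a b = 0) :
    ∑ a, ∑ b, W a b * (N a * P b + N b * Q a) = 0 := by
  have e1 : ∑ a, ∑ b, W a b * (N a * P b) = 0 := by
    rw [Finset.sum_comm]
    refine Finset.sum_eq_zero fun b _ => ?_
    have : ∑ a, W a b * (N a * P b) = P b * ∑ a, N a * W a b := by
      rw [Finset.mul_sum]
      exact Finset.sum_congr rfl fun a _ => by ring
    rw [this, h1, mul_zero]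
  have e2 : ∑ a, ∑ b, W a b * (N b * Q a) = 0 := by
    refine Finset.sum_eq_zero fun a _ => ?_
    have : ∑ b, W a b * (N b * Q a) = Q a * ∑ b, N b * W a b := by
      rw [Finset.mul_sum]
      exact Finset.sum_congr rfl fun b _ => by ring
    rw [this, h2, mul_zero]
  calc ∑ a, ∑ b, W a b * (N a * P b + N b * Q a)
      = ∑ a, ∑ b, W a b * (N a * P b) + ∑ a, ∑ b, W a b * (N b * Q a) := by
        rw [← Finset.sum_add_distrib]
        refine Finset.sum_congr rfl fun a _ => ?_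
        rw [← Finset.sum_add_distrib]
        exact Finset.sum_congr rfl fun b _ => by ring
    _ = 0 := by rw [e1, e2, add_zero]

section main

variable {n : ℕ} {S : Type} [TopologicalSpace S] (M : Hyp n S)

lemma CG1_S3 {p : S} (h : M.ssq p = 0) (a b c : Fin (n + 1)) : M.S3 a b c p = 0 := by
  unfold Hyp.ssq at h
  have h1 := (Finset.sum_eq_zero_iff_of_nonneg (fun a _ => Finset.sum_nonneg fun b _ =>
    Finset.sum_nonneg fun c _ => sq_nonneg (M.S3 a b c p))).1 h a (Finset.mem_univ a)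
  have h2 := (Finset.sum_eq_zero_iff_of_nonneg (fun b _ =>
    Finset.sum_nonneg fun c _ => sq_nonneg (M.S3 a b c p))).1 h1 b (Finset.mem_univ b)
  have h3 := (Finset.sum_eq_zero_iff_of_nonneg (fun c _ =>
    sq_nonneg (M.S3 a b c p))).1 h2 c (Finset.mem_univ c)
  exact pow_eq_zero_iff (two_ne_zero) |>.1 h3

lemma CG1_tau_symm (a b : Fin (n + 1)) (p : S) : M.tau a b p = M.tau b a p := by
  unfold Hyp.tau; rw [M.B_symm a b p]

lemma CG1_Ntau (b : Fin (n + 1)) (p : S) : ∑ a, M.N p a * M.tau a b p = 0 := by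
  have : ∑ a, M.N p a * M.tau a b p = (∑ a, M.N p a * M.B a b p) / M.H p := by
    rw [Finset.sum_div]
    refine Finset.sum_congr rfl fun a _ => ?_
    unfold Hyp.tau; ring
  rw [this, M.B_N_left b p, zero_div]

lemma CG1_tauN (a : Fin (n + 1)) (p : S) : ∑ b, M.tau a b p * M.N p b = 0 := by
  rw [← CG1_Ntau M a p]
  refine Finset.sum_congr rfl fun b _ => ?_
  rw [CG1_tau_symm M a b p]; ring

lemma CG1_const [PreconnectedSpace S] (hH : ∀ p, M.H p ≠ 0)
    (hd : ∀ p a b c, M.dl a (M.tau b c) p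
      = (M.N p b * M.B2 a c p + M.N p c * M.B2 a b p) / M.H p)
    (p0 : S) (h0 : ∀ a b, ∑ c, M.tau a c p0 * M.tau c b p0 = M.tau a b p0) (p : S)
    (a b : Fin (n + 1)) : ∑ c, M.tau a c p * M.tau c b p = M.tau a b p := by
  set W : Fin (n + 1) → Fin (n + 1) → S → ℝ :=
    fun a b q => (∑ c, M.tau a c q * M.tau c b q) - M.tau a b q with hW
  have smt : ∀ a b q, M.Sm (M.tau a b) q := fun a b q => Hyp.Sm.tau (hH q) a b
  have smW2 : ∀ a b q, M.Sm (fun q => ∑ c, M.tau a c q * M.tau c b q) q := fun a b q =>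
    Hyp.Sm.sum fun c _ => (smt a c q).mul (smt c b q)
  have smW : ∀ a b q, M.Sm (W a b) q := fun a b q => (smW2 a b q).sub (smt a b q)
  set E : S → ℝ := fun q => ∑ a, ∑ b, (W a b q) ^ 2 with hE
  have smE : ∀ q, M.Sm E q := fun q =>
    Hyp.Sm.sum fun a _ => Hyp.Sm.sum fun b _ => (smW a b q).pow 2
  have NW : ∀ b q, ∑ a, M.N q a * W a b q = 0 := by
    intro b q
    have e : ∑ a, M.N q a * W a b q
        = ∑ c, (∑ a, M.N q a * M.tau a c q) * M.tau c b q - ∑ a, M.N q a * M.tau a b q := by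
      simp only [hW, mul_sub, Finset.sum_sub_distrib, Finset.mul_sum, Finset.sum_mul]
      rw [Finset.sum_comm]
      congr 1
      exact Finset.sum_congr rfl fun c _ => Finset.sum_congr rfl fun a _ => by ring
    rw [e, CG1_Ntau]
    simp [CG1_Ntau]
  have Wsymm : ∀ a b q, W a b q = W b a q := by
    intro a b q
    simp only [hW]
    rw [CG1_tau_symm M a b q]
    congr 1
    refine Finset.sum_congr rfl fun c _ => ?_
    rw [CG1_tau_symm M a c q, CG1_tau_symm M c b q]; ring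
  have NW' : ∀ a q, ∑ b, M.N q b * W a b q = 0 := by
    intro a q
    rw [← NW a q]
    exact Finset.sum_congr rfl fun b _ => by rw [Wsymm a b q]
  have dW : ∀ c a b q, M.dl c (W a b) q
      = M.N q a * ((∑ d, M.tau d b q * M.B2 c d q - M.B2 c b q) / M.H q)
        + M.N q b * ((∑ d, M.tau a d q * M.B2 c d q - M.B2 c a q) / M.H q) := by
    intro c a b q
    have e1 : M.dl c (W a b) q = M.dl c (fun q => ∑ c, M.tau a c q * M.tau c b q) q
        - M.dl c (M.tau a b) q := Hyp.dl_sub (smW2 a b q) (smt a b q) c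
    rw [e1, Hyp.dl_sum (fun d _ => (smt a d q).mul (smt d b q)), hd]
    have e2 : ∀ d, M.dl c (fun q => M.tau a d q * M.tau d b q) q
        = M.tau a d q * M.N q d * (M.B2 c b q / M.H q)
          + M.N q b * (M.tau a d q * M.B2 c d q / M.H q)
          + M.N q d * M.tau d b q * (M.B2 c a q / M.H q)
          + M.N q a * (M.tau d b q * M.B2 c d q / M.H q) := by
      intro d
      rw [Hyp.dl_mul (smt a d q) (smt d b q), hd, hd]
      ring
    rw [Finset.sum_congr rfl fun d _ => e2 d]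
    simp only [Finset.sum_add_distrib]
    rw [← Finset.sum_mul, CG1_tauN, zero_mul, ← Finset.sum_mul, CG1_Ntau, zero_mul,
      ← Finset.mul_sum, ← Finset.mul_sum, ← Finset.sum_div, ← Finset.sum_div]
    ring
  have dE : ∀ q c, M.dl c E q = 0 := by
    intro q c
    have e1 : M.dl c E q = ∑ a, ∑ b, 2 * (W a b q * M.dl c (W a b) q) := by
      rw [hE, Hyp.dl_sum (fun a _ => Hyp.Sm.sum fun b _ => (smW a b q).pow 2)]
      refine Finset.sum_congr rfl fun a _ => ?_
      rw [Hyp.dl_sum (fun b _ => (smW a b q).pow 2)]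
      refine Finset.sum_congr rfl fun b _ => ?_
      rw [Hyp.dl_sq (smW a b q)]; ring
    have e2 : ∑ a, ∑ b, W a b q * M.dl c (W a b) q = 0 := by
      rw [Finset.sum_congr rfl fun a _ => Finset.sum_congr rfl fun b _ => by rw [dW c a b q]]
      exact CG1_zero (fun a => M.N q a)
        (fun b => (∑ d, M.tau d b q * M.B2 c d q - M.B2 c b q) / M.H q)
        (fun a => (∑ d, M.tau a d q * M.B2 c d q - M.B2 c a q) / M.H q)
        (fun a b => W a b q) (fun b => NW b q) (fun a => NW' a q)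
    rw [e1]
    simp only [← Finset.mul_sum]
    rw [e2, mul_zero]
  have E0 : E p = 0 := by
    rw [Hyp.const_of_dl_zero smE dE p p0]
    simp only [hE]
    refine Finset.sum_eq_zero fun a _ => Finset.sum_eq_zero fun b _ => ?_
    simp only [hW]
    rw [h0 a b]; ring
  have h1 := (Finset.sum_eq_zero_iff_of_nonneg (fun a _ => Finset.sum_nonneg fun b _ =>
    sq_nonneg (W a b p))).1 E0 a (Finset.mem_univ a)
  have h2 := (Finset.sum_eq_zero_iff_of_nonneg (fun b _ =>
    sq_nonneg (W a b p))).1 h1 b (Finset.mem_univ b)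
  have h3 : W a b p = 0 := pow_eq_zero_iff (two_ne_zero) |>.1 h2
  simp only [hW] at h3
  linarith

end main

theorem pCG1 (hTAU : tTAU) : tCG1 := by
  intro n _ S _ _ _ M hShr hH0 hss hgr
  have hH : ∀ p, M.H p ≠ 0 := by
    intro p h
    have := hH0 p
    rw [h, abs_zero] at this
    linarith
  obtain ⟨p0, hp0⟩ := hgr
  have S0 : ∀ p a b c, M.S3 a b c p = 0 := fun p a b c => CG1_S3 M (hss p) a b c
  have hd : ∀ p a b c, M.dl a (M.tau b c) p
      = (M.N p b * M.B2 a c p + M.N p c * M.B2 a b p) / M.H p := by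
    intro p a b c
    have := (hTAU n S M hShr p (hH p)).1 a b c
    rw [this, S0, zero_add]
  -- the point p0
  set ζ : Fin (n + 1) → ℝ := fun a => M.ze a p0 with hζ
  set s : ℝ := ∑ a, ζ a ^ 2 with hs
  have hs0 : s ≠ 0 := by
    intro h
    apply hp0
    have h1 := (Finset.sum_eq_zero_iff_of_nonneg (fun a _ => sq_nonneg (ζ a))).1 (hs.symm.trans h)
    unfold Hyp.gsq
    refine Finset.sum_eq_zero fun a _ => ?_
    have h2 : ζ a = 0 := pow_eq_zero_iff (two_ne_zero) |>.1 (h1 a (Finset.mem_univ a))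
    simp only [hζ, Hyp.ze] at h2
    rcases div_eq_zero_iff.1 h2 with h3 | h3
    · rw [h3]; ring
    · exact absurd h3 (hH p0)
  have hspos : 0 < s := lt_of_le_of_ne (Finset.sum_nonneg fun a _ => sq_nonneg (ζ a)) (Ne.symm hs0)
  have hT0 := hTAU n S M hShr p0 (hH p0)
  have hr1 : ∀ b c, s * M.tau b c p0 = ζ b * ζ c := by
    refine CG1_rank1 ζ (fun b c => M.tau b c p0) (fun a b => CG1_tau_symm M a b p0) ?_
      hT0.2.2.2.2.2.1 s hs hs0
    intro a b c
    have := hT0.2.2.2.2.1 a b c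
    rw [S0, S0] at this
    simp only [hζ]
    linarith
  have hid0 : ∀ a b, ∑ c, M.tau a c p0 * M.tau c b p0 = M.tau a b p0 :=
    CG1_idem ζ (fun b c => M.tau b c p0) s hs hs0 hr1
  have hid : ∀ p a b, ∑ c, M.tau a c p * M.tau c b p = M.tau a b p := fun p a b =>
    CG1_const M hH hd p0 hid0 p a b
  have hB : ∀ p a b, M.B a b p = M.H p * M.tau a b p := by
    intro p a b
    unfold Hyp.tau
    field_simp [hH p]
  have hB2 : ∀ p a b, M.B2 a b p = M.H p * M.B a b p := by
    intro p a b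
    unfold Hyp.B2
    rw [hB p a b, ← hid p a b, Finset.mul_sum, Finset.mul_sum]
    refine Finset.sum_congr rfl fun c _ => ?_
    rw [hB p a c, hB p c b]; ring
  -- the constant tensor
  have hQ : ∀ p a b, M.N p a * M.N p b + M.tau a b p
      = M.N p0 a * M.N p0 b + M.tau a b p0 := by
    intro p a b
    have smN : ∀ q, M.Sm (fun q => M.Nc a q * M.Nc b q) q := fun q =>
      (Hyp.Sm.Nc M a q).mul (Hyp.Sm.Nc M b q)
    have smt : ∀ q, M.Sm (M.tau a b) q := fun q => Hyp.Sm.tau (hH q) a b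
    refine Hyp.const_of_dl_zero (M := M) (Z := fun q => M.Nc a q * M.Nc b q + M.tau a b q)
      (fun q => (smN q).add (smt q)) ?_ p p0
    intro q c
    rw [Hyp.dl_add (smN q) (smt q), Hyp.dl_mul (Hyp.Sm.Nc M a q) (Hyp.Sm.Nc M b q),
      Hyp.dl_Nc, Hyp.dl_Nc, hd, hB2, hB2]
    have := hH q
    unfold Hyp.Nc
    field_simp
    ring
  set r : ℝ := Real.sqrt s with hr
  have hrpos : 0 < r := Real.sqrt_pos.2 hspos
  have hrr : r * r = s := Real.mul_self_sqrt hspos.le
  set f0 : Fs n := M.N p0 with hf0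
  set f1 : Fs n := WithLp.toLp 2 (fun a => ζ a / r) with hf1
  have f1a : ∀ a, f1 a = ζ a / r := fun a => rfl
  have nf0 : ‖f0‖ = 1 := M.unit p0
  have nf1 : ‖f1‖ = 1 := by
    have h1 : ‖f1‖ ^ 2 = 1 := by
      rw [← real_inner_self_eq_norm_sq, Hyp.inner_sum]
      have : ∀ a, f1 a * f1 a = ζ a ^ 2 / s := by
        intro a
        rw [f1a, ← hrr]
        field_simp
      rw [Finset.sum_congr rfl fun a _ => this a, ← Finset.sum_div, ← hs, div_self hs0]
    have h2 := norm_nonneg f1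
    nlinarith
  have n01 : inner ℝ f0 f1 = (0:ℝ) := by
    rw [Hyp.inner_sum]
    have : ∑ a, f0 a * f1 a = (∑ a, M.N p0 a * M.dl a M.H p0) / (M.H p0 * r) := by
      rw [Finset.sum_div]
      refine Finset.sum_congr rfl fun a _ => ?_
      rw [f1a]
      simp only [hζ, Hyp.ze, hf0]
      have := hH p0
      field_simp
    rw [this, M.dl_N, zero_div]
  have ht0 : ∀ a b, M.tau a b p0 = f1 a * f1 b := by
    intro a b
    have h1 := hr1 a b
    rw [f1a, f1a]
    have h2 : M.tau a b p0 = ζ a * ζ b / s := by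
      rw [← h1]; field_simp
    rw [h2, ← hrr]
    field_simp
  have hQ' : ∀ p a b, M.N p a * M.N p b + M.tau a b p = f0 a * f0 b + f1 a * f1 b := by
    intro p a b
    rw [hQ p a b, ht0]
  refine ⟨f0, f1, nf0, nf1, n01, fun p => ?_⟩
  set n0 : ℝ := inner ℝ (M.N p) f0 with hn0
  set n1 : ℝ := inner ℝ (M.N p) f1 with hn1
  have hNa : ∀ a, M.N p a = n0 * f0 a + n1 * f1 a := by
    intro a
    have h1 : ∑ b, (M.N p a * M.N p b + M.tau a b p) * M.N p b = M.N p a := by
      simp only [add_mul, Finset.sum_add_distrib]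
      rw [CG1_tauN, add_zero]
      have : ∑ b, M.N p a * M.N p b * M.N p b = M.N p a * ∑ b, M.N p b * M.N p b := by
        rw [Finset.mul_sum]
        exact Finset.sum_congr rfl fun b _ => by ring
      rw [this, M.sum_NN, mul_one]
    have h2 : ∑ b, (f0 a * f0 b + f1 a * f1 b) * M.N p b = n0 * f0 a + n1 * f1 a := by
      rw [hn0, hn1, Hyp.inner_sum, Hyp.inner_sum, Finset.sum_mul, Finset.sum_mul,
        ← Finset.sum_add_distrib]
      exact Finset.sum_congr rfl fun b _ => by ring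
    rw [← h1, ← h2]
    exact Finset.sum_congr rfl fun b _ => by rw [hQ' p a b]
  have hN : M.N p = n0 • f0 + n1 • f1 := by
    ext a
    rw [hNa a]
    simp
  have hnn : n0 ^ 2 + n1 ^ 2 = 1 := by
    have h1 : ∑ a, M.N p a * M.N p a = n0 ^ 2 + n1 ^ 2 := by
      have : ∀ a, M.N p a * M.N p a = n0 * (M.N p a * f0 a) + n1 * (M.N p a * f1 a) := by
        intro a
        nth_rewrite 2 [hNa a]
        ring
      rw [Finset.sum_congr rfl fun a _ => this a, Finset.sum_add_distrib, ← Finset.mul_sum,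
        ← Finset.mul_sum, ← Hyp.inner_sum, ← Hyp.inner_sum, ← hn0, ← hn1]
      ring
    rw [← h1, M.sum_NN]
  refine ⟨hN, fun x => ?_⟩
  have hz : ∀ a b, M.tau a b p = (-n1 * f0 a + n0 * f1 a) * (-n1 * f0 b + n0 * f1 b) := by
    intro a b
    have h1 := hQ' p a b
    rw [hNa a, hNa b] at h1
    linear_combination h1 + (-(f0 a * f0 b + f1 a * f1 b)) * hnn
  ext a
  rw [Hyp.Bv_apply]
  have hin : inner ℝ x (-n1 • f0 + n0 • f1) = ∑ b, x b * (-n1 * f0 b + n0 * f1 b) := by
    rw [Hyp.inner_sum]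
    refine Finset.sum_congr rfl fun b _ => ?_
    simp
  rw [hin]
  have e : ((M.H p * ∑ b, x b * (-n1 * f0 b + n0 * f1 b)) • (-n1 • f0 + n0 • f1) : Fs n) a
      = (M.H p * ∑ b, x b * (-n1 * f0 b + n0 * f1 b)) * (-n1 * f0 a + n0 * f1 a) := by
    simp
    ring
  rw [e, Finset.mul_sum, Finset.sum_mul]
  refine Finset.sum_congr rfl fun b _ => ?_
  rw [hB p a b, hz a b]
  ring

end

end Pool.Agent.ShG
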