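import Pool.Agent.ShG.Targets

/-! The product case: the image of the hypersurface (target tCG2). -/

namespace Pool.Agent.ShG

open scoped BigOperators Topology ContDiff
open Set Filter

noncomputable section

/-- the complex coordinate determines the two inner products -/
lemma CG2_cx_ext {n : ℕ} {f0 f1 x y : Fs n} (h : cx f0 f1 x = cx f0 f1 y) :
    (inner ℝ x f0 : ℝ) = inner ℝ y f0 ∧ (inner ℝ x f1 : ℝ) = inner ℝ y f1 := by
  constructor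
  · exact congrArg Complex.re h
  · exact congrArg Complex.im h

/-- the complex coordinate of the normal is a unit complex number -/
lemma CG2_unit {n : ℕ} {S : Type} [TopologicalSpace S] (M : Hyp n S) {f0 f1 : Fs n}
    (hP : Prd M f0 f1) (p : S) : ‖cx f0 f1 (M.N p)‖ = 1 := by
  obtain ⟨h0, h1, h01, h⟩ := hP
  obtain ⟨hN, -⟩ := h p
  set a : ℝ := inner ℝ (M.N p) f0 with ha
  set b : ℝ := inner ℝ (M.N p) f1 with hb
  have hn : ‖M.N p‖ ^ 2 = a ^ 2 + b ^ 2 := by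
    have e1 : ‖M.N p‖ ^ 2 = inner ℝ (M.N p) (M.N p) := (real_inner_self_eq_norm_sq _).symm
    have e2 : (inner ℝ (M.N p) (M.N p) : ℝ) = inner ℝ (M.N p) (a • f0 + b • f1) := by
      rw [← hN]
    rw [e1, e2, inner_add_right, inner_smul_right, inner_smul_right, ← ha, ← hb]
    ring
  rw [M.unit p] at hn
  have h2 : ‖cx f0 f1 (M.N p)‖ ^ 2 = 1 := by
    rw [Complex.sq_norm, Complex.normSq_apply]
    simp only [cx]
    rw [← ha, ← hb]
    nlinarith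
  have h3 : 0 ≤ ‖cx f0 f1 (M.N p)‖ := norm_nonneg _
  nlinarith

/-- orthogonal component: it is orthogonal to `f0` and `f1` -/
lemma CG2_orth {n : ℕ} {f0 f1 : Fs n} (h0 : ‖f0‖ = 1) (h1 : ‖f1‖ = 1)
    (h01 : inner ℝ f0 f1 = (0:ℝ)) (x : Fs n) :
    inner ℝ (x - (inner ℝ x f0 : ℝ) • f0 - (inner ℝ x f1 : ℝ) • f1) f0 = (0:ℝ) ∧
    inner ℝ (x - (inner ℝ x f0 : ℝ) • f0 - (inner ℝ x f1 : ℝ) • f1) f1 = (0:ℝ) := by
  have h10 : inner ℝ f1 f0 = (0:ℝ) := by rw [real_inner_comm]; exact h01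
  have h00 : inner ℝ f0 f0 = (1:ℝ) := by rw [real_inner_self_eq_norm_sq, h0]; norm_num
  have h11 : inner ℝ f1 f1 = (1:ℝ) := by rw [real_inner_self_eq_norm_sq, h1]; norm_num
  constructor
  · rw [inner_sub_left, inner_sub_left, real_inner_smul_left, real_inner_smul_left, h00, h10]
    ring
  · rw [inner_sub_left, inner_sub_left, real_inner_smul_left, real_inner_smul_left, h01, h11]
    ring

/-- the set of points whose state lies on the profile curve is everything -/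
lemma CG2_all (hTRA : tTRA) (hUGC : tUGC) (n : ℕ) (S : Type) [TopologicalSpace S] [T2Space S]
    [ConnectedSpace S] (M : Hyp n S) (f0 f1 : Fs n) (hS : M.Shr) (hw : ∀ p, M.w p ≤ 2)
    (hP : Prd M f0 f1) (γ ν : ℝ → ℂ) (hpr : Prof γ ν) (p0 : S) (s0 : ℝ)
    (e0 : cx f0 f1 (M.X p0) = γ s0) (e1 : cx f0 f1 (M.N p0) = ν s0) (q : S) :
    ∃ s : ℝ, cx f0 f1 (M.X q) = γ s ∧ cx f0 f1 (M.N q) = ν s := by
  set A : Set S := {q | ∃ s : ℝ, cx f0 f1 (M.X q) = γ s ∧ cx f0 f1 (M.N q) = ν s} with hA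
  have key : ∀ q : S, ∃ V : Set S, IsOpen V ∧ q ∈ V ∧
      ∀ q1 ∈ V, ∀ q2 ∈ V, q1 ∈ A → q2 ∈ A := by
    intro q
    obtain ⟨ι, g, σ, hN⟩ := hUGC n S M hw q
    refine ⟨σ '' (Metric.ball 0 (1/8)), hN.1.opn _ (Set.Subset.refl _) Metric.isOpen_ball,
      ⟨0, hN.1.mem0, hN.1.base⟩, ?_⟩
    rintro q1 ⟨u, hu, rfl⟩ q2 ⟨u', hu', rfl⟩ ⟨s, hs1, hs2⟩
    obtain ⟨θ, -, h1, h2⟩ := hTRA n S M f0 f1 hS hP γ ν hpr q ι g σ hN u hu u' hu' s hs1 hs2
    exact ⟨s + θ, h1, h2⟩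
  have hop : IsOpen A := by
    rw [isOpen_iff_forall_mem_open]
    intro q hq
    obtain ⟨V, hV, hqV, h⟩ := key q
    exact ⟨V, fun q' hq' => h q hqV q' hq' hq, hV, hqV⟩
  have hcl : IsOpen Aᶜ := by
    rw [isOpen_iff_forall_mem_open]
    intro q hq
    obtain ⟨V, hV, hqV, h⟩ := key q
    exact ⟨V, fun q' hq' hq'A => hq (h q' hq' q hqV hq'A), hV, hqV⟩
  have hclo : IsClopen A := ⟨⟨hcl⟩, hop⟩
  have hu : A = Set.univ := hclo.eq_univ ⟨p0, s0, e0, e1⟩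
  have : q ∈ A := by rw [hu]; exact Set.mem_univ q
  exact this

theorem pCG2 (hPRF : tPRF) (hTRA : tTRA) (hLIN : tLIN) (hUGC : tUGC) : tCG2 := by
  intro n S _ _ _ M f0 f1 hS hw hP
  obtain ⟨p0⟩ := (inferInstance : Nonempty S)
  obtain ⟨γ, ν, hpr, hγ0, hν0⟩ := hPRF (cx f0 f1 (M.X p0)) (cx f0 f1 (M.N p0)) (CG2_unit M hP p0)
  have h0 := hP.1
  have h1 := hP.2.1
  have h01 := hP.2.2.1
  refine ⟨γ, ν, hpr, ?_, ?_⟩
  · apply Set.Subset.antisymm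
    · rintro x ⟨q, rfl⟩
      obtain ⟨s, hs, -⟩ := CG2_all hTRA hUGC n S M f0 f1 hS hw hP γ ν hpr p0 0 hγ0.symm hν0.symm q
      exact ⟨s, hs.symm⟩
    · rintro x ⟨s', hs'⟩
      obtain ⟨ox0, ox1⟩ := CG2_orth h0 h1 h01 x
      obtain ⟨op0, op1⟩ := CG2_orth h0 h1 h01 (M.X p0)
      obtain ⟨q, hq1, -, hq3⟩ := hLIN n S M f0 f1 hS hP γ ν hpr p0 0 hγ0.symm hν0.symm s'
        ((x - (inner ℝ x f0 : ℝ) • f0 - (inner ℝ x f1 : ℝ) • f1) -
          (M.X p0 - (inner ℝ (M.X p0) f0 : ℝ) • f0 - (inner ℝ (M.X p0) f1 : ℝ) • f1))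
        (by rw [inner_sub_left, ox0, op0]; ring) (by rw [inner_sub_left, ox1, op1]; ring)
      refine ⟨q, ?_⟩
      have hc : cx f0 f1 (M.X q) = cx f0 f1 x := by rw [hq1, hs']
      obtain ⟨c0, c1⟩ := CG2_cx_ext hc
      rw [add_sub_cancel, c0, c1] at hq3
      have h := congrArg (fun v => v + (inner ℝ x f1 : ℝ) • f1 + (inner ℝ x f0 : ℝ) • f0) hq3
      simpa using h
  · refine ⟨M.X p0 - (inner ℝ (M.X p0) f0 : ℝ) • f0 - (inner ℝ (M.X p0) f1 : ℝ) • f1, ?_⟩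
    intro s
    obtain ⟨q, hq1, hq2, hq3⟩ := hLIN n S M f0 f1 hS hP γ ν hpr p0 0 hγ0.symm hν0.symm s 0
      (inner_zero_left _) (inner_zero_left _)
    exact ⟨q, hq1, hq2, by rw [hq3, add_zero]⟩

end

end Pool.Agent.ShG
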