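import Pool.Agent.ShG.Targets

/-!
# ShG: periodicity of the profile curve (target `tCG3`)
-/

set_option autoImplicit false

namespace Pool.Agent.ShG

open scoped BigOperators Topology ContDiff
open Set Filter

noncomputable section

/-- the vector field of the profile system -/
def CG3_v (x : ℂ × ℂ) : ℂ × ℂ :=
  (Complex.I * x.2, Complex.I * ((x.1 * (starRingEnd ℂ) x.2).re : ℂ) * x.2)

lemma CG3_lip (R : ℝ) (hR : 0 ≤ R) :
    LipschitzOnWith (Real.toNNReal (1 + 2 * R)) CG3_v {x | ‖x.1‖ ≤ R ∧ ‖x.2‖ ≤ 1} := by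
  refine LipschitzOnWith.of_dist_le_mul fun x hx y hy => ?_
  obtain ⟨hx1, hx2⟩ := hx
  obtain ⟨hy1, hy2⟩ := hy
  rw [Real.coe_toNNReal _ (by linarith)]
  set D := dist x y with hD
  have hD1 : ‖x.1 - y.1‖ ≤ D := by
    rw [hD, Prod.dist_eq, ← dist_eq_norm]; exact le_max_left _ _
  have hD2 : ‖x.2 - y.2‖ ≤ D := by
    rw [hD, Prod.dist_eq, ← dist_eq_norm]; exact le_max_right _ _
  have hD0 : 0 ≤ D := dist_nonneg
  rw [Prod.dist_eq]
  refine max_le ?_ ?_
  · rw [dist_eq_norm]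
    change ‖Complex.I * x.2 - Complex.I * y.2‖ ≤ _
    rw [← mul_sub, norm_mul, Complex.norm_I, one_mul]
    nlinarith
  · rw [dist_eq_norm]
    change ‖Complex.I * ((x.1 * (starRingEnd ℂ) x.2).re : ℂ) * x.2
      - Complex.I * ((y.1 * (starRingEnd ℂ) y.2).re : ℂ) * y.2‖ ≤ _
    set a := (x.1 * (starRingEnd ℂ) x.2).re with ha
    set b := (y.1 * (starRingEnd ℂ) y.2).re with hb
    have e : Complex.I * (a : ℂ) * x.2 - Complex.I * (b : ℂ) * y.2
        = Complex.I * (((a - b : ℝ) : ℂ) * x.2 + (b : ℂ) * (x.2 - y.2)) := by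
      push_cast; ring
    have hab : |a - b| ≤ (1 + R) * D := by
      have e2 : a - b = ((x.1 - y.1) * (starRingEnd ℂ) x.2
          + y.1 * (starRingEnd ℂ) (x.2 - y.2)).re := by
        rw [ha, hb, ← Complex.sub_re]
        congr 1
        rw [map_sub]; ring
      rw [e2]
      refine (Complex.abs_re_le_norm _).trans ((norm_add_le _ _).trans ?_)
      rw [norm_mul, norm_mul, RCLike.norm_conj, RCLike.norm_conj]
      have h1 : ‖x.1 - y.1‖ * ‖x.2‖ ≤ D * 1 :=
        mul_le_mul hD1 hx2 (norm_nonneg _) hD0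
      have h2 : ‖y.1‖ * ‖x.2 - y.2‖ ≤ R * D :=
        mul_le_mul hy1 hD2 (norm_nonneg _) hR
      linarith
    have hbR : |b| ≤ R := by
      rw [hb]
      refine (Complex.abs_re_le_norm _).trans ?_
      rw [norm_mul, RCLike.norm_conj]
      have := mul_le_mul hy1 hy2 (norm_nonneg _) hR
      linarith
    rw [e, norm_mul, Complex.norm_I, one_mul]
    refine (norm_add_le _ _).trans ?_
    rw [norm_mul, norm_mul, Complex.norm_real, Complex.norm_real, Real.norm_eq_abs,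
      Real.norm_eq_abs]
    have h1 : |a - b| * ‖x.2‖ ≤ ((1 + R) * D) * 1 :=
      mul_le_mul hab hx2 (norm_nonneg _) (by positivity)
    have h2 : |b| * ‖x.2 - y.2‖ ≤ R * D := mul_le_mul hbR hD2 (norm_nonneg _) hR
    linarith

/-- two bounded solutions of the profile system which agree once agree always -/
lemma CG3_unique {γ ν γ' ν' : ℝ → ℂ} (h : Prof γ ν) (h' : Prof γ' ν') {R : ℝ} (hR : 0 ≤ R)
    (hb : ∀ s, ‖γ s‖ ≤ R) (hb' : ∀ s, ‖γ' s‖ ≤ R) {t : ℝ} (h1 : γ t = γ' t) (h2 : ν t = ν' t) :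
    γ = γ' := by
  have key : (fun s => (γ s, ν s)) = fun s => (γ' s, ν' s) := by
    refine ODE_solution_unique_univ (v := fun _ => CG3_v)
      (s := fun _ => {x : ℂ × ℂ | ‖x.1‖ ≤ R ∧ ‖x.2‖ ≤ 1}) (K := Real.toNNReal (1 + 2 * R))
      (t₀ := t) (fun _ => CG3_lip R hR) ?_ ?_ (by simp only [h1, h2])
    · intro s
      exact ⟨(h s).1.prodMk (h s).2.1, hb s, (h s).2.2.le⟩
    · intro s
      exact ⟨(h' s).1.prodMk (h' s).2.1, hb' s, (h' s).2.2.le⟩
  funext s
  exact congrArg Prod.fst (congrFun key s)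

/-- translation of solutions -/
lemma CG3_shift {γ ν : ℝ → ℂ} (h : Prof γ ν) (T : ℝ) :
    Prof (fun s => γ (s + T)) (fun s => ν (s + T)) := by
  intro s
  obtain ⟨a1, a2, a3⟩ := h (s + T)
  exact ⟨a1.comp_add_const s T, a2.comp_add_const s T, a3⟩

/-- the conserved quantity -/
lemma CG3_const {γ ν : ℝ → ℂ} (h : Prof γ ν) (s : ℝ) :
    (γ s * (starRingEnd ℂ) (ν s)).re * Real.exp (-(‖γ s‖ ^ 2 / 2))
      = (γ 0 * (starRingEnd ℂ) (ν 0)).re * Real.exp (-(‖γ 0‖ ^ 2 / 2)) := by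
  have hre : ∀ {f : ℝ → ℂ} {f' : ℂ} {t : ℝ}, HasDerivAt f f' t →
      HasDerivAt (fun r => (f r).re) f'.re t := by
    intro f f' t hf
    exact Complex.reCLM.hasFDerivAt.comp_hasDerivAt t hf
  have him : ∀ {f : ℝ → ℂ} {f' : ℂ} {t : ℝ}, HasDerivAt f f' t →
      HasDerivAt (fun r => (f r).im) f'.im t := by
    intro f f' t hf
    exact Complex.imCLM.hasFDerivAt.comp_hasDerivAt t hf
  have e : ∀ r, (γ r * (starRingEnd ℂ) (ν r)).re * Real.exp (-(‖γ r‖ ^ 2 / 2))
      = ((γ r).re * (ν r).re + (γ r).im * (ν r).im)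
        * Real.exp (-(((γ r).re * (γ r).re + (γ r).im * (γ r).im) / 2)) := by
    intro r
    have e1 : ‖γ r‖ ^ 2 = (γ r).re * (γ r).re + (γ r).im * (γ r).im := by
      rw [← Complex.normSq_eq_norm_sq, Complex.normSq_apply]
    rw [e1]
    congr 1
    simp [Complex.mul_re]
  rw [e s, e 0]
  refine is_const_of_deriv_eq_zero (f := fun r => ((γ r).re * (ν r).re + (γ r).im * (ν r).im)
        * Real.exp (-(((γ r).re * (γ r).re + (γ r).im * (γ r).im) / 2))) ?_ ?_ s 0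
  all_goals
    have hd : ∀ r, HasDerivAt (fun r => ((γ r).re * (ν r).re + (γ r).im * (ν r).im)
        * Real.exp (-(((γ r).re * (γ r).re + (γ r).im * (γ r).im) / 2))) 0 r := by
      intro r
      obtain ⟨a1, a2, -⟩ := h r
      have g1 := hre a1
      have g2 := him a1
      have g3 := hre a2
      have g4 := him a2
      have k1 := ((g1.mul g3).add (g2.mul g4)).mul
        ((((g1.mul g1).add (g2.mul g2)).div_const 2).neg.exp)
      refine k1.congr_deriv ?_
      simp [Complex.mul_re, Complex.mul_im]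
      ring
  · exact fun r => (hd r).differentiableAt
  · exact fun r => (hd r).deriv

/-- `H` at a point of given state -/
lemma CG3_H {n : ℕ} {S : Type} [TopologicalSpace S] (M : Hyp n S) (f0 f1 : Fs n) (hS : M.Shr)
    (hP : Prd M f0 f1) (q : S) :
    M.H q = - (cx f0 f1 (M.X q) * (starRingEnd ℂ) (cx f0 f1 (M.N q))).re := by
  rw [hS q]
  congr 1
  conv_lhs => rw [(hP.2.2.2 q).1]
  rw [inner_add_right, inner_smul_right, inner_smul_right]
  simp [cx, Complex.mul_re]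
  ring

lemma CG3_H_le {n : ℕ} {S : Type} [TopologicalSpace S] (M : Hyp n S) (p : S) :
    M.H p ^ 2 ≤ (n + 1) * M.w p := by
  have h1 : (∑ a, M.B a a p) ^ 2 ≤ (Finset.univ : Finset (Fin (n + 1))).card
      * ∑ a, (M.B a a p) ^ 2 := sq_sum_le_card_mul_sum_sq
  rw [Finset.card_univ, Fintype.card_fin] at h1
  have h2 : ∑ a, (M.B a a p) ^ 2 ≤ M.w p := by
    refine Finset.sum_le_sum fun a _ => ?_
    exact Finset.single_le_sum (f := fun b => (M.B a b p) ^ 2) (fun b _ => sq_nonneg _)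
      (Finset.mem_univ a)
  have h3 : ((n + 1 : ℕ) : ℝ) * ∑ a, (M.B a a p) ^ 2 ≤ ((n + 1 : ℕ) : ℝ) * M.w p :=
    mul_le_mul_of_nonneg_left h2 (Nat.cast_nonneg _)
  push_cast at h1 h3
  exact h1.trans h3

/-- periodicity of the profile curve -/
theorem pCG3 (hTRA : tTRA) (hUGC : tUGC) : tCG3 := by
  intro n S _ _ M f0 f1 hS hw hH hP γ ν hprof x0 hst
  -- the curve is bounded
  obtain ⟨R, hR, hbd⟩ : ∃ R : ℝ, 0 ≤ R ∧ ∀ s, ‖γ s‖ ≤ R := by
    set K := (γ 0 * (starRingEnd ℂ) (ν 0)).re * Real.exp (-(‖γ 0‖ ^ 2 / 2)) with hK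
    have hre : ∀ s, 9 / 20 < |(γ s * (starRingEnd ℂ) (ν s)).re| ∧
        |(γ s * (starRingEnd ℂ) (ν s)).re| ≤ 1 + 2 * (n + 1) := by
      intro s
      obtain ⟨q, h1, h2, -⟩ := hst s
      have h3 := CG3_H M f0 f1 hS hP q
      rw [h1, h2] at h3
      have h4 : |M.H q| = |(γ s * (starRingEnd ℂ) (ν s)).re| := by rw [h3, abs_neg]
      rw [← h4]
      refine ⟨hH q, ?_⟩
      have h5 := CG3_H_le M q
      have h6 := hw q
      have h7 : M.H q ^ 2 ≤ (n + 1) * 2 :=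
        h5.trans (mul_le_mul_of_nonneg_left h6 (by positivity))
      rw [← sq_abs] at h7
      nlinarith [abs_nonneg (M.H q), sq_nonneg (|M.H q| - 1)]
    have hK0 : 0 < |K| := by
      rw [hK, abs_mul]
      refine mul_pos (lt_trans (by norm_num) (hre 0).1) (abs_pos.2 (Real.exp_ne_zero _))
    refine ⟨Real.sqrt (2 * ((1 + 2 * (n + 1)) / |K|)), Real.sqrt_nonneg _, fun s => ?_⟩
    refine Real.le_sqrt_of_sq_le ?_
    have h1 := CG3_const hprof s
    rw [← hK] at h1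
    have h2 : |(γ s * (starRingEnd ℂ) (ν s)).re| = |K| * Real.exp (‖γ s‖ ^ 2 / 2) := by
      rw [← h1, abs_mul, abs_of_pos (Real.exp_pos _), mul_assoc, ← Real.exp_add]
      simp
    have h3 := (hre s).2
    rw [h2] at h3
    have h4 : ‖γ s‖ ^ 2 / 2 ≤ Real.exp (‖γ s‖ ^ 2 / 2) :=
      (by linarith [Real.add_one_le_exp (‖γ s‖ ^ 2 / 2)])
    have h5 : Real.exp (‖γ s‖ ^ 2 / 2) ≤ (1 + 2 * (n + 1)) / |K| := by
      rw [le_div_iff₀ hK0]; linarith
    linarith
  -- the points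
  choose q hq1 hq2 hq3 using fun j : ℕ => hst j
  have hcomp : IsCompact (M.X ⁻¹' Metric.closedBall (0 : Fs n) (‖x0‖ + 2 * R)) :=
    M.proper.isCompact_preimage (isCompact_closedBall _ _)
  have hmem : ∀ j, q j ∈ M.X ⁻¹' Metric.closedBall (0 : Fs n) (‖x0‖ + 2 * R) := by
    intro j
    rw [mem_preimage, mem_closedBall_zero_iff]
    have h1 : M.X (q j) = x0 + (inner ℝ (M.X (q j)) f0 : ℝ) • f0
        + (inner ℝ (M.X (q j)) f1 : ℝ) • f1 := by
      rw [← hq3 j]; abel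
    have h2 : |(inner ℝ (M.X (q j)) f0 : ℝ)| ≤ R := by
      have : (inner ℝ (M.X (q j)) f0 : ℝ) = (cx f0 f1 (M.X (q j))).re := rfl
      rw [this, hq1 j]
      exact (Complex.abs_re_le_norm _).trans (hbd _)
    have h3 : |(inner ℝ (M.X (q j)) f1 : ℝ)| ≤ R := by
      have : (inner ℝ (M.X (q j)) f1 : ℝ) = (cx f0 f1 (M.X (q j))).im := rfl
      rw [this, hq1 j]
      exact (Complex.abs_im_le_norm _).trans (hbd _)
    rw [h1]
    refine (norm_add₃_le).trans ?_
    rw [norm_smul, norm_smul, hP.1, hP.2.1, Real.norm_eq_abs, Real.norm_eq_abs]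
    linarith
  obtain ⟨qs, -, hcl⟩ := hcomp.exists_mapClusterPt (f := atTop) (u := q)
    (tendsto_principal.2 (Eventually.of_forall hmem))
  obtain ⟨ι, g, σ, hN⟩ := hUGC n S M hw qs
  have hfr := hcl.frequently (hN.1.image_mem0 (Metric.ball_mem_nhds (0 : Es n)
    (by norm_num : (0:ℝ) < 1 / 32)))
  rw [frequently_atTop] at hfr
  obtain ⟨i, -, hi⟩ := hfr 0
  obtain ⟨j, hij, hj⟩ := hfr (i + 1)
  obtain ⟨u, hu, hui⟩ := hi
  obtain ⟨u', hu', huj⟩ := hj
  have hsub : Metric.ball (0 : Es n) (1 / 32) ⊆ Metric.ball (0 : Es n) (1 / 8) :=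
    Metric.ball_subset_ball (by norm_num)
  obtain ⟨θ, hθ, h1, h2⟩ := hTRA n S M f0 f1 hS hP γ ν hprof qs ι g σ hN u (hsub hu) u'
    (hsub hu') i (by rw [hui]; exact hq1 i) (by rw [hui]; exact hq2 i)
  have hθ' : |θ| ≤ 1 / 8 := by
    refine hθ.trans ?_
    have h3 := norm_sub_le u' u
    rw [mem_ball_zero_iff] at hu hu'
    linarith
  rw [huj, hq1 j] at h1
  rw [huj, hq2 j] at h2
  refine ⟨j - i - θ, ?_, ?_⟩
  · have h3 : ((i : ℝ) + 1) ≤ j := by exact_mod_cast hij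
    have h4 := (abs_le.1 hθ').2
    linarith
  · intro s
    have := CG3_unique (CG3_shift hprof (j - i - θ)) hprof hR (fun s => hbd _) hbd
      (t := i + θ) (by
        rw [← h1]; congr 1; ring) (by
        rw [← h2]; congr 1; ring)
    exact congrFun this s

end

end Pool.Agent.ShG
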