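import Pool.Agent.ShG.Targets

/-! CHN: `v` stays small and stays positive after several steps. -/

namespace Pool.Agent.ShG

open scoped BigOperators Topology ContDiff
open Set Filter Asymptotics

noncomputable section

/-- a step moves the position by at most `1` -/
lemma CHN_move (hSGE : tSGE) {n : ℕ} {S : Type} [TopologicalSpace S] [T2Space S] (M : Hyp n S)
    {p q : S} (h : M.Step p q) : ‖M.X q - M.X p‖ ≤ 1 := by
  obtain ⟨ι, g, σ, hN, u, hu, rfl⟩ := h
  have hu' : ‖u‖ < 1 / 32 := mem_ball_zero_iff.1 hu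
  have h0 : (0 : Es n) ∈ Metric.ball (0 : Es n) (1 / 8) := Metric.mem_ball_self (by norm_num)
  have h1 := (hSGE n S M p ι g σ hN u (mem_ball_zero_iff.2 (by linarith)) 0 h0).2.1
  rw [hN.1.base, sub_zero] at h1
  linarith

lemma CHN_moves (hSGE : tSGE) {n : ℕ} {S : Type} [TopologicalSpace S] [T2Space S] (M : Hyp n S)
    {R : ℝ} {p : S} (hp : ‖M.X p‖ ≤ R) : ∀ (k : ℕ) (q : S), M.Rch k p q → ‖M.X q‖ ≤ R + k := by
  intro k
  induction k with
  | zero =>
    intro q h
    have h' : q = p := h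
    rw [h', Nat.cast_zero, add_zero]
    exact hp
  | succ k ih =>
    intro q h
    obtain ⟨q', h1, h2⟩ := h
    have h3 := ih q' h1
    have h4 := CHN_move hSGE M h2
    have h5 := norm_sub_norm_le (M.X q) (M.X q')
    push_cast
    linarith

/-- one step, small -/
lemma CHN_small (hHV : tHV) (n : ℕ) (R η : ℝ) (hR : 0 ≤ R) (hη : 0 < η) : ∃ δ : ℝ, 0 < δ ∧
    ∀ (S : Type) [TopologicalSpace S] [T2Space S] (M : Hyp n S) (c : ℝ), M.Std c →
    ∀ p q, ‖M.X p‖ ≤ R → M.Step p q → M.vv c p ≤ δ → M.vv c q ≤ η := by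
  obtain ⟨κ, m, hκ, -, -, H⟩ := hHV n R hR
  set y := min η 1 with hy
  have hy0 : 0 < y := lt_min hη one_pos
  have hK : 0 < κ * y ^ m := mul_pos hκ (pow_pos hy0 m)
  refine ⟨κ * y ^ m / 6, by linarith, ?_⟩
  intro S _ _ M c hc p q hp hs hv
  by_contra hcon
  push Not at hcon
  obtain ⟨ι, g, σ, hN, u, hu, rfl⟩ := hs
  have hb : σ 0 = p := hN.1.base
  have hcv : c < M.vv c p := by
    have := hc.2.2.2 p
    show c < 1 + 2 * c - M.w p
    linarith
  have h1 := H S M c hc p ι g σ hN hp u hu 0 (Metric.mem_ball_self (by norm_num)) y hy0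
    (min_le_right _ _) ((min_le_left _ _).trans hcon.le) (by linarith)
  rw [hb] at h1
  linarith

/-- one step, positive -/
lemma CHN_pos (hHV : tHV) (n : ℕ) (R y : ℝ) (hR : 0 ≤ R) (hy : 0 < y) :
    ∃ y' c0 : ℝ, 0 < y' ∧ 0 < c0 ∧
    ∀ (S : Type) [TopologicalSpace S] [T2Space S] (M : Hyp n S) (c : ℝ), M.Std c → c ≤ c0 →
    ∀ p q, ‖M.X p‖ ≤ R → M.Step p q → y ≤ M.vv c p → y' ≤ M.vv c q := by
  obtain ⟨κ, m, hκ, -, -, H⟩ := hHV n R hR
  have hy0 : 0 < min y 1 := lt_min hy one_pos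
  have hK : 0 < κ * (min y 1) ^ m := mul_pos hκ (pow_pos hy0 m)
  refine ⟨κ * (min y 1) ^ m, κ * (min y 1) ^ m / 5, hK, by linarith, ?_⟩
  intro S _ _ M c hc hc0 p q hp hs hv
  obtain ⟨ι, g, σ, hN, u, hu, rfl⟩ := hs
  have hb : σ 0 = p := hN.1.base
  exact H S M c hc p ι g σ hN hp 0 (Metric.mem_ball_self (by norm_num)) u hu (min y 1) hy0
    (min_le_right _ _) (by rw [hb]; exact (min_le_left _ _).trans hv) (by linarith)

theorem pCHN (hHV : tHV) (hSGE : tSGE) : tCHN := by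
  constructor
  · intro n k R
    induction k with
    | zero =>
      intro η hR hη
      refine ⟨η, hη, ?_⟩
      intro S _ _ M c hc p q hp hr hv
      have hr' : q = p := hr
      rw [hr']
      exact hv
    | succ k ih =>
      intro η hR hη
      obtain ⟨δ1, hδ1, H1⟩ := CHN_small hHV n (R + k) η (by positivity) hη
      obtain ⟨δ, hδ, H2⟩ := ih δ1 hR hδ1
      refine ⟨δ, hδ, ?_⟩
      intro S _ _ M c hc p q hp hr hv
      obtain ⟨q', h1, h2⟩ := hr
      exact H1 S M c hc q' q (CHN_moves hSGE M hp k q' h1) h2 (H2 S M c hc p q' hp h1 hv)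
  · intro n k R
    induction k with
    | zero =>
      intro y hR hy
      refine ⟨y, 1, hy, one_pos, ?_⟩
      intro S _ _ M c hc _ p q hp hr hv
      have hr' : q = p := hr
      rw [hr']
      exact hv
    | succ k ih =>
      intro y hR hy
      obtain ⟨y1, c1, hy1, hc1, H1⟩ := ih y hR hy
      obtain ⟨y2, c2, hy2, hc2, H2⟩ := CHN_pos hHV n (R + k) y1 (by positivity) hy1
      refine ⟨y2, min c1 c2, hy2, lt_min hc1 hc2, ?_⟩
      intro S _ _ M c hc hc0 p q hp hr hv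
      obtain ⟨q', h1, h2⟩ := hr
      exact H2 S M c hc (hc0.trans (min_le_right _ _)) q' q (CHN_moves hSGE M hp k q' h1) h2
        (H1 S M c hc (hc0.trans (min_le_left _ _)) p q' hp h1 hv)

end

end Pool.Agent.ShG
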