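import Pool.Agent.ShG.Targets

/-!
# ShG: the case `w = 0` (target `tCL0`)
-/

namespace Pool.Agent.ShG

open scoped BigOperators Topology ContDiff
open Set Filter

noncomputable section

lemma CL0_conn {n : ℕ} (ν : Fs n) :
    PreconnectedSpace {x : Fs n // inner ℝ x ν = (0 : ℝ)} := by
  have h1 : Convex ℝ {x : Fs n | inner ℝ x ν = (0 : ℝ)} := by
    intro x hx y hy a b _ _ _
    change inner ℝ x ν = (0 : ℝ) at hx
    change inner ℝ y ν = (0 : ℝ) at hy
    change inner ℝ (a • x + b • y) ν = (0 : ℝ)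
    rw [inner_add_left, inner_smul_left, inner_smul_left, hx, hy]
    simp
  exact isPreconnected_iff_preconnectedSpace.1 h1.isPreconnected

namespace Hyp

variable {n : ℕ} {S : Type} [TopologicalSpace S] {M : Hyp n S}

lemma CL0_B (hw : ∀ p, M.w p = 0) (a b : Fin (n + 1)) (p : S) : M.B a b p = 0 := by
  have h1 : ∑ a, ∑ b, (M.B a b p) ^ 2 = 0 := hw p
  have h2 := (Finset.sum_eq_zero_iff_of_nonneg (fun a _ => Finset.sum_nonneg fun b _ =>
    sq_nonneg (M.B a b p))).1 h1 a (Finset.mem_univ a)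
  have h3 := (Finset.sum_eq_zero_iff_of_nonneg (fun b _ => sq_nonneg (M.B a b p))).1 h2 b
    (Finset.mem_univ b)
  exact pow_eq_zero_iff two_ne_zero |>.1 h3

lemma CL0_N [PreconnectedSpace S] (hw : ∀ p, M.w p = 0) (p q : S) : M.N p = M.N q := by
  ext b
  have h := const_of_dl_zero (Z := M.Nc b) (fun q => Sm.Nc M b q)
    (fun q a => by rw [dl_Nc, CL0_B hw, neg_zero]) p q
  exact h

end Hyp

open Hyp in
theorem pCL0 : tCL0 := by
  intro n S _ _ _ M hShr hw
  obtain ⟨p0⟩ : Nonempty S := inferInstance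
  set ν := M.N p0 with hν
  have hN : ∀ p, M.N p = ν := fun p => CL0_N hw p p0
  have hX : ∀ p, inner ℝ (M.X p) ν = (0 : ℝ) := by
    intro p
    have h1 := hShr p
    have h2 : M.H p = 0 := by
      unfold Hyp.H
      exact Finset.sum_eq_zero fun a _ => CL0_B hw a a p
    rw [h2, hN p] at h1
    linarith
  refine ⟨ν, M.unit p0, ?_⟩
  refine Set.Subset.antisymm ?_ ?_
  · rintro x ⟨p, rfl⟩
    exact hX p
  · have hcl : IsClosed (Set.range M.X) := M.proper.isClosedMap.isClosed_range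
    have := CL0_conn ν
    set T : Set {x : Fs n // inner ℝ x ν = (0 : ℝ)} := {y | (y : Fs n) ∈ Set.range M.X} with hT
    have hTc : IsClosed T := hcl.preimage continuous_subtype_val
    have hTo : IsOpen T := by
      rw [isOpen_iff_mem_nhds]
      rintro ⟨y, hy⟩ ⟨p, hp⟩
      simp only at hp
      obtain ⟨U, ι, g, σ, h⟩ := M.sec p
      have h1 : ∀ u ∈ U, g u = 0 := by
        intro u hu
        have h2 := h.inner_N (M.unit p) hu
        rw [hN p, inner_sub_left, hX, hX] at h2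
        linarith
      have h3 : ContinuousAt (fun z : {x : Fs n // inner ℝ x ν = (0 : ℝ)} =>
          prj ι ((z : Fs n) - M.X p)) ⟨y, hy⟩ := by
        fun_prop
      have h4 : prj ι ((⟨y, hy⟩ : {x : Fs n // inner ℝ x ν = (0 : ℝ)}) - M.X p) = 0 := by
        simp only
        rw [hp, sub_self, map_zero]
      have h5 : ∀ᶠ z : {x : Fs n // inner ℝ x ν = (0 : ℝ)} in 𝓝 ⟨y, hy⟩,
          prj ι ((z : Fs n) - M.X p) ∈ U := by
        refine h3.eventually ?_
        show ∀ᶠ v in 𝓝 (prj ι ((⟨y, hy⟩ : {x : Fs n // inner ℝ x ν = (0 : ℝ)}) - M.X p)), v ∈ U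
        rw [h4]
        exact h.isOpen.mem_nhds h.mem0
      filter_upwards [h5] with z hz
      refine ⟨σ (prj ι ((z : Fs n) - M.X p)), ?_⟩
      rw [h.graph _ hz, h1 _ hz, zero_smul, add_zero]
      have h6 := h.split (M.unit p) ((z : Fs n) - M.X p)
      have h7 : inner ℝ ((z : Fs n) - M.X p) (M.N p) = (0 : ℝ) := by
        rw [hN p, inner_sub_left, hX, z.2, sub_zero]
      rw [h7, zero_smul, add_zero] at h6
      rw [← h6]
      abel
    have hTn : T.Nonempty := ⟨⟨M.X p0, hX p0⟩, p0, rfl⟩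
    have h8 : T = Set.univ := IsClopen.eq_univ ⟨hTc, hTo⟩ hTn
    intro x hx
    have h9 : (⟨x, hx⟩ : {x : Fs n // inner ℝ x ν = (0 : ℝ)}) ∈ T := by
      rw [h8]
      exact Set.mem_univ _
    exact h9

end

end Pool.Agent.ShG
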