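import Pool.Agent.ShG.TargetsX

/-! Target `tCM1` of the project ShG. -/

namespace Pool.Agent.ShG

open scoped BigOperators Topology ContDiff Manifold
open Set Filter Hyp

noncomputable section

/-- the abstract version: a parametrisation `x` near `u0` which lifts to `M` -/
theorem CM1_core {n : ℕ} {S' : Type} [TopologicalSpace S'] (M : Hyp n S') (x : Es n → Fs n)
    (V : Set (Es n)) (hV : IsOpen V) (u0 : Es n) (hu0 : u0 ∈ V) (hx : ContDiffOn ℝ ∞ x V)
    (τ : Es n → S') (hτ : ContinuousAt τ u0) (hX : ∀ᶠ u in 𝓝 u0, M.X (τ u) = x u)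
    (hN : ∀ᶠ u in 𝓝 u0, ∀ k, inner ℝ (fderiv ℝ x u k) (M.N (τ u)) = (0:ℝ)) (h k : Es n) :
    inner ℝ (M.N (τ u0)) (fderiv ℝ (fderiv ℝ x) u0 h k)
      = (inner ℝ (M.Bv (τ u0) (fderiv ℝ x u0 h)) (fderiv ℝ x u0 k) : ℝ) := by
  -- derivatives of `x`
  have hxat : ContDiffAt ℝ ∞ x u0 := hx.contDiffAt (hV.mem_nhds hu0)
  have hx1 : HasFDerivAt x (fderiv ℝ x u0) u0 :=
    (hxat.differentiableAt (by simp)).hasFDerivAt
  have hx2 : HasFDerivAt (fderiv ℝ x) (fderiv ℝ (fderiv ℝ x) u0) u0 :=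
    ((hxat.fderiv_right (m := 1) (by norm_cast)).differentiableAt (by simp)).hasFDerivAt
  have hXτ : HasFDerivAt (fun u => M.X (τ u)) (fderiv ℝ x u0) u0 :=
    hx1.congr_of_eventuallyEq hX
  -- derivative of the coordinates of the normal
  have hNb : ∀ b, HasFDerivAt (fun u => M.Nc b (τ u))
      ((innerSL ℝ (M.gr (M.Nc b) (τ u0))).comp (fderiv ℝ x u0)) u0 := fun b =>
    HasGr.comp (Sm.Nc M b (τ u0)).hasGr hτ hXτ
  -- derivative of the coordinates of `Dx k`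
  have hxb : ∀ b, HasFDerivAt (fun u => fderiv ℝ x u k b)
      (((EuclideanSpace.proj b : Fs n →L[ℝ] ℝ).comp
        ((ContinuousLinearMap.apply ℝ (Fs n) k).comp (fderiv ℝ (fderiv ℝ x) u0)))) u0 := by
    intro b
    have h1 : HasFDerivAt (fun u => fderiv ℝ x u k)
        ((ContinuousLinearMap.apply ℝ (Fs n) k).comp (fderiv ℝ (fderiv ℝ x) u0)) u0 :=
      (ContinuousLinearMap.apply ℝ (Fs n) k).hasFDerivAt.comp u0 hx2
    exact (EuclideanSpace.proj b : Fs n →L[ℝ] ℝ).hasFDerivAt.comp u0 h1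
  -- the function `⟨Dx k, N⟩`
  have hF : HasFDerivAt (fun u => ∑ b, fderiv ℝ x u k b * M.Nc b (τ u))
      (∑ b, ((fderiv ℝ x u0 k b) •
          ((innerSL ℝ (M.gr (M.Nc b) (τ u0))).comp (fderiv ℝ x u0)) +
        (M.Nc b (τ u0)) • ((EuclideanSpace.proj b : Fs n →L[ℝ] ℝ).comp
        ((ContinuousLinearMap.apply ℝ (Fs n) k).comp (fderiv ℝ (fderiv ℝ x) u0))))) u0 := by
    refine HasFDerivAt.fun_sum fun b _ => ?_
    exact (hxb b).mul (hNb b)
  have hF0 : HasFDerivAt (fun u => ∑ b, fderiv ℝ x u k b * M.Nc b (τ u))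
      (0 : Es n →L[ℝ] ℝ) u0 := by
    refine (hasFDerivAt_const (0:ℝ) u0).congr_of_eventuallyEq ?_
    filter_upwards [hN] with u hu
    have := hu k
    rw [inner_sum] at this
    exact this
  have h1 := DFunLike.congr_fun (hF.unique hF0) h
  simp only [_root_.sum_apply, _root_.add_apply,
    _root_.smul_apply, ContinuousLinearMap.comp_apply, innerSL_apply_apply,
    _root_.zero_apply, smul_eq_mul, Finset.sum_add_distrib] at h1
  have h2 : ∀ b, (inner ℝ (M.gr (M.Nc b) (τ u0)) (fderiv ℝ x u0 h) : ℝ)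
      = - M.Bv (τ u0) (fderiv ℝ x u0 h) b := by
    intro b
    rw [inner_sum, Bv_apply, ← Finset.sum_neg_distrib]
    refine Finset.sum_congr rfl fun a _ => ?_
    have h3 : M.gr (M.Nc b) (τ u0) a = - M.B a b (τ u0) := dl_Nc a b (τ u0)
    rw [h3, B_symm a b]
    ring
  simp only [h2] at h1
  rw [inner_sum, inner_sum]
  have h4 : ∑ b, fderiv ℝ x u0 k b * - M.Bv (τ u0) (fderiv ℝ x u0 h) b
      = - ∑ a, M.Bv (τ u0) (fderiv ℝ x u0 h) a * fderiv ℝ x u0 k a := by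
    rw [← Finset.sum_neg_distrib]
    exact Finset.sum_congr rfl fun b _ => by ring
  rw [h4] at h1
  have h5 : ∑ b, M.Nc b (τ u0) * (EuclideanSpace.proj b : Fs n →L[ℝ] ℝ)
      ((ContinuousLinearMap.apply ℝ (Fs n) k) (fderiv ℝ (fderiv ℝ x) u0 h))
      = ∑ a, M.N (τ u0) a * fderiv ℝ (fderiv ℝ x) u0 h k a := rfl
  rw [h5] at h1
  linarith

theorem pCM1 (hMAN : tMAN) : tCM1 := by
  intro n S _ _ _ X hX himm S' _ M π hπ hMX hnor hsec q h k
  obtain ⟨s, hs1, hs2, hs3⟩ := hsec q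
  set φ := chartAt (EuclideanSpace ℝ (Fin n)) (π q) with hφ
  set u0 := φ (π q) with hu0
  have hsrc : π q ∈ φ.source := mem_chart_source _ _
  have hu0t : u0 ∈ φ.target := φ.map_source hsrc
  have hinv : φ.symm u0 = π q := φ.left_inv hsrc
  obtain ⟨hsm, hM⟩ := hMAN n S X hX himm (π q)
  have hcont : ContinuousAt φ.symm u0 := φ.continuousAt_symm hu0t
  have hτ0 : s (φ.symm u0) = q := by rw [hinv, hs1]
  have hτ : ContinuousAt (fun u => s (φ.symm u)) u0 := by
    refine ContinuousAt.comp (g := s) ?_ hcont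
    rw [hinv]
    exact hs2
  have hev : ∀ᶠ u in 𝓝 u0, π (s (φ.symm u)) = φ.symm u := by
    have h1 : Tendsto φ.symm (𝓝 u0) (𝓝 (π q)) := by
      have := hcont.tendsto
      rwa [hinv] at this
    exact h1.eventually hs3
  have hXe : ∀ᶠ u in 𝓝 u0, M.X (s (φ.symm u)) = locX X (π q) u := by
    filter_upwards [hev] with u hu
    rw [hMX, hu]
    rfl
  have hNe : ∀ᶠ u in 𝓝 u0, ∀ k, inner ℝ (fderiv ℝ (locX X (π q)) u k)
      (M.N (s (φ.symm u))) = (0:ℝ) := by
    filter_upwards [hev, φ.open_target.mem_nhds hu0t] with u hu hut k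
    have h1 := (hM u hut).2
    have h2 : fderiv ℝ (locX X (π q)) u k ∈
        LinearMap.range (fderiv ℝ (locX X (π q)) u).toLinearMap := ⟨k, rfl⟩
    rw [h1] at h2
    obtain ⟨k', hk'⟩ := h2
    have h3 := hnor (s (φ.symm u)) k'
    rw [hu] at h3
    rw [← hk']
    exact h3
  have h1 := CM1_core M (locX X (π q)) φ.target φ.open_target u0 hu0t hsm
    (fun u => s (φ.symm u)) hτ hXe hNe h k
  simp only [hτ0] at h1
  exact h1

end

end Pool.Agent.ShG
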