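import Pool.Agent.ShG.TargetsX

/-! CM2: traces in a non-orthonormal basis. -/

namespace Pool.Agent.ShG

open scoped BigOperators Topology ContDiff Matrix
open Set Filter

noncomputable section

lemma CM2_toLp (n : ℕ) (v : Fin n → ℝ) :
    (WithLp.toLp 2 v : Es n) = ∑ i, v i • EuclideanSpace.single i (1:ℝ) := by
  ext j
  simp [Finset.sum_apply, Pi.single_apply]

/-- the orthogonal projection -/
lemma CM2_proj {n : ℕ} (α : Matrix (Fin (n + 1)) (Fin n) ℝ) (ν : Fin (n + 1) → ℝ)
    (G : Matrix (Fin n) (Fin n) ℝ) (hG : G = αᵀ * α) (hdet : IsUnit G.det)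
    (hν : ∑ a, ν a * ν a = 1) (hαν : ∀ i, ∑ a, α a i * ν a = 0) :
    α * G⁻¹ * αᵀ = 1 - Matrix.vecMulVec ν ν := by
  classical
  let β : Matrix (Fin (n + 1)) (Fin n ⊕ Unit) ℝ := Matrix.of fun a s =>
    Sum.elim (fun i => α a i) (fun _ => ν a) s
  let γ : Matrix (Fin n ⊕ Unit) (Fin (n + 1)) ℝ := Matrix.of fun s a =>
    Sum.elim (fun i => (G⁻¹ * αᵀ) i a) (fun _ => ν a) s
  have h1 : γ * β = 1 := by
    ext s t
    rw [Matrix.mul_apply]
    rcases s with i | ⟨⟩
    · rcases t with j | ⟨⟩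
      · have e : ∑ a, γ (Sum.inl i) a * β a (Sum.inl j) = (G⁻¹ * αᵀ * α) i j := by
          rw [Matrix.mul_apply]
          rfl
        rw [e, Matrix.mul_assoc, ← hG, Matrix.nonsing_inv_mul _ hdet]
        simp [Matrix.one_apply]
      · have e : ∑ a, γ (Sum.inl i) a * β a (Sum.inr ()) =
            ∑ a, (∑ k, G⁻¹ i k * α a k) * ν a := by
          refine Finset.sum_congr rfl fun a _ => ?_
          change (G⁻¹ * αᵀ) i a * ν a = _
          rw [Matrix.mul_apply]
          rfl
        rw [e]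
        simp_rw [Finset.sum_mul]
        rw [Finset.sum_comm]
        have : ∀ k, ∑ a, G⁻¹ i k * α a k * ν a = 0 := by
          intro k
          have h2 : ∑ a, G⁻¹ i k * α a k * ν a = G⁻¹ i k * ∑ a, α a k * ν a := by
            rw [Finset.mul_sum]
            refine Finset.sum_congr rfl fun a _ => by ring
          rw [h2, hαν, mul_zero]
        simp [this]
    · rcases t with j | ⟨⟩
      · have e : ∑ a, γ (Sum.inr ()) a * β a (Sum.inl j) = ∑ a, α a j * ν a := by
          refine Finset.sum_congr rfl fun a _ => ?_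
          change ν a * α a j = _
          ring
        rw [e, hαν]
        simp
      · have e : ∑ a, γ (Sum.inr ()) a * β a (Sum.inr ()) = ∑ a, ν a * ν a := rfl
        rw [e, hν]
        simp
  have h2 : β * γ = 1 := by
    exact (Matrix.mul_eq_one_comm_of_card_eq (Fin n ⊕ Unit) (Fin (n + 1)) ℝ (by simp)).1 h1
  ext a b
  have h3 := congrFun (congrFun h2 a) b
  rw [Matrix.mul_apply, Fintype.sum_sum_type] at h3
  have e1 : ∑ i, β a (Sum.inl i) * γ (Sum.inl i) b = (α * G⁻¹ * αᵀ) a b := by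
    rw [Matrix.mul_assoc, Matrix.mul_apply]
    rfl
  have e2 : ∑ u : Unit, β a (Sum.inr u) * γ (Sum.inr u) b = ν a * ν b := by
    simp only [Finset.univ_unique, Finset.sum_singleton]
    rfl
  rw [e1, e2] at h3
  rw [Matrix.sub_apply, Matrix.vecMulVec_apply, ← h3]
  ring

theorem pCM2 : tCM2 := by
  classical
  intro n A ν B hA hν hAν hBs hBν G hh hG hhh
  let α : Matrix (Fin (n + 1)) (Fin n) ℝ := Matrix.of fun a i =>
    A (EuclideanSpace.single i 1) a
  let Bm : Matrix (Fin (n + 1)) (Fin (n + 1)) ℝ := Matrix.of B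
  let h : Matrix (Fin n) (Fin n) ℝ := Matrix.of hh
  have eG : G = αᵀ * α := by
    ext i j
    rw [hG, Matrix.mul_apply, Hyp.inner_sum]
    rfl
  have eh : h = αᵀ * Bm * α := by
    ext i j
    change hh i j = _
    rw [hhh, Matrix.mul_apply, Finset.sum_comm]
    refine Finset.sum_congr rfl fun b _ => ?_
    rw [Matrix.mul_apply, Finset.sum_mul]
    refine Finset.sum_congr rfl fun a _ => ?_
    change _ = A (EuclideanSpace.single i 1) a * B a b * A (EuclideanSpace.single j 1) b
    ring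
  have hνν : ∑ a, ν a * ν a = 1 := by
    rw [← Hyp.inner_sum, real_inner_self_eq_norm_sq, hν]
    norm_num
  have hαν : ∀ i, ∑ a, α a i * ν a = 0 := by
    intro i
    have := hAν (EuclideanSpace.single i 1)
    rw [Hyp.inner_sum] at this
    exact this
  have hdet : IsUnit G.det := by
    rw [isUnit_iff_ne_zero]
    intro h0
    obtain ⟨v, hv, hGv⟩ := Matrix.exists_mulVec_eq_zero_iff.2 h0
    have h1 : A (WithLp.toLp 2 v) = ∑ i, v i • A (EuclideanSpace.single i 1) := by
      rw [CM2_toLp, map_sum]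
      simp only [map_smul]
    have h2 : (inner ℝ (A (WithLp.toLp 2 v)) (A (WithLp.toLp 2 v)) : ℝ) = 0 := by
      have e : (inner ℝ (A (WithLp.toLp 2 v)) (A (WithLp.toLp 2 v)) : ℝ) =
          ∑ i, v i * (G *ᵥ v) i := by
        rw [h1, _root_.sum_inner]
        refine Finset.sum_congr rfl fun i _ => ?_
        rw [real_inner_smul_left, _root_.inner_sum]
        congr 1
        change _ = ∑ j, G i j * v j
        refine Finset.sum_congr rfl fun j _ => ?_
        rw [real_inner_smul_right, ← hG]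
        ring
      rw [e, hGv]
      simp
    have h3 : A (WithLp.toLp 2 v) = 0 := inner_self_eq_zero.1 h2
    have h4 : (WithLp.toLp 2 v : Es n) = 0 := hA (by rw [h3, map_zero])
    apply hv
    funext i
    exact congrFun (congrArg WithLp.ofLp h4) i
  have hP := CM2_proj α ν G eG hdet hνν hαν
  have hBP : Bm * (α * G⁻¹ * αᵀ) = Bm := by
    rw [hP, Matrix.mul_sub, Matrix.mul_one]
    have : Bm * Matrix.vecMulVec ν ν = 0 := by
      ext a b
      rw [Matrix.mul_apply]
      have h1 : ∑ c, Bm a c * Matrix.vecMulVec (ν : Fin (n + 1) → ℝ) ν c b =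
          (∑ c, B a c * ν c) * ν b := by
        rw [Finset.sum_mul]
        refine Finset.sum_congr rfl fun c _ => ?_
        rw [Matrix.vecMulVec_apply]
        change B a c * _ = _
        ring
      rw [h1, hBν, zero_mul]
      rfl
    rw [this, sub_zero]
  have hBt : Bmᵀ = Bm := by
    ext a b
    exact hBs b a
  have hht : hᵀ = h := by
    rw [eh, Matrix.transpose_mul, Matrix.transpose_mul, Matrix.transpose_transpose, hBt,
      Matrix.mul_assoc]
  have hGt : Gᵀ = G := by
    rw [eG, Matrix.transpose_mul, Matrix.transpose_transpose]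
  have hGit : (G⁻¹)ᵀ = G⁻¹ := by
    rw [Matrix.transpose_nonsing_inv, hGt]
  constructor
  · have e1 : ∑ i, ∑ j, G⁻¹ i j * hh i j = Matrix.trace (G⁻¹ * hᵀ) := by
      simp only [Matrix.trace, Matrix.diag_apply, Matrix.mul_apply, Matrix.transpose_apply]
      rfl
    have e2 : ∑ a, B a a = Matrix.trace Bm := rfl
    rw [e1, e2, hht, Matrix.trace_mul_comm, eh, Matrix.mul_assoc, Matrix.mul_assoc,
      Matrix.trace_mul_comm]
    have e3 : Bm * (α * G⁻¹) * αᵀ = Bm := by
      rw [Matrix.mul_assoc]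
      exact hBP
    rw [e3]
  · have e1 : ∑ i, ∑ j, ∑ k, ∑ l, G⁻¹ i k * G⁻¹ j l * (hh i j * hh k l) =
        Matrix.trace (h * (G⁻¹ * h * G⁻¹)ᵀ) := by
      simp only [Matrix.trace, Matrix.diag_apply, Matrix.mul_apply, Matrix.transpose_apply,
        Finset.mul_sum, Finset.sum_mul]
      refine Finset.sum_congr rfl fun i _ => Finset.sum_congr rfl fun j _ => ?_
      rw [Finset.sum_comm]
      refine Finset.sum_congr rfl fun l _ => Finset.sum_congr rfl fun k _ => ?_
      have h5 : G⁻¹ j l = G⁻¹ l j := by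
        conv_lhs => rw [← hGit]
        rfl
      rw [h5]
      change _ = hh i j * (G⁻¹ i k * hh k l * G⁻¹ l j)
      ring
    have e2 : ∑ a, ∑ b, (B a b) ^ 2 = Matrix.trace (Bm * Bm) := by
      simp only [Matrix.trace, Matrix.diag_apply, Matrix.mul_apply]
      refine Finset.sum_congr rfl fun a _ => Finset.sum_congr rfl fun b _ => ?_
      change _ = B a b * B b a
      rw [hBs b a, sq]
    have e3 : (G⁻¹ * h * G⁻¹)ᵀ = G⁻¹ * h * G⁻¹ := by
      rw [Matrix.transpose_mul, Matrix.transpose_mul, hGit, hht, Matrix.mul_assoc]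
    rw [e1, e2, e3, eh]
    have e4 : αᵀ * Bm * α * (G⁻¹ * (αᵀ * Bm * α) * G⁻¹) =
        αᵀ * (Bm * (α * G⁻¹ * αᵀ) * Bm * (α * G⁻¹)) := by
      simp only [Matrix.mul_assoc]
    have e5 : Bm * Bm * (α * G⁻¹) * αᵀ = Bm * (Bm * (α * G⁻¹ * αᵀ)) := by
      simp only [Matrix.mul_assoc]
    rw [e4, hBP, Matrix.trace_mul_comm, e5, hBP]

end

end Pool.Agent.ShG
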