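import Pool.Agent.ShG.Targets

/-! COD: the Codazzi equation. -/

namespace Pool.Agent.ShG

open scoped BigOperators Topology ContDiff
open Set Filter Asymptotics

noncomputable section

lemma COD_dlB {n : ℕ} {S : Type} [TopologicalSpace S] (M : Hyp n S) (a b c : Fin (n + 1))
    (p : S) : M.dl a (M.B b c) p = - M.dl a (M.dl b (M.Nc c)) p :=
  Hyp.dl_neg (Hyp.Sm.dl (Hyp.Sm.Nc M c p) b) a

lemma COD_sum {n : ℕ} {S : Type} [TopologicalSpace S] (M : Hyp n S) (a c : Fin (n + 1))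
    (p : S) : ∑ d, M.B a d p * M.dl d (M.Nc c) p = - M.B2 a c p := by
  unfold Hyp.B2
  rw [← Finset.sum_neg_distrib]
  refine Finset.sum_congr rfl fun d _ => ?_
  rw [Hyp.dl_Nc]
  ring

theorem pCOD : tCOD := by
  intro n S _ M a b c p
  have h := Hyp.dl_comm (M := M) (Hyp.Sm.Nc M c p) a b
  rw [COD_dlB, COD_dlB]
  rw [COD_sum, COD_sum] at h
  linarith

end

end Pool.Agent.ShG
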