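import Pool.Agent.ShG.Targets

/-! Commutation of the drift Laplacian and the tangential derivatives. -/

namespace Pool.Agent.ShG

open scoped BigOperators Topology ContDiff
open Set Filter

noncomputable section

variable {n : ℕ} {S : Type} [TopologicalSpace S]

/-- the function `(B G)_a` with `G = ∇Z` -/
def COM_bg (M : Hyp n S) (Z : S → ℝ) (a : Fin (n + 1)) : S → ℝ :=
  fun q => ∑ c, M.B a c q * M.dl c Z q

variable {M : Hyp n S}

lemma COM_bg_sm {Z : S → ℝ} {p : S} (hZ : M.Sm Z p) (a : Fin (n + 1)) :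
    M.Sm (COM_bg M Z a) p :=
  Hyp.Sm.sum fun c _ => (Hyp.Sm.B M a c p).mul (hZ.dl c)

/-- second derivatives commute up to the curvature terms, as functions near `p` -/
lemma COM_swap {Z : S → ℝ} {p : S} (hZ : M.Sm Z p) (a b : Fin (n + 1)) :
    M.dl b (M.dl a Z) =ᶠ[𝓝 p] fun q => (M.dl a (M.dl b Z) q + M.Nc a q * COM_bg M Z b q)
      - M.Nc b q * COM_bg M Z a q := by
  filter_upwards [hZ.eventually] with q hq
  have h := Hyp.dl_comm hq b a
  unfold COM_bg Hyp.Nc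
  linarith

lemma COM_swap_at {Z : S → ℝ} {p : S} (hZ : M.Sm Z p) (a b : Fin (n + 1)) :
    M.dl b (M.dl a Z) p = (M.dl a (M.dl b Z) p + M.N p a * COM_bg M Z b p)
      - M.N p b * COM_bg M Z a p :=
  (COM_swap hZ a b).self_of_nhds

/-- `(B² G)_a` -/
lemma COM_B2 (Z : S → ℝ) (p : S) (a : Fin (n + 1)) :
    ∑ b, M.B a b p * COM_bg M Z b p = ∑ b, M.B2 a b p * M.dl b Z p := by
  unfold COM_bg Hyp.B2
  simp_rw [Finset.mul_sum, Finset.sum_mul]
  rw [Finset.sum_comm]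
  refine Finset.sum_congr rfl fun b _ => Finset.sum_congr rfl fun c _ => ?_
  ring

/-- the second order part: one more derivative -/
lemma COM_third {Z : S → ℝ} {p : S} (hZ : M.Sm Z p) (a b : Fin (n + 1)) :
    M.dl b (M.dl b (M.dl a Z)) p
      = M.dl b (M.dl a (M.dl b Z)) p
        + (M.N p a * M.dl b (COM_bg M Z b) p - COM_bg M Z b p * M.B b a p)
        - (M.N p b * M.dl b (COM_bg M Z a) p - COM_bg M Z a p * M.B b b p) := by
  have s1 : M.Sm (M.dl a (M.dl b Z)) p := (hZ.dl b).dl a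
  have s2 : ∀ c, M.Sm (COM_bg M Z c) p := fun c => COM_bg_sm hZ c
  have s3 : ∀ c, M.Sm (M.Nc c) p := fun c => Hyp.Sm.Nc M c p
  rw [M.dl_congr (COM_swap hZ a b),
    Hyp.dl_sub (s1.add ((s3 a).mul (s2 b))) ((s3 b).mul (s2 a)),
    Hyp.dl_add s1 ((s3 a).mul (s2 b)), Hyp.dl_mul (s3 a) (s2 b), Hyp.dl_mul (s3 b) (s2 a),
    Hyp.dl_Nc, Hyp.dl_Nc]
  unfold Hyp.Nc
  ring

/-- commuting `δ_b` and `δ_a` on `δ_b Z`, summed over `b` -/
lemma COM_mid {Z : S → ℝ} {p : S} (hZ : M.Sm Z p) (a : Fin (n + 1)) :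
    ∑ b, M.dl b (M.dl a (M.dl b Z)) p
      = ∑ b, M.dl a (M.dl b (M.dl b Z)) p
        + M.N p a * ∑ b, ∑ c, M.B b c p * M.dl b (M.dl c Z) p
        - ∑ b, M.B2 a b p * M.dl b Z p := by
  have h1 : ∀ b, M.dl b (M.dl a (M.dl b Z)) p = M.dl a (M.dl b (M.dl b Z)) p
      + M.N p a * (∑ c, M.B b c p * M.dl c (M.dl b Z) p)
      - M.N p b * (∑ c, M.B a c p * M.dl c (M.dl b Z) p) := by
    intro b
    have h := Hyp.dl_comm (hZ.dl b) b a
    linarith
  have h2 : ∑ b, M.N p b * (∑ c, M.B a c p * M.dl c (M.dl b Z) p)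
      = ∑ b, M.B2 a b p * M.dl b Z p := by
    rw [← COM_B2 Z p a]
    simp_rw [Finset.mul_sum]
    rw [Finset.sum_comm]
    refine Finset.sum_congr rfl fun c _ => ?_
    have h3 := Hyp.hs_N_right hZ c
    unfold COM_bg
    rw [← h3, Finset.mul_sum]
    refine Finset.sum_congr rfl fun b _ => ?_
    ring
  have h4 : ∑ b, (∑ c, M.B b c p * M.dl c (M.dl b Z) p)
      = ∑ b, ∑ c, M.B b c p * M.dl b (M.dl c Z) p := by
    rw [Finset.sum_comm]
    refine Finset.sum_congr rfl fun b _ => Finset.sum_congr rfl fun c _ => ?_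
    rw [Hyp.B_symm c b p]
  rw [Finset.sum_congr rfl fun b _ => h1 b, Finset.sum_sub_distrib, Finset.sum_add_distrib,
    ← Finset.mul_sum, h2, h4]

/-- divergence of `B G` -/
lemma COM_div (hDIV : tDIV) {Z : S → ℝ} {p : S} (hZ : M.Sm Z p) :
    ∑ b, M.dl b (COM_bg M Z b) p
      = ∑ b, ∑ c, M.B b c p * M.dl b (M.dl c Z) p + ∑ c, M.dl c M.H p * M.dl c Z p := by
  have h1 : ∀ b, M.dl b (COM_bg M Z b) p
      = ∑ c, M.B b c p * M.dl b (M.dl c Z) p + ∑ c, M.dl c Z p * M.dl b (M.B b c) p := by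
    intro b
    unfold COM_bg
    rw [Hyp.dl_sum (fun c _ => (Hyp.Sm.B M b c p).mul (hZ.dl c)), ← Finset.sum_add_distrib]
    refine Finset.sum_congr rfl fun c _ => ?_
    rw [Hyp.dl_mul (Hyp.Sm.B M b c p) (hZ.dl c)]
  rw [Finset.sum_congr rfl fun b _ => h1 b, Finset.sum_add_distrib]
  have h2 : ∑ b, ∑ c, M.dl c Z p * M.dl b (M.B b c) p = ∑ c, M.dl c M.H p * M.dl c Z p := by
    rw [Finset.sum_comm]
    have h3 : ∀ c, ∑ b, M.dl c Z p * M.dl b (M.B b c) p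
        = M.dl c M.H p * M.dl c Z p + M.w p * (M.N p c * M.dl c Z p) := by
      intro c
      rw [← Finset.mul_sum, hDIV n S M c p]
      ring
    rw [Finset.sum_congr rfl fun c _ => h3 c, Finset.sum_add_distrib, ← Finset.mul_sum,
      M.dl_N Z p]
    ring
  rw [h2]

/-- the drift part -/
lemma COM_drift (hGH : tGH) (hS : M.Shr) {Z : S → ℝ} {p : S} (hZ : M.Sm Z p)
    (a : Fin (n + 1)) :
    ∑ b, M.X p b * M.dl b (M.dl a Z) p
      = M.dl a (fun q => ∑ b, M.Xc b q * M.dl b Z q) p - M.dl a Z p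
        + M.N p a * (∑ c, M.dl c M.H p * M.dl c Z p) + M.H p * COM_bg M Z a p := by
  have h1 : M.dl a (fun q => ∑ b, M.Xc b q * M.dl b Z q) p
      = ∑ b, M.X p b * M.dl a (M.dl b Z) p + M.dl a Z p := by
    rw [Hyp.dl_sum (fun b _ => (Hyp.Sm.Xc M b p).mul (hZ.dl b))]
    have h2 : ∀ b, M.dl a (fun q => M.Xc b q * M.dl b Z q) p
        = M.X p b * M.dl a (M.dl b Z) p
          + (if a = b then M.dl b Z p else 0) - M.N p a * (M.N p b * M.dl b Z p) := by
      intro b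
      rw [Hyp.dl_mul (Hyp.Sm.Xc M b p) (hZ.dl b), M.dl_X a b p]
      unfold Hyp.Xc
      split_ifs <;> ring
    rw [Finset.sum_congr rfl fun b _ => h2 b, Finset.sum_sub_distrib, Finset.sum_add_distrib,
      ← Finset.mul_sum, M.dl_N Z p, Finset.sum_ite_eq]
    simp
  have h3 : ∑ b, M.X p b * COM_bg M Z b p = ∑ c, M.dl c M.H p * M.dl c Z p := by
    unfold COM_bg
    simp_rw [Finset.mul_sum]
    rw [Finset.sum_comm]
    refine Finset.sum_congr rfl fun c _ => ?_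
    rw [hGH n S M hS c p, Finset.sum_mul]
    refine Finset.sum_congr rfl fun b _ => ?_
    rw [Hyp.B_symm b c p]
    ring
  have h4 : ∑ b, M.X p b * M.N p b = - M.H p := by
    rw [hS p, Hyp.inner_sum]
    ring
  have h5 : ∀ b, M.X p b * M.dl b (M.dl a Z) p
      = M.X p b * M.dl a (M.dl b Z) p + M.N p a * (M.X p b * COM_bg M Z b p)
        - (M.X p b * M.N p b) * COM_bg M Z a p := by
    intro b
    rw [COM_swap_at hZ a b]
    ring
  rw [Finset.sum_congr rfl fun b _ => h5 b, Finset.sum_sub_distrib, Finset.sum_add_distrib,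
    ← Finset.mul_sum, ← Finset.sum_mul, h3, h4, h1]
  ring

/-- derivative of the drift Laplacian -/
lemma COM_dlLap {Z : S → ℝ} {p : S} (hZ : M.Sm Z p) (a : Fin (n + 1)) :
    M.dl a (M.Lap Z) p = ∑ b, M.dl a (M.dl b (M.dl b Z)) p
      - M.dl a (fun q => ∑ b, M.Xc b q * M.dl b Z q) p := by
  have e : M.Lap Z = fun q => (fun r => ∑ b, M.dl b (M.dl b Z) r) q
      - (fun r => ∑ b, M.Xc b r * M.dl b Z r) q := rfl
  have s1 : M.Sm (fun r => ∑ b, M.dl b (M.dl b Z) r) p := Hyp.Sm.sum fun b _ => (hZ.dl b).dl b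
  have s2 : M.Sm (fun r => ∑ b, M.Xc b r * M.dl b Z r) p :=
    Hyp.Sm.sum fun b _ => (Hyp.Sm.Xc M b p).mul (hZ.dl b)
  rw [e, Hyp.dl_sub s1 s2]
  rw [Hyp.dl_sum (fun b _ => (hZ.dl b).dl b)]

theorem pCOM (hDIV : tDIV) (hGH : tGH) : tCOM := by
  intro n S _ M hS Z p hZ a
  have h1 : ∑ b, M.dl b (M.dl b (M.dl a Z)) p
      = ∑ b, M.dl b (M.dl a (M.dl b Z)) p
        + (M.N p a * (∑ b, M.dl b (COM_bg M Z b) p) - ∑ b, M.B a b p * COM_bg M Z b p)
        - ((∑ b, M.N p b * M.dl b (COM_bg M Z a) p) - COM_bg M Z a p * M.H p) := by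
    rw [Finset.sum_congr rfl fun b _ => COM_third hZ a b, Finset.sum_sub_distrib,
      Finset.sum_add_distrib, Finset.sum_sub_distrib, Finset.sum_sub_distrib, ← Finset.mul_sum,
      ← Finset.mul_sum]
    have e1 : ∑ b, COM_bg M Z b p * M.B b a p = ∑ b, M.B a b p * COM_bg M Z b p := by
      refine Finset.sum_congr rfl fun b _ => ?_
      rw [Hyp.B_symm b a p]
      ring
    rw [e1]
    rfl
  rw [COM_mid hZ a, COM_div hDIV hZ, COM_B2 Z p a, M.dl_N (COM_bg M Z a) p] at h1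
  have h2 := COM_drift hGH hS hZ a
  have h3 := COM_dlLap hZ a
  have h4 : M.Lap (M.dl a Z) p = ∑ b, M.dl b (M.dl b (M.dl a Z)) p
      - ∑ b, M.X p b * M.dl b (M.dl a Z) p := rfl
  rw [h4, h1, h2, h3]
  ring

end

end Pool.Agent.ShG
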