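import Pool.Agent.ShG.TargetsX

/-!
# The orientation double cover
-/

namespace Pool.Agent.ShG

open scoped BigOperators Topology ContDiff Manifold
open Set Filter

noncomputable section

variable {n : ℕ}

/-! ## Linear algebra -/

lemma COV_line (A : Es n →L[ℝ] Fs n) (hA : Function.Injective A) (ν ν' : Fs n) (hν : ‖ν‖ = 1)
    (h : ∀ u, inner ℝ (A u) ν = (0:ℝ)) (h' : ∀ u, inner ℝ (A u) ν' = (0:ℝ)) :
    ∃ c : ℝ, c • ν = ν' := by
  have hN0 : ν ≠ 0 := by
    intro h0
    rw [h0] at hν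
    simp at hν
  set R : Submodule ℝ (Fs n) := LinearMap.range A.toLinearMap with hR
  have hfr : Module.finrank ℝ R = n := by
    rw [hR, LinearMap.finrank_range_of_inj hA]
    simp
  have hfo : Module.finrank ℝ Rᗮ = 1 := by
    have := Submodule.finrank_add_finrank_orthogonal R
    rw [hfr] at this
    simp at this
    omega
  have hm : ∀ μ : Fs n, (∀ u, inner ℝ (A u) μ = (0:ℝ)) → μ ∈ Rᗮ := by
    intro μ hμ
    rw [Submodule.mem_orthogonal]
    rintro _ ⟨u, rfl⟩
    exact hμ u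
  obtain ⟨c, hc⟩ := (finrank_eq_one_iff_of_nonzero' (⟨ν, hm ν h⟩ : Rᗮ) (by
    intro h0; exact hN0 (congrArg Subtype.val h0))).1 hfo ⟨ν', hm ν' h'⟩
  exact ⟨c, congrArg Subtype.val hc⟩

lemma COV_normal (A : Es n →L[ℝ] Fs n) : ∃ ν : Fs n, ‖ν‖ = 1 ∧ ∀ u, inner ℝ (A u) ν = (0:ℝ) := by
  set R : Submodule ℝ (Fs n) := LinearMap.range A.toLinearMap with hR
  have h1 : Module.finrank ℝ R ≤ n := by
    have := LinearMap.finrank_range_le A.toLinearMap
    simpa using this
  have h2 : Rᗮ ≠ ⊥ := by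
    intro h
    have := Submodule.finrank_add_finrank_orthogonal R
    rw [h] at this
    simp at this
    omega
  obtain ⟨μ, hμ, hμ0⟩ := Submodule.exists_mem_ne_zero_of_ne_bot h2
  refine ⟨‖μ‖⁻¹ • μ, ?_, fun u => ?_⟩
  · rw [norm_smul, norm_inv, norm_norm, inv_mul_cancel₀ (norm_ne_zero_iff.2 hμ0)]
  · rw [inner_smul_right, (Submodule.mem_orthogonal R μ).1 hμ (A u) ⟨u, rfl⟩, mul_zero]

/-! ## The normal of a graph -/

/-- the unit normal of the graph of `g` -/
def COV_nn (ι : Es n →ₗᵢ[ℝ] Fs n) (g : Es n → ℝ) (ν : Fs n) (v : Es n) : Fs n :=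
  (Real.sqrt (1 + ‖gradient g v‖ ^ 2))⁻¹ • (ν - ι (gradient g v))

lemma COV_pos (g : Es n → ℝ) (v : Es n) : 0 < Real.sqrt (1 + ‖gradient g v‖ ^ 2) :=
  Real.sqrt_pos.2 (by positivity)

lemma COV_nn_norm {ι : Es n →ₗᵢ[ℝ] Fs n} {g : Es n → ℝ} {ν : Fs n}
    (hι : ∀ u, inner ℝ (ι u) ν = (0:ℝ)) (hν : ‖ν‖ = 1) (v : Es n) : ‖COV_nn ι g ν v‖ = 1 := by
  have h1 : ‖ν - ι (gradient g v)‖ ^ 2 = 1 + ‖gradient g v‖ ^ 2 := by
    rw [norm_sub_sq_real, real_inner_comm, hι, hν, ι.norm_map]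
    ring
  have h2 : ‖ν - ι (gradient g v)‖ = Real.sqrt (1 + ‖gradient g v‖ ^ 2) := by
    rw [← h1, Real.sqrt_sq (norm_nonneg _)]
  rw [COV_nn, norm_smul, h2, norm_inv, Real.norm_of_nonneg (COV_pos g v).le,
    inv_mul_cancel₀ (COV_pos g v).ne']

lemma COV_nn_cont {ι : Es n →ₗᵢ[ℝ] Fs n} {g : Es n → ℝ} {ν : Fs n} {U : Set (Es n)}
    (hU : IsOpen U) (hg : ContDiffOn ℝ ∞ g U) : ContinuousOn (COV_nn ι g ν) U := by
  have h1 : ContinuousOn (gradient g) U := by
    have h2 : ContinuousOn (fderiv ℝ g) U :=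
      hg.continuousOn_fderiv_of_isOpen hU (by simp)
    exact (InnerProductSpace.toDual ℝ (Es n)).symm.continuous.comp_continuousOn h2
  have h3 : ContinuousOn (fun v => (Real.sqrt (1 + ‖gradient g v‖ ^ 2))⁻¹) U :=
    ((continuousOn_const.add (h1.norm.pow 2)).sqrt).inv₀ fun v _ => (COV_pos g v).ne'
  have h4 : ContinuousOn (fun v => ν - ι (gradient g v)) U :=
    continuousOn_const.sub (ι.continuous.comp_continuousOn h1)
  exact h3.smul h4

/-! ## The abstract double cover -/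

section

variable {S : Type} [TopologicalSpace S] {X : S → Fs n} {Nm : S → Fs n → Prop}

/-- the pairs of a point and a unit normal -/
abbrev COV_S (Nm : S → Fs n → Prop) : Type := {x : S × Fs n // Nm x.1 x.2}

lemma COV_sec (hXc : Continuous X) (h1 : ∀ p ν, Nm p ν → ‖ν‖ = 1)
    (h2 : ∀ p ν ν', Nm p ν → Nm p ν' → ν' = ν ∨ ν' = -ν)
    (h5 : ∀ p ν, Nm p ν → ∃ (ι : Es n →ₗᵢ[ℝ] Fs n) (U : Set (Es n)) (g : Es n → ℝ)
      (ψ : Es n → S), IsOpen U ∧ (0 : Es n) ∈ U ∧ (∀ u, inner ℝ (ι u) ν = (0:ℝ)) ∧ ψ 0 = p ∧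
      ContinuousOn ψ U ∧ (∀ W ⊆ U, IsOpen W → IsOpen (ψ '' W)) ∧ ContDiffOn ℝ ∞ g U ∧
      (∀ v ∈ U, X (ψ v) = X p + ι v + g v • ν) ∧ ∀ v ∈ U, Nm (ψ v) (COV_nn ι g ν v))
    (x : COV_S Nm) : ∃ (r : ℝ) (ι : Es n →ₗᵢ[ℝ] Fs n) (g : Es n → ℝ) (σ : Es n → COV_S Nm),
      0 < r ∧ IsSec (fun y : COV_S Nm => X y.1.1) (fun y => y.1.2) x (Metric.ball 0 r) ι g σ ∧
      ∀ W ⊆ Metric.ball 0 r, IsOpen W → IsOpen ((fun v => (σ v).1.1) '' W) := by
  classical
  obtain ⟨⟨p, ν⟩, hx⟩ := x
  simp only at hx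
  obtain ⟨ι, U, g, ψ, hU, h0, hι, hψ0, hψc, hψo, hg, hgr, hnm⟩ := h5 p ν hx
  obtain ⟨r, hr, hrU⟩ := Metric.isOpen_iff.1 hU 0 h0
  have hν := h1 p ν hx
  have hNN : (inner ℝ ν ν : ℝ) = 1 := by rw [real_inner_self_eq_norm_sq, hν]; norm_num
  have hn0 : COV_nn ι g ν 0 = ν := by
    have h3 := hnm 0 h0
    rw [hψ0] at h3
    rcases h2 p ν _ hx h3 with h4 | h4
    · exact h4
    · exfalso
      have h5 : (inner ℝ (COV_nn ι g ν 0) ν : ℝ) = (Real.sqrt (1 + ‖gradient g 0‖ ^ 2))⁻¹ := by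
        rw [COV_nn, inner_smul_left, inner_sub_left, hι, hNN]
        simp
      have h6 := inv_pos.2 (COV_pos g 0)
      rw [← h5, h4, inner_neg_left, hNN] at h6
      linarith
  set σ : Es n → COV_S Nm := fun v => if h : v ∈ U then ⟨(ψ v, COV_nn ι g ν v), hnm v h⟩ else
    ⟨(p, ν), hx⟩ with hσ
  have hσ1 : ∀ v ∈ U, (σ v).1 = (ψ v, COV_nn ι g ν v) := by
    intro v hv
    rw [hσ]
    simp only [dif_pos hv]
  have hprj : ∀ v ∈ U, prj ι (X (ψ v) - X p) = v := by
    intro v hv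
    have h3 : prj ι ν = 0 := by
      refine ext_inner_right ℝ fun w => ?_
      rw [prj_inner, inner_zero_left, real_inner_comm, hι]
    have h4 : X (ψ v) - X p = ι v + g v • ν := by rw [hgr v hv]; abel
    rw [h4, map_add, map_smul, h3, prj_ι, smul_zero, add_zero]
  have hball : Metric.ball (0 : Es n) r ⊆ U := hrU
  have hcont : ContinuousOn σ U := by
    have hi : Topology.IsInducing (Subtype.val : COV_S Nm → S × Fs n) :=
      Topology.IsInducing.subtypeVal
    rw [hi.continuousOn_iff]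
    exact (hψc.prodMk (COV_nn_cont hU hg)).congr fun v hv => hσ1 v hv
  refine ⟨r, ι, g, σ, hr, ?_, ?_⟩
  · refine ⟨Metric.isOpen_ball, Metric.mem_ball_self hr, ?_, hcont.mono hball, ?_, hι,
      hg.mono hball, ?_, ?_⟩
    · apply Subtype.ext
      rw [hσ1 0 h0, hψ0, hn0]
    · intro V hV hVo
      have hVU : V ⊆ U := hV.trans hball
      have hW := hψo V hVU hVo
      set F : COV_S Nm → ℝ := fun y => inner ℝ (COV_nn ι g ν (prj ι (X y.1.1 - X p))) y.1.2
        with hF
      have hFc : ContinuousOn F {y : COV_S Nm | y.1.1 ∈ ψ '' V} := by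
        have e1 : Continuous fun y : COV_S Nm => prj ι (X y.1.1 - X p) :=
          (prj ι).continuous.comp
            ((hXc.comp (continuous_fst.comp continuous_subtype_val)).sub continuous_const)
        have e2 : ContinuousOn (fun y : COV_S Nm => COV_nn ι g ν (prj ι (X y.1.1 - X p)))
            {y : COV_S Nm | y.1.1 ∈ ψ '' V} := by
          refine (COV_nn_cont hU hg).comp e1.continuousOn ?_
          rintro y ⟨v, hv, hvy⟩
          change prj ι (X y.1.1 - X p) ∈ U
          rw [← hvy, hprj v (hVU hv)]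
          exact hVU hv
        exact e2.inner (continuous_snd.comp continuous_subtype_val).continuousOn
      have hO : IsOpen ({y : COV_S Nm | y.1.1 ∈ ψ '' V} ∩ F ⁻¹' Ioi 0) :=
        hFc.isOpen_inter_preimage
          (hW.preimage (continuous_fst.comp continuous_subtype_val)) isOpen_Ioi
      convert hO using 1
      ext y
      constructor
      · rintro ⟨v, hv, rfl⟩
        refine ⟨?_, ?_⟩
        · change (σ v).1.1 ∈ ψ '' V
          rw [hσ1 v (hVU hv)]
          exact ⟨v, hv, rfl⟩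
        · change 0 < F (σ v)
          rw [hF]
          simp only
          rw [hσ1 v (hVU hv)]
          simp only
          rw [hprj v (hVU hv), real_inner_self_eq_norm_sq, COV_nn_norm hι hν]
          norm_num
      · rintro ⟨⟨v, hv, hvy⟩, hy⟩
        refine ⟨v, hv, ?_⟩
        have hvU := hVU hv
        have hy' : 0 < F y := hy
        rw [hF] at hy'
        simp only at hy'
        rw [← hvy, hprj v hvU] at hy'
        have h3 := hnm v hvU
        rw [hvy] at h3
        have h4 : y.1.2 = COV_nn ι g ν v := by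
          rcases h2 y.1.1 _ _ h3 y.2 with h4 | h4
          · exact h4
          · exfalso
            rw [h4, inner_neg_right, real_inner_self_eq_norm_sq, COV_nn_norm hι hν] at hy'
            linarith
        apply Subtype.ext
        rw [hσ1 v hvU, hvy, ← h4]
    · intro v hv
      change X (σ v).1.1 = X p + ι v + g v • ν
      rw [hσ1 v (hball hv)]
      exact hgr v (hball hv)
    · intro v hv
      rw [hσ1 v (hball hv)]
      rfl
  · intro W hW hWo
    have h3 : (fun v => (σ v).1.1) '' W = ψ '' W :=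
      image_congr fun v hv => by rw [hσ1 v (hball (hW hv))]
    rw [h3]
    exact hψo W (hW.trans hball) hWo

/-- restriction of a section to a connected component -/
lemma COV_restrict {T : Type} [TopologicalSpace T] {XX NN : T → Fs n} {x0 q : T}
    (hq : q ∈ connectedComponent x0) {r : ℝ} (hr : 0 < r) {ι : Es n →ₗᵢ[ℝ] Fs n} {g : Es n → ℝ}
    {σ : Es n → T} (h : IsSec XX NN q (Metric.ball 0 r) ι g σ) :
    σ '' Metric.ball 0 r ⊆ connectedComponent x0 ∧
    ∃ σ' : Es n → connectedComponent x0, (∀ v ∈ Metric.ball (0 : Es n) r, (σ' v).1 = σ v) ∧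
      IsSec (fun y : connectedComponent x0 => XX y.1) (fun y => NN y.1) ⟨q, hq⟩
        (Metric.ball 0 r) ι g σ' := by
  classical
  have hsub : σ '' Metric.ball 0 r ⊆ connectedComponent x0 := by
    rw [connectedComponent_eq hq]
    have hpre : IsPreconnected (σ '' Metric.ball (0 : Es n) r) :=
      (convex_ball (0 : Es n) r).isPreconnected.image σ h.cont
    exact hpre.subset_connectedComponent ⟨0, Metric.mem_ball_self hr, h.base⟩
  refine ⟨hsub, fun v => if hv : v ∈ Metric.ball (0 : Es n) r then ⟨σ v, hsub ⟨v, hv, rfl⟩⟩ else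
    ⟨q, hq⟩, ?_, ?_⟩
  · intro v hv
    simp only [dif_pos hv]
  · have hσ1 : ∀ v ∈ Metric.ball (0 : Es n) r,
        ((fun v => if hv : v ∈ Metric.ball (0 : Es n) r then (⟨σ v, hsub ⟨v, hv, rfl⟩⟩ :
          connectedComponent x0) else ⟨q, hq⟩) v).1 = σ v := by
      intro v hv
      simp only [dif_pos hv]
    generalize (fun v => if hv : v ∈ Metric.ball (0 : Es n) r then (⟨σ v, hsub ⟨v, hv, rfl⟩⟩ :
          connectedComponent x0) else ⟨q, hq⟩) = σ' at hσ1
    refine ⟨h.isOpen, h.mem0, ?_, ?_, ?_, h.perp, h.smooth, ?_, ?_⟩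
    · apply Subtype.ext
      rw [hσ1 0 h.mem0, h.base]
    · rw [Topology.IsInducing.subtypeVal.continuousOn_iff]
      exact h.cont.congr fun v hv => hσ1 v hv
    · intro V hV hVo
      have h3 : σ' '' V = Subtype.val ⁻¹' (σ '' V) := by
        ext y
        constructor
        · rintro ⟨v, hv, rfl⟩
          exact ⟨v, hv, (hσ1 v (hV hv)).symm⟩
        · rintro ⟨v, hv, hvy⟩
          exact ⟨v, hv, Subtype.ext ((hσ1 v (hV hv)).trans hvy)⟩
      rw [h3]
      exact (h.opn V hV hVo).preimage continuous_subtype_val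
    · intro v hv
      rw [hσ1 v hv]
      exact h.graph v hv
    · intro v hv
      rw [hσ1 v hv]
      exact h.normal v hv

theorem COV_abs [T2Space S] [ConnectedSpace S] (hX : IsProperMap X)
    (h1 : ∀ p ν, Nm p ν → ‖ν‖ = 1)
    (h2 : ∀ p ν ν', Nm p ν → Nm p ν' → ν' = ν ∨ ν' = -ν) (h3 : ∀ p, ∃ ν, Nm p ν)
    (h4 : IsClosed {x : S × Fs n | Nm x.1 x.2})
    (h5 : ∀ p ν, Nm p ν → ∃ (ι : Es n →ₗᵢ[ℝ] Fs n) (U : Set (Es n)) (g : Es n → ℝ)
      (ψ : Es n → S), IsOpen U ∧ (0 : Es n) ∈ U ∧ (∀ u, inner ℝ (ι u) ν = (0:ℝ)) ∧ ψ 0 = p ∧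
      ContinuousOn ψ U ∧ (∀ W ⊆ U, IsOpen W → IsOpen (ψ '' W)) ∧ ContDiffOn ℝ ∞ g U ∧
      (∀ v ∈ U, X (ψ v) = X p + ι v + g v • ν) ∧ ∀ v ∈ U, Nm (ψ v) (COV_nn ι g ν v)) :
    ∃ (S' : Type) (_ : TopologicalSpace S') (_ : T2Space S') (_ : ConnectedSpace S')
      (M : Hyp n S') (π : S' → S), Continuous π ∧ Function.Surjective π ∧
      (∀ q, M.X q = X (π q)) ∧ (∀ q, Nm (π q) (M.N q)) ∧
      (∀ q, ∃ s : S → S', s (π q) = q ∧ ContinuousAt s (π q) ∧ ∀ᶠ p in 𝓝 (π q), π (s p) = p) := by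
  classical
  have hsec := COV_sec hX.continuous h1 h2 h5
  obtain ⟨p0⟩ := (inferInstance : Nonempty S)
  obtain ⟨ν0, hν0⟩ := h3 p0
  set x0 : COV_S Nm := ⟨(p0, ν0), hν0⟩ with hx0
  have hemb : Topology.IsClosedEmbedding (Subtype.val : COV_S Nm → S × Fs n) :=
    h4.isClosedEmbedding_subtypeVal
  have hprop : IsProperMap (fun y : COV_S Nm => X y.1.1) := by
    rw [isProperMap_iff_isCompact_preimage]
    refine ⟨hX.continuous.comp (continuous_fst.comp continuous_subtype_val), fun K hK => ?_⟩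
    have e1 : IsCompact ((X ⁻¹' K) ×ˢ Metric.sphere (0 : Fs n) 1) :=
      (hX.isCompact_preimage hK).prod (isCompact_sphere 0 1)
    have e2 := hemb.isCompact_preimage e1
    convert e2 using 1
    ext y
    constructor
    · intro hy
      exact ⟨hy, mem_sphere_zero_iff_norm.2 (h1 _ _ y.2)⟩
    · intro hy
      exact hy.1
  have hpi : IsProperMap (fun y : COV_S Nm => y.1.1) :=
    isProperMap_of_comp_of_t2 (continuous_fst.comp continuous_subtype_val) hX.continuous hprop
  set C : Set (COV_S Nm) := connectedComponent x0 with hC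
  have hCc : IsClosed C := isClosed_connectedComponent
  choose r ι g σ hr hs ho using hsec
  have hconn : ConnectedSpace C := isConnected_iff_connectedSpace.1 isConnected_connectedComponent
  choose hsub σ' hσ' hs' using fun q : C => COV_restrict (x0 := x0) q.2 (hr q.1) (hs q.1)
  have hM : ∀ q : C, IsSec (fun y : C => X y.1.1.1) (fun y => y.1.1.2) q
      (Metric.ball 0 (r q.1)) (ι q.1) (g q.1) (σ' q) := fun q => hs' q
  refine ⟨C, inferInstance, inferInstance, hconn,
    { X := fun y => X y.1.1.1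
      N := fun y => y.1.1.2
      proper := hprop.comp hCc.isClosedEmbedding_subtypeVal.isProperMap
      unit := fun y => h1 _ _ y.1.2
      sec := fun q => ⟨_, _, _, _, hM q⟩ }, fun y => y.1.1.1,
    continuous_fst.comp (continuous_subtype_val.comp continuous_subtype_val), ?_,
    fun q => rfl, fun q => q.1.2, ?_⟩
  · have hopen : ∀ q : C, (fun v => (σ q.1 v).1.1) '' Metric.ball 0 (r q.1) ⊆
        (fun y : COV_S Nm => y.1.1) '' C := by
      rintro q _ ⟨v, hv, rfl⟩
      exact ⟨σ q.1 v, hsub q ⟨v, hv, rfl⟩, rfl⟩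
    have hcl : IsClopen ((fun y : COV_S Nm => y.1.1) '' C) := by
      refine ⟨hpi.isClosedMap C hCc, ?_⟩
      rw [isOpen_iff_mem_nhds]
      rintro _ ⟨q, hq, rfl⟩
      refine mem_of_superset ((ho q _ Subset.rfl Metric.isOpen_ball).mem_nhds ?_)
        (hopen ⟨q, hq⟩)
      exact ⟨0, (hs q).mem0, by simp only [(hs q).base]⟩
    have huniv := hcl.eq_univ ⟨x0.1.1, x0, mem_connectedComponent, rfl⟩
    intro p
    have hp : p ∈ (fun y : COV_S Nm => y.1.1) '' C := by rw [huniv]; trivial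
    obtain ⟨y, hy, rfl⟩ := hp
    exact ⟨⟨y, hy⟩, rfl⟩
  · intro q
    refine ⟨fun p => σ' q (prj (ι q.1) (X p - X q.1.1.1)), ?_, ?_, ?_⟩
    · simp only [sub_self, map_zero]
      exact (hM q).base
    · have e1 : ContinuousAt (fun p => prj (ι q.1) (X p - X q.1.1.1)) q.1.1.1 :=
        ((prj (ι q.1)).continuous.comp (hX.continuous.sub continuous_const)).continuousAt
      have e2 : ContinuousAt (σ' q) (prj (ι q.1) (X q.1.1.1 - X q.1.1.1)) := by
        rw [sub_self, map_zero]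
        exact (hM q).cont.continuousAt (Metric.ball_mem_nhds 0 (hr q.1))
      exact ContinuousAt.comp (f := fun p => prj (ι q.1) (X p - X q.1.1.1)) e2 e1
    · have e1 : (fun v => (σ q.1 v).1.1) '' Metric.ball 0 (r q.1) ∈ 𝓝 q.1.1.1 := by
        refine (ho q.1 _ Subset.rfl Metric.isOpen_ball).mem_nhds ?_
        exact ⟨0, (hs q.1).mem0, by simp only [(hs q.1).base]⟩
      filter_upwards [e1]
      rintro _ ⟨v, hv, rfl⟩
      have e2 : prj (ι q.1) (X (σ q.1 v).1.1 - X q.1.1.1) = v := (hs q.1).proj hv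
      simp only [e2]
      rw [hσ' q v hv]

end

/-! ## Manifolds -/

theorem pCOV (hGR0 : tGR0) (hMAN : tMAN) : tCOV := by
  intro n S _ _ _ _ _ X hXs hXi hXp
  have hm := hMAN n S X hXs hXi
  set φ : S → OpenPartialHomeomorph S (EuclideanSpace ℝ (Fin n)) :=
    fun p => chartAt (EuclideanSpace ℝ (Fin n)) p with hφ
  set A : S → Es n →L[ℝ] Fs n := fun p => fderiv ℝ (locX X p) (φ p p) with hA
  have hsrc : ∀ p, p ∈ (φ p).source := fun p => mem_chart_source _ p
  have htgt : ∀ p, φ p p ∈ (φ p).target := fun p => (φ p).map_source (hsrc p)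
  have hinj : ∀ p, Function.Injective (A p) := fun p => ((hm p).2 _ (htgt p)).1
  have hrange : ∀ p, ∀ u ∈ (φ p).target, LinearMap.range (fderiv ℝ (locX X p) u).toLinearMap =
      LinearMap.range (A ((φ p).symm u)).toLinearMap := fun p u hu => ((hm p).2 u hu).2
  have hperp : ∀ p, ∀ u ∈ (φ p).target, ∀ ν : Fs n,
      (∀ h, inner ℝ (fderiv ℝ (locX X p) u h) ν = (0:ℝ)) ↔
      ∀ h, inner ℝ (A ((φ p).symm u) h) ν = (0:ℝ) := by
    intro p u hu ν
    have h1 := hrange p u hu
    constructor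
    · intro h2 h
      have h3 : A ((φ p).symm u) h ∈ LinearMap.range (fderiv ℝ (locX X p) u).toLinearMap := by
        rw [h1]; exact ⟨h, rfl⟩
      obtain ⟨h', hh'⟩ := h3
      rw [← hh']
      exact h2 h'
    · intro h2 h
      have h3 : fderiv ℝ (locX X p) u h ∈ LinearMap.range (A ((φ p).symm u)).toLinearMap := by
        rw [← h1]; exact ⟨h, rfl⟩
      obtain ⟨h', hh'⟩ := h3
      rw [← hh']
      exact h2 h'
  have key := COV_abs (X := X) (Nm := fun p ν => ‖ν‖ = 1 ∧ ∀ h, inner ℝ (A p h) ν = (0:ℝ)) hXp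
    (fun p ν h => h.1) ?_ (fun p => COV_normal (A p)) ?_ ?_
  · obtain ⟨S', t1, t2, t3, M, π, a1, a2, a3, a4, a5⟩ := key
    exact ⟨S', t1, t2, t3, M, π, a1, a2, a3, fun q h => (a4 q).2 h, a5⟩
  · intro p ν ν' h h'
    obtain ⟨c, hc⟩ := COV_line (A p) (hinj p) ν ν' h.1 h.2 h'.2
    have h1 : |c| = 1 := by
      have := h'.1
      rw [← hc, norm_smul, h.1, mul_one] at this
      exact this
    rcases abs_eq (zero_le_one' ℝ) |>.1 h1 with h2 | h2
    · left; rw [← hc, h2, one_smul]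
    · right; rw [← hc, h2, neg_one_smul]
  · rw [← isOpen_compl_iff, isOpen_iff_mem_nhds]
    rintro ⟨p, ν⟩ hx
    have hs : ∀ᶠ x : S × Fs n in 𝓝 (p, ν), x.1 ∈ (φ p).source :=
      continuous_fst.continuousAt.eventually ((φ p).open_source.mem_nhds (hsrc p))
    by_cases hν : ‖ν‖ = 1
    · have h1 : ∃ h, inner ℝ (A p h) ν ≠ (0:ℝ) := by
        by_contra hcon
        push Not at hcon
        exact hx ⟨hν, hcon⟩
      obtain ⟨h, hh⟩ := h1
      have h2 : ContinuousAt (fun x : S × Fs n =>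
          (inner ℝ (fderiv ℝ (locX X p) (φ p x.1) h) x.2 : ℝ)) (p, ν) := by
        have e1 : ContinuousAt (fderiv ℝ (locX X p)) (φ p p) :=
          ((hm p).1.continuousOn_fderiv_of_isOpen (φ p).open_target (by simp)).continuousAt
            ((φ p).open_target.mem_nhds (htgt p))
        have e2 : ContinuousAt (fun x : S × Fs n => φ p x.1) (p, ν) :=
          ContinuousAt.comp (f := Prod.fst) (g := φ p) ((φ p).continuousAt (hsrc p))
            continuous_fst.continuousAt
        have e3 : ContinuousAt (fun x : S × Fs n => fderiv ℝ (locX X p) (φ p x.1)) (p, ν) :=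
          ContinuousAt.comp (f := fun x : S × Fs n => φ p x.1) e1 e2
        exact (e3.clm_apply continuousAt_const).inner continuous_snd.continuousAt
      filter_upwards [hs, h2.eventually_ne hh] with x hx1 hx2 hx3
      apply hx2
      have h3 := (hperp p (φ p x.1) ((φ p).map_source hx1) x.2).2 (by
        rw [(φ p).left_inv hx1]
        exact hx3.2)
      exact h3 h
    · have h2 : ∀ᶠ x : S × Fs n in 𝓝 (p, ν), ‖x.2‖ ≠ 1 :=
        (continuous_snd.norm.continuousAt (x := (p, ν))).eventually_ne hν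
      filter_upwards [h2] with x hx1 hx2
      exact hx1 hx2.1
  · intro p ν hν
    obtain ⟨ι, U, g, ψ, hU, h0, hι, hψ0, hmaps, hψc, hψo, hg, hgr, hno⟩ :=
      hGR0 n (locX X p) (φ p).target (φ p p) ν (φ p).open_target (htgt p) (hm p).1
        (fun u hu => ((hm p).2 u hu).1) hν.1 hν.2
    refine ⟨ι, U, g, fun v => (φ p).symm (ψ v), hU, h0, hι, ?_, ?_, ?_, hg, ?_, ?_⟩
    · change (φ p).symm (ψ 0) = p
      rw [hψ0, (φ p).left_inv (hsrc p)]
    · exact (φ p).continuousOn_symm.comp hψc hmaps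
    · intro W hW hWo
      have e1 : (fun v => (φ p).symm (ψ v)) '' W = (φ p).symm '' (ψ '' W) := by
        rw [image_image]
      rw [e1]
      refine (φ p).isOpen_image_symm_of_subset_target (hψo W hW hWo) ?_
      rintro _ ⟨v, hv, rfl⟩
      exact hmaps (hW hv)
    · intro v hv
      have e1 := hgr v hv
      have e2 : locX X p (φ p p) = X p := by
        change X ((φ p).symm (φ p p)) = X p
        rw [(φ p).left_inv (hsrc p)]
      rw [e2] at e1
      exact e1
    · intro v hv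
      refine ⟨COV_nn_norm hι hν.1 v, ?_⟩
      refine (hperp p (ψ v) (hmaps hv) _).1 fun h => ?_
      rw [COV_nn, inner_smul_right, hno v hv h, mul_zero]

end

end Pool.Agent.ShG
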