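import Pool.Agent.ShG.Targets

/-! The Bernstein argument with cutoff. -/

namespace Pool.Agent.ShG

open scoped BigOperators Topology ContDiff
open Set Filter

noncomputable section

variable {n : ℕ} {S : Type} [TopologicalSpace S]

/-- the bound at the maximum point -/
lemma CUT_point (hLX : tLX) (M : Hyp n S) (hshr : M.Shr) {A K R : ℝ} (hA : 0 ≤ A)
    (hK : K = 17 * A + 4 * n + 1) (hR : 1 ≤ R) {f0 f1 G : S → ℝ} {p : S}
    (h0 : M.Sm f0 p) (h1 : M.Sm f1 p) (hf1 : 0 ≤ f1 p) (hG : 0 ≤ G p)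
    (hL1 : G p - A * f1 p - A ≤ M.Lap f1 p) (hg1 : M.gsq f1 p ≤ A * f1 p * G p)
    (hL0 : f1 p - A ≤ M.Lap f0 p) (hρ : M.rho p < R ^ 2)
    (hmax : ∀ᶠ q in 𝓝 p, (1 - (1 / R ^ 2) * M.rho q) ^ 2 * f1 q + K * f0 q
      ≤ (1 - (1 / R ^ 2) * M.rho p) ^ 2 * f1 p + K * f0 p) :
    f1 p ≤ A + K * A := by
  obtain ⟨-, -, hLr, -, hgr⟩ := hLX n S M hshr
  have hR0 : 0 < R := by linarith
  have hR2 : 1 ≤ R ^ 2 := by nlinarith
  set h : S → ℝ := fun q => 1 - (1 / R ^ 2) * M.rho q with hh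
  have hr0 : 0 ≤ M.rho p := by unfold Hyp.rho; positivity
  have hsmr : M.Sm (fun q => (1 / R ^ 2) * M.rho q) p := Hyp.Sm.const_mul _ (Hyp.Sm.rho M p)
  have hsm : M.Sm h p := (Hyp.Sm.const M 1 p).sub hsmr
  have hhp0 : 0 ≤ h p := by
    simp only [hh]
    have : (1 / R ^ 2) * M.rho p ≤ 1 := by
      rw [one_div, inv_mul_le_iff₀ (by positivity)]
      linarith
    linarith
  have hhp1 : h p ≤ 1 := by
    simp only [hh]
    have : 0 ≤ (1 / R ^ 2) * M.rho p := by positivity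
    linarith
  have hLh : M.Lap h p = -(1 / R ^ 2) * (2 * n - 2 * M.rho p) := by
    simp only [hh]
    rw [Hyp.Lap_sub (Hyp.Sm.const M 1 p) hsmr, Hyp.Lap_const,
      Hyp.Lap_const_mul _ (Hyp.Sm.rho M p), hLr]
    ring
  have hdh : ∀ a, M.dl a h p = -(1 / R ^ 2) * M.dl a M.rho p := by
    intro a
    simp only [hh]
    rw [Hyp.dl_sub (Hyp.Sm.const M 1 p) hsmr, Hyp.dl_const, Hyp.dl_const_mul _ (Hyp.Sm.rho M p)]
    ring
  have hgh : M.gsq h p = (1 / R ^ 2) ^ 2 * M.gsq M.rho p := by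
    unfold Hyp.gsq
    rw [Finset.mul_sum]
    refine Finset.sum_congr rfl fun a _ => ?_
    rw [hdh]; ring
  have hgh2 : M.gsq h p ≤ 4 / R ^ 2 := by
    rw [hgh, hgr]
    have h2 : 4 * (M.rho p - M.H p ^ 2) ≤ 4 * R ^ 2 := by nlinarith [sq_nonneg (M.H p)]
    calc (1 / R ^ 2) ^ 2 * (4 * (M.rho p - M.H p ^ 2)) ≤ (1 / R ^ 2) ^ 2 * (4 * R ^ 2) := by
          gcongr
      _ = 4 / R ^ 2 := by field_simp
  have hgh0 : 0 ≤ M.gsq h p := Hyp.gsq_nonneg _ _
  -- phi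
  have hLphi : M.Lap (fun q => h q ^ 2) p = 2 * h p * M.Lap h p + 2 * M.gsq h p :=
    Hyp.Lap_sq hsm
  have hLphi2 : -(4 * n) ≤ M.Lap (fun q => h q ^ 2) p := by
    rw [hLphi, hLh]
    have h3 : (1 / R ^ 2) * (2 * n - 2 * M.rho p) ≤ 2 * n := by
      rw [one_div, inv_mul_le_iff₀ (by positivity)]
      nlinarith [(Nat.cast_nonneg n : (0:ℝ) ≤ n)]
    have h4 : h p * ((1 / R ^ 2) * (2 * n - 2 * M.rho p)) ≤ 2 * n := by
      have h5 : h p * ((1 / R ^ 2) * (2 * n - 2 * M.rho p)) ≤ h p * (2 * n) :=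
        mul_le_mul_of_nonneg_left h3 hhp0
      have h6 : h p * (2 * n) ≤ 1 * (2 * n) :=
        mul_le_mul_of_nonneg_right hhp1 (by positivity)
      linarith
    nlinarith
  have hdphi : ∀ a, M.dl a (fun q => h q ^ 2) p = 2 * h p * M.dl a h p := fun a =>
    Hyp.dl_sq hsm a
  -- cross term
  set s : ℝ := ∑ a, M.dl a (fun q => h q ^ 2) p * M.dl a f1 p with hs
  have hs2 : s ^ 2 ≤ (4 * h p ^ 2 * M.gsq h p) * M.gsq f1 p := by
    have hcs := Finset.sum_mul_sq_le_sq_mul_sq (Finset.univ)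
      (fun a => M.dl a (fun q => h q ^ 2) p) (fun a => M.dl a f1 p)
    have e : ∑ a, (M.dl a (fun q => h q ^ 2) p) ^ 2 = 4 * h p ^ 2 * M.gsq h p := by
      unfold Hyp.gsq
      rw [Finset.mul_sum]
      refine Finset.sum_congr rfl fun a _ => ?_
      rw [hdphi]; ring
    rw [e] at hcs
    exact hcs
  have hs3 : s ^ 2 ≤ (h p ^ 2 * G p) * (16 * A * f1 p) := by
    have h5 : (4 * h p ^ 2 * M.gsq h p) * M.gsq f1 p ≤ (4 * h p ^ 2 * 4) * (A * f1 p * G p) := by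
      have h6 : M.gsq h p ≤ 4 := hgh2.trans (by
        rw [div_le_iff₀ (by positivity)]; nlinarith)
      have h7 : 4 * h p ^ 2 * M.gsq h p ≤ 4 * h p ^ 2 * 4 := by gcongr
      exact mul_le_mul h7 hg1 (Hyp.gsq_nonneg _ _) (by positivity)
    nlinarith
  have hs4 : -(2 * s) ≤ h p ^ 2 * G p + 16 * A * f1 p := by
    have a0 : 0 ≤ h p ^ 2 * G p := by positivity
    have b0 : 0 ≤ 16 * A * f1 p := by positivity
    have h8 : (2 * s) ^ 2 ≤ (h p ^ 2 * G p + 16 * A * f1 p) ^ 2 := by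
      nlinarith [sq_nonneg (h p ^ 2 * G p - 16 * A * f1 p)]
    have h11 : |2 * s| ≤ h p ^ 2 * G p + 16 * A * f1 p := abs_le_of_sq_le_sq h8 (by positivity)
    linarith [neg_abs_le (2 * s)]
  -- the Laplacian at the maximum
  have hZ : M.Sm (fun q => h q ^ 2 * f1 q + K * f0 q) p :=
    ((hsm.pow 2).mul h1).add (h0.const_mul K)
  have hm := (Hyp.max_Lap hZ hmax).2.2
  rw [Hyp.Lap_add ((hsm.pow 2).mul h1) (h0.const_mul K), Hyp.Lap_mul (hsm.pow 2) h1,
    Hyp.Lap_const_mul _ h0] at hm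
  have hφ1 : h p ^ 2 ≤ 1 := by nlinarith
  have hφ0 : 0 ≤ h p ^ 2 := sq_nonneg _
  have t1 : h p ^ 2 * G p - A * f1 p - A ≤ h p ^ 2 * M.Lap f1 p := by
    have h9 : h p ^ 2 * (G p - A * f1 p - A) ≤ h p ^ 2 * M.Lap f1 p :=
      mul_le_mul_of_nonneg_left hL1 hφ0
    have h10 : h p ^ 2 * (A * f1 p + A) ≤ 1 * (A * f1 p + A) :=
      mul_le_mul_of_nonneg_right hφ1 (by positivity)
    nlinarith
  have t2 : -(4 * n) * f1 p ≤ f1 p * M.Lap (fun q => h q ^ 2) p := by nlinarith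
  have hKpos : 0 ≤ K := by rw [hK]; positivity
  have t3 : K * (f1 p - A) ≤ K * M.Lap f0 p := mul_le_mul_of_nonneg_left hL0 hKpos
  have hm' : h p ^ 2 * M.Lap f1 p + f1 p * M.Lap (fun q => h q ^ 2) p + 2 * s
      + K * M.Lap f0 p ≤ 0 := hm
  have t4 : (17 * A + 4 * n + 1) * f1 p = K * f1 p := by rw [hK]
  nlinarith

theorem pCUT (hLX : tLX) : tCUT := by
  intro n A hA
  set K : ℝ := 17 * A + 4 * n + 1 with hK
  have hKpos : 0 ≤ K := by rw [hK]; positivity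
  refine ⟨A + 3 * (K * A), ?_⟩
  intro S _ M hshr f0 f1 G h0 h1 hf1 hG hf0 hL1 hg1 hL0 q
  have hρ0 : ∀ p, 0 ≤ M.rho p := fun p => by unfold Hyp.rho; positivity
  -- bound with cutoff
  have key : ∀ R : ℝ, 1 ≤ R → M.rho q < R ^ 2 →
      (1 - (1 / R ^ 2) * M.rho q) ^ 2 * f1 q ≤ A + 3 * (K * A) := by
    intro R hR hq
    have hR0 : 0 < R := by linarith
    set Z : S → ℝ := fun p => (1 - (1 / R ^ 2) * M.rho p) ^ 2 * f1 p + K * f0 p with hZ
    have hZs : ∀ p, M.Sm Z p := fun p =>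
      ((((Hyp.Sm.const M 1 p).sub (Hyp.Sm.const_mul _ (Hyp.Sm.rho M p))).pow 2).mul (h1 p)).add
        ((h0 p).const_mul K)
    have hc : ContinuousOn Z {p | M.rho p ≤ R ^ 2} := fun p _ =>
      (hZs p).continuousAt.continuousWithinAt
    obtain ⟨p, hpK, hpm⟩ := (M.isCompact_rho (R ^ 2)).exists_isMaxOn ⟨q, hq.le⟩ hc
    have hpK' : M.rho p ≤ R ^ 2 := hpK
    have hZq : Z q ≤ Z p := hpm (show q ∈ {p | M.rho p ≤ R ^ 2} from hq.le)
    have hb0 : -A ≤ f0 q := (abs_le.1 (hf0 q)).1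
    have hbp : f0 p ≤ A := (abs_le.1 (hf0 p)).2
    have hZp : Z p ≤ A + 2 * (K * A) := by
      rcases lt_or_eq_of_le hpK' with hlt | heq
      · have hopen : {p | M.rho p < R ^ 2} ∈ 𝓝 p :=
          (Hyp.Sm.rho M p).continuousAt.eventually (Iio_mem_nhds hlt)
        have hmax : ∀ᶠ p' in 𝓝 p, Z p' ≤ Z p := by
          filter_upwards [hopen] with p' hp'
          exact hpm (show p' ∈ {p | M.rho p ≤ R ^ 2} from (le_of_lt hp'))
        have hb := CUT_point hLX M hshr hA hK hR (h0 p) (h1 p) (hf1 p) (hG p) (hL1 p) (hg1 p)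
          (hL0 p) hlt hmax
        have e1 : (1 - (1 / R ^ 2) * M.rho p) ^ 2 ≤ 1 := by
          have a1 : (1 / R ^ 2) * M.rho p ≤ 1 := by
            rw [one_div, inv_mul_le_iff₀ (by positivity)]
            linarith
          have a2 : 0 ≤ (1 / R ^ 2) * M.rho p := by
            have := hρ0 p; positivity
          nlinarith
        have e2 : (1 - (1 / R ^ 2) * M.rho p) ^ 2 * f1 p ≤ 1 * f1 p :=
          mul_le_mul_of_nonneg_right e1 (hf1 p)
        have e3 : K * f0 p ≤ K * A := mul_le_mul_of_nonneg_left hbp hKpos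
        simp only [hZ]
        linarith
      · have e1 : (1 - (1 / R ^ 2) * M.rho p) = 0 := by
          rw [heq]; field_simp; ring
        have e3 : K * f0 p ≤ K * A := mul_le_mul_of_nonneg_left hbp hKpos
        have e4 : 0 ≤ K * A := by positivity
        simp only [hZ, e1]
        nlinarith
    have e5 : K * (-A) ≤ K * f0 q := mul_le_mul_of_nonneg_left hb0 hKpos
    simp only [hZ] at hZq hZp
    nlinarith
  -- limit
  have hlim : Tendsto (fun R : ℝ => (1 - (1 / R ^ 2) * M.rho q) ^ 2 * f1 q) atTop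
      (𝓝 ((1 - 0 * M.rho q) ^ 2 * f1 q)) := by
    have h2 : Tendsto (fun R : ℝ => 1 / R ^ 2) atTop (𝓝 0) := by
      have := (tendsto_pow_atTop (α := ℝ) (two_ne_zero)).inv_tendsto_atTop
      refine this.congr fun R => ?_
      simp
    exact (((tendsto_const_nhds.sub (h2.mul_const _)).pow 2).mul_const _)
  have hfin := le_of_tendsto hlim (b := A + 3 * (K * A)) (by
    filter_upwards [eventually_ge_atTop (1 + M.rho q)] with R hR
    refine key R (by linarith [hρ0 q]) ?_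
    nlinarith [hρ0 q])
  simpa using hfin

end

end Pool.Agent.ShG
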