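import Pool.Agent.ShG.Targets

/-! The cylinder case, algebra (helper10). -/

namespace Pool.Agent.ShG

open scoped BigOperators Topology ContDiff
open Set Filter

noncomputable section

/-- the operator of a matrix -/
def CZ1_op {n : ℕ} (A : Matrix (Fin (n + 1)) (Fin (n + 1)) ℝ) : Fs n →L[ℝ] Fs n :=
  Matrix.toEuclideanCLM (𝕜 := ℝ) A

lemma CZ1_op_apply {n : ℕ} (A : Matrix (Fin (n + 1)) (Fin (n + 1)) ℝ) (x : Fs n)
    (a : Fin (n + 1)) : CZ1_op A x a = ∑ b, A a b * x b := rfl

/-- linear algebra: a symmetric idempotent matrix -/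
lemma CZ1_lin {n : ℕ} (A : Matrix (Fin (n + 1)) (Fin (n + 1)) ℝ) (hs : ∀ a b, A a b = A b a)
    (hi : ∀ a c, ∑ b, A a b * A b c = A a c) :
    (∀ x, CZ1_op A (CZ1_op A x) = CZ1_op A x) ∧
    (∀ x y, inner ℝ (CZ1_op A x) y = (inner ℝ x (CZ1_op A y) : ℝ)) ∧
    (Module.finrank ℝ (LinearMap.range (CZ1_op A).toLinearMap) : ℝ) = ∑ a, A a a := by
  have h1 : ∀ x, CZ1_op A (CZ1_op A x) = CZ1_op A x := by
    intro x
    ext a
    rw [CZ1_op_apply, CZ1_op_apply]
    have e : ∀ b, A a b * CZ1_op A x b = ∑ c, A a b * A b c * x c := by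
      intro b
      rw [CZ1_op_apply, Finset.mul_sum]
      exact Finset.sum_congr rfl fun c _ => by ring
    rw [Finset.sum_congr rfl fun b _ => e b, Finset.sum_comm]
    refine Finset.sum_congr rfl fun c _ => ?_
    rw [← Finset.sum_mul, hi]
  refine ⟨h1, ?_, ?_⟩
  · intro x y
    rw [Hyp.inner_sum, Hyp.inner_sum]
    have e1 : ∀ a, CZ1_op A x a * y a = ∑ b, A a b * x b * y a := by
      intro a
      rw [CZ1_op_apply, Finset.sum_mul]
    have e2 : ∀ a, x a * CZ1_op A y a = ∑ b, x a * (A a b * y b) := by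
      intro a
      rw [CZ1_op_apply, Finset.mul_sum]
    rw [Finset.sum_congr rfl fun a _ => e1 a, Finset.sum_congr rfl fun a _ => e2 a,
      Finset.sum_comm]
    refine Finset.sum_congr rfl fun a _ => Finset.sum_congr rfl fun b _ => ?_
    rw [hs b a]
    ring
  · have hid : IsIdempotentElem (CZ1_op A).toLinearMap := by
      ext1 x
      exact h1 x
    have htr := (LinearMap.IsIdempotentElem.isProj_range _ hid).trace
    rw [← htr, LinearMap.trace_eq_sum_inner _ (EuclideanSpace.basisFun (Fin (n + 1)) ℝ)]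
    refine Finset.sum_congr rfl fun a _ => ?_
    rw [EuclideanSpace.basisFun_apply, EuclideanSpace.inner_single_left]
    change (starRingEnd ℝ) 1 * CZ1_op A (EuclideanSpace.single a 1) a = A a a
    rw [CZ1_op_apply, map_one, one_mul, Finset.sum_eq_single a]
    · simp
    · intro b _ hb
      simp [hb]
    · simp

theorem pCZ1 (hTAU : tTAU) (hGH : tGH) : tCZ1 := by
  intro n S _ _ _ M hShr hH hS hG
  have hH0 : ∀ p, M.H p ≠ 0 := by
    intro p h0
    have := hH p
    rw [h0, abs_zero] at this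
    linarith
  -- `∇H = 0`
  have hdH : ∀ p a, M.dl a M.H p = 0 := by
    intro p a
    have h1 := hG p
    unfold Hyp.gsq at h1
    have h2 := (Finset.sum_eq_zero_iff_of_nonneg (fun i _ => sq_nonneg (M.dl i M.H p))).1 h1 a
      (Finset.mem_univ a)
    exact pow_eq_zero_iff (two_ne_zero) |>.1 h2
  have hze : ∀ b, M.ze b = fun _ => (0 : ℝ) := by
    intro b
    funext p
    unfold Hyp.ze
    rw [hdH, zero_div]
  -- `𝒮 = 0`
  have hS3 : ∀ p a b c, M.S3 a b c p = 0 := by
    intro p a b c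
    have h1 := hS p
    unfold Hyp.ssq at h1
    have h2 := (Finset.sum_eq_zero_iff_of_nonneg (fun i _ => Finset.sum_nonneg fun j _ =>
      Finset.sum_nonneg fun k _ => sq_nonneg (M.S3 i j k p))).1 h1 a (Finset.mem_univ a)
    have h3 := (Finset.sum_eq_zero_iff_of_nonneg (fun j _ =>
      Finset.sum_nonneg fun k _ => sq_nonneg (M.S3 a j k p))).1 h2 b (Finset.mem_univ b)
    have h4 := (Finset.sum_eq_zero_iff_of_nonneg (fun k _ => sq_nonneg (M.S3 a b k p))).1 h3 c
      (Finset.mem_univ c)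
    exact pow_eq_zero_iff (two_ne_zero) |>.1 h4
  -- `∑ B_ab X_b = 0`
  have hBX : ∀ p a, ∑ b, M.B a b p * M.X p b = 0 := by
    intro p a
    rw [← hGH n S M hShr a p, hdH]
  have hB2X : ∀ p a, ∑ c, M.B2 a c p * M.X p c = 0 := by
    intro p a
    unfold Hyp.B2
    have e : ∀ c, (∑ d, M.B a d p * M.B d c p) * M.X p c
        = ∑ d, M.B a d p * (M.B d c p * M.X p c) := by
      intro c
      rw [Finset.sum_mul]
      exact Finset.sum_congr rfl fun d _ => by ring
    rw [Finset.sum_congr rfl fun c _ => e c, Finset.sum_comm]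
    refine Finset.sum_eq_zero fun d _ => ?_
    rw [← Finset.mul_sum, hBX, mul_zero]
  -- `B = H B²`
  have hBB : ∀ p a b, M.B a b p = M.H p * M.B2 a b p := by
    intro p a b
    obtain ⟨-, -, -, -, -, -, -, -, h9⟩ := hTAU n S M hShr p (hH0 p)
    have h1 := h9 a b
    rw [hze b, Hyp.dl_const, hB2X, mul_zero, zero_div, add_zero] at h1
    have h2 : ∑ c, M.S3 a b c p * M.X p c = 0 :=
      Finset.sum_eq_zero fun c _ => by rw [hS3, zero_mul]
    rw [h2, zero_add] at h1
    have h3 : M.tau a b p = M.B2 a b p := by linarith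
    unfold Hyp.tau at h3
    have h4 := hH0 p
    rw [← h3]
    field_simp
  -- `T = 0`
  have hT : ∀ p a b c, M.dl a (M.B b c) p = M.N p b * M.B2 a c p + M.N p c * M.B2 a b p := by
    intro p a b c
    have h1 := hS3 p a b c
    unfold Hyp.S3 at h1
    have h2 : M.T3 a b c p - M.ze a p * M.B b c p = 0 := by
      rcases div_eq_zero_iff.1 h1 with h | h
      · exact h
      · exact absurd h (hH0 p)
    rw [hze a] at h2
    unfold Hyp.T3 at h2
    linarith
  -- the matrix
  set A : S → Matrix (Fin (n + 1)) (Fin (n + 1)) ℝ := fun p =>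
    Matrix.of fun a b => M.N p a * M.N p b + M.H p * M.B a b p with hA
  have hAe : ∀ p a b, A p a b = M.N p a * M.N p b + M.H p * M.B a b p := fun p a b => rfl
  have hAc : ∀ p q a b, A p a b = A q a b := by
    intro p q a b
    have hsm : ∀ r, M.Sm (fun r => M.Nc a r * M.Nc b r + M.H r * M.B a b r) r := fun r =>
      ((Hyp.Sm.Nc M a r).mul (Hyp.Sm.Nc M b r)).add ((Hyp.Sm.H M r).mul (Hyp.Sm.B M a b r))
    refine Hyp.const_of_dl_zero (M := M)
      (Z := fun r => M.Nc a r * M.Nc b r + M.H r * M.B a b r) hsm ?_ p q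
    intro r c
    rw [Hyp.dl_add ((Hyp.Sm.Nc M a r).mul (Hyp.Sm.Nc M b r))
      ((Hyp.Sm.H M r).mul (Hyp.Sm.B M a b r)), Hyp.dl_mul (Hyp.Sm.Nc M a r) (Hyp.Sm.Nc M b r),
      Hyp.dl_mul (Hyp.Sm.H M r) (Hyp.Sm.B M a b r), Hyp.dl_Nc, Hyp.dl_Nc, hdH, hT, hBB r c b,
      hBB r c a]
    unfold Hyp.Nc
    ring
  have hsym : ∀ p a b, A p a b = A p b a := by
    intro p a b
    rw [hAe, hAe, Hyp.B_symm]
    ring
  have hidem : ∀ p a c, ∑ b, A p a b * A p b c = A p a c := by
    intro p a c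
    have e : ∀ b, A p a b * A p b c = (M.N p a * M.N p c) * (M.N p b * M.N p b)
        + (M.H p * M.N p a) * (M.N p b * M.B b c p) + (M.H p * M.N p c) * (M.B a b p * M.N p b)
        + M.H p ^ 2 * (M.B a b p * M.B b c p) := by
      intro b
      rw [hAe, hAe]
      ring
    rw [Finset.sum_congr rfl fun b _ => e b, Finset.sum_add_distrib, Finset.sum_add_distrib,
      Finset.sum_add_distrib, ← Finset.mul_sum, ← Finset.mul_sum, ← Finset.mul_sum,
      ← Finset.mul_sum, M.sum_NN, Hyp.B_N_left, Hyp.B_N_right, hAe]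
    have h2 : ∑ b, M.B a b p * M.B b c p = M.B2 a c p := rfl
    rw [h2, hBB p a c]
    ring
  have htr : ∀ p, ∑ a, A p a a = 1 + M.H p ^ 2 := by
    intro p
    have e : ∀ a, A p a a = M.N p a * M.N p a + M.H p * M.B a a p := fun a => hAe p a a
    rw [Finset.sum_congr rfl fun a _ => e a, Finset.sum_add_distrib, M.sum_NN, ← Finset.mul_sum]
    have h2 : ∑ a, M.B a a p = M.H p := rfl
    rw [h2]
    ring
  obtain ⟨p₀⟩ : Nonempty S := ConnectedSpace.toNonempty
  obtain ⟨l1, l2, l3⟩ := CZ1_lin (A p₀) (hsym p₀) (hidem p₀)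
  set r := Module.finrank ℝ (LinearMap.range (CZ1_op (A p₀)).toLinearMap) with hr
  rw [htr] at l3
  have hH2 : 0 < M.H p₀ ^ 2 := by
    have := hH0 p₀
    positivity
  have hr2 : 2 ≤ r := by
    have : (1 : ℝ) < r := by rw [l3]; linarith
    exact_mod_cast this
  have hrn : r ≤ n + 1 := by
    have h1 := Submodule.finrank_le (LinearMap.range (CZ1_op (A p₀)).toLinearMap)
    have h2 : Module.finrank ℝ (Fs n) = n + 1 := by simp
    rw [h2] at h1
    exact h1
  refine ⟨r - 1, CZ1_op (A p₀), by omega, by omega, l1, l2, by omega, ?_⟩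
  intro p
  have happ : ∀ x : Fs n, ∀ a, CZ1_op (A p₀) x a = ∑ b, A p a b * x b := by
    intro x a
    rw [CZ1_op_apply]
    exact Finset.sum_congr rfl fun b _ => by rw [hAc p₀ p]
  refine ⟨?_, ?_, ?_⟩
  · ext a
    rw [happ]
    have e : ∀ b, A p a b * M.N p b = M.N p a * (M.N p b * M.N p b)
        + M.H p * (M.B a b p * M.N p b) := by
      intro b
      rw [hAe]
      ring
    rw [Finset.sum_congr rfl fun b _ => e b, Finset.sum_add_distrib, ← Finset.mul_sum,
      ← Finset.mul_sum, M.sum_NN, Hyp.B_N_right]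
    ring
  · ext a
    rw [happ]
    have e : ∀ b, A p a b * M.X p b = M.N p a * (M.X p b * M.N p b)
        + M.H p * (M.B a b p * M.X p b) := by
      intro b
      rw [hAe]
      ring
    have hXN : ∑ b, M.X p b * M.N p b = - M.H p := by
      rw [hShr p, Hyp.inner_sum]
      ring
    rw [Finset.sum_congr rfl fun b _ => e b, Finset.sum_add_distrib, ← Finset.mul_sum,
      ← Finset.mul_sum, hXN, hBX, PiLp.smul_apply, smul_eq_mul]
    ring
  · have h1 : ∑ a, A p a a = ∑ a, A p₀ a a := Finset.sum_congr rfl fun a _ => hAc p p₀ a a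
    rw [htr, htr] at h1
    have h2 : ((r - 1 : ℕ) : ℝ) = (r : ℝ) - 1 := by
      rw [Nat.cast_sub (by omega), Nat.cast_one]
    rw [h2, l3]
    linarith

end

end Pool.Agent.ShG
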