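import Pool.Agent.ShG.Targets

/-!
# Target CZ2: from the algebra of the cylinder case to the image (MP_61ae63_gt)
-/

namespace Pool.Agent.ShG

open scoped BigOperators Topology ContDiff
open Set Filter

noncomputable section

/-- adapted isometry for an orthogonal projection `P` of rank `m` -/
lemma CZ2_frame {n m : ℕ} (P : Fs n →L[ℝ] Fs n)
    (hPP : ∀ x, P (P x) = P x) (hsym : ∀ x y, inner ℝ (P x) y = (inner ℝ x (P y) : ℝ))
    (hrk : Module.finrank ℝ (LinearMap.range P.toLinearMap) = m) :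
    ∃ L : Fs n ≃ₗᵢ[ℝ] Fs n, ∀ x : Fs n,
      ‖P (L x)‖ ^ 2 = ∑ i : Fin (n + 1), (if (i : ℕ) < m then x i ^ 2 else 0) := by
  have hm : m ≤ n + 1 := by
    rw [← hrk]
    have := Submodule.finrank_le (LinearMap.range P.toLinearMap)
    simpa using this
  set V : Submodule ℝ (Fs n) := LinearMap.range P.toLinearMap with hV
  have hPV : ∀ v ∈ V, P v = v := by
    rintro v ⟨x, rfl⟩
    exact hPP x
  let e : OrthonormalBasis (Fin m) ℝ V := (stdOrthonormalBasis ℝ V).reindex (finCongr hrk)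
  let v : Fin (n + 1) → Fs n := fun i => if h : (i : ℕ) < m then (e ⟨i, h⟩ : Fs n) else 0
  let s : Set (Fin (n + 1)) := {i | (i : ℕ) < m}
  have hv : Orthonormal ℝ (s.domRestrict v) := by
    have h1 : Orthonormal ℝ (fun i : Fin m => (e i : Fs n)) :=
      (V.subtypeₗᵢ.orthonormal_comp_iff).2 e.orthonormal
    have h2 : s.domRestrict v =
        (fun i : Fin m => (e i : Fs n)) ∘ (fun i : s => (⟨i.1, i.2⟩ : Fin m)) := by
      funext i
      have hi : ((i : Fin (n + 1)) : ℕ) < m := i.2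
      simp only [Set.domRestrict_apply, Function.comp, v]
      rw [dif_pos hi]
    rw [h2]
    apply h1.comp
    intro i j hij
    ext
    simpa using hij
  obtain ⟨b, hb⟩ := hv.exists_orthonormalBasis_extension_of_card_eq (by simp)
  have hb1 : ∀ i : Fin (n + 1), (i : ℕ) < m → P (b i) = b i := by
    intro i hi
    apply hPV
    rw [hb i hi]
    simp only [v]
    rw [dif_pos hi]
    exact (e ⟨i, hi⟩).2
  have hb2 : ∀ i : Fin (n + 1), ¬ (i : ℕ) < m → P (b i) = 0 := by
    intro i hi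
    have h1 : P (b i) ∈ V := ⟨b i, rfl⟩
    have h2 : (⟨P (b i), h1⟩ : V) = 0 := by
      rw [← LinearIsometryEquiv.map_eq_zero_iff e.repr]
      ext j
      rw [e.repr_apply_apply]
      have hj : (j : ℕ) < n + 1 := lt_of_lt_of_le j.2 hm
      have h3 : (e j : Fs n) = b ⟨j, hj⟩ := by
        rw [hb ⟨j, hj⟩ (show (j : ℕ) < m from j.2)]
        simp only [v]
        rw [dif_pos j.2]
      have h4 : inner ℝ (e j : Fs n) (P (b i)) = (0 : ℝ) := by
        rw [h3, ← hsym, hb1 _ (show (j : ℕ) < m from j.2)]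
        apply b.orthonormal.2
        intro h5
        apply hi
        rw [← h5]
        exact j.2
      simpa using h4
    simpa using congrArg Subtype.val h2
  refine ⟨b.repr.symm, fun x => ?_⟩
  have h1 : P (b.repr.symm x) =
      b.repr.symm (WithLp.toLp 2 fun i : Fin (n + 1) => if (i : ℕ) < m then x i else 0) := by
    rw [← b.sum_repr_symm x, ← b.sum_repr_symm, map_sum]
    apply Finset.sum_congr rfl
    intro i _
    rw [map_smul]
    by_cases hi : (i : ℕ) < m
    · simp [hi, hb1 i hi]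
    · simp [hi, hb2 i hi]
  rw [h1, LinearIsometryEquiv.norm_map, EuclideanSpace.norm_sq_eq]
  apply Finset.sum_congr rfl
  intro i _
  by_cases hi : (i : ℕ) < m
  · simp [hi]
  · simp [hi]

/-- the cylinder over the sphere is preconnected -/
lemma CZ2_conn {n k : ℕ} (P : Fs n →L[ℝ] Fs n) (hk : 1 ≤ k)
    (hPP : ∀ x, P (P x) = P x)
    (hrk : Module.finrank ℝ (LinearMap.range P.toLinearMap) = k + 1) :
    IsPreconnected {y : Fs n | ‖P y‖ ^ 2 = k} := by
  set V : Submodule ℝ (Fs n) := LinearMap.range P.toLinearMap with hV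
  have hPV : ∀ v ∈ V, P v = v := by
    rintro v ⟨x, rfl⟩
    exact hPP x
  have h1 : 1 < Module.rank ℝ V := by
    rw [← Module.finrank_eq_rank, hrk]
    exact_mod_cast Nat.lt_succ_of_le hk
  have h2 : IsPreconnected (Metric.sphere (0 : V) (Real.sqrt k)) :=
    isPreconnected_sphere h1 0 _
  have h3 := (h2.prod (isPreconnected_univ (α := Fs n))).image
    (fun z : V × Fs n => (z.1 : Fs n) + (z.2 - P z.2)) (by fun_prop)
  convert h3 using 1
  ext y
  simp only [mem_ofPred_eq, mem_image, mem_prod, mem_univ, and_true, Prod.exists]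
  constructor
  · intro hy
    refine ⟨⟨P y, ⟨y, rfl⟩⟩, y, ?_, ?_⟩
    · rw [mem_sphere_zero_iff_norm]
      rw [← Real.sqrt_sq (norm_nonneg _)]
      congr 1
    · simp
  · rintro ⟨v, z, hv, rfl⟩
    rw [mem_sphere_zero_iff_norm] at hv
    rw [map_add, map_sub, hPP, sub_self, add_zero, hPV v v.2]
    have : ‖(v : Fs n)‖ = Real.sqrt k := hv
    rw [this, Real.sq_sqrt (Nat.cast_nonneg k)]

theorem pCZ2 : tCZ2 := by
  intro n k S _ _ _ M P hk1 hkn hPP hsym hrk hdat
  obtain ⟨L, hL⟩ := CZ2_frame P hPP hsym hrk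
  refine ⟨L, ?_⟩
  set C : Set (Fs n) := {y : Fs n | ‖P y‖ ^ 2 = k} with hC
  have hLC : L '' {x | ∑ i : Fin (n + 1), (if (i : ℕ) < k + 1 then x i ^ 2 else 0) = (k : ℝ)} = C := by
    ext y
    simp only [mem_image, mem_ofPred_eq, hC]
    constructor
    · rintro ⟨x, hx, rfl⟩
      rw [hL, hx]
    · intro hy
      refine ⟨L.symm y, ?_, by simp⟩
      rw [← hL]; simpa using hy
  rw [hLC]
  have hsub : range M.X ⊆ C := by
    rintro _ ⟨p, rfl⟩
    obtain ⟨h1, h2, h3⟩ := hdat p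
    rw [hC, mem_ofPred_eq, h2, norm_smul, M.unit, mul_one, norm_neg, Real.norm_eq_abs, sq_abs, h3]
  have hloc : ∀ p, ∃ W : Set (Fs n), IsOpen W ∧ M.X p ∈ W ∧ C ∩ W ⊆ range M.X := by
    intro p
    obtain ⟨h1, h2, h3⟩ := hdat p
    obtain ⟨U, ι, g, σ, hs⟩ := M.sec p
    have hg0 : g 0 = 0 := hs.g_zero (M.unit p)
    have hgc : ContinuousAt g 0 := (hs.gdiff hs.mem0).continuousAt
    have hH1 : 1 ≤ |M.H p| := by
      have h4 : (1 : ℝ) ≤ M.H p ^ 2 := by rw [h3]; exact_mod_cast hk1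
      rw [← sq_abs] at h4
      nlinarith [abs_nonneg (M.H p)]
    have hNN : inner ℝ (M.N p) (M.N p) = (1 : ℝ) := by
      rw [real_inner_self_eq_norm_sq, M.unit]; norm_num
    have hperp : ∀ u, inner ℝ (P (ι u)) (M.N p) = (0 : ℝ) := by
      intro u; rw [hsym, h1, hs.perp]
    -- the formula for `‖P (X p + ι u + s N)‖²`
    have hform : ∀ (u : Es n) (t : ℝ), ‖P (M.X p + ι u + t • M.N p)‖ ^ 2
        = (t - M.H p) ^ 2 + ‖P (ι u)‖ ^ 2 := by
      intro u t
      have h5 : P (M.X p + ι u + t • M.N p) = (t - M.H p) • M.N p + P (ι u) := by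
        rw [map_add, map_add, map_smul, h1, h2]; module
      rw [h5, @norm_add_sq_real, norm_smul, M.unit, inner_smul_left, real_inner_comm, hperp,
        Real.norm_eq_abs, mul_one, sq_abs]
      simp
    have hW1 : ∀ᶠ u in 𝓝 (0 : Es n), u ∈ U ∧ |g u| < 1 / 2 := by
      have h6 : ∀ᶠ u in 𝓝 (0 : Es n), |g u| < 1 / 2 := by
        have h7 : Tendsto (fun u => |g u|) (𝓝 0) (𝓝 |g 0|) := hgc.abs
        rw [hg0, abs_zero] at h7
        exact h7.eventually (gt_mem_nhds (by norm_num))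
      have h7 : ∀ᶠ u in 𝓝 (0 : Es n), u ∈ U := hs.isOpen.mem_nhds hs.mem0
      exact h7.and h6
    have hcont1 : Tendsto (fun x => prj ι (x - M.X p)) (𝓝 (M.X p)) (𝓝 0) := by
      have h8 : Continuous (fun x => prj ι (x - M.X p)) := by fun_prop
      have h9 := h8.tendsto (M.X p)
      simpa using h9
    have hcont2 : Tendsto (fun x => |(inner ℝ (x - M.X p) (M.N p) : ℝ)|) (𝓝 (M.X p)) (𝓝 0) := by
      have h8 : Continuous (fun x => |(inner ℝ (x - M.X p) (M.N p) : ℝ)|) := by fun_prop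
      have h9 := h8.tendsto (M.X p)
      simpa using h9
    have hW : ∀ᶠ x in 𝓝 (M.X p), (prj ι (x - M.X p) ∈ U ∧ |g (prj ι (x - M.X p))| < 1 / 2) ∧
        |(inner ℝ (x - M.X p) (M.N p) : ℝ)| < 1 / 2 :=
      (hcont1.eventually hW1).and (hcont2.eventually (gt_mem_nhds (by norm_num)))
    obtain ⟨W, hWsub, hWo, hWp⟩ := eventually_nhds_iff.1 hW
    refine ⟨W, hWo, hWp, ?_⟩
    rintro x ⟨hxC, hxW⟩
    obtain ⟨⟨hu, hgu⟩, ht⟩ := hWsub x hxW
    set u := prj ι (x - M.X p) with hudef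
    set t : ℝ := inner ℝ (x - M.X p) (M.N p) with htdef
    have hx : x = M.X p + ι u + t • M.N p := by
      have h10 := hs.split (M.unit p) (x - M.X p)
      rw [← hudef, ← htdef] at h10
      rw [add_assoc, ← h10]; abel
    have e1 : (t - M.H p) ^ 2 + ‖P (ι u)‖ ^ 2 = k := by
      rw [← hform, ← hx]; exact hxC
    have e2 : (g u - M.H p) ^ 2 + ‖P (ι u)‖ ^ 2 = k := by
      rw [← hform, ← hs.graph u hu]; exact hsub ⟨_, rfl⟩
    have e3 : (t - g u) * (t + g u - 2 * M.H p) = 0 := by nlinarith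
    have e4 : t = g u := by
      rcases mul_eq_zero.1 e3 with h | h
      · linarith
      · exfalso
        have h11 : M.H p = (t + g u) / 2 := by linarith
        have h12 : |M.H p| < 1 := by
          rw [h11, abs_lt]
          rw [abs_lt] at ht hgu
          constructor <;> linarith [ht.1, ht.2, hgu.1, hgu.2]
        linarith
    refine ⟨σ u, ?_⟩
    rw [hs.graph u hu, hx, e4]
  -- conclusion by connectedness
  apply Subset.antisymm hsub
  choose W hWo hWp hWs using hloc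
  have hcl : IsClosed (range M.X) := M.proper.isClosedMap.isClosed_range
  have hconn : IsPreconnected C := CZ2_conn P hk1 hPP hrk
  by_contra hne
  rw [not_subset] at hne
  obtain ⟨y, hyC, hyR⟩ := hne
  obtain ⟨p0⟩ : Nonempty S := inferInstance
  have h1 := hconn (⋃ p, W p) (range M.X)ᶜ (isOpen_iUnion hWo) hcl.isOpen_compl ?_ ?_ ?_
  · obtain ⟨z, hzC, hzW, hzR⟩ := h1
    obtain ⟨p, hzp⟩ := mem_iUnion.1 hzW
    exact hzR (hWs p ⟨hzC, hzp⟩)
  · intro z hz
    by_cases hzR : z ∈ range M.X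
    · left
      obtain ⟨p, rfl⟩ := hzR
      exact mem_iUnion.2 ⟨p, hWp p⟩
    · right; exact hzR
  · exact ⟨M.X p0, hsub ⟨p0, rfl⟩, mem_iUnion.2 ⟨p0, hWp p0⟩⟩
  · exact ⟨y, hyC, hyR⟩

end

end Pool.Agent.ShG
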