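import Pool.Agent.ShG.Targets

/-! ShG-DDH: bounds for the derivatives of `H` up to order 3. -/

namespace Pool.Agent.ShG

open scoped BigOperators Topology ContDiff
open Set Filter

lemma DDH_abs_of_sq {x C : ℝ} (h : x ^ 2 ≤ C) : |x| ≤ C + 1 := by
  rw [abs_le]
  constructor <;> nlinarith [sq_nonneg (x + 1), sq_nonneg (x - 1)]

lemma DDH_sum {n : ℕ} (f : Fin (n + 1) → ℝ) (m : ℝ) (h : ∀ d, |f d| ≤ m) :
    |∑ d, f d| ≤ (n + 1) * m := by
  refine (Finset.abs_sum_le_sum_abs _ _).trans ?_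
  refine (Finset.sum_le_sum fun d _ => h d).trans ?_
  simp

lemma DDH_B {n : ℕ} {S : Type} [TopologicalSpace S] (M : Hyp n S) (p : S) (h : M.w p ≤ 2)
    (a b : Fin (n + 1)) : |M.B a b p| ≤ 2 := by
  have h1 : (M.B a b p) ^ 2 ≤ M.w p := by
    have h2 : (M.B a b p) ^ 2 ≤ ∑ b, (M.B a b p) ^ 2 :=
      Finset.single_le_sum (f := fun b => (M.B a b p) ^ 2) (fun _ _ => sq_nonneg _)
        (Finset.mem_univ b)
    refine h2.trans ?_
    exact Finset.single_le_sum (f := fun a => ∑ b, (M.B a b p) ^ 2)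
      (fun _ _ => Finset.sum_nonneg fun _ _ => sq_nonneg _) (Finset.mem_univ a)
  rw [abs_le]
  constructor <;> nlinarith

lemma DDH_e1 {n : ℕ} {S : Type} [TopologicalSpace S] (M : Hyp n S) (p : S)
    (a b c : Fin (n + 1)) : (M.dl a (M.B b c) p) ^ 2 ≤ M.e1 p := by
  have h1 : (M.dl a (M.B b c) p) ^ 2 ≤ ∑ c, (M.dl a (M.B b c) p) ^ 2 :=
    Finset.single_le_sum (f := fun c => (M.dl a (M.B b c) p) ^ 2) (fun _ _ => sq_nonneg _)
      (Finset.mem_univ c)
  refine h1.trans ?_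
  have h2 : ∑ c, (M.dl a (M.B b c) p) ^ 2 ≤ ∑ b, ∑ c, (M.dl a (M.B b c) p) ^ 2 :=
    Finset.single_le_sum (f := fun b => ∑ c, (M.dl a (M.B b c) p) ^ 2)
      (fun _ _ => Finset.sum_nonneg fun _ _ => sq_nonneg _) (Finset.mem_univ b)
  refine h2.trans ?_
  exact Finset.single_le_sum (f := fun a => ∑ b, ∑ c, (M.dl a (M.B b c) p) ^ 2)
    (fun _ _ => Finset.sum_nonneg fun _ _ => Finset.sum_nonneg fun _ _ => sq_nonneg _)
    (Finset.mem_univ a)

lemma DDH_e2 {n : ℕ} {S : Type} [TopologicalSpace S] (M : Hyp n S) (p : S)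
    (a b c d : Fin (n + 1)) : (M.dl a (M.dl b (M.B c d)) p) ^ 2 ≤ M.e2 p := by
  have h1 : (M.dl a (M.dl b (M.B c d)) p) ^ 2 ≤ ∑ d, (M.dl a (M.dl b (M.B c d)) p) ^ 2 :=
    Finset.single_le_sum (f := fun d => (M.dl a (M.dl b (M.B c d)) p) ^ 2)
      (fun _ _ => sq_nonneg _) (Finset.mem_univ d)
  refine h1.trans ?_
  have h2 : ∑ d, (M.dl a (M.dl b (M.B c d)) p) ^ 2
      ≤ ∑ c, ∑ d, (M.dl a (M.dl b (M.B c d)) p) ^ 2 :=
    Finset.single_le_sum (f := fun c => ∑ d, (M.dl a (M.dl b (M.B c d)) p) ^ 2)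
      (fun _ _ => Finset.sum_nonneg fun _ _ => sq_nonneg _) (Finset.mem_univ c)
  refine h2.trans ?_
  have h3 : ∑ c, ∑ d, (M.dl a (M.dl b (M.B c d)) p) ^ 2
      ≤ ∑ b, ∑ c, ∑ d, (M.dl a (M.dl b (M.B c d)) p) ^ 2 :=
    Finset.single_le_sum (f := fun b => ∑ c, ∑ d, (M.dl a (M.dl b (M.B c d)) p) ^ 2)
      (fun _ _ => Finset.sum_nonneg fun _ _ => Finset.sum_nonneg fun _ _ => sq_nonneg _)
      (Finset.mem_univ b)
  refine h3.trans ?_
  exact Finset.single_le_sum (f := fun a => ∑ b, ∑ c, ∑ d, (M.dl a (M.dl b (M.B c d)) p) ^ 2)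
    (fun _ _ => Finset.sum_nonneg fun _ _ => Finset.sum_nonneg fun _ _ =>
      Finset.sum_nonneg fun _ _ => sq_nonneg _) (Finset.mem_univ a)

lemma DDH_coord {n : ℕ} (x : Fs n) (a : Fin (n + 1)) : |x a| ≤ ‖x‖ := by
  have := PiLp.norm_apply_le x a
  simpa using this

/-- second derivative of `H` as a function -/
lemma DDH_second (hGH : tGH) {n : ℕ} {S : Type} [TopologicalSpace S] (M : Hyp n S)
    (hS : M.Shr) (b c : Fin (n + 1)) :
    M.dl b (M.dl c M.H) = fun q => M.B c b q + ∑ d, M.Xc d q * M.dl b (M.B c d) q := by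
  have e1 : M.dl c M.H = fun q => ∑ d, M.B c d q * M.Xc d q := by
    funext q
    exact hGH n S M hS c q
  funext q
  rw [e1, Hyp.dl_sum (fun d _ => (Hyp.Sm.B M c d q).mul (Hyp.Sm.Xc M d q))]
  have e2 : ∀ d, M.dl b (fun q => M.B c d q * M.Xc d q) q
      = M.B c d q * ((if b = d then 1 else 0) - M.N q b * M.N q d)
        + M.Xc d q * M.dl b (M.B c d) q := by
    intro d
    rw [Hyp.dl_mul (Hyp.Sm.B M c d q) (Hyp.Sm.Xc M d q), Hyp.dl_X]
  rw [Finset.sum_congr rfl fun d _ => e2 d, Finset.sum_add_distrib]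
  congr 1
  have e3 : ∀ d, M.B c d q * ((if b = d then (1:ℝ) else 0) - M.N q b * M.N q d)
      = (if b = d then M.B c d q else 0) - M.N q b * (M.B c d q * M.N q d) := by
    intro d
    split_ifs <;> ring
  rw [Finset.sum_congr rfl fun d _ => e3 d, Finset.sum_sub_distrib, ← Finset.mul_sum,
    Hyp.B_N_right]
  simp

theorem pDDH (hBER : tBER) (hGH : tGH) : tDDH := by
  intro n R hR
  obtain ⟨C, hC0, hC⟩ := hBER n
  refine ⟨(n + 1) * (2 * R) + (2 + (n + 1) * (R * (C + 1)))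
    + ((C + 1) + (n + 1) * (R * (C + 1) + (C + 1) * 2)), by positivity, ?_⟩
  intro S _ _ M hS hw p hp
  have hB : ∀ q a b, |M.B a b q| ≤ 2 := fun q a b => DDH_B M q (hw q) a b
  have hX : ∀ d, |M.Xc d p| ≤ R := fun d => (DDH_coord (M.X p) d).trans hp
  have h1 : ∀ q a b c, |M.dl a (M.B b c) q| ≤ C + 1 := fun q a b c =>
    DDH_abs_of_sq ((DDH_e1 M q a b c).trans (hC S M hS hw q).1)
  have h2 : ∀ q a b c d, |M.dl a (M.dl b (M.B c d)) q| ≤ C + 1 := fun q a b c d =>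
    DDH_abs_of_sq ((DDH_e2 M q a b c d).trans (hC S M hS hw q).2)
  have hN : ∀ d, |M.N p d| ≤ 1 := fun d => (DDH_coord (M.N p) d).trans (M.unit p).le
  have hXd : ∀ a d, |M.dl a (M.Xc d) p| ≤ 2 := by
    intro a d
    rw [Hyp.dl_X]
    have h3 : |M.N p a * M.N p d| ≤ 1 := by
      rw [abs_mul]
      exact mul_le_one₀ (hN a) (abs_nonneg _) (hN d)
    have h4 : |(if a = d then (1:ℝ) else 0)| ≤ 1 := by split_ifs <;> simp
    have := abs_sub (if a = d then (1:ℝ) else 0) (M.N p a * M.N p d)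
    linarith
  have hn : (0:ℝ) ≤ (n:ℝ) + 1 := by positivity
  refine ⟨?_, ?_, ?_⟩
  · intro a
    have e := hGH n S M hS a p
    rw [e]
    have h3 : |∑ b, M.B a b p * M.X p b| ≤ (n + 1) * (2 * R) := by
      refine DDH_sum _ _ fun b => ?_
      rw [abs_mul]
      exact mul_le_mul (hB p a b) (hX b) (abs_nonneg _) (by norm_num)
    have : 0 ≤ (2 + ((n:ℝ) + 1) * (R * (C + 1)))
      + ((C + 1) + (n + 1) * (R * (C + 1) + (C + 1) * 2)) := by positivity
    linarith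
  · intro a b
    rw [DDH_second hGH M hS a b]
    have h3 : |∑ d, M.Xc d p * M.dl a (M.B b d) p| ≤ (n + 1) * (R * (C + 1)) := by
      refine DDH_sum _ _ fun d => ?_
      rw [abs_mul]
      exact mul_le_mul (hX d) (h1 p a b d) (abs_nonneg _) hR
    have h4 := abs_add_le (M.B b a p) (∑ d, M.Xc d p * M.dl a (M.B b d) p)
    have h5 := hB p b a
    have : 0 ≤ ((n:ℝ) + 1) * (2 * R)
      + ((C + 1) + (n + 1) * (R * (C + 1) + (C + 1) * 2)) := by positivity
    linarith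
  · intro a b c
    rw [DDH_second hGH M hS b c]
    have e : M.dl a (fun q => M.B c b q + ∑ d, M.Xc d q * M.dl b (M.B c d) q) p
        = M.dl a (M.B c b) p + ∑ d, (M.Xc d p * M.dl a (M.dl b (M.B c d)) p
          + M.dl b (M.B c d) p * M.dl a (M.Xc d) p) := by
      rw [Hyp.dl_add (Hyp.Sm.B M c b p)
        (Hyp.Sm.sum fun d _ => (Hyp.Sm.Xc M d p).mul ((Hyp.Sm.B M c d p).dl b)),
        Hyp.dl_sum (fun d _ => (Hyp.Sm.Xc M d p).mul ((Hyp.Sm.B M c d p).dl b))]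
      congr 1
      refine Finset.sum_congr rfl fun d _ => ?_
      rw [Hyp.dl_mul (Hyp.Sm.Xc M d p) ((Hyp.Sm.B M c d p).dl b)]
    rw [e]
    have h3 : |∑ d, (M.Xc d p * M.dl a (M.dl b (M.B c d)) p
          + M.dl b (M.B c d) p * M.dl a (M.Xc d) p)|
        ≤ (n + 1) * (R * (C + 1) + (C + 1) * 2) := by
      refine DDH_sum _ _ fun d => ?_
      refine (abs_add_le _ _).trans (add_le_add ?_ ?_)
      · rw [abs_mul]
        exact mul_le_mul (hX d) (h2 p a b c d) (abs_nonneg _) hR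
      · rw [abs_mul]
        exact mul_le_mul (h1 p b c d) (hXd a d) (abs_nonneg _) (by linarith)
    have h4 := abs_add_le (M.dl a (M.B c b) p) (∑ d, (M.Xc d p * M.dl a (M.dl b (M.B c d)) p
          + M.dl b (M.B c d) p * M.dl a (M.Xc d) p))
    have h5 := h1 p a c b
    have : 0 ≤ ((n:ℝ) + 1) * (2 * R) + (2 + (n + 1) * (R * (C + 1))) := by positivity
    linarith

end Pool.Agent.ShG
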