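import Pool.Agent.ShG.Targets

/-!
# DIV: the divergence of the second fundamental form
-/

set_option autoImplicit false

namespace Pool.Agent.ShG

open scoped BigOperators Topology ContDiff
open Set Filter

variable {n : ℕ} {S : Type} [TopologicalSpace S]

/-- `∑_a (B²)_aa = w` -/
lemma DIV_trace (M : Hyp n S) (p : S) : ∑ a, M.B2 a a p = M.w p := by
  refine Finset.sum_congr rfl fun a _ => Finset.sum_congr rfl fun c _ => ?_
  rw [Hyp.B_symm c a p]
  ring

/-- `∑_a N_a (B²)_ba = 0` -/
lemma DIV_normal (M : Hyp n S) (b : Fin (n + 1)) (p : S) : ∑ a, M.N p a * M.B2 b a p = 0 := by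
  have h1 : ∀ a, M.N p a * M.B2 b a p = ∑ c, M.B b c p * (M.B c a p * M.N p a) := by
    intro a
    rw [Hyp.B2, Finset.mul_sum]
    exact Finset.sum_congr rfl fun c _ => by ring
  simp_rw [h1]
  rw [Finset.sum_comm]
  simp_rw [← Finset.mul_sum, Hyp.B_N_right, mul_zero, Finset.sum_const_zero]

theorem pDIV (hCOD : tCOD) : tDIV := by
  intro n S _ M b p
  have h1 : ∀ a, M.dl a (M.B a b) p
      = M.dl b (M.B a a) p + (M.N p b * M.B2 a a p - M.N p a * M.B2 b a p) := by
    intro a
    have h2 : M.B a b = M.B b a := funext fun q => Hyp.B_symm a b q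
    rw [h2]
    linarith [hCOD n S M a b a p]
  simp_rw [h1]
  rw [Finset.sum_add_distrib, Finset.sum_sub_distrib, DIV_normal, ← Finset.mul_sum, DIV_trace]
  have h3 : M.dl b M.H p = ∑ a, M.dl b (M.B a a) p :=
    Hyp.dl_sum (fun a _ => Hyp.Sm.B M a a p) b
  rw [h3]
  ring

end Pool.Agent.ShG
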