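import Pool.Agent.ShG.Targets

/-! Target `tEXT` of the project ShG (helper92). -/

namespace Pool.Agent.ShG

open scoped BigOperators Topology ContDiff
open Set Filter Hyp

noncomputable section

theorem pEXT (hLOWE : tLOWE) (hNEG : tNEG) (hLOGH : tLOGH) (hINW : tINW) : tEXT := by
  intro n hn
  have hn1 : 1 ≤ n := by omega
  have hnR : (1 : ℝ) ≤ n := by exact_mod_cast hn1
  have hn0 : (0 : ℝ) < n := by linarith
  obtain ⟨ρN, hρN1, hN⟩ := hNEG n hn
  obtain ⟨D, hD, hL⟩ := hLOGH n hn1
  set D' : ℝ := max D (8 * n) with hD'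
  have hDD' : D ≤ D' := le_max_left _ _
  have h8 : 8 * (n : ℝ) ≤ D' := le_max_right _ _
  have hD'0 : 0 < D' := lt_of_lt_of_le hD hDD'
  obtain ⟨ρI, hρI1, hI⟩ := hINW n (D' + 1) (1 / (200 * n)) (by linarith) (by positivity)
  refine ⟨max (2 * n) (max ρN ρI), le_max_left _ _, ?_⟩
  intro S _ _ M c hStd hlow r hr hDich q hq
  have hr1 : 2 * (n : ℝ) ≤ r := (le_max_left _ _).trans hr
  have hr2 : ρN ≤ r := ((le_max_left _ _).trans (le_max_right _ _)).trans hr
  have hr3 : ρI ≤ r := ((le_max_right _ _).trans (le_max_right _ _)).trans hr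
  by_cases hqr : M.rho q ≤ r
  · exact hDich q hqr
  · push Not at hqr
    obtain ⟨q', h1, h2, h3⟩ := hI S M c hStd q (by linarith)
    have hq' : M.rho q' ≤ r - D' := by linarith
    have hη : 1 / (200 * (n : ℝ)) ≤ 1 / 200 := by
      apply one_div_le_one_div_of_le (by norm_num)
      nlinarith
    rcases hDich q' (by linarith) with h4 | h4
    · left
      have h5 : 21 / 25 ≤ |M.H q'| :=
        hL S M c r hStd (by linarith) hr1 hDich hlow (hN S M c r hStd hr2 hDich) q'
          (by linarith) h4
      have h6 : |M.H q'| - |M.H q| ≤ |M.H q' - M.H q| := abs_sub_abs_le_abs_sub _ _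
      linarith
    · right
      have h5 := hLOWE n hn1 S M c r hStd hDich q' (by linarith) h4
      have h6 : Real.exp ((M.rho q' - r) / (4 * n)) ≤ 1 / 2 := by
        have e1 : (M.rho q' - r) / (4 * n) ≤ -1 := by
          rw [div_le_iff₀ (by positivity)]
          nlinarith
        have e2 := Real.exp_le_exp.2 e1
        have e3 := Real.exp_neg_one_lt_d9
        linarith
      have h7 : (1 / (25 * (n : ℝ))) * Real.exp ((M.rho q' - r) / (4 * n))
          ≤ (1 / (25 * (n : ℝ))) * (1 / 2) :=
        mul_le_mul_of_nonneg_left h6 (by positivity)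
      have h8' : M.w q - M.w q' ≤ 1 / (200 * (n : ℝ)) := by
        have := (abs_le.1 h3).1
        linarith
      have h9 : (1 / (25 * (n : ℝ))) * (1 / 2) + 1 / (200 * (n : ℝ)) < 1 / (25 * (n : ℝ)) := by
        have a1 : 1 / (200 * (n : ℝ)) = (1 / (25 * (n : ℝ))) * (1 / 8) := by
          field_simp
          norm_num
        have a2 : 0 < 1 / (25 * (n : ℝ)) := by positivity
        rw [a1]
        nlinarith
      linarith

end

end Pool.Agent.ShG
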