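import Pool.Agent.ShG.TargetsX

/-! Final assembly: the main theorem from the targets. -/

namespace Pool.Agent.ShG

open scoped BigOperators Topology ContDiff Manifold
open Set Filter

noncomputable section

/-- the main statement -/
def tMAIN : Prop := ∀ n : ℕ, 2 ≤ n → ∃ c : ℝ, 0 < c ∧
  ∀ (S : Type) [TopologicalSpace S] [T2Space S] [ConnectedSpace S]
    [ChartedSpace (EuclideanSpace ℝ (Fin n)) S] [IsManifold (𝓡 n) ∞ S]
    (X : S → EuclideanSpace ℝ (Fin (n + 1))), IsShrinkerImmersion X → IsProperMap X →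
    (∀ p, normIIsq (locX X p) (chartAt (EuclideanSpace ℝ (Fin n)) p p) < 1 + c) →
    (∃ ν : EuclideanSpace ℝ (Fin (n + 1)), ‖ν‖ = 1 ∧
      Set.range X = {x | inner ℝ x ν = (0 : ℝ)}) ∨
    (∃ (k : ℕ) (L : EuclideanSpace ℝ (Fin (n + 1)) ≃ₗᵢ[ℝ] EuclideanSpace ℝ (Fin (n + 1))),
      1 ≤ k ∧ k ≤ n ∧ Set.range X
        = L '' {x | ∑ i : Fin (n + 1), (if (i : ℕ) < k + 1 then x i ^ 2 else 0) = (k : ℝ)}) ∨
    (∃ (γ : ℝ → EuclideanSpace ℝ (Fin 2))
      (L : EuclideanSpace ℝ (Fin (n + 1)) ≃ₗᵢ[ℝ] EuclideanSpace ℝ (Fin (n + 1))),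
      IsAL γ ∧ Set.range γ ≠ Metric.sphere 0 1 ∧
      Set.range X = L '' {x | ∃ s, x 0 = γ s 0 ∧ x 1 = γ s 1})

lemma FIN_one {n : ℕ} (hn : 2 ≤ n) : ((1 : Fin (n + 1)) : ℕ) = 1 := by
  rw [Fin.val_one']
  exact Nat.mod_eq_of_lt (by omega)

lemma FIN_sum {n : ℕ} (hn : 2 ≤ n) (x : Fs n) :
    ∑ i : Fin (n + 1), (if (i : ℕ) < 1 + 1 then x i ^ 2 else 0) = x 0 ^ 2 + x 1 ^ 2 := by
  have h1v := FIN_one hn
  have h01 : (0 : Fin (n + 1)) ≠ 1 := by
    intro h
    have := congrArg Fin.val h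
    rw [h1v] at this
    simp at this
  rw [← Finset.sum_subset (Finset.subset_univ ({0, 1} : Finset (Fin (n + 1))))]
  · rw [Finset.sum_pair h01, if_pos (by simp), if_pos (by rw [h1v]; norm_num)]
  · intro i _ hi
    have h2 : ¬ (i : ℕ) < 1 + 1 := by
      intro hlt
      apply hi
      have : (i : ℕ) = 0 ∨ (i : ℕ) = 1 := by omega
      rcases this with h | h
      · have : i = 0 := Fin.ext (by simpa using h)
        simp [this]
      · have : i = 1 := Fin.ext (by rw [h1v]; exact h)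
        simp [this]
    rw [if_neg h2]

theorem pMAIN (hALL : tALL) (hRIG : tRIG) (hCL0 : tCL0) (hCZ1 : tCZ1) (hCZ2 : tCZ2)
    (hCG1 : tCG1) (hCG2 : tCG2) (hCG3 : tCG3) (hFRM : tFRM) (hCAL : tCAL) (hRED : tRED) :
    tMAIN := by
  intro n hn
  obtain ⟨c0, hc0, hc1, hall⟩ := hALL n hn
  refine ⟨c0, hc0, ?_⟩
  intro S _ _ _ _ _ X hX hprop hII
  obtain ⟨S', i1, i2, i3, M, hshr, hw, hrange⟩ := hRED n c0 S X hX hprop hII
  have hstd : M.Std c0 := ⟨hshr, hc0, hc1, hw⟩
  rw [← hrange]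
  rcases hall S' M hshr hw with h0 | hH
  · left
    exact hCL0 n S' M hshr h0
  · right
    obtain ⟨hssq, hF⟩ := hRIG n (by omega) S' M c0 hstd hH
    by_cases hg : ∀ p, M.gsq M.H p = 0
    · left
      obtain ⟨k, P, hk1, hkn, hP1, hP2, hP3, hP4⟩ := hCZ1 n S' M hshr hH hssq hg
      obtain ⟨L, hL⟩ := hCZ2 n k S' M P hk1 hkn hP1 hP2 hP3 hP4
      exact ⟨k, L, hk1, hkn, hL⟩
    · rw [not_forall] at hg
      have hw2 : ∀ p, M.w p ≤ 2 := fun p => by have := hw p; linarith
      obtain ⟨f0, f1, hf0, hf1, hf01, hprd⟩ := hCG1 n (by omega) S' M hshr hH hssq hg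
      have hPrd : Prd M f0 f1 := ⟨hf0, hf1, hf01, hprd⟩
      obtain ⟨γ, ν, hprof, hran, x0, hx0⟩ := hCG2 n S' M f0 f1 hshr hw2 hPrd
      obtain ⟨T, hT, hper⟩ := hCG3 n S' M f0 f1 hshr hw2 hH hPrd γ ν hprof x0 hx0
      obtain ⟨L, hL⟩ := hFRM n (by omega) f0 f1 hf0 hf1 hf01
      have hAL := hCAL γ ν T hprof hT hper
      set γ2 : ℝ → EuclideanSpace ℝ (Fin 2) :=
        fun s => WithLp.toLp 2 ![(γ s).re, (γ s).im] with hγ2
      -- the image through `L`
      have himg : Set.range M.X = L '' {x | ∃ s, x 0 = γ2 s 0 ∧ x 1 = γ2 s 1} := by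
        rw [hran]
        ext y
        constructor
        · rintro ⟨s, hs⟩
          refine ⟨L.symm y, ⟨s, ?_, ?_⟩, by simp⟩
          · have h1 := (hL (L.symm y)).1
            rw [L.apply_symm_apply] at h1
            rw [← h1]
            have h2 := congrArg Complex.re hs
            simp [cx] at h2
            simp [hγ2, h2]
          · have h1 := (hL (L.symm y)).2
            rw [L.apply_symm_apply] at h1
            rw [← h1]
            have h2 := congrArg Complex.im hs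
            simp [cx] at h2
            simp [hγ2, h2]
        · rintro ⟨x, ⟨s, h1, h2⟩, rfl⟩
          refine ⟨s, ?_⟩
          apply Complex.ext
          · rw [show (cx f0 f1 (L x)).re = inner ℝ (L x) f0 from rfl, (hL x).1, h1]
            simp [hγ2]
          · rw [show (cx f0 f1 (L x)).im = inner ℝ (L x) f1 from rfl, (hL x).2, h2]
            simp [hγ2]
      by_cases hround : Set.range γ2 = Metric.sphere 0 1
      · left
        refine ⟨1, L, le_refl _, by omega, ?_⟩
        rw [himg]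
        congr 1
        ext x
        rw [Set.mem_ofPred_eq, Set.mem_ofPred_eq, FIN_sum hn]
        constructor
        · rintro ⟨s, h1, h2⟩
          have h3 : γ2 s ∈ Metric.sphere (0 : EuclideanSpace ℝ (Fin 2)) 1 := by
            rw [← hround]; exact ⟨s, rfl⟩
          rw [mem_sphere_zero_iff_norm] at h3
          have h4 : ‖γ2 s‖ ^ 2 = 1 := by rw [h3]; norm_num
          rw [EuclideanSpace.norm_sq_eq, Fin.sum_univ_two] at h4
          simp only [Real.norm_eq_abs, sq_abs] at h4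
          rw [h1, h2, h4]
          norm_num
        · intro hx
          have h3 : (WithLp.toLp 2 ![x 0, x 1] : EuclideanSpace ℝ (Fin 2)) ∈
              Metric.sphere (0 : EuclideanSpace ℝ (Fin 2)) 1 := by
            rw [mem_sphere_zero_iff_norm]
            have h4 : ‖(WithLp.toLp 2 ![x 0, x 1] : EuclideanSpace ℝ (Fin 2))‖ ^ 2 = 1 := by
              rw [EuclideanSpace.norm_sq_eq, Fin.sum_univ_two]
              simp only [Real.norm_eq_abs, sq_abs]
              simp only [Matrix.cons_val_zero, Matrix.cons_val_one]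
              rw [hx]; norm_num
            have h5 := norm_nonneg (WithLp.toLp 2 ![x 0, x 1] : EuclideanSpace ℝ (Fin 2))
            nlinarith
          rw [← hround] at h3
          obtain ⟨s, hs⟩ := h3
          refine ⟨s, ?_, ?_⟩
          · rw [hs]; simp
          · rw [hs]; simp
      · right
        exact ⟨γ2, L, hAL, hround, himg⟩

end

end Pool.Agent.ShG
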