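import Pool.Agent.ShG.Targets

/-! # `tFRM`: a linear isometry adapted to an orthonormal pair -/

namespace Pool.Agent.ShG

open scoped BigOperators Topology ContDiff
open Set Filter

noncomputable section

/-- the adapted isometry -/
theorem pFRM : tFRM := by
  intro n hn f0 f1 h0 h1 h01
  have hne : (0 : Fin (n + 1)) ≠ 1 := by
    intro h
    have h2 := congrArg Fin.val h
    rw [Fin.val_zero, Fin.val_one'] at h2
    rw [Nat.mod_eq_of_lt (by omega)] at h2
    omega
  have hcard : Module.finrank ℝ (Fs n) = Fintype.card (Fin (n + 1)) := by simp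
  let v : Fin (n + 1) → Fs n := fun i => if i = 0 then f0 else f1
  have hv0 : v 0 = f0 := if_pos rfl
  have hv1 : v 1 = f1 := if_neg (Ne.symm hne)
  have hon : Orthonormal ℝ (({0, 1} : Set (Fin (n + 1))).restrict v) := by
    refine ⟨?_, ?_⟩
    · rintro ⟨i, hi⟩
      rcases hi with hi | hi
      · subst hi
        simpa [Set.restrict] using (hv0 ▸ h0 : ‖v 0‖ = 1)
      · have hi' : i = 1 := hi
        subst hi'
        simpa [Set.restrict] using (hv1 ▸ h1 : ‖v 1‖ = 1)
    · rintro ⟨i, hi⟩ ⟨j, hj⟩ hij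
      have hij' : i ≠ j := fun h => hij (Subtype.ext h)
      change inner ℝ (v i) (v j) = (0 : ℝ)
      have hi2 : i = 0 ∨ i = 1 := hi
      have hj2 : j = 0 ∨ j = 1 := hj
      rcases hi2 with hi2 | hi2 <;> rcases hj2 with hj2 | hj2
      · exact absurd (hi2.trans hj2.symm) hij'
      · rw [hi2, hj2, hv0, hv1]; exact h01
      · rw [hi2, hj2, hv0, hv1, real_inner_comm]; exact h01
      · exact absurd (hi2.trans hj2.symm) hij'
  obtain ⟨b, hb⟩ := hon.exists_orthonormalBasis_extension_of_card_eq hcard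
  have hb0 : b 0 = f0 := (hb 0 (Or.inl rfl)).trans hv0
  have hb1 : b 1 = f1 := (hb 1 (Or.inr rfl)).trans hv1
  refine ⟨b.repr.symm, fun x => ⟨?_, ?_⟩⟩
  · rw [← hb0, real_inner_comm, ← b.repr_apply_apply, LinearIsometryEquiv.apply_symm_apply]
  · rw [← hb1, real_inner_comm, ← b.repr_apply_apply, LinearIsometryEquiv.apply_symm_apply]

end

end Pool.Agent.ShG
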