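import Pool.Agent.ShG.Targets

/-!
# ShG-GE: gradients of `e1`, `e2`
-/

namespace Pool.Agent.ShG

open scoped BigOperators Topology ContDiff
open Set Filter

noncomputable section

variable {n : ℕ} {S : Type} [TopologicalSpace S]

/-- the gradient of a sum of squares -/
lemma GE_gen {M : Hyp n S} {κ : Type} [Fintype κ] (Z : κ → S → ℝ) {p : S}
    (hZ : ∀ k, M.Sm (Z k) p) :
    M.gsq (fun q => ∑ k, (Z k q) ^ 2) p
      ≤ 4 * (∑ k, (Z k p) ^ 2) * ∑ a, ∑ k, (M.dl a (Z k) p) ^ 2 := by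
  unfold Hyp.gsq
  rw [Finset.mul_sum]
  refine Finset.sum_le_sum fun a _ => ?_
  rw [Hyp.dl_sum (fun k _ => (hZ k).pow 2)]
  have h1 : ∑ k, M.dl a (fun q => Z k q ^ 2) p = 2 * ∑ k, Z k p * M.dl a (Z k) p := by
    rw [Finset.mul_sum]
    refine Finset.sum_congr rfl fun k _ => ?_
    rw [Hyp.dl_sq (hZ k)]
    ring
  rw [h1]
  have h2 := Finset.sum_mul_sq_le_sq_mul_sq Finset.univ (fun k => Z k p)
    (fun k => M.dl a (Z k) p)
  nlinarith [h2]

theorem pGE : tGE := by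
  intro n S _ M p
  constructor
  · have h := GE_gen (M := M) (p := p)
      (fun k : Fin (n + 1) × Fin (n + 1) × Fin (n + 1) => M.dl k.1 (M.B k.2.1 k.2.2))
      (fun k => (Hyp.Sm.B M k.2.1 k.2.2 p).dl k.1)
    have e1 : (fun q => ∑ k : Fin (n + 1) × Fin (n + 1) × Fin (n + 1),
        (M.dl k.1 (M.B k.2.1 k.2.2) q) ^ 2) = M.e1 := by
      funext q
      simp only [Fintype.sum_prod_type]
      rfl
    have e1' : (∑ k : Fin (n + 1) × Fin (n + 1) × Fin (n + 1),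
        (M.dl k.1 (M.B k.2.1 k.2.2) p) ^ 2) = M.e1 p := congrFun e1 p
    have e2 : (∑ a, ∑ k : Fin (n + 1) × Fin (n + 1) × Fin (n + 1),
        (M.dl a (M.dl k.1 (M.B k.2.1 k.2.2)) p) ^ 2) = M.e2 p := by
      simp only [Fintype.sum_prod_type]
      rfl
    rw [e1, e1', e2] at h
    exact h
  · have h := GE_gen (M := M) (p := p)
      (fun k : Fin (n + 1) × Fin (n + 1) × Fin (n + 1) × Fin (n + 1) =>
        M.dl k.1 (M.dl k.2.1 (M.B k.2.2.1 k.2.2.2)))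
      (fun k => ((Hyp.Sm.B M k.2.2.1 k.2.2.2 p).dl k.2.1).dl k.1)
    have e1 : (fun q => ∑ k : Fin (n + 1) × Fin (n + 1) × Fin (n + 1) × Fin (n + 1),
        (M.dl k.1 (M.dl k.2.1 (M.B k.2.2.1 k.2.2.2)) q) ^ 2) = M.e2 := by
      funext q
      simp only [Fintype.sum_prod_type]
      rfl
    have e1' : (∑ k : Fin (n + 1) × Fin (n + 1) × Fin (n + 1) × Fin (n + 1),
        (M.dl k.1 (M.dl k.2.1 (M.B k.2.2.1 k.2.2.2)) p) ^ 2) = M.e2 p := congrFun e1 p
    have e2 : (∑ a, ∑ k : Fin (n + 1) × Fin (n + 1) × Fin (n + 1) × Fin (n + 1),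
        (M.dl a (M.dl k.1 (M.dl k.2.1 (M.B k.2.2.1 k.2.2.2))) p) ^ 2) = M.e3 p := by
      simp only [Fintype.sum_prod_type]
      rfl
    rw [e1, e1', e2] at h
    exact h

end

end Pool.Agent.ShG
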