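import Pool.Agent.ShG.Targets

/-!
# ShG: the gradient of the mean curvature of a shrinker (target `tGH`)
-/

set_option autoImplicit false

namespace Pool.Agent.ShG

open scoped BigOperators

noncomputable section

/-- `δ_a H = ∑ B_ab X_b` for shrinkers. -/
theorem pGH : tGH := by
  intro n S _ M hM a p
  have hH : M.H = fun q => - ∑ b, M.Xc b q * M.Nc b q := by
    funext q
    rw [hM q, PiLp.inner_apply]
    congr 1
    refine Finset.sum_congr rfl fun b _ => ?_
    change inner ℝ (M.X q b) (M.N q b) = M.X q b * M.N q b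
    rw [RCLike.inner_apply, conj_trivial]
    ring
  have hs : ∀ b ∈ Finset.univ, M.Sm (fun q => M.Xc b q * M.Nc b q) p := fun b _ =>
    (Hyp.Sm.Xc M b p).mul (Hyp.Sm.Nc M b p)
  rw [hH, Hyp.dl_neg (Hyp.Sm.sum hs), Hyp.dl_sum hs]
  have h1 : ∀ b, M.dl a (fun q => M.Xc b q * M.Nc b q) p
      = - (M.B a b p * M.X p b) + ((if a = b then M.N p b else 0)
        - M.N p a * (M.N p b * M.N p b)) := by
    intro b
    rw [Hyp.dl_mul (Hyp.Sm.Xc M b p) (Hyp.Sm.Nc M b p), Hyp.dl_Nc, Hyp.dl_X]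
    change M.X p b * -M.B a b p + M.N p b * _ = _
    split_ifs <;> ring
  simp_rw [h1]
  rw [Finset.sum_add_distrib, Finset.sum_sub_distrib, Finset.sum_neg_distrib, ← Finset.mul_sum,
    M.sum_NN, Finset.sum_ite_eq, if_pos (Finset.mem_univ a)]
  ring

end

end Pool.Agent.ShG
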