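import Pool.Agent.ShG.TargetsX

/-! Job ShG-GR0: local graph representation of a parametrised hypersurface. -/

namespace Pool.Agent.ShG

open scoped BigOperators Topology ContDiff
open Set Filter

noncomputable section

variable {n : ℕ}

/-- a linear isometry onto the orthogonal complement of a unit vector -/
lemma GR0_iota (ν : Fs n) (hν : ‖ν‖ = 1) :
    ∃ ι : Es n →ₗᵢ[ℝ] Fs n, ∀ u, inner ℝ (ι u) ν = (0:ℝ) := by
  have hν0 : ν ≠ 0 := by
    intro h0
    rw [h0] at hν
    simp at hν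
  have h1 : Module.finrank ℝ (ℝ ∙ ν) = 1 := finrank_span_singleton hν0
  have h2 : Module.finrank ℝ ((ℝ ∙ ν)ᗮ : Submodule ℝ (Fs n)) = n := by
    have := Submodule.finrank_add_finrank_orthogonal (ℝ ∙ ν)
    rw [h1] at this
    simp at this
    omega
  let e : Es n ≃ₗᵢ[ℝ] ((ℝ ∙ ν)ᗮ : Submodule ℝ (Fs n)) :=
    ((stdOrthonormalBasis ℝ ((ℝ ∙ ν)ᗮ : Submodule ℝ (Fs n))).reindex (finCongr h2)).repr.symm
  refine ⟨((ℝ ∙ ν)ᗮ : Submodule ℝ (Fs n)).subtypeₗᵢ.comp e.toLinearIsometry, fun u => ?_⟩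
  have h4 := (e u).2
  rw [Submodule.mem_orthogonal_singleton_iff_inner_left] at h4
  exact h4

/-- every ambient vector splits -/
lemma GR0_split (ι : Es n →ₗᵢ[ℝ] Fs n) (ν : Fs n) (hν : ‖ν‖ = 1)
    (hp : ∀ u, inner ℝ (ι u) ν = (0:ℝ)) (x : Fs n) :
    x = ι (prj ι x) + (inner ℝ x ν : ℝ) • ν := by
  have hN0 : ν ≠ 0 := by
    intro h0
    rw [h0] at hν
    simp at hν
  set R : Submodule ℝ (Fs n) := LinearMap.range ι.toLinearMap with hR
  have hfr : Module.finrank ℝ R = n := by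
    rw [hR, LinearMap.finrank_range_of_inj ι.injective]
    simp
  have hfo : Module.finrank ℝ Rᗮ = 1 := by
    have := Submodule.finrank_add_finrank_orthogonal R
    rw [hfr] at this
    simp at this
    omega
  have hNm : ν ∈ Rᗮ := by
    rw [Submodule.mem_orthogonal]
    rintro _ ⟨u, rfl⟩
    exact hp u
  set y : Fs n := x - ι (prj ι x) - (inner ℝ x ν : ℝ) • ν with hy
  have hNN : inner ℝ ν ν = (1 : ℝ) := by
    rw [real_inner_self_eq_norm_sq, hν]; norm_num
  have hym : y ∈ Rᗮ := by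
    rw [Submodule.mem_orthogonal]
    rintro _ ⟨u, rfl⟩
    change inner ℝ (ι u) y = 0
    rw [hy, inner_sub_right, inner_sub_right, inner_smul_right, hp, ι.inner_map_map,
      real_inner_comm, ← prj_inner, real_inner_comm]
    ring
  have hyN : inner ℝ y ν = 0 := by
    rw [hy, inner_sub_left, inner_sub_left, inner_smul_left, hNN, hp]
    simp
  have h1 := (finrank_eq_one_iff_of_nonzero' (⟨ν, hNm⟩ : Rᗮ) (by
    intro h0; exact hN0 (congrArg Subtype.val h0))).1 hfo ⟨y, hym⟩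
  obtain ⟨c, hc⟩ := h1
  have hc' : c • ν = y := congrArg Subtype.val hc
  have : c = 0 := by
    have : inner ℝ (c • ν) ν = 0 := by rw [hc', hyN]
    rw [inner_smul_left, hNN] at this
    simpa using this
  rw [this, zero_smul] at hc'
  have h5 : x - ι (prj ι x) - (inner ℝ x ν : ℝ) • ν = 0 := by rw [← hy, ← hc']
  rw [sub_sub, sub_eq_zero] at h5
  exact h5

lemma GR0_prj_nu (ι : Es n →ₗᵢ[ℝ] Fs n) (ν : Fs n)
    (hp : ∀ u, inner ℝ (ι u) ν = (0:ℝ)) : prj ι ν = 0 := by
  refine ext_inner_right ℝ fun v => ?_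
  rw [prj_inner, inner_zero_left, real_inner_comm, hp]

theorem pGR0 : tGR0 := by
  intro n x V u0 ν hV hu0 hx hinj hν hperp
  obtain ⟨ι, hι⟩ := GR0_iota ν hν
  have hνν : inner ℝ ν ν = (1 : ℝ) := by
    rw [real_inner_self_eq_norm_sq, hν]; norm_num
  -- the projected map
  set F : Es n → Es n := fun u => prj ι (x u - x u0) with hF
  have hxat : ∀ u ∈ V, ContDiffAt ℝ ∞ x u := fun u hu => hx.contDiffAt (hV.mem_nhds hu)
  have hxd : ∀ u ∈ V, DifferentiableAt ℝ x u := fun u hu =>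
    (hxat u hu).differentiableAt (by simp)
  have hFat : ∀ u ∈ V, ContDiffAt ℝ ∞ F u := fun u hu =>
    (prj ι).contDiff.contDiffAt.comp u ((hxat u hu).sub contDiffAt_const)
  have hFd : ∀ u ∈ V, HasFDerivAt F ((prj ι).comp (fderiv ℝ x u)) u := fun u hu =>
    (prj ι).hasFDerivAt.comp u ((hxd u hu).hasFDerivAt.sub_const _)
  -- the derivative at u0 is injective
  have hinj0 : Function.Injective ((prj ι).comp (fderiv ℝ x u0)) := by
    intro a b hab
    have h1 : prj ι (fderiv ℝ x u0 (a - b)) = 0 := by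
      have : prj ι (fderiv ℝ x u0 a) = prj ι (fderiv ℝ x u0 b) := hab
      rw [map_sub, map_sub, this, sub_self]
    have h2 : fderiv ℝ x u0 (a - b) = 0 := by
      rw [GR0_split ι ν hν hι (fderiv ℝ x u0 (a - b)), h1, hperp]
      simp
    have h3 : a - b = 0 := hinj u0 hu0 (by rw [h2, map_zero])
    exact sub_eq_zero.1 h3
  let L : Es n ≃L[ℝ] Es n :=
    (LinearEquiv.ofInjectiveEndo ((prj ι).comp (fderiv ℝ x u0)).toLinearMap
      hinj0).toContinuousLinearEquiv
  have hL : (L : Es n →L[ℝ] Es n) = (prj ι).comp (fderiv ℝ x u0) := by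
    ext v
    rfl
  have hF0 : HasFDerivAt F (L : Es n →L[ℝ] Es n) u0 := by
    rw [hL]; exact hFd u0 hu0
  have hn : (∞ : WithTop ℕ∞) ≠ 0 := by simp
  let e : OpenPartialHomeomorph (Es n) (Es n) :=
    (hFat u0 hu0).toOpenPartialHomeomorph F hF0 hn
  have he : (e : Es n → Es n) = F := rfl
  have hu0e : u0 ∈ e.source := (hFat u0 hu0).mem_toOpenPartialHomeomorph_source hF0 hn
  have hFu0 : F u0 = 0 := by simp [hF]
  -- invertibility of DF near u0
  have hcont : ContinuousAt (fun u => fderiv ℝ F u) u0 :=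
    ((hFat u0 hu0).fderiv_right (m := 0) (by simp)).continuousAt
  have hinv : ∀ᶠ u in 𝓝 u0, ∃ L' : Es n ≃L[ℝ] Es n, (L' : Es n →L[ℝ] Es n) = fderiv ℝ F u := by
    have h1 : range ((↑) : (Es n ≃L[ℝ] Es n) → Es n →L[ℝ] Es n) ∈ 𝓝 (fderiv ℝ F u0) := by
      rw [hF0.fderiv]
      exact ContinuousLinearEquiv.nhds L
    exact hcont h1
  obtain ⟨W, hW1, hWo, hW2⟩ := eventually_nhds_iff.1 hinv
  -- the domain
  set A : Set (Es n) := e.source ∩ (W ∩ V) with hA
  have hAo : IsOpen A := e.open_source.inter (hWo.inter hV)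
  have hAs : A ⊆ e.source := inter_subset_left
  set U : Set (Es n) := e '' A with hU
  have hUo : IsOpen U := e.isOpen_image_of_subset_source hAo hAs
  have hu0A : u0 ∈ A := ⟨hu0e, hW2, hu0⟩
  set ψ : Es n → Es n := fun v => e.symm v with hψ
  have hψe : ∀ u ∈ A, ψ (F u) = u := fun u hu => e.left_inv (hAs hu)
  have hmaps : MapsTo ψ U A := by
    rintro _ ⟨u, hu, rfl⟩
    change ψ (F u) ∈ A
    rw [hψe u hu]
    exact hu
  have hFψ : ∀ v ∈ U, F (ψ v) = v := by
    rintro _ ⟨u, hu, rfl⟩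
    change F (ψ (F u)) = F u
    rw [hψe u hu]
  have hUt : U ⊆ e.target := by
    rintro _ ⟨u, hu, rfl⟩
    exact e.map_source (hAs hu)
  have h0U : (0 : Es n) ∈ U := ⟨u0, hu0A, hFu0⟩
  have hψ0 : ψ 0 = u0 := by
    have := hψe u0 hu0A
    rw [hFu0] at this
    exact this
  have hψs : ∀ v ∈ U, ContDiffAt ℝ ∞ ψ v := by
    intro v hv
    have hm := hmaps hv
    obtain ⟨L', hL'⟩ := hW1 (ψ v) hm.2.1
    have h1 : HasFDerivAt F (L' : Es n →L[ℝ] Es n) (ψ v) := by
      rw [hL']
      exact ((hFat _ hm.2.2).differentiableAt (by simp)).hasFDerivAt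
    exact e.contDiffAt_symm (hUt hv) h1 (hFat _ hm.2.2)
  set g : Es n → ℝ := fun v => inner ℝ (x (ψ v) - x u0) ν with hg
  have hgs : ∀ v ∈ U, ContDiffAt ℝ ∞ g v := by
    intro v hv
    have h1 : ContDiffAt ℝ ∞ (fun v => x (ψ v) - x u0) v :=
      ((hxat _ (hmaps hv).2.2).comp v (hψs v hv)).sub contDiffAt_const
    exact h1.inner ℝ contDiffAt_const
  have hgraph : ∀ v ∈ U, x (ψ v) = x u0 + ι v + g v • ν := by
    intro v hv
    have h1 := GR0_split ι ν hν hι (x (ψ v) - x u0)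
    have h2 : prj ι (x (ψ v) - x u0) = v := hFψ v hv
    rw [h2] at h1
    have h3 : x (ψ v) = x u0 + (x (ψ v) - x u0) := by abel
    rw [h3, h1]
    simp only [hg]
    abel
  refine ⟨ι, U, g, ψ, hUo, h0U, hι, hψ0, fun v hv => (hmaps hv).2.2, ?_, ?_, ?_, hgraph, ?_⟩
  · exact fun v hv => (hψs v hv).continuousAt.continuousWithinAt
  · intro W' hW' hW'o
    exact e.symm.isOpen_image_of_subset_source hW'o (hW'.trans hUt)
  · exact fun v hv => (hgs v hv).contDiffWithinAt
  · intro v hv h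
    have hm := hmaps hv
    -- surjectivity of Dψ
    have h1 : HasFDerivAt ψ (fderiv ℝ ψ v) v :=
      ((hψs v hv).differentiableAt (by simp)).hasFDerivAt
    have hgd : HasFDerivAt g (fderiv ℝ g v) v :=
      ((hgs v hv).differentiableAt (by simp)).hasFDerivAt
    have h2 : HasFDerivAt (fun w => ψ (F w))
        ((fderiv ℝ ψ v).comp ((prj ι).comp (fderiv ℝ x (ψ v)))) (ψ v) := by
      have h3 : HasFDerivAt ψ (fderiv ℝ ψ v) (F (ψ v)) := by rw [hFψ v hv]; exact h1
      exact h3.comp (ψ v) (hFd _ hm.2.2)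
    have h4 : HasFDerivAt (fun w => ψ (F w)) (ContinuousLinearMap.id ℝ (Es n)) (ψ v) := by
      refine (hasFDerivAt_id (ψ v)).congr_of_eventuallyEq ?_
      filter_upwards [hAo.mem_nhds hm] with w hw
      exact hψe w hw
    have h5 := h2.unique h4
    set k : Es n := prj ι (fderiv ℝ x (ψ v) h) with hk
    have h6 : fderiv ℝ ψ v k = h := by
      have := congrArg (fun T : Es n →L[ℝ] Es n => T h) h5
      exact this
    have h7 : HasFDerivAt (fun w => x (ψ w)) ((fderiv ℝ x (ψ v)).comp (fderiv ℝ ψ v)) v :=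
      (hxd _ hm.2.2).hasFDerivAt.comp v h1
    have h8 : HasFDerivAt (fun w => x u0 + ι w + g w • ν)
        (ι.toContinuousLinearMap + (fderiv ℝ g v).smulRight ν) v := by
      have h9 : HasFDerivAt (fun w => ι w) ι.toContinuousLinearMap v :=
        ι.toContinuousLinearMap.hasFDerivAt
      exact (h9.const_add (x u0)).add (hgd.smul_const ν)
    have h10 : HasFDerivAt (fun w => x (ψ w))
        (ι.toContinuousLinearMap + (fderiv ℝ g v).smulRight ν) v := by
      refine h8.congr_of_eventuallyEq ?_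
      filter_upwards [hUo.mem_nhds hv] with w hw
      exact hgraph w hw
    have h11 := h7.unique h10
    have h12 : fderiv ℝ x (ψ v) h = ι k + (fderiv ℝ g v k) • ν := by
      have := congrArg (fun T : Es n →L[ℝ] Fs n => T k) h11
      have h13 : fderiv ℝ x (ψ v) (fderiv ℝ ψ v k) = ι k + (fderiv ℝ g v k) • ν := this
      rw [h6] at h13
      exact h13
    have h14 : fderiv ℝ g v k = inner ℝ (gradient g v) k := by
      rw [gradient, InnerProductSpace.toDual_symm_apply]
    have h15 : inner ℝ ν (ι (gradient g v)) = (0:ℝ) := by rw [real_inner_comm, hι]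
    rw [h12, inner_sub_right, inner_add_left, inner_add_left, hι, inner_smul_left, hνν,
      ι.inner_map_map, inner_smul_left, h15, h14, real_inner_comm]
    simp

end

end Pool.Agent.ShG
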