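import Pool.Agent.ShG.Targets

/-! Quantitative Hopf lemma in viscosity form. -/

namespace Pool.Agent.ShG

open scoped BigOperators Topology ContDiff
open Set Filter

noncomputable section

open Hyp

lemma HARN_deriv1 (k : ℕ) {t : ℝ} (ht : t ≠ 0) :
    HasDerivAt (fun x : ℝ => (x ^ k)⁻¹) (-(k : ℝ) * (t ^ (k + 1))⁻¹) t := by
  have h1 := (hasDerivAt_pow k t).fun_inv (pow_ne_zero k ht)
  refine h1.congr_deriv ?_
  rcases k with _ | j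
  · simp
  · simp only [Nat.add_sub_cancel]
    field_simp
    ring

lemma HARN_deriv2 (k : ℕ) {t : ℝ} (ht : t ≠ 0) :
    HasDerivAt (fun x : ℝ => -(k : ℝ) * (x ^ (k + 1))⁻¹)
      ((k : ℝ) * (k + 1) * (t ^ (k + 2))⁻¹) t := by
  have h1 := (HARN_deriv1 (k + 1) ht).const_mul (-(k : ℝ))
  refine h1.congr_deriv ?_
  push_cast
  ring

lemma HARN_op {n : ℕ} {S : Type} [TopologicalSpace S] {M : Hyp n S} {Z : S → ℝ} {q : S} (k : ℕ)
    (hZ : M.Sm Z q) (hpos : 0 < Z q) (V : Fs n) :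
    M.Sm (fun q' => ((Z q') ^ k)⁻¹) q ∧
    M.Lap (fun q' => ((Z q') ^ k)⁻¹) q = -(k : ℝ) * ((Z q) ^ (k + 1))⁻¹ * M.Lap Z q
      + (k : ℝ) * (k + 1) * ((Z q) ^ (k + 2))⁻¹ * M.gsq Z q ∧
    inner ℝ V (M.gr (fun q' => ((Z q') ^ k)⁻¹) q)
      = -(k : ℝ) * ((Z q) ^ (k + 1))⁻¹ * inner ℝ V (M.gr Z q) := by
  have h0 : Z q ≠ 0 := hpos.ne'
  refine ⟨(hZ.pow k).inv (pow_ne_zero k h0), ?_, ?_⟩
  · refine Lap_comp (φ := fun x : ℝ => (x ^ k)⁻¹) (φ' := fun x : ℝ => -(k : ℝ) * (x ^ (k + 1))⁻¹)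
      (φ'' := (k : ℝ) * (k + 1) * ((Z q) ^ (k + 2))⁻¹) ?_ (HARN_deriv2 k h0) ?_ hZ
    · filter_upwards [isOpen_ne.mem_nhds h0] with x hx
      exact HARN_deriv1 k hx
    · filter_upwards [hZ.eventually, hZ.continuousAt.eventually (isOpen_ne.mem_nhds h0)]
        with q' h1 h2
      exact ((h1.pow (k + 1)).inv (pow_ne_zero _ h2)).const_mul _
  · rw [M.gr_eq (hasGr_comp (HARN_deriv1 k h0) hZ.hasGr hZ.continuousAt), inner_smul_right]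

lemma HARN_num (n k : ℕ) (R Λ t L G I : ℝ) (hk : 2 * (n : ℝ) + 2 * R + 2 * Λ + 4 ≤ k) (ht : 0 < t)
    (ht1 : t ≤ 1) (hL : L ≤ 2 * n + 2 * (R + 1)) (hG : 3 * t ≤ G) (hI : I ≤ 2 * Λ) :
    2 * (k : ℝ) ≤ -(k : ℝ) * (t ^ (k + 1))⁻¹ * L
      + (k : ℝ) * (k + 1) * (t ^ (k + 2))⁻¹ * G + -(k : ℝ) * (t ^ (k + 1))⁻¹ * I := by
  set A : ℝ := (t ^ (k + 1))⁻¹ with hA
  have hA1 : 1 ≤ A := by
    rw [hA]
    exact (one_le_inv₀ (by positivity)).2 (pow_le_one₀ ht.le ht1)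
  have hA2 : (t ^ (k + 2))⁻¹ = A * t⁻¹ := by
    rw [hA, pow_succ t (k + 1), mul_inv]
  rw [hA2]
  have hG' : 3 ≤ t⁻¹ * G := by
    rw [inv_mul_eq_div, le_div_iff₀ ht]
    exact hG
  have hk0 : (0 : ℝ) ≤ k := Nat.cast_nonneg k
  have h1 : -(k : ℝ) * A * L + (k : ℝ) * (k + 1) * (A * t⁻¹) * G + -(k : ℝ) * A * I
      = k * A * ((k + 1) * (t⁻¹ * G) - L - I) := by ring
  rw [h1]
  have h2 : (2 : ℝ) ≤ (k + 1) * (t⁻¹ * G) - L - I := by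
    have : (k + 1 : ℝ) * 3 ≤ (k + 1) * (t⁻¹ * G) := by gcongr
    linarith
  have h3 : (k : ℝ) * 1 * 2 ≤ k * A * ((k + 1) * (t⁻¹ * G) - L - I) := by gcongr
  linarith

lemma HARN_bound (hLD : tLD) (hSGE : tSGE) {n : ℕ} {S : Type} [TopologicalSpace S] [T2Space S]
    {M : Hyp n S} (hShr : M.Shr) {p : S} {ι : Es n →ₗᵢ[ℝ] Fs n} {g : Es n → ℝ} {σ : Es n → S}
    (hN : M.Nice p ι g σ) {R Λ : ℝ} (hXp : ‖M.X p‖ ≤ R) (hXp0 : 0 ≤ R) {v : Fs n}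
    (hVb : ‖v‖ ≤ Λ) {u u1 : Es n} (hu8 : u ∈ Metric.ball (0 : Es n) (1 / 8))
    (hu1' : u1 ∈ Metric.ball (0 : Es n) (1 / 8)) (hsu0 : 0 < ‖M.X (σ u) - M.X (σ u1)‖ ^ 2)
    (hsu2 : ‖M.X (σ u) - M.X (σ u1)‖ ^ 2 ≤ (9 / 100) ^ 2) {k : ℕ}
    (hk : 2 * (n : ℝ) + 2 * R + 2 * Λ + 4 ≤ k) :
    2 * (k : ℝ) ≤ M.Lap (fun q => ((‖M.X q - M.X (σ u1)‖ ^ 2) ^ k)⁻¹) (σ u)
      + inner ℝ v (M.gr (fun q => ((‖M.X q - M.X (σ u1)‖ ^ 2) ^ k)⁻¹) (σ u)) := by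
  obtain ⟨hSm, hLap, hdl, hgsq⟩ := hLD n S M hShr (M.X (σ u1)) (σ u)
  obtain ⟨hS1, hL1, hI1⟩ := HARN_op (M := M) (Z := fun q => ‖M.X q - M.X (σ u1)‖ ^ 2) (q := σ u) k
    hSm hsu0 v
  rw [hL1, hI1]
  have hz : ‖M.X (σ u) - M.X (σ u1)‖ ≤ 9 / 100 := le_of_sq_le_sq hsu2 (by norm_num)
  have h0' : (0 : Es n) ∈ Metric.ball (0 : Es n) (1 / 8) := Metric.mem_ball_self (by norm_num)
  have hXu : ‖M.X (σ u)‖ ≤ R + 1 := by
    have h5 := (hSGE n S M p ι g σ hN u hu8 0 h0').2.1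
    rw [hN.1.base, sub_zero] at h5
    have h6 : ‖u‖ ≤ 1 / 8 := by
      rw [mem_ball_zero_iff] at hu8; exact hu8.le
    have h7 : ‖M.X (σ u)‖ ≤ ‖M.X (σ u) - M.X p‖ + ‖M.X p‖ := by
      have := norm_add_le (M.X (σ u) - M.X p) (M.X p)
      simpa using this
    linarith
  have hLs : M.Lap (fun q => ‖M.X q - M.X (σ u1)‖ ^ 2) (σ u) ≤ 2 * n + 2 * (R + 1) := by
    have h6 := abs_real_inner_le_norm (M.X (σ u)) (M.X (σ u) - M.X (σ u1))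
    have h7 : ‖M.X (σ u)‖ * ‖M.X (σ u) - M.X (σ u1)‖ ≤ (R + 1) * 1 := by
      gcongr
      linarith
    have h8 := (abs_le.1 h6).1
    rw [hLap]; linarith
  have hGs1 : 3 * ‖M.X (σ u) - M.X (σ u1)‖ ^ 2 ≤
      M.gsq (fun q => ‖M.X q - M.X (σ u1)‖ ^ 2) (σ u) := by
    have h6 := (hSGE n S M p ι g σ hN u hu8 u1 hu1').2.2
    rw [hgsq]
    linarith
  have hIs : inner ℝ v (M.gr (fun q => ‖M.X q - M.X (σ u1)‖ ^ 2) (σ u)) ≤ 2 * Λ := by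
    have h6 : ‖M.gr (fun q => ‖M.X q - M.X (σ u1)‖ ^ 2) (σ u)‖ ≤ 2 := by
      refine le_of_sq_le_sq ?_ (by norm_num)
      rw [← gsq_eq_norm, hgsq]
      have h7 : ‖M.X (σ u) - M.X (σ u1)‖ ^ 2 ≤ 1 := hsu2.trans (by norm_num)
      have h8 := sq_nonneg (inner ℝ (M.X (σ u) - M.X (σ u1)) (M.N (σ u)) : ℝ)
      linarith
    have hΛ : 0 ≤ Λ := (norm_nonneg v).trans hVb
    calc inner ℝ v (M.gr (fun q => ‖M.X q - M.X (σ u1)‖ ^ 2) (σ u))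
        ≤ ‖v‖ * ‖M.gr (fun q => ‖M.X q - M.X (σ u1)‖ ^ 2) (σ u)‖ := real_inner_le_norm _ _
      _ ≤ Λ * 2 := by gcongr
      _ = 2 * Λ := by ring
  exact HARN_num n k R Λ _ _ _ _ hk hsu0 (hsu2.trans (by norm_num)) hLs hGs1 hIs

theorem pHARN (hLD : tLD) (hSGE : tSGE) : tHARN := by
  intro n R Λ hR hΛ
  obtain ⟨k, hk⟩ := exists_nat_ge (2 * (n : ℝ) + 2 * R + 2 * Λ + 4)
  have hk1 : (1 : ℝ) ≤ k := by
    have : (0 : ℝ) ≤ n := Nat.cast_nonneg n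
    linarith
  have hk1' : 1 ≤ k := by exact_mod_cast hk1
  set b : ℝ := 32 * (Λ + 1) with hb
  have hb1 : 1 ≤ b := by rw [hb]; linarith
  have hb0 : 0 < b := by linarith
  set κ : ℝ := (1 / 2) * ((b ^ (2 * k))⁻¹) with hκ
  have hκ0 : 0 < κ := by positivity
  have hκ1 : κ ≤ 1 / 2 := by
    have : (b ^ (2 * k))⁻¹ ≤ 1 := inv_le_one_of_one_le₀ (one_le_pow₀ hb1)
    rw [hκ]; linarith
  refine ⟨κ, 2 * k + 1, hκ0, by linarith, by omega, ?_⟩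
  intro S _ _ M hShr p ι g σ hN hXp V Y β hV hVY hLip u1 hu1 u2 hu2 y hy0 hy1 hyY hβ
  have hsec := hN.1
  have h81 : ∀ u ∈ Metric.ball (0 : Es n) (1 / 32), u ∈ Metric.ball (0 : Es n) (1 / 8) := fun u hu =>
    Metric.ball_subset_ball (by norm_num) hu
  have hu1' := h81 u1 hu1
  have hu2' := h81 u2 hu2
  have h0' : (0 : Es n) ∈ Metric.ball (0 : Es n) (1 / 8) := Metric.mem_ball_self (by norm_num)
  set x0 : Fs n := M.X (σ u1) with hx0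
  set s : S → ℝ := fun q => ‖M.X q - x0‖ ^ 2 with hs
  set r : ℝ := y / b with hr
  have hr0 : 0 < r := by positivity
  have hΛr : Λ * r ≤ y / 2 := by
    rw [hr, mul_div_assoc', div_le_div_iff₀ hb0 (by norm_num)]
    have : 0 ≤ Λ * y := by positivity
    rw [hb]; nlinarith
  have hκ' : κ * y ^ (2 * k + 1) = (y / 2) * (r ^ 2) ^ k := by
    rw [hκ, hr, ← pow_mul, div_pow]
    field_simp
    ring
  set κ' : ℝ := κ * y ^ (2 * k + 1) with hκ'def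
  have hκ'0 : 0 < κ' := by positivity
  have hκ'y : κ' ≤ y / 2 := by
    rw [hκ'def]
    have h1 : y ^ (2 * k + 1) ≤ y := by
      calc y ^ (2 * k + 1) ≤ y ^ 1 := pow_le_pow_of_le_one hy0.le hy1 (by omega)
        _ = y := pow_one y
    calc κ * y ^ (2 * k + 1) ≤ (1 / 2) * y := by gcongr
      _ = y / 2 := by ring
  -- near `u1`
  have hnear : ∀ u ∈ Metric.ball (0 : Es n) (1 / 8), ‖M.X (σ u) - x0‖ ≤ r → y / 2 ≤ Y (σ u) := by
    intro u hu h1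
    have h2 := (hSGE n S M p ι g σ hN u hu u1 hu1').1
    have h3 := hLip u hu u1 hu1'
    have h4 : Λ * ‖u - u1‖ ≤ Λ * r := by gcongr; exact h2.trans h1
    have h5 := (abs_le.1 h3).1
    linarith
  by_cases hcase : ‖M.X (σ u2) - x0‖ ≤ r
  · exact hκ'y.trans (hnear u2 hu2' hcase)
  push Not at hcase
  -- position of `u2`
  have hs2 : ‖M.X (σ u2) - x0‖ ≤ 65 / 1000 := by
    have h1 := (hSGE n S M p ι g σ hN u2 hu2' u1 hu1').2.1
    have h2 : ‖u2 - u1‖ ≤ 1 / 16 := by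
      have h3 := norm_sub_le u2 u1
      rw [mem_ball_zero_iff] at hu1 hu2
      linarith
    calc ‖M.X (σ u2) - x0‖ ≤ 33 / 32 * ‖u2 - u1‖ := h1
      _ ≤ 33 / 32 * (1 / 16) := by gcongr
      _ ≤ 65 / 1000 := by norm_num
  have hscont : ContinuousOn (fun u => s (σ u)) (Metric.ball (0 : Es n) (1 / 8)) := by
    have h1 : ContinuousOn (fun u => M.X (σ u)) (Metric.ball (0 : Es n) (1 / 8)) :=
      M.contX.comp_continuousOn hsec.cont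
    exact (h1.sub continuousOn_const).norm.pow 2
  have hYcont : ContinuousOn (fun u => Y (σ u)) (Metric.ball (0 : Es n) (1 / 8)) := by
    have h1 : LipschitzOnWith Λ.toNNReal (fun u => Y (σ u)) (Metric.ball (0 : Es n) (1 / 8)) := by
      refine LipschitzOnWith.of_dist_le_mul fun u hu u' hu' => ?_
      rw [Real.dist_eq, dist_eq_norm, Real.coe_toNNReal _ hΛ]
      exact hLip u hu u' hu'
    exact h1.continuousOn
  set K : Set (Es n) := Metric.closedBall (0 : Es n) (31 / 250) ∩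
    (fun u => s (σ u)) ⁻¹' (Icc (r ^ 2) ((9 / 100) ^ 2)) with hK
  have hsub : Metric.closedBall (0 : Es n) (31 / 250) ⊆ Metric.ball (0 : Es n) (1 / 8) :=
    Metric.closedBall_subset_ball (by norm_num)
  have hKc : IsCompact K := by
    refine (isCompact_closedBall (0 : Es n) (31 / 250)).of_isClosed_subset ?_ inter_subset_left
    exact (hscont.mono hsub).preimage_isClosed_of_isClosed Metric.isClosed_closedBall isClosed_Icc
  have hKsub : K ⊆ Metric.ball (0 : Es n) (1 / 8) := inter_subset_left.trans hsub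
  have hs2' : s (σ u2) ≤ (65 / 1000) ^ 2 := by
    change ‖M.X (σ u2) - x0‖ ^ 2 ≤ _
    gcongr
  have hs2'' : r ^ 2 < s (σ u2) := by
    change r ^ 2 < ‖M.X (σ u2) - x0‖ ^ 2
    gcongr
  have hu2K : u2 ∈ K := by
    refine ⟨?_, hs2''.le, hs2'.trans (by norm_num)⟩
    rw [mem_closedBall_zero_iff]
    rw [mem_ball_zero_iff] at hu2
    linarith
  set φ : S → ℝ := fun q => κ' * ((s q) ^ k)⁻¹ with hφ
  set c0 : ℝ := κ' * (((9 / 100 : ℝ) ^ 2) ^ k)⁻¹ with hc0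
  have hcontφ : ContinuousOn (fun u => Y (σ u) - φ (σ u)) K := by
    refine (hYcont.mono hKsub).sub ?_
    refine continuousOn_const.mul (((hscont.mono hKsub).pow k).inv₀ ?_)
    intro u hu
    have h1 : r ^ 2 ≤ s (σ u) := hu.2.1
    have h2 : 0 < s (σ u) := lt_of_lt_of_le (by positivity) h1
    exact (pow_pos h2 k).ne'
  obtain ⟨u, huK, hmin⟩ := hKc.exists_isMinOn ⟨u2, hu2K⟩ hcontφ
  have hu8 := hKsub huK
  have hsu1 : r ^ 2 ≤ s (σ u) := huK.2.1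
  have hsu2 : s (σ u) ≤ (9 / 100) ^ 2 := huK.2.2
  have hsu0 : 0 < s (σ u) := lt_of_lt_of_le (by positivity) hsu1
  -- the minimum is at least `- c0`
  have hkey : -c0 ≤ Y (σ u) - φ (σ u) := by
    by_contra hcon
    push Not at hcon
    have hY0 : 0 ≤ Y (σ u) := (hVY (σ u) ⟨u, hu8, rfl⟩).2
    have hlt1 : r ^ 2 < s (σ u) := by
      refine lt_of_le_of_ne hsu1 fun heq => ?_
      have h1 : φ (σ u) = y / 2 := by
        change κ' * ((s (σ u)) ^ k)⁻¹ = y / 2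
        rw [← heq, hκ']
        field_simp
      have h2 : ‖M.X (σ u) - x0‖ ≤ r := by
        have : ‖M.X (σ u) - x0‖ ^ 2 ≤ r ^ 2 := heq.symm.le
        exact le_of_sq_le_sq this hr0.le
      have h3 := hnear u hu8 h2
      have h4 : 0 < c0 := by positivity
      rw [h1] at hcon
      linarith
    have hlt2 : s (σ u) < (9 / 100) ^ 2 := by
      refine lt_of_le_of_ne hsu2 fun heq => ?_
      have h1 : φ (σ u) = c0 := by
        change κ' * ((s (σ u)) ^ k)⁻¹ = c0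
        rw [heq]
      rw [h1] at hcon
      linarith
    have huc : u ∈ Metric.ball (0 : Es n) (31 / 250) := by
      have h1 := (hSGE n S M p ι g σ hN u hu8 u1 hu1').1
      have h2 : ‖M.X (σ u) - x0‖ ≤ 9 / 100 := le_of_sq_le_sq hsu2 (by norm_num)
      have h3 : ‖u‖ ≤ ‖u - u1‖ + ‖u1‖ := by
        have := norm_add_le (u - u1) u1
        simpa using this
      rw [mem_ball_zero_iff] at hu1 ⊢
      have h4 : ‖u - u1‖ ≤ 9 / 100 := h1.trans h2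
      linarith
    -- touching
    have htouch : ∀ᶠ q' in 𝓝 (σ u), φ q' - φ (σ u) ≤ Y q' - Y (σ u) := by
      have hnb : {v : Es n | v ∈ Metric.ball (0 : Es n) (31 / 250) ∧
          s (σ v) ∈ Ioo (r ^ 2) ((9 / 100) ^ 2)} ∈ 𝓝 u := by
        refine inter_mem (Metric.isOpen_ball.mem_nhds huc) ?_
        have h1 : ContinuousAt (fun u => s (σ u)) u :=
          hscont.continuousAt (Metric.isOpen_ball.mem_nhds hu8)
        exact h1 (isOpen_Ioo.mem_nhds ⟨hlt1, hlt2⟩)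
      filter_upwards [hsec.image_mem hu8 hnb] with q' hq'
      obtain ⟨v, ⟨hv1, hv2⟩, rfl⟩ := hq'
      have hvK : v ∈ K := ⟨Metric.ball_subset_closedBall hv1, hv2.1.le, hv2.2.le⟩
      have h1 : Y (σ u) - φ (σ u) ≤ Y (σ v) - φ (σ v) := hmin hvK
      linarith
    obtain ⟨hSm, hLap, hdl, hgsq⟩ := hLD n S M hShr x0 (σ u)
    obtain ⟨hS1, hL1, hI1⟩ := HARN_op (M := M) (Z := s) (q := σ u) k hSm hsu0 (V (σ u))
    have hSmφ : M.Sm φ (σ u) := hS1.const_mul κ'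
    have h1 := hV (σ u) ⟨u, hu8, rfl⟩ φ hSmφ htouch
    have h2 : M.Lap φ (σ u) = κ' * M.Lap (fun q' => ((s q') ^ k)⁻¹) (σ u) :=
      Lap_const_mul κ' hS1
    have h3 : M.gr φ (σ u) = κ' • M.gr (fun q' => ((s q') ^ k)⁻¹) (σ u) := by
      have h4 : HasDerivAt (fun x : ℝ => κ' * x) κ' ((fun q' => ((s q') ^ k)⁻¹) (σ u)) := by
        simpa using (hasDerivAt_id ((fun q' => ((s q') ^ k)⁻¹) (σ u))).const_mul κ'
      exact M.gr_eq (hasGr_comp h4 hS1.hasGr hS1.continuousAt)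
    rw [h2, h3, inner_smul_right] at h1
    have hfin := HARN_bound hLD hSGE hShr hN hXp (hXp0 := hR) (hVb := (hVY (σ u) ⟨u, hu8, rfl⟩).1)
      hu8 hu1' hsu0 hsu2 hk
    rw [← hx0] at hfin
    change 2 * (k : ℝ) ≤ M.Lap (fun q' => ((s q') ^ k)⁻¹) (σ u) +
      inner ℝ (V (σ u)) (M.gr (fun q' => ((s q') ^ k)⁻¹) (σ u)) at hfin
    have h5 : κ' * (2 * (k : ℝ)) ≤ β := by
      refine le_trans (mul_le_mul_of_nonneg_left hfin hκ'0.le) ?_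
      linarith
    have h6 : κ' * 2 ≤ κ' * (2 * (k : ℝ)) := by
      gcongr
      linarith
    linarith
  have hval : Y (σ u) - φ (σ u) ≤ Y (σ u2) - φ (σ u2) := hmin hu2K
  have hφ2 : κ' * (((65 / 1000 : ℝ) ^ 2) ^ k)⁻¹ ≤ φ (σ u2) := by
    change _ ≤ κ' * ((s (σ u2)) ^ k)⁻¹
    have : 0 < s (σ u2) := lt_trans (by positivity) hs2''
    gcongr
  have hnum : (((9 / 100 : ℝ) ^ 2) ^ k)⁻¹ + 1 ≤ (((65 / 1000 : ℝ) ^ 2) ^ k)⁻¹ := by
    obtain ⟨α, hα⟩ : ∃ α : ℝ, α = ((9 / 100 : ℝ) ^ 2)⁻¹ := ⟨_, rfl⟩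
    obtain ⟨α', hα'⟩ : ∃ α' : ℝ, α' = ((65 / 1000 : ℝ) ^ 2)⁻¹ := ⟨_, rfl⟩
    have e1 : (((9 / 100 : ℝ) ^ 2) ^ k)⁻¹ = α ^ k := by rw [hα, inv_pow]
    have e2 : (((65 / 1000 : ℝ) ^ 2) ^ k)⁻¹ = α' ^ k := by rw [hα', inv_pow]
    rw [e1, e2]
    have hα1 : 1 ≤ α := by rw [hα]; norm_num
    have hα2 : α + 1 ≤ α' := by rw [hα, hα']; norm_num
    have h1 : α ^ k + 1 ≤ (α + 1) ^ k := by
      obtain ⟨j, rfl⟩ : ∃ j, k = j + 1 := ⟨k - 1, by omega⟩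
      have h2 : α ^ j ≤ (α + 1) ^ j := by gcongr; linarith
      have h3 : (1 : ℝ) ≤ (α + 1) ^ j := one_le_pow₀ (by linarith)
      calc α ^ (j + 1) + 1 = α ^ j * α + 1 := by rw [pow_succ]
        _ ≤ (α + 1) ^ j * α + (α + 1) ^ j := by gcongr
        _ = (α + 1) ^ (j + 1) := by rw [pow_succ]; ring
    exact h1.trans (by gcongr)
  have hc : c0 + κ' ≤ φ (σ u2) := by
    refine le_trans ?_ hφ2
    rw [hc0]
    calc κ' * (((9 / 100 : ℝ) ^ 2) ^ k)⁻¹ + κ' = κ' * ((((9 / 100 : ℝ) ^ 2) ^ k)⁻¹ + 1) := by ring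
      _ ≤ κ' * (((65 / 1000 : ℝ) ^ 2) ^ k)⁻¹ := by gcongr
  linarith

end

end Pool.Agent.ShG
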