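import Pool.Agent.ShG.Targets

/-! Second derivative of the mean curvature (target `tHH`). -/

namespace Pool.Agent.ShG

open scoped BigOperators Topology ContDiff
open Set Filter

noncomputable section

theorem pHH (hGH : tGH) : tHH := by
  intro n S _ M hS a b p
  have e : M.dl b M.H = fun q => ∑ c, M.B b c q * M.Xc c q := by
    funext q
    exact hGH n S M hS b q
  rw [e, Hyp.dl_sum (fun c _ => (Hyp.Sm.B M b c p).mul (Hyp.Sm.Xc M c p))]
  have h1 : ∀ c, M.dl a (fun q => M.B b c q * M.Xc c q) p =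
      M.T3 a b c p * M.X p c + M.N p b * (M.B2 a c p * M.X p c) +
        M.B2 a b p * (M.X p c * M.N p c) +
        ((if a = c then M.B b c p else 0) - M.N p a * (M.B b c p * M.N p c)) := by
    intro c
    rw [Hyp.dl_mul (Hyp.Sm.B M b c p) (Hyp.Sm.Xc M c p), Hyp.dl_X]
    have hX : M.Xc c p = M.X p c := rfl
    have hT : M.T3 a b c p =
      M.dl a (M.B b c) p - M.N p b * M.B2 a c p - M.N p c * M.B2 a b p := rfl
    rw [hX, hT]
    split_ifs <;> ring
  simp_rw [h1]
  rw [Finset.sum_add_distrib, Finset.sum_add_distrib, Finset.sum_add_distrib,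
    Finset.sum_sub_distrib, ← Finset.mul_sum, ← Finset.mul_sum, ← Finset.mul_sum,
    Hyp.B_N_right, Finset.sum_ite_eq]
  have h2 : ∑ c, M.X p c * M.N p c = - M.H p := by
    rw [hS p, Hyp.inner_sum, neg_neg]
  rw [h2, Hyp.B_symm b a p]
  simp only [Finset.mem_univ, if_true]
  ring

end

end Pool.Agent.ShG
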