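import Pool.Agent.ShG.Targets

/-! Lower bound `|H| ≥ 0.95` where `w ≈ 1` and `B ≈ H B²`. -/

namespace Pool.Agent.ShG

open scoped BigOperators Topology ContDiff
open Set Filter

noncomputable section

open Hyp

lemma HLB_sum {m : ℕ} (A T : Fin m → Fin m → ℝ) (K η : ℝ) (hK : 0 ≤ K)
    (hA : ∀ a b, |A a b| ≤ K) (hT : ∀ a b, |T a b| ≤ η) :
    |∑ a, ∑ b, A a b * T a b| ≤ (m : ℝ) ^ 2 * (K * η) := by
  calc |∑ a, ∑ b, A a b * T a b| ≤ ∑ a, |∑ b, A a b * T a b| := Finset.abs_sum_le_sum_abs _ _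
    _ ≤ ∑ a : Fin m, ∑ b, |A a b * T a b| :=
        Finset.sum_le_sum fun a _ => Finset.abs_sum_le_sum_abs _ _
    _ ≤ ∑ a : Fin m, ∑ b : Fin m, K * η := by
        refine Finset.sum_le_sum fun a _ => Finset.sum_le_sum fun b _ => ?_
        rw [abs_mul]
        exact mul_le_mul (hA a b) (hT a b) (abs_nonneg _) hK
    _ = (m : ℝ) ^ 2 * (K * η) := by simp; ring

theorem pHLB (hHW : tHW) : tHLB := by
  intro n
  have hm1 : (1:ℝ) ≤ ((n + 1 : ℕ) : ℝ) := by push_cast; linarith [Nat.cast_nonneg (α := ℝ) n]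
  set m : ℝ := ((n + 1 : ℕ) : ℝ) with hm
  have hm3 : 1 ≤ m ^ 3 := one_le_pow₀ hm1
  refine ⟨1 / (200 * m ^ 3), by positivity, ?_⟩
  intro S _ M p hw hB
  set η : ℝ := 1 / (200 * m ^ 3) with hη
  have hη0 : 0 < η := by positivity
  have hηm : m ^ 3 * η = 1 / 200 := by rw [hη]; field_simp
  have hη1 : η ≤ 1 / 200 := by
    rw [← hηm]
    nlinarith
  obtain ⟨h1, h2, -⟩ := hHW n S M p
  have hw' := abs_le.mp hw
  have hw1 : M.w p ≤ 1 + η := by linarith [hw'.2]
  have hw2 : 1 - η ≤ M.w p := by linarith [hw'.1]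
  have hb4 : M.b4 p ≤ 4 := by nlinarith
  have hBK : ∀ a b, |M.B a b p| ≤ 2 := by
    intro a b
    refine abs_le_of_sq_le_sq ?_ (by norm_num)
    have h3 : M.B a b p ^ 2 ≤ M.w p := by
      calc M.B a b p ^ 2 ≤ ∑ b', M.B a b' p ^ 2 :=
            Finset.single_le_sum (f := fun b' => M.B a b' p ^ 2) (fun _ _ => sq_nonneg _)
              (Finset.mem_univ b)
        _ ≤ ∑ a', ∑ b', M.B a' b' p ^ 2 :=
            Finset.single_le_sum (f := fun a' => ∑ b', M.B a' b' p ^ 2)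
              (fun _ _ => Finset.sum_nonneg fun _ _ => sq_nonneg _) (Finset.mem_univ a)
    linarith
  have hB2K : ∀ a b, |M.B2 a b p| ≤ 2 := by
    intro a b
    refine abs_le_of_sq_le_sq ?_ (by norm_num)
    have h3 : M.B2 a b p ^ 2 ≤ M.b4 p := by
      calc M.B2 a b p ^ 2 ≤ ∑ b', M.B2 a b' p ^ 2 :=
            Finset.single_le_sum (f := fun b' => M.B2 a b' p ^ 2) (fun _ _ => sq_nonneg _)
              (Finset.mem_univ b)
        _ ≤ ∑ a', ∑ b', M.B2 a' b' p ^ 2 :=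
            Finset.single_le_sum (f := fun a' => ∑ b', M.B2 a' b' p ^ 2)
              (fun _ _ => Finset.sum_nonneg fun _ _ => sq_nonneg _) (Finset.mem_univ a)
    linarith
  have hHm : |M.H p| ≤ m := by
    have hn : (n : ℝ) = m - 1 := by rw [hm]; push_cast; ring
    refine abs_le_of_sq_le_sq ?_ (by linarith)
    have : (n : ℝ) * M.w p ≤ (m - 1) * 2 := by
      rw [hn]
      exact mul_le_mul_of_nonneg_left (by linarith) (by linarith)
    nlinarith [sq_nonneg (m - 1)]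
  set T : Fin (n + 1) → Fin (n + 1) → ℝ := fun a b => M.B a b p - M.H p * M.B2 a b p with hT
  have s1 := HLB_sum (fun a b => M.B a b p) T 2 η (by norm_num) hBK hB
  have s2 := HLB_sum (fun a b => M.B2 a b p) T 2 η (by norm_num) hB2K hB
  have key : M.w p = (∑ a, ∑ b, M.B a b p * T a b)
      + M.H p * (∑ a, ∑ b, M.B2 a b p * T a b) + M.H p ^ 2 * M.b4 p := by
    unfold Hyp.w Hyp.b4
    rw [Finset.mul_sum, Finset.mul_sum, ← Finset.sum_add_distrib, ← Finset.sum_add_distrib]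
    refine Finset.sum_congr rfl fun a _ => ?_
    rw [Finset.mul_sum, Finset.mul_sum, ← Finset.sum_add_distrib, ← Finset.sum_add_distrib]
    refine Finset.sum_congr rfl fun b _ => ?_
    simp only [hT]; ring
  have b1 : (∑ a, ∑ b, M.B a b p * T a b) ≤ m ^ 3 * (2 * η) := by
    refine (le_abs_self _).trans (s1.trans ?_)
    refine mul_le_mul_of_nonneg_right ?_ (by positivity)
    exact pow_le_pow_right₀ hm1 (by norm_num)
  have b2 : M.H p * (∑ a, ∑ b, M.B2 a b p * T a b) ≤ m ^ 3 * (2 * η) := by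
    refine (le_abs_self _).trans ?_
    rw [abs_mul]
    calc |M.H p| * |∑ a, ∑ b, M.B2 a b p * T a b| ≤ m * (m ^ 2 * (2 * η)) :=
          mul_le_mul hHm s2 (abs_nonneg _) (by linarith)
      _ = m ^ 3 * (2 * η) := by ring
  have b3 : M.H p ^ 2 * M.b4 p ≤ M.H p ^ 2 * M.w p ^ 2 :=
    mul_le_mul_of_nonneg_left h2 (sq_nonneg _)
  have b4' : M.H p ^ 2 * M.w p ^ 2 ≤ M.H p ^ 2 * (1 + 1 / 200) ^ 2 := by
    refine mul_le_mul_of_nonneg_left ?_ (sq_nonneg _)
    exact pow_le_pow_left₀ (M.w_nonneg p) (by linarith) 2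
  have hfin : (19 / 20 : ℝ) ^ 2 ≤ |M.H p| ^ 2 := by
    rw [sq_abs]
    have : m ^ 3 * (2 * η) = 1 / 100 := by linarith
    nlinarith
  exact le_of_sq_le_sq hfin (abs_nonneg _)

end

end Pool.Agent.ShG
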