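import Pool.Agent.ShG.Targets

/-! Hopf lemma for `v = 1 + 2c - w` (helper4). -/

namespace Pool.Agent.ShG

open scoped BigOperators Topology ContDiff
open Set Filter

noncomputable section

lemma HV_b4_nonneg {n : ℕ} {S : Type} [TopologicalSpace S] (M : Hyp n S) (p : S) :
    0 ≤ M.b4 p :=
  Finset.sum_nonneg fun _ _ => Finset.sum_nonneg fun _ _ => sq_nonneg _

lemma HV_dl_vv {n : ℕ} {S : Type} [TopologicalSpace S] (M : Hyp n S) (c : ℝ) (p : S)
    (a : Fin (n + 1)) : M.dl a (M.vv c) p = - M.dl a M.w p := by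
  have h : M.dl a (M.vv c) p = M.dl a (fun _ => 1 + 2 * c) p - M.dl a M.w p :=
    Hyp.dl_sub (Hyp.Sm.const M (1 + 2 * c) p) (Hyp.Sm.w M p) a
  rw [h, Hyp.dl_const]
  ring

lemma HV_gsq_vv {n : ℕ} {S : Type} [TopologicalSpace S] (M : Hyp n S) (c : ℝ) (p : S) :
    M.gsq (M.vv c) p = M.gsq M.w p := by
  unfold Hyp.gsq
  refine Finset.sum_congr rfl fun a _ => ?_
  rw [HV_dl_vv]
  ring

lemma HV_Lap_vv {n : ℕ} {S : Type} [TopologicalSpace S] (M : Hyp n S) (c : ℝ) (p : S) :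
    M.Lap (M.vv c) p = - M.Lap M.w p := by
  have h : M.Lap (M.vv c) p = M.Lap (fun _ => 1 + 2 * c) p - M.Lap M.w p :=
    Hyp.Lap_sub (Hyp.Sm.const M (1 + 2 * c) p) (Hyp.Sm.w M p)
  rw [h, Hyp.Lap_const]
  ring

theorem pHV (hHARN : tHARN) (hLW : tLW) (hT3 : tT3) (hBER : tBER) : tHV := by
  intro n R hR
  obtain ⟨C, hC, hB⟩ := hBER n
  have hL0 : (0:ℝ) ≤ 8 * C + 1 := by linarith
  obtain ⟨κ, m, hκ0, hκ1, hm, hH⟩ := hHARN n R (2 * (8 * C + 1)) hR (by linarith)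
  refine ⟨κ, m, hκ0, hκ1, hm, ?_⟩
  intro S _ _ M c hstd p ι g σ hnice hX u1 hu1 u2 hu2 y hy0 hy1 hyv hc
  obtain ⟨hshr, hc0, hc1, hw⟩ := hstd
  have hw2 : ∀ q, M.w q ≤ 2 := fun q => by
    have := hw q
    linarith
  have hv : ∀ q, 0 ≤ M.vv c q := by
    intro q
    have := hw q
    unfold Hyp.vv
    linarith
  have hJ : ∀ q, M.J q ≤ C := by
    intro q
    have h1 := (hT3 n S M q).2.2.2.1
    have h2 := (hB S M hshr hw2 q).1
    have h3 := HV_b4_nonneg M q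
    linarith
  refine hH S M hshr p ι g σ hnice hX (fun _ => 0) (M.vv c) (5 * c) ?_ ?_ ?_ u1 hu1 u2 hu2 y
    hy0 hy1 hyv hc
  · -- supersolution
    intro q _ φ hφ hmin
    have h1 : ∀ᶠ q' in 𝓝 q, φ q' - M.vv c q' ≤ φ q - M.vv c q := by
      filter_upwards [hmin] with q' hq'
      linarith
    have h2 := (Hyp.max_Lap (hφ.sub (Hyp.Sm.vv c q)) h1).2.2
    rw [Hyp.Lap_sub hφ (Hyp.Sm.vv c q), HV_Lap_vv, (hLW n S M hshr q).2] at h2
    have h3 := Hyp.J_nonneg (M := M) q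
    have h4 := Hyp.w_nonneg (M := M) q
    have h5 := hw q
    rw [inner_zero_left, add_zero]
    have h6 : 2 * M.w q * (M.w q - 1) ≤ 5 * c := by
      by_cases h7 : M.w q ≤ 1
      · nlinarith [mul_nonneg h4 (sub_nonneg.2 h7)]
      · have h8 : 0 < M.w q - 1 := by linarith
        have h9 : M.w q * (M.w q - 1) ≤ 2 * c := by
          apply mul_le_mul (hw2 q) (by linarith) h8.le (by norm_num)
        linarith
    nlinarith
  · intro q _
    exact ⟨by simpa using (by linarith : (0:ℝ) ≤ 2 * (8 * C + 1)), hv q⟩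
  · intro u hu u' hu'
    have hseg : segment ℝ u' u ⊆ Metric.ball (0 : Es n) (1 / 8) :=
      (convex_ball (0 : Es n) (1 / 8)).segment_subset hu' hu
    have h := Hyp.sec_lip (M := M) (Z := M.vv c) hnice.1 hseg hL0
      (fun v hv' => (hnice.2 v (hseg hv')).trans (by norm_num))
      (fun v _ => Hyp.Sm.vv c (σ v)) (fun v _ => by
        rw [HV_gsq_vv]
        have h1 := (hT3 n S M (σ v)).2.2.2.2.2.2.2
        have h2 := hJ (σ v)
        have h3 := Hyp.J_nonneg (M := M) (σ v)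
        have h4 := Hyp.w_nonneg (M := M) (σ v)
        have h5 := hw2 (σ v)
        have h6 : M.w (σ v) * M.J (σ v) ≤ 2 * C := mul_le_mul h5 h2 h3 (by norm_num)
        nlinarith)
    exact h

end

end Pool.Agent.ShG
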