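import Pool.Agent.ShG.Targets

/-!
# Job ShG-I1: lower bound for the drift Laplacian of `|DB|²`
-/

namespace Pool.Agent.ShG

open scoped BigOperators Topology ContDiff
open Set Filter Hyp

noncomputable section

variable {n : ℕ} {S : Type} [TopologicalSpace S]

lemma I1_sum (f : Fin (n + 1) → ℝ) (K : ℝ) (h : ∀ a, |f a| ≤ K) :
    |∑ a, f a| ≤ ((n : ℝ) + 1) * K := by
  calc |∑ a, f a| ≤ ∑ a, |f a| := Finset.abs_sum_le_sum_abs _ _
    _ ≤ ∑ _a : Fin (n + 1), K := Finset.sum_le_sum fun a _ => h a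
    _ = ((n : ℝ) + 1) * K := by simp

lemma I1_mul {x y K L : ℝ} (hx : |x| ≤ K) (hy : |y| ≤ L) : |x * y| ≤ K * L := by
  rw [abs_mul]
  exact mul_le_mul hx hy (abs_nonneg _) (le_trans (abs_nonneg _) hx)

lemma I1_add {x y K L : ℝ} (hx : |x| ≤ K) (hy : |y| ≤ L) : |x + y| ≤ K + L :=
  (abs_add_le x y).trans (add_le_add hx hy)

lemma I1_dB2 (M : Hyp n S) (a b c : Fin (n + 1)) (p : S) :
    M.dl a (M.B2 b c) p =
      ∑ d, (M.B b d p * M.dl a (M.B d c) p + M.B d c p * M.dl a (M.B b d) p) := by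
  have e : M.B2 b c = fun q => ∑ d, M.B b d q * M.B d c q := rfl
  rw [e, dl_sum (M := M) (Z := fun d q => M.B b d q * M.B d c q)
    (fun d _ => (Sm.B M b d p).mul (Sm.B M d c p))]
  exact Finset.sum_congr rfl fun d _ => dl_mul (Sm.B M b d p) (Sm.B M d c p) a

lemma I1_dB3 (M : Hyp n S) (a b c : Fin (n + 1)) (p : S) :
    M.dl a (M.B3 b c) p =
      ∑ d, (M.B2 b d p * M.dl a (M.B d c) p + M.B d c p * M.dl a (M.B2 b d) p) := by
  have e : M.B3 b c = fun q => ∑ d, M.B2 b d q * M.B d c q := rfl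
  rw [e, dl_sum (M := M) (Z := fun d q => M.B2 b d q * M.B d c q)
    (fun d _ => (Sm.B2 b d p).mul (Sm.B M d c p))]
  exact Finset.sum_congr rfl fun d _ => dl_mul (Sm.B2 b d p) (Sm.B M d c p) a

lemma I1_dtr3 (M : Hyp n S) (a : Fin (n + 1)) (p : S) :
    M.dl a M.tr3 p = ∑ b, M.dl a (M.B3 b b) p := by
  have e : M.tr3 = fun q => ∑ b, M.B3 b b q := rfl
  rw [e, dl_sum (M := M) (Z := fun b q => M.B3 b b q) (fun b _ => Sm.B3 b b p)]

lemma I1_dw (M : Hyp n S) (a : Fin (n + 1)) (p : S) :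
    M.dl a M.w p = ∑ b, ∑ c, 2 * M.B b c p * M.dl a (M.B b c) p := by
  have e : M.w = fun q => ∑ b, ∑ c, (M.B b c q) ^ 2 := rfl
  rw [e, dl_sum (M := M) (Z := fun b q => ∑ c, (M.B b c q) ^ 2)
    (fun b _ => Sm.sum fun c _ => (Sm.B M b c p).pow 2)]
  refine Finset.sum_congr rfl fun b _ => ?_
  rw [dl_sum (M := M) (Z := fun c q => (M.B b c q) ^ 2) (fun c _ => (Sm.B M b c p).pow 2)]
  exact Finset.sum_congr rfl fun c _ => dl_sq (Sm.B M b c p) a

lemma I1_ddw (M : Hyp n S) (a b : Fin (n + 1)) (p : S) :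
    M.dl a (M.dl b M.w) p = ∑ c, ∑ d, (2 * M.B c d p * M.dl a (M.dl b (M.B c d)) p +
      M.dl b (M.B c d) p * (2 * M.dl a (M.B c d) p)) := by
  have e : M.dl b M.w = fun q => ∑ c, ∑ d, 2 * M.B c d q * M.dl b (M.B c d) q := by
    funext q
    exact I1_dw M b q
  have hs : ∀ c d, M.Sm (fun q => 2 * M.B c d q * M.dl b (M.B c d) q) p := fun c d =>
    ((Sm.B M c d p).const_mul 2).mul ((Sm.B M c d p).dl b)
  rw [e, dl_sum (M := M) (Z := fun c q => ∑ d, 2 * M.B c d q * M.dl b (M.B c d) q)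
    (fun c _ => Sm.sum fun d _ => hs c d)]
  refine Finset.sum_congr rfl fun c _ => ?_
  rw [dl_sum (M := M) (Z := fun d q => 2 * M.B c d q * M.dl b (M.B c d) q) (fun d _ => hs c d)]
  refine Finset.sum_congr rfl fun d _ => ?_
  rw [dl_mul ((Sm.B M c d p).const_mul 2) ((Sm.B M c d p).dl b) a,
    dl_const_mul 2 (Sm.B M c d p) a]

/-- `∑_c N_c δ_a B_bc = (B²)_ab` -/
lemma I1_NdB (M : Hyp n S) (a b : Fin (n + 1)) (p : S) :
    ∑ c, M.N p c * M.dl a (M.B b c) p = M.B2 a b p := by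
  have e : (fun q => ∑ c, M.Nc c q * M.B b c q) = fun _ => (0 : ℝ) := by
    funext q
    exact B_N_left' (M := M) b q
  have h1 : M.dl a (fun q => ∑ c, M.Nc c q * M.B b c q) p = 0 := by
    rw [e]
    exact dl_const 0 p a
  rw [dl_sum (M := M) (Z := fun c q => M.Nc c q * M.B b c q)
    (fun c _ => (Sm.Nc M c p).mul (Sm.B M b c p))] at h1
  have h2 : ∀ c, M.dl a (fun q => M.Nc c q * M.B b c q) p =
      M.N p c * M.dl a (M.B b c) p - M.B a c p * M.B c b p := by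
    intro c
    rw [dl_mul (Sm.Nc M c p) (Sm.B M b c p) a, dl_Nc, B_symm c b p]
    show M.N p c * M.dl a (M.B b c) p + M.B b c p * -M.B a c p = _
    ring
  rw [Finset.sum_congr rfl fun c _ => h2 c, Finset.sum_sub_distrib] at h1
  have h3 : M.B2 a b p = ∑ c, M.B a c p * M.B c b p := rfl
  rw [h3]
  linarith

/-- the part of `δ_a Lap B_bc` without second derivatives -/
def I1_G (M : Hyp n S) (p : S) (a b c : Fin (n + 1)) : ℝ :=
  (1 - M.w p) * M.dl a (M.B b c) p - M.B b c p * M.dl a M.w p - 2 * M.dl a (M.B3 b c) p +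
    2 * (M.N p b * M.N p c * M.dl a M.tr3 p - M.tr3 p * M.B a b p * M.N p c
      - M.tr3 p * M.N p b * M.B a c p) - M.dl b M.w p * M.B a c p - M.dl c M.w p * M.B a b p

lemma I1_dLap (hLB : tLB) (M : Hyp n S) (hS : M.Shr) (a b c : Fin (n + 1)) (p : S) :
    M.dl a (M.Lap (M.B b c)) p = I1_G M p a b c +
      (M.N p c * M.dl a (M.dl b M.w) p + M.N p b * M.dl a (M.dl c M.w) p) := by
  have e : M.Lap (M.B b c) = fun q => (1 - M.w q) * M.B b c q - 2 * M.B3 b c q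
      + 2 * M.tr3 q * M.Nc b q * M.Nc c q + M.Nc c q * M.dl b M.w q
      + M.Nc b q * M.dl c M.w q := by
    funext q
    exact hLB n S M hS b c q
  have s1 : M.Sm (fun q => 1 - M.w q) p := (Sm.const M 1 p).sub (Sm.w M p)
  have s2 : M.Sm (fun q => (1 - M.w q) * M.B b c q) p := s1.mul (Sm.B M b c p)
  have s3 : M.Sm (fun q => 2 * M.B3 b c q) p := (Sm.B3 b c p).const_mul 2
  have s4 : M.Sm (fun q => 2 * M.tr3 q) p := (Sm.tr3 p).const_mul 2
  have s5 : M.Sm (fun q => 2 * M.tr3 q * M.Nc b q) p := s4.mul (Sm.Nc M b p)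
  have s6 : M.Sm (fun q => 2 * M.tr3 q * M.Nc b q * M.Nc c q) p := s5.mul (Sm.Nc M c p)
  have s7 : M.Sm (fun q => M.Nc c q * M.dl b M.w q) p := (Sm.Nc M c p).mul ((Sm.w M p).dl b)
  have s8 : M.Sm (fun q => M.Nc b q * M.dl c M.w q) p := (Sm.Nc M b p).mul ((Sm.w M p).dl c)
  rw [e, dl_add (((s2.sub s3).add s6).add s7) s8 a, dl_add ((s2.sub s3).add s6) s7 a,
    dl_add (s2.sub s3) s6 a, dl_sub s2 s3 a, dl_mul s1 (Sm.B M b c p) a,
    dl_sub (Sm.const M 1 p) (Sm.w M p) a, dl_const, dl_const_mul 2 (Sm.B3 b c p) a,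
    dl_mul s5 (Sm.Nc M c p) a, dl_mul s4 (Sm.Nc M b p) a, dl_const_mul 2 (Sm.tr3 p) a,
    dl_mul (Sm.Nc M c p) ((Sm.w M p).dl b) a, dl_mul (Sm.Nc M b p) ((Sm.w M p).dl c) a,
    dl_Nc, dl_Nc]
  have e1 : M.Nc b p = M.N p b := rfl
  have e2 : M.Nc c p = M.N p c := rfl
  rw [e1, e2]
  unfold I1_G
  ring

lemma I1_e1 (M : Hyp n S) (p : S) : M.e1 p = ∑ b, ∑ c, M.gsq (M.B b c) p := by
  unfold Hyp.e1 Hyp.gsq
  rw [Finset.sum_comm]
  refine Finset.sum_congr rfl fun b _ => ?_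
  rw [Finset.sum_comm]

lemma I1_e2 (M : Hyp n S) (p : S) :
    ∑ b, ∑ c, ∑ a, ∑ f, (M.dl f (M.dl a (M.B b c)) p) ^ 2 = M.e2 p := by
  unfold Hyp.e2
  calc ∑ b, ∑ c, ∑ a, ∑ f, (M.dl f (M.dl a (M.B b c)) p) ^ 2
      = ∑ b, ∑ a, ∑ c, ∑ f, (M.dl f (M.dl a (M.B b c)) p) ^ 2 :=
        Finset.sum_congr rfl fun b _ => Finset.sum_comm
    _ = ∑ a, ∑ b, ∑ c, ∑ f, (M.dl f (M.dl a (M.B b c)) p) ^ 2 := Finset.sum_comm
    _ = ∑ a, ∑ b, ∑ f, ∑ c, (M.dl f (M.dl a (M.B b c)) p) ^ 2 :=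
        Finset.sum_congr rfl fun a _ => Finset.sum_congr rfl fun b _ => Finset.sum_comm
    _ = ∑ a, ∑ f, ∑ b, ∑ c, (M.dl f (M.dl a (M.B b c)) p) ^ 2 :=
        Finset.sum_congr rfl fun a _ => Finset.sum_comm
    _ = ∑ f, ∑ a, ∑ b, ∑ c, (M.dl f (M.dl a (M.B b c)) p) ^ 2 := Finset.sum_comm

lemma I1_Lap (hBOC : tBOC) (hLB : tLB) (M : Hyp n S) (hS : M.Shr) (p : S) :
    M.Lap M.e1 p = 2 * M.e2 p + 2 * M.e1 p
      + 2 * ∑ b, ∑ c, ∑ a, M.dl a (M.B b c) p * I1_G M p a b c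
      + 4 * ∑ b, ∑ a, M.B2 a b p * M.dl a (M.dl b M.w) p
      - 4 * ∑ b, ∑ c, ∑ a, ∑ f, M.B2 a f p * M.dl a (M.B b c) p * M.dl f (M.B b c) p := by
  have h0 : M.Lap M.e1 p = ∑ b, ∑ c, M.Lap (M.gsq (M.B b c)) p := by
    have e : M.e1 = fun q => ∑ b, ∑ c, M.gsq (M.B b c) q := by
      funext q
      exact I1_e1 M q
    rw [e, Lap_sum (M := M) (Z := fun b q => ∑ c, M.gsq (M.B b c) q)
      (fun b _ => Sm.sum fun c _ => (Sm.B M b c p).gsq)]
    refine Finset.sum_congr rfl fun b _ => ?_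
    rw [Lap_sum (M := M) (Z := fun c q => M.gsq (M.B b c) q)
      (fun c _ => (Sm.B M b c p).gsq)]
  have h1 : ∀ b c, M.Lap (M.gsq (M.B b c)) p =
      2 * ∑ a, ∑ f, (M.dl f (M.dl a (M.B b c)) p) ^ 2
      + 2 * ((∑ a, M.dl a (M.B b c) p * I1_G M p a b c)
        + ((∑ a, M.dl a (M.dl b M.w) p * (M.N p c * M.dl a (M.B b c) p))
        + ∑ a, M.dl a (M.dl c M.w) p * (M.N p b * M.dl a (M.B b c) p)))
      + 2 * M.gsq (M.B b c) p
      - 4 * ∑ a, ∑ f, M.B2 a f p * M.dl a (M.B b c) p * M.dl f (M.B b c) p := by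
    intro b c
    rw [hBOC n S M hS (M.B b c) p (Sm.B M b c p)]
    have e : ∑ a, M.dl a (M.B b c) p * M.dl a (M.Lap (M.B b c)) p =
        (∑ a, M.dl a (M.B b c) p * I1_G M p a b c)
        + ((∑ a, M.dl a (M.dl b M.w) p * (M.N p c * M.dl a (M.B b c) p))
        + ∑ a, M.dl a (M.dl c M.w) p * (M.N p b * M.dl a (M.B b c) p)) := by
      rw [← Finset.sum_add_distrib, ← Finset.sum_add_distrib]
      refine Finset.sum_congr rfl fun a _ => ?_
      rw [I1_dLap hLB M hS a b c p]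
      ring
    rw [e]
  have h2 : ∑ b, ∑ c, ∑ a, M.dl a (M.dl b M.w) p * (M.N p c * M.dl a (M.B b c) p) =
      ∑ b, ∑ a, M.B2 a b p * M.dl a (M.dl b M.w) p := by
    refine Finset.sum_congr rfl fun b _ => ?_
    rw [Finset.sum_comm]
    refine Finset.sum_congr rfl fun a _ => ?_
    rw [← Finset.mul_sum, I1_NdB M a b p]
    ring
  have h3 : ∑ b, ∑ c, ∑ a, M.dl a (M.dl c M.w) p * (M.N p b * M.dl a (M.B b c) p) =
      ∑ b, ∑ a, M.B2 a b p * M.dl a (M.dl b M.w) p := by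
    rw [Finset.sum_comm]
    refine Finset.sum_congr rfl fun c _ => ?_
    rw [Finset.sum_comm]
    refine Finset.sum_congr rfl fun a _ => ?_
    rw [← Finset.mul_sum]
    have e : ∀ b, M.B b c = M.B c b := fun b => by
      funext q
      exact B_symm b c q
    simp only [e]
    rw [I1_NdB M a c p]
    ring
  rw [h0, Finset.sum_congr rfl fun b _ => Finset.sum_congr rfl fun c _ => h1 b c]
  simp only [Finset.sum_add_distrib, Finset.sum_sub_distrib, ← Finset.mul_sum]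
  rw [I1_e2 M p, ← I1_e1 M p, h2, h3]
  ring

theorem pI1 (hBOC : tBOC) (hLB : tLB) : tI1 := by
  intro n
  refine ⟨1024 * ((n : ℝ) + 1) ^ 10 + 219 * ((n : ℝ) + 1) ^ 6 + 48 * ((n : ℝ) + 1) ^ 5,
    by positivity, ?_⟩
  intro S _ M hS p hw
  set m : ℝ := (n : ℝ) + 1 with hm
  have hm1 : 1 ≤ m := by
    rw [hm]
    have : (0 : ℝ) ≤ n := Nat.cast_nonneg n
    linarith
  have hm0 : 0 ≤ m := by linarith
  set E := M.e1 p with hE
  have hE0 : 0 ≤ E := e1_nonneg p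
  have hF0 : 0 ≤ M.e2 p := e2_nonneg p
  set X := Real.sqrt E with hX
  set Y := Real.sqrt (M.e2 p) with hY
  have hX0 : 0 ≤ X := Real.sqrt_nonneg _
  have hY0 : 0 ≤ Y := Real.sqrt_nonneg _
  have hXX : X ^ 2 = E := Real.sq_sqrt hE0
  have hYY : Y ^ 2 = M.e2 p := Real.sq_sqrt hF0
  -- elementary bounds
  have hw0 : 0 ≤ M.w p := w_nonneg p
  have hx : ∀ a b c, |M.dl a (M.B b c) p| ≤ X := by
    intro a b c
    refine Real.abs_le_sqrt ?_
    calc (M.dl a (M.B b c) p) ^ 2 ≤ ∑ c', (M.dl a (M.B b c') p) ^ 2 :=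
          Finset.single_le_sum (f := fun c' => (M.dl a (M.B b c') p) ^ 2)
            (fun _ _ => sq_nonneg _) (Finset.mem_univ c)
      _ ≤ ∑ b', ∑ c', (M.dl a (M.B b' c') p) ^ 2 :=
          Finset.single_le_sum (f := fun b' => ∑ c', (M.dl a (M.B b' c') p) ^ 2)
            (fun _ _ => Finset.sum_nonneg fun _ _ => sq_nonneg _) (Finset.mem_univ b)
      _ ≤ ∑ a', ∑ b', ∑ c', (M.dl a' (M.B b' c') p) ^ 2 :=
          Finset.single_le_sum (f := fun a' => ∑ b', ∑ c', (M.dl a' (M.B b' c') p) ^ 2)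
            (fun _ _ => Finset.sum_nonneg fun _ _ => Finset.sum_nonneg fun _ _ => sq_nonneg _)
            (Finset.mem_univ a)
  have hy : ∀ a b c d, |M.dl a (M.dl b (M.B c d)) p| ≤ Y := by
    intro a b c d
    refine Real.abs_le_sqrt ?_
    calc (M.dl a (M.dl b (M.B c d)) p) ^ 2 ≤ ∑ d', (M.dl a (M.dl b (M.B c d')) p) ^ 2 :=
          Finset.single_le_sum (f := fun d' => (M.dl a (M.dl b (M.B c d')) p) ^ 2)
            (fun _ _ => sq_nonneg _) (Finset.mem_univ d)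
      _ ≤ ∑ c', ∑ d', (M.dl a (M.dl b (M.B c' d')) p) ^ 2 :=
          Finset.single_le_sum (f := fun c' => ∑ d', (M.dl a (M.dl b (M.B c' d')) p) ^ 2)
            (fun _ _ => Finset.sum_nonneg fun _ _ => sq_nonneg _) (Finset.mem_univ c)
      _ ≤ ∑ b', ∑ c', ∑ d', (M.dl a (M.dl b' (M.B c' d')) p) ^ 2 :=
          Finset.single_le_sum
            (f := fun b' => ∑ c', ∑ d', (M.dl a (M.dl b' (M.B c' d')) p) ^ 2)
            (fun _ _ => Finset.sum_nonneg fun _ _ => Finset.sum_nonneg fun _ _ => sq_nonneg _)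
            (Finset.mem_univ b)
      _ ≤ ∑ a', ∑ b', ∑ c', ∑ d', (M.dl a' (M.dl b' (M.B c' d')) p) ^ 2 :=
          Finset.single_le_sum
            (f := fun a' => ∑ b', ∑ c', ∑ d', (M.dl a' (M.dl b' (M.B c' d')) p) ^ 2)
            (fun _ _ => Finset.sum_nonneg fun _ _ => Finset.sum_nonneg fun _ _ =>
              Finset.sum_nonneg fun _ _ => sq_nonneg _)
            (Finset.mem_univ a)
  have hB : ∀ a b, |M.B a b p| ≤ 2 := by
    intro a b
    have h1 : (M.B a b p) ^ 2 ≤ M.w p := by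
      calc (M.B a b p) ^ 2 ≤ ∑ b', (M.B a b' p) ^ 2 :=
            Finset.single_le_sum (f := fun b' => (M.B a b' p) ^ 2)
              (fun _ _ => sq_nonneg _) (Finset.mem_univ b)
        _ ≤ ∑ a', ∑ b', (M.B a' b' p) ^ 2 :=
            Finset.single_le_sum (f := fun a' => ∑ b', (M.B a' b' p) ^ 2)
              (fun _ _ => Finset.sum_nonneg fun _ _ => sq_nonneg _) (Finset.mem_univ a)
    exact abs_le_of_sq_le_sq (by nlinarith) (by norm_num)
  have hN : ∀ a, |M.N p a| ≤ 1 := by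
    intro a
    have h1 : (M.N p a) ^ 2 ≤ 1 := by
      have h2 := M.sum_NN p
      have h3 : (M.N p a) * (M.N p a) ≤ ∑ a', M.N p a' * M.N p a' :=
        Finset.single_le_sum (f := fun a' => M.N p a' * M.N p a')
          (fun _ _ => mul_self_nonneg _) (Finset.mem_univ a)
      nlinarith
    exact abs_le_of_sq_le_sq (by nlinarith) (by norm_num)
  have hB2 : ∀ a b, |M.B2 a b p| ≤ 4 * m := by
    intro a b
    have h1 := I1_sum (fun c => M.B a c p * M.B c b p) (2 * 2) fun c => I1_mul (hB a c) (hB c b)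
    calc |M.B2 a b p| ≤ m * (2 * 2) := h1
      _ = 4 * m := by ring
  have hB3 : ∀ a b, |M.B3 a b p| ≤ 8 * m ^ 2 := by
    intro a b
    have h1 := I1_sum (fun c => M.B2 a c p * M.B c b p) (4 * m * 2)
      fun c => I1_mul (hB2 a c) (hB c b)
    calc |M.B3 a b p| ≤ m * (4 * m * 2) := h1
      _ = 8 * m ^ 2 := by ring
  have htr : |M.tr3 p| ≤ 8 * m ^ 3 := by
    have h1 := I1_sum (fun c => M.B3 c c p) (8 * m ^ 2) fun c => hB3 c c
    calc |M.tr3 p| ≤ m * (8 * m ^ 2) := h1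
      _ = 8 * m ^ 3 := by ring
  have hdw : ∀ a, |M.dl a M.w p| ≤ 4 * m ^ 2 * X := by
    intro a
    rw [I1_dw M a p]
    have h1 := I1_sum (fun b => ∑ c, 2 * M.B b c p * M.dl a (M.B b c) p) (m * (2 * 2 * X))
      fun b => I1_sum (fun c => 2 * M.B b c p * M.dl a (M.B b c) p) (2 * 2 * X) fun c =>
        I1_mul (I1_mul (by rw [abs_of_pos (by norm_num : (0:ℝ) < 2)]) (hB b c)) (hx a b c)
    refine h1.trans (le_of_eq ?_)
    rw [← hm]; ring
  have hdB2 : ∀ a b c, |M.dl a (M.B2 b c) p| ≤ 4 * m * X := by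
    intro a b c
    rw [I1_dB2 M a b c p]
    have h1 := I1_sum
      (fun d => M.B b d p * M.dl a (M.B d c) p + M.B d c p * M.dl a (M.B b d) p)
      (2 * X + 2 * X) fun d => I1_add (I1_mul (hB b d) (hx a d c)) (I1_mul (hB d c) (hx a b d))
    refine h1.trans (le_of_eq ?_)
    rw [← hm]; ring
  have hdB3 : ∀ a b c, |M.dl a (M.B3 b c) p| ≤ 12 * m ^ 2 * X := by
    intro a b c
    rw [I1_dB3 M a b c p]
    have h1 := I1_sum
      (fun d => M.B2 b d p * M.dl a (M.B d c) p + M.B d c p * M.dl a (M.B2 b d) p)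
      (4 * m * X + 2 * (4 * m * X)) fun d =>
        I1_add (I1_mul (hB2 b d) (hx a d c)) (I1_mul (hB d c) (hdB2 a b d))
    refine h1.trans (le_of_eq ?_)
    rw [← hm]; ring
  have hdtr : ∀ a, |M.dl a M.tr3 p| ≤ 12 * m ^ 3 * X := by
    intro a
    rw [I1_dtr3 M a p]
    have h1 := I1_sum (fun b => M.dl a (M.B3 b b) p) (12 * m ^ 2 * X) fun b => hdB3 a b b
    refine h1.trans (le_of_eq ?_)
    rw [← hm]; ring
  have hddw : ∀ a b, |M.dl a (M.dl b M.w) p| ≤ 2 * m ^ 2 * (E + 2 * Y) := by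
    intro a b
    rw [I1_ddw M a b p]
    have h1 := I1_sum (fun c => ∑ d, (2 * M.B c d p * M.dl a (M.dl b (M.B c d)) p +
        M.dl b (M.B c d) p * (2 * M.dl a (M.B c d) p))) (m * (2 * 2 * Y + X * (2 * X)))
      fun c => I1_sum (fun d => 2 * M.B c d p * M.dl a (M.dl b (M.B c d)) p +
        M.dl b (M.B c d) p * (2 * M.dl a (M.B c d) p)) (2 * 2 * Y + X * (2 * X)) fun d =>
        I1_add (I1_mul (I1_mul (by rw [abs_of_pos (by norm_num : (0:ℝ) < 2)]) (hB c d))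
          (hy a b c d))
          (I1_mul (hx b c d) (I1_mul (by rw [abs_of_pos (by norm_num : (0:ℝ) < 2)]) (hx a c d)))
    refine h1.trans (le_of_eq ?_)
    rw [← hm, ← hXX]; ring
  -- the lower order part
  have hG : ∀ a b c, |I1_G M p a b c| ≤ 73 * m ^ 3 * (1 + X) := by
    intro a b c
    have t1 : |(1 - M.w p) * M.dl a (M.B b c) p| ≤ 1 * X :=
      I1_mul (abs_le.2 ⟨by linarith, by linarith⟩) (hx a b c)
    have t2 : |M.B b c p * M.dl a M.w p| ≤ 2 * (4 * m ^ 2 * X) := I1_mul (hB b c) (hdw a)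
    have t3 := hdB3 a b c
    have t4 : |M.N p b * M.N p c * M.dl a M.tr3 p| ≤ 1 * 1 * (12 * m ^ 3 * X) :=
      I1_mul (I1_mul (hN b) (hN c)) (hdtr a)
    have t5 : |M.tr3 p * M.B a b p * M.N p c| ≤ 8 * m ^ 3 * 2 * 1 :=
      I1_mul (I1_mul htr (hB a b)) (hN c)
    have t6 : |M.tr3 p * M.N p b * M.B a c p| ≤ 8 * m ^ 3 * 1 * 2 :=
      I1_mul (I1_mul htr (hN b)) (hB a c)
    have t7 : |M.dl b M.w p * M.B a c p| ≤ 4 * m ^ 2 * X * 2 := I1_mul (hdw b) (hB a c)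
    have t8 : |M.dl c M.w p * M.B a b p| ≤ 4 * m ^ 2 * X * 2 := I1_mul (hdw c) (hB a b)
    have hm3 : 1 ≤ m ^ 3 := one_le_pow₀ hm1
    have hm23 : m ^ 2 ≤ m ^ 3 := pow_le_pow_right₀ hm1 (by norm_num)
    have k1 : X ≤ m ^ 3 * X := le_mul_of_one_le_left hX0 hm3
    have k2 : m ^ 2 * X ≤ m ^ 3 * X := mul_le_mul_of_nonneg_right hm23 hX0
    unfold I1_G
    rw [abs_le] at t1 t2 t3 t4 t5 t6 t7 t8 ⊢
    constructor
    · nlinarith [t1.1, t1.2, t2.1, t2.2, t3.1, t3.2, t4.1, t4.2, t5.1, t5.2, t6.1, t6.2, t7.1,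
        t7.2, t8.1, t8.2]
    · nlinarith [t1.1, t1.2, t2.1, t2.2, t3.1, t3.2, t4.1, t4.2, t5.1, t5.2, t6.1, t6.2, t7.1,
        t7.2, t8.1, t8.2]
  -- the three sums
  have hS1 : |∑ b, ∑ c, ∑ a, M.dl a (M.B b c) p * I1_G M p a b c| ≤
      m * (m * (m * (X * (73 * m ^ 3 * (1 + X))))) :=
    I1_sum _ _ fun b => I1_sum _ _ fun c => I1_sum _ _ fun a => I1_mul (hx a b c) (hG a b c)
  have hS2 : |∑ b, ∑ a, M.B2 a b p * M.dl a (M.dl b M.w) p| ≤
      m * (m * (4 * m * (2 * m ^ 2 * (E + 2 * Y)))) :=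
    I1_sum _ _ fun b => I1_sum _ _ fun a => I1_mul (hB2 a b) (hddw a b)
  have hS3 : |∑ b, ∑ c, ∑ a, ∑ f, M.B2 a f p * M.dl a (M.B b c) p * M.dl f (M.B b c) p| ≤
      m * (m * (m * (m * (4 * m * X * X)))) :=
    I1_sum _ _ fun b => I1_sum _ _ fun c => I1_sum _ _ fun a => I1_sum _ _ fun f =>
      I1_mul (I1_mul (hB2 a f) (hx a b c)) (hx f b c)
  rw [I1_Lap hBOC hLB M hS p, ← hE]
  have q1 : m * (m * (m * (X * (73 * m ^ 3 * (1 + X))))) = 73 * m ^ 6 * (X + E) := by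
    rw [← hXX]; ring
  have q2 : m * (m * (4 * m * (2 * m ^ 2 * (E + 2 * Y)))) = 8 * m ^ 5 * (E + 2 * Y) := by ring
  have q3 : m * (m * (m * (m * (4 * m * X * X)))) = 4 * m ^ 5 * E := by
    rw [← hXX]; ring
  rw [q1, abs_le] at hS1
  rw [q2, abs_le] at hS2
  rw [q3, abs_le] at hS3
  have r1 : m ^ 6 * X ≤ m ^ 6 * ((1 + E) / 2) := by
    refine mul_le_mul_of_nonneg_left ?_ (by positivity)
    nlinarith [sq_nonneg (X - 1)]
  have r2 : 0 ≤ (Y - 32 * m ^ 5) ^ 2 := sq_nonneg _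
  have r3 : (Y - 32 * m ^ 5) ^ 2 = M.e2 p - 64 * m ^ 5 * Y + 1024 * m ^ 10 := by
    rw [← hYY]; ring
  rw [r3] at r2
  have r4 : 0 ≤ m ^ 10 * E := by positivity
  have r5 : 0 ≤ m ^ 6 := by positivity
  have r6 : 0 ≤ m ^ 5 := by positivity
  nlinarith [hS1.1, hS2.1, hS3.2]

end

end Pool.Agent.ShG
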