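import Pool.Agent.ShG.Targets

/-!
# ShG-I2: lower bound for the drift Laplacian of `|DDB|²`

Bookkeeping by a syntactic type of differential polynomials in `N`, `B` with a weight.
-/

namespace Pool.Agent.ShG

open scoped BigOperators Topology ContDiff
open Set Filter

noncomputable section

/-- differential polynomials in `N` and `B` -/
inductive I2_Ex (n : ℕ) : Type
  | const (c : ℝ) : I2_Ex n
  | N (a : Fin (n + 1)) : I2_Ex n
  | D (l : List (Fin (n + 1))) (b c : Fin (n + 1)) : I2_Ex n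
  | add (x y : I2_Ex n) : I2_Ex n
  | mul (x y : I2_Ex n) : I2_Ex n
  | sum (f : Fin (n + 1) → I2_Ex n) : I2_Ex n

namespace I2_Ex

variable {n : ℕ} {S : Type} [TopologicalSpace S]

/-- the weight: number of derivatives of `B` -/
def wt : I2_Ex n → ℕ
  | const _ => 0
  | N _ => 0
  | D l _ _ => l.length
  | add x y => max x.wt y.wt
  | mul x y => x.wt + y.wt
  | sum f => Finset.univ.sup fun i => (f i).wt

/-- evaluation -/
def ev (M : Hyp n S) : I2_Ex n → S → ℝ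
  | const c => fun _ => c
  | N a => M.Nc a
  | D l b c => l.foldr M.dl (M.B b c)
  | add x y => fun q => x.ev M q + y.ev M q
  | mul x y => fun q => x.ev M q * y.ev M q
  | sum f => fun q => ∑ i, (f i).ev M q

/-- derivative -/
def d (a : Fin (n + 1)) : I2_Ex n → I2_Ex n
  | const _ => const 0
  | N b => mul (const (-1)) (D [] a b)
  | D l b c => D (a :: l) b c
  | add x y => add (d a x) (d a y)
  | mul x y => add (mul x (d a y)) (mul y (d a x))
  | sum f => sum fun i => d a (f i)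

theorem sm (M : Hyp n S) (x : I2_Ex n) : ∀ p, M.Sm (x.ev M) p := by
  induction x with
  | const c => exact fun p => Hyp.Sm.const M c p
  | N a => exact fun p => Hyp.Sm.Nc M a p
  | D l b c =>
    induction l with
    | nil => exact fun p => Hyp.Sm.B M b c p
    | cons a l ih => exact fun p => (ih p).dl a
  | add x y hx hy => exact fun p => (hx p).add (hy p)
  | mul x y hx hy => exact fun p => (hx p).mul (hy p)
  | sum f hf => exact fun p => Hyp.Sm.sum fun i _ => hf i p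

theorem ev_d (M : Hyp n S) (a : Fin (n + 1)) (x : I2_Ex n) :
    M.dl a (x.ev M) = (x.d a).ev M := by
  induction x with
  | const c =>
    funext p
    exact Hyp.dl_const c p a
  | N b =>
    funext p
    show M.dl a (M.Nc b) p = -1 * M.B a b p
    rw [Hyp.dl_Nc]
    ring
  | D l b c => rfl
  | add x y hx hy =>
    funext p
    show M.dl a (fun q => x.ev M q + y.ev M q) p = (x.d a).ev M p + (y.d a).ev M p
    rw [Hyp.dl_add (sm M x p) (sm M y p), hx, hy]
  | mul x y hx hy =>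
    funext p
    show M.dl a (fun q => x.ev M q * y.ev M q) p
      = x.ev M p * (y.d a).ev M p + y.ev M p * (x.d a).ev M p
    rw [Hyp.dl_mul (sm M x p) (sm M y p), hx, hy]
  | sum f hf =>
    funext p
    show M.dl a (fun q => ∑ i, (f i).ev M q) p = ∑ i, ((f i).d a).ev M p
    rw [Hyp.dl_sum (fun i _ => sm M (f i) p)]
    refine Finset.sum_congr rfl fun i _ => ?_
    rw [hf i]

theorem wt_sum {f : Fin (n + 1) → I2_Ex n} {k : ℕ} (h : ∀ i, (f i).wt ≤ k) :
    (sum f).wt ≤ k := Finset.sup_le fun i _ => h i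

theorem wt_d (a : Fin (n + 1)) (x : I2_Ex n) : (x.d a).wt ≤ x.wt + 1 := by
  induction x with
  | const c => exact Nat.zero_le _
  | N b => exact Nat.zero_le _
  | D l b c => exact le_rfl
  | add x y hx hy =>
    show max (x.d a).wt (y.d a).wt ≤ max x.wt y.wt + 1
    omega
  | mul x y hx hy =>
    show max (x.wt + (y.d a).wt) (y.wt + (x.d a).wt) ≤ x.wt + y.wt + 1
    omega
  | sum f hf =>
    refine wt_sum fun i => (hf i).trans ?_
    have : (f i).wt ≤ Finset.univ.sup fun i => (f i).wt :=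
      Finset.le_sup (f := fun i => (f i).wt) (Finset.mem_univ i)
    show (f i).wt + 1 ≤ (Finset.univ.sup fun i => (f i).wt) + 1
    omega

end I2_Ex

/-- the size of a term of weight `k` -/
def I2_E (s r : ℝ) : ℕ → ℝ
  | 0 => 1
  | 1 => 1
  | 2 => 1 + s
  | _ => 1 + s + r

lemma I2_E_mono {s r : ℝ} (hs : 0 ≤ s) (hr : 0 ≤ r) {k l : ℕ} (h : k ≤ l) (hl : l ≤ 3) :
    I2_E s r k ≤ I2_E s r l := by
  have h1 : k = 0 ∨ k = 1 ∨ k = 2 ∨ k = 3 := by omega
  have h2 : l = 0 ∨ l = 1 ∨ l = 2 ∨ l = 3 := by omega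
  rcases h1 with rfl | rfl | rfl | rfl <;> rcases h2 with rfl | rfl | rfl | rfl <;>
    first
      | omega
      | (simp only [I2_E]; linarith)

lemma I2_E_pos {s r : ℝ} (hs : 0 ≤ s) (hr : 0 ≤ r) {k : ℕ} (hk : k ≤ 3) : 0 ≤ I2_E s r k := by
  have := I2_E_mono hs hr (Nat.zero_le k) hk
  have h0 : I2_E s r 0 = 1 := rfl
  linarith

lemma I2_E_mul {s r : ℝ} (hs : 0 ≤ s) (hr : 0 ≤ r) {k l : ℕ} (h : k + l ≤ 3) :
    I2_E s r k * I2_E s r l ≤ I2_E s r (k + l) := by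
  have h1 : k = 0 ∨ k = 1 ∨ k = 2 ∨ k = 3 := by omega
  have h2 : l = 0 ∨ l = 1 ∨ l = 2 ∨ l = 3 := by omega
  rcases h1 with rfl | rfl | rfl | rfl <;> rcases h2 with rfl | rfl | rfl | rfl <;>
    first
      | omega
      | (simp only [I2_E]; nlinarith)

section bounds

variable {n : ℕ} {S : Type} [TopologicalSpace S]

lemma I2_N (M : Hyp n S) (a : Fin (n + 1)) (p : S) : |M.Nc a p| ≤ 1 := by
  rw [← sq_le_one_iff_abs_le_one, ← M.sum_NN p]
  have := Finset.single_le_sum (f := fun b => M.N p b * M.N p b)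
    (fun b _ => mul_self_nonneg (M.N p b)) (Finset.mem_univ a)
  refine le_trans (le_of_eq ?_) this
  show (M.N p a) ^ 2 = M.N p a * M.N p a
  ring

lemma I2_B (M : Hyp n S) (a b : Fin (n + 1)) (p : S) (h : M.w p ≤ 2) : |M.B a b p| ≤ 2 := by
  apply abs_le_of_sq_le_sq _ (by norm_num)
  have h1 : (M.B a b p) ^ 2 ≤ M.w p := by
    refine le_trans ?_ (Finset.single_le_sum (f := fun a => ∑ b, (M.B a b p) ^ 2)
      (fun a _ => Finset.sum_nonneg fun b _ => sq_nonneg _) (Finset.mem_univ a))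
    exact Finset.single_le_sum (f := fun b => (M.B a b p) ^ 2)
      (fun b _ => sq_nonneg _) (Finset.mem_univ b)
  linarith

lemma I2_DB (M : Hyp n S) (a b c : Fin (n + 1)) (p : S) :
    (M.dl a (M.B b c) p) ^ 2 ≤ M.e1 p := by
  refine le_trans ?_ (Finset.single_le_sum (f := fun a => ∑ b, ∑ c, (M.dl a (M.B b c) p) ^ 2)
    (fun a _ => Finset.sum_nonneg fun b _ => Finset.sum_nonneg fun c _ => sq_nonneg _)
    (Finset.mem_univ a))
  refine le_trans ?_ (Finset.single_le_sum (f := fun b => ∑ c, (M.dl a (M.B b c) p) ^ 2)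
    (fun b _ => Finset.sum_nonneg fun c _ => sq_nonneg _) (Finset.mem_univ b))
  exact Finset.single_le_sum (f := fun c => (M.dl a (M.B b c) p) ^ 2)
    (fun c _ => sq_nonneg _) (Finset.mem_univ c)

lemma I2_DDB (M : Hyp n S) (a b c d : Fin (n + 1)) (p : S) :
    (M.dl a (M.dl b (M.B c d)) p) ^ 2 ≤ M.e2 p := by
  refine le_trans ?_ (Finset.single_le_sum
    (f := fun a => ∑ b, ∑ c, ∑ d, (M.dl a (M.dl b (M.B c d)) p) ^ 2)
    (fun a _ => Finset.sum_nonneg fun b _ => Finset.sum_nonneg fun c _ =>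
      Finset.sum_nonneg fun d _ => sq_nonneg _) (Finset.mem_univ a))
  refine le_trans ?_ (Finset.single_le_sum
    (f := fun b => ∑ c, ∑ d, (M.dl a (M.dl b (M.B c d)) p) ^ 2)
    (fun b _ => Finset.sum_nonneg fun c _ => Finset.sum_nonneg fun d _ => sq_nonneg _)
    (Finset.mem_univ b))
  refine le_trans ?_ (Finset.single_le_sum
    (f := fun c => ∑ d, (M.dl a (M.dl b (M.B c d)) p) ^ 2)
    (fun c _ => Finset.sum_nonneg fun d _ => sq_nonneg _) (Finset.mem_univ c))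
  exact Finset.single_le_sum (f := fun d => (M.dl a (M.dl b (M.B c d)) p) ^ 2)
    (fun d _ => sq_nonneg _) (Finset.mem_univ d)

lemma I2_DDDB (M : Hyp n S) (f a b c d : Fin (n + 1)) (p : S) :
    (M.dl f (M.dl a (M.dl b (M.B c d))) p) ^ 2 ≤ M.e3 p := by
  refine le_trans ?_ (Finset.single_le_sum
    (f := fun f => ∑ a, ∑ b, ∑ c, ∑ d, (M.dl f (M.dl a (M.dl b (M.B c d))) p) ^ 2)
    (fun f _ => Finset.sum_nonneg fun a _ => Finset.sum_nonneg fun b _ =>
      Finset.sum_nonneg fun c _ => Finset.sum_nonneg fun d _ => sq_nonneg _) (Finset.mem_univ f))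
  refine le_trans ?_ (Finset.single_le_sum
    (f := fun a => ∑ b, ∑ c, ∑ d, (M.dl f (M.dl a (M.dl b (M.B c d))) p) ^ 2)
    (fun a _ => Finset.sum_nonneg fun b _ => Finset.sum_nonneg fun c _ =>
      Finset.sum_nonneg fun d _ => sq_nonneg _) (Finset.mem_univ a))
  refine le_trans ?_ (Finset.single_le_sum
    (f := fun b => ∑ c, ∑ d, (M.dl f (M.dl a (M.dl b (M.B c d))) p) ^ 2)
    (fun b _ => Finset.sum_nonneg fun c _ => Finset.sum_nonneg fun d _ => sq_nonneg _)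
    (Finset.mem_univ b))
  refine le_trans ?_ (Finset.single_le_sum
    (f := fun c => ∑ d, (M.dl f (M.dl a (M.dl b (M.B c d))) p) ^ 2)
    (fun c _ => Finset.sum_nonneg fun d _ => sq_nonneg _) (Finset.mem_univ c))
  exact Finset.single_le_sum (f := fun d => (M.dl f (M.dl a (M.dl b (M.B c d))) p) ^ 2)
    (fun d _ => sq_nonneg _) (Finset.mem_univ d)

end bounds

/-- every differential polynomial of weight at most 3 is bounded by its size -/
theorem I2_bound (n : ℕ) (C1 : ℝ) (x : I2_Ex n) (hx : x.wt ≤ 3) : ∃ C : ℝ, 0 ≤ C ∧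
    ∀ (S : Type) [TopologicalSpace S] (M : Hyp n S) (p : S), M.w p ≤ 2 → M.e1 p ≤ C1 →
      |x.ev M p| ≤ C * I2_E (Real.sqrt (M.e2 p)) (Real.sqrt (M.e3 p)) x.wt := by
  induction x with
  | const c =>
    refine ⟨|c|, abs_nonneg c, fun S _ M p _ _ => ?_⟩
    show |c| ≤ |c| * 1
    rw [mul_one]
  | N a =>
    refine ⟨1, zero_le_one, fun S _ M p _ _ => ?_⟩
    show |M.Nc a p| ≤ 1 * 1
    rw [mul_one]
    exact I2_N M a p
  | D l b c =>
    match l, hx with
    | [], _ =>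
      refine ⟨2, by norm_num, fun S _ M p hw _ => ?_⟩
      show |M.B b c p| ≤ 2 * 1
      rw [mul_one]
      exact I2_B M b c p hw
    | [a], _ =>
      refine ⟨Real.sqrt C1, Real.sqrt_nonneg _, fun S _ M p _ he => ?_⟩
      show |M.dl a (M.B b c) p| ≤ Real.sqrt C1 * 1
      rw [mul_one]
      exact Real.abs_le_sqrt ((I2_DB M a b c p).trans he)
    | [a, a'], _ =>
      refine ⟨1, zero_le_one, fun S _ M p _ _ => ?_⟩
      show |M.dl a (M.dl a' (M.B b c)) p| ≤ 1 * (1 + Real.sqrt (M.e2 p))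
      have := Real.abs_le_sqrt (I2_DDB M a a' b c p)
      linarith
    | [a, a', a''], _ =>
      refine ⟨1, zero_le_one, fun S _ M p _ _ => ?_⟩
      show |M.dl a (M.dl a' (M.dl a'' (M.B b c))) p|
        ≤ 1 * (1 + Real.sqrt (M.e2 p) + Real.sqrt (M.e3 p))
      have := Real.abs_le_sqrt (I2_DDDB M a a' a'' b c p)
      have := Real.sqrt_nonneg (M.e2 p)
      linarith
    | _ :: _ :: _ :: _ :: _, hx =>
      exfalso
      simp only [I2_Ex.wt, List.length_cons] at hx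
      omega
  | add x y ihx ihy =>
    have hm : max x.wt y.wt ≤ 3 := hx
    obtain ⟨C, hC, h1⟩ := ihx (by omega)
    obtain ⟨C', hC', h2⟩ := ihy (by omega)
    refine ⟨C + C', by positivity, fun S _ M p hw he => ?_⟩
    have hs := Real.sqrt_nonneg (M.e2 p)
    have hr := Real.sqrt_nonneg (M.e3 p)
    have m1 := I2_E_mono hs hr (le_max_left x.wt y.wt) hm
    have m2 := I2_E_mono hs hr (le_max_right x.wt y.wt) hm
    show |x.ev M p + y.ev M p| ≤ (C + C') * I2_E _ _ (max x.wt y.wt)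
    calc |x.ev M p + y.ev M p| ≤ |x.ev M p| + |y.ev M p| := abs_add_le _ _
      _ ≤ C * I2_E (Real.sqrt (M.e2 p)) (Real.sqrt (M.e3 p)) x.wt
          + C' * I2_E (Real.sqrt (M.e2 p)) (Real.sqrt (M.e3 p)) y.wt :=
        add_le_add (h1 S M p hw he) (h2 S M p hw he)
      _ ≤ C * I2_E (Real.sqrt (M.e2 p)) (Real.sqrt (M.e3 p)) (max x.wt y.wt)
          + C' * I2_E (Real.sqrt (M.e2 p)) (Real.sqrt (M.e3 p)) (max x.wt y.wt) :=
        add_le_add (mul_le_mul_of_nonneg_left m1 hC) (mul_le_mul_of_nonneg_left m2 hC')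
      _ = _ := by ring
  | mul x y ihx ihy =>
    have hm : x.wt + y.wt ≤ 3 := hx
    obtain ⟨C, hC, h1⟩ := ihx (by omega)
    obtain ⟨C', hC', h2⟩ := ihy (by omega)
    refine ⟨C * C', by positivity, fun S _ M p hw he => ?_⟩
    have hs := Real.sqrt_nonneg (M.e2 p)
    have hr := Real.sqrt_nonneg (M.e3 p)
    have m1 := I2_E_mul hs hr hm
    have p1 := I2_E_pos hs hr (show x.wt ≤ 3 by omega)
    show |x.ev M p * y.ev M p| ≤ (C * C') * I2_E _ _ (x.wt + y.wt)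
    rw [abs_mul]
    calc |x.ev M p| * |y.ev M p|
        ≤ (C * I2_E (Real.sqrt (M.e2 p)) (Real.sqrt (M.e3 p)) x.wt)
          * (C' * I2_E (Real.sqrt (M.e2 p)) (Real.sqrt (M.e3 p)) y.wt) :=
        mul_le_mul (h1 S M p hw he) (h2 S M p hw he) (abs_nonneg _) (by positivity)
      _ = C * C' * (I2_E (Real.sqrt (M.e2 p)) (Real.sqrt (M.e3 p)) x.wt
          * I2_E (Real.sqrt (M.e2 p)) (Real.sqrt (M.e3 p)) y.wt) := by ring
      _ ≤ _ := mul_le_mul_of_nonneg_left m1 (by positivity)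
  | sum f ih =>
    have hm : ∀ i, (f i).wt ≤ (I2_Ex.sum f).wt := fun i =>
      Finset.le_sup (f := fun i => (f i).wt) (Finset.mem_univ i)
    have hc : ∀ i, ∃ C : ℝ, 0 ≤ C ∧
        ∀ (S : Type) [TopologicalSpace S] (M : Hyp n S) (p : S), M.w p ≤ 2 → M.e1 p ≤ C1 →
          |(f i).ev M p| ≤ C * I2_E (Real.sqrt (M.e2 p)) (Real.sqrt (M.e3 p)) (f i).wt :=
      fun i => ih i ((hm i).trans hx)
    choose C hC hb using hc
    refine ⟨∑ i, C i, Finset.sum_nonneg fun i _ => hC i, fun S _ M p hw he => ?_⟩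
    have hs := Real.sqrt_nonneg (M.e2 p)
    have hr := Real.sqrt_nonneg (M.e3 p)
    show |∑ i, (f i).ev M p| ≤ _
    rw [Finset.sum_mul]
    refine (Finset.abs_sum_le_sum_abs _ _).trans (Finset.sum_le_sum fun i _ => ?_)
    exact (hb i S M p hw he).trans
      (mul_le_mul_of_nonneg_left (I2_E_mono hs hr (hm i) hx) (hC i))

section special

variable {n : ℕ} {S : Type} [TopologicalSpace S]

open I2_Ex

/-- `(B²)_ab` -/
def I2_B2 (a b : Fin (n + 1)) : I2_Ex n := I2_Ex.sum fun c => mul (D [] a c) (D [] c b)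
/-- `(B³)_ab` -/
def I2_B3 (a b : Fin (n + 1)) : I2_Ex n := I2_Ex.sum fun c => mul (I2_B2 a c) (D [] c b)
/-- `tr B³` -/
def I2_tr3 : I2_Ex n := I2_Ex.sum fun a => I2_B3 a a
/-- `w` -/
def I2_w : I2_Ex n := I2_Ex.sum fun a => I2_Ex.sum fun b => mul (D [] a b) (D [] a b)

/-- `Lap B_ab` -/
def I2_LB (a b : Fin (n + 1)) : I2_Ex n :=
  add (add (add (add (mul (add (const 1) (mul (const (-1)) I2_w)) (D [] a b))
    (mul (const (-2)) (I2_B3 a b))) (mul (mul (mul (const 2) I2_tr3) (N a)) (N b)))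
    (mul (N b) (I2_w.d a))) (mul (N a) (I2_w.d b))

/-- `Lap (δ_b B_cd)` -/
def I2_LZ (b c d : Fin (n + 1)) : I2_Ex n :=
  add (add (add ((I2_LB c d).d b) (D [b] c d))
    (mul (const (-2)) (I2_Ex.sum fun e => mul (I2_B2 b e) (D [e] c d))))
    (mul (mul (const 2) (N b))
      (I2_Ex.sum fun e => I2_Ex.sum fun f => mul (D [] e f) (D [e, f] c d)))

lemma I2_w_ev (M : Hyp n S) : I2_w.ev M = M.w := by
  funext q
  show ∑ a, ∑ b, M.B a b q * M.B a b q = ∑ a, ∑ b, (M.B a b q) ^ 2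
  refine Finset.sum_congr rfl fun a _ => Finset.sum_congr rfl fun b _ => ?_
  ring

lemma I2_w_wt : (I2_w : I2_Ex n).wt ≤ 0 := wt_sum fun _ => wt_sum fun _ => le_rfl

lemma I2_B2_wt (a b : Fin (n + 1)) : (I2_B2 a b).wt ≤ 0 := wt_sum fun _ => le_rfl

lemma I2_B3_wt (a b : Fin (n + 1)) : (I2_B3 a b).wt ≤ 0 := wt_sum fun c => by
  show (I2_B2 a c).wt + 0 ≤ 0
  exact I2_B2_wt a c

lemma I2_tr3_wt : (I2_tr3 : I2_Ex n).wt ≤ 0 := wt_sum fun a => I2_B3_wt a a

lemma I2_LB_ev (hLB : tLB) (M : Hyp n S) (hM : M.Shr) (a b : Fin (n + 1)) :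
    M.Lap (M.B a b) = (I2_LB a b).ev M := by
  funext p
  rw [hLB n S M hM a b p]
  show _ = (1 + -1 * I2_w.ev M p) * M.B a b p + -2 * M.B3 a b p + 2 * M.tr3 p * M.N p a * M.N p b
    + M.N p b * (I2_w.d a).ev M p + M.N p a * (I2_w.d b).ev M p
  rw [← ev_d, ← ev_d, I2_w_ev]
  ring

lemma I2_LB_wt (a b : Fin (n + 1)) : (I2_LB a b).wt ≤ 1 := by
  have h1 := I2_w_wt (n := n)
  have h2 := I2_B3_wt a b
  have h3 := I2_tr3_wt (n := n)
  have h4 := wt_d a (I2_w : I2_Ex n)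
  have h5 := wt_d b (I2_w : I2_Ex n)
  show max (max (max (max (max 0 (0 + (I2_w : I2_Ex n).wt) + 0) (0 + (I2_B3 a b).wt))
    (0 + (I2_tr3 : I2_Ex n).wt + 0 + 0)) (0 + ((I2_w : I2_Ex n).d a).wt))
    (0 + ((I2_w : I2_Ex n).d b).wt) ≤ 1
  omega

lemma I2_LZ_ev (hCOM : tCOM) (hLB : tLB) (M : Hyp n S) (hM : M.Shr) (b c d : Fin (n + 1)) :
    M.Lap (M.dl b (M.B c d)) = (I2_LZ b c d).ev M := by
  funext p
  rw [hCOM n S M hM (M.B c d) p (Hyp.Sm.B M c d p) b, I2_LB_ev hLB M hM c d, ev_d]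
  show _ = ((I2_LB c d).d b).ev M p + M.dl b (M.B c d) p
    + -2 * (∑ e, M.B2 b e p * M.dl e (M.B c d) p)
    + 2 * M.N p b * (∑ e, ∑ f, M.B e f p * M.dl e (M.dl f (M.B c d)) p)
  ring

lemma I2_LZ_wt (b c d : Fin (n + 1)) : (I2_LZ b c d).wt ≤ 2 := by
  have h1 := wt_d b (I2_LB c d)
  have h2 := I2_LB_wt c d
  have h3 : (I2_Ex.sum fun e => mul (I2_B2 b e) (D [e] c d)).wt ≤ 1 := wt_sum fun e => by
    show (I2_B2 b e).wt + 1 ≤ 1
    have := I2_B2_wt b e
    omega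
  have h4 : (I2_Ex.sum fun e => I2_Ex.sum fun f => mul (D [] e f) (D [e, f] c d)).wt ≤ 2 :=
    wt_sum fun e => wt_sum fun f => le_rfl
  show max (max (max ((I2_LB c d).d b).wt 1)
    (0 + (I2_Ex.sum fun e => mul (I2_B2 b e) (D [e] c d)).wt))
    (0 + 0 + (I2_Ex.sum fun e => I2_Ex.sum fun f => mul (D [] e f) (D [e, f] c d)).wt) ≤ 2
  omega

end special

/-- uniform bound for the gradient of `Lap (δ_b B_cd)` -/
theorem I2_grad (hCOM : tCOM) (hLB : tLB) (n : ℕ) (C1 : ℝ) : ∃ C : ℝ, 0 ≤ C ∧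
    ∀ (S : Type) [TopologicalSpace S] (M : Hyp n S), M.Shr → ∀ p : S, M.w p ≤ 2 → M.e1 p ≤ C1 →
      ∀ a b c d, |M.dl a (M.Lap (M.dl b (M.B c d))) p|
        ≤ C * (1 + Real.sqrt (M.e2 p) + Real.sqrt (M.e3 p)) := by
  have hc : ∀ k : Fin (n + 1) × Fin (n + 1) × Fin (n + 1) × Fin (n + 1), ∃ C : ℝ, 0 ≤ C ∧
      ∀ (S : Type) [TopologicalSpace S] (M : Hyp n S) (p : S), M.w p ≤ 2 → M.e1 p ≤ C1 →
        |((I2_LZ k.2.1 k.2.2.1 k.2.2.2).d k.1).ev M p|
          ≤ C * I2_E (Real.sqrt (M.e2 p)) (Real.sqrt (M.e3 p))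
            ((I2_LZ k.2.1 k.2.2.1 k.2.2.2).d k.1).wt := fun k =>
    I2_bound n C1 _ (by
      have h1 := I2_Ex.wt_d k.1 (I2_LZ k.2.1 k.2.2.1 k.2.2.2)
      have h2 := I2_LZ_wt k.2.1 k.2.2.1 k.2.2.2
      omega)
  choose C hC hb using hc
  refine ⟨∑ k, C k, Finset.sum_nonneg fun k _ => hC k, ?_⟩
  intro S _ M hM p hw he a b c d
  have h0 := hb (a, b, c, d) S M p hw he
  have hs := Real.sqrt_nonneg (M.e2 p)
  have hr := Real.sqrt_nonneg (M.e3 p)
  rw [I2_LZ_ev hCOM hLB M hM b c d, I2_Ex.ev_d]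
  refine h0.trans ?_
  have h1 := I2_Ex.wt_d a (I2_LZ b c d)
  have h2 := I2_LZ_wt b c d
  have h3 : I2_E (Real.sqrt (M.e2 p)) (Real.sqrt (M.e3 p)) ((I2_LZ b c d).d a).wt
      ≤ 1 + Real.sqrt (M.e2 p) + Real.sqrt (M.e3 p) := by
    have := I2_E_mono hs hr (show ((I2_LZ b c d).d a).wt ≤ 3 by omega) le_rfl
    exact this
  have h4 : C (a, b, c, d) ≤ ∑ k, C k :=
    Finset.single_le_sum (f := C) (fun k _ => hC k) (Finset.mem_univ _)
  calc C (a, b, c, d) * I2_E (Real.sqrt (M.e2 p)) (Real.sqrt (M.e3 p)) ((I2_LZ b c d).d a).wt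
      ≤ C (a, b, c, d) * (1 + Real.sqrt (M.e2 p) + Real.sqrt (M.e3 p)) :=
        mul_le_mul_of_nonneg_left h3 (hC _)
    _ ≤ _ := mul_le_mul_of_nonneg_right h4 (by positivity)

theorem pI2 (hBOC : tBOC) (hCOM : tCOM) (hLB : tLB) : tI2 := by
  intro n C1
  obtain ⟨C, hC, hgrad⟩ := I2_grad hCOM hLB n C1
  set m : ℝ := (n : ℝ) + 1 with hm
  have hm0 : 0 < m := by positivity
  set c0 : ℝ := 2 * m ^ 4 * C with hc0
  set c1 : ℝ := 8 * m ^ 5 with hc1
  have hc0n : 0 ≤ c0 := by positivity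
  have hc1n : 0 ≤ c1 := by positivity
  refine ⟨2 * c0 + c0 ^ 2 + c1, by positivity, ?_⟩
  intro S _ M hM p hw he
  set s : ℝ := Real.sqrt (M.e2 p) with hs
  set r : ℝ := Real.sqrt (M.e3 p) with hr
  have he2 : 0 ≤ M.e2 p := Hyp.e2_nonneg p
  have he3 : 0 ≤ M.e3 p := Finset.sum_nonneg fun f _ => Finset.sum_nonneg fun a _ =>
    Finset.sum_nonneg fun b _ => Finset.sum_nonneg fun c _ => Finset.sum_nonneg fun d _ =>
      sq_nonneg _
  have hs2 : s ^ 2 = M.e2 p := Real.sq_sqrt he2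
  have hr2 : r ^ 2 = M.e3 p := Real.sq_sqrt he3
  have hs0 : 0 ≤ s := Real.sqrt_nonneg _
  have hr0 : 0 ≤ r := Real.sqrt_nonneg _
  -- `e2` and `e3` as sums over the triples
  have E2 : M.e2 = fun q => ∑ k : Fin (n + 1) × Fin (n + 1) × Fin (n + 1),
      M.gsq (M.dl k.1 (M.B k.2.1 k.2.2)) q := by
    funext q
    show M.e2 q = ∑ k : Fin (n + 1) × Fin (n + 1) × Fin (n + 1),
      ∑ a, (M.dl a (M.dl k.1 (M.B k.2.1 k.2.2)) q) ^ 2
    rw [Finset.sum_comm]
    simp only [Fintype.sum_prod_type]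
    rfl
  have E3 : M.e3 p = ∑ k : Fin (n + 1) × Fin (n + 1) × Fin (n + 1),
      ∑ a, ∑ b, (M.dl b (M.dl a (M.dl k.1 (M.B k.2.1 k.2.2))) p) ^ 2 := by
    rw [Finset.sum_comm]
    have : ∀ a, ∑ k : Fin (n + 1) × Fin (n + 1) × Fin (n + 1),
        ∑ b, (M.dl b (M.dl a (M.dl k.1 (M.B k.2.1 k.2.2))) p) ^ 2 =
        ∑ b, ∑ k : Fin (n + 1) × Fin (n + 1) × Fin (n + 1),
          (M.dl b (M.dl a (M.dl k.1 (M.B k.2.1 k.2.2))) p) ^ 2 := fun a => Finset.sum_comm
    simp only [this]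
    rw [Finset.sum_comm]
    simp only [Fintype.sum_prod_type]
    rfl
  have hSm : ∀ k : Fin (n + 1) × Fin (n + 1) × Fin (n + 1),
      M.Sm (M.dl k.1 (M.B k.2.1 k.2.2)) p := fun k => (Hyp.Sm.B M k.2.1 k.2.2 p).dl k.1
  have hLap : M.Lap M.e2 p = ∑ k : Fin (n + 1) × Fin (n + 1) × Fin (n + 1),
      M.Lap (M.gsq (M.dl k.1 (M.B k.2.1 k.2.2))) p := by
    rw [E2]
    exact Hyp.Lap_sum fun k _ => (hSm k).gsq
  -- the bound for one triple
  have hone : ∀ k : Fin (n + 1) × Fin (n + 1) × Fin (n + 1),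
      2 * (∑ a, ∑ b, (M.dl b (M.dl a (M.dl k.1 (M.B k.2.1 k.2.2))) p) ^ 2)
        - (2 * m * C * (s * (1 + s + r)) + 8 * m ^ 2 * s ^ 2)
      ≤ M.Lap (M.gsq (M.dl k.1 (M.B k.2.1 k.2.2))) p := by
    intro k
    rw [hBOC n S M hM _ p (hSm k)]
    set Z := M.dl k.1 (M.B k.2.1 k.2.2) with hZ
    have hZa : ∀ a, |M.dl a Z p| ≤ s := fun a =>
      Real.abs_le_sqrt (I2_DDB M a k.1 k.2.1 k.2.2 p)
    have hLa : ∀ a, |M.dl a (M.Lap Z) p| ≤ C * (1 + s + r) := fun a =>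
      hgrad S M hM p hw he a k.1 k.2.1 k.2.2
    have hB2 : ∀ a b, |M.B2 a b p| ≤ 2 := by
      intro a b
      have h1 : |M.B2 a b p| ≤ ∑ c, |M.B a c p * M.B c b p| := Finset.abs_sum_le_sum_abs _ _
      have h2 : ∑ c, |M.B a c p * M.B c b p| ≤ ∑ c, ((M.B a c p) ^ 2 + (M.B c b p) ^ 2) / 2 := by
        refine Finset.sum_le_sum fun c _ => ?_
        rw [abs_mul]
        have := two_mul_le_add_sq |M.B a c p| |M.B c b p|
        rw [sq_abs, sq_abs] at this
        linarith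
      have h3 : ∑ c, (M.B a c p) ^ 2 ≤ M.w p :=
        Finset.single_le_sum (f := fun a => ∑ b, (M.B a b p) ^ 2)
          (fun a _ => Finset.sum_nonneg fun b _ => sq_nonneg _) (Finset.mem_univ a)
      have h4 : ∑ c, (M.B c b p) ^ 2 ≤ M.w p := by
        refine Finset.sum_le_sum fun c _ => ?_
        exact Finset.single_le_sum (f := fun b => (M.B c b p) ^ 2)
          (fun b _ => sq_nonneg _) (Finset.mem_univ b)
      have h5 : ∑ c, ((M.B a c p) ^ 2 + (M.B c b p) ^ 2) / 2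
          = (∑ c, (M.B a c p) ^ 2 + ∑ c, (M.B c b p) ^ 2) / 2 := by
        rw [← Finset.sum_add_distrib, Finset.sum_div]
      linarith
    have hcard : (Finset.univ : Finset (Fin (n + 1))).card = n + 1 := by simp
    have t1 : |∑ a, M.dl a Z p * M.dl a (M.Lap Z) p| ≤ m * (s * (C * (1 + s + r))) := by
      refine (Finset.abs_sum_le_sum_abs _ _).trans ?_
      refine (Finset.sum_le_sum (g := fun _ => s * (C * (1 + s + r))) fun a _ => ?_).trans ?_
      · rw [abs_mul]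
        exact mul_le_mul (hZa a) (hLa a) (abs_nonneg _) hs0
      · rw [Finset.sum_const, hcard, nsmul_eq_mul]
        push_cast
        exact le_of_eq rfl
    have t2 : |∑ a, ∑ b, M.B2 a b p * M.dl a Z p * M.dl b Z p| ≤ m * (m * (2 * s * s)) := by
      refine (Finset.abs_sum_le_sum_abs _ _).trans ?_
      refine (Finset.sum_le_sum (g := fun _ => m * (2 * s * s)) fun a _ => ?_).trans ?_
      · refine (Finset.abs_sum_le_sum_abs _ _).trans ?_
        refine (Finset.sum_le_sum (g := fun _ => 2 * s * s) fun b _ => ?_).trans ?_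
        · rw [abs_mul, abs_mul]
          exact mul_le_mul (mul_le_mul (hB2 a b) (hZa a) (abs_nonneg _) (by norm_num)) (hZa b)
            (abs_nonneg _) (by positivity)
        · rw [Finset.sum_const, hcard, nsmul_eq_mul]
          push_cast
          exact le_of_eq rfl
      · rw [Finset.sum_const, hcard, nsmul_eq_mul]
        push_cast
        exact le_of_eq rfl
    have t3 := Hyp.gsq_nonneg (M := M) Z p
    have u1 := (abs_le.1 t1).1
    have u2 := (abs_le.1 t2).2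
    have v1 : m * (s * (C * (1 + s + r))) = m * C * (s * (1 + s + r)) := by ring
    have v2 : m * (m * (2 * s * s)) = 2 * m ^ 2 * s ^ 2 := by ring
    rw [v1] at u1
    rw [v2] at u2
    linarith
  have hsum := Finset.sum_le_sum fun k (_ : k ∈ (Finset.univ :
    Finset (Fin (n + 1) × Fin (n + 1) × Fin (n + 1)))) => hone k
  rw [← hLap, Finset.sum_sub_distrib, ← Finset.mul_sum, ← E3, Finset.sum_const] at hsum
  have hcard : ((Finset.univ : Finset (Fin (n + 1) × Fin (n + 1) × Fin (n + 1))).card : ℝ)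
      = m ^ 3 := by
    rw [Finset.card_univ, Fintype.card_prod, Fintype.card_prod, Fintype.card_fin]
    push_cast
    ring
  rw [nsmul_eq_mul, hcard] at hsum
  have v3 : m ^ 3 * (2 * m * C * (s * (1 + s + r)) + 8 * m ^ 2 * s ^ 2)
      = c0 * (s * (1 + s + r)) + c1 * s ^ 2 := by
    rw [hc0, hc1]
    ring
  rw [v3, ← hr2] at hsum
  rw [← hr2, ← hs2]
  have w1 : c0 * s ≤ c0 * (1 + s ^ 2) := by
    apply mul_le_mul_of_nonneg_left _ hc0n
    nlinarith [sq_nonneg (s - 1)]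
  have w2 : c0 * s * r ≤ r ^ 2 + c0 ^ 2 * s ^ 2 := by
    nlinarith [sq_nonneg (r - c0 * s), mul_nonneg (mul_nonneg hc0n hs0) hr0]
  have w3 : c0 * (s * (1 + s + r)) = c0 * s + c0 * s ^ 2 + c0 * s * r := by ring
  rw [w3] at hsum
  have w4 : 0 ≤ c0 ^ 2 := sq_nonneg c0
  nlinarith

end

end Pool.Agent.ShG
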