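import Pool.Agent.ShG.Targets

/-! Inward motion from a far point. -/

namespace Pool.Agent.ShG

open scoped BigOperators Topology ContDiff
open Set Filter Hyp

lemma INW_grad {n : ℕ} (g : Es n → ℝ) (u : Es n) : ‖fderiv ℝ g u‖ = ‖gradient g u‖ := by
  unfold gradient
  rw [LinearIsometryEquiv.norm_map]

/-- the move in a section -/
lemma INW_move {n : ℕ} {S : Type} [TopologicalSpace S] (M : Hyp n S) (hM : M.Shr) (q : S)
    (ι : Es n →ₗᵢ[ℝ] Fs n) (g : Es n → ℝ) (σ : Es n → S) (hN : M.Nice q ι g σ) (s D : ℝ)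
    (hs0 : 0 ≤ s) (hs1 : s ≤ 1 / 16) (hD : 0 < D) (hH : M.H q ^ 2 ≤ 2 * n)
    (hs2 : s * Real.sqrt (2 * n) ≤ 1 / 2) (hρ : 4 * n ≤ M.rho q) (hρ1 : 1 ≤ M.rho q)
    (hs3 : s * Real.sqrt (M.rho q) = D + 1) :
    ∃ u ∈ Metric.ball (0 : Es n) (1 / 8), ‖u‖ = s ∧ M.rho (σ u) ≤ M.rho q - D := by
  obtain ⟨hsec, hb⟩ := hN
  have hNq : ‖M.N q‖ = 1 := M.unit q
  set P : Es n := prj ι (M.X q) with hP
  set h : ℝ := M.H q with hh
  have hXN : inner ℝ (M.X q) (M.N q) = -h := by rw [hh, hM q]; ring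
  have hsplit : M.X q = ι P + (-h) • M.N q := by
    have := hsec.split hNq (M.X q)
    rw [hXN] at this
    exact this
  have hρP : M.rho q = ‖P‖ ^ 2 + h ^ 2 := by
    unfold rho
    rw [hsplit, norm_add_sq_real, inner_smul_right, hsec.perp, ι.norm_map, norm_smul, hNq,
      Real.norm_eq_abs, mul_one, sq_abs]
    ring
  have hn0 : (0 : ℝ) ≤ n := Nat.cast_nonneg n
  have hsq : Real.sqrt (M.rho q) ^ 2 = M.rho q := Real.sq_sqrt (by linarith)
  have hsq0 : 0 ≤ Real.sqrt (M.rho q) := Real.sqrt_nonneg _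
  have hPge : Real.sqrt (M.rho q) / 2 ≤ ‖P‖ := by
    apply le_of_sq_le_sq _ (norm_nonneg _)
    rw [div_pow, hsq]
    linarith
  have hPpos : 0 < ‖P‖ := by
    have : 0 < Real.sqrt (M.rho q) := Real.sqrt_pos.2 (by linarith)
    linarith
  have hsP : D + 1 ≤ 2 * s * ‖P‖ := by
    rw [← hs3]; nlinarith
  set u : Es n := (-(s / ‖P‖)) • P with hu
  have hun : ‖u‖ = s := by
    rw [hu, norm_smul, Real.norm_eq_abs, abs_neg, abs_of_nonneg (by positivity)]
    field_simp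
  have hub : u ∈ Metric.ball (0 : Es n) (1 / 8) := by
    rw [mem_ball_zero_iff, hun]; linarith
  refine ⟨u, hub, hun, ?_⟩
  have h0b : (0 : Es n) ∈ Metric.ball (0 : Es n) (1 / 8) := by
    rw [mem_ball_zero_iff]; simp
  have hg0 : g 0 = 0 := hsec.g_zero hNq
  have hg : |g u| ≤ 1 / 4 * s := by
    have := Convex.norm_image_sub_le_of_norm_fderiv_le (𝕜 := ℝ) (f := g)
      (s := Metric.ball (0 : Es n) (1 / 8)) (C := 1 / 4) (fun x hx => hsec.gdiff hx)
      (fun x hx => by rw [INW_grad]; exact hb x hx) (convex_ball _ _) h0b hub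
    rw [hg0, sub_zero, sub_zero, hun, Real.norm_eq_abs] at this
    exact this
  have hhabs : |h| ≤ Real.sqrt (2 * n) := Real.abs_le_sqrt hH
  have hval : M.rho (σ u) = M.rho q + 2 * (inner ℝ P u + g u * (-h)) + (‖u‖ ^ 2 + g u ^ 2) := by
    have e1 : ‖ι u + g u • M.N q‖ ^ 2 = ‖u‖ ^ 2 + g u ^ 2 := by
      rw [← hsec.graph_sub hub]
      exact hsec.norm_sq hNq hub
    have e2 : inner ℝ (M.X q) (ι u + g u • M.N q) = inner ℝ P u + g u * (-h) := by
      rw [inner_add_right, real_inner_smul_right, hXN, hP, prj_inner]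
    unfold rho
    rw [hsec.graph u hub, add_assoc, norm_add_sq_real, e1, e2]
  have hPu : inner ℝ P u = -(s * ‖P‖) := by
    rw [hu, inner_smul_right, real_inner_self_eq_norm_sq]
    field_simp
  have hgh : g u * (-h) ≤ 1 / 4 * s * Real.sqrt (2 * n) := by
    calc g u * (-h) ≤ |g u * (-h)| := le_abs_self _
      _ = |g u| * |h| := by rw [abs_mul, abs_neg]
      _ ≤ 1 / 4 * s * Real.sqrt (2 * n) := by
        apply mul_le_mul hg hhabs (abs_nonneg _) (by positivity)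
  have hg2 : g u ^ 2 ≤ s ^ 2 := by
    rw [← sq_abs]
    apply pow_le_pow_left₀ (abs_nonneg _)
    linarith
  rw [hval, hPu, hun]
  nlinarith

theorem pINW (hUGC : tUGC) (hT3 : tT3) (hBER : tBER) (hHW : tHW) : tINW := by
  intro n D η hD hη
  obtain ⟨C, hC0, hC⟩ := hBER n
  have hn0 : (0 : ℝ) ≤ n := Nat.cast_nonneg n
  set L : ℝ := Real.sqrt ((n + 9) * C) with hL
  have hL0 : 0 ≤ L := Real.sqrt_nonneg _
  have hLsq : L ^ 2 = (n + 9) * C := Real.sq_sqrt (by positivity)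
  set R : ℝ := Real.sqrt (2 * n) with hR
  have hR0 : 0 ≤ R := Real.sqrt_nonneg _
  set s0 : ℝ := min (1 / 16) (min (1 / (2 * (R + 1))) (η / (2 * L + 1))) with hs0
  have hs00 : 0 < s0 := by rw [hs0]; positivity
  set A : ℝ := (D + 1) / s0 with hA
  have hA0 : 0 < A := by positivity
  refine ⟨max 1 (max (4 * n) (A ^ 2)), le_max_left _ _, ?_⟩
  intro S _ _ M c hstd q hq
  have hρ1 : 1 ≤ M.rho q := (le_max_left _ _).trans hq
  have hρ2 : 4 * n ≤ M.rho q := ((le_max_left _ _).trans (le_max_right _ _)).trans hq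
  have hρ3 : A ^ 2 ≤ M.rho q := ((le_max_right _ _).trans (le_max_right _ _)).trans hq
  obtain ⟨hshr, hc0, hc1, hw⟩ := hstd
  have hw2 : ∀ p, M.w p ≤ 2 := fun p => by have := hw p; linarith
  have hsq0 : 0 < Real.sqrt (M.rho q) := Real.sqrt_pos.2 (by linarith)
  have hAle : A ≤ Real.sqrt (M.rho q) := by
    rw [← Real.sqrt_sq hA0.le]
    exact Real.sqrt_le_sqrt hρ3
  set s : ℝ := (D + 1) / Real.sqrt (M.rho q) with hs
  have hspos : 0 < s := by positivity
  have hss0 : s ≤ s0 := by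
    rw [hs, div_le_iff₀ hsq0]
    rw [hA, div_le_iff₀ hs00] at hAle
    linarith
  have hs3 : s * Real.sqrt (M.rho q) = D + 1 := by rw [hs]; field_simp
  have hs1 : s ≤ 1 / 16 := hss0.trans (min_le_left _ _)
  have hs2 : s ≤ 1 / (2 * (R + 1)) := (hss0.trans (min_le_right _ _)).trans (min_le_left _ _)
  have hs4 : s ≤ η / (2 * L + 1) := (hss0.trans (min_le_right _ _)).trans (min_le_right _ _)
  have hsR : s * R ≤ 1 / 2 := by
    rw [le_div_iff₀ (by positivity)] at hs2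
    nlinarith
  have hsL : 2 * L * s ≤ η := by
    rw [le_div_iff₀ (by positivity)] at hs4
    nlinarith
  have hH2 : M.H q ^ 2 ≤ 2 * n := by
    have h1 := (hHW n S M q).1
    have h2 := hw2 q
    nlinarith
  obtain ⟨ι, g, σ, hN⟩ := hUGC n S M hw2 q
  obtain ⟨u, hub, hun, hρu⟩ := INW_move M hshr q ι g σ hN s D hspos.le hs1 hD hH2 hsR hρ2 hρ1 hs3
  have hJ : ∀ p, M.J p ≤ C := by
    intro p
    have h1 := (hT3 n S M p).2.2.2.1
    have h2 := (hC S M hshr hw2 p).1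
    have h3 : 0 ≤ M.b4 p :=
      Finset.sum_nonneg fun _ _ => Finset.sum_nonneg fun _ _ => sq_nonneg _
    linarith
  have hGH : ∀ p, M.gsq M.H p ≤ L ^ 2 := by
    intro p
    have h1 := (hT3 n S M p).2.2.2.2.2.2.1
    have h2 := hJ p
    rw [hLsq]
    nlinarith
  have hGw : ∀ p, M.gsq M.w p ≤ L ^ 2 := by
    intro p
    have h1 := (hT3 n S M p).2.2.2.2.2.2.2
    have h2 := hJ p
    have h3 := hw2 p
    have h4 := w_nonneg (M := M) p
    have h5 := J_nonneg (M := M) p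
    rw [hLsq]
    have h6 : 4 * M.w p * M.J p ≤ 8 * C := by nlinarith
    have h7 : 0 ≤ n * C := by positivity
    nlinarith
  have hseg : segment ℝ (0 : Es n) u ⊆ Metric.ball (0 : Es n) (1 / 8) :=
    (convex_ball _ _).segment_subset (by rw [mem_ball_zero_iff]; simp) hub
  have hslope : ∀ v ∈ segment ℝ (0 : Es n) u, ‖gradient g v‖ ≤ 1 := by
    intro v hv
    have := hN.2 v (hseg hv)
    linarith
  refine ⟨σ u, hρu, ?_, ?_⟩
  · have h1 := sec_lip (M := M) (Z := M.H) hN.1 hseg hL0 hslope (fun v _ => Sm.H M (σ v))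
      (fun v _ => hGH (σ v))
    rw [hN.1.base, sub_zero, hun] at h1
    exact h1.trans hsL
  · have h1 := sec_lip (M := M) (Z := M.w) hN.1 hseg hL0 hslope (fun v _ => Sm.w M (σ v))
      (fun v _ => hGw (σ v))
    rw [hN.1.base, sub_zero, hun] at h1
    exact h1.trans hsL

end Pool.Agent.ShG
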