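import Pool.Agent.ShG.Targets

/-!
# ShG: `J² ≤ C v` (target `tJV`)
-/

namespace Pool.Agent.ShG

open scoped BigOperators Topology ContDiff
open Set Filter

noncomputable section

lemma JV_single1 {m : ℕ} {f : Fin m → ℝ} (hf : ∀ a, 0 ≤ f a) (a : Fin m) :
    f a ≤ ∑ a, f a :=
  Finset.single_le_sum (f := f) (fun b _ => hf b) (Finset.mem_univ a)

lemma JV_single2 {m : ℕ} {f : Fin m → Fin m → ℝ} (hf : ∀ a b, 0 ≤ f a b) (a b : Fin m) :
    f a b ≤ ∑ a, ∑ b, f a b :=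
  (JV_single1 (hf a) b).trans
    (JV_single1 (f := fun a => ∑ b, f a b) (fun a => Finset.sum_nonneg fun b _ => hf a b) a)

lemma JV_single3 {m : ℕ} {f : Fin m → Fin m → Fin m → ℝ} (hf : ∀ a b c, 0 ≤ f a b c)
    (a b c : Fin m) : f a b c ≤ ∑ a, ∑ b, ∑ c, f a b c :=
  (JV_single2 (hf a) b c).trans
    (JV_single1 (f := fun a => ∑ b, ∑ c, f a b c)
      (fun a => Finset.sum_nonneg fun b _ => Finset.sum_nonneg fun c _ => hf a b c) a)

lemma JV_single4 {m : ℕ} {f : Fin m → Fin m → Fin m → Fin m → ℝ}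
    (hf : ∀ a b c d, 0 ≤ f a b c d) (a b c d : Fin m) :
    f a b c d ≤ ∑ a, ∑ b, ∑ c, ∑ d, f a b c d :=
  (JV_single3 (hf a) b c d).trans
    (JV_single1 (f := fun a => ∑ b, ∑ c, ∑ d, f a b c d)
      (fun a => Finset.sum_nonneg fun b _ => Finset.sum_nonneg fun c _ =>
        Finset.sum_nonneg fun d _ => hf a b c d) a)

lemma JV_abs {x C : ℝ} (h : x ^ 2 ≤ C) : |x| ≤ 1 + C := by
  have h1 : |x| ^ 2 = x ^ 2 := sq_abs x
  nlinarith [sq_nonneg (|x| - 1), abs_nonneg x]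

namespace Hyp

variable {n : ℕ} {S : Type} [TopologicalSpace S] {M : Hyp n S}

lemma JV_N (a : Fin (n + 1)) (p : S) : |M.N p a| ≤ 1 := by
  have h1 : M.N p a * M.N p a ≤ ∑ a, M.N p a * M.N p a :=
    JV_single1 (f := fun a => M.N p a * M.N p a) (fun a => mul_self_nonneg _) a
  rw [M.sum_NN] at h1
  refine abs_le_of_sq_le_sq ?_ zero_le_one
  nlinarith

lemma JV_B {p : S} (hw : M.w p ≤ 2) (a b : Fin (n + 1)) : |M.B a b p| ≤ 2 := by
  have h1 : (M.B a b p) ^ 2 ≤ M.w p :=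
    JV_single2 (f := fun a b => (M.B a b p) ^ 2) (fun a b => sq_nonneg _) a b
  refine abs_le_of_sq_le_sq ?_ zero_le_two
  nlinarith

lemma JV_dB {p : S} {C : ℝ} (h : M.e1 p ≤ C) (d a b : Fin (n + 1)) :
    |M.dl d (M.B a b) p| ≤ 1 + C := by
  have h1 : (M.dl d (M.B a b) p) ^ 2 ≤ M.e1 p :=
    JV_single3 (f := fun a b c => (M.dl a (M.B b c) p) ^ 2) (fun a b c => sq_nonneg _) d a b
  exact JV_abs (h1.trans h)

lemma JV_ddB {p : S} {C : ℝ} (h : M.e2 p ≤ C) (d e a b : Fin (n + 1)) :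
    |M.dl d (M.dl e (M.B a b)) p| ≤ 1 + C := by
  have h1 : (M.dl d (M.dl e (M.B a b)) p) ^ 2 ≤ M.e2 p :=
    JV_single4 (f := fun a b c d => (M.dl a (M.dl b (M.B c d)) p) ^ 2)
      (fun a b c d => sq_nonneg _) d e a b
  exact JV_abs (h1.trans h)

lemma JV_sum_abs {m : ℕ} {f : Fin (m + 1) → ℝ} {C : ℝ} (h : ∀ a, |f a| ≤ C) :
    |∑ a, f a| ≤ ((m : ℝ) + 1) * C := by
  refine (Finset.abs_sum_le_sum_abs _ _).trans ?_
  refine (Finset.sum_le_sum fun a _ => h a).trans (le_of_eq ?_)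
  simp

lemma JV_B2 {p : S} (hw : M.w p ≤ 2) (a b : Fin (n + 1)) :
    |M.B2 a b p| ≤ ((n : ℝ) + 1) * 4 := by
  unfold B2
  refine JV_sum_abs fun c => ?_
  rw [abs_mul]
  have h1 := JV_B hw a c
  have h2 := JV_B hw c b
  nlinarith [abs_nonneg (M.B a c p), abs_nonneg (M.B c b p)]

lemma JV_dB2 {p : S} {C : ℝ} (hw : M.w p ≤ 2) (he1 : M.e1 p ≤ C) (d a b : Fin (n + 1)) :
    |M.dl d (M.B2 a b) p| ≤ ((n : ℝ) + 1) * (4 * (1 + C)) := by
  have e : M.dl d (M.B2 a b) p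
      = ∑ c, (M.B a c p * M.dl d (M.B c b) p + M.B c b p * M.dl d (M.B a c) p) := by
    have : M.dl d (M.B2 a b) p = ∑ c, M.dl d (fun q => M.B a c q * M.B c b q) p :=
      dl_sum (fun c _ => (Sm.B M a c p).mul (Sm.B M c b p)) d
    rw [this]
    refine Finset.sum_congr rfl fun c _ => ?_
    rw [dl_mul (Sm.B M a c p) (Sm.B M c b p)]
  rw [e]
  refine JV_sum_abs fun c => ?_
  refine (abs_add_le _ _).trans ?_
  rw [abs_mul, abs_mul]
  have h1 := JV_B hw a c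
  have h2 := JV_B hw c b
  have h3 := JV_dB he1 d c b
  have h4 := JV_dB he1 d a c
  have h5 : |M.B a c p| * |M.dl d (M.B c b) p| ≤ 2 * (1 + C) :=
    mul_le_mul h1 h3 (abs_nonneg _) (by norm_num)
  have h6 : |M.B c b p| * |M.dl d (M.B a c) p| ≤ 2 * (1 + C) :=
    mul_le_mul h2 h4 (abs_nonneg _) (by norm_num)
  linarith

lemma JV_dT3 {p : S} {C : ℝ} (hw : M.w p ≤ 2) (he1 : M.e1 p ≤ C) (he2 : M.e2 p ≤ C)
    (d a b c : Fin (n + 1)) :
    |M.dl d (M.T3 a b c) p| ≤ 25 * ((n : ℝ) + 1) * (1 + C) := by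
  have hC : 0 ≤ C := (e1_nonneg p).trans he1
  have hn : (0 : ℝ) ≤ (n : ℝ) := Nat.cast_nonneg n
  have e : M.dl d (M.T3 a b c) p = M.dl d (M.dl a (M.B b c)) p
      - (M.N p b * M.dl d (M.B2 a c) p - M.B2 a c p * M.B d b p)
      - (M.N p c * M.dl d (M.B2 a b) p - M.B2 a b p * M.B d c p) := by
    have s1 := (Sm.B M b c p).dl a
    have s2 := (Sm.Nc M b p).mul (Sm.B2 a c p)
    have s3 := (Sm.Nc M c p).mul (Sm.B2 a b p)
    have : M.dl d (M.T3 a b c) p = M.dl d (fun q => (M.dl a (M.B b c) q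
        - M.Nc b q * M.B2 a c q) - M.Nc c q * M.B2 a b q) p := rfl
    rw [this, dl_sub (s1.sub s2) s3, dl_sub s1 s2, dl_mul (Sm.Nc M b p) (Sm.B2 a c p),
      dl_mul (Sm.Nc M c p) (Sm.B2 a b p), dl_Nc, dl_Nc]
    unfold Nc
    ring
  have key : ∀ b c : Fin (n + 1), |M.N p b * M.dl d (M.B2 a c) p - M.B2 a c p * M.B d b p|
      ≤ 12 * ((n : ℝ) + 1) * (1 + C) := by
    intro b c
    refine (abs_sub _ _).trans ?_
    rw [abs_mul, abs_mul]
    have h1 : |M.N p b| * |M.dl d (M.B2 a c) p| ≤ 1 * (((n : ℝ) + 1) * (4 * (1 + C))) :=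
      mul_le_mul (JV_N b p) (JV_dB2 hw he1 d a c) (abs_nonneg _) zero_le_one
    have h2 : |M.B2 a c p| * |M.B d b p| ≤ (((n : ℝ) + 1) * 4) * 2 :=
      mul_le_mul (JV_B2 hw a c) (JV_B hw d b) (abs_nonneg _) (by positivity)
    nlinarith
  rw [e]
  refine (abs_sub _ _).trans ?_
  have h1 := (abs_sub (M.dl d (M.dl a (M.B b c)) p)
    (M.N p b * M.dl d (M.B2 a c) p - M.B2 a c p * M.B d b p))
  have h2 := JV_ddB he2 d a b c
  have h3 := key b c
  have h4 := key c b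
  nlinarith

lemma JV_gT3 {p : S} {C : ℝ} (hw : M.w p ≤ 2) (he1 : M.e1 p ≤ C) (he2 : M.e2 p ≤ C)
    (a b c : Fin (n + 1)) :
    M.gsq (M.T3 a b c) p ≤ (25 * ((n : ℝ) + 1) ^ 2 * (1 + C)) ^ 2 := by
  have hC : 0 ≤ C := (e1_nonneg p).trans he1
  have hn : (0 : ℝ) ≤ (n : ℝ) := Nat.cast_nonneg n
  unfold gsq
  have h1 : ∀ d, (M.dl d (M.T3 a b c) p) ^ 2 ≤ (25 * ((n : ℝ) + 1) * (1 + C)) ^ 2 := by
    intro d
    rw [← sq_abs]
    exact pow_le_pow_left₀ (abs_nonneg _) (JV_dT3 hw he1 he2 d a b c) 2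
  refine (Finset.sum_le_sum fun d _ => h1 d).trans ?_
  rw [Finset.sum_const, Finset.card_univ, Fintype.card_fin, nsmul_eq_mul]
  push_cast
  have h2 : ((n : ℝ) + 1) ≤ ((n : ℝ) + 1) ^ 2 := by nlinarith
  calc ((n : ℝ) + 1) * (25 * ((n : ℝ) + 1) * (1 + C)) ^ 2
      ≤ ((n : ℝ) + 1) ^ 2 * (25 * ((n : ℝ) + 1) * (1 + C)) ^ 2 :=
        mul_le_mul_of_nonneg_right h2 (sq_nonneg _)
    _ = (25 * ((n : ℝ) + 1) ^ 2 * (1 + C)) ^ 2 := by ring

/-- lower bound for `J` near `p` in a uniform section -/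
lemma JV_lower {C : ℝ} (hw : ∀ q, M.w q ≤ 2) (he : ∀ q, M.e1 q ≤ C ∧ M.e2 q ≤ C) {p : S}
    {ι : Es n →ₗᵢ[ℝ] Fs n} {g : Es n → ℝ} {σ : Es n → S} (hN : M.Nice p ι g σ)
    {u : Es n} (hu : u ∈ Metric.ball (0 : Es n) (1 / 8)) :
    M.J p / 2 - ((n : ℝ) + 1) ^ 3 * (4 * (25 * ((n : ℝ) + 1) ^ 2 * (1 + C)) ^ 2 * ‖u‖ ^ 2)
      ≤ M.J (σ u) := by
  have hC : 0 ≤ C := (e1_nonneg p).trans (he p).1
  have hn : (0 : ℝ) ≤ (n : ℝ) := Nat.cast_nonneg n
  obtain ⟨hs, hsl⟩ := hN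
  have hL : (0 : ℝ) ≤ 25 * ((n : ℝ) + 1) ^ 2 * (1 + C) := by positivity
  have hseg : segment ℝ (0 : Es n) u ⊆ Metric.ball (0 : Es n) (1 / 8) :=
    (convex_ball (0 : Es n) (1 / 8)).segment_subset
      (Metric.mem_ball_self (by norm_num)) hu
  have h1 : ∀ a b c : Fin (n + 1), |M.T3 a b c (σ u) - M.T3 a b c p|
      ≤ 2 * (25 * ((n : ℝ) + 1) ^ 2 * (1 + C)) * ‖u‖ := by
    intro a b c
    have h := sec_lip (Z := M.T3 a b c) hs hseg hL
      (fun v hv => (hsl v (hseg hv)).trans (by norm_num))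
      (fun v hv => Sm.T3 a b c _)
      (fun v hv => JV_gT3 (hw _) (he _).1 (he _).2 a b c)
    rw [hs.base, sub_zero] at h
    exact h
  have h2 : ∀ a b c : Fin (n + 1), (M.T3 a b c p) ^ 2 / 2
      - 4 * (25 * ((n : ℝ) + 1) ^ 2 * (1 + C)) ^ 2 * ‖u‖ ^ 2 ≤ (M.T3 a b c (σ u)) ^ 2 := by
    intro a b c
    have h3 : (M.T3 a b c (σ u) - M.T3 a b c p) ^ 2
        ≤ (2 * (25 * ((n : ℝ) + 1) ^ 2 * (1 + C)) * ‖u‖) ^ 2 := by
      rw [← sq_abs]
      exact pow_le_pow_left₀ (abs_nonneg _) (h1 a b c) 2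
    nlinarith [sq_nonneg (2 * M.T3 a b c (σ u) - M.T3 a b c p)]
  have h4 : ∑ a : Fin (n + 1), ∑ b : Fin (n + 1), ∑ c : Fin (n + 1),
      ((M.T3 a b c p) ^ 2 / 2 - 4 * (25 * ((n : ℝ) + 1) ^ 2 * (1 + C)) ^ 2 * ‖u‖ ^ 2)
      ≤ M.J (σ u) :=
    Finset.sum_le_sum fun a _ => Finset.sum_le_sum fun b _ => Finset.sum_le_sum fun c _ =>
      h2 a b c
  refine le_trans (le_of_eq ?_) h4
  simp_rw [Finset.sum_sub_distrib, ← Finset.sum_div]
  simp only [Finset.sum_const, Finset.card_univ, Fintype.card_fin, nsmul_eq_mul]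
  unfold J
  push_cast
  ring

end Hyp

open Hyp in
theorem pJV (hPAR : tPAR) (hUGC : tUGC) (hLW : tLW) (hBER : tBER) (hT3 : tT3) : tJV := by
  intro n R hR
  obtain ⟨C0, hC0, hBER'⟩ := hBER n
  obtain ⟨κ, hκ, hPAR'⟩ := hPAR n R 0 hR le_rfl
  have hn : (0 : ℝ) ≤ (n : ℝ) := Nat.cast_nonneg n
  set L : ℝ := 25 * ((n : ℝ) + 1) ^ 2 * (1 + C0) with hLdef
  have hL : 0 < L := by positivity
  set K : ℝ := 16 * ((n : ℝ) + 1) ^ 3 * L ^ 2 with hKdef
  have hK : 0 < K := by positivity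
  set D : ℝ := 256 * (1 + C0) + K with hDdef
  have hD : 0 < D := by positivity
  refine ⟨40 * (1 + C0) + 4 * D / κ, by positivity, ?_⟩
  intro S _ _ M c hStd p hp
  obtain ⟨hShr, hc0, hc1, hw⟩ := hStd
  have hw2 : ∀ q, M.w q ≤ 2 := fun q => by linarith [hw q]
  have he := hBER' S M hShr hw2
  have hv : ∀ q, c < M.vv c q := by
    intro q
    unfold vv
    linarith [hw q]
  have hJe : M.J p ≤ 1 + C0 := by
    obtain ⟨-, -, -, h4, -⟩ := hT3 n S M p
    have h5 : 0 ≤ M.b4 p :=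
      Finset.sum_nonneg fun _ _ => Finset.sum_nonneg fun _ _ => sq_nonneg _
    linarith [(he p).1]
  have hJ0 : 0 ≤ M.J p := J_nonneg p
  have hvp := hv p
  rcases le_or_gt (M.J p) (40 * c) with hj | hj
  · have h1 : M.J p ^ 2 ≤ (1 + C0) * (40 * c) := by
      rw [sq]
      exact mul_le_mul hJe hj hJ0 (by positivity)
    have h2 : 0 ≤ 4 * D / κ * M.vv c p := by
      have : 0 ≤ M.vv c p := by linarith
      positivity
    have h3 : (1 + C0) * (40 * c) ≤ 40 * (1 + C0) * M.vv c p := by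
      have : (1 + C0) * c ≤ (1 + C0) * M.vv c p :=
        mul_le_mul_of_nonneg_left hvp.le (by positivity)
      linarith
    rw [add_mul]
    linarith
  · set j : ℝ := M.J p with hjdef
    have hjp : 0 < j := by linarith
    obtain ⟨ι, g, σ, hN⟩ := hUGC n S M hw2 p
    obtain ⟨hs, hsl⟩ := hN
    set m : ℝ := min (1 / 256) (j / K) with hmdef
    have hm : 0 < m := lt_min (by norm_num) (by positivity)
    set r : ℝ := Real.sqrt m with hrdef
    have hr : 0 < r := Real.sqrt_pos.2 hm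
    have hr2 : r ^ 2 = m := Real.sq_sqrt hm.le
    have hr16 : r ≤ 1 / 16 := by
      refine le_of_sq_le_sq ?_ (by norm_num)
      rw [hr2]
      exact (min_le_left _ _).trans (by norm_num)
    have hball : Metric.ball (0 : Es n) r ⊆ Metric.ball (0 : Es n) (1 / 8) :=
      Metric.ball_subset_ball (by linarith)
    have hJlow : ∀ u ∈ Metric.ball (0 : Es n) r, j / 4 ≤ M.J (σ u) := by
      intro u hu
      have h1 := JV_lower hw2 he ⟨hs, hsl⟩ (hball hu)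
      have h2 : ‖u‖ ^ 2 ≤ j / K := by
        have h3 : ‖u‖ < r := by simpa using hu
        have h4 : ‖u‖ ^ 2 ≤ r ^ 2 := pow_le_pow_left₀ (norm_nonneg _) h3.le 2
        rw [hr2] at h4
        exact h4.trans (min_le_right _ _)
      have h5 : ((n : ℝ) + 1) ^ 3 * (4 * L ^ 2 * ‖u‖ ^ 2) ≤ j / 4 := by
        have h6 : ((n : ℝ) + 1) ^ 3 * (4 * L ^ 2 * ‖u‖ ^ 2)
            ≤ ((n : ℝ) + 1) ^ 3 * (4 * L ^ 2 * (j / K)) := by gcongr
        refine h6.trans (le_of_eq ?_)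
        rw [hKdef]
        field_simp
        ring
      have h7 : M.J p / 2 - ((n : ℝ) + 1) ^ 3 * (4 * L ^ 2 * ‖u‖ ^ 2) ≤ M.J (σ u) := h1
      rw [← hjdef] at h7
      linarith
    have hLapv : ∀ q, M.Lap (M.vv c) q = - (2 * M.J q + 2 * M.w q * (1 - M.w q)) := by
      intro q
      have h1 : M.Lap (M.vv c) q = M.Lap (fun q => (1 + 2 * c) - M.w q) q := rfl
      rw [h1, Lap_sub (Sm.const M (1 + 2 * c) q) (Sm.w M q), Lap_const,
        (hLW n S M hShr q).2]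
      ring
    have hVS : M.VSup (fun _ => 0) (M.vv c) (-(j / 4)) (σ '' Metric.ball 0 r) := by
      intro q hq φ hφ hle
      obtain ⟨u, hu, rfl⟩ := hq
      have h1 : M.Sm (fun q' => φ q' - M.vv c q') (σ u) := hφ.sub (Sm.vv c (σ u))
      have h2 : ∀ᶠ q' in 𝓝 (σ u), φ q' - M.vv c q' ≤ φ (σ u) - M.vv c (σ u) := by
        filter_upwards [hle] with q' hq'
        linarith
      have h3 := (max_Lap h1 h2).2.2
      rw [Lap_sub hφ (Sm.vv c (σ u)), hLapv] at h3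
      have h4 := hJlow u hu
      have h5 := hw (σ u)
      have h6 : 0 ≤ M.w (σ u) := w_nonneg _
      have h7 : M.w (σ u) * (M.w (σ u) - 1) ≤ 2 * c := by
        rcases le_or_gt (M.w (σ u)) 1 with h8 | h8
        · nlinarith
        · nlinarith
      simp only [inner_zero_left, add_zero]
      linarith
    have h1 := hPAR' S M hShr p ι g σ ⟨hs, hsl⟩ hp (fun _ => 0) (M.vv c) (j / 4) r
      (by positivity) hr hr16 hVS
      (fun q _ => ⟨by simp, by linarith [hv q]⟩)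
      (by
        intro u hu
        have h2 : ContinuousAt (M.vv c) (σ u) := (Sm.vv c (σ u)).continuousAt
        have h3 : ContinuousAt σ u := hs.contAt (hball hu)
        exact (ContinuousAt.comp (f := σ) (g := M.vv c) h2 h3).continuousWithinAt)
    rw [hr2] at h1
    have h2 : j / D ≤ m := by
      refine le_min ?_ ?_
      · rw [div_le_div_iff₀ hD (by norm_num)]
        have : 256 * j ≤ D := by
          rw [hDdef]
          linarith
        linarith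
      · refine div_le_div_of_nonneg_left hjp.le hK ?_
        rw [hDdef]
        have : (0 : ℝ) ≤ 256 * (1 + C0) := by positivity
        linarith
    have h3 : κ * (j / 4) * (j / D) ≤ M.vv c p :=
      (mul_le_mul_of_nonneg_left h2 (by positivity)).trans h1
    have h4 : j ^ 2 ≤ 4 * D / κ * M.vv c p := by
      have h5 : 4 * D / κ * (κ * (j / 4) * (j / D)) = j ^ 2 := by
        field_simp
      rw [← h5]
      exact mul_le_mul_of_nonneg_left h3 (by positivity)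
    have h6 : 0 ≤ 40 * (1 + C0) * M.vv c p := by
      have : 0 ≤ M.vv c p := by linarith
      positivity
    rw [add_mul]
    linarith

end

end Pool.Agent.ShG
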