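import Pool.Agent.ShG.Targets

set_option autoImplicit false

/-! LAM: the smallest eigenvalue of `τ` on the tangent space. -/

namespace Pool.Agent.ShG

open scoped BigOperators Topology ContDiff
open Set Filter

noncomputable section

variable {n : ℕ} {S : Type} [TopologicalSpace S]

/-- `τ(x,x) = ⟨Bx,x⟩/H` -/
lemma LAM_tq_eq (M : Hyp n S) (q : S) (x : Fs n) :
    M.tq x q = inner ℝ (M.Bv q x) x / M.H q := by
  rw [Hyp.inner_sum]
  unfold Hyp.tq Hyp.tau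
  rw [Finset.sum_div]
  refine Finset.sum_congr rfl fun a _ => ?_
  rw [Hyp.Bv_apply, Finset.sum_mul, Finset.sum_div]
  refine Finset.sum_congr rfl fun b _ => ?_
  ring

lemma LAM_Bv_add (M : Hyp n S) (q : S) (x y : Fs n) :
    M.Bv q (x + y) = M.Bv q x + M.Bv q y := by
  ext a
  rw [PiLp.add_apply, Hyp.Bv_apply, Hyp.Bv_apply, Hyp.Bv_apply, ← Finset.sum_add_distrib]
  refine Finset.sum_congr rfl fun b _ => ?_
  rw [PiLp.add_apply]; ring

lemma LAM_Bv_smul (M : Hyp n S) (q : S) (c : ℝ) (x : Fs n) :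
    M.Bv q (c • x) = c • M.Bv q x := by
  ext a
  rw [PiLp.smul_apply, Hyp.Bv_apply, Hyp.Bv_apply, smul_eq_mul, Finset.mul_sum]
  refine Finset.sum_congr rfl fun b _ => ?_
  rw [PiLp.smul_apply, smul_eq_mul]; ring

lemma LAM_tq_smul (M : Hyp n S) (q : S) (c : ℝ) (x : Fs n) :
    M.tq (c • x) q = c ^ 2 * M.tq x q := by
  rw [LAM_tq_eq, LAM_tq_eq, LAM_Bv_smul, inner_smul_left, inner_smul_right]
  simp
  ring

lemma LAM_tq_cont (M : Hyp n S) (q : S) : Continuous (fun x : Fs n => M.tq x q) := by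
  unfold Hyp.tq
  fun_prop

/-- adding a normal vector does not change `τ(x,x)` -/
lemma LAM_tq_normal (hHW : tHW) (M : Hyp n S) (q : S) (x : Fs n) (t : ℝ) :
    M.tq (x + t • M.N q) q = M.tq x q := by
  obtain ⟨_, _, _, h4, h5, _⟩ := hHW n S M q
  rw [LAM_tq_eq, LAM_tq_eq, h4, inner_add_right, inner_smul_right, h5]
  simp

lemma LAM_tan_nonempty (hn : 1 ≤ n) (v : Fs n) :
    ∃ e : Fs n, ‖e‖ = 1 ∧ inner ℝ e v = (0:ℝ) := by
  have hfr : Module.finrank ℝ (Fs n) = n + 1 := by simp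
  have h1 : (ℝ ∙ v)ᗮ ≠ ⊥ := by
    intro h0
    have h2 := Submodule.finrank_add_finrank_orthogonal (ℝ ∙ v)
    rw [h0, finrank_bot, hfr] at h2
    have h3 : Module.finrank ℝ (ℝ ∙ v) ≤ 1 := by
      have := finrank_span_le_card (R := ℝ) ({v} : Set (Fs n))
      simpa using this
    omega
  obtain ⟨e, he, he0⟩ := Submodule.exists_mem_ne_zero_of_ne_bot h1
  refine ⟨‖e‖⁻¹ • e, ?_, ?_⟩
  · rw [norm_smul, norm_inv, norm_norm]
    exact inv_mul_cancel₀ (norm_ne_zero_iff.2 he0)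
  · rw [inner_smul_left]
    have : inner ℝ v e = (0:ℝ) := Submodule.mem_orthogonal_singleton_iff_inner_right.1 he
    rw [real_inner_comm, this]
    simp

/-- the minimum is attained -/
lemma LAM_att (hn : 1 ≤ n) (M : Hyp n S) (q : S) :
    ∃ e : Fs n, ‖e‖ = 1 ∧ inner ℝ e (M.N q) = (0:ℝ) ∧ M.tq e q = lam M q ∧
      ∀ e' : Fs n, ‖e'‖ = 1 → inner ℝ e' (M.N q) = (0:ℝ) → M.tq e q ≤ M.tq e' q := by
  set K : Set (Fs n) := {e : Fs n | ‖e‖ = 1 ∧ inner ℝ e (M.N q) = (0:ℝ)} with hK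
  have hKc : IsCompact K := by
    have h1 : IsClosed K := by
      have a1 : IsClosed {e : Fs n | ‖e‖ = 1} := isClosed_eq continuous_norm continuous_const
      have a2 : IsClosed {e : Fs n | inner ℝ e (M.N q) = (0:ℝ)} :=
        isClosed_eq (by fun_prop) continuous_const
      exact a1.inter a2
    refine Metric.isCompact_of_isClosed_isBounded h1 ?_
    refine (Metric.isBounded_closedBall (x := (0 : Fs n)) (r := 1)).subset ?_
    intro e he
    rw [mem_closedBall_zero_iff]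
    exact he.1.le
  have hKn : K.Nonempty := LAM_tan_nonempty hn (M.N q)
  obtain ⟨e, heK, hmin⟩ := hKc.exists_isMinOn hKn (LAM_tq_cont M q).continuousOn
  have hmin' : ∀ e' ∈ K, M.tq e q ≤ M.tq e' q := fun e' he' => hmin he'
  refine ⟨e, heK.1, heK.2, ?_, fun e' h1 h2 => hmin' e' ⟨h1, h2⟩⟩
  have hleast : IsLeast ((fun e => M.tq e q) '' K) (M.tq e q) := by
    refine ⟨⟨e, heK, rfl⟩, ?_⟩
    rintro _ ⟨e', he', rfl⟩
    exact hmin' e' he'
  unfold lam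
  exact hleast.csInf_eq.symm

lemma LAM_low (hn : 1 ≤ n) (M : Hyp n S) (q : S) (e : Fs n) (h1 : ‖e‖ = 1)
    (h2 : inner ℝ e (M.N q) = (0:ℝ)) : lam M q ≤ M.tq e q := by
  obtain ⟨e0, _, _, h3, h4⟩ := LAM_att hn M q
  rw [← h3]
  exact h4 e h1 h2

lemma LAM_low' (hn : 1 ≤ n) (M : Hyp n S) (q : S) (x : Fs n)
    (h2 : inner ℝ x (M.N q) = (0:ℝ)) : lam M q * ‖x‖ ^ 2 ≤ M.tq x q := by
  by_cases hx : x = 0
  · rw [hx, LAM_tq_eq]
    simp
  · have hx' : ‖x‖ ≠ 0 := norm_ne_zero_iff.2 hx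
    have h3 := LAM_low hn M q (‖x‖⁻¹ • x) (by
      rw [norm_smul, norm_inv, norm_norm]
      exact inv_mul_cancel₀ hx') (by
      rw [inner_smul_left, h2]; simp)
    rw [LAM_tq_smul] at h3
    have h4 : 0 < ‖x‖ ^ 2 := by positivity
    calc lam M q * ‖x‖ ^ 2 ≤ (‖x‖⁻¹ ^ 2 * M.tq x q) * ‖x‖ ^ 2 := by gcongr
      _ = M.tq x q := by field_simp

/-- the lower bound for arbitrary vectors -/
lemma LAM_low'' (hHW : tHW) (hn : 1 ≤ n) (M : Hyp n S) (q : S) (x : Fs n) :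
    lam M q * (‖x‖ ^ 2 - inner ℝ x (M.N q) ^ 2) ≤ M.tq x q := by
  set t : ℝ := inner ℝ x (M.N q) with ht
  have h1 : inner ℝ (x + (-t) • M.N q) (M.N q) = (0:ℝ) := by
    rw [inner_add_left, inner_smul_left, M.NN]
    simp [ht]
  have h2 := LAM_low' hn M q _ h1
  rw [LAM_tq_normal hHW] at h2
  have h3 : ‖x + (-t) • M.N q‖ ^ 2 = ‖x‖ ^ 2 - t ^ 2 := by
    rw [norm_add_sq_real, inner_smul_right, norm_smul, M.unit, ← ht]
    simp
    ring
  rw [h3] at h2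
  exact h2

/-- eigenvector equation -/
lemma LAM_eig (hHW : tHW) (hn : 1 ≤ n) (M : Hyp n S) (q : S) (hH : M.H q ≠ 0) (e : Fs n)
    (h1 : ‖e‖ = 1) (h2 : inner ℝ e (M.N q) = (0:ℝ)) (h3 : M.tq e q = lam M q) :
    M.Bv q e = (lam M q * M.H q) • e := by
  obtain ⟨_, _, _, _, h5, h6⟩ := hHW n S M q
  have hmain : ∀ y : Fs n, inner ℝ y (M.N q) = (0:ℝ) →
      inner ℝ (M.Bv q e) y = lam M q * M.H q * inner ℝ e y := by
    intro y hy
    have hq : ∀ t : ℝ, 0 ≤ (M.tq y q - lam M q * ‖y‖ ^ 2) * (t * t) +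
        (2 * (inner ℝ (M.Bv q e) y / M.H q - lam M q * inner ℝ e y)) * t + 0 := by
      intro t
      have h7 := LAM_low' hn M q (e + t • y) (by
        rw [inner_add_left, inner_smul_left, h2, hy]; simp)
      have h8 : M.tq (e + t • y) q = M.tq e q + 2 * t * (inner ℝ (M.Bv q e) y / M.H q)
          + t ^ 2 * M.tq y q := by
        rw [LAM_tq_eq, LAM_tq_eq, LAM_tq_eq, LAM_Bv_add, LAM_Bv_smul, inner_add_left,
          inner_add_right, inner_add_right, inner_smul_left, inner_smul_left, inner_smul_right,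
          inner_smul_right]
        have h9 : inner ℝ (M.Bv q y) e = inner ℝ (M.Bv q e) y := by
          rw [h6, real_inner_comm]
        rw [h9]
        simp
        ring
      have h10 : ‖e + t • y‖ ^ 2 = 1 + 2 * t * inner ℝ e y + t ^ 2 * ‖y‖ ^ 2 := by
        rw [norm_add_sq_real, inner_smul_right, norm_smul, h1, mul_pow]
        simp
        ring
      rw [h8, h10, h3] at h7
      nlinarith
    have h11 := discrim_le_zero hq
    unfold discrim at h11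
    have h12 : (2 * (inner ℝ (M.Bv q e) y / M.H q - lam M q * inner ℝ e y)) ^ 2 ≤ 0 := by
      simpa using h11
    have h13 : 2 * (inner ℝ (M.Bv q e) y / M.H q - lam M q * inner ℝ e y) = 0 :=
      pow_eq_zero_iff (two_ne_zero) |>.1 (le_antisymm h12 (sq_nonneg _))
    have h14 : inner ℝ (M.Bv q e) y / M.H q = lam M q * inner ℝ e y := by linarith
    rw [div_eq_iff hH] at h14
    rw [h14]; ring
  have hv : inner ℝ (M.Bv q e - (lam M q * M.H q) • e) (M.N q) = (0:ℝ) := by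
    rw [inner_sub_left, inner_smul_left, h5, h2]; simp
  have h15 : inner ℝ (M.Bv q e - (lam M q * M.H q) • e)
      (M.Bv q e - (lam M q * M.H q) • e) = (0:ℝ) := by
    rw [inner_sub_left, hmain _ hv, inner_smul_left]
    simp
  exact sub_eq_zero.1 (inner_self_eq_zero.1 h15)

/-- bound for `τ(x,x)` -/
lemma LAM_tq_bd (hHW : tHW) (M : Hyp n S) (q : S) (hw : M.w q ≤ 2) (hH : 2/5 ≤ |M.H q|)
    (x : Fs n) (hx : ‖x‖ = 1) : |M.tq x q| ≤ 4 := by
  obtain ⟨_, _, h3, _⟩ := hHW n S M q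
  have h4 := h3 x
  rw [hx] at h4
  have h5 : ‖M.Bv q x‖ ≤ 3/2 := by
    refine le_of_sq_le_sq ?_ (by norm_num)
    nlinarith
  have h6 : |inner ℝ (M.Bv q x) x| ≤ 3/2 := by
    refine (abs_real_inner_le_norm _ _).trans ?_
    rw [hx, mul_one]; exact h5
  rw [LAM_tq_eq, abs_div, div_le_iff₀ (by linarith)]
  linarith

lemma LAM_lam_bd (hHW : tHW) (hn : 1 ≤ n) (M : Hyp n S) (q : S) (hw : M.w q ≤ 2)
    (hH : 2/5 ≤ |M.H q|) : |lam M q| ≤ 4 := by
  obtain ⟨e, h1, _, h3, _⟩ := LAM_att hn M q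
  rw [← h3]
  exact LAM_tq_bd hHW M q hw hH e h1

/-- gradient of a normal component -/
lemma LAM_gsq_N (hHW : tHW) (M : Hyp n S) (q : S) (hw : M.w q ≤ 2) (x : Fs n) (hx : ‖x‖ = 1) :
    M.gsq (fun p => ∑ b, x b * M.Nc b p) q ≤ (3/2) ^ 2 := by
  obtain ⟨_, _, h3, _⟩ := hHW n S M q
  have h4 := h3 x
  rw [hx] at h4
  have h5 : M.gsq (fun p => ∑ b, x b * M.Nc b p) q = ‖M.Bv q x‖ ^ 2 := by
    unfold Hyp.gsq
    rw [EuclideanSpace.norm_sq_eq]
    refine Finset.sum_congr rfl fun a _ => ?_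
    rw [Hyp.dl_sum (fun b _ => (Hyp.Sm.Nc M b q).const_mul (x b))]
    have : ∑ b, M.dl a (fun p => x b * M.Nc b p) q = - M.Bv q x a := by
      rw [Hyp.Bv_apply, ← Finset.sum_neg_distrib]
      refine Finset.sum_congr rfl fun b _ => ?_
      rw [Hyp.dl_const_mul _ (Hyp.Sm.Nc M b q), Hyp.dl_Nc]
      ring
    rw [this, Real.norm_eq_abs, sq_abs]
    ring
  rw [h5]
  linarith

/-- gradient of `B(x,x)` -/
lemma LAM_gsq_b (M : Hyp n S) (q : S) (x : Fs n) (hx : ‖x‖ = 1) :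
    M.gsq (fun p => ∑ b, ∑ c, x b * x c * M.B b c p) q ≤ M.e1 q := by
  unfold Hyp.gsq Hyp.e1
  refine Finset.sum_le_sum fun a _ => ?_
  have h1 : M.dl a (fun p => ∑ b, ∑ c, x b * x c * M.B b c p) q
      = ∑ b, ∑ c, x b * x c * M.dl a (M.B b c) q := by
    rw [Hyp.dl_sum (fun b _ => Hyp.Sm.sum fun c _ => (Hyp.Sm.B M b c q).const_mul (x b * x c))]
    refine Finset.sum_congr rfl fun b _ => ?_
    rw [Hyp.dl_sum (fun c _ => (Hyp.Sm.B M b c q).const_mul (x b * x c))]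
    refine Finset.sum_congr rfl fun c _ => ?_
    rw [Hyp.dl_const_mul _ (Hyp.Sm.B M b c q)]
  rw [h1]
  have hx2 : ∑ b, x b ^ 2 = 1 := by
    have := EuclideanSpace.norm_sq_eq x
    rw [hx] at this
    simpa using this.symm
  have e1 : ∑ b, ∑ c, x b * x c * M.dl a (M.B b c) q
      = ∑ z : Fin (n + 1) × Fin (n + 1), (x z.1 * x z.2) * M.dl a (M.B z.1 z.2) q := by
    rw [Fintype.sum_prod_type]
  have e2 : ∑ b, ∑ c, M.dl a (M.B b c) q ^ 2
      = ∑ z : Fin (n + 1) × Fin (n + 1), M.dl a (M.B z.1 z.2) q ^ 2 := by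
    rw [Fintype.sum_prod_type]
  have e3 : ∑ z : Fin (n + 1) × Fin (n + 1), (x z.1 * x z.2) ^ 2 = 1 := by
    rw [Fintype.sum_prod_type]
    simp only [mul_pow]
    rw [← Finset.sum_mul_sum, hx2, one_mul]
  rw [e1, e2]
  have := Finset.sum_mul_sq_le_sq_mul_sq (Finset.univ : Finset (Fin (n + 1) × Fin (n + 1)))
    (fun z => x z.1 * x z.2) (fun z => M.dl a (M.B z.1 z.2) q)
  rw [e3, one_mul] at this
  exact this

lemma LAM_gsq_H (M : Hyp n S) (q : S) : M.gsq M.H q ≤ (n + 1) * M.e1 q := by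
  unfold Hyp.gsq Hyp.e1
  rw [Finset.mul_sum]
  refine Finset.sum_le_sum fun a _ => ?_
  have h1 : M.dl a M.H q = ∑ b, M.dl a (M.B b b) q := by
    unfold Hyp.H
    rw [Hyp.dl_sum (fun b _ => Hyp.Sm.B M b b q)]
  rw [h1]
  have h2 := sq_sum_le_card_mul_sum_sq (s := (Finset.univ : Finset (Fin (n + 1))))
    (f := fun b => M.dl a (M.B b b) q)
  rw [Finset.card_univ, Fintype.card_fin] at h2
  push_cast at h2
  refine h2.trans ?_
  refine mul_le_mul_of_nonneg_left ?_ (by positivity)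
  refine Finset.sum_le_sum fun b _ => ?_
  exact Finset.single_le_sum (f := fun c => M.dl a (M.B b c) q ^ 2)
    (fun c _ => sq_nonneg _) (Finset.mem_univ b)

/-- gradient of `τ(x,x)` -/
lemma LAM_gsq_tq (hHW : tHW) (M : Hyp n S) (q : S) (hw : M.w q ≤ 2) (hH : 2/5 ≤ |M.H q|)
    {C : ℝ} (hC : M.e1 q ≤ C) (x : Fs n) (hx : ‖x‖ = 1) :
    M.gsq (M.tq x) q ≤ C * (200 * (n + 2)) := by
  have hH0 : M.H q ≠ 0 := by
    intro h0
    rw [h0] at hH
    norm_num at hH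
  set b : S → ℝ := fun p => ∑ b, ∑ c, x b * x c * M.B b c p with hb
  have hbs : M.Sm b q := Hyp.Sm.sum fun b _ => Hyp.Sm.sum fun c _ =>
    (Hyp.Sm.B M b c q).const_mul (x b * x c)
  have e0 : M.tq x = fun p => b p / M.H p := by
    funext p
    unfold Hyp.tq Hyp.tau
    rw [hb]
    dsimp only
    rw [Finset.sum_div]
    refine Finset.sum_congr rfl fun a _ => ?_
    rw [Finset.sum_div]
    refine Finset.sum_congr rfl fun c _ => ?_
    ring
  have e1 : ∀ a, M.dl a (M.tq x) q = M.dl a b q / M.H q - b q * M.dl a M.H q / M.H q ^ 2 := by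
    intro a
    rw [e0, Hyp.dl_div hbs (Hyp.Sm.H M q) hH0]
  have hbq : b q ^ 2 ≤ 9/4 := by
    have h1 : b q = inner ℝ (M.Bv q x) x := by
      have h2 := LAM_tq_eq M q x
      rw [e0] at h2
      dsimp only at h2
      field_simp at h2
      exact h2
    rw [h1]
    obtain ⟨_, _, h3, _⟩ := hHW n S M q
    have h4 := h3 x
    rw [hx] at h4
    have h6 : |inner ℝ (M.Bv q x) x| ≤ ‖M.Bv q x‖ := by
      refine (abs_real_inner_le_norm _ _).trans ?_
      rw [hx, mul_one]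
    have h7 : (inner ℝ (M.Bv q x) x) ^ 2 ≤ ‖M.Bv q x‖ ^ 2 := by
      rw [← sq_abs]
      exact pow_le_pow_left₀ (abs_nonneg _) h6 2
    linarith
  have hHi : (1 / M.H q) ^ 2 ≤ 25/4 := by
    rw [div_pow, one_pow, div_le_iff₀ (by positivity)]
    have : (2/5 : ℝ) ^ 2 ≤ M.H q ^ 2 := by
      rw [← sq_abs (M.H q)]
      exact pow_le_pow_left₀ (by norm_num) hH 2
    linarith
  have h1 : M.gsq (M.tq x) q ≤ ∑ a, (2 * (25/4) * M.dl a b q ^ 2
      + 2 * (9/4) * (25/4) ^ 2 * M.dl a M.H q ^ 2) := by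
    unfold Hyp.gsq
    refine Finset.sum_le_sum fun a _ => ?_
    rw [e1 a]
    have h2 : (M.dl a b q / M.H q - b q * M.dl a M.H q / M.H q ^ 2) ^ 2 ≤
        2 * (M.dl a b q / M.H q) ^ 2 + 2 * (b q * M.dl a M.H q / M.H q ^ 2) ^ 2 := by
      nlinarith [sq_nonneg (M.dl a b q / M.H q + b q * M.dl a M.H q / M.H q ^ 2)]
    refine h2.trans (add_le_add ?_ ?_)
    · have : (M.dl a b q / M.H q) ^ 2 = (1 / M.H q) ^ 2 * M.dl a b q ^ 2 := by ring
      rw [this]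
      have := mul_le_mul_of_nonneg_right hHi (sq_nonneg (M.dl a b q))
      linarith
    · have : (b q * M.dl a M.H q / M.H q ^ 2) ^ 2
          = b q ^ 2 * ((1 / M.H q) ^ 2) ^ 2 * M.dl a M.H q ^ 2 := by ring
      rw [this]
      have h3 : ((1 / M.H q) ^ 2) ^ 2 ≤ (25/4) ^ 2 :=
        pow_le_pow_left₀ (by positivity) hHi 2
      have h4 : b q ^ 2 * ((1 / M.H q) ^ 2) ^ 2 ≤ 9/4 * (25/4) ^ 2 :=
        mul_le_mul hbq h3 (by positivity) (by norm_num)
      have := mul_le_mul_of_nonneg_right h4 (sq_nonneg (M.dl a M.H q))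
      linarith
  rw [Finset.sum_add_distrib, ← Finset.mul_sum, ← Finset.mul_sum] at h1
  have h5 := LAM_gsq_b M q x hx
  have h6 := LAM_gsq_H M q
  unfold Hyp.gsq at h5 h6
  have h7 : (0:ℝ) ≤ C := (M.e1_nonneg q).trans hC
  have h8 : ((n:ℝ) + 1) * M.e1 q ≤ (n + 1) * C := mul_le_mul_of_nonneg_left hC (by positivity)
  have h9 : (0:ℝ) ≤ n * C := by positivity
  calc M.gsq (M.tq x) q ≤ 2 * (25/4) * ∑ a, M.dl a b q ^ 2
        + 2 * (9/4) * (25/4) ^ 2 * ∑ a, M.dl a M.H q ^ 2 := h1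
    _ ≤ 2 * (25/4) * C + 2 * (9/4) * (25/4) ^ 2 * ((n + 1) * C) := by
        refine add_le_add ?_ ?_
        · exact mul_le_mul_of_nonneg_left (h5.trans hC) (by norm_num)
        · exact mul_le_mul_of_nonneg_left (h6.trans h8) (by norm_num)
    _ ≤ C * (200 * (n + 2)) := by nlinarith

/-- one-sided Lipschitz estimate -/
lemma LAM_one (hHW : tHW) (hn : 1 ≤ n) (M : Hyp n S) {C : ℝ} (hC0 : 0 ≤ C)
    (hC : ∀ q, M.e1 q ≤ C) (hw : ∀ p, M.w p ≤ 2)
    (p : S) (ι : Es n →ₗᵢ[ℝ] Fs n) (g : Es n → ℝ) (σ : Es n → S) (hs : M.Nice p ι g σ)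
    (hH : ∀ q ∈ σ '' Metric.ball (0 : Es n) (1/8), 2/5 ≤ |M.H q|)
    (u u' : Es n) (hu : u ∈ Metric.ball (0 : Es n) (1/8))
    (hu' : u' ∈ Metric.ball (0 : Es n) (1/8)) :
    lam M (σ u) - lam M (σ u') ≤ (2 * Real.sqrt (C * (200 * (n + 2))) + 12) * ‖u - u'‖ := by
  obtain ⟨hsec, hslope⟩ := hs
  have hseg : segment ℝ u' u ⊆ Metric.ball (0 : Es n) (1/8) :=
    (convex_ball (0 : Es n) (1/8)).segment_subset hu' hu
  have hHm : ∀ v ∈ Metric.ball (0 : Es n) (1/8), 2/5 ≤ |M.H (σ v)| :=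
    fun v hv => hH (σ v) ⟨v, hv, rfl⟩
  have hH0 : ∀ v ∈ Metric.ball (0 : Es n) (1/8), M.H (σ v) ≠ 0 := by
    intro v hv h0
    have := hHm v hv
    rw [h0] at this
    norm_num at this
  obtain ⟨e, he1, he2, he3, _⟩ := LAM_att hn M (σ u')
  -- the two mean value estimates
  have hL0 : 0 ≤ C * (200 * ((n:ℝ) + 2)) := by positivity
  have m1 := Hyp.sec_lip (M := M) (Z := M.tq e) hsec hseg
    (L := Real.sqrt (C * (200 * (n + 2)))) (Real.sqrt_nonneg _)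
    (fun v hv => (hslope v (hseg hv)).trans (by norm_num))
    (fun v hv => Hyp.Sm.tq (hH0 v (hseg hv)) e)
    (fun v hv => by
      rw [Real.sq_sqrt hL0]
      exact LAM_gsq_tq hHW M (σ v) (hw _) (hHm v (hseg hv)) (hC _) e he1)
  have m2 := Hyp.sec_lip (M := M) (Z := fun p => ∑ b, e b * M.Nc b p) hsec hseg
    (L := 3/2) (by norm_num)
    (fun v hv => (hslope v (hseg hv)).trans (by norm_num))
    (fun v hv => Hyp.Sm.sum fun b _ => (Hyp.Sm.Nc M b (σ v)).const_mul (e b))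
    (fun v hv => LAM_gsq_N hHW M (σ v) (hw _) e he1)
  have hN : ∀ q, ∑ b, e b * M.Nc b q = inner ℝ e (M.N q) := fun q => (Hyp.inner_sum e (M.N q)).symm
  simp only [hN] at m2
  rw [he2, sub_zero] at m2
  set s : ℝ := inner ℝ e (M.N (σ u)) with hs
  have hs1 : |s| ≤ 1 := by
    refine (abs_real_inner_le_norm _ _).trans ?_
    rw [he1, M.unit, one_mul]
  have hs2 : s ^ 2 ≤ 3 * ‖u - u'‖ := by
    rw [← sq_abs]
    calc |s| ^ 2 = |s| * |s| := by ring
      _ ≤ 1 * |s| := mul_le_mul_of_nonneg_right hs1 (abs_nonneg _)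
      _ ≤ 3 * ‖u - u'‖ := by linarith
  have h1 := LAM_low'' hHW hn M (σ u) e
  rw [← hs, he1] at h1
  have h2 := LAM_lam_bd hHW hn M (σ u) (hw _) (hHm u hu)
  have h3 : lam M (σ u) * s ^ 2 ≤ 4 * (3 * ‖u - u'‖) := by
    calc lam M (σ u) * s ^ 2 ≤ 4 * s ^ 2 :=
          mul_le_mul_of_nonneg_right ((le_abs_self _).trans h2) (sq_nonneg _)
      _ ≤ 4 * (3 * ‖u - u'‖) := mul_le_mul_of_nonneg_left hs2 (by norm_num)
  have h4 := le_abs_self (M.tq e (σ u) - M.tq e (σ u'))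
  have h5 := h4.trans m1
  rw [he3] at h5
  have h6 : lam M (σ u) * (1 ^ 2 - s ^ 2) = lam M (σ u) - lam M (σ u) * s ^ 2 := by ring
  rw [h6] at h1
  rw [add_mul]
  linarith

/-- LAM -/
theorem pLAM (hBER : tBER) (hHW : tHW) : tLAM := by
  intro n R hn _
  obtain ⟨C, hC0, hC⟩ := hBER n
  refine ⟨2 * Real.sqrt (C * (200 * (n + 2))) + 12, by positivity, ?_⟩
  intro S _ _ M hM hw
  refine ⟨fun q => ?_, fun q e h1 h2 => LAM_low hn M q e h1 h2,
    fun q hH e h1 h2 h3 => LAM_eig hHW hn M q hH e h1 h2 h3, ?_⟩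
  · obtain ⟨e, h1, h2, h3, _⟩ := LAM_att hn M q
    exact ⟨e, h1, h2, h3⟩
  · intro p ι g σ hs _ hH u hu u' hu'
    have hC' : ∀ q, M.e1 q ≤ C := fun q => (hC S M hM hw q).1
    rw [abs_sub_le_iff]
    refine ⟨LAM_one hHW hn M hC0 hC' hw p ι g σ hs hH u u' hu hu', ?_⟩
    rw [norm_sub_rev]
    exact LAM_one hHW hn M hC0 hC' hw p ι g σ hs hH u' u hu' hu

end

end Pool.Agent.ShG
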