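import Pool.Agent.ShG.Targets

/-! Landau inequality in a uniform section (job ShG-LAND, helper7). -/

namespace Pool.Agent.ShG

open scoped BigOperators Topology ContDiff
open Set Filter Hyp

noncomputable section

variable {n : ℕ} {S : Type} [TopologicalSpace S]

/-- the inequality with free `t` -/
lemma LAND_aux (M : Hyp n S) {Λ : ℝ} (hΛ : 0 ≤ Λ) {p : S} {ι : Es n →ₗᵢ[ℝ] Fs n} {g : Es n → ℝ}
    {σ : Es n → S} (h : M.Nice p ι g σ) {Z : S → ℝ} {ε : ℝ}
    (hZ : ∀ u ∈ Metric.ball (0 : Es n) (1/32), M.Sm Z (σ u) ∧ |Z (σ u)| ≤ ε ∧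
      (∀ a, |M.dl a Z (σ u)| ≤ Λ) ∧ ∀ a b, |M.dl a (M.dl b Z) (σ u)| ≤ Λ)
    {t : ℝ} (ht : 0 < t) (ht' : t < 1 / 32) (hG : M.gr Z p ≠ 0) :
    ‖M.gr Z p‖ ≤ 2 * ε / t + 4 * ((n : ℝ) + 1) ^ 2 * Λ * t := by
  obtain ⟨hs, hslope⟩ := h
  have hb : σ 0 = p := hs.base
  have h0mem : (0 : Es n) ∈ Metric.ball (0 : Es n) (1/32) := by simp
  have hZp : M.Sm Z p := by have := (hZ 0 h0mem).1; rwa [hb] at this
  set G := M.gr Z p with hGdef
  have hGN : inner ℝ G (M.N p) = 0 := hZp.hasGr.1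
  have hGsplit : G = ι (prj ι G) := by
    have := hs.split (M.unit p) G
    rwa [hGN, zero_smul, add_zero] at this
  set w : Es n := prj ι G with hw
  have hnw : ‖w‖ = ‖G‖ := by
    rw [hGsplit, ι.norm_map]
  have hGpos : 0 < ‖G‖ := norm_pos_iff.2 hG
  set e : Es n := (‖G‖)⁻¹ • w with he
  have hne : ‖e‖ = 1 := by
    rw [he, norm_smul, norm_inv, norm_norm, hnw]
    field_simp
  have hGe : inner ℝ G (ι e) = ‖G‖ := by
    rw [he, map_smul, inner_smul_right, ← hGsplit, real_inner_self_eq_norm_sq]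
    field_simp
  have hsub : Metric.ball (0 : Es n) (1/32) ⊆ Metric.ball (0 : Es n) (1/8) :=
    Metric.ball_subset_ball (by norm_num)
  have hse : ∀ s : ℝ, 0 ≤ s → s ≤ t → s • e ∈ Metric.ball (0 : Es n) (1/32) := by
    intro s h0 h1
    rw [mem_ball_zero_iff, norm_smul, hne, mul_one, Real.norm_of_nonneg h0]
    linarith
  have hder : ∀ s : ℝ, 0 ≤ s → s ≤ t → HasDerivAt (fun s : ℝ => Z (σ (s • e)))
      (inner ℝ (M.gr Z (σ (s • e))) (ι e + (fderiv ℝ g (s • e) e) • M.N p)) s := by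
    intro s h0 h1
    have h2 := sec_hasFDeriv hs (hsub (hse s h0 h1)) (hZ _ (hse s h0 h1)).1
    have h3 : HasDerivAt (fun s : ℝ => s • e) e s := by
      simpa using (hasDerivAt_id s).smul_const e
    have h4 := h2.comp_hasDerivAt s h3
    rw [ContinuousLinearMap.comp_apply, IsSec.hasFDeriv_apply, innerSL_apply_apply] at h4
    exact h4
  obtain ⟨θ, hθ, hθe⟩ := exists_hasDerivAt_eq_slope (fun s : ℝ => Z (σ (s • e))) _ ht
    (fun s hs' => (hder s hs'.1 hs'.2).continuousAt.continuousWithinAt)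
    (fun s hs' => hder s hs'.1.le hs'.2.le)
  have hθm := hse θ hθ.1.le hθ.2.le
  set q := σ (θ • e) with hq
  set v : Fs n := ι e + (fderiv ℝ g (θ • e) e) • M.N p with hv
  have hv2 : ‖v‖ ≤ 2 := by
    rw [hv]
    refine (norm_add_le _ _).trans ?_
    rw [ι.norm_map, hne, norm_smul, M.unit, mul_one]
    have h3 : fderiv ℝ g (θ • e) e = inner ℝ (gradient g (θ • e)) e := by
      unfold gradient
      rw [InnerProductSpace.toDual_symm_apply]
    rw [h3]
    have h4 : ‖(inner ℝ (gradient g (θ • e)) e : ℝ)‖ ≤ ‖gradient g (θ • e)‖ * ‖e‖ :=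
      norm_inner_le_norm _ _
    rw [hne, mul_one] at h4
    have h5 := hslope _ (hsub hθm)
    linarith
  have hGv : inner ℝ G v = ‖G‖ := by
    rw [hv, inner_add_right, inner_smul_right, hGN, mul_zero, add_zero, hGe]
  have hslopeb : |inner ℝ (M.gr Z q) v| ≤ 2 * ε / t := by
    rw [hθe, sub_zero, abs_div, abs_of_pos ht]
    apply div_le_div_of_nonneg_right _ ht.le
    have a1 := (hZ _ (hse t ht.le le_rfl)).2.1
    have a2 := (hZ _ (hse 0 le_rfl ht.le)).2.1
    calc |Z (σ (t • e)) - Z (σ ((0:ℝ) • e))| ≤ |Z (σ (t • e))| + |Z (σ ((0:ℝ) • e))| := abs_sub _ _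
      _ ≤ 2 * ε := by linarith
  have hcoord : ∀ a, |M.dl a Z q - M.dl a Z p| ≤ 2 * (((n : ℝ) + 1) * Λ) * θ := by
    intro a
    have hL : 0 ≤ ((n : ℝ) + 1) * Λ := by positivity
    have hsegm : segment ℝ (0 : Es n) (θ • e) ⊆ Metric.ball (0 : Es n) (1/32) :=
      (convex_ball _ _).segment_subset h0mem hθm
    have := sec_lip (Z := M.dl a Z) hs (u := 0) (u' := θ • e) (hsegm.trans hsub) hL
      (fun v' hv' => (hslope v' (hsub (hsegm hv'))).trans (by norm_num))
      (fun v' hv' => ((hZ v' (hsegm hv')).1).dl a) (fun v' hv' => ?_)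
    · rw [hb, sub_zero, norm_smul, hne, mul_one, Real.norm_of_nonneg hθ.1.le] at this
      exact this
    · unfold Hyp.gsq
      have h1 : ∀ b ∈ (Finset.univ : Finset (Fin (n + 1))),
          (M.dl b (M.dl a Z) (σ v')) ^ 2 ≤ Λ ^ 2 := by
        intro b _
        have := (hZ v' (hsegm hv')).2.2.2 b a
        exact sq_le_sq' (abs_le.1 this).1 (abs_le.1 this).2
      refine (Finset.sum_le_sum h1).trans ?_
      rw [Finset.sum_const, Finset.card_univ, Fintype.card_fin, nsmul_eq_mul, mul_pow]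
      push_cast
      refine mul_le_mul_of_nonneg_right ?_ (sq_nonneg _)
      nlinarith [Nat.cast_nonneg (α := ℝ) n]
  have hdiff : |inner ℝ (M.gr Z q) v - inner ℝ G v| ≤ 4 * ((n : ℝ) + 1) ^ 2 * Λ * t := by
    rw [← inner_sub_left, Hyp.inner_sum]
    refine (Finset.abs_sum_le_sum_abs _ _).trans ?_
    have h1 : ∀ a ∈ (Finset.univ : Finset (Fin (n + 1))),
        |(M.gr Z q - G) a * v a| ≤ 2 * (((n : ℝ) + 1) * Λ) * t * 2 := by
      intro a _
      rw [abs_mul]
      refine mul_le_mul ?_ ((PiLp.norm_apply_le v a).trans hv2) (abs_nonneg _) (by positivity)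
      refine (hcoord a).trans ?_
      exact mul_le_mul_of_nonneg_left hθ.2.le (by positivity)
    refine (Finset.sum_le_sum h1).trans ?_
    rw [Finset.sum_const, Finset.card_univ, Fintype.card_fin, nsmul_eq_mul]
    push_cast
    apply le_of_eq
    ring
  have := abs_sub_abs_le_abs_sub (inner ℝ G v) (inner ℝ (M.gr Z q) v)
  rw [abs_sub_comm] at hdiff
  have h9 := le_abs_self (inner ℝ G v : ℝ)
  rw [hGv] at h9 this hdiff
  linarith

theorem pLAND : tLAND := by
  intro n Λ hΛ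
  refine ⟨66 + 4 * ((n : ℝ) + 1) ^ 2 * Λ, by positivity, ?_⟩
  intro S _ _ M p ι g σ h Z ε hε hε1 hZ a
  have hcomp : |M.dl a Z p| ≤ ‖M.gr Z p‖ := by
    have := PiLp.norm_apply_le (M.gr Z p) a
    simpa [Hyp.dl] using this
  refine hcomp.trans ?_
  by_cases hG : M.gr Z p = 0
  · rw [hG, norm_zero]; positivity
  rcases hε.eq_or_lt with h0 | h0
  · subst h0
    rw [Real.sqrt_zero, mul_zero]
    by_contra hcon
    push Not at hcon
    set K := 4 * ((n : ℝ) + 1) ^ 2 * Λ with hK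
    have hK0 : 0 ≤ K := by positivity
    set t := min (1 / 64) (‖M.gr Z p‖ / (2 * (K + 1))) with ht
    have htpos : 0 < t := by
      rw [ht]; exact lt_min (by norm_num) (by positivity)
    have ht1 : t < 1 / 32 := lt_of_le_of_lt (min_le_left _ _) (by norm_num)
    have ht2 : t ≤ ‖M.gr Z p‖ / (2 * (K + 1)) := min_le_right _ _
    have := LAND_aux M hΛ h hZ htpos ht1 hG
    rw [mul_zero, zero_div, zero_add] at this
    rw [le_div_iff₀ (by positivity)] at ht2
    nlinarith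
  · have hs : 0 < Real.sqrt ε := Real.sqrt_pos.2 h0
    have hs1 : Real.sqrt ε ≤ 1 := Real.sqrt_le_one.2 hε1
    have htpos : 0 < Real.sqrt ε / 33 := by positivity
    have ht1 : Real.sqrt ε / 33 < 1 / 32 := by
      rw [div_lt_div_iff₀ (by norm_num) (by norm_num)]
      linarith
    have := LAND_aux M hΛ h hZ htpos ht1 hG
    have e1 : 2 * ε / (Real.sqrt ε / 33) = 66 * Real.sqrt ε := by
      have : ε = Real.sqrt ε * Real.sqrt ε := (Real.mul_self_sqrt hε).symm
      rw [div_div_eq_mul_div, div_eq_iff hs.ne']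
      nlinarith
    rw [e1] at this
    have hK : 0 ≤ 4 * ((n : ℝ) + 1) ^ 2 * Λ := by positivity
    nlinarith [mul_nonneg hK hs.le]

end

end Pool.Agent.ShG
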