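import Pool.Agent.ShG.Targets

/-! # ShG: drift Laplacian of the second fundamental form (target `tLB`) -/

namespace Pool.Agent.ShG

open scoped BigOperators Topology ContDiff
open Set Filter Hyp

noncomputable section

variable {n : ℕ} {S : Type} [TopologicalSpace S]

lemma LB_B_symm (M : Hyp n S) (a b : Fin (n + 1)) : M.B a b = M.B b a :=
  funext fun p => B_symm a b p

/-- `δ_b w = 2 ∑_cd B_cd δ_b B_cd` -/
lemma LB_dl_w (M : Hyp n S) (b : Fin (n + 1)) (p : S) :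
    M.dl b M.w p = 2 * ∑ c, ∑ d, M.B c d p * M.dl b (M.B c d) p := by
  have e : M.dl b M.w p = ∑ c, M.dl b (fun q => ∑ d, M.B c d q ^ 2) p :=
    dl_sum (fun c _ => Sm.sum fun d _ => (Sm.B M c d p).pow 2) b
  rw [e, Finset.mul_sum]
  refine Finset.sum_congr rfl fun c _ => ?_
  rw [dl_sum (fun d _ => (Sm.B M c d p).pow 2), Finset.mul_sum]
  refine Finset.sum_congr rfl fun d _ => ?_
  rw [dl_sq (Sm.B M c d p)]
  ring

/-- `∑_cd B_cd (B²)_cd = tr B³` -/
lemma LB_tr3 (M : Hyp n S) (p : S) : ∑ c, ∑ d, M.B c d p * M.B2 c d p = M.tr3 p := by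
  unfold Hyp.tr3 Hyp.B3
  refine Finset.sum_congr rfl fun c _ => Finset.sum_congr rfl fun d _ => ?_
  rw [B_symm d c, mul_comm]

/-- `∑_cd B_cd δ_c B_db = ½ δ_b w + N_b tr B³` -/
lemma LB_key (M : Hyp n S) (hCOD : tCOD) (b : Fin (n + 1)) (p : S) :
    ∑ c, ∑ d, M.B c d p * M.dl c (M.B d b) p
      = (1 / 2) * M.dl b M.w p + M.N p b * M.tr3 p := by
  have h1 : ∀ c d, M.B c d p * M.dl c (M.B d b) p
      = M.B c d p * M.dl b (M.B c d) p + M.N p b * (M.B c d p * M.B2 c d p)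
        - M.N p c * M.B c d p * M.B2 b d p := by
    intro c d
    have h := hCOD n S M c b d p
    rw [LB_B_symm M d b]
    have h2 : M.dl c (M.B b d) p = M.dl b (M.B c d) p
        + (M.N p b * M.B2 c d p - M.N p c * M.B2 b d p) := by linarith
    rw [h2]
    ring
  have h3 : ∑ c, ∑ d, M.N p c * M.B c d p * M.B2 b d p = 0 := by
    rw [Finset.sum_comm]
    refine Finset.sum_eq_zero fun d _ => ?_
    rw [← Finset.sum_mul, B_N_left, zero_mul]
  simp_rw [h1]
  simp only [Finset.sum_sub_distrib, Finset.sum_add_distrib]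
  rw [h3, LB_dl_w]
  simp_rw [← Finset.mul_sum]
  rw [LB_tr3]
  ring

theorem pLB (hCOD : tCOD) (hLX : tLX) (hCOM : tCOM) : tLB := by
  intro n S _ M hS a b p
  have e0 : M.Lap (M.B a b) p = M.Lap (fun q => - M.dl a (M.Nc b) q) p := rfl
  rw [e0, Lap_neg ((Sm.Nc M b p).dl a), hCOM n S M hS (M.Nc b) p (Sm.Nc M b p) a]
  have eN : M.Lap (M.Nc b) = fun q => -(M.w q * M.Nc b q) := by
    funext q
    rw [(hLX n S M hS).2.1 b q]
    unfold Hyp.Nc
    ring
  have edl : ∀ d, M.dl d (M.Nc b) = fun q => - M.B d b q := fun d => by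
    funext q
    exact dl_Nc d b q
  have h1 : M.dl a (M.Lap (M.Nc b)) p = - (M.dl a M.w p * M.N p b - M.w p * M.B a b p) := by
    rw [eN, dl_neg ((Sm.w M p).mul (Sm.Nc M b p)), dl_mul (Sm.w M p) (Sm.Nc M b p), dl_Nc]
    unfold Hyp.Nc
    ring
  have h2 : ∑ c, M.B2 a c p * M.dl c (M.Nc b) p = - M.B3 a b p := by
    unfold Hyp.B3
    rw [← Finset.sum_neg_distrib]
    refine Finset.sum_congr rfl fun c _ => ?_
    rw [dl_Nc]
    ring
  have h3 : ∑ c, ∑ d, M.B c d p * M.dl c (M.dl d (M.Nc b)) p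
      = - ((1 / 2) * M.dl b M.w p + M.N p b * M.tr3 p) := by
    rw [← LB_key M hCOD b p, ← Finset.sum_neg_distrib]
    refine Finset.sum_congr rfl fun c _ => ?_
    rw [← Finset.sum_neg_distrib]
    refine Finset.sum_congr rfl fun d _ => ?_
    rw [edl d, dl_neg (Sm.B M d b p)]
    ring
  rw [h1, h2, h3, dl_Nc]
  ring

end

end Pool.Agent.ShG
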