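import Pool.Agent.ShG.Targets

/-! # ShG: the weighted barrier -/

namespace Pool.Agent.ShG

open scoped BigOperators Topology ContDiff
open Set Filter

noncomputable section

namespace Hyp

variable {n : ℕ} {S : Type} [TopologicalSpace S] {M : Hyp n S}

/-- the numerator of the barrier -/
def LBB_f (M : Hyp n S) (r : ℝ) : S → ℝ := fun q => 4 * n * Real.exp ((M.rho q - r) / 8)

lemma LBB_f_eq (r : ℝ) :
    LBB_f M r = fun q => (4 * n * Real.exp (-r / 8)) * Real.exp ((1 / 8) * M.rho q) := by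
  funext q
  unfold LBB_f
  rw [mul_assoc (4 * (n : ℝ)), ← Real.exp_add]
  congr 2
  ring

lemma LBB_Sm (r : ℝ) (p : S) : M.Sm (LBB_f M r) p := by
  rw [LBB_f_eq]
  exact ((Sm.rho M p).const_mul (1 / 8)).exp.const_mul _

lemma LBB_dl (r : ℝ) (p : S) (a : Fin (n + 1)) :
    M.dl a (LBB_f M r) p = LBB_f M r p * ((1 / 8) * M.dl a M.rho p) := by
  have hs := (Sm.rho M p).const_mul (1 / 8)
  rw [LBB_f_eq, dl_const_mul _ hs.exp, dl_exp hs, dl_const_mul _ (Sm.rho M p)]
  ring

lemma LBB_Lap (hLX : tLX) (hS : M.Shr) (r : ℝ) (p : S) :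
    M.Lap (LBB_f M r) p = LBB_f M r p *
      ((n - M.rho p) / 4 + (M.rho p - M.H p ^ 2) / 16) := by
  obtain ⟨-, -, h3, -, h5⟩ := hLX n S M hS
  have hs := (Sm.rho M p).const_mul (1 / 8)
  have hg : M.gsq (fun q => (1 / 8) * M.rho q) p = (1 / 64) * M.gsq M.rho p := by
    unfold gsq
    rw [Finset.mul_sum]
    refine Finset.sum_congr rfl fun a _ => ?_
    rw [dl_const_mul _ (Sm.rho M p)]
    ring
  rw [LBB_f_eq, Lap_const_mul _ hs.exp, Lap_exp hs, Lap_const_mul _ (Sm.rho M p), hg, h3, h5]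
  ring

/-- `|∇H|² ≤ w ρ` -/
lemma LBB_gH (hHW : tHW) (hGH : tGH) (hS : M.Shr) (p : S) :
    M.gsq M.H p ≤ M.w p * M.rho p := by
  have h := (hHW n S M p).2.2.1 (M.X p)
  have e : M.gsq M.H p = ‖M.Bv p (M.X p)‖ ^ 2 := by
    rw [EuclideanSpace.norm_sq_eq]
    unfold gsq
    refine Finset.sum_congr rfl fun a _ => ?_
    rw [hGH n S M hS, Bv_apply, Real.norm_eq_abs, sq_abs]
  rw [e]
  exact h

lemma LBB_ze (p : S) : ∑ a, M.ze a p ^ 2 = M.gsq M.H p / M.H p ^ 2 := by
  unfold gsq ze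
  rw [Finset.sum_div]
  refine Finset.sum_congr rfl fun a _ => ?_
  rw [div_pow]

lemma LBB_ar (x y : ℝ) : ((1 / 8) * x - y) ^ 2 ≤ 2 * ((1 / 64) * x ^ 2 + y ^ 2) := by
  nlinarith [sq_nonneg ((1 / 8) * x + y)]

end Hyp

open Hyp in
theorem pLBB (hLLR : tLLR) (hLX : tLX) (hHW : tHW) (hGH : tGH) : tLBB := by
  intro n hn
  have hn1 : (1 : ℝ) ≤ n := by exact_mod_cast hn
  set E : ℝ := Real.exp ((4 * n + 9) / 8) with hE
  have hE0 : 0 < E := Real.exp_pos _
  set C1 : ℝ := (80 / 9) * n * E * (n / 4 + 1) with hC1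
  set C2 : ℝ := ((80 / 9) * n * E) ^ 2 * (21 * (4 * n + 9)) with hC2
  have hC10 : 0 < C1 := by positivity
  have hC20 : 0 < C2 := by positivity
  refine ⟨C1 + C2, by positivity, ?_⟩
  intro S _ M c r hStd hr p hH
  obtain ⟨hS, hc0, hc1, hw⟩ := hStd
  have hw1 := hw p
  have hH0 : M.H p ≠ 0 := by
    intro h
    rw [h] at hH
    norm_num at hH
  have hHp : 0 < |M.H p| := by linarith
  have hw0 := w_nonneg (M := M) p
  have hρ0 : 0 ≤ M.rho p := by unfold rho; positivity
  obtain ⟨g1, g2, g3⟩ := hLLR n S M hS (LBB_f M r) p hH0 (LBB_Sm r p)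
  have hbb : bb M r = fun q => LBB_f M r q / |M.H q| := rfl
  have hf0 : 0 < LBB_f M r p := by unfold LBB_f; positivity
  set b : ℝ := LBB_f M r p / |M.H p| with hb
  have hb0 : 0 < b := by positivity
  have hbp : bb M r p = b := rfl
  have hH2 : (81 : ℝ) / 400 < M.H p ^ 2 := by
    rw [← sq_abs]
    nlinarith
  -- the operator
  have hLL : M.LL (bb M r) p =
      b * ((n - M.rho p) / 4 + (M.rho p - M.H p ^ 2) / 16 - (1 - M.w p)) := by
    rw [hbb, g2, LBB_Lap hLX hS, hb]
    field_simp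
  have hbr : b ≤ (80 / 9) * n * Real.exp ((M.rho p - r) / 8) := by
    rw [hb, div_le_iff₀ hHp]
    unfold LBB_f
    have : 0 < (n : ℝ) * Real.exp ((M.rho p - r) / 8) := by positivity
    nlinarith
  refine ⟨?_, ?_, ?_, ?_, ?_, ?_⟩
  · rw [hbb]; exact g1
  · intro hρ
    rw [hLL]
    apply mul_neg_of_pos_of_neg hb0
    nlinarith [sq_nonneg (M.H p)]
  · intro hρ
    rw [hbp, hb, le_div_iff₀ hHp]
    unfold LBB_f
    rw [hρ, sub_self, zero_div, Real.exp_zero, mul_one]
    have h1 := (hHW n S M p).1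
    have h2 : |M.H p| ^ 2 ≤ (4 * n / 3) ^ 2 := by
      rw [sq_abs]
      nlinarith
    have h3 : |M.H p| ≤ 4 * n / 3 := le_of_sq_le_sq h2 (by positivity)
    linarith
  · rw [hbp]; exact hb0
  · rw [hbp]; exact hbr
  · intro hρ
    have hbE : b ≤ (80 / 9) * n * E * Real.exp (-r / 8) := by
      refine hbr.trans ?_
      rw [mul_assoc _ E, hE, ← Real.exp_add]
      have : Real.exp ((M.rho p - r) / 8) ≤ Real.exp ((4 * n + 9) / 8 + -r / 8) := by
        apply Real.exp_le_exp.mpr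
        linarith
      gcongr
    have he0 : 0 < Real.exp (-r / 8) := Real.exp_pos _
    have he1 : Real.exp (-r / 8) ≤ 1 := by
      rw [← Real.exp_zero]
      apply Real.exp_le_exp.mpr
      linarith
    constructor
    · rw [hLL]
      have h1 : (n - M.rho p) / 4 + (M.rho p - M.H p ^ 2) / 16 - (1 - M.w p) ≤ n / 4 + 1 := by
        nlinarith [sq_nonneg (M.H p)]
      calc b * ((n - M.rho p) / 4 + (M.rho p - M.H p ^ 2) / 16 - (1 - M.w p))
          ≤ b * (n / 4 + 1) := by gcongr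
        _ ≤ ((80 / 9) * n * E * Real.exp (-r / 8)) * (n / 4 + 1) := by gcongr
        _ = C1 * Real.exp (-r / 8) := by rw [hC1]; ring
        _ ≤ (C1 + C2) * Real.exp (-r / 8) := by
            gcongr
            linarith
    · have hdl : ∀ a, M.dl a (bb M r) p = b * ((1 / 8) * M.dl a M.rho p - M.ze a p) := by
        intro a
        rw [hbb, g3, LBB_dl, hb]
        field_simp
      have hg : M.gsq (bb M r) p ≤ b ^ 2 * (2 * ((1 / 64) * M.gsq M.rho p +
          M.gsq M.H p / M.H p ^ 2)) := by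
        rw [← LBB_ze p]
        unfold gsq
        rw [Finset.mul_sum, ← Finset.sum_add_distrib, Finset.mul_sum, Finset.mul_sum]
        apply Finset.sum_le_sum
        intro a _
        rw [hdl, mul_pow]
        apply mul_le_mul_of_nonneg_left _ (sq_nonneg b)
        exact LBB_ar _ _
      obtain ⟨-, -, -, -, h5⟩ := hLX n S M hS
      have hgH := LBB_gH hHW hGH hS p
      have h6 : M.gsq M.H p / M.H p ^ 2 ≤ 10 * M.rho p := by
        rw [div_le_iff₀ (by positivity)]
        have h8 : M.w p * M.rho p ≤ (10 * M.H p ^ 2) * M.rho p := by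
          apply mul_le_mul_of_nonneg_right _ hρ0
          linarith
        linarith
      have h7 : 2 * ((1 / 64) * M.gsq M.rho p + M.gsq M.H p / M.H p ^ 2) ≤ 21 * (4 * n + 9) := by
        rw [h5]
        have h8 := sq_nonneg (M.H p)
        linarith
      calc M.gsq (bb M r) p ≤ b ^ 2 * (2 * ((1 / 64) * M.gsq M.rho p +
            M.gsq M.H p / M.H p ^ 2)) := hg
        _ ≤ b ^ 2 * (21 * (4 * n + 9)) := by gcongr
        _ ≤ ((80 / 9) * n * E * Real.exp (-r / 8)) ^ 2 * (21 * (4 * n + 9)) := by gcongr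
        _ = C2 * (Real.exp (-r / 8) * Real.exp (-r / 8)) := by rw [hC2]; ring
        _ ≤ C2 * (1 * Real.exp (-r / 8)) := by gcongr
        _ ≤ (C1 + C2) * Real.exp (-r / 8) := by
            rw [one_mul]
            gcongr
            linarith

end

end Pool.Agent.ShG
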