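import Pool.Agent.ShG.Targets

/-! The squared distance to a point on a self-shrinker. -/

namespace Pool.Agent.ShG

open scoped BigOperators Topology ContDiff
open Set Filter Hyp

variable {n : ℕ} {S : Type} [TopologicalSpace S]

/-- coordinates of `X - x₀` -/
noncomputable def LD_Z (M : Hyp n S) (x0 : Fs n) (b : Fin (n + 1)) : S → ℝ :=
  fun q => M.Xc b q - x0 b

lemma LD_Sm (M : Hyp n S) (x0 : Fs n) (b : Fin (n + 1)) (p : S) : M.Sm (LD_Z M x0 b) p :=
  (Sm.Xc M b p).sub (Sm.const M (x0 b) p)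

lemma LD_dl (M : Hyp n S) (x0 : Fs n) (a b : Fin (n + 1)) (p : S) :
    M.dl a (LD_Z M x0 b) p = (if a = b then 1 else 0) - M.N p a * M.N p b := by
  have h := dl_sub (M := M) (Sm.Xc M b p) (Sm.const M (x0 b) p) a
  rw [dl_const, sub_zero, dl_X] at h
  exact h

lemma LD_Lap (M : Hyp n S) (hM : M.Shr) (hLX : tLX) (x0 : Fs n) (b : Fin (n + 1)) (p : S) :
    M.Lap (LD_Z M x0 b) p = - M.X p b := by
  have h := Lap_sub (M := M) (Sm.Xc M b p) (Sm.const M (x0 b) p)
  rw [Lap_const, sub_zero, (hLX n S M hM).1 b p] at h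
  exact h

lemma LD_gsq (M : Hyp n S) (x0 : Fs n) (b : Fin (n + 1)) (p : S) :
    M.gsq (LD_Z M x0 b) p = 1 - M.N p b * M.N p b := by
  unfold gsq
  have e : ∀ a, (M.dl a (LD_Z M x0 b) p) ^ 2 = (if a = b then (1 - 2 * (M.N p b * M.N p b)) else 0)
      + (M.N p b * M.N p b) * (M.N p a * M.N p a) := by
    intro a
    rw [LD_dl]
    split_ifs with h
    · rw [h]; ring
    · ring
  rw [Finset.sum_congr rfl fun a _ => e a, Finset.sum_add_distrib, Finset.sum_ite_eq',
    ← Finset.mul_sum, sum_NN]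
  simp
  ring

lemma LD_D (M : Hyp n S) (x0 : Fs n) :
    (fun q => ‖M.X q - x0‖ ^ 2) = fun q => ∑ b, (LD_Z M x0 b q) ^ 2 := by
  funext q
  rw [EuclideanSpace.norm_sq_eq]
  refine Finset.sum_congr rfl fun b _ => ?_
  rw [Real.norm_eq_abs, sq_abs]
  rfl

theorem pLD (hLX : tLX) : tLD := by
  intro n S _ M hM x0 p
  have hSm : M.Sm (fun q => ‖M.X q - x0‖ ^ 2) p := by
    rw [LD_D]
    exact Sm.sum fun b _ => (LD_Sm M x0 b p).pow 2
  have hdl : ∀ a, M.dl a (fun q => ‖M.X q - x0‖ ^ 2) p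
      = 2 * ((M.X p - x0) a - inner ℝ (M.X p - x0) (M.N p) * M.N p a) := by
    intro a
    rw [LD_D, dl_sum (fun b _ => (LD_Sm M x0 b p).pow 2), inner_sum, Finset.sum_mul]
    have e : ∀ b, M.dl a (fun q => (LD_Z M x0 b q) ^ 2) p =
        (if a = b then 2 * LD_Z M x0 b p else 0) -
          2 * ((M.X p - x0) b * M.N p b * M.N p a) := by
      intro b
      rw [dl_sq (LD_Sm M x0 b p), LD_dl]
      have : LD_Z M x0 b p = (M.X p - x0) b := rfl
      rw [this]
      split_ifs <;> ring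
    rw [Finset.sum_congr rfl fun b _ => e b, Finset.sum_sub_distrib, Finset.sum_ite_eq,
      ← Finset.mul_sum]
    simp only [Finset.mem_univ, if_true]
    have : LD_Z M x0 a p = (M.X p - x0) a := rfl
    rw [this]
    ring
  refine ⟨hSm, ?_, hdl, ?_⟩
  · rw [LD_D, Lap_sum (fun b _ => (LD_Sm M x0 b p).pow 2), inner_sum]
    have e : ∀ b, M.Lap (fun q => (LD_Z M x0 b q) ^ 2) p =
        -(2 * (M.X p b * (M.X p - x0) b)) + (2 - 2 * (M.N p b * M.N p b)) := by
      intro b
      rw [Lap_sq (LD_Sm M x0 b p), LD_Lap M hM hLX, LD_gsq]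
      have : LD_Z M x0 b p = (M.X p - x0) b := rfl
      rw [this]
      ring
    rw [Finset.sum_congr rfl fun b _ => e b, Finset.sum_add_distrib, Finset.sum_sub_distrib,
      Finset.sum_neg_distrib, ← Finset.mul_sum, ← Finset.mul_sum, sum_NN]
    simp
    ring
  · unfold gsq
    rw [Finset.sum_congr rfl fun a _ => by rw [hdl a]]
    set y : Fs n := M.X p - x0 with hy
    set c : ℝ := inner ℝ y (M.N p) with hc
    have e : ∀ a, (2 * (y a - c * M.N p a)) ^ 2 =
        4 * (y a * y a) - 8 * c * (y a * M.N p a) + 4 * c ^ 2 * (M.N p a * M.N p a) := by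
      intro a; ring
    rw [Finset.sum_congr rfl fun a _ => e a, Finset.sum_add_distrib, Finset.sum_sub_distrib,
      ← Finset.mul_sum, ← Finset.mul_sum, ← Finset.mul_sum, sum_NN, ← inner_sum, ← inner_sum, ← hc,
      real_inner_self_eq_norm_sq]
    ring

end Pool.Agent.ShG
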