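import Pool.Agent.ShG.Targets

/-! # LEMA: no intermediate values of `v` -/

namespace Pool.Agent.ShG

open scoped BigOperators Topology ContDiff
open Set Filter

noncomputable section

/-- near-structure is monotone in the error -/
lemma LEMA_NSt_mono {n : ℕ} {S : Type} [TopologicalSpace S] {M : Hyp n S} {p q : S} {η η' : ℝ}
    (h : NSt M p q η) (hη : η ≤ η') : NSt M p q η' := by
  obtain ⟨h1, h2, h3, h4, h5, h6⟩ := h
  exact ⟨h1.trans hη, h2.trans hη, h3.trans hη, h4.trans hη, h5.trans hη, h6.trans hη⟩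

theorem pLEMA (hNM1 : tNM1) (hNM2 : tNM2) (hLSEC : tLSEC) (hCHN : tCHN) (hSTR : tSTR)
    (hHLB : tHLB) : tLEMA := by
  intro n R hn hR
  obtain ⟨η1, hη1, H1⟩ := hNM1 n R hn hR
  obtain ⟨η2, hη2, H2⟩ := hNM2 n R hn hR
  obtain ⟨k, hk⟩ := hLSEC n R hn hR
  obtain ⟨δa, hδa, Ha⟩ := hk (min η1 η2) (lt_min hη1 hη2)
  obtain ⟨η3, hη3, H3⟩ := hHLB n
  obtain ⟨δb, hδb, Hb⟩ := hSTR n R η3 hR hη3
  refine ⟨min (min δa δb) (1/4), lt_min (lt_min hδa hδb) (by norm_num), min_le_right _ _, ?_⟩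
  intro δ1 hδ1 hδ1s
  obtain ⟨y', c0', hy', hc0', Hc⟩ := hCHN.2 n k R δ1 hR hδ1
  refine ⟨min c0' (y' / 14), lt_min hc0' (by positivity), ?_⟩
  intro S _ _ M c hM hc p hp hv
  obtain ⟨hv1, hv2⟩ := hv
  have hca : c ≤ c0' := hc.trans (min_le_left _ _)
  have hcb : c ≤ y' / 14 := hc.trans (min_le_right _ _)
  have hva : M.vv c p ≤ δa := hv2.trans ((min_le_left _ _).trans (min_le_left _ _))
  have hvb : M.vv c p ≤ δb := hv2.trans ((min_le_left _ _).trans (min_le_right _ _))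
  obtain ⟨-, hw, -, -, hB⟩ := Hb S M c hM p hp hvb
  have hH : 19/20 ≤ |M.H p| := H3 S M p hw hB
  have hH2 : 9/10 ≤ M.H p ^ 2 := by
    rw [← sq_abs]
    nlinarith
  obtain ⟨ι, g, σ, hsec, hK⟩ := Ha S M c hM p hp hva
  have hK1 : ∀ u ∈ Kset M p ι R, 1 / (80 * n) ≤ (inner ℝ (M.N (σ u)) (M.N p) : ℝ) ∧
      NSt M p (σ u) η1 := fun u hu =>
    ⟨(hK u hu).1, LEMA_NSt_mono (hK u hu).2.1 (min_le_left _ _)⟩
  obtain ⟨u, hu, hu1, hu2, hu3⟩ := H1 S M c hM p ι g σ hp hH2 hsec hK1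
  have h13 : M.vv c (σ u) ≤ 13 * c :=
    H2 S M c hM p (σ u) hH2 (LEMA_NSt_mono (hK u hu).2.1 (min_le_right _ _)) hu1 hu2 hu3
  have hy : y' ≤ M.vv c (σ u) := Hc S M c hM hca p (σ u) hp (hK u hu).2.2 hv1
  linarith

end

end Pool.Agent.ShG
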