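import Pool.Agent.ShG.Targets

/-! ShG-LFD: derivative of a lift. -/

namespace Pool.Agent.ShG

open scoped BigOperators Topology ContDiff
open Set Filter Asymptotics

noncomputable section

lemma LFD_split {n : ℕ} (ι : Es n →ₗᵢ[ℝ] Fs n) (e : Fs n) (he : ‖e‖ = 1)
    (hp : ∀ v, inner ℝ (ι v) e = (0:ℝ)) (x : Fs n) :
    x = ι (prj ι x) + (inner ℝ x e) • e := by
  have hN0 : e ≠ 0 := by
    intro h0
    rw [h0] at he
    simp at he
  have hpr : prj ι e = 0 := by
    refine ext_inner_right ℝ fun v => ?_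
    rw [prj_inner, inner_zero_left, real_inner_comm, hp]
  set R : Submodule ℝ (Fs n) := LinearMap.range ι.toLinearMap with hR
  have hfr : Module.finrank ℝ R = n := by
    rw [hR, LinearMap.finrank_range_of_inj ι.injective]
    simp
  have hfo : Module.finrank ℝ Rᗮ = 1 := by
    have := Submodule.finrank_add_finrank_orthogonal R
    rw [hfr] at this
    simp at this
    omega
  have hNm : e ∈ Rᗮ := by
    rw [Submodule.mem_orthogonal]
    rintro _ ⟨u, rfl⟩
    exact hp u
  set y : Fs n := x - ι (prj ι x) - (inner ℝ x e) • e with hy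
  have hNN : inner ℝ e e = (1 : ℝ) := by
    rw [real_inner_self_eq_norm_sq, he]; norm_num
  have hym : y ∈ Rᗮ := by
    rw [Submodule.mem_orthogonal]
    rintro _ ⟨u, rfl⟩
    change inner ℝ (ι u) y = 0
    rw [hy, inner_sub_right, inner_sub_right, inner_smul_right, hp, ι.inner_map_map,
      real_inner_comm, ← prj_inner, real_inner_comm]
    ring
  have hyN : inner ℝ y e = 0 := by
    rw [hy, inner_sub_left, inner_sub_left, inner_smul_left, hNN, hp]
    simp
  have h1 := (finrank_eq_one_iff_of_nonzero' (⟨e, hNm⟩ : Rᗮ) (by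
    intro h0; exact hN0 (congrArg Subtype.val h0))).1 hfo ⟨y, hym⟩
  obtain ⟨c, hc⟩ := h1
  have hc' : c • e = y := congrArg Subtype.val hc
  have : c = 0 := by
    have : inner ℝ (c • e) e = 0 := by rw [hc', hyN]
    rw [inner_smul_left, hNN] at this
    simpa using this
  rw [this, zero_smul] at hc'
  have : y = 0 := hc'.symm
  rw [hy] at this
  have h3 : x - ι (prj ι x) = (inner ℝ x e) • e := sub_eq_zero.1 this
  rw [← h3]; abel

theorem pLFD : tLFD := by
  intro n S _ _ M p ι u s γ hι hL t ht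
  obtain ⟨hcont, h0, hprj, hpos⟩ := hL
  set q : S := γ t with hq
  have ha : 0 < inner ℝ (M.N p) (M.N q) := by
    have := hpos t ht
    rwa [real_inner_comm] at this
  set a : ℝ := inner ℝ (M.N p) (M.N q) with ha'
  set c : ℝ := inner ℝ (ι u) (M.N q) / a with hc
  -- the splitting
  have hsplit : ∀ r ∈ Icc (0:ℝ) s, M.X (γ r) - M.X q =
      (r - t) • ι u + (inner ℝ (M.X (γ r) - M.X q) (M.N p)) • M.N p := by
    intro r hr
    have h1 : prj ι (M.X (γ r) - M.X q) = (r - t) • u := by
      have h2 : M.X (γ r) - M.X q = (M.X (γ r) - M.X p) - (M.X (γ t) - M.X p) := by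
        rw [hq]; abel
      rw [h2, map_sub, hprj r hr, hprj t ht, sub_smul]
    have h3 := LFD_split ι (M.N p) (M.unit p) hι (M.X (γ r) - M.X q)
    rw [h1, map_smul] at h3
    exact h3
  -- tangency along the curve
  have hγ : Tendsto γ (𝓝[Icc 0 s] t) (𝓝 q) := hcont t ht
  have htan : (fun r => inner ℝ (M.N q) (M.X (γ r) - M.X q)) =o[𝓝[Icc 0 s] t]
      (fun r => M.X (γ r) - M.X q) := (M.tangency q).comp_tendsto hγ
  have hid : ∀ r ∈ Icc (0:ℝ) s, (M.X (γ r) - M.X q) - (r - t) • (ι u - c • M.N p) =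
      (a⁻¹ * inner ℝ (M.N q) (M.X (γ r) - M.X q)) • M.N p := by
    intro r hr
    set lam : ℝ := inner ℝ (M.X (γ r) - M.X q) (M.N p) with hlam
    have h1 := hsplit r hr
    have h2 : inner ℝ (M.N q) (M.X (γ r) - M.X q) = (r - t) * inner ℝ (ι u) (M.N q) + lam * a := by
      rw [h1, inner_add_right, inner_smul_right, inner_smul_right, real_inner_comm (ι u) (M.N q),
        real_inner_comm (M.N p) (M.N q)]
    have h3 : a⁻¹ * inner ℝ (M.N q) (M.X (γ r) - M.X q) = (r - t) * c + lam := by
      rw [h2, hc]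
      field_simp
    rw [h3]
    have h4 : M.X (γ r) - M.X q = (r - t) • ι u + lam • M.N p := h1
    rw [h4, smul_sub, smul_smul, add_smul]
    abel
  have hlit : (fun r => (M.X (γ r) - M.X q) - (r - t) • (ι u - c • M.N p)) =o[𝓝[Icc 0 s] t]
      (fun r => M.X (γ r) - M.X q) := by
    have h1 : (fun r => (a⁻¹ * inner ℝ (M.N q) (M.X (γ r) - M.X q)) • M.N p) =o[𝓝[Icc 0 s] t]
        (fun r => M.X (γ r) - M.X q) := by
      have h2 : (fun r => (a⁻¹ * inner ℝ (M.N q) (M.X (γ r) - M.X q)) • M.N p) =O[𝓝[Icc 0 s] t]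
          (fun r => inner ℝ (M.N q) (M.X (γ r) - M.X q)) := by
        refine IsBigO.of_bound |a⁻¹| (Eventually.of_forall fun r => ?_)
        rw [norm_smul, M.unit, mul_one, norm_mul, Real.norm_eq_abs a⁻¹]
      exact h2.trans_isLittleO htan
    refine h1.congr' ?_ EventuallyEq.rfl
    filter_upwards [self_mem_nhdsWithin] with r hr
    exact (hid r hr).symm
  have heq : (fun r => (r - t) • (ι u - c • M.N p)) ~[𝓝[Icc 0 s] t]
      (fun r => M.X (γ r) - M.X q) := by
    have h1 : ((fun r => (r - t) • (ι u - c • M.N p)) - (fun r => M.X (γ r) - M.X q))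
        =o[𝓝[Icc 0 s] t] (fun r => M.X (γ r) - M.X q) := by
      refine hlit.neg_left.congr_left fun r => ?_
      simp only [Pi.sub_apply]
      abel
    exact h1
  have hO : (fun r => M.X (γ r) - M.X q) =O[𝓝[Icc 0 s] t] (fun r => r - t) := by
    refine heq.isBigO_symm.trans ?_
    refine IsBigO.of_bound ‖ι u - c • M.N p‖ (Eventually.of_forall fun r => ?_)
    rw [norm_smul, mul_comm]
  have hfin := hlit.trans_isBigO hO
  rw [hasDerivWithinAt_iff_isLittleO]
  exact hfin

end

end Pool.Agent.ShG
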