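import Pool.Agent.ShG.Targets

/-!
# ShG (MP_61ae63_gt), job LI1: the lifting lemma, topological part
-/

namespace Pool.Agent.ShG

open scoped BigOperators Topology ContDiff
open Set Filter

noncomputable section

variable {n : ℕ} {S : Type} [TopologicalSpace S]

open Hyp

/-- the open set where the normal makes an acute angle with `N p` -/
abbrev LI1_O (M : Hyp n S) (p : S) : Type := {q : S // 0 < (inner ℝ (M.N q) (M.N p) : ℝ)}

/-- the projection in `S` -/
def LI1_P (M : Hyp n S) (p : S) (ι : Es n →ₗᵢ[ℝ] Fs n) (q : S) : Es n :=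
  prj ι (M.X q - M.X p)

lemma LI1_contP (M : Hyp n S) (p : S) (ι : Es n →ₗᵢ[ℝ] Fs n) : Continuous (LI1_P M p ι) :=
  (prj ι).continuous.comp ((contX (M := M)).sub continuous_const)

/-- the projection restricted to the open set -/
def LI1_F (M : Hyp n S) (p : S) (ι : Es n →ₗᵢ[ℝ] Fs n) (q : LI1_O M p) : Es n :=
  LI1_P M p ι q.1

lemma LI1_contF (M : Hyp n S) (p : S) (ι : Es n →ₗᵢ[ℝ] Fs n) : Continuous (LI1_F M p ι) :=
  (LI1_contP M p ι).comp continuous_subtype_val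

lemma LI1_isOpenO (M : Hyp n S) (p : S) : IsOpen {q : S | 0 < (inner ℝ (M.N q) (M.N p) : ℝ)} :=
  isOpen_lt continuous_const ((contN (M := M)).inner continuous_const)

lemma LI1_locHomeo [T2Space S] (hLOI : tLOI) (M : Hyp n S) (p : S) (ι : Es n →ₗᵢ[ℝ] Fs n)
    (hι : ∀ v, inner ℝ (ι v) (M.N p) = (0:ℝ)) : IsLocalHomeomorph (LI1_F M p ι) := by
  rw [isLocalHomeomorph_iff_isOpenEmbedding_restrict]
  intro x
  obtain ⟨V, τ, hV, hqV, hτq, hτc, hτo, hτF, -, -⟩ := hLOI n S M p ι hι x.1 x.2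
  have hW : IsOpen (τ '' V) := hτo V le_rfl hV
  refine ⟨Subtype.val ⁻¹' (τ '' V), (hW.preimage continuous_subtype_val).mem_nhds
    ⟨_, hqV, hτq⟩, ?_⟩
  refine Topology.IsOpenEmbedding.of_continuous_injective_isOpenMap
    ((LI1_contF M p ι).comp continuous_subtype_val) ?_ ?_
  · rintro ⟨a, va, hva, ha⟩ ⟨b, vb, hvb, hb⟩ hab
    apply Subtype.ext
    apply Subtype.ext
    have h1 : LI1_P M p ι a.1 = va := by
      rw [← ha]
      exact hτF va hva
    have h2 : LI1_P M p ι b.1 = vb := by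
      rw [← hb]
      exact hτF vb hvb
    have h3 : LI1_P M p ι a.1 = LI1_P M p ι b.1 := hab
    rw [h1, h2] at h3
    change a.1 = b.1
    rw [← ha, ← hb, h3]
  · intro A hA
    obtain ⟨A1, hA1, rfl⟩ := hA
    obtain ⟨A2, hA2, rfl⟩ := hA1
    have h4 : IsOpen (V ∩ τ ⁻¹' (A2 ∩ {q : S | 0 < (inner ℝ (M.N q) (M.N p) : ℝ)})) :=
      hτc.isOpen_inter_preimage hV (hA2.inter (LI1_isOpenO M p))
    have h5 : (Subtype.val ⁻¹' (τ '' V) : Set (LI1_O M p)).domRestrict (LI1_F M p ι) ''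
        (Subtype.val ⁻¹' (Subtype.val ⁻¹' A2)) =
        V ∩ τ ⁻¹' (A2 ∩ {q : S | 0 < (inner ℝ (M.N q) (M.N p) : ℝ)}) := by
      ext v
      constructor
      · rintro ⟨⟨a, w, hw, ha⟩, haA, hav⟩
        have h6 : LI1_P M p ι a.1 = w := by
          rw [← ha]
          exact hτF w hw
        have h7 : v = w := by
          rw [← hav]
          exact h6
        subst h7
        refine ⟨hw, ?_, ?_⟩
        · rw [ha]
          exact haA
        · change 0 < (inner ℝ (M.N (τ v)) (M.N p) : ℝ)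
          rw [ha]
          exact a.2
      · rintro ⟨hv, hv2, hv3⟩
        exact ⟨⟨⟨τ v, hv3⟩, v, hv, rfl⟩, hv2, hτF v hv⟩
    rw [h5]
    exact h4

/-- extension of a lift -/
lemma LI1_glue (M : Hyp n S) (p : S) (ι : Es n →ₗᵢ[ℝ] Fs n) (u : Es n) (s0 s1 : ℝ) (h0 : 0 ≤ s0)
    (h01 : s0 ≤ s1) (γ : ℝ → S) (hγ : M.Lift p ι u s0 γ) (V : Set (Es n)) (τ : Es n → S)
    (hτc : ContinuousOn τ V) (hτF : ∀ v ∈ V, prj ι (M.X (τ v) - M.X p) = v)
    (hτN : ∀ v ∈ V, 0 < (inner ℝ (M.N (τ v)) (M.N p) : ℝ))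
    (hseg : ∀ r ∈ Icc s0 s1, r • u ∈ V) (hglue : τ (s0 • u) = γ s0) :
    M.Lift p ι u s1 (fun r => if r ≤ s0 then γ r else τ (r • u)) := by
  obtain ⟨g1, g2, g3, g4⟩ := hγ
  have e1 : ∀ r ∈ Icc (0:ℝ) s0, (if r ≤ s0 then γ r else τ (r • u)) = γ r := by
    intro r hr
    rw [if_pos hr.2]
  have e2 : ∀ r ∈ Icc s0 s1, (if r ≤ s0 then γ r else τ (r • u)) = τ (r • u) := by
    intro r hr
    by_cases h : r ≤ s0
    · have h2 : r = s0 := le_antisymm h hr.1
      rw [if_pos h, h2, hglue]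
    · rw [if_neg h]
  have hsplit : ∀ r ∈ Icc (0:ℝ) s1, r ∈ Icc (0:ℝ) s0 ∨ r ∈ Icc s0 s1 := by
    intro r hr
    rcases le_total r s0 with h | h
    · exact Or.inl ⟨hr.1, h⟩
    · exact Or.inr ⟨h, hr.2⟩
  refine ⟨?_, ?_, ?_, ?_⟩
  · have hu : Icc (0:ℝ) s1 = Icc (0:ℝ) s0 ∪ Icc s0 s1 := (Icc_union_Icc_eq_Icc h0 h01).symm
    rw [hu]
    refine ContinuousOn.union_of_isClosed ?_ ?_ isClosed_Icc isClosed_Icc
    · exact g1.congr e1
    · refine ContinuousOn.congr ?_ e2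
      exact hτc.comp (continuous_id.smul continuous_const).continuousOn hseg
  · change (if (0:ℝ) ≤ s0 then γ 0 else τ ((0:ℝ) • u)) = p
    rw [if_pos h0, g2]
  · intro r hr
    change prj ι (M.X (if r ≤ s0 then γ r else τ (r • u)) - M.X p) = r • u
    rcases hsplit r hr with h | h
    · rw [e1 r h]
      exact g3 r h
    · rw [e2 r h]
      exact hτF _ (hseg r h)
  · intro r hr
    change 0 < (inner ℝ (M.N (if r ≤ s0 then γ r else τ (r • u))) (M.N p) : ℝ)
    rcases hsplit r hr with h | h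
    · rw [e1 r h]
      exact g4 r h
    · rw [e2 r h]
      exact hτN _ (hseg r h)

/-- existence of the lift of one segment -/
lemma LI1_exists [T2Space S] (hLOI : tLOI) (M : Hyp n S) (p : S) (ι : Es n →ₗᵢ[ℝ] Fs n)
    (hι : ∀ v, inner ℝ (ι v) (M.N p) = (0:ℝ)) (u : Es n) (τ0 R' : ℝ) (hτ0 : 0 < τ0)
    (hb : ∀ s ∈ Icc (0:ℝ) 1, ∀ γ : ℝ → S, M.Lift p ι u s γ →
      τ0 ≤ inner ℝ (M.N (γ s)) (M.N p) ∧ ‖M.X (γ s)‖ ≤ R') :
    ∃ γ : ℝ → S, M.Lift p ι u 1 γ := by
  set T : Set ℝ := {s | s ∈ Icc (0:ℝ) 1 ∧ ∃ γ : ℝ → S, M.Lift p ι u s γ} with hT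
  have h0T : (0:ℝ) ∈ T := by
    refine ⟨⟨le_rfl, zero_le_one⟩, fun _ => p, continuousOn_const, rfl, ?_, ?_⟩
    · intro t ht
      have : t = 0 := le_antisymm ht.2 ht.1
      rw [this, sub_self, map_zero, zero_smul]
    · intro t _
      rw [M.NN p]
      exact one_pos
  have hbdd : BddAbove T := ⟨1, fun s hs => hs.1.2⟩
  set s' : ℝ := sSup T with hs'
  have hs0 : 0 ≤ s' := le_csSup hbdd h0T
  have hs1 : s' ≤ 1 := csSup_le ⟨0, h0T⟩ fun s hs => hs.1.2
  have hex : ∀ k : ℕ, ∃ t ∈ T, s' - 1 / ((k : ℝ) + 1) < t := by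
    intro k
    refine exists_lt_of_lt_csSup ⟨0, h0T⟩ ?_
    have : 0 < 1 / ((k : ℝ) + 1) := by positivity
    linarith
  choose t htT ht using hex
  have htle : ∀ k, t k ≤ s' := fun k => le_csSup hbdd (htT k)
  have htlim : Tendsto t atTop (𝓝 s') := by
    have h1 : Tendsto (fun k : ℕ => s' - 1 / ((k : ℝ) + 1)) atTop (𝓝 (s' - 0)) :=
      tendsto_const_nhds.sub tendsto_one_div_add_atTop_nhds_zero_nat
    rw [sub_zero] at h1
    exact tendsto_of_tendsto_of_tendsto_of_le_of_le h1 tendsto_const_nhds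
      (fun k => (ht k).le) htle
  choose γ hγ using fun k => (htT k).2
  have hbk : ∀ k, τ0 ≤ inner ℝ (M.N (γ k (t k))) (M.N p) ∧ ‖M.X (γ k (t k))‖ ≤ R' :=
    fun k => hb (t k) (htT k).1 (γ k) (hγ k)
  have hcomp : IsCompact (M.X ⁻¹' (Metric.closedBall 0 R') ∩
      {q : S | τ0 ≤ (inner ℝ (M.N q) (M.N p) : ℝ)}) := by
    refine IsCompact.inter_right (M.proper.isCompact_preimage (isCompact_closedBall _ _)) ?_
    exact isClosed_le continuous_const ((contN (M := M)).inner continuous_const)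
  obtain ⟨q, ⟨hq1, hq2⟩, hq3⟩ := hcomp.exists_mapClusterPt (f := atTop)
    (u := fun k => γ k (t k)) (by
      rw [le_principal_iff, mem_map]
      refine Filter.Eventually.of_forall fun k => ⟨?_, (hbk k).1⟩
      rw [mem_preimage, mem_closedBall_zero_iff]
      exact (hbk k).2)
  rw [mapClusterPt_iff_frequently] at hq3
  have hFk : ∀ k, LI1_P M p ι (γ k (t k)) = t k • u := fun k =>
    (hγ k).2.2.1 (t k) ⟨(htT k).1.1, le_rfl⟩
  have hFq : LI1_P M p ι q = s' • u := by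
    by_contra hne
    obtain ⟨A, B, hA, hB, hqA, hsB, hAB⟩ := t2_separation hne
    have h1 : ∃ᶠ k in atTop, γ k (t k) ∈ LI1_P M p ι ⁻¹' A :=
      hq3 _ ((hA.preimage (LI1_contP M p ι)).mem_nhds hqA)
    have h2 : ∀ᶠ k in atTop, t k • u ∈ B :=
      (htlim.smul_const u).eventually (hB.mem_nhds hsB)
    obtain ⟨k, hk1, hk2⟩ := (h1.and_eventually h2).exists
    rw [mem_preimage, hFk k] at hk1
    exact disjoint_left.mp hAB hk1 hk2
  obtain ⟨V, τ, hV, hqV, hτq, hτc, hτo, hτF, -, hτN⟩ := hLOI n S M p ι hι q (hτ0.trans_le hq2)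
  have hsV : s' • u ∈ V := by
    rw [← hFq]
    exact hqV
  have hVs : {s : ℝ | s • u ∈ V} ∈ 𝓝 s' :=
    (hV.preimage (continuous_id.smul continuous_const)).mem_nhds hsV
  obtain ⟨ε, hε, hball⟩ := Metric.mem_nhds_iff.mp hVs
  have hW : τ '' V ∈ 𝓝 q := (hτo V le_rfl hV).mem_nhds ⟨_, hqV, hτq⟩
  have h2 : ∀ᶠ k in atTop, s' - ε < t k :=
    htlim.eventually (lt_mem_nhds (by linarith))
  obtain ⟨k, ⟨v, hvV, hv⟩, hk2⟩ := ((hq3 _ hW).and_eventually h2).exists
  have hvt : v = t k • u := by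
    rw [← hFk k, ← hv]
    exact (hτF v hvV).symm
  rw [hvt] at hv
  set s1 : ℝ := min 1 (s' + ε / 2) with hs1'
  have hs's1 : s' ≤ s1 := le_min hs1 (by linarith)
  have hlift := LI1_glue M p ι u (t k) s1 (htT k).1.1 ((htle k).trans hs's1) (γ k) (hγ k) V τ
    hτc hτF hτN (by
      intro r hr
      apply hball
      rw [Metric.mem_ball, Real.dist_eq, abs_lt]
      have h3 : r ≤ s' + ε / 2 := hr.2.trans (min_le_right _ _)
      have h4 := hr.1
      constructor <;> linarith) hv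
  have hs1T : s1 ∈ T := ⟨⟨hs0.trans hs's1, min_le_left _ _⟩, _, hlift⟩
  have h5 : s1 ≤ s' := le_csSup hbdd hs1T
  have h6 : s1 = 1 := by
    rcases min_choice 1 (s' + ε / 2) with h | h
    · exact h
    · exfalso
      rw [hs1', h] at h5
      linarith
  rw [← h6]
  exact ⟨_, hlift⟩

theorem pLI1 (hLOI : tLOI) : tLI1 := by
  intro n S _ _ M p ι hι K τ0 R' hK h0K hconv hτ0 hb
  have hex : ∀ u : K, ∃ γ : ℝ → S, M.Lift p ι (u : Es n) 1 γ := fun u =>
    LI1_exists hLOI M p ι hι u τ0 R' hτ0 fun s hs γ hγ => hb u u.2 s hs γ hγ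
  choose Γ hΓ using hex
  have homeo : IsLocalHomeomorph (LI1_F M p ι) := LI1_locHomeo hLOI M p ι hι
  have sep : IsSeparatedMap (LI1_F M p ι) := T2Space.isSeparatedMap _
  have inj : IsLocallyInjective (LI1_F M p ι) := homeo.isLocallyInjective
  -- the family of lifts
  let g : unitInterval × K → LI1_O M p := fun x => ⟨Γ x.2 x.1, (hΓ x.2).2.2.2 _ x.1.2⟩
  have hFg : ∀ x : unitInterval × K, LI1_F M p ι (g x) = (x.1 : ℝ) • (x.2 : Es n) := fun x =>
    (hΓ x.2).2.2.1 _ x.1.2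
  have hg0 : ∀ u : K, (g (0, u)).1 = p := fun u => (hΓ u).2.1
  have hgc : ∀ u : K, Continuous fun t : unitInterval => g (t, u) := by
    intro u
    refine Continuous.subtype_mk ?_ _
    exact continuousOn_iff_continuous_domRestrict.mp (hΓ u).1
  have hp1 : (0:ℝ) < inner ℝ (M.N p) (M.N p) := by
    rw [M.NN p]
    exact one_pos
  have hcont : Continuous g := by
    refine homeo.continuous_lift sep
      ⟨fun x : unitInterval × K => (x.1 : ℝ) • (x.2 : Es n), by fun_prop⟩ ?_ ?_ hgc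
    · funext x
      exact hFg x
    · have : (fun u : K => g (0, u)) = fun _ => ⟨p, hp1⟩ := by
        funext u
        exact Subtype.ext (hg0 u)
      rw [this]
      exact continuous_const
  classical
  let σ : Es n → S := fun u => if h : u ∈ K then (g (1, ⟨u, h⟩)).1 else p
  have hσ : ∀ (u : Es n) (h : u ∈ K), σ u = (g (1, ⟨u, h⟩)).1 := fun u h => dif_pos h
  have hsm : ∀ u ∈ K, ∀ t ∈ Icc (0:ℝ) 1, t • u ∈ K := by
    intro u hu t ht
    exact hconv.smul_mem_of_zero_mem h0K hu ht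
  -- key identity
  have key : ∀ (u : K) (t : unitInterval), (g (t, u)).1 = σ ((t : ℝ) • (u : Es n)) := by
    intro u t
    have htu := hsm u u.2 t t.2
    rw [hσ _ htu]
    have h1 : (fun s : unitInterval => g (s * t, u)) =
        fun s : unitInterval => g (s, ⟨(t : ℝ) • (u : Es n), htu⟩) := by
      refine sep.eq_of_comp_eq inj ?_ (hgc _) ?_ 0 ?_
      · exact (hgc u).comp (continuous_id.mul continuous_const)
      · funext s
        rw [Function.comp_apply, Function.comp_apply, hFg, hFg]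
        change ((s * t : unitInterval) : ℝ) • (u : Es n) = (s : ℝ) • ((t : ℝ) • (u : Es n))
        rw [smul_smul]
        rfl
      · apply Subtype.ext
        rw [zero_mul, hg0, hg0]
    have h2 := congrFun h1 1
    simp only [one_mul] at h2
    rw [h2]
  have hσ0 : σ 0 = p := by
    have h1 := key ⟨0, h0K⟩ 0
    rw [hg0] at h1
    rw [h1]
    simp
  refine ⟨σ, hσ0, ?_, ?_⟩
  · intro u hu
    have hL := hΓ ⟨u, hu⟩
    have e : ∀ t ∈ Icc (0:ℝ) 1, σ (t • u) = Γ ⟨u, hu⟩ t := fun t ht =>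
      (key ⟨u, hu⟩ ⟨t, ht⟩).symm
    refine ⟨hL.1.congr e, ?_, ?_, ?_⟩
    · change σ ((0:ℝ) • u) = p
      rw [zero_smul, hσ0]
    · intro t ht
      change prj ι (M.X (σ (t • u)) - M.X p) = t • u
      rw [e t ht]
      exact hL.2.2.1 t ht
    · intro t ht
      change 0 < (inner ℝ (M.N (σ (t • u))) (M.N p) : ℝ)
      rw [e t ht]
      exact hL.2.2.2 t ht
  · intro u0 hu0 V τ hV hu0V hτu0 hτc hτF hτN
    obtain ⟨U, hU, hqU, hUinj⟩ := inj (g (1, ⟨u0, hu0⟩))
    obtain ⟨W, hW, rfl⟩ := hU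
    have hσc : Continuous fun u : K => g (1, u) := hcont.comp (by fun_prop)
    have hA : IsOpen {u : K | (g (1, u)).1 ∈ W} :=
      hW.preimage (continuous_subtype_val.comp hσc)
    obtain ⟨A, hAo, hAeq⟩ := hA
    have hu0A : u0 ∈ A := by
      have : (⟨u0, hu0⟩ : K) ∈ Subtype.val ⁻¹' A := by
        rw [hAeq]
        exact hqU
      exact this
    have hB : IsOpen (V ∩ τ ⁻¹' W) := hτc.isOpen_inter_preimage hV hW
    have hu0B : u0 ∈ V ∩ τ ⁻¹' W := by
      refine ⟨hu0V, ?_⟩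
      rw [mem_preimage, hτu0, hσ u0 hu0]
      exact hqU
    filter_upwards [hK.mem_nhds hu0, hAo.mem_nhds hu0A, hB.mem_nhds hu0B] with u huK huA huB
    rw [hσ u huK]
    have h1 : (g (1, ⟨u, huK⟩)).1 ∈ W := by
      have h2 : (⟨u, huK⟩ : K) ∈ Subtype.val ⁻¹' A := huA
      rw [hAeq] at h2
      exact h2
    have h3 : g (1, ⟨u, huK⟩) = ⟨τ u, hτN u huB.1⟩ := by
      apply hUinj
      · exact h1
      · exact huB.2
      · rw [hFg]
        change ((1 : unitInterval) : ℝ) • u = prj ι (M.X (τ u) - M.X p)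
        rw [hτF u huB.1]
        simp
    rw [h3]

end

end Pool.Agent.ShG
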