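import Pool.Agent.ShG.Targets

/-!
# LIFT: the lifting lemma
-/

set_option autoImplicit false

namespace Pool.Agent.ShG

open scoped BigOperators Topology ContDiff
open Set Filter Asymptotics

variable {n : ℕ} {S : Type} [TopologicalSpace S]

/-- every ambient vector splits, for an isometry onto the orthogonal complement -/
lemma LIFT_split (M : Hyp n S) {p : S} {ι : Es n →ₗᵢ[ℝ] Fs n}
    (hι : ∀ v, inner ℝ (ι v) (M.N p) = (0 : ℝ)) (x : Fs n) :
    x = ι (prj ι x) + (inner ℝ x (M.N p)) • M.N p := by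
  have hN : ‖M.N p‖ = 1 := M.unit p
  have hN0 : M.N p ≠ 0 := by
    intro h0
    rw [h0, norm_zero] at hN
    exact zero_ne_one hN
  set R : Submodule ℝ (Fs n) := LinearMap.range ι.toLinearMap with hR
  have hfr : Module.finrank ℝ R = n := by
    rw [hR, LinearMap.finrank_range_of_inj ι.injective]
    simp
  have hfo : Module.finrank ℝ Rᗮ = 1 := by
    have := Submodule.finrank_add_finrank_orthogonal R
    rw [hfr] at this
    simp at this
    omega
  have hNm : M.N p ∈ Rᗮ := by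
    rw [Submodule.mem_orthogonal]
    rintro _ ⟨u, rfl⟩
    exact hι u
  set y : Fs n := x - ι (prj ι x) - (inner ℝ x (M.N p)) • M.N p with hy
  have hNN : inner ℝ (M.N p) (M.N p) = (1 : ℝ) := M.NN p
  have hym : y ∈ Rᗮ := by
    rw [Submodule.mem_orthogonal]
    rintro _ ⟨u, rfl⟩
    change inner ℝ (ι u) y = 0
    rw [hy, inner_sub_right, inner_sub_right, inner_smul_right, hι, ι.inner_map_map,
      real_inner_comm, ← prj_inner, real_inner_comm]
    ring
  have hyN : inner ℝ y (M.N p) = 0 := by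
    rw [hy, inner_sub_left, inner_sub_left, inner_smul_left, hNN, hι]
    simp
  have h1 := (finrank_eq_one_iff_of_nonzero' (⟨M.N p, hNm⟩ : Rᗮ) (by
    intro h0
    exact hN0 (congrArg Subtype.val h0))).1 hfo ⟨y, hym⟩
  obtain ⟨c, hc⟩ := h1
  have hc' : c • M.N p = y := congrArg Subtype.val hc
  have hc0 : c = 0 := by
    have h2 : inner ℝ (c • M.N p) (M.N p) = 0 := by rw [hc', hyN]
    rw [inner_smul_left, hNN] at h2
    simpa using h2
  rw [hc0, zero_smul] at hc'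
  have h4 : y = 0 := hc'.symm
  rw [hy] at h4
  have h3 : x - ι (prj ι x) = (inner ℝ x (M.N p)) • M.N p := sub_eq_zero.1 h4
  rw [← h3]
  abel

/-- the normal of a graph -/
lemma LIFT_normal (M : Hyp n S) {p : S} {ι : Es n →ₗᵢ[ℝ] Fs n}
    (hι : ∀ v, inner ℝ (ι v) (M.N p) = (0 : ℝ)) {σ : Es n → S} {g : Es n → ℝ} {u : Es n}
    (hσ : ContinuousAt σ u) (hg : DifferentiableAt ℝ g u)
    (hgr : ∀ᶠ v in 𝓝 u, M.X (σ v) = M.X p + ι v + g v • M.N p)
    (hpos : 0 < (inner ℝ (M.N (σ u)) (M.N p) : ℝ)) :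
    M.N (σ u) = (Real.sqrt (1 + ‖gradient g u‖ ^ 2))⁻¹ • (M.N p - ι (gradient g u)) := by
  set ν := M.N (σ u) with hν
  set L : Es n →L[ℝ] Fs n :=
    ι.toContinuousLinearMap + (fderiv ℝ g u).smulRight (M.N p) with hL
  have hF : HasFDerivAt (fun v => M.X (σ v)) L u := by
    have h1 : HasFDerivAt (fun v => M.X p + ι v + g v • M.N p) L u := by
      have a1 : HasFDerivAt (fun v => M.X p + ι v) ι.toContinuousLinearMap u := by
        have := (ι.toContinuousLinearMap.hasFDerivAt (x := u)).const_add (M.X p)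
        exact this
      exact a1.add (hg.hasFDerivAt.smul_const (M.N p))
    exact h1.congr_of_eventuallyEq hgr
  have hLv : ∀ v, L v = ι v + (fderiv ℝ g u v) • M.N p := fun v => by simp [hL]
  -- the image of the derivative is orthogonal to `ν`
  have horth : ∀ v, (inner ℝ ν (L v) : ℝ) = 0 := by
    have h1 : (fun v => inner ℝ ν (M.X (σ v) - M.X (σ u))) =o[𝓝 u]
        (fun v => M.X (σ v) - M.X (σ u)) := (M.tangency (σ u)).comp_tendsto hσ
    have h2 : (fun v => inner ℝ ν (M.X (σ v) - M.X (σ u))) =o[𝓝 u] (fun v => v - u) :=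
      h1.trans_isBigO hF.isBigO_sub
    have h3 : HasFDerivAt (fun v => (inner ℝ ν (M.X (σ v)) : ℝ)) (0 : Es n →L[ℝ] ℝ) u := by
      rw [hasFDerivAt_iff_isLittleO]
      refine h2.congr_left fun v => ?_
      rw [inner_sub_right]
      simp
    have h4 : HasFDerivAt (fun v => (inner ℝ ν (M.X (σ v)) : ℝ)) ((innerSL ℝ ν).comp L) u :=
      (innerSL ℝ ν).hasFDerivAt.comp u hF
    have h5 := h4.unique h3
    intro v
    have h6 := congrArg (fun T : Es n →L[ℝ] ℝ => T v) h5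
    simpa using h6
  set c : ℝ := inner ℝ ν (M.N p) with hc
  have hprj : prj ι ν = -(c • gradient g u) := by
    refine ext_inner_right ℝ fun v => ?_
    rw [prj_inner]
    have h1 := horth v
    rw [hLv, inner_add_right, inner_smul_right] at h1
    have h2 : (inner ℝ (gradient g u) v : ℝ) = fderiv ℝ g u v := by
      rw [gradient, InnerProductSpace.toDual_symm_apply]
    rw [inner_neg_left, inner_smul_left, h2]
    simp only [conj_trivial]
    linarith
  have hsplit : ν = c • (M.N p - ι (gradient g u)) := by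
    have h1 := LIFT_split M hι ν
    rw [hprj, map_neg, map_smul] at h1
    rw [h1, smul_sub]
    abel
  have hcval : c = (Real.sqrt (1 + ‖gradient g u‖ ^ 2))⁻¹ := by
    have h1 : ‖ν‖ ^ 2 = c ^ 2 * (1 + ‖gradient g u‖ ^ 2) := by
      have h2 : ‖M.N p - ι (gradient g u)‖ ^ 2 = 1 + ‖gradient g u‖ ^ 2 := by
        rw [norm_sub_sq_real, M.unit, ι.norm_map, real_inner_comm, hι]
        ring
      conv_lhs => rw [hsplit]
      rw [norm_smul, mul_pow, h2, Real.norm_eq_abs, sq_abs]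
    rw [hν, M.unit] at h1
    have h3 : (0 : ℝ) < 1 + ‖gradient g u‖ ^ 2 := by positivity
    have h4 : 0 < Real.sqrt (1 + ‖gradient g u‖ ^ 2) := Real.sqrt_pos.2 h3
    have h5 : (c * Real.sqrt (1 + ‖gradient g u‖ ^ 2)) ^ 2 = 1 := by
      rw [mul_pow, Real.sq_sqrt h3.le, ← h1]
      norm_num
    have h6 : c * Real.sqrt (1 + ‖gradient g u‖ ^ 2) = 1 := by
      have h7 : 0 ≤ c * Real.sqrt (1 + ‖gradient g u‖ ^ 2) := mul_nonneg hpos.le h4.le
      nlinarith [h5, h7]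
    exact eq_inv_of_mul_eq_one_left h6
  rw [← hcval]
  exact hsplit

theorem pLIFT (hLI1 : tLI1) (hLOI : tLOI) : tLIFT := by
  intro n S _ _ M p ι hι K τ0 R' hK h0K hconv hτ0 hyp
  obtain ⟨σ, hσ0, hlift, hagree⟩ := hLI1 n S M p ι hι K τ0 R' hK h0K hconv hτ0 hyp
  have hprj : ∀ u ∈ K, prj ι (M.X (σ u) - M.X p) = u := by
    intro u hu
    have h1 := (hlift u hu).2.2.1 1 ⟨zero_le_one, le_refl 1⟩
    simpa using h1
  have hpos : ∀ u ∈ K, 0 < (inner ℝ (M.N (σ u)) (M.N p) : ℝ) := by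
    intro u hu
    have h1 := (hlift u hu).2.2.2 1 ⟨zero_le_one, le_refl 1⟩
    simpa using h1
  -- local form
  have hloc : ∀ u0 ∈ K, ∃ (V : Set (Es n)) (τ : Es n → S), IsOpen V ∧ u0 ∈ V ∧ V ⊆ K ∧
      (∀ u ∈ V, σ u = τ u) ∧ ContinuousOn τ V ∧ (∀ W ⊆ V, IsOpen W → IsOpen (τ '' W)) ∧
      ContDiffOn ℝ ∞ (fun u => M.X (τ u)) V := by
    intro u0 hu0
    obtain ⟨V, τ, hV, hmem, hτq, hτc, hτo, hτp, hτs, hτpos⟩ :=
      hLOI n S M p ι hι (σ u0) (hpos u0 hu0)
    rw [hprj u0 hu0] at hmem hτq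
    have h1 := hagree u0 hu0 V τ hV hmem hτq hτc hτp hτpos
    obtain ⟨V', hV'1, hV'2, hV'3⟩ := mem_nhds_iff.1 h1
    have hsub : V' ∩ V ∩ K ⊆ V := fun x hx => hx.1.2
    refine ⟨V' ∩ V ∩ K, τ, (hV'2.inter hV).inter hK, ⟨⟨hV'3, hmem⟩, hu0⟩, fun x hx => hx.2,
      fun u hu => hV'1 hu.1.1, hτc.mono hsub, fun W hW hWo => hτo W (hW.trans hsub) hWo,
      hτs.mono hsub⟩
  have hcont : ∀ u ∈ K, ContinuousAt σ u := by
    intro u0 hu0
    obtain ⟨V, τ, hV, hmem, -, heq, hc, -, -⟩ := hloc u0 hu0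
    refine (hc.continuousAt (hV.mem_nhds hmem)).congr ?_
    filter_upwards [hV.mem_nhds hmem] with u hu
    exact (heq u hu).symm
  set g : Es n → ℝ := fun u => inner ℝ (M.X (σ u) - M.X p) (M.N p) with hg
  have hsmooth : ContDiffOn ℝ ∞ g K := by
    intro u0 hu0
    obtain ⟨V, τ, hV, hmem, -, heq, -, -, hs⟩ := hloc u0 hu0
    have h1 : ContDiffAt ℝ ∞ (fun u => M.X (τ u)) u0 := hs.contDiffAt (hV.mem_nhds hmem)
    have h2 : ContDiffAt ℝ ∞ (fun u => (inner ℝ (M.X (τ u) - M.X p) (M.N p) : ℝ)) u0 :=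
      (h1.sub contDiffAt_const).inner ℝ contDiffAt_const
    refine (h2.congr_of_eventuallyEq ?_).contDiffWithinAt
    filter_upwards [hV.mem_nhds hmem] with u hu
    rw [hg, ← heq u hu]
  have hgraph : ∀ u ∈ K, M.X (σ u) = M.X p + ι u + g u • M.N p := by
    intro u hu
    have h1 := LIFT_split M hι (M.X (σ u) - M.X p)
    rw [hprj u hu] at h1
    have h2 : M.X (σ u) = M.X p + (M.X (σ u) - M.X p) := by abel
    rw [h2, h1, hg]
    abel
  refine ⟨g, σ, ⟨hK, h0K, hσ0, fun u hu => (hcont u hu).continuousWithinAt, ?_, hι, hsmooth,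
    hgraph, ?_⟩, hlift⟩
  · intro W hW hWo
    rw [isOpen_iff_mem_nhds]
    rintro _ ⟨u0, hu0, rfl⟩
    obtain ⟨V, τ, hV, hmem, -, heq, -, ho, -⟩ := hloc u0 (hW hu0)
    have h1 : IsOpen (τ '' (V ∩ W)) := ho _ inter_subset_left (hV.inter hWo)
    have h2 : τ '' (V ∩ W) ⊆ σ '' W := by
      rintro _ ⟨u, hu, rfl⟩
      exact ⟨u, hu.2, heq u hu.1⟩
    exact mem_of_superset (h1.mem_nhds ⟨u0, ⟨hmem, hu0⟩, (heq u0 hmem).symm⟩) h2
  · intro u hu
    refine LIFT_normal M hι (hcont u hu)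
      ((hsmooth.differentiableOn (by simp)).differentiableAt (hK.mem_nhds hu)) ?_ (hpos u hu)
    filter_upwards [hK.mem_nhds hu] with v hv
    exact hgraph v hv

end Pool.Agent.ShG
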