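import Pool.Agent.ShG.Targets

/-! LIN: existence of points with a given state and a given orthogonal component. -/

namespace Pool.Agent.ShG

open scoped BigOperators Topology ContDiff
open Set Filter Asymptotics

noncomputable section

lemma LIN_cx {n : ℕ} (f0 f1 : Fs n) : Continuous (cx f0 f1) := by
  have h : cx f0 f1 = fun x => ((inner ℝ x f0 : ℝ) : ℂ) + ((inner ℝ x f1 : ℝ) : ℂ) * Complex.I := by
    funext x
    exact Complex.mk_eq_add_mul_I _ _
  rw [h]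
  have h0 : Continuous fun x : Fs n => (inner ℝ x f0 : ℝ) := continuous_id.inner continuous_const
  have h1 : Continuous fun x : Fs n => (inner ℝ x f1 : ℝ) := continuous_id.inner continuous_const
  exact (Complex.continuous_ofReal.comp h0).add
    ((Complex.continuous_ofReal.comp h1).mul continuous_const)

/-- the component orthogonal to `f0, f1` -/
def LIN_o {n : ℕ} (f0 f1 x : Fs n) : Fs n :=
  x - (inner ℝ x f0 : ℝ) • f0 - (inner ℝ x f1 : ℝ) • f1

lemma LIN_oc {n : ℕ} (f0 f1 : Fs n) : Continuous (LIN_o f0 f1) := by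
  have h0 : Continuous fun x : Fs n => (inner ℝ x f0 : ℝ) := continuous_id.inner continuous_const
  have h1 : Continuous fun x : Fs n => (inner ℝ x f1 : ℝ) := continuous_id.inner continuous_const
  exact (continuous_id.sub (h0.smul continuous_const)).sub (h1.smul continuous_const)

lemma LIN_norm {n : ℕ} (f0 f1 x : Fs n) (h0 : ‖f0‖ = 1) (h1 : ‖f1‖ = 1) :
    ‖x‖ ≤ ‖cx f0 f1 x‖ + ‖cx f0 f1 x‖ + ‖LIN_o f0 f1 x‖ := by
  have e : x = (inner ℝ x f0 : ℝ) • f0 + (inner ℝ x f1 : ℝ) • f1 + LIN_o f0 f1 x := by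
    unfold LIN_o
    abel
  have a0 : ‖(inner ℝ x f0 : ℝ) • f0‖ ≤ ‖cx f0 f1 x‖ := by
    rw [norm_smul, h0, mul_one, Real.norm_eq_abs]
    exact Complex.abs_re_le_norm (cx f0 f1 x)
  have a1 : ‖(inner ℝ x f1 : ℝ) • f1‖ ≤ ‖cx f0 f1 x‖ := by
    rw [norm_smul, h1, mul_one, Real.norm_eq_abs]
    exact Complex.abs_im_le_norm (cx f0 f1 x)
  calc ‖x‖ = ‖(inner ℝ x f0 : ℝ) • f0 + (inner ℝ x f1 : ℝ) • f1 + LIN_o f0 f1 x‖ := by rw [← e]
    _ ≤ ‖(inner ℝ x f0 : ℝ) • f0‖ + ‖(inner ℝ x f1 : ℝ) • f1‖ + ‖LIN_o f0 f1 x‖ := norm_add₃_le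
    _ ≤ _ := by linarith

theorem pLIN (hLSO : tLSO) : tLIN := by
  intro n S _ _ M f0 f1 hM hP γ ν hPr p s hpX hpN s' y hy0 hy1
  set η : ℝ := s' - s with hη
  have hγ : Continuous γ := continuous_iff_continuousAt.2 fun t => (hPr t).1.continuousAt
  have hν : Continuous ν := continuous_iff_continuousAt.2 fun t => (hPr t).2.1.continuousAt
  have hX : Continuous M.X := M.contX
  have hN : Continuous M.N := Hyp.contN M
  -- the pairs (time, point)
  set T : Set (ℝ × S) := {z | z.1 ∈ Icc (0 : ℝ) 1 ∧ cx f0 f1 (M.X z.2) = γ (s + z.1 * η) ∧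
    cx f0 f1 (M.N z.2) = ν (s + z.1 * η) ∧
    LIN_o f0 f1 (M.X z.2) = LIN_o f0 f1 (M.X p) + z.1 • y} with hT
  have hline : Continuous fun z : ℝ × S => s + z.1 * η :=
    continuous_const.add (continuous_fst.mul continuous_const)
  have hcl : IsClosed T := by
    have c0 : IsClosed {z : ℝ × S | z.1 ∈ Icc (0 : ℝ) 1} := isClosed_Icc.preimage continuous_fst
    have c1 : IsClosed {z : ℝ × S | cx f0 f1 (M.X z.2) = γ (s + z.1 * η)} :=
      isClosed_eq ((LIN_cx f0 f1).comp (hX.comp continuous_snd)) (hγ.comp hline)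
    have c2 : IsClosed {z : ℝ × S | cx f0 f1 (M.N z.2) = ν (s + z.1 * η)} :=
      isClosed_eq ((LIN_cx f0 f1).comp (hN.comp continuous_snd)) (hν.comp hline)
    have c3 : IsClosed {z : ℝ × S | LIN_o f0 f1 (M.X z.2) = LIN_o f0 f1 (M.X p) + z.1 • y} :=
      isClosed_eq ((LIN_oc f0 f1).comp (hX.comp continuous_snd))
        (continuous_const.add (continuous_fst.smul continuous_const))
    exact c0.inter (c1.inter (c2.inter c3))
  obtain ⟨C, hC⟩ := (isCompact_Icc (a := (0 : ℝ)) (b := 1)).exists_bound_of_continuousOn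
    (f := fun r => γ (s + r * η))
    ((hγ.comp (continuous_const.add (continuous_id.mul continuous_const))).continuousOn)
  set R : ℝ := C + C + (‖LIN_o f0 f1 (M.X p)‖ + ‖y‖) with hR
  have hcomp : IsCompact T := by
    have h1 : IsCompact (Icc (0 : ℝ) 1 ×ˢ (M.X ⁻¹' Metric.closedBall 0 R)) :=
      isCompact_Icc.prod (M.proper.isCompact_preimage (isCompact_closedBall 0 R))
    refine h1.of_isClosed_subset hcl ?_
    rintro ⟨r, q⟩ ⟨hr, h2, h3, h4⟩
    refine ⟨hr, ?_⟩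
    show M.X q ∈ Metric.closedBall 0 R
    rw [mem_closedBall_zero_iff]
    have h5 := LIN_norm f0 f1 (M.X q) hP.1 hP.2.1
    simp only at h2 h4
    rw [h2, h4] at h5
    have h6 := hC r hr
    have h7 : ‖LIN_o f0 f1 (M.X p) + r • y‖ ≤ ‖LIN_o f0 f1 (M.X p)‖ + ‖y‖ := by
      refine (norm_add_le _ _).trans ?_
      rw [norm_smul, Real.norm_eq_abs, abs_of_nonneg hr.1]
      have := mul_le_mul_of_nonneg_right hr.2 (norm_nonneg y)
      linarith
    linarith
  set A : Set ℝ := {r | ∃ q, cx f0 f1 (M.X q) = γ (s + r * η) ∧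
    cx f0 f1 (M.N q) = ν (s + r * η) ∧
    LIN_o f0 f1 (M.X q) = LIN_o f0 f1 (M.X p) + r • y} with hA
  have hAT : A ∩ Icc 0 1 = Prod.fst '' T := by
    ext r
    constructor
    · rintro ⟨⟨q, h1, h2, h3⟩, hr⟩
      exact ⟨(r, q), ⟨hr, h1, h2, h3⟩, rfl⟩
    · rintro ⟨⟨r', q⟩, ⟨hr, h1, h2, h3⟩, rfl⟩
      exact ⟨⟨q, h1, h2, h3⟩, hr⟩
  have hAc : IsClosed (A ∩ Icc 0 1) := by
    rw [hAT]
    exact (hcomp.image continuous_fst).isClosed
  have h0 : (0 : ℝ) ∈ A := ⟨p, by rw [zero_mul, add_zero]; exact hpX, by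
    rw [zero_mul, add_zero]; exact hpN, by rw [zero_smul, add_zero]⟩
  have hop : ∀ r ∈ A ∩ Ico 0 1, A ∈ 𝓝[>] r := by
    rintro r ⟨⟨q, h1, h2, h3⟩, -⟩
    obtain ⟨ε, hε, H⟩ := hLSO n S M f0 f1 hM hP γ ν hPr q (s + r * η) h1 h2 η y hy0 hy1
    refine mem_nhdsWithin_of_mem_nhds ?_
    filter_upwards [Metric.ball_mem_nhds r hε] with t ht
    rw [Metric.mem_ball, Real.dist_eq] at ht
    obtain ⟨q', a1, a2, a3⟩ := H (t - r) ht
    have e : s + r * η + (t - r) * η = s + t * η := by ring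
    rw [e] at a1 a2
    refine ⟨q', a1, a2, ?_⟩
    have a3' : LIN_o f0 f1 (M.X q') = LIN_o f0 f1 (M.X q) + (t - r) • y := a3
    rw [a3', h3, add_assoc, ← add_smul]
    congr 2
    ring
  have h1A : (1 : ℝ) ∈ A :=
    hAc.Icc_subset_of_forall_mem_nhdsWithin h0 hop (right_mem_Icc.2 zero_le_one)
  obtain ⟨q, h1, h2, h3⟩ := h1A
  have e : s + 1 * η = s' := by rw [hη]; ring
  rw [e] at h1 h2
  rw [one_smul] at h3
  exact ⟨q, h1, h2, h3⟩

end

end Pool.Agent.ShG
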