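import Pool.Agent.ShG.Targets

set_option autoImplicit false

/-! # ShG: the equation for `F = w / H²` -/

namespace Pool.Agent.ShG

open scoped BigOperators Topology ContDiff
open Set Filter

noncomputable section

namespace Hyp

variable {n : ℕ} {S : Type} [TopologicalSpace S] {M : Hyp n S}

lemma LLF_Fq : M.Fq = fun q => M.w q * (M.H q ^ 2)⁻¹ := by
  funext q
  rw [Fq, div_eq_mul_inv]

lemma LLF_dlinv {p : S} (h : M.H p ≠ 0) (a : Fin (n + 1)) :
    M.dl a (fun q => (M.H q ^ 2)⁻¹) p = -(2 * M.dl a M.H p) / M.H p ^ 3 := by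
  have h1 := dl_inv ((Sm.H M p).pow 2) (pow_ne_zero 2 h) a
  rw [h1, dl_sq (Sm.H M p)]
  field_simp

lemma LLF_dl {p : S} (h : M.H p ≠ 0) (a : Fin (n + 1)) :
    M.dl a M.Fq p = M.dl a M.w p / M.H p ^ 2 - 2 * M.w p * M.dl a M.H p / M.H p ^ 3 := by
  rw [LLF_Fq, dl_mul (Sm.w M p) (((Sm.H M p).pow 2).inv (pow_ne_zero 2 h)), LLF_dlinv h]
  field_simp
  ring

lemma LLF_gsq2 (p : S) : M.gsq (fun q => M.H q ^ 2) p = 4 * M.H p ^ 2 * M.gsq M.H p := by
  unfold gsq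
  rw [Finset.mul_sum]
  refine Finset.sum_congr rfl fun a _ => ?_
  rw [dl_sq (Sm.H M p)]
  ring

lemma LLF_Lap {p : S} (h : M.H p ≠ 0) :
    M.Lap M.Fq p = M.Lap M.w p / M.H p ^ 2 - 2 * M.w p * M.Lap M.H p / M.H p ^ 3 +
      6 * M.w p * M.gsq M.H p / M.H p ^ 4 -
      4 * (∑ a, M.dl a M.H p * M.dl a M.w p) / M.H p ^ 3 := by
  rw [LLF_Fq, Lap_mul (Sm.w M p) (((Sm.H M p).pow 2).inv (pow_ne_zero 2 h)),
    Lap_inv ((Sm.H M p).pow 2) (pow_ne_zero 2 h), Lap_sq (Sm.H M p), LLF_gsq2]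
  have e : ∑ a, M.dl a M.w p * M.dl a (fun q => (M.H q ^ 2)⁻¹) p =
      -2 * (∑ a, M.dl a M.H p * M.dl a M.w p) / M.H p ^ 3 := by
    rw [Finset.mul_sum, Finset.sum_div]
    refine Finset.sum_congr rfl fun a _ => ?_
    rw [LLF_dlinv h]
    ring
  rw [e]
  field_simp
  ring

lemma LLF_ssq {p : S} (h : M.H p ≠ 0)
    (hw : ∀ a, M.dl a M.w p = 2 * ∑ b, ∑ c, M.B b c p * M.T3 a b c p) :
    M.ssq p = M.J p / M.H p ^ 2 - (∑ a, M.dl a M.H p * M.dl a M.w p) / M.H p ^ 3 +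
      M.w p * M.gsq M.H p / M.H p ^ 4 := by
  have e : ∀ a, ∑ b, ∑ c, (M.S3 a b c p) ^ 2 = (∑ b, ∑ c, (M.T3 a b c p) ^ 2) / M.H p ^ 2 -
      M.dl a M.H p * M.dl a M.w p / M.H p ^ 3 + M.w p * (M.dl a M.H p) ^ 2 / M.H p ^ 4 := by
    intro a
    rw [hw a]
    have e1 : ∀ b c, (M.S3 a b c p) ^ 2 = (M.T3 a b c p) ^ 2 * (M.H p ^ 2)⁻¹ -
        (M.B b c p * M.T3 a b c p) * (2 * M.dl a M.H p / M.H p ^ 3) +
        (M.B b c p) ^ 2 * ((M.dl a M.H p) ^ 2 / M.H p ^ 4) := by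
      intro b c
      unfold S3 ze
      field_simp
      ring
    simp_rw [e1, Finset.sum_add_distrib, Finset.sum_sub_distrib, ← Finset.sum_mul]
    unfold w
    ring
  unfold ssq
  rw [Finset.sum_congr rfl fun a _ => e a, Finset.sum_add_distrib, Finset.sum_sub_distrib,
    ← Finset.sum_div, ← Finset.sum_div, ← Finset.sum_div, ← Finset.mul_sum]
  rfl

end Hyp

open Hyp

theorem pLLF (hLW : tLW) (hT3 : tT3) : tLLF := by
  intro n S _ M hS p hp
  obtain ⟨hH, hw⟩ := hLW n S M hS p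
  obtain ⟨-, -, -, -, -, hdw, -, -⟩ := hT3 n S M p
  constructor
  · rw [LLF_ssq hp hdw]
    unfold LL
    rw [LLF_Lap hp, hH, hw]
    have e : ∑ a, M.ze a p * M.dl a M.Fq p =
        (∑ a, M.dl a M.H p * M.dl a M.w p) / M.H p ^ 3 -
          2 * M.w p * M.gsq M.H p / M.H p ^ 4 := by
      unfold gsq
      rw [Finset.mul_sum, Finset.sum_div, Finset.sum_div, ← Finset.sum_sub_distrib]
      refine Finset.sum_congr rfl fun a _ => ?_
      rw [LLF_dl hp]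
      unfold ze
      field_simp
    rw [e]
    field_simp
    ring
  · have e : ∀ a, (M.dl a M.Fq p) ^ 2 ≤ 4 * M.Fq p * ∑ b, ∑ c, (M.S3 a b c p) ^ 2 := by
      intro a
      have e1 : M.dl a M.Fq p = 2 / M.H p * ∑ b, ∑ c, M.B b c p * M.S3 a b c p := by
        rw [LLF_dl hp, hdw a]
        have e2 : ∀ b c, M.B b c p * M.S3 a b c p = (M.B b c p * M.T3 a b c p) * (M.H p)⁻¹ -
            (M.B b c p) ^ 2 * (M.dl a M.H p / M.H p ^ 2) := by
          intro b c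
          unfold S3 ze
          field_simp
        simp_rw [e2, Finset.sum_sub_distrib, ← Finset.sum_mul]
        unfold w
        field_simp
      have e3 : (∑ b, ∑ c, M.B b c p * M.S3 a b c p) ^ 2 ≤
          M.w p * ∑ b, ∑ c, (M.S3 a b c p) ^ 2 := by
        unfold w
        simp_rw [← Finset.sum_product']
        exact Finset.sum_mul_sq_le_sq_mul_sq _ _ _
      rw [e1, mul_pow]
      unfold Fq
      have e4 : (2 / M.H p) ^ 2 = 4 / M.H p ^ 2 := by ring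
      rw [e4]
      have e5 : 0 ≤ 4 / M.H p ^ 2 := by positivity
      calc 4 / M.H p ^ 2 * (∑ b, ∑ c, M.B b c p * M.S3 a b c p) ^ 2
          ≤ 4 / M.H p ^ 2 * (M.w p * ∑ b, ∑ c, (M.S3 a b c p) ^ 2) :=
            mul_le_mul_of_nonneg_left e3 e5
        _ = 4 * (M.w p / M.H p ^ 2) * ∑ b, ∑ c, (M.S3 a b c p) ^ 2 := by ring
    unfold gsq ssq
    rw [Finset.mul_sum]
    exact Finset.sum_le_sum fun a _ => e a

end

end Pool.Agent.ShG
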