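import Pool.Agent.ShG.Targets

/-!
# ShG-LLR: the operator `ℒ` on `f / |H|`
-/

namespace Pool.Agent.ShG

open scoped BigOperators Topology ContDiff
open Set Filter

noncomputable section

variable {n : ℕ} {S : Type} [TopologicalSpace S]

/-- the computation for `f / H` -/
lemma LLR_core (hLW : tLW) (M : Hyp n S) (hM : M.Shr) (f : S → ℝ) (p : S) (h0 : M.H p ≠ 0)
    (hf : M.Sm f p) :
    M.Sm (fun q => f q / M.H q) p ∧
    M.LL (fun q => f q / M.H q) p = (M.Lap f p - (1 - M.w p) * f p) / M.H p ∧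
    ∀ a, M.dl a (fun q => f q / M.H q) p
      = M.dl a f p / M.H p - f p * M.ze a p / M.H p := by
  have hH := Hyp.Sm.H M p
  have hd : ∀ a, M.dl a (fun q => f q / M.H q) p
      = M.dl a f p / M.H p - f p * M.ze a p / M.H p := by
    intro a
    rw [Hyp.dl_div hf hH h0]
    unfold Hyp.ze
    field_simp
  refine ⟨hf.div hH h0, ?_, hd⟩
  have hLap : M.Lap (fun q => f q / M.H q) p = M.Lap f p / M.H p - f p * M.Lap M.H p / M.H p ^ 2
      + 2 * f p * M.gsq M.H p / M.H p ^ 3
      - 2 * (∑ a, M.dl a f p * M.dl a M.H p) / M.H p ^ 2 := by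
    have e : (fun q => f q / M.H q) = fun q => f q * (M.H q)⁻¹ := by
      funext q
      rw [div_eq_mul_inv]
    rw [e, Hyp.Lap_mul hf (hH.inv h0), Hyp.Lap_inv hH h0]
    have e2 : ∑ a, M.dl a f p * M.dl a (fun q => (M.H q)⁻¹) p
        = - (∑ a, M.dl a f p * M.dl a M.H p) / M.H p ^ 2 := by
      rw [neg_div, Finset.sum_div, ← Finset.sum_neg_distrib]
      refine Finset.sum_congr rfl fun a _ => ?_
      rw [Hyp.dl_inv hH h0]
      ring
    rw [e2]
    field_simp
    ring
  have hcross : ∑ a, M.ze a p * M.dl a (fun q => f q / M.H q) p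
      = (∑ a, M.dl a f p * M.dl a M.H p) / M.H p ^ 2 - f p * M.gsq M.H p / M.H p ^ 3 := by
    unfold Hyp.gsq
    rw [Finset.sum_div, Finset.mul_sum, Finset.sum_div, ← Finset.sum_sub_distrib]
    refine Finset.sum_congr rfl fun a _ => ?_
    rw [hd a]
    unfold Hyp.ze
    field_simp
  unfold Hyp.LL
  rw [hLap, hcross, (hLW n S M hM p).1]
  field_simp
  ring

theorem pLLR (hLW : tLW) : tLLR := by
  intro n S _ M hM f p h0 hf
  obtain ⟨c1, c2, c3⟩ := LLR_core hLW M hM f p h0 hf
  have hc := (Hyp.Sm.H M p).continuousAt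
  rcases lt_or_gt_of_ne h0 with hneg | hpos
  · have hev : (fun q => f q / |M.H q|) =ᶠ[𝓝 p] fun q => - (f q / M.H q) := by
      filter_upwards [hc.eventually (gt_mem_nhds hneg)] with q hq
      rw [abs_of_neg hq, div_neg]
    refine ⟨c1.neg.congr hev, ?_, ?_⟩
    · have e1 : M.LL (fun q => f q / |M.H q|) p = - M.LL (fun q => f q / M.H q) p := by
        unfold Hyp.LL
        rw [Hyp.Lap_congr hev, Hyp.Lap_neg c1]
        have : ∑ a, M.ze a p * M.dl a (fun q => f q / |M.H q|) p
            = - ∑ a, M.ze a p * M.dl a (fun q => f q / M.H q) p := by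
          rw [← Finset.sum_neg_distrib]
          refine Finset.sum_congr rfl fun a _ => ?_
          rw [M.dl_congr hev, Hyp.dl_neg c1]
          ring
        rw [this]
        ring
      rw [e1, c2, abs_of_neg hneg]
      rw [div_neg]
    · intro a
      rw [M.dl_congr hev, Hyp.dl_neg c1, c3 a, abs_of_neg hneg]
      simp only [div_neg]
      ring
  · have hev : (fun q => f q / |M.H q|) =ᶠ[𝓝 p] fun q => f q / M.H q := by
      filter_upwards [hc.eventually (lt_mem_nhds hpos)] with q hq
      rw [abs_of_pos hq]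
    refine ⟨c1.congr hev, ?_, ?_⟩
    · have e1 : M.LL (fun q => f q / |M.H q|) p = M.LL (fun q => f q / M.H q) p := by
        unfold Hyp.LL
        rw [Hyp.Lap_congr hev]
        have : ∑ a, M.ze a p * M.dl a (fun q => f q / |M.H q|) p
            = ∑ a, M.ze a p * M.dl a (fun q => f q / M.H q) p := by
          refine Finset.sum_congr rfl fun a _ => ?_
          rw [M.dl_congr hev]
        rw [this]
      rw [e1, c2, abs_of_pos hpos]
    · intro a
      rw [M.dl_congr hev, c3 a, abs_of_pos hpos]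

end

end Pool.Agent.ShG
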