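import Pool.Agent.ShG.Targets

/-!
# Job ShG-LOGH: lower bound of the mean curvature deep inside
-/

namespace Pool.Agent.ShG

open scoped BigOperators Topology ContDiff
open Set Filter Hyp

noncomputable section

variable {n : ℕ} {S : Type} [TopologicalSpace S]

lemma LOGH_tq (M : Hyp n S) (p : S) (x : Fs n) :
    M.tq x p = inner ℝ (M.Bv p x) x / M.H p := by
  rw [inner_sum]
  simp only [Bv_apply]
  unfold tq tau
  rw [Finset.sum_div]
  refine Finset.sum_congr rfl fun a _ => ?_
  rw [Finset.sum_mul, Finset.sum_div]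
  exact Finset.sum_congr rfl fun b _ => by ring

lemma LOGH_smul (M : Hyp n S) (p : S) (x : Fs n) (s : ℝ) :
    M.tq (s • x) p = s ^ 2 * M.tq x p := by
  unfold tq
  rw [Finset.mul_sum]
  refine Finset.sum_congr rfl fun a _ => ?_
  rw [Finset.mul_sum]
  refine Finset.sum_congr rfl fun b _ => ?_
  simp only [PiLp.smul_apply, smul_eq_mul]
  ring

lemma LOGH_tan (hHW : tHW) (M : Hyp n S) (p : S) (x : Fs n) (t : ℝ) :
    M.tq (x + t • M.N p) p = M.tq x p := by
  obtain ⟨-, -, -, h4, h5, -⟩ := hHW n S M p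
  rw [LOGH_tq, LOGH_tq, h4, inner_add_right, inner_smul_right, h5]
  simp

lemma LOGH_ze (hTAU : tTAU) (M : Hyp n S) (hS : M.Shr) (p : S) (hH : M.H p ≠ 0) :
    ∑ a, M.X p a * M.ze a p = M.tq (M.X p) p := by
  obtain ⟨-, -, -, -, -, -, -, h8, -⟩ := hTAU n S M hS p hH
  unfold tq
  refine Finset.sum_congr rfl fun a _ => ?_
  rw [h8 a, Finset.mul_sum]
  exact Finset.sum_congr rfl fun b _ => by ring

/-- the tangential part of the position vector -/
lemma LOGH_T (M : Hyp n S) (hS : M.Shr) (p : S) :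
    inner ℝ (M.X p + M.H p • M.N p) (M.N p) = (0:ℝ) ∧
      ‖M.X p + M.H p • M.N p‖ ^ 2 = M.rho p - M.H p ^ 2 := by
  have hN : inner ℝ (M.N p) (M.N p) = (1:ℝ) := M.NN p
  have h1 : inner ℝ (M.X p) (M.N p) = - M.H p := by rw [hS p]; ring
  constructor
  · rw [inner_add_left, inner_smul_left, hN, h1]; simp
  · have h2 : ‖M.N p‖ ^ 2 = 1 := by
      rw [← real_inner_self_eq_norm_sq]; exact hN
    have h3 : M.rho p = ‖M.X p‖ ^ 2 := rfl
    rw [norm_add_sq_real, inner_smul_right, h1, norm_smul, mul_pow, h2, Real.norm_eq_abs, sq_abs,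
      h3]
    ring

/-- at a critical point of `log |H| + κ(ρ)` one has `ρ = H²` -/
lemma LOGH_crit (hLX : tLX) (hHW : tHW) (hTAU : tTAU) (M : Hyp n S) (hS : M.Shr) (r : ℝ)
    (q : S) (hr : M.rho q ≤ r) (hH : 9/20 < |M.H q|) (k A : ℝ)
    (hneg : ∀ e, Adm M r q e → - M.tq e q ≤ A) (hk : A < 2 * k)
    (hcrit : ∀ a, M.ze a q + k * M.dl a M.rho q = 0) : M.rho q = M.H q ^ 2 := by
  have hH0 : M.H q ≠ 0 := by
    intro h
    rw [h] at hH
    norm_num at hH
  obtain ⟨hT1, hT2⟩ := LOGH_T M hS q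
  have h1 : ∑ a, M.X q a * (M.ze a q + k * M.dl a M.rho q) = 0 :=
    Finset.sum_eq_zero fun a _ => by rw [hcrit a]; ring
  have h2 : ∀ a, M.X q a * (M.ze a q + k * M.dl a M.rho q)
      = M.X q a * M.ze a q + 2 * k * (M.X q a * (M.X q + M.H q • M.N q) a) := by
    intro a
    rw [(hLX n S M hS).2.2.2.1 a q]
    simp only [PiLp.add_apply, PiLp.smul_apply, smul_eq_mul]
    ring
  rw [Finset.sum_congr rfl fun a _ => h2 a, Finset.sum_add_distrib, ← Finset.mul_sum,
    LOGH_ze hTAU M hS q hH0, ← inner_sum] at h1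
  have h3 : inner ℝ (M.X q) (M.X q + M.H q • M.N q) = M.rho q - M.H q ^ 2 := by
    have h5 : inner ℝ (M.X q) (M.N q) = - M.H q := by rw [hS q]; ring
    have h6 : M.rho q = ‖M.X q‖ ^ 2 := rfl
    rw [inner_add_right, inner_smul_right, h5, real_inner_self_eq_norm_sq, h6]
    ring
  rw [h3] at h1
  by_contra hne
  have hpos : 0 < ‖M.X q + M.H q • M.N q‖ := by
    rw [norm_pos_iff]
    intro h0
    rw [h0] at hT2
    simp at hT2
    exact hne (by linarith)
  set y : Fs n := M.X q + M.H q • M.N q with hy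
  have hA : Adm M r q (‖y‖⁻¹ • y) := by
    refine ⟨hr, hH, ?_, ?_⟩
    · rw [norm_smul, norm_inv, norm_norm]
      exact inv_mul_cancel₀ hpos.ne'
    · rw [inner_smul_left, hT1]; simp
  have h7 := hneg _ hA
  rw [LOGH_smul, hy, LOGH_tan hHW, ← hy] at h7
  have h8 : 0 < ‖y‖ ^ 2 := by positivity
  rw [inv_pow] at h7
  have h9 : - M.tq (M.X q) q ≤ A * ‖y‖ ^ 2 := by
    have := mul_le_mul_of_nonneg_right h7 h8.le
    have e : -((‖y‖ ^ 2)⁻¹ * M.tq (M.X q) q) * ‖y‖ ^ 2 = - M.tq (M.X q) q := by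
      field_simp
    rw [e] at this
    exact this
  rw [← hT2] at h1
  nlinarith

theorem pLOGH (hLX : tLX) (hLBB : tLBB) (hHW : tHW) (hTAU : tTAU) : tLOGH := by
  intro n hn
  have hn' : (1:ℝ) ≤ n := by exact_mod_cast hn
  refine ⟨8 * Real.log (720 * n), mul_pos (by norm_num) (Real.log_pos (by linarith)), ?_⟩
  intro S _ _ M c r hStd hr h2n hD hlow hneg p hp hHp
  obtain ⟨C, hC, hbb⟩ := hLBB n hn
  have hbb' := fun q hq => hbb S M c r hStd hr q hq
  obtain ⟨hShr, hc0, hc1, hw⟩ := hStd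
  have hr0 : 0 < r := by linarith
  have hlogn : 0 < Real.log (720 * n) := Real.log_pos (by linarith)
  -- the dichotomy is strict
  have hstrict : ∀ q, M.rho q ≤ r → 9/20 ≤ |M.H q| → 9/20 < |M.H q| := by
    intro q h1 h2
    rcases hD q h1 with h | h
    · exact h
    · exfalso
      have h3 := (hHW n S M q).1
      have h4 : (9/20:ℝ)^2 ≤ M.H q ^ 2 := by
        rw [← sq_abs (M.H q)]
        exact pow_le_pow_left₀ (by norm_num) h2 2
      have h5 : (n:ℝ) * M.w q < n * (1 / (25 * n)) := mul_lt_mul_of_pos_left h (by linarith)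
      have h6 : (n:ℝ) * (1 / (25 * n)) = 1/25 := by field_simp
      rw [h6] at h5
      nlinarith
  let κ : ℝ → ℝ := fun x => 36 * n * Real.exp ((x - r) / 8) + 1 / (19 * r) * x
  have hκs : ContDiff ℝ ∞ κ := by
    have h1 : ContDiff ℝ ∞ (fun x : ℝ => (x - r) / 8) := (contDiff_id.sub contDiff_const).div_const 8
    exact (contDiff_const.mul (Real.contDiff_exp.comp h1)).add (contDiff_const.mul contDiff_id)
  have hκd : ∀ x, HasDerivAt κ (36 * n * (Real.exp ((x - r) / 8) * (1 / 8)) + 1 / (19 * r)) x := by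
    intro x
    have h1 : HasDerivAt (fun x : ℝ => (x - r) / 8) (1 / 8) x :=
      ((hasDerivAt_id x).sub_const r).div_const 8
    have h2 := (h1.exp).const_mul (36 * (n:ℝ))
    have h3 := (hasDerivAt_id x).const_mul (1 / (19 * r))
    have h4 := h2.add h3
    rw [mul_one] at h4
    exact h4
  let Y : S → ℝ := fun q => Real.log (M.H q) + κ (M.rho q)
  have hne : ∀ q, 9/20 ≤ |M.H q| → M.H q ≠ 0 := by
    intro q h h0
    rw [h0] at h
    norm_num at h
  have hκS : ∀ q, M.Sm (fun q' => κ (M.rho q')) q := fun q =>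
    Sm.comp (φ := κ) isOpen_univ (mem_univ _) hκs.contDiffOn (Sm.rho M q)
  have hYS : ∀ q, 9/20 ≤ |M.H q| → M.Sm Y q := fun q h =>
    (Sm.log (Sm.H M q) (hne q h)).add (hκS q)
  have hHc : Continuous M.H := continuous_iff_continuousAt.2 fun q => (Sm.H M q).continuousAt
  have hρc : Continuous M.rho := continuous_iff_continuousAt.2 fun q => (Sm.rho M q).continuousAt
  have hK : IsCompact ({q | M.rho q ≤ r} ∩ {q | 9/20 ≤ |M.H q|}) :=
    (isCompact_rho r).inter_right (isClosed_le continuous_const hHc.abs)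
  have hpr : M.rho p ≤ r := by
    have : 0 < 8 * Real.log (720 * n) := by positivity
    linarith
  obtain ⟨q0, ⟨hq1, hq2⟩, hmin⟩ := hK.exists_isMinOn (f := Y) ⟨p, hpr, hHp.le⟩
    (fun q hq => ((hYS q hq.2).continuousAt).continuousWithinAt)
  change M.rho q0 ≤ r at hq1
  change 9/20 ≤ |M.H q0| at hq2
  have hρ0 : ∀ q, 0 ≤ M.rho q := fun q => by
    change 0 ≤ ‖M.X q‖ ^ 2
    positivity
  have hκ0 : ∀ q, 0 ≤ κ (M.rho q) := by
    intro q
    have := hρ0 q
    have h1 : 0 < Real.exp ((M.rho q - r) / 8) := Real.exp_pos _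
    change 0 ≤ 36 * n * Real.exp ((M.rho q - r) / 8) + 1 / (19 * r) * M.rho q
    positivity
  have hq0 : Real.log (19/20) ≤ Y q0 := by
    rcases eq_or_lt_of_le hq1 with hb | hb
    · -- boundary
      have h1 : κ (M.rho q0) = 36 * n + 1/19 := by
        change 36 * n * Real.exp ((M.rho q0 - r) / 8) + 1 / (19 * r) * M.rho q0 = _
        rw [hb, sub_self, zero_div, Real.exp_zero]
        field_simp
      have h2 : Real.log (9/20) ≤ Real.log |M.H q0| := Real.log_le_log (by norm_num) hq2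
      rw [Real.log_abs] at h2
      have h3 : 1 - (9/20:ℝ)⁻¹ ≤ Real.log (9/20) := Real.one_sub_inv_le_log_of_pos (by norm_num)
      have h4 : Real.log (19/20) ≤ 0 := Real.log_nonpos (by norm_num) (by norm_num)
      change Real.log (19/20) ≤ Real.log (M.H q0) + κ (M.rho q0)
      rw [h1]
      norm_num at h3
      linarith
    · have hq3 := hstrict q0 hq1 hq2
      have hev : ∀ᶠ q in 𝓝 q0, Y q0 ≤ Y q := by
        have e1 : ∀ᶠ q in 𝓝 q0, M.rho q < r := hρc.continuousAt.eventually (gt_mem_nhds hb)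
        have e2 : ∀ᶠ q in 𝓝 q0, 9/20 < |M.H q| :=
          hHc.abs.continuousAt.eventually (lt_mem_nhds hq3)
        filter_upwards [e1, e2] with q h1 h2
        exact hmin ⟨le_of_lt h1, le_of_lt h2⟩
      have hcrit := (min_Lap (hYS q0 hq2) hev).1
      have hc2 : ∀ a, M.ze a q0 + (36 * n * (Real.exp ((M.rho q0 - r) / 8) * (1 / 8))
          + 1 / (19 * r)) * M.dl a M.rho q0 = 0 := by
        intro a
        have h1 := hcrit a
        have h2 : M.dl a Y q0 = M.dl a (fun q => Real.log (M.H q)) q0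
            + M.dl a (fun q => κ (M.rho q)) q0 :=
          dl_add (Sm.log (Sm.H M q0) (hne q0 hq2)) (hκS q0) a
        rw [h2, dl_log (Sm.H M q0) (hne q0 hq2) a, dl_comp (hκd _) (Sm.rho M q0) a] at h1
        exact h1
      have hρH := LOGH_crit hLX hHW hTAU M hShr r q0 hq1 hq3 _ (1 / (10 * r) + bb M r q0)
        (fun e he => hneg q0 e he) ?_ hc2
      · -- `ρ = H²`
        have h1 := (hHW n S M q0).1
        have h2 := hw q0
        have h3 : M.rho q0 ≤ 2 * n := by
          rw [hρH]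
          nlinarith
        have h4 : 19/20 ≤ |M.H q0| := by
          rcases hlow q0 h3 with h | h
          · exact h
          · exfalso
            have h5 : (n:ℝ) * M.w q0 ≤ n * (1 / (200 * n)) :=
              mul_le_mul_of_nonneg_left h (by linarith)
            have h6 : (n:ℝ) * (1 / (200 * n)) = 1/200 := by field_simp
            have h7 : (9/20:ℝ)^2 ≤ M.H q0 ^ 2 := by
              rw [← sq_abs (M.H q0)]
              exact pow_le_pow_left₀ (by norm_num) hq2 2
            rw [h6] at h5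
            nlinarith
        have h5 : Real.log (19/20) ≤ Real.log |M.H q0| := Real.log_le_log (by norm_num) h4
        rw [Real.log_abs] at h5
        change Real.log (19/20) ≤ Real.log (M.H q0) + κ (M.rho q0)
        linarith [hκ0 q0]
      · have h1 := (hbb' q0 hq3).2.2.2.2.1
        have h2 : 0 < Real.exp ((M.rho q0 - r) / 8) := Real.exp_pos _
        have h3 : 1 / (10 * r) < 2 * (1 / (19 * r)) := by
          rw [← sub_pos]
          have : 2 * (1 / (19 * r)) - 1 / (10 * r) = 1 / (190 * r) := by field_simp; norm_num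
          rw [this]
          positivity
        have h4 : 0 < (n:ℝ) * Real.exp ((M.rho q0 - r) / 8) := by positivity
        nlinarith
  -- conclusion
  have hYp : Y q0 ≤ Y p := hmin ⟨hpr, hHp.le⟩
  have h1 : κ (M.rho p) ≤ 1/20 + 1/19 := by
    change 36 * n * Real.exp ((M.rho p - r) / 8) + 1 / (19 * r) * M.rho p ≤ _
    have e1 : Real.exp ((M.rho p - r) / 8) ≤ Real.exp (- Real.log (720 * n)) :=
      Real.exp_le_exp.2 (by linarith)
    rw [Real.exp_neg, Real.exp_log (by positivity)] at e1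
    have e2 : 36 * n * Real.exp ((M.rho p - r) / 8) ≤ 36 * n * (720 * (n:ℝ))⁻¹ :=
      mul_le_mul_of_nonneg_left e1 (by positivity)
    have e3 : 36 * n * (720 * (n:ℝ))⁻¹ = 1/20 := by field_simp; norm_num
    have e4 : 1 / (19 * r) * M.rho p ≤ 1 / (19 * r) * r :=
      mul_le_mul_of_nonneg_left hpr (by positivity)
    have e5 : 1 / (19 * r) * r = 1/19 := by field_simp
    linarith
  have h2 : Y p = Real.log (M.H p) + κ (M.rho p) := rfl
  have h3 : Real.log (21/25) ≤ Real.log |M.H p| := by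
    rw [Real.log_abs]
    have e1 : 1 - (95/84:ℝ)⁻¹ ≤ Real.log (95/84) := Real.one_sub_inv_le_log_of_pos (by norm_num)
    have e2 : Real.log (19/20) = Real.log (21/25) + Real.log (95/84) := by
      rw [← Real.log_mul (by norm_num) (by norm_num)]
      norm_num
    norm_num at e1
    linarith
  exact (Real.log_le_log_iff (by norm_num) (by linarith)).1 h3

end

end Pool.Agent.ShG
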