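import Pool.Agent.ShG.Targets

/-! LOI: local inverses of the projection. -/

namespace Pool.Agent.ShG

open scoped BigOperators Topology ContDiff
open Set Filter Asymptotics

noncomputable section

lemma LOI_split {n : ℕ} (ι : Es n →ₗᵢ[ℝ] Fs n) (ν : Fs n) (hN : ‖ν‖ = 1)
    (hp : ∀ v, inner ℝ (ι v) ν = (0:ℝ)) (x : Fs n) :
    x = ι (prj ι x) + (inner ℝ x ν : ℝ) • ν := by
  have hN0 : ν ≠ 0 := by
    intro h0
    rw [h0] at hN
    simp at hN
  set R : Submodule ℝ (Fs n) := LinearMap.range ι.toLinearMap with hR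
  have hfr : Module.finrank ℝ R = n := by
    rw [hR, LinearMap.finrank_range_of_inj ι.injective]
    simp
  have hfo : Module.finrank ℝ Rᗮ = 1 := by
    have := Submodule.finrank_add_finrank_orthogonal R
    rw [hfr] at this
    simp at this
    omega
  have hNm : ν ∈ Rᗮ := by
    rw [Submodule.mem_orthogonal]
    rintro _ ⟨u, rfl⟩
    exact hp u
  set y : Fs n := x - ι (prj ι x) - (inner ℝ x ν : ℝ) • ν with hy
  have hNN : inner ℝ ν ν = (1 : ℝ) := by
    rw [real_inner_self_eq_norm_sq, hN]; norm_num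
  have hym : y ∈ Rᗮ := by
    rw [Submodule.mem_orthogonal]
    rintro _ ⟨u, rfl⟩
    change inner ℝ (ι u) y = 0
    rw [hy, inner_sub_right, inner_sub_right, inner_smul_right, hp, ι.inner_map_map,
      real_inner_comm, ← prj_inner, real_inner_comm]
    ring
  have hyN : inner ℝ y ν = (0:ℝ) := by
    rw [hy, inner_sub_left, inner_sub_left, inner_smul_left, hNN, hp]
    simp
  have h1 := (finrank_eq_one_iff_of_nonzero' (⟨ν, hNm⟩ : Rᗮ) (by
    intro h0; exact hN0 (congrArg Subtype.val h0))).1 hfo ⟨y, hym⟩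
  obtain ⟨c, hc⟩ := h1
  have hc' : c • ν = y := congrArg Subtype.val hc
  have : c = 0 := by
    have : inner ℝ (c • ν) ν = (0:ℝ) := by rw [hc', hyN]
    rw [inner_smul_left, hNN] at this
    simpa using this
  rw [this, zero_smul] at hc'
  have : y = 0 := hc'.symm
  rw [hy] at this
  have h3 : x - ι (prj ι x) = (inner ℝ x ν : ℝ) • ν := sub_eq_zero.1 this
  rw [← h3]; abel

lemma LOI_inner_grad {n : ℕ} {g : Es n → ℝ} {v : Es n} (w : Es n) :
    inner ℝ w (gradient g v) = fderiv ℝ g v w := by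
  rw [real_inner_comm]
  unfold gradient
  exact InnerProductSpace.toDual_symm_apply

theorem pLOI : tLOI := by
  intro n S _ _ M p ι hι q hq
  obtain ⟨U, κ, g, σ, h⟩ := M.sec q
  set F : Es n → Es n := fun v => prj ι (M.X (σ v) - M.X p) with hF
  -- the derivative
  set D : Es n → (Es n →L[ℝ] Es n) := fun v =>
    (prj ι).comp (κ.toContinuousLinearMap + (fderiv ℝ g v).smulRight (M.N q)) with hD
  have hder : ∀ v ∈ U, HasFDerivAt F (D v) v := by
    intro v hv
    have h1 := (h.hasFDeriv hv).sub_const (M.X p)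
    exact ((prj ι).hasFDerivAt.comp v h1)
  have hsm : ContDiffOn ℝ ∞ (fun v => M.X (σ v)) U := by
    have h1 : ContDiffOn ℝ ∞ (fun v => M.X q + κ v + g v • M.N q) U :=
      ((contDiff_const.add κ.toContinuousLinearMap.contDiff).contDiffOn).add
        (h.smooth.smul contDiffOn_const)
    exact h1.congr fun v hv => h.graph v hv
  have hFs : ∀ v ∈ U, ContDiffAt ℝ ∞ F v := by
    intro v hv
    have h1 : ContDiffAt ℝ ∞ (fun v => M.X (σ v)) v := hsm.contDiffAt (h.isOpen.mem_nhds hv)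
    exact (prj ι).contDiff.contDiffAt.comp v (h1.sub contDiffAt_const)
  -- the good set
  set P : Set (Es n) := U ∩ (fun v => (inner ℝ (M.N (σ v)) (M.N p) : ℝ)) ⁻¹' Ioi 0 with hP
  have hPo : IsOpen P := by
    refine ContinuousOn.isOpen_inter_preimage ?_ h.isOpen isOpen_Ioi
    exact ContinuousOn.inner (𝕜 := ℝ) ((Hyp.contN M).comp_continuousOn h.cont) continuousOn_const
  have hP0 : (0 : Es n) ∈ P := by
    refine ⟨h.mem0, ?_⟩
    change 0 < (inner ℝ (M.N (σ 0)) (M.N p) : ℝ)
    rw [h.base]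
    exact hq
  have hinj : ∀ v ∈ P, ∀ w, D v w = 0 → w = 0 := by
    rintro v ⟨hv, hv'⟩ w hw
    have hv' : 0 < (inner ℝ (M.N (σ v)) (M.N p) : ℝ) := hv'
    set x : Fs n := κ w + (fderiv ℝ g v w) • M.N q with hx
    have h1 : prj ι x = 0 := by
      have h2 : D v w = prj ι x := by
        rw [hD, hx]
        simp
      rw [← h2, hw]
    have h2 := LOI_split ι (M.N p) (M.unit p) hι x
    rw [h1, map_zero, zero_add] at h2
    -- x is orthogonal to the normal at σ v
    have h3 : inner ℝ x (M.N (σ v)) = (0:ℝ) := by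
      rw [h.normal v hv, inner_smul_right, inner_sub_right, hx, inner_add_left, inner_add_left,
        inner_smul_left, inner_smul_left, h.perp, κ.inner_map_map, M.NN,
        real_inner_comm (κ (gradient g v)) (M.N q), h.perp, LOI_inner_grad]
      simp
    have h4 : (inner ℝ x (M.N p) : ℝ) = 0 := by
      have h6 : (inner ℝ x (M.N p) : ℝ) * inner ℝ (M.N p) (M.N (σ v)) = 0 := by
        rw [h2, inner_smul_left] at h3
        simpa using h3
      rcases mul_eq_zero.1 h6 with h5 | h5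
      · exact h5
      · rw [real_inner_comm] at h5
        exact absurd h5 hv'.ne'
    rw [h4, zero_smul] at h2
    have h5 : inner ℝ x (κ w) = (0:ℝ) := by rw [h2, inner_zero_left]
    rw [hx, inner_add_left, inner_smul_left, real_inner_comm (κ w) (M.N q), h.perp,
      κ.inner_map_map, real_inner_self_eq_norm_sq] at h5
    have h6 : ‖w‖ ^ 2 = 0 := by simpa using h5
    exact norm_eq_zero.1 (pow_eq_zero_iff (two_ne_zero) |>.1 h6)
  -- the derivative as an equivalence
  have hequiv : ∀ v ∈ P, ∃ L : Es n ≃L[ℝ] Es n, (L : Es n →L[ℝ] Es n) = D v := by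
    intro v hv
    have h1 : Function.Injective (D v : Es n →ₗ[ℝ] Es n) := by
      rw [injective_iff_map_eq_zero]
      intro w hw
      exact hinj v hv w hw
    refine ⟨(LinearEquiv.ofInjectiveEndo (D v : Es n →ₗ[ℝ] Es n) h1).toContinuousLinearEquiv, ?_⟩
    ext1 w
    rfl
  obtain ⟨L0, hL0⟩ := hequiv 0 hP0
  have hd0 : HasFDerivAt F (L0 : Es n →L[ℝ] Es n) 0 := by
    rw [hL0]
    exact hder 0 h.mem0
  have hne : (∞ : WithTop ℕ∞) ≠ 0 := by simp
  set Φ := (hFs 0 h.mem0).toOpenPartialHomeomorph F hd0 hne with hΦ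
  have hΦc : ∀ v, Φ v = F v := fun v => by
    rw [hΦ]
    rfl
  have hΦ0 : (0 : Es n) ∈ Φ.source := (hFs 0 h.mem0).mem_toOpenPartialHomeomorph_source hd0 hne
  set O : Set (Es n) := P ∩ Φ.source with hO
  have hOo : IsOpen O := hPo.inter Φ.open_source
  have hOs : O ⊆ Φ.source := fun _ hx => hx.2
  have hV : IsOpen (Φ '' O) := Φ.isOpen_image_of_subset_source hOo hOs
  have hVt : Φ '' O ⊆ Φ.target := by
    rintro _ ⟨v, hv, rfl⟩
    exact Φ.map_source (hOs hv)
  have hVO : ∀ u ∈ Φ '' O, Φ.symm u ∈ O := by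
    rintro _ ⟨v, hv, rfl⟩
    rw [Φ.left_inv (hOs hv)]
    exact hv
  have hbase : F 0 = prj ι (M.X q - M.X p) := by
    rw [hF]
    change prj ι (M.X (σ 0) - M.X p) = _
    rw [h.base]
  refine ⟨Φ '' O, fun u => σ (Φ.symm u), hV, ?_, ?_, ?_, ?_, ?_, ?_, ?_⟩
  · exact ⟨0, ⟨hP0, hΦ0⟩, by rw [hΦc, hbase]⟩
  · change σ (Φ.symm (prj ι (M.X q - M.X p))) = q
    rw [← hbase, ← hΦc, Φ.left_inv hΦ0, h.base]
  · refine h.cont.comp (Φ.symm.continuousOn.mono hVt) ?_
    intro u hu
    exact (hVO u hu).1.1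
  · intro W hW hWo
    have h1 : (fun u => σ (Φ.symm u)) '' W = σ '' (Φ.symm '' W) := by
      rw [image_image]
    rw [h1]
    refine h.opn _ ?_ (Φ.isOpen_image_symm_of_subset_target hWo (hW.trans hVt))
    rintro _ ⟨u, hu, rfl⟩
    exact (hVO u (hW hu)).1.1
  · intro u hu
    have h1 := Φ.right_inv (hVt hu)
    rw [hΦc] at h1
    exact h1
  · have h1 : ContDiffOn ℝ ∞ Φ.symm (Φ '' O) := by
      intro u hu
      obtain ⟨L, hL⟩ := hequiv _ (hVO u hu).1
      refine (Φ.contDiffAt_symm (hVt hu) (f₀' := L) ?_ ?_).contDiffWithinAt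
      · rw [hL]
        exact (hder _ (hVO u hu).1.1).congr_of_eventuallyEq
          (Eventually.of_forall fun v => hΦc v)
      · exact (hFs _ (hVO u hu).1.1).congr_of_eventuallyEq
          (Eventually.of_forall fun v => hΦc v)
    exact hsm.comp h1 fun u hu => (hVO u hu).1.1
  · intro u hu
    exact (hVO u hu).1.2

end

end Pool.Agent.ShG
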