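import Pool.Agent.ShG.Targets

/-! Target `tLOWA` of the project ShG (helper92). -/

namespace Pool.Agent.ShG

open scoped BigOperators Topology ContDiff
open Set Filter Hyp

noncomputable section

variable {n : ℕ} {S : Type} [TopologicalSpace S]

lemma LOWA_cont {M : Hyp n S} {Z : S → ℝ} (h : ∀ p, M.Sm Z p) : Continuous Z :=
  continuous_iff_continuousAt.2 fun p => (h p).continuousAt

lemma LOWA_Lap (M : Hyp n S) (k a : ℝ) (p : S) :
    M.Lap (fun q => (k - M.w q) + a * M.rho q) p = - M.Lap M.w p + a * M.Lap M.rho p := by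
  rw [Lap_add ((Sm.const M k p).sub (Sm.w M p)) ((Sm.rho M p).const_mul a),
    Lap_sub (Sm.const M k p) (Sm.w M p), Lap_const, Lap_const_mul a (Sm.rho M p)]
  ring

theorem pLOWA (hLW : tLW) (hLX : tLX) : tLOWA := by
  intro n hn S _ _ M c δ1 δb δa R1 hStd hδ1 h1b hba hR1 hc hA hB
  obtain ⟨hS, hc0, hc1, hw⟩ := hStd
  have hR : 0 < R1 ^ 2 := by positivity
  have hδb : 0 < δb := hδ1.trans h1b
  have hδa : 0 < δa := hδb.trans_le hba
  have cw : Continuous M.w := LOWA_cont (Sm.w M)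
  have cρ : Continuous M.rho := LOWA_cont (Sm.rho M)
  have cv : Continuous (M.vv c) := LOWA_cont (Sm.vv c)
  set Z : S → ℝ := fun q => ((1 + 2 * c - δa) - M.w q) + (δa / R1 ^ 2) * M.rho q with hZ
  have hZv : ∀ q, Z q = M.vv c q - δa * (1 - M.rho q / R1 ^ 2) := by
    intro q
    simp only [hZ, Hyp.vv]
    ring
  have cZ : Continuous Z := by
    have : Z = fun q => M.vv c q - δa * (1 - M.rho q / R1 ^ 2) := funext hZv
    rw [this]
    fun_prop
  set K : Set S := {p | M.rho p ≤ R1 ^ 2} ∩ {p | δb ≤ M.vv c p} with hK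
  have hKc : IsCompact K := (M.isCompact_rho (R1 ^ 2)).inter_right (isClosed_le continuous_const cv)
  intro p0 hp0 hv0
  by_contra hcon
  push Not at hcon
  have hp0K : p0 ∈ K := ⟨hp0, hv0.le⟩
  obtain ⟨p, hpK, hmin⟩ := hKc.exists_isMinOn ⟨p0, hp0K⟩ cZ.continuousOn
  have hZp : Z p < 0 := by
    have h1 : Z p ≤ Z p0 := hmin hp0K
    have h2 : Z p0 < 0 := by rw [hZv]; linarith
    linarith
  have hρp : M.rho p ≤ R1 ^ 2 := hpK.1
  have hvp : δb ≤ M.vv c p := hpK.2
  have hlt : M.rho p < R1 ^ 2 := by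
    rcases lt_or_eq_of_le hρp with h | h
    · exact h
    · exfalso
      rw [hZv, h, div_self hR.ne'] at hZp
      linarith
  have hρ0 : 0 ≤ M.rho p := by unfold Hyp.rho; positivity
  have h2n : 2 * (n : ℝ) < M.rho p := by
    by_contra h
    push Not at h
    rcases hA p h with h1 | h1
    · linarith
    · rw [hZv] at hZp
      have h3 : 0 ≤ δa * (M.rho p / R1 ^ 2) := by positivity
      nlinarith
  -- local minimum
  have hloc : ∀ᶠ q in 𝓝 p, Z p ≤ Z q := by
    have e1 : ∀ᶠ q in 𝓝 p, M.rho q < R1 ^ 2 := cρ.continuousAt.eventually (Iio_mem_nhds hlt)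
    have e2 : ∀ᶠ q in 𝓝 p, δ1 < M.vv c q :=
      cv.continuousAt.eventually (Ioi_mem_nhds (h1b.trans_le hvp))
    filter_upwards [e1, e2] with q h1 h2
    refine hmin ⟨h1.le, ?_⟩
    rcases hB q h1.le with h3 | h3
    · exact absurd h3 (not_lt.2 h2.le)
    · exact h3.le
  have hSm : M.Sm Z p :=
    ((Sm.const M (1 + 2 * c - δa) p).sub (Sm.w M p)).add ((Sm.rho M p).const_mul (δa / R1 ^ 2))
  have hL := (min_Lap hSm hloc).2.2
  rw [hZ, LOWA_Lap, (hLW n S M hS p).2, (hLX n S M hS).2.2.1 p] at hL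
  have hJ := M.J_nonneg p
  have hw0 := M.w_nonneg p
  have hwp := hw p
  have hv1 : -(2 * M.J p + 2 * M.w p * (1 - M.w p)) ≤ 5 * c := by
    have : 2 * M.w p * (M.w p - 1) ≤ 5 * c := by
      by_cases h : M.w p ≤ 1
      · nlinarith
      · push Not at h
        nlinarith
    nlinarith
  have hd : δa / R1 ^ 2 * (2 * n - 2 * M.rho p) < - (2 * n * δa) / R1 ^ 2 := by
    have e : - (2 * (n : ℝ) * δa) / R1 ^ 2 = δa / R1 ^ 2 * (- (2 * n)) := by ring
    rw [e]
    have : 0 < δa / R1 ^ 2 := by positivity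
    exact mul_lt_mul_of_pos_left (by linarith) this
  have h5 : 5 * c < 2 * n * δa / R1 ^ 2 := by
    rw [lt_div_iff₀ hR]
    exact hc
  have e2 : - (2 * (n : ℝ) * δa) / R1 ^ 2 = - (2 * n * δa / R1 ^ 2) := by ring
  rw [e2] at hd
  linarith

end

end Pool.Agent.ShG
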