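import Pool.Agent.ShG.Targets

/-! `w` is tiny on the low part, deep inside. -/

namespace Pool.Agent.ShG

open scoped BigOperators Topology ContDiff
open Set Filter Hyp

variable {n : ℕ} {S : Type} [TopologicalSpace S]

/-- the barrier -/
noncomputable def LOWC_f (M : Hyp n S) (l K : ℝ) : S → ℝ :=
  fun q => 2 * Real.exp (l * (M.rho q - K))

lemma LOWC_rho_nonneg (M : Hyp n S) (p : S) : 0 ≤ M.rho p := by
  unfold Hyp.rho; positivity

lemma LOWC_f_pos (M : Hyp n S) (l K : ℝ) (p : S) : 0 < LOWC_f M l K p := by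
  unfold LOWC_f; positivity

lemma LOWC_f_Sm (M : Hyp n S) (l K : ℝ) (p : S) : M.Sm (LOWC_f M l K) p :=
  (((Sm.rho M p).sub (Sm.const M K p)).const_mul l).exp.const_mul 2

lemma LOWC_f_Lap (M : Hyp n S) (l K : ℝ) (p : S) :
    M.Lap (LOWC_f M l K) p = LOWC_f M l K p * (l * M.Lap M.rho p + l ^ 2 * M.gsq M.rho p) := by
  have h1 : ∀ x : ℝ, HasDerivAt (fun x : ℝ => 2 * Real.exp (l * (x - K)))
      (2 * l * Real.exp (l * (x - K))) x := by
    intro x
    have h0 : HasDerivAt (fun x : ℝ => l * (x - K)) (l * 1) x :=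
      ((hasDerivAt_id x).sub_const K).const_mul l
    have h2 := (h0.exp).const_mul 2
    refine h2.congr_deriv ?_
    ring
  have h2 : HasDerivAt (fun x : ℝ => 2 * l * Real.exp (l * (x - K)))
      (2 * l ^ 2 * Real.exp (l * (M.rho p - K))) (M.rho p) := by
    have h0 : HasDerivAt (fun x : ℝ => l * (x - K)) (l * 1) (M.rho p) :=
      ((hasDerivAt_id _).sub_const K).const_mul l
    have h2 := (h0.exp).const_mul (2 * l)
    refine h2.congr_deriv ?_
    ring
  have h3 := Lap_comp (M := M) (Z := M.rho) (p := p)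
    (φ := fun x => 2 * Real.exp (l * (x - K))) (φ' := fun x => 2 * l * Real.exp (l * (x - K)))
    (φ'' := 2 * l ^ 2 * Real.exp (l * (M.rho p - K)))
    (Eventually.of_forall h1) h2
    (Eventually.of_forall fun q =>
      (((Sm.rho M q).sub (Sm.const M K q)).const_mul l).exp.const_mul (2 * l)) (Sm.rho M p)
  have e : M.Lap (LOWC_f M l K) p = M.Lap (fun q => 2 * Real.exp (l * (M.rho q - K))) p := rfl
  rw [e, h3]
  unfold LOWC_f
  ring

theorem pLOWC (hLW : tLW) (hLX : tLX) : tLOWC := by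
  intro n δa εw r0 hn hδa hδa4 hεw
  have hn' : (1:ℝ) ≤ n := by exact_mod_cast hn
  have hn0 : (0:ℝ) < n := by linarith
  set l : ℝ := δa / (8 * n) with hl
  have hl0 : 0 < l := by rw [hl]; positivity
  have hl2 : l ≤ 1 / 2 := by
    rw [hl, div_le_iff₀ (by positivity)]
    nlinarith
  have hln : 2 * n * l = δa / 4 := by
    rw [hl]; field_simp; ring
  -- choice of `Rm`
  set L : ℝ := |Real.log (εw / 2)| with hL
  have hL0 : 0 ≤ L := abs_nonneg _
  refine ⟨|r0| * 2 + 2 * (L / l + 1), ?_⟩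
  intro R1 hR1 S _ _ M c δ1 δb hStd hc hδ1 hδb hdich hlow p hp hvp
  obtain ⟨hShr, hc0, hc100, hw⟩ := hStd
  have hLl : 0 ≤ L / l := by positivity
  have hR0 : 0 < R1 := by
    have := abs_nonneg r0
    linarith
  have hR2 : r0 ^ 2 + L / l < R1 ^ 2 / 2 := by
    have h1 : 2 * |r0| + 2 * (L / l + 1) ≤ R1 := by linarith
    have h2 : (2 * |r0| + 2 * (L / l + 1)) ^ 2 ≤ R1 ^ 2 :=
      pow_le_pow_left₀ (by have := abs_nonneg r0; positivity) h1 2
    have h3 : |r0| ^ 2 = r0 ^ 2 := sq_abs r0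
    have h4 : 0 ≤ |r0| := abs_nonneg r0
    have h5 : 0 ≤ |r0| * (L / l) := mul_nonneg h4 hLl
    have h6 : 0 ≤ (L / l) ^ 2 := sq_nonneg _
    nlinarith
  set K : ℝ := R1 ^ 2 / 2 with hK
  have hKR : K ≤ R1 ^ 2 := by rw [hK]; nlinarith [sq_nonneg R1]
  have hK0 : 0 < K := by rw [hK]; positivity
  -- the region
  set A : Set S := {q | M.rho q ≤ K} ∩ {q | δ1 ≤ M.vv c q} with hA
  have hvcont : Continuous (M.vv c) :=
    continuous_iff_continuousAt.mpr fun q => (Sm.vv c q).continuousAt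
  have hAc : IsCompact A := (M.isCompact_rho K).inter_right (isClosed_le continuous_const hvcont)
  have hpA : p ∈ A := by
    refine ⟨?_, ?_⟩
    · show M.rho p ≤ K
      linarith
    · show δ1 ≤ M.vv c p
      linarith
  have hAv : ∀ q ∈ A, δb < M.vv c q := by
    intro q hq
    rcases hdich q (le_trans hq.1 hKR) with h | h
    · exact absurd h (not_lt.mpr hq.2)
    · exact h
  have hZcont : Continuous (fun q => M.w q - LOWC_f M l K q) :=
    continuous_iff_continuousAt.mpr fun q =>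
      ((Sm.w M q).sub (LOWC_f_Sm M l K q)).continuousAt
  obtain ⟨q0, hq0A, hq0⟩ := hAc.exists_isMaxOn ⟨p, hpA⟩ hZcont.continuousOn
  have hkey : M.w q0 - LOWC_f M l K q0 ≤ 0 := by
    by_contra hneg
    rw [not_le] at hneg
    have hfpos := LOWC_f_pos M l K q0
    have hwq : 0 < M.w q0 := by linarith
    have hρ0 : 0 ≤ M.rho q0 := LOWC_rho_nonneg M q0
    -- interior
    have hρlt : M.rho q0 < K := by
      refine lt_of_le_of_ne hq0A.1 ?_
      intro he
      have : LOWC_f M l K q0 = 2 := by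
        unfold LOWC_f
        rw [he]; simp
      have := hw q0
      linarith
    have hvq : δb < M.vv c q0 := hAv q0 hq0A
    have hρc : Continuous M.rho :=
      continuous_iff_continuousAt.mpr fun q => (Sm.rho M q).continuousAt
    have hev : ∀ᶠ q in 𝓝 q0, M.w q - LOWC_f M l K q ≤ M.w q0 - LOWC_f M l K q0 := by
      have e1 : ∀ᶠ q in 𝓝 q0, M.rho q < K := hρc.continuousAt.eventually_lt_const hρlt
      have e2 : ∀ᶠ q in 𝓝 q0, δb < M.vv c q := hvcont.continuousAt.eventually_const_lt hvq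
      filter_upwards [e1, e2] with q a1 a2
      exact hq0 ⟨a1.le, le_of_lt (lt_trans hδb a2)⟩
    have hmax := (max_Lap ((Sm.w M q0).sub (LOWC_f_Sm M l K q0)) hev).2.2
    rw [Lap_sub (Sm.w M q0) (LOWC_f_Sm M l K q0), LOWC_f_Lap] at hmax
    obtain ⟨_, _, hX3, _, hX5⟩ := hLX n S M hShr
    rw [hX3, hX5, (hLW n S M hShr q0).2] at hmax
    have hJ := M.J_nonneg q0
    -- the lower bound of `v`
    have hv1 : δa / 2 ≤ M.vv c q0 := by
      have h1 := hlow q0 (le_trans hq0A.1 hKR) hvq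
      have h2 : M.rho q0 / R1 ^ 2 ≤ 1 / 2 := by
        rw [div_le_iff₀ (by positivity)]
        have : M.rho q0 ≤ K := hq0A.1
        rw [hK] at this
        linarith
      have h3 : δa * (1 / 2) ≤ δa * (1 - M.rho q0 / R1 ^ 2) :=
        mul_le_mul_of_nonneg_left (by linarith) hδa.le
      linarith
    have hv2 : δa / 4 ≤ 1 - M.w q0 := by
      unfold Hyp.vv at hv1
      linarith
    have hLw : δa / 2 * M.w q0 ≤ 2 * M.J q0 + 2 * M.w q0 * (1 - M.w q0) := by
      have : M.w q0 * (δa / 4) ≤ M.w q0 * (1 - M.w q0) := mul_le_mul_of_nonneg_left hv2 hwq.le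
      linarith
    have hLf : LOWC_f M l K q0 * (l * (2 * n - 2 * M.rho q0)
        + l ^ 2 * (4 * (M.rho q0 - M.H q0 ^ 2))) ≤ LOWC_f M l K q0 * (δa / 4) := by
      refine mul_le_mul_of_nonneg_left ?_ hfpos.le
      have h1 : l ^ 2 * (4 * (M.rho q0 - M.H q0 ^ 2)) ≤ l ^ 2 * (4 * M.rho q0) := by
        refine mul_le_mul_of_nonneg_left ?_ (sq_nonneg l)
        have := sq_nonneg (M.H q0)
        linarith
      have h2 : l ^ 2 * (4 * M.rho q0) ≤ l * (2 * M.rho q0) := by
        have : l * (l * M.rho q0) ≤ 1 / 2 * (l * M.rho q0) :=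
          mul_le_mul_of_nonneg_right hl2 (mul_nonneg hl0.le hρ0)
        nlinarith
      have h3 : l * (2 * n - 2 * M.rho q0) = 2 * n * l - l * (2 * M.rho q0) := by ring
      linarith
    have h5 : δa / 2 * LOWC_f M l K q0 < δa / 2 * M.w q0 :=
      mul_lt_mul_of_pos_left (by linarith) (by linarith)
    have h6 : LOWC_f M l K q0 * (δa / 4) < δa / 2 * LOWC_f M l K q0 := by
      have := mul_pos hfpos hδa
      linarith
    linarith
  have hfin : M.w p - LOWC_f M l K p ≤ M.w q0 - LOWC_f M l K q0 := hq0 hpA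
  have hwp : M.w p ≤ LOWC_f M l K p := by linarith
  refine hwp.trans ?_
  unfold LOWC_f
  have h1 : l * (M.rho p - K) ≤ -L := by
    have h2 : M.rho p - K ≤ -(L / l) := by linarith
    have h3 := mul_le_mul_of_nonneg_left h2 hl0.le
    have h4 : l * -(L / l) = -L := by field_simp
    linarith
  have h2 : -L ≤ Real.log (εw / 2) := by
    rw [hL]; exact neg_abs_le _
  have h3 : Real.exp (l * (M.rho p - K)) ≤ εw / 2 := by
    calc Real.exp (l * (M.rho p - K)) ≤ Real.exp (Real.log (εw / 2)) :=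
          Real.exp_le_exp.mpr (h1.trans h2)
      _ = εw / 2 := Real.exp_log (by linarith)
  linarith

end Pool.Agent.ShG
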