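import Pool.Agent.ShG.Targets

/-! LOWE: the low part of the dichotomy. -/

namespace Pool.Agent.ShG

open scoped BigOperators Topology ContDiff
open Set Filter Asymptotics

noncomputable section

section

variable {n : ℕ} {S : Type} [TopologicalSpace S] (M : Hyp n S)

lemma LOWE_contw : Continuous M.w :=
  continuous_iff_continuousAt.2 fun p => (Hyp.Sm.w M p).continuousAt

lemma LOWE_contH : Continuous M.H :=
  continuous_iff_continuousAt.2 fun p => (Hyp.Sm.H M p).continuousAt

lemma LOWE_contrho : Continuous M.rho :=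
  continuous_iff_continuousAt.2 fun p => (Hyp.Sm.rho M p).continuousAt

/-- the exponent -/
def LOWE_g (k r : ℝ) : S → ℝ := fun q => k * M.rho q + (-(k * r))

lemma LOWE_smg (k r : ℝ) (p : S) : M.Sm (LOWE_g M k r) p :=
  ((Hyp.Sm.rho M p).const_mul k).add (Hyp.Sm.const M _ p)

lemma LOWE_dlg (k r : ℝ) (a : Fin (n + 1)) (p : S) :
    M.dl a (LOWE_g M k r) p = k * M.dl a M.rho p := by
  unfold LOWE_g
  rw [Hyp.dl_add ((Hyp.Sm.rho M p).const_mul k) (Hyp.Sm.const M _ p), Hyp.dl_const,
    Hyp.dl_const_mul k (Hyp.Sm.rho M p), add_zero]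

lemma LOWE_gsqg (k r : ℝ) (p : S) : M.gsq (LOWE_g M k r) p = k ^ 2 * M.gsq M.rho p := by
  unfold Hyp.gsq
  rw [Finset.mul_sum]
  refine Finset.sum_congr rfl fun a _ => ?_
  rw [LOWE_dlg]
  ring

lemma LOWE_Lapg (k r : ℝ) (p : S) : M.Lap (LOWE_g M k r) p = k * M.Lap M.rho p := by
  unfold LOWE_g
  rw [Hyp.Lap_add ((Hyp.Sm.rho M p).const_mul k) (Hyp.Sm.const M _ p), Hyp.Lap_const,
    Hyp.Lap_const_mul k (Hyp.Sm.rho M p), add_zero]

end

theorem pLOWE (hLW : tLW) (hLX : tLX) (hHW : tHW) : tLOWE := by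
  intro n hn S _ _ M c r hStd hD p hp hwp
  have hn' : (1 : ℝ) ≤ n := by exact_mod_cast hn
  have hn0 : (0 : ℝ) < n := by linarith
  set K : Set S := {q | M.rho q ≤ r ∧ |M.H q| ≤ 9 / 20} with hK
  have hcomp : IsCompact K := by
    have h1 : K = {q | M.rho q ≤ r} ∩ {q | |M.H q| ≤ 9 / 20} := rfl
    rw [h1]
    exact (M.isCompact_rho r).inter_right
      (isClosed_le (LOWE_contH M).abs continuous_const)
  have hwH : ∀ q, M.w q < 1 / (25 * n) → |M.H q| < 9 / 20 := by
    intro q hq
    have h1 := (hHW n S M q).1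
    have h2 : n * M.w q < 1 / 25 := by
      calc n * M.w q < n * (1 / (25 * n)) := mul_lt_mul_of_pos_left hq hn0
        _ = 1 / 25 := by field_simp
    rw [abs_lt]
    constructor <;> nlinarith
  have hKw : ∀ q ∈ K, M.w q < 1 / (25 * n) := by
    intro q hq
    rcases hD q hq.1 with h | h
    · exact absurd hq.2 (not_le.2 h)
    · exact h
  have hpK : p ∈ K := ⟨hp, (hwH p hwp).le⟩
  set k : ℝ := 1 / (4 * n) with hk
  set f : S → ℝ := fun q => (1 / (25 * n)) * Real.exp (LOWE_g M k r q) with hf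
  have hfe : ∀ q, f q = (1 / (25 * n)) * Real.exp ((M.rho q - r) / (4 * n)) := by
    intro q
    rw [hf]
    simp only [LOWE_g]
    congr 2
    rw [hk]
    ring
  have hfp : ∀ q, 0 < f q := fun q => by
    rw [hf]
    positivity
  have hsf : ∀ q, M.Sm f q := fun q => ((LOWE_smg M k r q).exp).const_mul _
  have hcf : Continuous f := continuous_iff_continuousAt.2 fun q => (hsf q).continuousAt
  obtain ⟨q, hqK, hqm⟩ := hcomp.exists_isMaxOn ⟨p, hpK⟩
    (((LOWE_contw M).sub hcf).continuousOn (s := K))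
  rw [← hfe]
  by_contra hcon
  push Not at hcon
  have h1 : f q < M.w q := by
    have h2 : M.w p - f p ≤ M.w q - f q := hqm hpK
    linarith
  rcases eq_or_lt_of_le hqK.1 with hr | hr
  · have h3 := hKw q hqK
    rw [hfe, hr, sub_self, zero_div, Real.exp_zero, mul_one] at h1
    linarith
  · -- interior maximum
    have hloc : ∀ᶠ q' in 𝓝 q, M.w q' - f q' ≤ M.w q - f q := by
      have e1 : ∀ᶠ q' in 𝓝 q, M.rho q' < r :=
        (LOWE_contrho M).continuousAt.eventually (isOpen_Iio.mem_nhds hr)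
      have e2 : ∀ᶠ q' in 𝓝 q, M.w q' < 1 / (25 * n) :=
        (LOWE_contw M).continuousAt.eventually (isOpen_Iio.mem_nhds (hKw q hqK))
      filter_upwards [e1, e2] with q' a1 a2
      exact hqm (show q' ∈ K from ⟨a1.le, (hwH q' a2).le⟩)
    have hmax := (Hyp.max_Lap ((Hyp.Sm.w M q).sub (hsf q)) hloc).2.2
    rw [Hyp.Lap_sub (Hyp.Sm.w M q) (hsf q)] at hmax
    have hM := hStd.1
    have hLw := (hLW n S M hM q).2
    obtain ⟨-, -, hLr, -, hgr⟩ := hLX n S M hM
    have hLf : M.Lap f q = f q * (k * (2 * n - 2 * M.rho q) +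
        k ^ 2 * (4 * (M.rho q - M.H q ^ 2))) := by
      rw [hf, Hyp.Lap_const_mul _ (LOWE_smg M k r q).exp, Hyp.Lap_exp (LOWE_smg M k r q),
        LOWE_gsqg, LOWE_Lapg, hLr, hgr]
      ring
    have hJ := Hyp.J_nonneg (M := M) q
    have hwl := hKw q hqK
    have hw25 : M.w q < 1 / 25 := by
      refine hwl.trans_le ?_
      rw [div_le_div_iff₀ (by positivity) (by norm_num)]
      linarith
    have hrho : 0 ≤ M.rho q := by
      unfold Hyp.rho
      positivity
    have hb : k * (2 * n - 2 * M.rho q) + k ^ 2 * (4 * (M.rho q - M.H q ^ 2)) ≤ 1 / 2 := by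
      have e1 : k * (2 * n - 2 * M.rho q) = 1 / 2 - M.rho q / (2 * n) := by
        rw [hk]
        field_simp
        ring
      have e2 : k ^ 2 * (4 * (M.rho q - M.H q ^ 2)) ≤ M.rho q / (2 * n) := by
        rw [hk]
        have e3 : (1 / (4 * (n : ℝ))) ^ 2 * (4 * (M.rho q - M.H q ^ 2)) =
            (M.rho q - M.H q ^ 2) / (4 * n ^ 2) := by
          field_simp
        rw [e3, div_le_div_iff₀ (by positivity) (by positivity)]
        have e4 : M.rho q - M.H q ^ 2 ≤ M.rho q := by nlinarith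
        have e5 : (M.rho q - M.H q ^ 2) * (2 * n) ≤ M.rho q * (2 * n) :=
          mul_le_mul_of_nonneg_right e4 (by positivity)
        have e6 : M.rho q * (2 * n) ≤ M.rho q * (4 * n ^ 2) :=
          mul_le_mul_of_nonneg_left (by nlinarith) hrho
        linarith
      linarith
    have hfq := hfp q
    have hLf2 : M.Lap f q ≤ f q * (1 / 2) := by
      rw [hLf]
      exact mul_le_mul_of_nonneg_left hb hfq.le
    have hw0 : 0 < M.w q := hfq.trans h1
    nlinarith

end

end Pool.Agent.ShG
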