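import Pool.Agent.ShG.Targets

/-! tLSEC: the long section over `Kset`. -/

namespace Pool.Agent.ShG

open scoped BigOperators Topology ContDiff
open Set Filter

noncomputable section

variable {n : ℕ} {S : Type} [TopologicalSpace S]

/-- `x ↦ B(p) x` as a linear map -/
def LSEC_Bl (M : Hyp n S) (p : S) : Fs n →ₗ[ℝ] Fs n where
  toFun x := M.Bv p x
  map_add' x y := by
    ext a
    rw [PiLp.add_apply, Hyp.Bv_apply, Hyp.Bv_apply, Hyp.Bv_apply, ← Finset.sum_add_distrib]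
    refine Finset.sum_congr rfl fun b _ => ?_
    rw [PiLp.add_apply]
    ring
  map_smul' c x := by
    ext a
    rw [RingHom.id_apply, PiLp.smul_apply, Hyp.Bv_apply, Hyp.Bv_apply, smul_eq_mul,
      Finset.mul_sum]
    refine Finset.sum_congr rfl fun b _ => ?_
    rw [PiLp.smul_apply, smul_eq_mul]
    ring

lemma LSEC_Bl_apply (M : Hyp n S) (p : S) (x : Fs n) : LSEC_Bl M p x = M.Bv p x := rfl

lemma LSEC_cont (M : Hyp n S) (p : S) : Continuous (fun x => M.Bv p x) :=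
  (LSEC_Bl M p).continuous_of_finiteDimensional

lemma LSEC_sq {a b x y z c : ℝ} (ha : 0 ≤ a) (hb : 0 ≤ b) (hab : a + b = 1)
    (hx : x ^ 2 < c) (hy : y ^ 2 < c) (hz : 0 ≤ z) (h : z ≤ a * x + b * y) : z ^ 2 < c := by
  have h1 : z ^ 2 ≤ (a * x + b * y) ^ 2 := by
    apply pow_le_pow_left₀ hz h
  have h2 : (a * x + b * y) ^ 2 = a * x ^ 2 + b * y ^ 2 - a * b * (x - y) ^ 2 := by
    have : b = 1 - a := by linarith
    subst this
    ring
  have h3 : 0 ≤ a * b * (x - y) ^ 2 := by positivity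
  have h4 : a * x ^ 2 + b * y ^ 2 < c := by
    rcases eq_or_lt_of_le ha with h0 | h0
    · have hb1 : b = 1 := by linarith
      rw [← h0, hb1]
      linarith
    · have h5 : a * x ^ 2 < a * c := mul_lt_mul_of_pos_left hx h0
      have h6 : b * y ^ 2 ≤ b * c := mul_le_mul_of_nonneg_left hy.le hb
      have h7 : a * c + b * c = c := by rw [← add_mul, hab, one_mul]
      linarith
  linarith

lemma LSEC_open (M : Hyp n S) (p : S) (ι : Es n →ₗᵢ[ℝ] Fs n) (R : ℝ) :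
    IsOpen (Kset M p ι R) := by
  unfold Kset
  rw [Set.ofPred_and]
  refine IsOpen.inter ?_ ?_
  · exact isOpen_lt ((((LSEC_cont M p).comp ι.continuous).norm).pow 2) continuous_const
  · exact isOpen_lt (((continuous_const.add ι.continuous).norm).pow 2) continuous_const

lemma LSEC_convex (M : Hyp n S) (p : S) (ι : Es n →ₗᵢ[ℝ] Fs n) (R : ℝ) :
    Convex ℝ (Kset M p ι R) := by
  intro u hu v hv a b ha hb hab
  refine ⟨?_, ?_⟩
  · refine LSEC_sq ha hb hab hu.1 hv.1 (norm_nonneg _) ?_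
    have h1 : M.Bv p (ι (a • u + b • v)) = a • M.Bv p (ι u) + b • M.Bv p (ι v) := by
      rw [map_add, map_smul, map_smul, ← LSEC_Bl_apply, ← LSEC_Bl_apply, ← LSEC_Bl_apply,
        map_add, map_smul, map_smul]
    rw [h1]
    refine (norm_add_le _ _).trans ?_
    rw [norm_smul, norm_smul, Real.norm_of_nonneg ha, Real.norm_of_nonneg hb]
  · refine LSEC_sq ha hb hab hu.2 hv.2 (norm_nonneg _) ?_
    have h1 : (M.X p + M.H p • M.N p) + ι (a • u + b • v)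
        = a • ((M.X p + M.H p • M.N p) + ι u) + b • ((M.X p + M.H p • M.N p) + ι v) := by
      rw [map_add, map_smul, map_smul]
      generalize M.X p + M.H p • M.N p = Y
      have hY : Y = a • Y + b • Y := by rw [← add_smul, hab, one_smul]
      calc Y + (a • ι u + b • ι v) = (a • Y + b • Y) + (a • ι u + b • ι v) := by rw [← hY]
        _ = a • (Y + ι u) + b • (Y + ι v) := by rw [smul_add, smul_add]; abel
    rw [h1]
    refine (norm_add_le _ _).trans ?_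
    rw [norm_smul, norm_smul, Real.norm_of_nonneg ha, Real.norm_of_nonneg hb]

lemma LSEC_XT (M : Hyp n S) (hS : M.Shr) (p : S) {R : ℝ} (hR : 0 ≤ R) (hX : ‖M.X p‖ ≤ R) :
    ‖M.X p + M.H p • M.N p‖ ≤ R := by
  have h1 : ‖M.X p + M.H p • M.N p‖ ^ 2 = ‖M.X p‖ ^ 2 - M.H p ^ 2 := by
    rw [norm_add_sq_real, inner_smul_right, norm_smul, M.unit p]
    have h2 : inner ℝ (M.X p) (M.N p) = - M.H p := by rw [hS p]; ring
    rw [h2, mul_one, Real.norm_eq_abs, sq_abs]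
    ring
  have h3 : ‖M.X p + M.H p • M.N p‖ ^ 2 ≤ R ^ 2 := by
    rw [h1]
    have : ‖M.X p‖ ^ 2 ≤ R ^ 2 := pow_le_pow_left₀ (norm_nonneg _) hX 2
    nlinarith [sq_nonneg (M.H p)]
  exact le_of_sq_le_sq h3 hR
where
  le_of_sq_le_sq {a b : ℝ} (h : a ^ 2 ≤ b ^ 2) (hb : 0 ≤ b) : a ≤ b := by
    by_contra hc
    push Not at hc
    nlinarith

lemma LSEC_zero (M : Hyp n S) (hS : M.Shr) (p : S) (ι : Es n →ₗᵢ[ℝ] Fs n) {R : ℝ}
    (hn : 2 ≤ n) (hR : 0 ≤ R) (hX : ‖M.X p‖ ≤ R) : (0 : Es n) ∈ Kset M p ι R := by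
  have hn' : (2:ℝ) ≤ n := by exact_mod_cast hn
  refine ⟨?_, ?_⟩
  · rw [map_zero, ← LSEC_Bl_apply, map_zero, norm_zero]
    have h1 : (1:ℝ) / (40 * n) ≤ 1 / 80 :=
      one_div_le_one_div_of_le (by norm_num) (by linarith)
    have h2 : (0:ℝ) ≤ 1 / (40 * n) := by positivity
    nlinarith
  · rw [map_zero, add_zero]
    have h1 := LSEC_XT M hS p hR hX
    have h2 : ‖M.X p + M.H p • M.N p‖ ^ 2 ≤ R ^ 2 := pow_le_pow_left₀ (norm_nonneg _) h1 2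
    nlinarith

lemma LSEC_bound (M : Hyp n S) (hS : M.Shr) (p : S) (ι : Es n →ₗᵢ[ℝ] Fs n) {R : ℝ}
    (hR : 0 ≤ R) (hX : ‖M.X p‖ ≤ R) {u : Es n} (hu : u ∈ Kset M p ι R) :
    ‖u‖ ≤ Real.sqrt (61 * n + R ^ 2) + R := by
  have h1 := LSEC_XT M hS p hR hX
  have h2 : ‖(M.X p + M.H p • M.N p) + ι u‖ ≤ Real.sqrt (61 * n + R ^ 2) :=
    Real.le_sqrt_of_sq_le hu.2.le
  have h3 : ι u = ((M.X p + M.H p • M.N p) + ι u) - (M.X p + M.H p • M.N p) := by abel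
  calc ‖u‖ = ‖ι u‖ := (ι.norm_map u).symm
    _ = ‖((M.X p + M.H p • M.N p) + ι u) - (M.X p + M.H p • M.N p)‖ := by rw [← h3]
    _ ≤ ‖(M.X p + M.H p • M.N p) + ι u‖ + ‖M.X p + M.H p • M.N p‖ := norm_sub_le _ _
    _ ≤ _ := add_le_add h2 h1

/-- restriction of a lift -/
lemma LSEC_restrict {M : Hyp n S} {p : S} {ι : Es n →ₗᵢ[ℝ] Fs n} {u : Es n} {s s' : ℝ}
    {γ : ℝ → S} (h : M.Lift p ι u s γ) (hs : s' ≤ s) : M.Lift p ι u s' γ := by
  have hsub : Icc (0:ℝ) s' ⊆ Icc 0 s := Icc_subset_Icc le_rfl hs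
  exact ⟨h.1.mono hsub, h.2.1, fun t ht => h.2.2.1 t (hsub ht), fun t ht => h.2.2.2 t (hsub ht)⟩

/-- the first item of near-structure gives the lower bound of the angle -/
lemma LSEC_angle (hHW : tHW) {M : Hyp n S} {p : S} {ι : Es n →ₗᵢ[ℝ] Fs n} {U : Set (Es n)}
    {g0 : Es n → ℝ} {σ0 : Es n → S} (h0 : IsSec M.X M.N p U ι g0 σ0)
    {u : Es n} {R : ℝ} (hu : u ∈ Kset M p ι R) {s t η : ℝ} {γ : ℝ → S}
    (hL : M.Lift p ι u s γ) (ht : t ∈ Icc (0:ℝ) s) (hs : s ≤ 1)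
    (hη : η ≤ (1 / (40 * n)) ^ 2 / 4) (hN : NSt M p (γ t) η) :
    3 / 4 * (1 / (40 * n : ℝ)) ^ 2 < (inner ℝ (M.N (γ t)) (M.N p) : ℝ) ^ 2 := by
  obtain ⟨-, -, -, hlin, -, -⟩ := hHW n S M p
  have h1 := hN.1
  have h2 : M.X (γ t) - M.X p
      = ι (t • u) + (inner ℝ (M.X (γ t) - M.X p) (M.N p) : ℝ) • M.N p := by
    have h3 := h0.split (M.unit p) (M.X (γ t) - M.X p)
    rw [hL.2.2.1 t ht] at h3
    exact h3
  have h4 : M.Bv p (M.X (γ t) - M.X p) = t • M.Bv p (ι u) := by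
    rw [h2, hlin, map_smul, ← LSEC_Bl_apply, map_smul, LSEC_Bl_apply]
  have h5 : ‖M.Bv p (M.X (γ t) - M.X p)‖ ^ 2 ≤ ‖M.Bv p (ι u)‖ ^ 2 := by
    rw [h4, norm_smul, Real.norm_of_nonneg ht.1, mul_pow]
    have h6 : t ^ 2 ≤ 1 := by nlinarith [ht.1, ht.2]
    nlinarith [sq_nonneg ‖M.Bv p (ι u)‖]
  have h7 := hu.1
  have h8 := (abs_le.1 h1).1
  nlinarith

/-- the normal stays on the side of `N p` along lifts -/
lemma LSEC_stay [T2Space S] (hHW : tHW) {M : Hyp n S} {p : S} {ι : Es n →ₗᵢ[ℝ] Fs n}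
    {U : Set (Es n)}
    {g0 : Es n → ℝ} {σ0 : Es n → S} (h0 : IsSec M.X M.N p U ι g0 σ0) (hn : 2 ≤ n)
    {u : Es n} {R η : ℝ} (hu : u ∈ Kset M p ι R)
    (hη : η ≤ (1 / (40 * n)) ^ 2 / 4)
    (hNS : ∀ (s : ℝ) (γ : ℝ → S), s ∈ Icc (0:ℝ) 1 → M.Lift p ι u s γ →
      (∀ t ∈ Icc (0:ℝ) s, 1 / (80 * n) ≤ (inner ℝ (M.N (γ t)) (M.N p) : ℝ)) →
      NSt M p (γ s) η)
    {s : ℝ} {γ : ℝ → S} (hs : s ∈ Icc (0:ℝ) 1) (hL : M.Lift p ι u s γ) :
    ∀ t ∈ Icc (0:ℝ) s, 1 / (80 * n) ≤ (inner ℝ (M.N (γ t)) (M.N p) : ℝ) := by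
  have hn' : (2:ℝ) ≤ n := by exact_mod_cast hn
  by_contra hcon
  push Not at hcon
  obtain ⟨t1, ht1, ht1'⟩ := hcon
  set φ : ℝ → ℝ := fun t => inner ℝ (M.N (γ t)) (M.N p) with hφ
  have hφc : ContinuousOn φ (Icc 0 s) :=
    (M.contN.comp_continuousOn hL.1).inner continuousOn_const
  set C : Set ℝ := Icc 0 s ∩ φ ⁻¹' (Iic (1 / (80 * n))) with hC
  have hCc : IsCompact C := by
    have h1 : IsClosed C := hφc.preimage_isClosed_of_isClosed isClosed_Icc isClosed_Iic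
    exact (isCompact_Icc (a := (0:ℝ)) (b := s)).of_isClosed_subset h1 inter_subset_left
  have hCn : C.Nonempty := ⟨t1, ht1, ht1'.le⟩
  obtain ⟨ts, hts, hleast⟩ := hCc.exists_isLeast hCn
  have hτ1 : (1:ℝ) / (80 * n) < 1 := by
    rw [div_lt_one (by linarith)]
    linarith
  have hφ0 : φ 0 = 1 := by
    rw [hφ]
    simp only
    rw [hL.2.1]
    exact M.NN p
  have hts0 : 0 ≤ ts := hts.1.1
  have hval : φ ts = 1 / (80 * n) := by
    have h2 : (1:ℝ) / (80 * n) ∈ Icc (φ ts) (φ 0) := ⟨hts.2, by rw [hφ0]; exact hτ1.le⟩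
    have h3 := intermediate_value_Icc' hts0
      (hφc.mono (Icc_subset_Icc le_rfl hts.1.2)) h2
    obtain ⟨t', ht', ht'v⟩ := h3
    have h4 : t' ∈ C := ⟨⟨ht'.1, ht'.2.trans hts.1.2⟩, ht'v.le⟩
    have h5 : ts ≤ t' := hleast h4
    have h6 : t' = ts := le_antisymm ht'.2 h5
    rw [← h6]; exact ht'v
  have hall : ∀ t ∈ Icc (0:ℝ) ts, 1 / (80 * n) ≤ (inner ℝ (M.N (γ t)) (M.N p) : ℝ) := by
    intro t ht
    rcases eq_or_lt_of_le ht.2 with h | h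
    · rw [h]; exact hval.ge
    · by_contra hc
      push Not at hc
      have : t ∈ C := ⟨⟨ht.1, ht.2.trans hts.1.2⟩, hc.le⟩
      exact absurd (hleast this) (not_le.2 h)
  have hL' := LSEC_restrict hL hts.1.2
  have hNSt := hNS ts γ ⟨hts0, hts.1.2.trans hs.2⟩ hL' hall
  have hang := LSEC_angle hHW h0 hu hL' ⟨hts0, le_rfl⟩ (hts.1.2.trans hs.2) hη hNSt
  change 3 / 4 * (1 / (40 * n : ℝ)) ^ 2 < (φ ts) ^ 2 at hang
  rw [hval] at hang
  have h7 : (1:ℝ) / (80 * n) = 1 / 2 * (1 / (40 * n)) := by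
    field_simp
    norm_num
  rw [h7] at hang
  have h8 : (0:ℝ) < 1 / (40 * n) := by positivity
  nlinarith [pow_pos h8 2]

lemma LSEC_mono {M : Hyp n S} {p q : S} {η η' : ℝ} (h : NSt M p q η) (hle : η ≤ η') :
    NSt M p q η' :=
  ⟨h.1.trans hle, h.2.1.trans hle, h.2.2.1.trans hle, h.2.2.2.1.trans hle,
    h.2.2.2.2.1.trans hle, h.2.2.2.2.2.trans hle⟩

theorem pLSEC (hLIFT : tLIFT) (hNS : tNS) (hVEL : tVEL) (hRCH : tRCH) (hHW : tHW) :
    tLSEC := by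
  intro n R hn hR
  have hn' : (2:ℝ) ≤ n := by exact_mod_cast hn
  set L : ℝ := Real.sqrt (61 * n + R ^ 2) + R with hLdef
  have hL0 : 0 ≤ L := by positivity
  have hτ0 : (0:ℝ) < 1 / (80 * n) := by positivity
  refine ⟨⌈40 * (L / (1 / (80 * n)))⌉₊ + 1, ?_⟩
  intro η hη
  set η' : ℝ := min η ((1 / (40 * n)) ^ 2 / 4) with hη'
  have hη'0 : 0 < η' := lt_min hη (by positivity)
  obtain ⟨δ, hδ, hmain⟩ := hNS n R L (1 / (80 * n)) η' hR hL0 hτ0 hη'0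
  refine ⟨δ, hδ, ?_⟩
  intro S _ _ M c hStd p hX hv
  obtain ⟨U, ι, g0, σ0, h0⟩ := M.sec p
  have hS : M.Shr := hStd.1
  have hperp : ∀ v, inner ℝ (ι v) (M.N p) = (0:ℝ) := h0.perp
  have hb : ∀ u ∈ Kset M p ι R, ‖u‖ ≤ L := fun u hu => LSEC_bound M hS p ι hR hX hu
  have hns : ∀ u ∈ Kset M p ι R, ∀ (s : ℝ) (γ : ℝ → S), s ∈ Icc (0:ℝ) 1 →
      M.Lift p ι u s γ →
      (∀ t ∈ Icc (0:ℝ) s, 1 / (80 * n) ≤ (inner ℝ (M.N (γ t)) (M.N p) : ℝ)) →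
      NSt M p (γ s) η' := by
    intro u hu s γ hs hLi hall
    exact hmain S M c hStd p ι u s γ hperp hX hv (hb u hu) hs hLi hall
  have hstay : ∀ u ∈ Kset M p ι R, ∀ (s : ℝ) (γ : ℝ → S), s ∈ Icc (0:ℝ) 1 →
      M.Lift p ι u s γ →
      ∀ t ∈ Icc (0:ℝ) s, 1 / (80 * n) ≤ (inner ℝ (M.N (γ t)) (M.N p) : ℝ) := by
    intro u hu s γ hs hLi
    exact LSEC_stay hHW h0 hn hu (min_le_right _ _) (hns u hu) hs hLi
  obtain ⟨g, σ, hsec, hlift⟩ := hLIFT n S M p ι hperp (Kset M p ι R) (1 / (80 * n))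
    (R + L / (1 / (80 * n))) (LSEC_open M p ι R) (LSEC_zero M hS p ι hn hR hX)
    (LSEC_convex M p ι R) hτ0 (by
      intro u hu s hs γ hLi
      have hst := hstay u hu s γ hs hLi
      refine ⟨hst s ⟨hs.1, le_rfl⟩, ?_⟩
      have h1 := (hVEL n S M p ι u s (1 / (80 * n)) γ hperp hLi hτ0 hst).2 s ⟨hs.1, le_rfl⟩ 0
        ⟨le_rfl, hs.1⟩
      rw [hLi.2.1, sub_zero, abs_of_nonneg hs.1] at h1
      have h2 : ‖u‖ / (1 / (80 * n)) * s ≤ L / (1 / (80 * n)) := by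
        have h3 : ‖u‖ / (1 / (80 * n)) ≤ L / (1 / (80 * (n:ℝ))) :=
          div_le_div_of_nonneg_right (hb u hu) hτ0.le
        have h4 : 0 ≤ ‖u‖ / (1 / (80 * (n:ℝ))) := by positivity
        nlinarith [hs.1, hs.2]
      calc ‖M.X (γ s)‖ = ‖M.X p + (M.X (γ s) - M.X p)‖ := by rw [add_sub_cancel]
        _ ≤ ‖M.X p‖ + ‖M.X (γ s) - M.X p‖ := norm_add_le _ _
        _ ≤ _ := by linarith)
  refine ⟨ι, g, σ, hsec, ?_⟩
  intro u hu
  have hLi := hlift u hu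
  have h1m : (1:ℝ) ∈ Icc (0:ℝ) 1 := ⟨zero_le_one, le_rfl⟩
  have hst := hstay u hu 1 _ h1m hLi
  have hN1 := hns u hu 1 _ h1m hLi hst
  have hA := hst 1 h1m
  simp only [one_smul] at hA hN1
  refine ⟨hA, LSEC_mono hN1 (min_le_left _ _), ?_⟩
  have hlip := (hVEL n S M p ι u 1 (1 / (80 * n)) _ hperp hLi hτ0 hst).2
  have hw : ∀ q, M.w q ≤ 2 := by
    intro q
    have h2 := hStd.2.2.2 q
    have h3 := hStd.2.2.1
    linarith
  have hr := hRCH n S M hw (fun t => σ (t • u)) 1 (L / (1 / (80 * n)))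
    (⌈40 * (L / (1 / (80 * n)))⌉₊ + 1) zero_le_one (by omega) hLi.1 (by
      intro t ht t' ht'
      refine (hlip t ht t' ht').trans ?_
      exact mul_le_mul_of_nonneg_right (div_le_div_of_nonneg_right (hb u hu) hτ0.le)
        (abs_nonneg _)) (by
      have h4 := Nat.le_ceil (40 * (L / (1 / (80 * (n:ℝ)))))
      push_cast
      linarith)
  simp only [one_smul, zero_smul] at hr
  rw [hsec.base] at hr
  exact hr

end

end Pool.Agent.ShG
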