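import Pool.Agent.ShG.Targets

/-! Target `tLW` of the project ShG (helper27). -/

namespace Pool.Agent.ShG

open scoped BigOperators Topology ContDiff
open Set Filter Hyp

noncomputable section

variable {n : ℕ} {S : Type} [TopologicalSpace S]

lemma LW_H (M : Hyp n S) (hLB : tLB) (hS : M.Shr) (p : S) :
    M.Lap M.H p = (1 - M.w p) * M.H p := by
  have e : M.H = fun q => ∑ a, M.B a a q := rfl
  have h0 : M.Lap M.H p = ∑ a, M.Lap (M.B a a) p := by
    rw [e]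
    exact Lap_sum (fun a _ => Sm.B M a a p)
  rw [h0]
  simp_rw [hLB n S M hS]
  have h1 : ∑ a, M.B3 a a p = M.tr3 p := rfl
  have h2 : ∑ a, M.B a a p = M.H p := rfl
  have h3 : ∑ a, 2 * M.tr3 p * M.N p a * M.N p a = 2 * M.tr3 p := by
    have : ∀ a, 2 * M.tr3 p * M.N p a * M.N p a = 2 * M.tr3 p * (M.N p a * M.N p a) :=
      fun a => by ring
    simp_rw [this]
    rw [← Finset.mul_sum, M.sum_NN, mul_one]
  have h4 := M.dl_N M.w p
  rw [Finset.sum_add_distrib, Finset.sum_add_distrib, Finset.sum_add_distrib,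
    Finset.sum_sub_distrib, ← Finset.mul_sum, ← Finset.mul_sum, h1, h2, h3, h4]
  ring

lemma LW_b4 (M : Hyp n S) (p : S) : ∑ a, ∑ b, M.B a b p * M.B3 a b p = M.b4 p := by
  unfold Hyp.b4 Hyp.B3
  refine Finset.sum_congr rfl fun a _ => ?_
  have h1 : ∑ b, M.B a b p * ∑ c, M.B2 a c p * M.B c b p
      = ∑ c, M.B2 a c p * ∑ b, M.B a b p * M.B b c p := by
    simp_rw [Finset.mul_sum]
    rw [Finset.sum_comm]
    refine Finset.sum_congr rfl fun c _ => Finset.sum_congr rfl fun b _ => ?_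
    rw [B_symm b c p]
    ring
  rw [h1]
  refine Finset.sum_congr rfl fun c _ => ?_
  have h2 : ∑ b, M.B a b p * M.B b c p = M.B2 a c p := rfl
  rw [h2]
  ring

lemma LW_e1 (M : Hyp n S) (p : S) : ∑ a, ∑ b, M.gsq (M.B a b) p = M.e1 p := by
  unfold Hyp.e1 Hyp.gsq
  have h1 : ∀ a, ∑ b, ∑ c, (M.dl c (M.B a b) p) ^ 2 = ∑ c, ∑ b, (M.dl c (M.B a b) p) ^ 2 :=
    fun a => Finset.sum_comm
  simp_rw [h1]
  rw [Finset.sum_comm]

lemma LW_w (M : Hyp n S) (hLB : tLB) (hT3 : tT3) (hS : M.Shr) (p : S) :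
    M.Lap M.w p = 2 * M.J p + 2 * M.w p * (1 - M.w p) := by
  have h0 : M.Lap M.w p = ∑ a, ∑ b, M.Lap (fun q => (M.B a b q) ^ 2) p := by
    have e : M.w = fun q => ∑ a, ∑ b, (M.B a b q) ^ 2 := rfl
    rw [e, Lap_sum (fun a _ => Sm.sum fun b _ => (Sm.B M a b p).pow 2)]
    refine Finset.sum_congr rfl fun a _ => ?_
    rw [Lap_sum (fun b _ => (Sm.B M a b p).pow 2)]
  have h1 : ∀ a b, M.Lap (fun q => (M.B a b q) ^ 2) p
      = 2 * (1 - M.w p) * (M.B a b p) ^ 2 - 4 * (M.B a b p * M.B3 a b p)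
        + 4 * M.tr3 p * (M.N p b * (M.N p a * M.B a b p))
        + 2 * M.dl a M.w p * (M.N p b * M.B a b p)
        + 2 * M.dl b M.w p * (M.N p a * M.B a b p) + 2 * M.gsq (M.B a b) p := by
    intro a b
    rw [Lap_sq (Sm.B M a b p), hLB n S M hS]
    ring
  have z1 : ∑ a, ∑ b, 4 * M.tr3 p * (M.N p b * (M.N p a * M.B a b p)) = 0 := by
    rw [Finset.sum_comm]
    refine Finset.sum_eq_zero fun b _ => ?_
    rw [← Finset.mul_sum, ← Finset.mul_sum, B_N_left, mul_zero, mul_zero]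
  have z2 : ∑ a, ∑ b, 2 * M.dl a M.w p * (M.N p b * M.B a b p) = 0 := by
    refine Finset.sum_eq_zero fun a _ => ?_
    rw [← Finset.mul_sum, B_N_left', mul_zero]
  have z3 : ∑ a, ∑ b, 2 * M.dl b M.w p * (M.N p a * M.B a b p) = 0 := by
    rw [Finset.sum_comm]
    refine Finset.sum_eq_zero fun b _ => ?_
    rw [← Finset.mul_sum, B_N_left, mul_zero]
  have s1 : ∑ a, ∑ b, 2 * (1 - M.w p) * (M.B a b p) ^ 2 = 2 * (1 - M.w p) * M.w p := by
    have : M.w p = ∑ a, ∑ b, (M.B a b p) ^ 2 := rfl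
    simp_rw [← Finset.mul_sum]
    rw [← this]
  have s2 : ∑ a, ∑ b, 4 * (M.B a b p * M.B3 a b p) = 4 * M.b4 p := by
    simp_rw [← Finset.mul_sum]
    rw [LW_b4]
  have s3 : ∑ a, ∑ b, 2 * M.gsq (M.B a b) p = 2 * M.e1 p := by
    simp_rw [← Finset.mul_sum]
    rw [LW_e1]
  have hJ := (hT3 n S M p).2.2.2.1
  rw [h0]
  simp_rw [h1, Finset.sum_add_distrib, Finset.sum_sub_distrib]
  rw [z1, z2, z3, s1, s2, s3, hJ]
  ring

theorem pLW (hLB : tLB) (hT3 : tT3) : tLW := by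
  intro n S _ M hS p
  exact ⟨LW_H M hLB hS p, LW_w M hLB hT3 hS p⟩

end

end Pool.Agent.ShG
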