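import Pool.Agent.ShG.Targets

/-! Target `tLX` of the project ShG (helper92). -/

namespace Pool.Agent.ShG

open scoped BigOperators Topology ContDiff
open Set Filter Hyp

noncomputable section

variable {n : ℕ} {S : Type} [TopologicalSpace S]

/-- `∑ X_a N_a = -H` -/
lemma LX_XN (M : Hyp n S) (hS : M.Shr) (p : S) : ∑ a, M.X p a * M.N p a = - M.H p := by
  have h := hS p
  rw [inner_sum] at h
  linarith

/-- `∑_a X_a δ_a X_b = X_b + H N_b` -/
lemma LX_Xdl (M : Hyp n S) (hS : M.Shr) (b : Fin (n + 1)) (p : S) :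
    ∑ a, M.X p a * M.dl a (M.Xc b) p = M.X p b + M.H p * M.N p b := by
  have h1 : ∀ a, M.X p a * M.dl a (M.Xc b) p
      = (if a = b then M.X p a else 0) - M.N p b * (M.X p a * M.N p a) := by
    intro a
    rw [M.dl_X]
    by_cases hab : a = b
    · simp only [if_pos hab]; ring
    · simp only [if_neg hab]; ring
  simp_rw [h1]
  rw [Finset.sum_sub_distrib, ← Finset.mul_sum, LX_XN M hS p, Finset.sum_ite_eq' Finset.univ b,
    if_pos (Finset.mem_univ _)]
  ring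

lemma LX_X (M : Hyp n S) (hS : M.Shr) (b : Fin (n + 1)) (p : S) :
    M.Lap (M.Xc b) p = - M.X p b := by
  unfold Hyp.Lap
  rw [LX_Xdl M hS]
  simp_rw [dl_dl_X]
  rw [Finset.sum_add_distrib, B_N_left, ← Finset.sum_mul]
  have : ∑ a, M.B a a p = M.H p := rfl
  rw [this]
  ring

lemma LX_N (M : Hyp n S) (hDIV : tDIV) (hGH : tGH) (hS : M.Shr) (b : Fin (n + 1)) (p : S) :
    M.Lap (M.Nc b) p = - M.w p * M.N p b := by
  unfold Hyp.Lap
  have e : ∀ a, M.dl a (M.Nc b) = fun q => - M.B a b q := fun a => by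
    funext q
    exact dl_Nc a b q
  have e1 : ∑ a, M.dl a (M.dl a (M.Nc b)) p = - (M.dl b M.H p + M.w p * M.N p b) := by
    rw [← hDIV n S M b p, ← Finset.sum_neg_distrib]
    refine Finset.sum_congr rfl fun a _ => ?_
    rw [e a, dl_neg (Sm.B M a b p)]
  have e2 : ∑ a, M.X p a * M.dl a (M.Nc b) p = - M.dl b M.H p := by
    rw [hGH n S M hS b p, ← Finset.sum_neg_distrib]
    refine Finset.sum_congr rfl fun a _ => ?_
    rw [dl_Nc, B_symm b a p]
    ring
  rw [e1, e2]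
  ring

lemma LX_gsqX (M : Hyp n S) (b : Fin (n + 1)) (p : S) :
    M.gsq (M.Xc b) p = 1 - M.N p b ^ 2 := by
  unfold Hyp.gsq
  have h1 : ∀ a, (M.dl a (M.Xc b) p) ^ 2
      = (if a = b then 1 - 2 * M.N p b ^ 2 else 0) + M.N p b ^ 2 * (M.N p a * M.N p a) := by
    intro a
    rw [M.dl_X]
    by_cases hab : a = b
    · subst hab
      simp only [if_true]
      ring
    · simp only [if_neg hab]; ring
  simp_rw [h1]
  rw [Finset.sum_add_distrib, ← Finset.mul_sum, M.sum_NN, Finset.sum_ite_eq' Finset.univ b,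
    if_pos (Finset.mem_univ _)]
  ring

lemma LX_sumsq (M : Hyp n S) (p : S) : ∑ b, (1 - M.N p b ^ 2) = (n : ℝ) := by
  rw [Finset.sum_sub_distrib]
  have : ∑ b, M.N p b ^ 2 = 1 := by
    rw [← M.sum_NN p]
    exact Finset.sum_congr rfl fun b _ => by ring
  rw [this]
  simp

lemma LX_rho (M : Hyp n S) (hS : M.Shr) (p : S) : M.Lap M.rho p = 2 * n - 2 * M.rho p := by
  have e : M.rho = fun q => ∑ a, (M.Xc a q) ^ 2 := funext fun q => M.rho_eq q
  rw [e, Lap_sum (fun a _ => (Sm.Xc M a p).pow 2)]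
  have h1 : ∀ a, M.Lap (fun q => M.Xc a q ^ 2) p
      = 2 * (1 - M.N p a ^ 2) - 2 * (M.Xc a p) ^ 2 := by
    intro a
    rw [Lap_sq (Sm.Xc M a p), LX_X M hS, LX_gsqX]
    unfold Hyp.Xc
    ring
  simp_rw [h1]
  rw [Finset.sum_sub_distrib, ← Finset.mul_sum, ← Finset.mul_sum, LX_sumsq]

lemma LX_dlrho (M : Hyp n S) (hS : M.Shr) (a : Fin (n + 1)) (p : S) :
    M.dl a M.rho p = 2 * (M.X p a + M.H p * M.N p a) := by
  have e : M.rho = fun q => ∑ a, (M.Xc a q) ^ 2 := funext fun q => M.rho_eq q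
  rw [e, dl_sum (fun a _ => (Sm.Xc M a p).pow 2)]
  have h1 : ∀ b, M.dl a (fun q => M.Xc b q ^ 2) p
      = (if b = a then 2 * M.X p b else 0) - 2 * M.N p a * (M.X p b * M.N p b) := by
    intro b
    rw [dl_sq (Sm.Xc M b p), M.dl_X]
    unfold Hyp.Xc
    by_cases hab : b = a
    · subst hab
      simp only [if_true]
      ring
    · rw [if_neg hab, if_neg (Ne.symm hab)]; ring
  simp_rw [h1]
  rw [Finset.sum_sub_distrib, ← Finset.mul_sum, LX_XN M hS, Finset.sum_ite_eq' Finset.univ a,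
    if_pos (Finset.mem_univ _)]
  ring

lemma LX_gsqrho (M : Hyp n S) (hS : M.Shr) (p : S) :
    M.gsq M.rho p = 4 * (M.rho p - M.H p ^ 2) := by
  unfold Hyp.gsq
  have h1 : ∀ a, (M.dl a M.rho p) ^ 2 = 4 * (M.Xc a p) ^ 2 + 8 * M.H p * (M.X p a * M.N p a)
      + 4 * M.H p ^ 2 * (M.N p a * M.N p a) := by
    intro a
    rw [LX_dlrho M hS]
    unfold Hyp.Xc
    ring
  simp_rw [h1]
  rw [Finset.sum_add_distrib, Finset.sum_add_distrib, ← Finset.mul_sum, ← Finset.mul_sum,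
    ← Finset.mul_sum, LX_XN M hS, M.sum_NN, ← M.rho_eq]
  ring

theorem pLX (hDIV : tDIV) (hGH : tGH) : tLX := by
  intro n S _ M hS
  exact ⟨LX_X M hS, LX_N M hDIV hGH hS, LX_rho M hS, LX_dlrho M hS, LX_gsqrho M hS⟩

end

end Pool.Agent.ShG
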