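import Pool.Agent.ShG.TargetsX

/-!
# ShG-MAN: facts about the preferred charts
-/

namespace Pool.Agent.ShG

open scoped BigOperators Topology ContDiff Manifold
open Set Filter

noncomputable section

/-- chain rule for `locX` -/
theorem MAN_chain {n : ℕ} {S : Type} [TopologicalSpace S]
    [ChartedSpace (EuclideanSpace ℝ (Fin n)) S] [IsManifold (𝓡 n) ∞ S]
    (X : S → EuclideanSpace ℝ (Fin (n + 1)))
    (hX : ContMDiff (𝓡 n) 𝓘(ℝ, EuclideanSpace ℝ (Fin (n + 1))) ∞ X) (p : S)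
    (u : EuclideanSpace ℝ (Fin n)) (hu : u ∈ (chartAt (EuclideanSpace ℝ (Fin n)) p).target) :
    ∃ A : EuclideanSpace ℝ (Fin n) →L[ℝ]
        TangentSpace (𝓡 n) ((chartAt (EuclideanSpace ℝ (Fin n)) p).symm u),
      Function.Bijective A ∧ ∀ h, fderiv ℝ (locX X p) u h =
        mfderiv (𝓡 n) 𝓘(ℝ, EuclideanSpace ℝ (Fin (n + 1))) X
          ((chartAt (EuclideanSpace ℝ (Fin n)) p).symm u) (A h) := by
  have : IsManifold (𝓡 n) 1 S := IsManifold.of_le (n := ∞) (by exact_mod_cast le_top)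
  have hm := (mdifferentiable_chart (I := 𝓡 n) p).symm
  have hb := hm.mfderiv_bijective (x := u) hu
  have hd : MDifferentiableAt (𝓡 n) (𝓡 n)
      ((chartAt (EuclideanSpace ℝ (Fin n)) p).symm) u := hm.mdifferentiableAt hu
  refine ⟨mfderiv (𝓡 n) (𝓡 n) ((chartAt (EuclideanSpace ℝ (Fin n)) p).symm) u, hb, fun h => ?_⟩
  have h1 : MDifferentiableAt (𝓡 n) 𝓘(ℝ, EuclideanSpace ℝ (Fin (n + 1))) X
      ((chartAt (EuclideanSpace ℝ (Fin n)) p).symm u) :=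
    (hX _).mdifferentiableAt (by simp)
  have h2 := mfderiv_comp u h1 hd
  have h3 : mfderiv (𝓡 n) 𝓘(ℝ, EuclideanSpace ℝ (Fin (n + 1))) (locX X p) u =
      fderiv ℝ (locX X p) u := mfderiv_eq_fderiv
  rw [← h3]
  change mfderiv (𝓡 n) 𝓘(ℝ, EuclideanSpace ℝ (Fin (n + 1)))
    (X ∘ (chartAt (EuclideanSpace ℝ (Fin n)) p).symm) u h = _
  rw [h2]
  rfl

theorem MAN_range {n : ℕ} {S : Type} [TopologicalSpace S]
    [ChartedSpace (EuclideanSpace ℝ (Fin n)) S] [IsManifold (𝓡 n) ∞ S]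
    (X : S → EuclideanSpace ℝ (Fin (n + 1)))
    (hX : ContMDiff (𝓡 n) 𝓘(ℝ, EuclideanSpace ℝ (Fin (n + 1))) ∞ X) (p : S)
    (u : EuclideanSpace ℝ (Fin n)) (hu : u ∈ (chartAt (EuclideanSpace ℝ (Fin n)) p).target)
    (y : EuclideanSpace ℝ (Fin (n + 1))) :
    y ∈ LinearMap.range (fderiv ℝ (locX X p) u).toLinearMap ↔
      ∃ v, mfderiv (𝓡 n) 𝓘(ℝ, EuclideanSpace ℝ (Fin (n + 1))) X
          ((chartAt (EuclideanSpace ℝ (Fin n)) p).symm u) v = y := by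
  obtain ⟨A, hA, hA2⟩ := MAN_chain X hX p u hu
  constructor
  · rintro ⟨h, rfl⟩
    exact ⟨A h, (hA2 h).symm⟩
  · rintro ⟨v, rfl⟩
    obtain ⟨h, rfl⟩ := hA.2 v
    exact ⟨h, hA2 h⟩

theorem pMAN : tMAN := by
  intro n S _ _ _ X hX hinj p
  refine ⟨?_, fun u hu => ⟨?_, ?_⟩⟩
  · have h1 : ContMDiffOn (𝓡 n) (𝓡 n) ∞ ((chartAt (EuclideanSpace ℝ (Fin n)) p).symm)
        (chartAt (EuclideanSpace ℝ (Fin n)) p).target := contMDiffOn_chart_symm
    have h2 := hX.comp_contMDiffOn h1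
    exact contMDiffOn_iff_contDiffOn.1 h2
  · obtain ⟨A, hA, hA2⟩ := MAN_chain X hX p u hu
    intro h h' hh
    rw [hA2, hA2] at hh
    exact hA.1 (hinj _ hh)
  · ext y
    have hq : (chartAt (EuclideanSpace ℝ (Fin n))
        ((chartAt (EuclideanSpace ℝ (Fin n)) p).symm u)).symm
        (chartAt (EuclideanSpace ℝ (Fin n)) ((chartAt (EuclideanSpace ℝ (Fin n)) p).symm u)
          ((chartAt (EuclideanSpace ℝ (Fin n)) p).symm u)) =
        (chartAt (EuclideanSpace ℝ (Fin n)) p).symm u :=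
      (chartAt (EuclideanSpace ℝ (Fin n)) _).left_inv (mem_chart_source _ _)
    rw [MAN_range X hX p u hu, MAN_range X hX _ _ (mem_chart_target _ _), hq]

end

end Pool.Agent.ShG
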