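import Pool.Agent.ShG.Targets

set_option autoImplicit false

/-! # ShG: existence of a maximising pair -/

namespace Pool.Agent.ShG

open scoped BigOperators Topology ContDiff
open Set Filter

noncomputable section

namespace Hyp

variable {n : ℕ} {S : Type} [TopologicalSpace S] {M : Hyp n S}

lemma MX1_tq (x : Fs n) (p : S) : M.tq x p = inner ℝ (M.Bv p x) x / M.H p := by
  unfold tq tau
  rw [inner_sum, Finset.sum_div]
  refine Finset.sum_congr rfl fun a _ => ?_
  rw [Bv_apply, Finset.sum_mul, Finset.sum_div]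
  refine Finset.sum_congr rfl fun b _ => ?_
  ring

lemma MX1_add (p : S) (x y : Fs n) (s : ℝ) :
    M.Bv p (x + s • y) = M.Bv p x + s • M.Bv p y := by
  ext a
  rw [PiLp.add_apply, PiLp.smul_apply, Bv_apply, Bv_apply, Bv_apply, smul_eq_mul, Finset.mul_sum,
    ← Finset.sum_add_distrib]
  refine Finset.sum_congr rfl fun b _ => ?_
  rw [PiLp.add_apply, PiLp.smul_apply, smul_eq_mul]
  ring

lemma MX1_smul (p : S) (x : Fs n) (s : ℝ) : M.Bv p (s • x) = s • M.Bv p x := by
  ext a
  rw [PiLp.smul_apply, Bv_apply, Bv_apply, smul_eq_mul, Finset.mul_sum]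
  refine Finset.sum_congr rfl fun b _ => ?_
  rw [PiLp.smul_apply, smul_eq_mul]
  ring

lemma MX1_quad {a b : ℝ} (h : ∀ s : ℝ, 0 ≤ 2 * s * a + s ^ 2 * b) : a = 0 := by
  by_contra ha
  have hb : 0 < |b| + 1 := by positivity
  have h1 := h (-a / (|b| + 1))
  have h2 : 2 * (-a / (|b| + 1)) * a + (-a / (|b| + 1)) ^ 2 * b =
      a ^ 2 / (|b| + 1) ^ 2 * (b - 2 * (|b| + 1)) := by
    field_simp
    ring
  rw [h2] at h1
  have h3 : 0 < a ^ 2 / (|b| + 1) ^ 2 := by positivity
  have h4 : b - 2 * (|b| + 1) < 0 := by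
    have := le_abs_self b
    have := abs_nonneg b
    linarith
  exact absurd h1 (not_le.2 (mul_neg_of_pos_of_neg h3 h4))

/-- first variation -/
lemma MX1_eig (hHW : tHW) {p : S} (hH : M.H p ≠ 0) {e : Fs n} (he : ‖e‖ = 1)
    (heN : inner ℝ e (M.N p) = (0 : ℝ))
    (hmin : ∀ e' : Fs n, ‖e'‖ = 1 → inner ℝ e' (M.N p) = (0 : ℝ) → M.tq e p ≤ M.tq e' p) :
    M.Bv p e = (M.tq e p * M.H p) • e := by
  obtain ⟨-, -, -, -, hBN, hsym⟩ := hHW n S M p
  set μ := M.tq e p with hμ
  -- homogeneous form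
  have hom : ∀ x : Fs n, inner ℝ x (M.N p) = (0 : ℝ) → μ * ‖x‖ ^ 2 ≤ M.tq x p := by
    intro x hx
    rcases eq_or_ne x 0 with rfl | hx0
    · rw [norm_zero, MX1_tq, inner_zero_right]
      simp
    · have hn : ‖x‖ ≠ 0 := norm_ne_zero_iff.2 hx0
      have h1 := hmin (‖x‖⁻¹ • x) (by
        rw [norm_smul, norm_inv, norm_norm, inv_mul_cancel₀ hn]) (by
        rw [real_inner_smul_left, hx, mul_zero])
      rw [MX1_tq (‖x‖⁻¹ • x), MX1_smul, real_inner_smul_left, real_inner_smul_right] at h1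
      rw [MX1_tq x]
      have h2 : ‖x‖⁻¹ * (‖x‖⁻¹ * inner ℝ (M.Bv p x) x) / M.H p =
          (inner ℝ (M.Bv p x) x / M.H p) / ‖x‖ ^ 2 := by
        field_simp
      rw [h2, le_div_iff₀ (by positivity)] at h1
      exact h1
  set f : Fs n := (M.H p)⁻¹ • M.Bv p e - μ • e with hf
  have hee : inner ℝ e e = (1 : ℝ) := by rw [real_inner_self_eq_norm_sq, he, one_pow]
  have hBe : inner ℝ (M.Bv p e) e = μ * M.H p := by
    rw [hμ, MX1_tq, div_mul_cancel₀ _ hH]
  have hfe : inner ℝ e f = (0 : ℝ) := by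
    rw [hf, inner_sub_right, real_inner_smul_right, real_inner_smul_right, hee,
      real_inner_comm, hBe]
    field_simp
    ring
  have hfN : inner ℝ f (M.N p) = (0 : ℝ) := by
    rw [hf, inner_sub_left, real_inner_smul_left, real_inner_smul_left, hBN, heN]
    ring
  have hBf : inner ℝ (M.Bv p e) f = M.H p * ‖f‖ ^ 2 := by
    have h1 : M.Bv p e = M.H p • (f + μ • e) := by
      rw [hf, sub_add_cancel, smul_smul, mul_inv_cancel₀ hH, one_smul]
    rw [h1, real_inner_smul_left, inner_add_left, real_inner_smul_left, hfe,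
      real_inner_self_eq_norm_sq]
    ring
  have key : ‖f‖ ^ 2 = 0 := by
    refine MX1_quad (b := M.tq f p - μ * ‖f‖ ^ 2) fun s => ?_
    have h1 := hom (e + s • f) (by
      rw [inner_add_left, real_inner_smul_left, heN, hfN]; ring)
    have h2 : ‖e + s • f‖ ^ 2 = 1 + s ^ 2 * ‖f‖ ^ 2 := by
      rw [← real_inner_self_eq_norm_sq, inner_add_left, inner_add_right, inner_add_right,
        real_inner_smul_left, real_inner_smul_left, real_inner_smul_right, real_inner_smul_right,
        hee, hfe, real_inner_comm e f, hfe, real_inner_self_eq_norm_sq]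
      ring
    have h3 : M.tq (e + s • f) p = μ + 2 * s * ‖f‖ ^ 2 + s ^ 2 * M.tq f p := by
      rw [MX1_tq, MX1_add, inner_add_left, inner_add_right, inner_add_right, real_inner_smul_left,
        real_inner_smul_left, real_inner_smul_right, real_inner_smul_right, hBe, hBf,
        hsym f e, real_inner_comm (M.Bv p e) f, hBf, MX1_tq f]
      field_simp
      ring
    rw [h2, h3] at h1
    linarith
  have hf0 : f = 0 := by
    have := pow_eq_zero_iff (two_ne_zero) |>.1 key
    exact norm_eq_zero.1 this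
  have h1 : (M.H p)⁻¹ • M.Bv p e = μ • e := sub_eq_zero.1 hf0
  calc M.Bv p e = M.H p • ((M.H p)⁻¹ • M.Bv p e) := by
        rw [smul_smul, mul_inv_cancel₀ hH, one_smul]
    _ = (μ * M.H p) • e := by rw [h1, smul_smul, mul_comm]

lemma MX1_contB (a b : Fin (n + 1)) : Continuous (M.B a b) :=
  continuous_iff_continuousAt.2 fun p => (Sm.B M a b p).continuousAt

lemma MX1_contH : Continuous M.H := continuous_iff_continuousAt.2 fun p => (Sm.H M p).continuousAt

lemma MX1_contw : Continuous M.w := continuous_iff_continuousAt.2 fun p => (Sm.w M p).continuousAt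

lemma MX1_contrho : Continuous M.rho :=
  continuous_iff_continuousAt.2 fun p => (Sm.rho (M := M) p).continuousAt

end Hyp

open Hyp

theorem pMX1 (hLBB : tLBB) (hHW : tHW) : tMX1 := by
  intro n hn S _ _ M c r hstd hr1 hr2 hD
  obtain ⟨hShr, hc0, hc1, hw⟩ := hstd
  have hn' : (1 : ℝ) ≤ n := by exact_mod_cast hn
  -- the set of admissible pairs
  set A : Set (S × Fs n) := ({p | M.rho p ≤ r} ∩ {p | 1 / (25 * (n : ℝ)) ≤ M.w p}) ×ˢ
    Metric.sphere (0 : Fs n) 1 ∩ {x | inner ℝ x.2 (M.N x.1) = (0 : ℝ)} with hA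
  have hAc : IsCompact A := by
    refine IsCompact.inter_right (IsCompact.prod ?_ (isCompact_sphere _ _)) ?_
    · exact (isCompact_rho r).inter_right (isClosed_le continuous_const MX1_contw)
    · exact isClosed_eq (continuous_snd.inner (M.contN.comp continuous_fst)) continuous_const
  have hsep : ∀ q, 9 / 20 < |M.H q| → 1 / (25 * (n : ℝ)) ≤ M.w q := by
    intro q hq
    have h1 := (hHW n S M q).1
    have h2 : (81 / 400 : ℝ) < M.H q ^ 2 := by
      rw [← sq_abs]
      nlinarith [abs_nonneg (M.H q)]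
    rw [div_le_iff₀ (by positivity)]
    nlinarith
  have hmem : ∀ q e, (q, e) ∈ A ↔ Adm M r q e := by
    intro q e
    rw [hA]
    simp only [Set.mem_inter_iff, Set.mem_prod, Set.mem_ofPred_eq, mem_sphere_iff_norm, sub_zero]
    unfold Adm
    constructor
    · rintro ⟨⟨⟨h1, h2⟩, h3⟩, h4⟩
      refine ⟨h1, ?_, h3, h4⟩
      rcases hD q h1 with h5 | h5
      · exact h5
      · exact absurd h2 (not_le.2 h5)
    · rintro ⟨h1, h2, h3, h4⟩
      exact ⟨⟨⟨h1, hsep q h2⟩, h3⟩, h4⟩
  have hHA : ∀ x ∈ A, M.H x.1 ≠ 0 := by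
    rintro ⟨q, e⟩ hx h0
    have h1 := ((hmem q e).1 hx).2.1
    dsimp only at h0
    rw [h0, abs_zero] at h1
    linarith
  have cH : ContinuousOn (fun x : S × Fs n => M.H x.1) A :=
    (MX1_contH.comp continuous_fst).continuousOn
  have hcont : ContinuousOn (fun x : S × Fs n => Psi M r x.1 x.2) A := by
    unfold Psi
    refine ContinuousOn.sub (ContinuousOn.add (ContinuousOn.neg ?_) ?_) ?_
    · unfold tq tau
      refine continuousOn_finsetSum _ fun a _ => continuousOn_finsetSum _ fun b _ => ?_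
      refine ContinuousOn.mul ?_ ?_
      · exact (((contDiff_coord a).continuous.comp continuous_snd).mul
          ((contDiff_coord b).continuous.comp continuous_snd)).continuousOn
      · exact ((MX1_contB a b).comp continuous_fst).continuousOn.div cH hHA
    · refine ContinuousOn.mul continuousOn_const ?_
      unfold Fq
      exact (MX1_contw.comp continuous_fst).continuousOn.div (cH.pow 2)
        fun x hx => pow_ne_zero 2 (hHA x hx)
    · unfold bb
      refine ContinuousOn.div ?_ cH.abs fun x hx => abs_ne_zero.2 (hHA x hx)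
      refine ContinuousOn.mul continuousOn_const ?_
      exact (Real.continuous_exp.comp (((MX1_contrho.comp continuous_fst).sub
        continuous_const).div_const 8)).continuousOn
  rcases A.eq_empty_or_nonempty with h0 | h0
  · left
    intro q e hq
    have := (hmem q e).2 hq
    rw [h0] at this
    exact absurd this (Set.notMem_empty _)
  obtain ⟨⟨p, e⟩, hpe, hmax⟩ := hAc.exists_isMaxOn h0 hcont
  have hmax' : ∀ q e', Adm M r q e' → Psi M r q e' ≤ Psi M r p e :=
    fun q e' h => hmax ((hmem q e').2 h)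
  have hadm := (hmem p e).1 hpe
  rcases le_or_gt (Psi M r p e) 0 with hle | hpos
  · exact Or.inl fun q e' h => (hmax' q e' h).trans hle
  refine Or.inr ⟨p, e, ?_, hadm, hpos, hmax', ?_⟩
  · -- interior
    obtain ⟨a1, a2, a3, a4⟩ := hadm
    refine lt_of_le_of_ne a1 fun hrho => ?_
    obtain ⟨C, -, hC⟩ := hLBB n hn
    have hb := (hC S M c r ⟨hShr, hc0, hc1, hw⟩ hr1 p a2).2.2.1 hrho
    have hH2 : (81 / 400 : ℝ) < M.H p ^ 2 := by
      rw [← sq_abs]
      nlinarith [abs_nonneg (M.H p)]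
    have hH0 : M.H p ≠ 0 := hHA (p, e) hpe
    have hF : M.Fq p ≤ 5 := by
      unfold Fq
      rw [div_le_iff₀ (by positivity)]
      have := hw p
      nlinarith
    have hF0 : 0 ≤ M.Fq p := div_nonneg (w_nonneg p) (sq_nonneg _)
    have ht : (M.tq e p) ^ 2 ≤ M.Fq p := by
      have h1 := (hHW n S M p).2.2.1 e
      rw [a3, one_pow, mul_one] at h1
      have h2 : (inner ℝ (M.Bv p e) e : ℝ) ^ 2 ≤ ‖M.Bv p e‖ ^ 2 := by
        have h3 := abs_real_inner_le_norm (M.Bv p e) e
        rw [a3, mul_one] at h3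
        rw [← sq_abs]
        exact pow_le_pow_left₀ (abs_nonneg _) h3 2
      rw [MX1_tq, div_pow]
      unfold Fq
      exact div_le_div_of_nonneg_right (h2.trans h1) (sq_nonneg _)
    have ht2 : -(M.tq e p) ≤ 5 / 2 := by nlinarith [sq_nonneg (M.tq e p + 5 / 2)]
    have hs : 1 / (100 * r) * M.Fq p ≤ 1 / 20 := by
      have h1 : 1 / (100 * r) ≤ 1 / 100 := by
        apply one_div_le_one_div_of_le (by norm_num)
        linarith
      calc 1 / (100 * r) * M.Fq p ≤ 1 / 100 * 5 :=
            mul_le_mul h1 hF hF0 (by norm_num)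
        _ = 1 / 20 := by norm_num
    unfold Psi at hpos
    linarith
  · obtain ⟨a1, a2, a3, a4⟩ := hadm
    refine MX1_eig hHW (hHA (p, e) hpe) a3 a4 fun e' h1 h2 => ?_
    have h3 := hmax' p e' ⟨a1, a2, h1, h2⟩
    unfold Psi at h3
    linarith

end

end Pool.Agent.ShG
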