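import Pool.Agent.ShG.Targets

/-!
# MP_61ae63_gt: MXP (the maximum of `Ψ` has `ρ < 2n`), helper47
-/

namespace Pool.Agent.ShG

open scoped BigOperators Topology ContDiff
open Set Filter

noncomputable section

variable {n : ℕ} {S : Type} [TopologicalSpace S] {M : Hyp n S}

open Hyp in
lemma MXP_tq_eq (x : Fs n) (q : S) : M.tq x q = inner ℝ x (M.Bv q x) / M.H q := by
  rw [inner_sum]
  unfold Hyp.tq Hyp.tau
  rw [Finset.sum_div]
  refine Finset.sum_congr rfl fun a _ => ?_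
  rw [M.Bv_apply, Finset.mul_sum, Finset.sum_div]
  refine Finset.sum_congr rfl fun b _ => ?_
  ring

lemma MXP_tq_smul (s : ℝ) (x : Fs n) (q : S) : M.tq (s • x) q = s ^ 2 * M.tq x q := by
  unfold Hyp.tq
  rw [Finset.mul_sum]
  refine Finset.sum_congr rfl fun a _ => ?_
  rw [Finset.mul_sum]
  refine Finset.sum_congr rfl fun b _ => ?_
  simp only [PiLp.smul_apply, smul_eq_mul]
  ring

lemma MXP_tq_tan (hHW : tHW) (x : Fs n) (t : ℝ) (q : S) :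
    M.tq (x + t • M.N q) q = M.tq x q := by
  obtain ⟨-, -, -, h4, h5, -⟩ := hHW n S M q
  rw [MXP_tq_eq, MXP_tq_eq, h4, inner_add_left, inner_smul_left, real_inner_comm, ← real_inner_comm,
    real_inner_comm (M.Bv q x) (M.N q), h5]
  simp

lemma MXP_LL_add {Z1 Z2 : S → ℝ} {p : S} (h1 : M.Sm Z1 p) (h2 : M.Sm Z2 p) :
    M.LL (fun q => Z1 q + Z2 q) p = M.LL Z1 p + M.LL Z2 p := by
  unfold Hyp.LL
  rw [Hyp.Lap_add h1 h2]
  have : ∑ a, M.ze a p * M.dl a (fun q => Z1 q + Z2 q) p =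
      ∑ a, M.ze a p * M.dl a Z1 p + ∑ a, M.ze a p * M.dl a Z2 p := by
    rw [← Finset.sum_add_distrib]
    refine Finset.sum_congr rfl fun a _ => ?_
    rw [Hyp.dl_add h1 h2]
    ring
  rw [this]
  ring

lemma MXP_LL_cmul {Z : S → ℝ} {p : S} (c : ℝ) (h : M.Sm Z p) :
    M.LL (fun q => c * Z q) p = c * M.LL Z p := by
  unfold Hyp.LL
  rw [Hyp.Lap_const_mul c h]
  have : ∑ a, M.ze a p * M.dl a (fun q => c * Z q) p = c * ∑ a, M.ze a p * M.dl a Z p := by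
    rw [Finset.mul_sum]
    refine Finset.sum_congr rfl fun a _ => ?_
    rw [Hyp.dl_const_mul c h]
    ring
  rw [this]
  ring

/-- the normalised tangential part of a unit vector -/
lemma MXP_unit {e ν : Fs n} (he : ‖e‖ = 1) (hν : ‖ν‖ = 1) (hD : 0 < 1 - (inner ℝ e ν : ℝ) ^ 2) :
    ‖(Real.sqrt (1 - (inner ℝ e ν : ℝ) ^ 2))⁻¹ • (e + (-(inner ℝ e ν : ℝ)) • ν)‖ = 1 ∧
    inner ℝ ((Real.sqrt (1 - (inner ℝ e ν : ℝ) ^ 2))⁻¹ • (e + (-(inner ℝ e ν : ℝ)) • ν)) ν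
      = (0 : ℝ) := by
  set t : ℝ := inner ℝ e ν with ht
  have hνν : inner ℝ ν ν = (1 : ℝ) := by rw [real_inner_self_eq_norm_sq, hν]; norm_num
  have h0 : inner ℝ (e + (-t) • ν) ν = (0 : ℝ) := by
    rw [inner_add_left, inner_smul_left, hνν, ← ht]
    simp
  have hn : ‖e + (-t) • ν‖ ^ 2 = 1 - t ^ 2 := by
    rw [norm_add_sq_real, he, inner_smul_right, ← ht, norm_smul, hν]
    rw [Real.norm_eq_abs, mul_one, sq_abs]
    ring
  have hs : 0 < Real.sqrt (1 - t ^ 2) := Real.sqrt_pos.2 hD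
  refine ⟨?_, ?_⟩
  · have h1 : ‖e + (-t) • ν‖ = Real.sqrt (1 - t ^ 2) := by
      rw [← hn, Real.sqrt_sq (norm_nonneg _)]
    rw [norm_smul, norm_inv, Real.norm_eq_abs, abs_of_pos hs, h1]
    field_simp
  · rw [inner_smul_left, h0, mul_zero]

/-- the test function agrees with `Ψ` at an admissible vector -/
lemma MXP_psi (hHW : tHW) (r : ℝ) (e : Fs n) (he : ‖e‖ = 1) (q : S)
    (hD : 0 < 1 - (inner ℝ e (M.N q) : ℝ) ^ 2) (hr : M.rho q ≤ r) (hH : 9/20 < |M.H q|) :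
    ∃ e', Adm M r q e' ∧ Psi M r q e' =
      - (M.tq e q / (1 - (inner ℝ e (M.N q)) ^ 2)) + (1 / (100 * r)) * M.Fq q - bb M r q := by
  obtain ⟨h1, h2⟩ := MXP_unit he (M.unit q) hD
  refine ⟨_, ⟨hr, hH, h1, h2⟩, ?_⟩
  unfold Psi
  rw [MXP_tq_smul, MXP_tq_tan hHW, inv_pow, Real.sq_sqrt hD.le]
  field_simp

theorem pMXP (hMX1 : tMX1) (hTHE : tTHE) (hLLF : tLLF) (hLBB : tLBB) (hHW : tHW) : tMXP := by
  intro n hn S _ _ M c r hStd h1r h2nr hD
  rcases hMX1 n hn S M c r hStd h1r h2nr hD with h | ⟨p, e, hρ, hAdm, hpos, hmax, heig⟩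
  · exact Or.inl h
  refine Or.inr ⟨p, e, ?_, hAdm, hpos, hmax, heig⟩
  by_contra hcon
  rw [not_lt] at hcon
  obtain ⟨hρr, hH, hen, heN⟩ := hAdm
  have hH0 : M.H p ≠ 0 := by
    intro h
    rw [h, abs_zero] at hH
    norm_num at hH
  have hShr := hStd.1
  obtain ⟨hSmT, -, hLT⟩ := hTHE n S M hShr p e (M.tq e p) hH0 hen heN heig
  obtain ⟨hLF, -⟩ := hLLF n S M hShr p hH0
  obtain ⟨C, -, hB⟩ := hLBB n hn
  obtain ⟨hSmB, hLB, -⟩ := hB S M c r hStd h1r p hH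
  have hLB' := hLB hcon
  have hSmF : M.Sm M.Fq p := Hyp.Sm.Fq hH0
  obtain ⟨T, hT⟩ : ∃ T : S → ℝ, T = fun q => M.tq e q / (1 - (inner ℝ e (M.N q)) ^ 2) := ⟨_, rfl⟩
  rw [← hT] at hSmT hLT
  -- the test function
  obtain ⟨Z, hZ⟩ : ∃ Z : S → ℝ, Z = fun q => ((-1) * T q + (1 / (100 * r)) * M.Fq q)
    + (-1) * bb M r q := ⟨_, rfl⟩
  have s1 : M.Sm (fun q => (-1) * T q) p := hSmT.const_mul (-1)
  have s2 : M.Sm (fun q => (1 / (100 * r)) * M.Fq q) p := hSmF.const_mul _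
  have s3 : M.Sm (fun q => (-1) * bb M r q) p := hSmB.const_mul (-1)
  have s12 : M.Sm (fun q => (-1) * T q + (1 / (100 * r)) * M.Fq q) p := s1.add s2
  have hSmZ : M.Sm Z p := by
    rw [hZ]
    exact s12.add s3
  have hDp : (1 : ℝ) - (inner ℝ e (M.N p)) ^ 2 = 1 := by rw [heN]; norm_num
  have hZp : Z p = Psi M r p e := by
    rw [hZ, hT]
    simp only
    unfold Psi
    rw [hDp]
    ring
  have hev : ∀ᶠ q in 𝓝 p, Z q ≤ Z p := by
    have c1 : ContinuousAt M.rho p := (Hyp.Sm.rho M p).continuousAt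
    have c2 : ContinuousAt M.H p := (Hyp.Sm.H M p).continuousAt
    have c3 : ContinuousAt (fun q => (1 : ℝ) - (inner ℝ e (M.N q)) ^ 2) p := by
      have : Continuous (fun q => (1 : ℝ) - (inner ℝ e (M.N q)) ^ 2) := by
        have hN := Hyp.contN M
        fun_prop
      exact this.continuousAt
    have e1 : ∀ᶠ q in 𝓝 p, M.rho q < r := c1.eventually (gt_mem_nhds hρ)
    have e2 : ∀ᶠ q in 𝓝 p, 9/20 < |M.H q| := c2.abs.eventually (lt_mem_nhds hH)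
    have e3 : ∀ᶠ q in 𝓝 p, 0 < (1 : ℝ) - (inner ℝ e (M.N q)) ^ 2 := by
      refine c3.eventually (lt_mem_nhds ?_)
      change 0 < (1 : ℝ) - (inner ℝ e (M.N p)) ^ 2
      rw [hDp]
      norm_num
    filter_upwards [e1, e2, e3] with q h1 h2 h3
    obtain ⟨e', hA, hP⟩ := MXP_psi hHW r e hen q h3 h1.le h2
    have h4 := hmax q e' hA
    rw [hZp]
    refine le_trans (le_of_eq ?_) h4
    rw [hP, hZ, hT]
    simp only
    ring
  obtain ⟨g1, -, g2⟩ := Hyp.max_Lap hSmZ hev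
  have hLLZ : M.LL Z p ≤ 0 := by
    unfold Hyp.LL
    have : ∑ a, M.ze a p * M.dl a Z p = 0 := Finset.sum_eq_zero fun a _ => by rw [g1, mul_zero]
    rw [this]
    linarith
  rw [hZ, MXP_LL_add s12 s3, MXP_LL_add s1 s2, MXP_LL_cmul _ hSmT, MXP_LL_cmul _ hSmF,
    MXP_LL_cmul _ hSmB, hLT, hLF] at hLLZ
  have hs := Hyp.ssq_nonneg (M := M) p
  have hr0 : 0 < 1 / (100 * r) := by positivity
  nlinarith [mul_nonneg hr0.le hs]

end

end Pool.Agent.ShG
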