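import Pool.Agent.ShG.Targets

/-!
# Job NEG of the project ShG
-/

namespace Pool.Agent.ShG

open scoped BigOperators Topology ContDiff
open Set Filter

noncomputable section

theorem NEG_Fq {n : ℕ} {S : Type} [TopologicalSpace S] (M : Hyp n S) (c : ℝ) (hM : M.Std c) (p : S)
    (hH : 9/20 < |M.H p|) : M.Fq p ≤ 5 := by
  obtain ⟨-, hc0, hc, hw⟩ := hM
  have h1 : (9/20 : ℝ) ^ 2 < (M.H p) ^ 2 := by
    rw [← sq_abs (M.H p)]
    gcongr
  have h2 : 0 < (M.H p) ^ 2 := lt_trans (by norm_num) h1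
  have h3 := hw p
  unfold Hyp.Fq
  rw [div_le_iff₀ h2]
  norm_num at h1
  linarith

theorem pNEG (hMXP : tMXP) (hSSM : tSSM) (hA0 : tA0) (hUGC : tUGC) : tNEG := by
  intro n hn
  obtain ⟨ρ1, h1, h4, hS⟩ := hSSM n (by omega)
  obtain ⟨C, hC, hA⟩ := hA0 n hn
  refine ⟨max ρ1 (20 * C), h1.trans (le_max_left _ _), ?_⟩
  intro S _ _ M c r hM hr hD q e hq
  have hr1 : ρ1 ≤ r := (le_max_left _ _).trans hr
  have hrC : 20 * C ≤ r := (le_max_right _ _).trans hr
  have hr0 : (1:ℝ) ≤ r := h1.trans hr1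
  have hrpos : 0 < r := lt_of_lt_of_le one_pos hr0
  have hn2 : (2:ℝ) * n ≤ r := by
    have : (0:ℝ) ≤ n := Nat.cast_nonneg n
    linarith
  have hFq0 : ∀ p, 0 ≤ M.Fq p := fun p => div_nonneg (Hyp.w_nonneg p) (sq_nonneg _)
  have hb0 : ∀ p, 0 ≤ bb M r p := fun p => by
    unfold bb
    positivity
  -- it is enough to bound `Ψ`
  suffices hPsi : Psi M r q e ≤ 1 / (10 * r) by
    unfold Psi at hPsi
    have h5 : 0 ≤ (1 / (100 * r)) * M.Fq q := mul_nonneg (by positivity) (hFq0 q)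
    linarith
  have hpos : 0 ≤ 1 / (10 * r) := by positivity
  rcases hMXP n (by omega) S M c r hM hr0 hn2 hD with hle | ⟨p, e', hρ, hadm, hpp, hmax, heig⟩
  · exact (hle q e hq).trans hpos
  · refine (hmax q e hq).trans ?_
    have hF : (1 / (100 * r)) * M.Fq p ≤ (1 / (100 * r)) * 5 :=
      mul_le_mul_of_nonneg_left (NEG_Fq M c hM p hadm.2.1) (by positivity)
    have hbp := hb0 p
    -- bound of the negative eigenvalue
    have ha : - M.tq e' p ≤ 5 / (100 * r) := by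
      rcases le_or_gt 0 (M.tq e' p) with h | h
      · have : 0 ≤ 5 / (100 * r) := by positivity
        linarith
      · have hw2 : ∀ p, M.w p ≤ 2 := fun p => by
          have := hM.2.2.2 p
          have := hM.2.2.1
          linarith
        obtain ⟨ι, g, σ, hnice⟩ := hUGC n S M hw2 p
        have hsm := hS S M c r hM hr1 hD p e' hρ hadm hpp hmax ι g σ hnice
        have hε0 : (0:ℝ) ≤ (r ^ 4)⁻¹ := by positivity
        have hε1 : (r ^ 4)⁻¹ ≤ 1 := inv_le_one_of_one_le₀ (one_le_pow₀ hr0)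
        have hε2 : ((r ^ 4)⁻¹) ^ 2 = (r ^ 8)⁻¹ := by
          rw [inv_pow, ← pow_mul]
        have h6 := hA S M c hM p ι g σ hnice hρ e' ((r ^ 4)⁻¹) hε0 hε1 hadm.2.2.1 hadm.2.2.2 h heig
          (fun u hu => ⟨(hsm u hu).1, by rw [hε2]; exact (hsm u hu).2⟩)
        have h7 : Real.sqrt ((r ^ 4)⁻¹) = (r ^ 2)⁻¹ := by
          have : (r ^ 4)⁻¹ = ((r ^ 2)⁻¹) ^ 2 := by rw [inv_pow, ← pow_mul]
          rw [this, Real.sqrt_sq (by positivity)]
        rw [h7] at h6
        refine h6.trans ?_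
        rw [← div_eq_mul_inv, div_le_div_iff₀ (by positivity) (by positivity)]
        nlinarith
    unfold Psi
    have h8 : 5 / (100 * r) + (1 / (100 * r)) * 5 = 1 / (10 * r) := by
      field_simp
      norm_num
    linarith

end

end Pool.Agent.ShG
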