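import Pool.Agent.ShG.Targets

/-! ShG-NM1: existence of the maximum point in the long section. -/

set_option autoImplicit false

namespace Pool.Agent.ShG

open scoped BigOperators Topology ContDiff
open Set Filter

noncomputable section

/-- a maximum point on a section, from a compact part of its domain -/
lemma NM1_max {n : ℕ} {S : Type} [TopologicalSpace S] {M : Hyp n S} {p : S} {U : Set (Es n)}
    {ι : Es n →ₗᵢ[ℝ] Fs n} {g : Es n → ℝ} {σ : Es n → S} (h : IsSec M.X M.N p U ι g σ)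
    (A1 A2 v : S → ℝ) (hA1 : Continuous A1) (hA2 : Continuous A2) (hv : Continuous v)
    (hv0 : ∀ q, 0 < v q) (D : Set (Es n)) (hD : IsCompact D) (hDU : D ⊆ U)
    (hsub : ∀ u ∈ U, 0 ≤ A1 (σ u) → 0 ≤ A2 (σ u) → u ∈ D) (h1 : 0 < A1 p) (h2 : 0 < A2 p) :
    ∃ u ∈ U, 0 < A1 (σ u) ∧ 0 < A2 (σ u) ∧
      ∀ᶠ q in 𝓝 (σ u), A1 q ^ 3 * A2 q ^ 3 / v q ^ 2
        ≤ A1 (σ u) ^ 3 * A2 (σ u) ^ 3 / v (σ u) ^ 2 := by
  have hσ : ContinuousOn σ D := h.cont.mono hDU
  have hc1 : ContinuousOn (fun u => A1 (σ u)) D := hA1.comp_continuousOn hσ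
  have hc2 : ContinuousOn (fun u => A2 (σ u)) D := hA2.comp_continuousOn hσ
  have hc3 : ContinuousOn (fun u => v (σ u)) D := hv.comp_continuousOn hσ
  set C : Set (Es n) := (D ∩ (fun u => A1 (σ u)) ⁻¹' Ici 0) ∩ (D ∩ (fun u => A2 (σ u)) ⁻¹' Ici 0)
    with hC
  have hCcl : IsClosed C :=
    (hc1.preimage_isClosed_of_isClosed hD.isClosed isClosed_Ici).inter
      (hc2.preimage_isClosed_of_isClosed hD.isClosed isClosed_Ici)
  have hCD : C ⊆ D := fun u hu => hu.1.1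
  have hCc : IsCompact C := hD.of_isClosed_subset hCcl hCD
  have hmem : ∀ u ∈ U, 0 ≤ A1 (σ u) → 0 ≤ A2 (σ u) → u ∈ C := by
    intro u hu ha hb
    have := hsub u hu ha hb
    exact ⟨⟨this, ha⟩, ⟨this, hb⟩⟩
  have h0C : (0 : Es n) ∈ C := by
    refine hmem 0 h.mem0 ?_ ?_
    · rw [h.base]; exact h1.le
    · rw [h.base]; exact h2.le
  have hf : ContinuousOn (fun u => A1 (σ u) ^ 3 * A2 (σ u) ^ 3 / v (σ u) ^ 2) C := by
    refine ContinuousOn.div (((hc1.mono hCD).pow 3).mul ((hc2.mono hCD).pow 3))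
      ((hc3.mono hCD).pow 2) ?_
    intro u _
    exact pow_ne_zero 2 (hv0 (σ u)).ne'
  obtain ⟨u, huC, hmax⟩ := hCc.exists_isMaxOn ⟨0, h0C⟩ hf
  have hpos0 : 0 < A1 p ^ 3 * A2 p ^ 3 / v p ^ 2 := by
    have := hv0 p
    positivity
  have hposu : 0 < A1 (σ u) ^ 3 * A2 (σ u) ^ 3 / v (σ u) ^ 2 := by
    have h3 := hmax h0C
    simp only [mem_ofPred_eq, h.base] at h3
    exact hpos0.trans_le h3
  have ha : 0 < A1 (σ u) := by
    refine lt_of_le_of_ne huC.1.2 ?_
    intro h3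
    rw [← h3] at hposu
    norm_num at hposu
  have hb : 0 < A2 (σ u) := by
    refine lt_of_le_of_ne huC.2.2 ?_
    intro h3
    rw [← h3] at hposu
    norm_num at hposu
  have huU : u ∈ U := hDU (hCD huC)
  refine ⟨u, huU, ha, hb, ?_⟩
  have hcu : ContinuousAt σ u := h.contAt huU
  have e1 : ∀ᶠ u' in 𝓝 u, 0 < A1 (σ u') :=
    (hA1.continuousAt.comp hcu).eventually (lt_mem_nhds ha)
  have e2 : ∀ᶠ u' in 𝓝 u, 0 < A2 (σ u') :=
    (hA2.continuousAt.comp hcu).eventually (lt_mem_nhds hb)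
  have e3 : ∀ᶠ u' in 𝓝 u, u' ∈ U := h.isOpen.mem_nhds huU
  have h4 := h.image_mem huU (V := {u' | 0 < A1 (σ u') ∧ 0 < A2 (σ u') ∧ u' ∈ U})
    (e1.and (e2.and e3))
  filter_upwards [h4] with q hq
  obtain ⟨u', ⟨hu1, hu2, hu3⟩, rfl⟩ := hq
  exact hmax (hmem u' hu3 hu1.le hu2.le)

/-- continuity of `x ↦ B(p) x` -/
lemma NM1_contBv {n : ℕ} {S : Type} [TopologicalSpace S] (M : Hyp n S) (p : S) :
    Continuous (M.Bv p) := by
  unfold Hyp.Bv
  refine (PiLp.continuous_toLp 2 _).comp ?_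
  refine continuous_pi fun a => continuous_finsetSum _ fun b _ => ?_
  exact continuous_const.mul (by fun_prop)

/-- the elementary estimate for the normal component -/
lemma NM1_num {s H t t0 η : ℝ} (h0 : 0 < t0) (ht : t0 ≤ t) (hη : η ≤ t0 / 100)
    (hH : 9 / 10 ≤ H ^ 2) (h : |s + H * t| ≤ η) : (t0 / 2) ^ 2 ≤ s ^ 2 := by
  obtain ⟨h1, h2⟩ := abs_le.1 h
  rcases le_total 0 H with h3 | h3
  · have h4 : 9 / 10 ≤ H := by
      by_contra h5
      push Not at h5
      nlinarith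
    have h5 : 9 / 10 * t0 ≤ H * t := mul_le_mul h4 ht h0.le h3
    have h6 : s ≤ -(t0 / 2) := by linarith
    nlinarith
  · have h4 : 9 / 10 ≤ -H := by
      by_contra h5
      push Not at h5
      nlinarith
    have h5 : 9 / 10 * t0 ≤ -H * t := mul_le_mul h4 ht h0.le (by linarith)
    have h6 : t0 / 2 ≤ s := by linarith
    nlinarith

theorem pNM1 (hHW : tHW) : tNM1 := by
  intro n R hn hR
  have hn' : (2 : ℝ) ≤ n := by exact_mod_cast hn
  have hn0 : (0 : ℝ) < n := by linarith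
  obtain ⟨t0, ht0⟩ : ∃ t0 : ℝ, t0 = 1 / (20 * n) := ⟨_, rfl⟩
  have ht0p : 0 < t0 := by rw [ht0]; positivity
  have ht0s : t0 ≤ 1 / 40 := by
    rw [ht0]
    apply one_div_le_one_div_of_le (by norm_num)
    linarith
  have ht40 : 1 / (40 * (n : ℝ)) = t0 / 2 := by
    rw [ht0]
    field_simp
    norm_num
  refine ⟨min (t0 ^ 2 / 4) (t0 / 100), by positivity, ?_⟩
  intro S _ _ M c hstd p ι g σ hXp hHp h hK
  obtain ⟨hshr, hc0, hc1, hw⟩ := hstd
  obtain ⟨η, hη⟩ : ∃ η : ℝ, η = min (t0 ^ 2 / 4) (t0 / 100) := ⟨_, rfl⟩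
  have hη1 : η ≤ t0 ^ 2 / 4 := by rw [hη]; exact min_le_left _ _
  have hη2 : η ≤ t0 / 100 := by rw [hη]; exact min_le_right _ _
  rw [← hη] at hK
  rw [← ht0]
  obtain ⟨-, -, -, hBN, -, -⟩ := hHW n S M p
  -- the compact set
  set Y : Fs n := M.X p + M.H p • M.N p with hY
  set D : Set (Es n) := {u | ‖M.Bv p (ι u)‖ ^ 2 ≤ 1 - 3 / 4 * t0 ^ 2 ∧
    ‖Y + ι u‖ ^ 2 ≤ 61 * n + R ^ 2 - (t0 / 2) ^ 2} with hDdef
  have hDcl : IsClosed D := by
    have k1 : Continuous fun u : Es n => ‖M.Bv p (ι u)‖ ^ 2 :=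
      (((NM1_contBv M p).comp ι.continuous).norm).pow 2
    have k2 : Continuous fun u : Es n => ‖Y + ι u‖ ^ 2 :=
      ((continuous_const.add ι.continuous).norm).pow 2
    exact (isClosed_le k1 continuous_const).inter (isClosed_le k2 continuous_const)
  have hDb : Bornology.IsBounded D := by
    refine (Metric.isBounded_closedBall (x := (0 : Es n))
      (r := Real.sqrt (61 * n + R ^ 2) + ‖Y‖)).subset ?_
    intro u hu
    rw [mem_closedBall_zero_iff]
    have k1 : ‖Y + ι u‖ ≤ Real.sqrt (61 * n + R ^ 2) := by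
      apply Real.le_sqrt_of_sq_le
      have := hu.2
      nlinarith [sq_nonneg (t0 / 2)]
    have k2 : ‖ι u‖ ≤ ‖Y + ι u‖ + ‖Y‖ := by
      have := norm_sub_le (Y + ι u) Y
      rwa [add_sub_cancel_left] at this
    rw [← ι.norm_map u]
    linarith
  have hDc : IsCompact D := Metric.isCompact_of_isClosed_isBounded hDcl hDb
  have hDU : D ⊆ Kset M p ι R := by
    intro u hu
    refine ⟨?_, ?_⟩
    · rw [ht40]
      have := hu.1
      nlinarith [sq_pos_of_pos ht0p]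
    · have := hu.2
      have k3 : 0 < (t0 / 2) ^ 2 := by positivity
      linarith
  have hYN : inner ℝ Y (M.N p) = (0 : ℝ) := by
    rw [hY, inner_add_left, inner_smul_left, M.NN p, hshr p]
    simp
  have hsub : ∀ u ∈ Kset M p ι R, 0 ≤ (inner ℝ (M.N (σ u)) (M.N p) : ℝ) - t0 →
      0 ≤ 61 * n + R ^ 2 - M.rho (σ u) → u ∈ D := by
    intro u hu ha hb
    obtain ⟨-, hns⟩ := hK u hu
    obtain ⟨n1, -, -, -, -, n6⟩ := hns
    have ht : t0 ≤ (inner ℝ (M.N (σ u)) (M.N p) : ℝ) := by linarith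
    refine ⟨?_, ?_⟩
    · rw [h.graph_sub hu, hBN] at n1
      have k1 := (abs_le.1 n1).2
      have k2 : t0 ^ 2 ≤ (inner ℝ (M.N (σ u)) (M.N p) : ℝ) ^ 2 :=
        pow_le_pow_left₀ ht0p.le ht 2
      linarith
    · have k1 := NM1_num ht0p ht hη2 hHp n6
      have k2 : M.X (σ u) = (Y + ι u) + (g u - M.H p) • M.N p := by
        rw [h.graph u hu, hY]
        module
      have k3 : inner ℝ (Y + ι u) (M.N p) = (0 : ℝ) := by
        rw [inner_add_left, hYN, h.perp, add_zero]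
      have k4 : (inner ℝ (M.X (σ u)) (M.N p) : ℝ) = g u - M.H p := by
        rw [k2, inner_add_left, k3, inner_smul_left, M.NN p]
        simp
      have k5 : M.rho (σ u) = ‖Y + ι u‖ ^ 2 + (g u - M.H p) ^ 2 := by
        unfold Hyp.rho
        rw [k2, norm_add_sq_real, inner_smul_right, k3, norm_smul, M.unit]
        simp [sq_abs]
      rw [k4] at k1
      linarith
  have hv : Continuous (M.vv c) :=
    continuous_iff_continuousAt.2 fun q => (Hyp.Sm.vv (M := M) c q).continuousAt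
  have hrho : Continuous M.rho := (M.contX.norm).pow 2
  have hmain := NM1_max h (fun q => (inner ℝ (M.N q) (M.N p) : ℝ) - t0)
    (fun q => 61 * n + R ^ 2 - M.rho q) (M.vv c)
    ((M.contN.inner continuous_const).sub continuous_const) (continuous_const.sub hrho) hv
    (fun q => by
      have := hw q
      unfold Hyp.vv
      linarith) D hDc hDU hsub
    (by
      change 0 < (inner ℝ (M.N p) (M.N p) : ℝ) - t0
      rw [M.NN p]
      linarith)
    (by
      change 0 < 61 * (n : ℝ) + R ^ 2 - M.rho p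
      unfold Hyp.rho
      have : ‖M.X p‖ ^ 2 ≤ R ^ 2 := pow_le_pow_left₀ (norm_nonneg _) hXp 2
      linarith)
  obtain ⟨u, huK, k1, k2, k3⟩ := hmain
  refine ⟨u, huK, ?_, ?_, k3⟩
  · exact sub_pos.1 k1
  · exact sub_pos.1 k2

end

end Pool.Agent.ShG
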