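import Pool.Agent.ShG.Targets

/-! Target `tNM2`: the numerical heart of Lemma A. -/

set_option autoImplicit false

namespace Pool.Agent.ShG

open scoped BigOperators Topology ContDiff
open Set Filter

noncomputable section

/-- the estimate for the first function -/
lemma NM2_t1 {n x w s g11 t : ℝ} (hn : 2 ≤ n) (hx : 0 < x)
    (hw1 : w ≤ 101/100) (hs : s = 1/(1000*n)) (ht : t = x + 1/(20*n))
    (ht1 : t ≤ 1) (hg0 : 0 ≤ g11) (hg11 : 1 - t^2 - 2*s^2 ≤ (101/100) * n * g11) :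
    0 ≤ (3/2) * g11 - 9 * s - 3 * w * (1/(20*n)) * x + (1/10) * x^2 := by
  have hn0 : 0 < n := by linarith
  have hk : 0 < 1/n := by positivity
  set k : ℝ := 1/n with hkdef
  have hk2 : k ≤ 1/2 := by
    rw [hkdef]
    exact one_div_le_one_div_of_le (by norm_num) hn
  have hnk : n * k = 1 := by rw [hkdef]; field_simp
  have hs' : s = k/1000 := by rw [hs, hkdef]; field_simp
  have ht' : t = x + k/20 := by rw [ht, hkdef]; field_simp
  have h20 : 1/(20*n) = k/20 := by rw [hkdef]; field_simp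
  rw [h20]
  have hx1 : x ≤ 1 := by linarith
  have hwx : w * x * k ≤ (101/100) * x * k := by
    have : 0 ≤ x * k := by positivity
    nlinarith
  rcases le_or_gt x (9/10) with h | h
  · -- the gradient term
    have e1 : k * (1 - t^2 - 2*s^2) ≤ (101/100) * g11 := by
      have := mul_le_mul_of_nonneg_left hg11 hk.le
      have e : k * ((101/100) * n * g11) = (101/100) * (n*k) * g11 := by ring
      rw [e, hnk] at this
      linarith
    have ht2 : t ≤ x + 1/40 := by rw [ht']; linarith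
    have ht0 : 0 ≤ t := by rw [ht']; positivity
    have ht3 : t^2 ≤ (x+1/40)^2 := by
      apply pow_le_pow_left₀ ht0 ht2
    have hs2 : s^2 ≤ 1/1000000 := by
      rw [hs']; nlinarith
    have e2 : (1 - (x+1/40)^2 - 2/1000000) ≤ 1 - t^2 - 2*s^2 := by linarith
    have e3 : k * (1 - (x+1/40)^2 - 2/1000000) ≤ k * (1 - t^2 - 2*s^2) :=
      mul_le_mul_of_nonneg_left e2 hk.le
    have e4 : (3/2) * (100/101) * (k * (1 - (x+1/40)^2 - 2/1000000)) ≤ (3/2) * g11 := by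
      linarith
    have e5 : 0 ≤ k * ((3/2) * (100/101) * (1 - (x+1/40)^2 - 2/1000000) - 9/1000
        - (303/2000) * x) := by
      apply mul_nonneg hk.le
      nlinarith
    rw [hs']
    nlinarith [sq_nonneg x]
  · have e1 : 3 * w * (k/20) * x ≤ (303/4000) * x := by
      have : w * x * k ≤ (101/200) * x := by nlinarith
      linarith
    have e2 : 9 * s ≤ 9/2000 := by rw [hs']; linarith
    nlinarith

/-- the estimate for the second function -/
lemma NM2_t2 {n y s R r h2 : ℝ} (hn : 2 ≤ n) (hy : 0 < y) (hs : s = 1/(1000*n))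
    (hr : 0 ≤ r) (hh : h2 ≤ r) (hh2 : h2 ≤ (101/100)*n) (hyy : y = 61*n + R^2 - r) :
    0 ≤ 6 * (r - n) * y + 6 * (r - h2) - 9 * s + (105/1000) * y^2 := by
  have hn0 : 0 < n := by linarith
  have hs1 : s ≤ 1/2000 := by
    rw [hs]
    exact one_div_le_one_div_of_le (by norm_num) (by linarith)
  have hR : 0 ≤ R^2 := sq_nonneg R
  rcases le_or_gt (2*n) r with h | h
  · have e1 : 0 ≤ (r-n)*y := mul_nonneg (by linarith) hy.le
    nlinarith [sq_nonneg y]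
  · have hy59 : 59*n ≤ y := by rw [hyy]; linarith
    rcases le_or_gt n r with h' | h'
    · have e1 : 0 ≤ (r-n)*y := mul_nonneg (by linarith) hy.le
      have e2 : 118 ≤ y := by linarith
      nlinarith
    · have hy60 : 60*n ≤ y := by rw [hyy]; linarith
      have e1 : - n * y ≤ (r - n) * y := by nlinarith
      have e2 : n * y ≤ y * y / 60 := by nlinarith
      have e3 : 120 ≤ y := by linarith
      nlinarith

lemma NM2_arith {n x y v w c s R r h2 g11 g22 g12 gv L1 L2 Lv t : ℝ} (hn : 2 ≤ n) (hx : 0 < x)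
    (hy : 0 < y) (hv : 0 < v) (hc : 0 < c) (hc2 : c ≤ 1/100) (hw1 : w ≤ 1 + c)
    (hs : s = 1/(1000*n)) (hw2 : 1 - s^2 ≤ w) (ht : t = x + 1/(20*n)) (ht1 : t ≤ 1)
    (hg0 : 0 ≤ g11)
    (hg11 : 1 - t^2 - 2*s^2 ≤ (101/100) * n * g11) (hr : 0 ≤ r) (hh : h2 ≤ r)
    (hh2 : h2 ≤ (101/100)*n) (hyy : y = 61*n + R^2 - r) (hg22: g22 = 4*(r-h2))
    (hL1 : L1 = -w*t) (hL2 : L2 = 2*r-2*n) (hg12 : -2*s ≤ g12) (hLv : Lv ≤ -2*w*(v-2*c))
    (hL : 3*(L1/x - g11/x^2) + 3*(L2/y - g22/y^2) - 2*(Lv/v - gv/v^2) ≤ 0)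
    (hG : gv/v^2 = (9/4)*(g11/x^2 + g22/y^2 + 2*g12/(x*y))) : v ≤ 13*c := by
  have hn0 : 0 < n := by linarith
  have hs0 : 0 < s := by rw [hs]; positivity
  have hs1 : s ≤ 1/2000 := by
    rw [hs]
    exact one_div_le_one_div_of_le (by norm_num) (by linarith)
  have hw0 : 999/1000 ≤ w := by
    have := pow_le_pow_left₀ hs0.le hs1 2
    linarith
  have hw3 : w ≤ 101/100 := by linarith
  have k1 := NM2_t1 hn hx hw3 hs ht ht1 hg0 hg11
  have k2 := NM2_t2 (R := R) hn hy hs hr hh hh2 hyy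
  obtain ⟨P, hP⟩ : ∃ P : ℝ, P = 1/x := ⟨_, rfl⟩
  obtain ⟨Q, hQ⟩ : ∃ Q : ℝ, Q = 1/y := ⟨_, rfl⟩
  have hP0 : 0 < P := by rw [hP]; positivity
  have hQ0 : 0 < Q := by rw [hQ]; positivity
  have hxP : x * P = 1 := by rw [hP]; field_simp
  have hyQ : y * Q = 1 := by rw [hQ]; field_simp
  have k1' : 0 ≤ (3/2) * g11 * P^2 - 9 * s * P^2 - 3 * w * (1/(20*n)) * P + 1/10 := by
    have := mul_nonneg k1 (sq_nonneg P)
    have e : ((3/2) * g11 - 9 * s - 3 * w * (1/(20*n)) * x + (1/10) * x^2) * P^2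
        = (3/2) * g11 * P^2 - 9 * s * P^2 - 3 * w * (1/(20*n)) * P * (x*P)
          + (1/10) * (x*P)^2 := by ring
    rw [e, hxP] at this
    linarith
  have k2' : 0 ≤ 6 * (r - n) * Q + 6 * (r - h2) * Q^2 - 9 * s * Q^2 + 105/1000 := by
    have := mul_nonneg k2 (sq_nonneg Q)
    have e : (6 * (r - n) * y + 6 * (r - h2) - 9 * s + (105/1000) * y^2) * Q^2
        = 6 * (r - n) * Q * (y*Q) + 6 * (r - h2) * Q^2 - 9 * s * Q^2
          + (105/1000) * (y*Q)^2 := by ring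
    rw [e, hyQ] at this
    linarith
  have k3 : -(9 * s * P^2 + 9 * s * Q^2) ≤ 9 * g12 * (P*Q) := by
    have e1 : -2*s*(P*Q) ≤ g12 * (P*Q) := mul_le_mul_of_nonneg_right hg12 (by positivity)
    have e2 : 0 ≤ 9 * s * (P-Q)^2 := by positivity
    linarith
  have eL1 : L1/x = -w - w*(1/(20*n))*P := by
    rw [hL1, ht]
    have : -w * (x + 1/(20*n)) / x = -w * (x*P) - w*(1/(20*n))*P := by
      rw [hP]; ring
    rw [this, hxP]; ring
  have eL2 : L2/y = 2*(r-n)*Q := by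
    rw [hL2, hQ]; ring
  have eg1 : g11/x^2 = g11*P^2 := by rw [hP]; ring
  have eg2 : g22/y^2 = 4*(r-h2)*Q^2 := by rw [hg22, hQ]; ring
  have eg3 : 2*g12/(x*y) = 2*g12*(P*Q) := by rw [hP, hQ]; ring
  rw [eg1, eg2, eg3] at hG
  rw [eL1, eL2, eg1, eg2, hG] at hL
  have h5 : -(3*w) - 205/1000 ≤ 2*(Lv/v) := by linarith
  have h6 : (-(3*w) - 205/1000) * v ≤ 2 * Lv := by
    have := mul_le_mul_of_nonneg_right h5 hv.le
    have e : 2*(Lv/v)*v = 2*Lv := by rw [mul_assoc, div_mul_cancel₀ _ hv.ne']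
    rw [e] at this
    exact this
  have h7 : (w - 205/1000) * v ≤ 8 * w * c := by linarith
  have h8 : (794/1000) * v ≤ (w - 205/1000) * v := mul_le_mul_of_nonneg_right (by linarith) hv.le
  have h9 : 8 * w * c ≤ (808/100) * c := mul_le_mul_of_nonneg_right (by linarith) hc.le
  linarith

lemma NM2_ab {a b s : ℝ} (ha : 0 ≤ a) (h : a ≤ b + s) (ha1 : a ≤ 1) (hs : 0 ≤ s) : a^2 - 2*s ≤ b^2 := by
  rcases le_or_gt s a with h' | h'
  · have : (a - s)^2 ≤ b^2 := pow_le_pow_left₀ (by linarith) (by linarith) 2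
    nlinarith
  · nlinarith

section
variable {n : ℕ} {S : Type} [TopologicalSpace S] {M : Hyp n S}

/-- the maximum principle for `3 log A₁ + 3 log A₂ - 2 log v` -/
lemma NM2_log {A1 A2 V : S → ℝ} {q : S} (h1 : M.Sm A1 q) (h2 : M.Sm A2 q) (h3 : M.Sm V q)
    (p1 : 0 < A1 q) (p2 : 0 < A2 q) (p3 : 0 < V q)
    (hmax : ∀ᶠ q' in 𝓝 q, A1 q' ^ 3 * A2 q' ^ 3 / V q' ^ 2 ≤ A1 q ^ 3 * A2 q ^ 3 / V q ^ 2) :
    3*(M.Lap A1 q/A1 q - M.gsq A1 q/A1 q^2) + 3*(M.Lap A2 q/A2 q - M.gsq A2 q/A2 q^2)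
      - 2*(M.Lap V q/V q - M.gsq V q/V q^2) ≤ 0 ∧
    M.gsq V q / V q^2 = (9/4)*(M.gsq A1 q/A1 q^2 + M.gsq A2 q/A2 q^2
      + 2*(∑ a, M.dl a A1 q * M.dl a A2 q)/(A1 q * A2 q)) := by
  have l1 := h1.log p1.ne'
  have l2 := h2.log p2.ne'
  have l3 := h3.log p3.ne'
  have e1 : ∀ᶠ q' in 𝓝 q, 0 < A1 q' := h1.continuousAt.eventually (lt_mem_nhds p1)
  have e2 : ∀ᶠ q' in 𝓝 q, 0 < A2 q' := h2.continuousAt.eventually (lt_mem_nhds p2)
  have e3 : ∀ᶠ q' in 𝓝 q, 0 < V q' := h3.continuousAt.eventually (lt_mem_nhds p3)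
  have hlog : ∀ x y z : ℝ, 0 < x → 0 < y → 0 < z →
      Real.log (x^3*y^3/z^2) = 3 * Real.log x + 3 * Real.log y - 2 * Real.log z := by
    intro x y z hx hy hz
    rw [Real.log_div (by positivity) (by positivity), Real.log_mul (by positivity) (by positivity),
      Real.log_pow, Real.log_pow, Real.log_pow]
    norm_num
  have hm : ∀ᶠ q' in 𝓝 q, (3 * Real.log (A1 q') + 3 * Real.log (A2 q')) - 2 * Real.log (V q')
      ≤ (3 * Real.log (A1 q) + 3 * Real.log (A2 q)) - 2 * Real.log (V q) := by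
    filter_upwards [hmax, e1, e2, e3] with q' a b c d
    rw [← hlog _ _ _ b c d, ← hlog _ _ _ p1 p2 p3]
    exact Real.log_le_log (by positivity) a
  have hs12 := (l1.const_mul 3).add (l2.const_mul 3)
  have hs := hs12.sub (l3.const_mul 2)
  obtain ⟨m1, -, m3⟩ := Hyp.max_Lap hs hm
  constructor
  · rw [Hyp.Lap_sub hs12 (l3.const_mul 2), Hyp.Lap_add (l1.const_mul 3) (l2.const_mul 3),
      Hyp.Lap_const_mul 3 l1, Hyp.Lap_const_mul 3 l2, Hyp.Lap_const_mul 2 l3,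
      Hyp.Lap_log h1 p1.ne', Hyp.Lap_log h2 p2.ne', Hyp.Lap_log h3 p3.ne'] at m3
    exact m3
  · have hd : ∀ a, M.dl a V q / V q = (3/2) * (M.dl a A1 q / A1 q + M.dl a A2 q / A2 q) := by
      intro a
      have := m1 a
      rw [Hyp.dl_sub hs12 (l3.const_mul 2), Hyp.dl_add (l1.const_mul 3) (l2.const_mul 3),
        Hyp.dl_const_mul 3 l1, Hyp.dl_const_mul 3 l2, Hyp.dl_const_mul 2 l3,
        Hyp.dl_comp (Real.hasDerivAt_log p1.ne') h1, Hyp.dl_comp (Real.hasDerivAt_log p2.ne') h2,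
        Hyp.dl_comp (Real.hasDerivAt_log p3.ne') h3] at this
      have k1 : M.dl a A1 q / A1 q = (A1 q)⁻¹ * M.dl a A1 q := div_eq_inv_mul _ _
      have k2 : M.dl a A2 q / A2 q = (A2 q)⁻¹ * M.dl a A2 q := div_eq_inv_mul _ _
      have k3 : M.dl a V q / V q = (V q)⁻¹ * M.dl a V q := div_eq_inv_mul _ _
      rw [k1, k2, k3]
      linarith
    have g : ∀ Z : S → ℝ, M.gsq Z q / Z q ^ 2 = ∑ a, (M.dl a Z q / Z q)^2 := by
      intro Z
      unfold Hyp.gsq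
      rw [Finset.sum_div]
      exact Finset.sum_congr rfl fun a _ => by rw [div_pow]
    rw [g V, g A1, g A2, Finset.mul_sum, Finset.sum_div, ← Finset.sum_add_distrib,
      ← Finset.sum_add_distrib, Finset.mul_sum]
    refine Finset.sum_congr rfl fun a _ => ?_
    rw [hd a]
    have i1 : A1 q ≠ 0 := p1.ne'
    have i2 : A2 q ≠ 0 := p2.ne'
    field_simp
    ring

end

theorem pNM2 (hGH : tGH) (hLX : tLX) (hLW : tLW) (hHW : tHW) : tNM2 := by
  intro n R hn hR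
  have hnR : (2:ℝ) ≤ (n:ℝ) := by exact_mod_cast hn
  have hn0 : (0:ℝ) < n := by linarith
  set s : ℝ := 1/(1000*n) with hs
  have hs0 : 0 < s := by positivity
  refine ⟨s^2, by positivity, ?_⟩
  intro S _ _ M c hStd p q hHp hNS hA1 hA2 hmax
  obtain ⟨hShr, hc0, hc1, hw⟩ := hStd
  obtain ⟨n1, n2, n3, n4, n5, n6⟩ := hNS
  obtain ⟨X1, X2, X3, X4, X5⟩ := hLX n S M hShr
  obtain ⟨W1, W2⟩ := hLW n S M hShr q
  obtain ⟨Q1, Q2, Q3, Q4, Q5, Q6⟩ := hHW n S M q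
  set e : Fs n := M.N p with he
  set A1 : S → ℝ := fun q' => (inner ℝ (M.N q') e : ℝ) - 1/(20*n) with hA1d
  set A2 : S → ℝ := fun q' => 61*n + R^2 - M.rho q' with hA2d
  have hin : (fun q' => (inner ℝ (M.N q') e : ℝ)) = fun q' => ∑ b, e b * M.Nc b q' := by
    funext q'
    rw [Hyp.inner_sum]
    exact Finset.sum_congr rfl fun b _ => by unfold Hyp.Nc; ring
  have sIn : M.Sm (fun q' => (inner ℝ (M.N q') e : ℝ)) q := by
    rw [hin]
    exact Hyp.Sm.sum fun b _ => (Hyp.Sm.Nc M b q).const_mul (e b)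
  have sA1 : M.Sm A1 q := sIn.sub (Hyp.Sm.const M _ q)
  have sA2 : M.Sm A2 q := (Hyp.Sm.const M _ q).sub (Hyp.Sm.rho M q)
  have sV : M.Sm (M.vv c) q := Hyp.Sm.vv c q
  have p1 : 0 < A1 q := by simp only [hA1d]; linarith
  have p2 : 0 < A2 q := by simp only [hA2d]; linarith
  have p3 : 0 < M.vv c q := by unfold Hyp.vv; linarith [hw q]
  obtain ⟨hL, hG⟩ := NM2_log sA1 sA2 sV p1 p2 p3 hmax
  -- derivatives of `A1`
  have dA1 : ∀ a, M.dl a A1 q = - M.Bv q e a := by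
    intro a
    rw [hA1d, Hyp.dl_sub sIn (Hyp.Sm.const M _ q), Hyp.dl_const, hin,
      Hyp.dl_sum (fun b _ => (Hyp.Sm.Nc M b q).const_mul (e b)), Hyp.Bv_apply, sub_zero,
      ← Finset.sum_neg_distrib]
    refine Finset.sum_congr rfl fun b _ => ?_
    rw [Hyp.dl_const_mul (e b) (Hyp.Sm.Nc M b q), Hyp.dl_Nc]
    ring
  have LA1 : M.Lap A1 q = - M.w q * inner ℝ (M.N q) e := by
    rw [hA1d, Hyp.Lap_sub sIn (Hyp.Sm.const M _ q), Hyp.Lap_const, hin,
      Hyp.Lap_sum (fun b _ => (Hyp.Sm.Nc M b q).const_mul (e b)), sub_zero, Hyp.inner_sum,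
      Finset.mul_sum]
    refine Finset.sum_congr rfl fun b _ => ?_
    rw [Hyp.Lap_const_mul (e b) (Hyp.Sm.Nc M b q), X2]
    ring
  have dA2 : ∀ a, M.dl a A2 q = - (2 * (M.X q a + M.H q * M.N q a)) := by
    intro a
    rw [hA2d, Hyp.dl_sub (Hyp.Sm.const M _ q) (Hyp.Sm.rho M q), Hyp.dl_const, X4]
    ring
  have LA2 : M.Lap A2 q = 2 * M.rho q - 2 * n := by
    rw [hA2d, Hyp.Lap_sub (Hyp.Sm.const M _ q) (Hyp.Sm.rho M q), Hyp.Lap_const, X3]
    ring
  have gA1 : M.gsq A1 q = ‖M.Bv q e‖ ^ 2 := by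
    unfold Hyp.gsq
    rw [EuclideanSpace.norm_sq_eq]
    refine Finset.sum_congr rfl fun a _ => ?_
    rw [dA1, Real.norm_eq_abs, sq_abs, neg_sq]
  have gA2 : M.gsq A2 q = 4 * (M.rho q - M.H q ^ 2) := by
    rw [← X5]
    unfold Hyp.gsq
    refine Finset.sum_congr rfl fun a _ => ?_
    rw [dA2, X4]; ring
  have g12 : ∑ a, M.dl a A1 q * M.dl a A2 q = 2 * ∑ b, e b * M.dl b M.H q := by
    have h1 : ∑ a, M.dl a A1 q * M.dl a A2 q
        = 2 * inner ℝ (M.Bv q e) (M.X q) + 2 * M.H q * inner ℝ (M.Bv q e) (M.N q) := by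
      rw [Hyp.inner_sum, Hyp.inner_sum, Finset.mul_sum, Finset.mul_sum, ← Finset.sum_add_distrib]
      refine Finset.sum_congr rfl fun a _ => ?_
      rw [dA1, dA2]; ring
    rw [h1, Q5, Q6, mul_zero, add_zero, Hyp.inner_sum]
    congr 1
    refine Finset.sum_congr rfl fun b _ => ?_
    rw [hGH n S M hShr b q, Hyp.Bv_apply]
  have g12' : -2 * s ≤ ∑ a, M.dl a A1 q * M.dl a A2 q := by
    rw [g12]
    have h1 : (∑ b, e b * M.dl b M.H q)^2 ≤ (∑ b, e b ^ 2) * (∑ b, M.dl b M.H q ^ 2) :=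
      Finset.sum_mul_sq_le_sq_mul_sq _ _ _
    have h2 : ∑ b, e b ^ 2 = 1 := by
      have := M.sum_NN p
      rw [← this]
      exact Finset.sum_congr rfl fun b _ => by rw [he]; ring
    rw [h2, one_mul] at h1
    have h3 : (∑ b, e b * M.dl b M.H q)^2 ≤ s^2 := h1.trans n3
    have h4 := abs_le_of_sq_le_sq' h3 hs0.le
    linarith [h4.1]
  have hV : M.Lap (M.vv c) q ≤ -2 * M.w q * (M.vv c q - 2*c) := by
    have h1 : M.Lap (M.vv c) q = - M.Lap M.w q := by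
      have := Hyp.Lap_sub (Hyp.Sm.const M (1+2*c) q) (Hyp.Sm.w M q)
      rw [Hyp.Lap_const, zero_sub] at this
      exact this
    rw [h1, W2]
    have h2 := Hyp.J_nonneg (M := M) q
    unfold Hyp.vv
    linarith
  have hN1 : (inner ℝ (M.N q) e : ℝ) ≤ 1 := by
    have := real_inner_le_norm (M.N q) e
    rwa [M.unit q, he, M.unit p, one_mul] at this
  have hgb : 1 - (inner ℝ (M.N q) e : ℝ)^2 - 2*s^2 ≤ (101/100) * n * M.gsq A1 q := by
    have h0 : M.H p ^ 2 ≤ (101/100) * n := by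
      refine (hHW n S M p).1.trans ?_
      rw [mul_comm]
      exact mul_le_mul_of_nonneg_right (by linarith [hw p]) hn0.le
    have h1 : ‖e - (inner ℝ (M.N q) e : ℝ) • M.N q‖ ^ 2 = 1 - (inner ℝ (M.N q) e : ℝ)^2 := by
      rw [norm_sub_sq_real, norm_smul, inner_smul_right, M.unit q, he, M.unit p,
        real_inner_comm (M.N q) (M.N p)]
      simp only [Real.norm_eq_abs, mul_one, sq_abs]
      ring
    have h2 : ‖M.H p • M.Bv q e‖ ^ 2 = M.H p ^ 2 * M.gsq A1 q := by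
      rw [norm_smul, mul_pow, Real.norm_eq_abs, sq_abs, gA1]
    have h3 : ‖e - (inner ℝ (M.N q) e : ℝ) • M.N q‖ ≤ ‖M.H p • M.Bv q e‖ + s^2 := by
      have h4 := norm_sub_norm_le (e - (inner ℝ (M.N q) e : ℝ) • M.N q) (M.H p • M.Bv q e)
      have h5 := norm_sub_rev (e - (inner ℝ (M.N q) e : ℝ) • M.N q) (M.H p • M.Bv q e)
      linarith
    have h5 : ‖e - (inner ℝ (M.N q) e : ℝ) • M.N q‖ ≤ 1 := by
      have : ‖e - (inner ℝ (M.N q) e : ℝ) • M.N q‖ ^ 2 ≤ 1 ^ 2 := by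
        rw [h1]; linarith [sq_nonneg (inner ℝ (M.N q) e : ℝ)]
      exact le_of_sq_le_sq this (by norm_num)
    have h6 : M.H p ^ 2 * M.gsq A1 q ≤ (101/100) * n * M.gsq A1 q :=
      mul_le_mul_of_nonneg_right h0 (Hyp.gsq_nonneg _ _)
    rw [← h1]
    rw [← h2] at h6
    refine le_trans ?_ h6
    exact NM2_ab (norm_nonneg _) h3 h5 (sq_nonneg s)
  have hr0 : 0 ≤ M.rho q := sq_nonneg _
  have hHr : M.H q ^ 2 ≤ M.rho q := by
    have h1 := abs_real_inner_le_norm (M.X q) (M.N q)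
    rw [M.unit q, mul_one] at h1
    rw [hShr q, neg_sq, ← sq_abs]
    exact pow_le_pow_left₀ (abs_nonneg _) h1 2
  have hHn : M.H q ^ 2 ≤ (101/100) * n := by
    refine Q1.trans ?_
    rw [mul_comm]
    exact mul_le_mul_of_nonneg_right (by linarith [hw q]) hn0.le
  exact NM2_arith hnR p1 p2 p3 hc0 hc1 (hw q).le hs (by linarith [(abs_le.1 n4).1])
    (by simp only [hA1d]; ring) hN1 (Hyp.gsq_nonneg _ _) hgb hr0 hHr hHn rfl gA2 LA1 LA2 g12' hV hL hG

end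

end Pool.Agent.ShG
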