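import Pool.Agent.ShG.Targets

/-!
# Near-structure along a lift (target tNS)
-/

namespace Pool.Agent.ShG

open scoped BigOperators Topology ContDiff
open Set Filter

noncomputable section

variable {n : ℕ} {S : Type} [TopologicalSpace S]

/-- mean value inequality on `[0,s]`, `s ≤ 1` -/
lemma NS_mvt {f : ℝ → ℝ} {s K : ℝ} (hs : s ∈ Icc (0:ℝ) 1) (hK : 0 ≤ K)
    (h : ∀ t ∈ Icc (0:ℝ) s, ∃ f' : ℝ, HasDerivWithinAt f f' (Icc 0 s) t ∧ |f'| ≤ K)
    {t : ℝ} (ht : t ∈ Icc (0:ℝ) s) : |f t - f 0| ≤ K := by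
  have h' : ∀ t : ℝ, ∃ f' : ℝ, t ∈ Icc (0:ℝ) s → HasDerivWithinAt f f' (Icc 0 s) t ∧ |f'| ≤ K := by
    intro t
    by_cases ht : t ∈ Icc (0:ℝ) s
    · obtain ⟨f', h1⟩ := h t ht
      exact ⟨f', fun _ => h1⟩
    · exact ⟨0, fun h => absurd h ht⟩
  choose f' hf' using h'
  have h0 : (0:ℝ) ∈ Icc (0:ℝ) s := ⟨le_rfl, hs.1⟩
  have := (convex_Icc (0:ℝ) s).norm_image_sub_le_of_norm_hasDerivWithin_le
    (fun x hx => (hf' x hx).1) (fun x hx => (hf' x hx).2) h0 ht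
  rw [Real.norm_eq_abs, Real.norm_eq_abs, sub_zero, abs_of_nonneg ht.1] at this
  refine this.trans ?_
  have : t ≤ 1 := ht.2.trans hs.2
  nlinarith

lemma NS_coord (x : Fs n) (a : Fin (n + 1)) : |x a| ≤ ‖x‖ := by
  have := PiLp.norm_apply_le x a
  simpa using this

lemma NS_sum {x : Fin (n + 1) → ℝ} {y : Fs n} {K L : ℝ} (hK : 0 ≤ K) (hx : ∀ a, |x a| ≤ K)
    (hy : ‖y‖ ≤ L) : |∑ a, x a * y a| ≤ (n + 1) * K * L := by
  refine (Finset.abs_sum_le_sum_abs _ _).trans ?_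
  have h1 : ∀ a ∈ (Finset.univ : Finset (Fin (n + 1))), |x a * y a| ≤ K * L := by
    intro a _
    rw [abs_mul]
    exact mul_le_mul (hx a) ((NS_coord y a).trans hy) (abs_nonneg _) hK
  refine (Finset.sum_le_card_nsmul _ _ _ h1).trans ?_
  rw [Finset.card_univ, Fintype.card_fin, nsmul_eq_mul]
  push_cast
  rw [mul_assoc]

lemma NS_norm {x : Fs n} {K : ℝ} (hK : 0 ≤ K) (hx : ∀ a, |x a| ≤ K) : ‖x‖ ≤ (n + 1) * K := by
  have h1 : ‖x‖ ^ 2 = ∑ a, x a * x a := by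
    rw [← real_inner_self_eq_norm_sq, Hyp.inner_sum]
  have h2 : ∑ a, x a * x a ≤ (n + 1) * K ^ 2 := by
    have h3 : ∀ a ∈ (Finset.univ : Finset (Fin (n + 1))), x a * x a ≤ K ^ 2 := by
      intro a _
      have := hx a
      rw [← sq]
      exact sq_le_sq' (by linarith [abs_le.1 this]) (abs_le.1 this).2
    refine (Finset.sum_le_card_nsmul _ _ _ h3).trans ?_
    rw [Finset.card_univ, Fintype.card_fin, nsmul_eq_mul]
    push_cast
    exact le_rfl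
  have h4 : (n + 1 : ℝ) * K ^ 2 ≤ ((n + 1) * K) ^ 2 := by
    have h5 : (1 : ℝ) ≤ n + 1 := by linarith [(Nat.cast_nonneg n : (0:ℝ) ≤ n)]
    have h6 : 0 ≤ K ^ 2 := sq_nonneg K
    nlinarith [mul_nonneg (sub_nonneg.2 h5) (mul_nonneg (show (0:ℝ) ≤ n + 1 by linarith) h6)]
  refine le_of_sq_le_sq (by linarith) ?_
  positivity

namespace Hyp

variable {M : Hyp n S}

/-- the derivative of `P_ab = N_a N_b + H₀ B_ab` -/
lemma NS_dP (H0 : ℝ) (a b c : Fin (n + 1)) (p : S) :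
    M.dl c (fun q => M.Nc a q * M.Nc b q + H0 * M.B a b q) p
      = H0 * M.T3 c a b p + M.N p a * (H0 * M.B2 c b p - M.B c b p)
        + M.N p b * (H0 * M.B2 c a p - M.B c a p) := by
  rw [dl_add ((Sm.Nc M a p).mul (Sm.Nc M b p)) ((Sm.B M a b p).const_mul H0),
    dl_mul (Sm.Nc M a p) (Sm.Nc M b p), dl_const_mul H0 (Sm.B M a b p), dl_Nc, dl_Nc]
  unfold T3 Nc
  ring

/-- the matrix `P(q) = N_q ⊗ N_q + H(p) B(q)` -/
def NS_P (M : Hyp n S) (p : S) (a b : Fin (n + 1)) : S → ℝ :=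
  fun q => M.Nc a q * M.Nc b q + M.H p * M.B a b q

/-- a tangential vector: `P(q) ξ = H(p) B(q) ξ` -/
lemma NS_P_tan (p q : S) (a : Fin (n + 1)) (ξ : Fs n) (h : inner ℝ ξ (M.N q) = (0:ℝ)) :
    ∑ b, NS_P M p a b q * ξ b = M.H p * ∑ b, M.B a b q * ξ b := by
  unfold NS_P Nc
  have h1 : ∑ b, M.N q b * ξ b = 0 := by
    rw [inner_sum] at h
    rw [← h]
    exact Finset.sum_congr rfl fun b _ => mul_comm _ _
  calc ∑ b, (M.N q a * M.N q b + M.H p * M.B a b q) * ξ b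
      = M.N q a * ∑ b, M.N q b * ξ b + M.H p * ∑ b, M.B a b q * ξ b := by
        rw [Finset.mul_sum, Finset.mul_sum, ← Finset.sum_add_distrib]
        exact Finset.sum_congr rfl fun b _ => by ring
    _ = _ := by rw [h1]; ring

/-- the analysis along the path -/
lemma NS_path {p : S} {γ : ℝ → S} {s L e c1 : ℝ} (hs : s ∈ Icc (0:ℝ) 1)
    (hc : ContinuousOn γ (Icc 0 s)) (h0 : γ 0 = p) (hL : 0 ≤ L) (he : 0 ≤ e)
    (hvel : ∀ t ∈ Icc (0:ℝ) s, ∃ ξ : Fs n, HasDerivWithinAt (fun r => M.X (γ r)) ξ (Icc 0 s) t ∧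
      inner ℝ ξ (M.N (γ t)) = (0:ℝ) ∧ ‖ξ‖ ≤ L)
    (hT : ∀ t ∈ Icc (0:ℝ) s, ∀ a b c, |M.T3 a b c (γ t)| ≤ e)
    (hH : ∀ t ∈ Icc (0:ℝ) s, ∀ a, |M.dl a M.H (γ t)| ≤ e)
    (hB : ∀ t ∈ Icc (0:ℝ) s, ∀ a b, |M.B a b (γ t) - M.H (γ t) * M.B2 a b (γ t)| ≤ e)
    (hB2 : ∀ t ∈ Icc (0:ℝ) s, ∀ a b, |M.B2 a b (γ t)| ≤ 2) (hc1 : |M.H p| ≤ c1) :
    (∀ t ∈ Icc (0:ℝ) s, |M.H (γ t) - M.H p| ≤ (n + 1) * e * L) ∧
    (∀ t ∈ Icc (0:ℝ) s, ∀ a b, |NS_P M p a b (γ t) - NS_P M p a b p| ≤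
      (n + 1) * (c1 * e + 2 * (e + 2 * ((n + 1) * e * L))) * L) ∧
    (∀ t ∈ Icc (0:ℝ) s, ∀ a,
      |(∑ b, NS_P M p a b p * M.X (γ t) b + M.H p * M.N (γ t) a) -
        (∑ b, NS_P M p a b p * M.X p b + M.H p * M.N p a)| ≤
      (n + 1) * ((n + 1) * (c1 * e + 2 * (e + 2 * ((n + 1) * e * L))) * L) * L) := by
  have hc1' : 0 ≤ c1 := (abs_nonneg _).trans hc1
  have hn : (0:ℝ) ≤ n := Nat.cast_nonneg n
  have hNc : ∀ (q : S) a, |M.N q a| ≤ 1 := fun q a => by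
    have := NS_coord (M.N q) a
    rwa [M.unit] at this
  -- step A
  have hA : ∀ t ∈ Icc (0:ℝ) s, |M.H (γ t) - M.H p| ≤ (n + 1) * e * L := by
    intro t ht
    have := NS_mvt (f := fun r => M.H (γ r)) (K := (n + 1) * e * L) hs (by positivity) ?_ ht
    · rw [← h0]
      exact this
    · intro t ht
      obtain ⟨ξ, h1, h2, h3⟩ := hvel t ht
      refine ⟨_, Sm.comp_within (Sm.H M (γ t)) (hc t ht) h1, ?_⟩
      exact NS_sum he (hH t ht) h3
  -- step B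
  have hP : ∀ t ∈ Icc (0:ℝ) s, ∀ a b, |NS_P M p a b (γ t) - NS_P M p a b p| ≤
      (n + 1) * (c1 * e + 2 * (e + 2 * ((n + 1) * e * L))) * L := by
    intro t ht a b
    have := NS_mvt (f := fun r => NS_P M p a b (γ r))
      (K := (n + 1) * (c1 * e + 2 * (e + 2 * ((n + 1) * e * L))) * L) hs (by positivity) ?_ ht
    · simp only [h0] at this
      exact this
    · intro t ht
      obtain ⟨ξ, h1, h2, h3⟩ := hvel t ht
      refine ⟨_, Sm.comp_within (((Sm.Nc M a (γ t)).mul (Sm.Nc M b (γ t))).add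
        ((Sm.B M a b (γ t)).const_mul (M.H p))) (hc t ht) h1, ?_⟩
      refine NS_sum (by positivity) (fun c => ?_) h3
      rw [show M.dl c (NS_P M p a b) (γ t) = _ from NS_dP (M.H p) a b c (γ t)]
      have key : ∀ a b, |M.H p * M.B2 a b (γ t) - M.B a b (γ t)| ≤
          e + 2 * ((n + 1) * e * L) := by
        intro a b
        have e1 : M.H p * M.B2 a b (γ t) - M.B a b (γ t) =
            -(M.B a b (γ t) - M.H (γ t) * M.B2 a b (γ t)) -
              (M.H (γ t) - M.H p) * M.B2 a b (γ t) := by ring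
        rw [e1]
        refine (abs_sub _ _).trans ?_
        rw [abs_neg, abs_mul]
        have e2 := mul_le_mul (hA t ht) (hB2 t ht a b) (abs_nonneg _) (by positivity)
        have e3 := hB t ht a b
        linarith
      have k1 : |M.H p * M.T3 c a b (γ t)| ≤ c1 * e := by
        rw [abs_mul]
        exact mul_le_mul hc1 (hT t ht c a b) (abs_nonneg _) hc1'
      have k2 : ∀ a b : Fin (n + 1), |M.N (γ t) a * (M.H p * M.B2 c b (γ t) - M.B c b (γ t))| ≤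
          e + 2 * ((n + 1) * e * L) := by
        intro a b
        rw [abs_mul]
        have := mul_le_mul (hNc (γ t) a) (key c b) (abs_nonneg _) zero_le_one
        rwa [one_mul] at this
      refine (abs_add_le _ _).trans ?_
      have := abs_add_le (M.H p * M.T3 c a b (γ t))
        (M.N (γ t) a * (M.H p * M.B2 c b (γ t) - M.B c b (γ t)))
      have k3 := k2 a b
      have k4 := k2 b a
      linarith
  refine ⟨hA, hP, ?_⟩
  -- step C
  intro t ht a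
  have := NS_mvt (f := fun r => ∑ b, NS_P M p a b p * M.X (γ r) b + M.H p * M.N (γ r) a)
    (K := (n + 1) * ((n + 1) * (c1 * e + 2 * (e + 2 * ((n + 1) * e * L))) * L) * L) hs
    (by positivity) ?_ ht
  · simp only [h0] at this
    exact this
  · intro t ht
    obtain ⟨ξ, h1, h2, h3⟩ := hvel t ht
    have hX : ∀ b, HasDerivWithinAt (fun r => M.X (γ r) b) (ξ b) (Icc 0 s) t := by
      intro b
      exact (EuclideanSpace.proj (𝕜 := ℝ) b).hasFDerivAt.comp_hasDerivWithinAt t h1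
    have hN := Sm.comp_within (Sm.Nc M a (γ t)) (hc t ht) h1
    have hd : HasDerivWithinAt (fun r => ∑ b, NS_P M p a b p * M.X (γ r) b + M.H p * M.N (γ r) a)
        (∑ b, NS_P M p a b p * ξ b + M.H p * ∑ c, M.dl c (M.Nc a) (γ t) * ξ c) (Icc 0 s) t := by
      refine HasDerivWithinAt.add ?_ (hN.const_mul _)
      exact HasDerivWithinAt.fun_sum fun b _ => (hX b).const_mul _
    refine ⟨_, hd, ?_⟩
    have e1 : ∑ b, NS_P M p a b p * ξ b + M.H p * ∑ c, M.dl c (M.Nc a) (γ t) * ξ c =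
        ∑ b, (NS_P M p a b p - NS_P M p a b (γ t)) * ξ b := by
      have e2 := NS_P_tan p (γ t) a ξ h2
      have e3 : ∑ c, M.dl c (M.Nc a) (γ t) * ξ c = - ∑ b, M.B a b (γ t) * ξ b := by
        rw [← Finset.sum_neg_distrib]
        refine Finset.sum_congr rfl fun c _ => ?_
        rw [dl_Nc, B_symm]
        ring
      rw [e3]
      simp only [sub_mul]
      rw [Finset.sum_sub_distrib, e2]
      ring
    rw [e1]
    refine NS_sum (by positivity) (fun b => ?_) h3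
    rw [abs_sub_comm]
    exact hP t ht a b

/-- items 2 and 6 -/
lemma NS_alg26 {p q : S} {eP kV : ℝ} (heP : 0 ≤ eP) (hkV : 0 ≤ kV)
    (hP : ∀ a b, |NS_P M p a b q - NS_P M p a b p| ≤ eP)
    (hV : ∀ a, |∑ b, NS_P M p a b p * M.X q b + M.H p * M.N q a| ≤ kV) :
    ‖M.H p • M.Bv q (M.N p) - (M.N p - (inner ℝ (M.N q) (M.N p) : ℝ) • M.N q)‖
      ≤ (n + 1) * ((n + 1) * eP * 1) ∧
    |(inner ℝ (M.X q) (M.N p) : ℝ) + M.H p * inner ℝ (M.N q) (M.N p)| ≤ (n + 1) * kV * 1 := by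
  have hn : (0:ℝ) ≤ n := Nat.cast_nonneg n
  constructor
  · refine NS_norm (by positivity) fun a => ?_
    have e1 : (M.H p • M.Bv q (M.N p) - (M.N p - (inner ℝ (M.N q) (M.N p) : ℝ) • M.N q)) a =
        ∑ b, (NS_P M p a b q - NS_P M p a b p) * M.N p b := by
      have e2 : ∑ b, NS_P M p a b p * M.N p b = M.N p a := by
        unfold NS_P Nc
        calc ∑ b, (M.N p a * M.N p b + M.H p * M.B a b p) * M.N p b
            = M.N p a * ∑ b, M.N p b * M.N p b + M.H p * ∑ b, M.B a b p * M.N p b := by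
              rw [Finset.mul_sum, Finset.mul_sum, ← Finset.sum_add_distrib]
              exact Finset.sum_congr rfl fun b _ => by ring
          _ = _ := by rw [sum_NN, B_N_right]; ring
      have e3 : ∑ b, NS_P M p a b q * M.N p b =
          M.N q a * (inner ℝ (M.N q) (M.N p) : ℝ) + M.H p * M.Bv q (M.N p) a := by
        unfold NS_P Nc
        rw [inner_sum, Bv_apply, Finset.mul_sum, Finset.mul_sum, ← Finset.sum_add_distrib]
        exact Finset.sum_congr rfl fun b _ => by ring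
      simp only [sub_mul]
      rw [Finset.sum_sub_distrib, e2, e3]
      simp only [PiLp.sub_apply, PiLp.smul_apply, smul_eq_mul]
      ring
    rw [e1]
    exact NS_sum heP (fun b => hP a b) (M.unit p).le
  · have e1 : (inner ℝ (M.X q) (M.N p) : ℝ) + M.H p * inner ℝ (M.N q) (M.N p) =
        ∑ a, (∑ b, NS_P M p a b p * M.X q b + M.H p * M.N q a) * M.N p a := by
      have e2 : ∀ b, ∑ a, NS_P M p a b p * M.N p a = M.N p b := by
        intro b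
        unfold NS_P Nc
        calc ∑ a, (M.N p a * M.N p b + M.H p * M.B a b p) * M.N p a
            = M.N p b * ∑ a, M.N p a * M.N p a + M.H p * ∑ a, M.N p a * M.B a b p := by
              rw [Finset.mul_sum, Finset.mul_sum, ← Finset.sum_add_distrib]
              exact Finset.sum_congr rfl fun b _ => by ring
          _ = _ := by rw [sum_NN, B_N_left]; ring
      simp only [add_mul]
      rw [Finset.sum_add_distrib]
      simp only [Finset.sum_mul]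
      rw [Finset.sum_comm]
      have e3 : ∀ b, ∑ a, NS_P M p a b p * M.X q b * M.N p a = M.X q b * M.N p b := by
        intro b
        rw [← e2 b, Finset.mul_sum]
        exact Finset.sum_congr rfl fun a _ => by ring
      rw [Finset.sum_congr rfl fun b _ => e3 b, inner_sum, inner_sum, Finset.mul_sum]
      congr 1
      exact Finset.sum_congr rfl fun b _ => by ring
    rw [e1]
    exact NS_sum hkV hV (M.unit p).le

/-- item 1 -/
lemma NS_alg1 {p q : S} {k L : ℝ} (hk : 0 ≤ k) (hL : 0 ≤ L) (hk1 : (n + 1) * k ≤ 1)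
    (hH : 19/20 ≤ |M.H p|) (hBN : ∀ x, inner ℝ (M.Bv p x) (M.N p) = (0:ℝ))
    (hBD : ‖M.Bv p (M.X q - M.X p)‖ ≤ 2 * L)
    (hV : ∀ a, |(∑ b, NS_P M p a b p * M.X q b + M.H p * M.N q a) -
        (∑ b, NS_P M p a b p * M.X p b + M.H p * M.N p a)| ≤ k) :
    |(inner ℝ (M.N q) (M.N p)) ^ 2 + ‖M.Bv p (M.X q - M.X p)‖ ^ 2 - 1|
      ≤ (10 * L + 5) * ((n + 1) * k) := by
  have hn : (0:ℝ) ≤ n := Nat.cast_nonneg n
  set D := M.X q - M.X p with hD
  set y : Fs n := M.H p • (M.N q - M.N p) + (inner ℝ D (M.N p) : ℝ) • M.N p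
    + M.H p • M.Bv p D with hy
  have hya : ∀ a, y a = (∑ b, NS_P M p a b p * M.X q b + M.H p * M.N q a) -
        (∑ b, NS_P M p a b p * M.X p b + M.H p * M.N p a) := by
    intro a
    have e1 : (∑ b, NS_P M p a b p * M.X q b + M.H p * M.N q a) -
        (∑ b, NS_P M p a b p * M.X p b + M.H p * M.N p a) =
        ∑ b, NS_P M p a b p * D b + M.H p * (M.N q a - M.N p a) := by
      have : ∀ b, NS_P M p a b p * D b = NS_P M p a b p * M.X q b - NS_P M p a b p * M.X p b := by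
        intro b
        rw [hD, PiLp.sub_apply]
        ring
      rw [Finset.sum_congr rfl fun b _ => this b, Finset.sum_sub_distrib]
      ring
    rw [e1]
    have e2 : ∑ b, NS_P M p a b p * D b = (inner ℝ D (M.N p) : ℝ) * M.N p a
        + M.H p * M.Bv p D a := by
      unfold NS_P Nc
      rw [inner_sum, Bv_apply, Finset.sum_mul, Finset.mul_sum, ← Finset.sum_add_distrib]
      exact Finset.sum_congr rfl fun b _ => by ring
    rw [e2, hy]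
    simp only [PiLp.add_apply, PiLp.smul_apply, PiLp.sub_apply, smul_eq_mul]
    ring
  have hyn : ‖y‖ ≤ (n + 1) * k := NS_norm hk fun a => by rw [hya]; exact hV a
  set φ : ℝ := inner ℝ (M.N q) (M.N p) with hφ
  set Z := M.Bv p D with hZ
  have hyN : (inner ℝ y (M.N p) : ℝ) = M.H p * (φ - 1) + inner ℝ D (M.N p) := by
    rw [hy, inner_add_left, inner_add_left, inner_smul_left, inner_smul_left, inner_smul_left,
      inner_sub_left, hBN, NN]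
    simp only [conj_trivial]
    ring
  set E : Fs n := y - (inner ℝ y (M.N p) : ℝ) • M.N p with hE
  have hEn : ‖E‖ ≤ 2 * ((n + 1) * k) := by
    have h1 : ‖E‖ ≤ ‖y‖ + ‖(inner ℝ y (M.N p) : ℝ) • M.N p‖ := norm_sub_le _ _
    have h2 : ‖(inner ℝ y (M.N p) : ℝ) • M.N p‖ ≤ ‖y‖ := by
      rw [norm_smul, M.unit, mul_one]
      have := norm_inner_le_norm (𝕜 := ℝ) y (M.N p)
      rwa [M.unit, mul_one] at this
    linarith
  have h1 : M.H p • (M.N q - φ • M.N p) = E - M.H p • Z := by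
    rw [hE, hyN, hy]
    module
  have h2 : ‖M.N q - φ • M.N p‖ ^ 2 = 1 - φ ^ 2 := by
    rw [@norm_sub_sq_real, inner_smul_right, norm_smul, M.unit, M.unit, Real.norm_eq_abs, mul_one,
      sq_abs, ← hφ]
    ring
  have h3 : M.H p ^ 2 * (1 - φ ^ 2) = ‖E‖ ^ 2 - 2 * (M.H p * inner ℝ E Z)
      + M.H p ^ 2 * ‖Z‖ ^ 2 := by
    have : ‖M.H p • (M.N q - φ • M.N p)‖ ^ 2 = ‖E - M.H p • Z‖ ^ 2 := by rw [h1]
    rw [norm_smul, mul_pow, h2, @norm_sub_sq_real, inner_smul_right, norm_smul, mul_pow,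
      Real.norm_eq_abs, sq_abs] at this
    exact this
  have h4 : M.H p ^ 2 * (φ ^ 2 + ‖Z‖ ^ 2 - 1) = 2 * (M.H p * inner ℝ E Z) - ‖E‖ ^ 2 := by
    linarith
  have h5 : |(inner ℝ E Z : ℝ)| ≤ 2 * ((n + 1) * k) * (2 * L) := by
    have := norm_inner_le_norm (𝕜 := ℝ) E Z
    rw [Real.norm_eq_abs] at this
    exact this.trans (mul_le_mul hEn hBD (norm_nonneg _) (by positivity))
  set d := (n + 1) * k with hd
  have hd0 : 0 ≤ d := by positivity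
  have hHsq : M.H p ^ 2 = |M.H p| ^ 2 := (sq_abs _).symm
  have h6 : |M.H p ^ 2 * (φ ^ 2 + ‖Z‖ ^ 2 - 1)| ≤ M.H p ^ 2 * ((10 * L + 5) * d) := by
    rw [h4]
    refine (abs_sub _ _).trans ?_
    rw [abs_mul, abs_mul, abs_of_nonneg (sq_nonneg ‖E‖), abs_of_pos (two_pos), hHsq]
    have h7 : ‖E‖ ^ 2 ≤ (2 * d) ^ 2 := pow_le_pow_left₀ (norm_nonneg _) hEn 2
    have h8 : |M.H p| * |(inner ℝ E Z : ℝ)| ≤ |M.H p| * (2 * d * (2 * L)) :=
      mul_le_mul_of_nonneg_left h5 (abs_nonneg _)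
    set h := |M.H p| with hh
    have h9 : 0 ≤ (h - 19/20) * (h * L * d) :=
      mul_nonneg (by linarith) (by positivity)
    have h10 : 0 ≤ h * L * d := by positivity
    have h11 : 0 ≤ (h ^ 2 - 9/10) * d := mul_nonneg (by nlinarith) hd0
    have h12 : d * d ≤ 1 * d := mul_le_mul_of_nonneg_right hk1 hd0
    nlinarith
  have h7 : 0 < M.H p ^ 2 := by
    rw [hHsq]
    have : 0 < |M.H p| := by linarith
    positivity
  rw [abs_mul, abs_of_pos h7] at h6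
  exact le_of_mul_le_mul_left h6 h7

lemma NS_single (a : Fin (n + 1)) (f : Fin (n + 1) → ℝ) (hf : ∀ a, 0 ≤ f a) : f a ≤ ∑ a, f a :=
  Finset.single_le_sum (fun i _ => hf i) (Finset.mem_univ a)

lemma NS_T3 {q : S} {e η' : ℝ} (he : 0 ≤ e) (h : η' ≤ e ^ 2) (hJ : M.J q ≤ η')
    (a b c : Fin (n + 1)) : |M.T3 a b c q| ≤ e := by
  refine abs_le_of_sq_le_sq ?_ he
  have h2 : (M.T3 a b c q) ^ 2 ≤ M.J q := by
    have h3 := NS_single c (fun c => (M.T3 a b c q) ^ 2) (fun _ => sq_nonneg _)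
    have h4 := NS_single b (fun b => ∑ c, (M.T3 a b c q) ^ 2)
      (fun _ => Finset.sum_nonneg fun _ _ => sq_nonneg _)
    have h5 := NS_single a (fun a => ∑ b, ∑ c, (M.T3 a b c q) ^ 2)
      (fun _ => Finset.sum_nonneg fun _ _ => Finset.sum_nonneg fun _ _ => sq_nonneg _)
    exact h3.trans (h4.trans h5)
  linarith

lemma NS_dH {q : S} {e η' : ℝ} (he : 0 ≤ e) (h : η' ≤ e ^ 2) (hJ : M.gsq M.H q ≤ η')
    (a : Fin (n + 1)) : |M.dl a M.H q| ≤ e := by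
  refine abs_le_of_sq_le_sq ?_ he
  have h3 := NS_single a (fun a => (M.dl a M.H q) ^ 2) (fun _ => sq_nonneg _)
  exact h3.trans (hJ.trans h)

lemma NS_B2 {q : S} (hw : M.w q ≤ 2) (hb : M.b4 q ≤ M.w q ^ 2) (a b : Fin (n + 1)) :
    |M.B2 a b q| ≤ 2 := by
  refine abs_le_of_sq_le_sq ?_ two_pos.le
  have h2 : (M.B2 a b q) ^ 2 ≤ M.b4 q := by
    have h3 := NS_single b (fun b => (M.B2 a b q) ^ 2) (fun _ => sq_nonneg _)
    have h4 := NS_single a (fun a => ∑ b, (M.B2 a b q) ^ 2)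
      (fun _ => Finset.sum_nonneg fun _ _ => sq_nonneg _)
    exact h3.trans h4
  have h4 := M.w_nonneg q
  nlinarith

lemma NS_Hb {q : S} (hw : M.w q ≤ 2) (hb : M.H q ^ 2 ≤ n * M.w q) :
    |M.H q| ≤ 2 * n + 1 := by
  have hn : (0:ℝ) ≤ n := Nat.cast_nonneg n
  refine abs_le_of_sq_le_sq ?_ (by positivity)
  have h3 : (n:ℝ) * M.w q ≤ n * 2 := mul_le_mul_of_nonneg_left hw hn
  nlinarith

lemma NS_V0 {p : S} {e c1 : ℝ} (hS : M.Shr) (hG : ∀ a, M.dl a M.H p = ∑ b, M.B a b p * M.X p b)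
    (hc : |M.H p| ≤ c1) (hd : ∀ a, |M.dl a M.H p| ≤ e) (a : Fin (n + 1)) :
    |∑ b, NS_P M p a b p * M.X p b + M.H p * M.N p a| ≤ c1 * e := by
  have e1 : ∑ b, NS_P M p a b p * M.X p b + M.H p * M.N p a = M.H p * M.dl a M.H p := by
    unfold NS_P Nc
    rw [hG a]
    have e2 : ∑ b, (M.N p a * M.N p b + M.H p * M.B a b p) * M.X p b =
        M.N p a * ∑ b, M.X p b * M.N p b + M.H p * ∑ b, M.B a b p * M.X p b := by
      rw [Finset.mul_sum, Finset.mul_sum, ← Finset.sum_add_distrib]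
      exact Finset.sum_congr rfl fun b _ => by ring
    have e3 : ∑ b, M.X p b * M.N p b = - M.H p := by
      rw [← inner_sum, hS p]
      ring
    rw [e2, e3]
    ring
  rw [e1, abs_mul]
  exact mul_le_mul hc (hd a) (abs_nonneg _) ((abs_nonneg _).trans hc)

/-- everything from the bounds along the path -/
lemma NS_all {p : S} {γ : ℝ → S} {s Λ e c1 hh hP hk C η η' : ℝ} (hs : s ∈ Icc (0:ℝ) 1)
    (hc : ContinuousOn γ (Icc 0 s)) (hγ0 : γ 0 = p) (hΛ0 : 0 ≤ Λ) (he0 : 0 ≤ e) (hη1 : η' ≤ 1)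
    (hηη : η' ≤ η) (hηe : η' ≤ e ^ 2) (hee : η' ≤ e)
    (hc1 : c1 = 2 * n + 1) (hhh : hh = (n + 1) * Λ)
    (hhP : hP = (n + 1) * (c1 + 2 * (1 + 2 * hh)) * Λ) (hhk : hk = (n + 1) * hP * Λ)
    (hCe : ∀ x : ℝ, x ≤ C → x * e ≤ min η 1)
    (t1 : 2 * c1 * hh ≤ C) (t2 : (n + 1) * ((n + 1) * hP) ≤ C) (t3 : (n + 1) * (hk + c1) ≤ C)
    (t4 : (10 * Λ + 5) * ((n + 1) * hk) ≤ C) (t5 : (n + 1) * hk ≤ C)
    (hS : M.Shr) (hG : ∀ a, M.dl a M.H p = ∑ b, M.B a b p * M.X p b)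
    (hw : ∀ q, M.H q ^ 2 ≤ n * M.w q ∧ M.b4 q ≤ M.w q ^ 2)
    (hw3 : ∀ x, ‖M.Bv p x‖ ^ 2 ≤ M.w p * ‖x‖ ^ 2)
    (hw5 : ∀ x, inner ℝ (M.Bv p x) (M.N p) = (0:ℝ))
    (hvel : ∀ t ∈ Icc (0:ℝ) s, ∃ ξ : Fs n, HasDerivWithinAt (fun r => M.X (γ r)) ξ (Icc 0 s) t ∧
      inner ℝ ξ (M.N (γ t)) = (0:ℝ) ∧ ‖ξ‖ ≤ Λ)
    (hD : ‖M.X (γ s) - M.X p‖ ≤ Λ) (hHp : 19/20 ≤ |M.H p|)
    (hq : ∀ t ∈ Icc (0:ℝ) s, |M.w (γ t) - 1| ≤ η' ∧ M.J (γ t) ≤ η' ∧
      M.gsq M.H (γ t) ≤ η' ∧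
      ∀ a b, |M.B a b (γ t) - M.H (γ t) * M.B2 a b (γ t)| ≤ η') : NSt M p (γ s) η := by
  have hn : (0:ℝ) ≤ n := Nat.cast_nonneg n
  have hc10 : 0 ≤ c1 := by rw [hc1]; positivity
  have hh0 : 0 ≤ hh := by rw [hhh]; positivity
  have hP0 : 0 ≤ hP := by rw [hhP]; positivity
  have hk0 : 0 ≤ hk := by rw [hhk]; positivity
  have hs0 : (0:ℝ) ∈ Icc (0:ℝ) s := ⟨le_rfl, hs.1⟩
  have hss : s ∈ Icc (0:ℝ) s := ⟨hs.1, le_rfl⟩
  have hw2 : ∀ t ∈ Icc (0:ℝ) s, M.w (γ t) ≤ 2 := by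
    intro t ht
    have := (abs_le.1 (hq t ht).1).2
    linarith
  have hw2p : M.w p ≤ 2 := by
    have := hw2 0 hs0
    rwa [hγ0] at this
  have hHb : ∀ t ∈ Icc (0:ℝ) s, |M.H (γ t)| ≤ c1 := by
    intro t ht
    rw [hc1]
    exact NS_Hb (hw2 t ht) (hw _).1
  have hT : ∀ t ∈ Icc (0:ℝ) s, ∀ a b c, |M.T3 a b c (γ t)| ≤ e :=
    fun t ht => NS_T3 he0 hηe (hq t ht).2.1
  have hdH : ∀ t ∈ Icc (0:ℝ) s, ∀ a, |M.dl a M.H (γ t)| ≤ e :=
    fun t ht => NS_dH he0 hηe (hq t ht).2.2.1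
  have hBB : ∀ t ∈ Icc (0:ℝ) s, ∀ a b, |M.B a b (γ t) - M.H (γ t) * M.B2 a b (γ t)| ≤ e :=
    fun t ht a b => ((hq t ht).2.2.2 a b).trans hee
  have hB2 : ∀ t ∈ Icc (0:ℝ) s, ∀ a b, |M.B2 a b (γ t)| ≤ 2 :=
    fun t ht => NS_B2 (hw2 t ht) (hw _).2
  have hc1p : |M.H p| ≤ c1 := by
    have := hHb 0 hs0
    rwa [hγ0] at this
  have hdHp : ∀ a, |M.dl a M.H p| ≤ e := by
    have := hdH 0 hs0
    rwa [hγ0] at this
  obtain ⟨pA, pB, pC⟩ := NS_path (M := M) (p := p) (γ := γ) (s := s) (L := Λ) (e := e) (c1 := c1)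
    hs hc hγ0 hΛ0 he0 hvel hT hdH hBB hB2 hc1p
  have eA : (n + 1) * e * Λ = hh * e := by rw [hhh]; ring
  have eB : (n + 1) * (c1 * e + 2 * (e + 2 * ((n + 1) * e * Λ))) * Λ = hP * e := by
    rw [hhP, hhh]; ring
  have eC : (n + 1) * ((n + 1) * (c1 * e + 2 * (e + 2 * ((n + 1) * e * Λ))) * Λ) * Λ = hk * e := by
    rw [eB, hhk]; ring
  have pA' := pA s hss
  have pB' := pB s hss
  have pC' := pC s hss
  rw [eA] at pA'
  rw [eB] at pB'
  rw [eC] at pC'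
  have hVq : ∀ a, |∑ b, NS_P M p a b p * M.X (γ s) b + M.H p * M.N (γ s) a| ≤ (hk + c1) * e := by
    intro a
    have h1 := pC' a
    have h2 := NS_V0 hS hG hc1p hdHp a
    have h3 := abs_add_le ((∑ b, NS_P M p a b p * M.X (γ s) b + M.H p * M.N (γ s) a) -
        (∑ b, NS_P M p a b p * M.X p b + M.H p * M.N p a))
        (∑ b, NS_P M p a b p * M.X p b + M.H p * M.N p a)
    rw [sub_add_cancel] at h3
    linarith
  obtain ⟨i2, i6⟩ := NS_alg26 (M := M) (p := p) (q := γ s) (eP := hP * e) (kV := (hk + c1) * e)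
    (by positivity) (by positivity) pB' hVq
  have hBD : ‖M.Bv p (M.X (γ s) - M.X p)‖ ≤ 2 * Λ := by
    refine le_of_sq_le_sq ?_ (by positivity)
    have h1 := hw3 (M.X (γ s) - M.X p)
    have h3 : ‖M.X (γ s) - M.X p‖ ^ 2 ≤ Λ ^ 2 := pow_le_pow_left₀ (norm_nonneg _) hD 2
    have h4 : M.w p * ‖M.X (γ s) - M.X p‖ ^ 2 ≤ 2 * Λ ^ 2 :=
      mul_le_mul hw2p h3 (sq_nonneg _) two_pos.le
    nlinarith [sq_nonneg Λ]
  have i1 := NS_alg1 (M := M) (p := p) (q := γ s) (k := hk * e) (L := Λ) (by positivity) hΛ0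
    (by
      have h1 := hCe ((n + 1) * hk) t5
      have h2 := min_le_right η 1
      linarith) hHp hw5 hBD pC'
  have hmη : min η 1 ≤ η := min_le_left _ _
  refine ⟨?_, ?_, ?_, ?_, ?_, ?_⟩
  · refine i1.trans ?_
    have := hCe ((10 * Λ + 5) * ((n + 1) * hk)) t4
    linarith
  · refine i2.trans ?_
    have := hCe ((n + 1) * ((n + 1) * hP)) t2
    linarith
  · exact (hq s hss).2.2.1.trans hηη
  · exact (hq s hss).1.trans hηη
  · have h1 : M.H (γ s) ^ 2 - M.H p ^ 2 = (M.H (γ s) - M.H p) * (M.H (γ s) + M.H p) := by ring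
    rw [h1, abs_mul]
    have h2 : |M.H (γ s) + M.H p| ≤ 2 * c1 := by
      refine (abs_add_le _ _).trans ?_
      have := hHb s hss
      linarith
    have h3 := mul_le_mul pA' h2 (abs_nonneg _) (by positivity)
    have h4 := hCe (2 * c1 * hh) t1
    linarith
  · refine i6.trans ?_
    have := hCe ((n + 1) * (hk + c1)) t3
    linarith

/-- choice of the constants -/
lemma NS_const (n : ℕ) {Λ η ηH : ℝ} (hΛ0 : 0 ≤ Λ) (hη : 0 < η) (hηH : 0 < ηH) :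
    ∃ e η' c1 hh hP hk C : ℝ, 0 ≤ e ∧ 0 < η' ∧ η' ≤ 1 ∧ η' ≤ ηH ∧ η' ≤ η ∧ η' ≤ e ^ 2 ∧ η' ≤ e ∧
      c1 = 2 * n + 1 ∧ hh = (n + 1) * Λ ∧ hP = (n + 1) * (c1 + 2 * (1 + 2 * hh)) * Λ ∧
      hk = (n + 1) * hP * Λ ∧ (∀ x : ℝ, x ≤ C → x * e ≤ min η 1) ∧
      2 * c1 * hh ≤ C ∧ (n + 1) * ((n + 1) * hP) ≤ C ∧ (n + 1) * (hk + c1) ≤ C ∧
      (10 * Λ + 5) * ((n + 1) * hk) ≤ C ∧ (n + 1) * hk ≤ C := by
  have hn : (0:ℝ) ≤ n := Nat.cast_nonneg n
  obtain ⟨c1, hc1⟩ : ∃ c1 : ℝ, c1 = 2 * n + 1 := ⟨_, rfl⟩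
  obtain ⟨hh, hhh⟩ : ∃ hh : ℝ, hh = (n + 1) * Λ := ⟨_, rfl⟩
  obtain ⟨hP, hhP⟩ : ∃ hP : ℝ, hP = (n + 1) * (c1 + 2 * (1 + 2 * hh)) * Λ := ⟨_, rfl⟩
  obtain ⟨hk, hhk⟩ : ∃ hk : ℝ, hk = (n + 1) * hP * Λ := ⟨_, rfl⟩
  have hc10 : 0 ≤ c1 := by rw [hc1]; positivity
  have hh0 : 0 ≤ hh := by rw [hhh]; positivity
  have hP0 : 0 ≤ hP := by rw [hhP]; positivity
  have hk0 : 0 ≤ hk := by rw [hhk]; positivity
  have t1 : 0 ≤ 2 * c1 * hh := by positivity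
  have t2 : 0 ≤ (n + 1) * ((n + 1) * hP) := by positivity
  have t3 : 0 ≤ (n + 1) * (hk + c1) := by positivity
  have t4 : 0 ≤ (10 * Λ + 5) * ((n + 1) * hk) := by positivity
  have t5 : 0 ≤ (n + 1) * hk := by positivity
  obtain ⟨C, hC⟩ : ∃ C : ℝ, C = 1 + 2 * c1 * hh + (n + 1) * ((n + 1) * hP) + (n + 1) * (hk + c1)
    + (10 * Λ + 5) * ((n + 1) * hk) + (n + 1) * hk := ⟨_, rfl⟩
  have hC1 : 1 ≤ C := by linarith
  have hC0 : 0 < C := by linarith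
  have hm : 0 < min η 1 := lt_min hη one_pos
  obtain ⟨e, he⟩ : ∃ e : ℝ, e = min η 1 / C := ⟨_, rfl⟩
  have he0 : 0 < e := by rw [he]; positivity
  have hCe : C * e = min η 1 := by rw [he]; field_simp
  have heC : e ≤ min η 1 := by
    rw [← hCe]
    have := mul_le_mul_of_nonneg_right hC1 he0.le
    linarith
  have he1 : e ≤ 1 := heC.trans (min_le_right _ _)
  have hee : e ^ 2 ≤ e := by
    have := mul_le_mul_of_nonneg_right he1 he0.le
    rw [sq]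
    linarith
  refine ⟨e, min (min 1 ηH) (min η (e ^ 2)), c1, hh, hP, hk, C, he0.le, ?_, ?_, ?_, ?_, ?_, ?_,
    hc1, hhh, hhP, hhk, ?_, by linarith, by linarith, by linarith, by linarith, by linarith⟩
  · exact lt_min (lt_min one_pos hηH) (lt_min hη (by positivity))
  · exact (min_le_left _ _).trans (min_le_left _ _)
  · exact (min_le_left _ _).trans (min_le_right _ _)
  · exact (min_le_right _ _).trans (min_le_left _ _)
  · exact (min_le_right _ _).trans (min_le_right _ _)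
  · exact ((min_le_right _ _).trans (min_le_right _ _)).trans hee
  · intro x hx
    rw [← hCe]
    exact mul_le_mul_of_nonneg_right hx he0.le

end Hyp

open Hyp

theorem pNS (hPTH : tPTH) (hVEL : tVEL) (hHLB : tHLB) (hGH : tGH) (hHW : tHW) : tNS := by
  intro n R L τ0 η hR hL hτ0 hη
  obtain ⟨ηH, hηH, hHL⟩ := hHLB n
  obtain ⟨Λ, hΛ⟩ : ∃ Λ : ℝ, Λ = L / τ0 := ⟨_, rfl⟩
  have hΛ0 : 0 ≤ Λ := by rw [hΛ]; positivity
  obtain ⟨e, η', c1, hh, hP, hk, C, he0, hη', hη'1, hη'2, hη'3, hη'4, hη'5, hc1, hhh, hhP, hhk,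
    hCe, t1, t2, t3, t4, t5⟩ := NS_const n hΛ0 hη hηH
  obtain ⟨δ, hδ, hpath⟩ := hPTH n R L τ0 η' hR hL hτ0 hη'
  refine ⟨δ, hδ, ?_⟩
  intro S _ _ M c hStd p ι u s γ hι hX hv hu hs hlift hτ
  have hq := hpath S M c hStd p ι u s γ hι hX hv hu hs hlift hτ
  have hvel := (hVEL n S M p ι u s τ0 γ hι hlift hτ0 hτ)
  have hs0 : (0:ℝ) ∈ Icc (0:ℝ) s := ⟨le_rfl, hs.1⟩
  have hss : s ∈ Icc (0:ℝ) s := ⟨hs.1, le_rfl⟩
  have hγ0 : γ 0 = p := hlift.2.1
  have huΛ : ‖u‖ / τ0 ≤ Λ := by rw [hΛ]; exact div_le_div_of_nonneg_right hu hτ0.le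
  have hHp : 19/20 ≤ |M.H p| := by
    refine hHL S M p ?_ fun a b => ?_
    · have := (hq 0 hs0).2.1
      rw [hγ0] at this
      exact this.trans hη'2
    · have := (hq 0 hs0).2.2.2.2 a b
      rw [hγ0] at this
      exact this.trans hη'2
  have hD : ‖M.X (γ s) - M.X p‖ ≤ Λ := by
    have h1 := hvel.2 s hss 0 hs0
    rw [hγ0, sub_zero, abs_of_nonneg hs.1] at h1
    refine h1.trans ?_
    have h2 : ‖u‖ / τ0 * s ≤ Λ * 1 := mul_le_mul huΛ hs.2 hs.1 hΛ0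
    rwa [mul_one] at h2
  obtain ⟨_, _, hw3, _, hw5, _⟩ := hHW n S M p
  refine NS_all (M := M) (Λ := Λ) (e := e) (η' := η') (C := C) hs hlift.1 hγ0 hΛ0 he0 hη'1
    hη'3 hη'4 hη'5 hc1 hhh hhP hhk hCe t1 t2 t3 t4 t5 hStd.1 (fun a => hGH n S M hStd.1 a p)
    (fun q => ⟨(hHW n S M q).1, (hHW n S M q).2.1⟩) hw3 hw5 ?_ hD hHp ?_
  · intro t ht
    obtain ⟨ξ, h1, h2, h3, _⟩ := hvel.1 t ht
    exact ⟨ξ, h1, h2, h3.trans huΛ⟩
  · intro t ht
    exact (hq t ht).2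

end

end Pool.Agent.ShG
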