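import Pool.Agent.ShG.Targets

/-! The paraboloid lemma (target `tPAR`). -/

namespace Pool.Agent.ShG

open scoped BigOperators Topology ContDiff
open Set Filter

noncomputable section

/-- the test function `-b |X - x₀|²` does not touch a strict supersolution from below -/
theorem PAR_bound (hLD : tLD) {n : ℕ} {S : Type} [TopologicalSpace S] (M : Hyp n S)
    (hS : M.Shr) {R Λ b : ℝ} (hR : 0 ≤ R) (hΛ : 0 ≤ Λ) (hb : 0 ≤ b) (x0 : Fs n) (q : S)
    (v : Fs n) (h0 : ‖x0‖ ≤ R) (hy : ‖M.X q - x0‖ ≤ 1) (hv : ‖v‖ ≤ Λ) :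
    -(b * (2 * n + 2 * (R + 1) + 2 * Λ + 1)) ≤
      M.Lap (fun q => -b * ‖M.X q - x0‖ ^ 2) q
        + inner ℝ v (M.gr (fun q => -b * ‖M.X q - x0‖ ^ 2) q) := by
  obtain ⟨hs, hL, -, hg⟩ := hLD n S M hS x0 q
  rw [Hyp.Lap_const_mul (-b) hs, hL]
  have hgr : M.gr (fun q => -b * ‖M.X q - x0‖ ^ 2) q
      = (-b) • M.gr (fun q => ‖M.X q - x0‖ ^ 2) q := by
    ext a
    have h := Hyp.dl_const_mul (-b) hs a
    exact h
  rw [hgr, inner_smul_right]
  have hgn : ‖M.gr (fun q => ‖M.X q - x0‖ ^ 2) q‖ ≤ 2 := by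
    have h1 : ‖M.gr (fun q => ‖M.X q - x0‖ ^ 2) q‖ ^ 2 ≤ 2 ^ 2 := by
      rw [← Hyp.gsq_eq_norm, hg]
      have h2 := sq_nonneg (inner ℝ (M.X q - x0) (M.N q))
      have h3 : ‖M.X q - x0‖ ^ 2 ≤ 1 := by
        have := pow_le_pow_left₀ (norm_nonneg _) hy 2
        simpa using this
      linarith
    exact le_of_sq_le_sq h1 (by norm_num)
  have h1 : inner ℝ v (M.gr (fun q => ‖M.X q - x0‖ ^ 2) q) ≤ Λ * 2 := by
    refine (real_inner_le_norm _ _).trans ?_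
    exact mul_le_mul hv hgn (norm_nonneg _) hΛ
  have hX : ‖M.X q‖ ≤ R + 1 := by
    have : M.X q = (M.X q - x0) + x0 := by abel
    rw [this]
    refine (norm_add_le _ _).trans (by linarith)
  have h2 : -(R + 1) ≤ inner ℝ (M.X q) (M.X q - x0) := by
    have h3 := abs_real_inner_le_norm (M.X q) (M.X q - x0)
    have h4 : ‖M.X q‖ * ‖M.X q - x0‖ ≤ (R + 1) * 1 :=
      mul_le_mul hX hy (norm_nonneg _) (by linarith)
    have h5 := (abs_le.1 (h3.trans h4)).1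
    linarith
  have h6 : b * ((2 * n - 2 * inner ℝ (M.X q) (M.X q - x0)) +
      inner ℝ v (M.gr (fun q => ‖M.X q - x0‖ ^ 2) q)) ≤
      b * (2 * n + 2 * (R + 1) + 2 * Λ + 1) := by
    refine mul_le_mul_of_nonneg_left ?_ hb
    linarith
  linarith

theorem pPAR (hLD : tLD) (hSGE : tSGE) : tPAR := by
  intro n R Λ hR hΛ
  have hC : 0 < 2 * (n : ℝ) + 2 * (R + 1) + 2 * Λ + 1 := by positivity
  refine ⟨1 / (8 * (2 * (n : ℝ) + 2 * (R + 1) + 2 * Λ + 1)), by positivity, ?_⟩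
  set C : ℝ := 2 * (n : ℝ) + 2 * (R + 1) + 2 * Λ + 1 with hCdef
  intro S _ _ M hS p ι g σ hN hXp V Y θ r hθ hr hr16 hV hbd hcont
  have hsec : IsSec M.X M.N p (Metric.ball 0 (1 / 8)) ι g σ := hN.1
  set b : ℝ := θ / (2 * C) with hbdef
  have hb0 : 0 < b := by positivity
  have hbC : b * C = θ / 2 := by
    rw [hbdef]; field_simp
  have hsub : Metric.ball (0 : Es n) r ⊆ Metric.ball 0 (1 / 8) :=
    Metric.ball_subset_ball (by linarith)
  have h00 : (0 : Es n) ∈ Metric.ball (0 : Es n) (1 / 8) := Metric.mem_ball_self (by norm_num)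
  -- no touching
  have key : ∀ u ∈ Metric.ball (0 : Es n) r,
      ¬ (∀ᶠ q' in 𝓝 (σ u), -b * ‖M.X q' - M.X p‖ ^ 2 - -b * ‖M.X (σ u) - M.X p‖ ^ 2
        ≤ Y q' - Y (σ u)) := by
    intro u hu hT
    have h1 := hV (σ u) ⟨u, hu, rfl⟩ (fun q => -b * ‖M.X q - M.X p‖ ^ 2)
      ((hLD n S M hS (M.X p) (σ u)).1.const_mul (-b)) hT
    have hge := hSGE n S M p ι g σ hN u (hsub hu) 0 h00
    have hun : ‖u‖ < r := by simpa using hu
    have hy : ‖M.X (σ u) - M.X p‖ ≤ 1 := by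
      have h3 := hge.2.1
      rw [hsec.base, sub_zero] at h3
      linarith
    have h2 := PAR_bound hLD M hS hR hΛ hb0.le (M.X p) (σ u) (V (σ u)) hXp hy
      (hbd (σ u) ⟨u, hu, rfl⟩).1
    rw [← hCdef, hbC] at h2
    linarith
  -- minimisation
  have hcb : Metric.closedBall (0 : Es n) (r / 2) ⊆ Metric.ball 0 r :=
    Metric.closedBall_subset_ball (by linarith)
  have hcD : ContinuousOn (fun u => ‖M.X (σ u) - M.X p‖ ^ 2) (Metric.ball (0 : Es n) r) :=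
    (((M.contX.comp_continuousOn hsec.cont).sub continuousOn_const).norm.pow 2).mono hsub
  have hcF : ContinuousOn (fun u => Y (σ u) + b * ‖M.X (σ u) - M.X p‖ ^ 2)
      (Metric.closedBall (0 : Es n) (r / 2)) :=
    (hcont.add (continuousOn_const.mul hcD)).mono hcb
  obtain ⟨u0, hu0, hmin⟩ := (isCompact_closedBall (0 : Es n) (r / 2)).exists_isMinOn
    ⟨0, Metric.mem_closedBall_self (by linarith)⟩ hcF
  have hu0n : ‖u0‖ ≤ r / 2 := by simpa using hu0
  have hbdry : ‖u0‖ = r / 2 := by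
    by_contra hne
    have hlt : ‖u0‖ < r / 2 := lt_of_le_of_ne hu0n hne
    refine key u0 (hcb hu0) ?_
    have hnb : Metric.ball (0 : Es n) (r / 2) ∈ 𝓝 u0 :=
      Metric.isOpen_ball.mem_nhds (by simpa using hlt)
    filter_upwards [hsec.image_mem (hsub (hcb hu0)) hnb] with q hq
    obtain ⟨u, hu, rfl⟩ := hq
    have h1 := hmin (Metric.ball_subset_closedBall hu)
    simp only [mem_ofPred_eq] at h1
    linarith
  have hp := hmin (show (0 : Es n) ∈ Metric.closedBall (0 : Es n) (r / 2) from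
    Metric.mem_closedBall_self (by linarith))
  simp only [mem_ofPred_eq, hsec.base, sub_self, norm_zero] at hp
  have hY0 : 0 ≤ Y (σ u0) := (hbd (σ u0) ⟨u0, hcb hu0, rfl⟩).2
  have hge := (hSGE n S M p ι g σ hN u0 (hsub (hcb hu0)) 0 h00).1
  rw [hsec.base, sub_zero, hbdry] at hge
  have hsq : (r / 2) ^ 2 ≤ ‖M.X (σ u0) - M.X p‖ ^ 2 :=
    pow_le_pow_left₀ (by linarith) hge 2
  have h1 : b * (r / 2) ^ 2 ≤ b * ‖M.X (σ u0) - M.X p‖ ^ 2 :=
    mul_le_mul_of_nonneg_left hsq hb0.le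
  have h2 : 1 / (8 * C) * θ * r ^ 2 = b * (r / 2) ^ 2 := by
    rw [hbdef]; field_simp; ring
  rw [h2]
  simp at hp
  linarith

end

end Pool.Agent.ShG
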