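import Pool.Agent.ShG.Targets
import Pool.Agent.Bous.Ode

/-!
# ShG-PRF: global existence of the profile curve

The state is `(γ, φ) ∈ ℂ × ℝ` with `ν = ν0 exp(i φ)`; the vector field is truncated in `γ`.
-/

noncomputable section

open Set Filter Topology Metric
open scoped NNReal

namespace Pool.Agent.ShG

/-- truncation to `[-R, R]` -/
def PRF_c (R x : ℝ) : ℝ := max (-R) (min R x)

theorem PRF_c_eq {R x : ℝ} (h : |x| ≤ R) : PRF_c R x = x := by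
  unfold PRF_c
  rw [abs_le] at h
  rw [min_eq_right h.2, max_eq_right h.1]

theorem PRF_c_abs {R : ℝ} (hR : 0 ≤ R) (x : ℝ) : |PRF_c R x| ≤ R := by
  unfold PRF_c
  rw [abs_le]
  exact ⟨le_max_left _ _, max_le (by linarith) (min_le_left _ _)⟩

theorem PRF_c_lip (R x y : ℝ) : |PRF_c R x - PRF_c R y| ≤ |x - y| := by
  unfold PRF_c
  rw [max_comm (-R), max_comm (-R)]
  refine (abs_max_sub_max_le_abs _ _ _).trans ?_
  have h2 : |min R x - min R y| ≤ |x - y| := by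
    have := abs_min_sub_min_le_max R x R y
    simpa using this
  exact h2

/-- the rotating unit vector -/
def PRF_nu (ν0 : ℂ) (φ : ℝ) : ℂ := ν0 * Complex.exp ((φ : ℂ) * Complex.I)

theorem PRF_nu_norm {ν0 : ℂ} (h : ‖ν0‖ = 1) (φ : ℝ) : ‖PRF_nu ν0 φ‖ = 1 := by
  unfold PRF_nu
  rw [norm_mul, h, Complex.norm_exp_ofReal_mul_I, one_mul]

theorem PRF_nu_deriv (ν0 : ℂ) (φ : ℝ) :
    HasDerivAt (PRF_nu ν0) (Complex.I * PRF_nu ν0 φ) φ := by
  unfold PRF_nu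
  have h1 : HasDerivAt (fun t : ℝ => (t : ℂ) * Complex.I) (1 * Complex.I) φ :=
    (Complex.ofRealCLM.hasDerivAt (x := φ)).mul_const Complex.I
  have h2 := (h1.cexp).const_mul ν0
  have h3 : ν0 * (Complex.exp ((φ : ℂ) * Complex.I) * (1 * Complex.I))
      = Complex.I * (ν0 * Complex.exp ((φ : ℂ) * Complex.I)) := by ring
  rw [h3] at h2
  exact h2

theorem PRF_nu_lip {ν0 : ℂ} (h : ‖ν0‖ = 1) (a b : ℝ) :
    ‖PRF_nu ν0 a - PRF_nu ν0 b‖ ≤ |a - b| := by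
  have := Convex.norm_image_sub_le_of_norm_hasDerivWithin_le (f := PRF_nu ν0)
    (f' := fun φ => Complex.I * PRF_nu ν0 φ) (C := 1) (s := univ) (x := b) (y := a)
    (fun x _ => (PRF_nu_deriv ν0 x).hasDerivWithinAt)
    (fun x _ => by rw [norm_mul, Complex.norm_I, PRF_nu_norm h, one_mul])
    convex_univ (mem_univ _) (mem_univ _)
  rw [one_mul, Real.norm_eq_abs] at this
  exact this

/-- the truncated vector field -/
def PRF_F (ν0 : ℂ) (R : ℝ) (x : ℂ × ℝ) : ℂ × ℝ :=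
  (Complex.I * PRF_nu ν0 x.2,
    PRF_c R x.1.re * (PRF_nu ν0 x.2).re + PRF_c R x.1.im * (PRF_nu ν0 x.2).im)

theorem PRF_prod {R a b u v : ℝ} (hR : 0 ≤ R) (hv : |v| ≤ 1) :
    |PRF_c R a * u - PRF_c R b * v| ≤ R * |u - v| + |a - b| := by
  have h1 : PRF_c R a * u - PRF_c R b * v
      = PRF_c R a * (u - v) + (PRF_c R a - PRF_c R b) * v := by ring
  rw [h1]
  refine (abs_add_le _ _).trans ?_
  rw [abs_mul, abs_mul]
  have h2 := PRF_c_abs hR a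
  have h3 := PRF_c_lip R a b
  have h4 : |PRF_c R a| * |u - v| ≤ R * |u - v| := mul_le_mul_of_nonneg_right h2 (abs_nonneg _)
  have h5 : |PRF_c R a - PRF_c R b| * |v| ≤ |a - b| * 1 :=
    mul_le_mul h3 hv (abs_nonneg _) (abs_nonneg _)
  linarith

theorem PRF_F_lip {ν0 : ℂ} (h : ‖ν0‖ = 1) (R : ℝ≥0) :
    LipschitzWith (2 * R + 2) (PRF_F ν0 R) := by
  refine LipschitzWith.of_dist_le_mul fun x y => ?_
  have hd1 : ‖x.1 - y.1‖ ≤ dist x y := by
    rw [Prod.dist_eq, ← dist_eq_norm]; exact le_max_left _ _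
  have hd2 : |x.2 - y.2| ≤ dist x y := by
    rw [Prod.dist_eq, ← Real.dist_eq]; exact le_max_right _ _
  have hR : (0:ℝ) ≤ R := R.2
  have hlip := PRF_nu_lip h x.2 y.2
  have hre : |(PRF_nu ν0 x.2).re - (PRF_nu ν0 y.2).re| ≤ dist x y := by
    rw [← Complex.sub_re]
    exact ((Complex.abs_re_le_norm _).trans hlip).trans hd2
  have him : |(PRF_nu ν0 x.2).im - (PRF_nu ν0 y.2).im| ≤ dist x y := by
    rw [← Complex.sub_im]
    exact ((Complex.abs_im_le_norm _).trans hlip).trans hd2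
  have hxre : |x.1.re - y.1.re| ≤ dist x y := by
    rw [← Complex.sub_re]
    exact (Complex.abs_re_le_norm _).trans hd1
  have hxim : |x.1.im - y.1.im| ≤ dist x y := by
    rw [← Complex.sub_im]
    exact (Complex.abs_im_le_norm _).trans hd1
  have hn := PRF_nu_norm h y.2
  have hv1 : |(PRF_nu ν0 y.2).re| ≤ 1 := (Complex.abs_re_le_norm _).trans hn.le
  have hv2 : |(PRF_nu ν0 y.2).im| ≤ 1 := (Complex.abs_im_le_norm _).trans hn.le
  have hd0 : 0 ≤ dist x y := dist_nonneg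
  rw [Prod.dist_eq]
  refine max_le ?_ ?_
  · rw [dist_eq_norm]
    show ‖Complex.I * PRF_nu ν0 x.2 - Complex.I * PRF_nu ν0 y.2‖ ≤ _
    rw [← mul_sub, norm_mul, Complex.norm_I, one_mul]
    push_cast
    nlinarith [hlip.trans hd2]
  · rw [Real.dist_eq]
    show |(PRF_c R x.1.re * (PRF_nu ν0 x.2).re + PRF_c R x.1.im * (PRF_nu ν0 x.2).im)
      - (PRF_c R y.1.re * (PRF_nu ν0 y.2).re + PRF_c R y.1.im * (PRF_nu ν0 y.2).im)| ≤ _
    have h1 : (PRF_c R x.1.re * (PRF_nu ν0 x.2).re + PRF_c R x.1.im * (PRF_nu ν0 x.2).im)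
      - (PRF_c R y.1.re * (PRF_nu ν0 y.2).re + PRF_c R y.1.im * (PRF_nu ν0 y.2).im)
      = (PRF_c R x.1.re * (PRF_nu ν0 x.2).re - PRF_c R y.1.re * (PRF_nu ν0 y.2).re)
        + (PRF_c R x.1.im * (PRF_nu ν0 x.2).im - PRF_c R y.1.im * (PRF_nu ν0 y.2).im) := by ring
    rw [h1]
    refine (abs_add_le _ _).trans ?_
    have h2 := PRF_prod (a := x.1.re) (b := y.1.re) (u := (PRF_nu ν0 x.2).re) hR hv1
    have h3 := PRF_prod (a := x.1.im) (b := y.1.im) (u := (PRF_nu ν0 x.2).im) hR hv2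
    have h4 : (R : ℝ) * |(PRF_nu ν0 x.2).re - (PRF_nu ν0 y.2).re| ≤ R * dist x y :=
      mul_le_mul_of_nonneg_left hre hR
    have h5 : (R : ℝ) * |(PRF_nu ν0 x.2).im - (PRF_nu ν0 y.2).im| ≤ R * dist x y :=
      mul_le_mul_of_nonneg_left him hR
    push_cast
    nlinarith

theorem PRF_F_bdd {ν0 : ℂ} (h : ‖ν0‖ = 1) (R : ℝ≥0) (x : ℂ × ℝ) :
    ‖PRF_F ν0 R x‖ ≤ ((2 * R + 1 : ℝ≥0) : ℝ) := by
  have hR : (0:ℝ) ≤ R := R.2
  have hn := PRF_nu_norm h x.2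
  have hv1 : |(PRF_nu ν0 x.2).re| ≤ 1 := (Complex.abs_re_le_norm _).trans hn.le
  have hv2 : |(PRF_nu ν0 x.2).im| ≤ 1 := (Complex.abs_im_le_norm _).trans hn.le
  rw [Prod.norm_def]
  push_cast
  refine max_le ?_ ?_
  · show ‖Complex.I * PRF_nu ν0 x.2‖ ≤ _
    rw [norm_mul, Complex.norm_I, hn]
    linarith
  · show |PRF_c R x.1.re * (PRF_nu ν0 x.2).re + PRF_c R x.1.im * (PRF_nu ν0 x.2).im| ≤ _
    refine (abs_add_le _ _).trans ?_
    rw [abs_mul, abs_mul]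
    have h1 : |PRF_c R x.1.re| * |(PRF_nu ν0 x.2).re| ≤ R * 1 :=
      mul_le_mul (PRF_c_abs hR _) hv1 (abs_nonneg _) hR
    have h2 : |PRF_c R x.1.im| * |(PRF_nu ν0 x.2).im| ≤ R * 1 :=
      mul_le_mul (PRF_c_abs hR _) hv2 (abs_nonneg _) hR
    linarith

/-- growth: the first component of a solution moves with speed one -/
theorem PRF_growth {ν0 : ℂ} (h : ‖ν0‖ = 1) {R : ℝ} {α : ℝ → ℂ × ℝ}
    (hα : ∀ t, HasDerivAt α (PRF_F ν0 R (α t)) t) (t : ℝ) :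
    ‖(α t).1‖ ≤ ‖(α 0).1‖ + |t| := by
  have h1 : ∀ s, HasDerivAt (fun s => (α s).1) (Complex.I * PRF_nu ν0 (α s).2) s :=
    fun s => (hα s).fst
  have h2 := Convex.norm_image_sub_le_of_norm_hasDerivWithin_le (f := fun s => (α s).1)
    (f' := fun s => Complex.I * PRF_nu ν0 (α s).2) (C := 1) (s := univ) (x := 0) (y := t)
    (fun x _ => (h1 x).hasDerivWithinAt)
    (fun x _ => by rw [norm_mul, Complex.norm_I, PRF_nu_norm h, one_mul])
    convex_univ (mem_univ _) (mem_univ _)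
  rw [one_mul, sub_zero, Real.norm_eq_abs] at h2
  have h3 : ‖(α t).1‖ ≤ ‖(α t).1 - (α 0).1‖ + ‖(α 0).1‖ := by
    have := norm_add_le ((α t).1 - (α 0).1) (α 0).1
    rwa [sub_add_cancel] at this
  linarith

/-- the true vector field -/
def PRF_G (ν0 : ℂ) (x : ℂ × ℝ) : ℂ × ℝ :=
  (Complex.I * PRF_nu ν0 x.2, (x.1 * (starRingEnd ℂ) (PRF_nu ν0 x.2)).re)

theorem PRF_F_eq {ν0 : ℂ} {R : ℝ} {x : ℂ × ℝ} (hx : ‖x.1‖ ≤ R) : PRF_F ν0 R x = PRF_G ν0 x := by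
  unfold PRF_F PRF_G
  rw [PRF_c_eq ((Complex.abs_re_le_norm _).trans hx), PRF_c_eq ((Complex.abs_im_le_norm _).trans hx)]
  rw [Complex.mul_re, Complex.conj_re, Complex.conj_im]
  congr 1
  ring

theorem PRF_global {ν0 : ℂ} (h : ‖ν0‖ = 1) (x₀ : ℂ × ℝ) :
    ∃ α : ℝ → ℂ × ℝ, α 0 = x₀ ∧ ∀ t, HasDerivAt α (PRF_G ν0 (α t)) t := by
  have hex : ∀ n : ℕ, ∃ α : ℝ → ℂ × ℝ, α 0 = x₀ ∧
      ∀ t, HasDerivAt α (PRF_F ν0 ((‖x₀.1‖₊ + n : ℝ≥0) : ℝ) (α t)) t := fun n =>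
    Pool.Agent.Bous.exists_solution_global (PRF_F_lip h (‖x₀.1‖₊ + n)) (PRF_F_bdd h _) x₀
  choose α h0 hα using hex
  have hb : ∀ n t, ‖(α n t).1‖ ≤ ‖x₀.1‖ + |t| := by
    intro n t
    have := PRF_growth h (hα n) t
    rwa [h0 n] at this
  have hcast : ∀ n : ℕ, ((‖x₀.1‖₊ + n : ℝ≥0) : ℝ) = ‖x₀.1‖ + n := by
    intro n; push_cast; rfl
  have hG : ∀ n : ℕ, ∀ t ∈ Ioo (-(n : ℝ)) n, HasDerivAt (α n) (PRF_G ν0 (α n t)) t := by
    intro n t ht
    have h1 := hα n t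
    have h2 : |t| < n := abs_lt.mpr ht
    rwa [PRF_F_eq (by rw [hcast]; linarith [hb n t])] at h1
  have huniq : ∀ n m : ℕ, n ≤ m → ∀ t ∈ Ioo (-(n : ℝ)) n, α n t = α m t := by
    intro n m hnm t ht
    have hn : (0 : ℝ) < n := by
      have := ht.1.trans ht.2
      linarith
    have hnm' : (n : ℝ) ≤ m := by exact_mod_cast hnm
    refine ODE_solution_unique_of_mem_Ioo
      (v := fun _ => PRF_F ν0 ((‖x₀.1‖₊ + n : ℝ≥0) : ℝ)) (s := fun _ => univ)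
      (K := 2 * (‖x₀.1‖₊ + n) + 2) (t₀ := 0)
      (fun t _ => (PRF_F_lip h _).lipschitzOnWith) ⟨by linarith, hn⟩
      (fun s hs => ⟨hα n s, trivial⟩)
      (fun s hs => ⟨?_, trivial⟩)
      ((h0 n).trans (h0 m).symm) ht
    have h2 : |s| < n := abs_lt.mpr hs
    have h3 := hG m s ⟨by linarith [hs.1], by linarith [hs.2]⟩
    rwa [← PRF_F_eq (R := ((‖x₀.1‖₊ + n : ℝ≥0) : ℝ)) (by rw [hcast]; linarith [hb m s])] at h3
  set β : ℝ → ℂ × ℝ := fun t => α (⌊|t|⌋₊ + 1) t with hβ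
  refine ⟨β, by simp [hβ, h0], fun t => ?_⟩
  set N : ℕ := ⌊|t|⌋₊ + 3 with hN
  have htN : |t| + 1 < N := by
    have := Nat.lt_floor_add_one |t|
    rw [hN]; push_cast; linarith
  have heq : β =ᶠ[𝓝 t] α N := by
    filter_upwards [ball_mem_nhds t (show (0 : ℝ) < 1 by norm_num)] with s hs
    rw [Metric.mem_ball, Real.dist_eq] at hs
    have hs1 : |s| < |t| + 1 := by
      have := abs_sub_abs_le_abs_sub s t
      linarith
    have hle : ⌊|s|⌋₊ + 1 ≤ N := by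
      have h1 : (⌊|s|⌋₊ : ℝ) ≤ |s| := Nat.floor_le (abs_nonneg s)
      have h2 : (⌊|s|⌋₊ : ℝ) + 1 < N + 1 := by linarith
      have h3 : ⌊|s|⌋₊ + 1 < N + 1 := by exact_mod_cast h2
      omega
    refine huniq _ N hle s ?_
    have := Nat.lt_floor_add_one |s|
    rw [mem_Ioo]
    push_cast
    exact abs_lt.mp this
  have ht' : t ∈ Ioo (-(N : ℝ)) N := abs_lt.mp (by linarith)
  have h1 := hG N t ht'
  rw [← heq.eq_of_nhds] at h1
  exact h1.congr_of_eventuallyEq heq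

/-- **Global existence of the profile curve.** -/
theorem pPRF : tPRF := by
  intro γ0 ν0 h
  obtain ⟨α, hα0, hα⟩ := PRF_global h (γ0, 0)
  refine ⟨fun t => (α t).1, fun t => PRF_nu ν0 (α t).2, ?_, ?_, ?_⟩
  · intro s
    have h1 : HasDerivAt (fun t => (α t).1) (Complex.I * PRF_nu ν0 (α s).2) s := (hα s).fst
    have h2 : HasDerivAt (fun t => (α t).2)
        ((α s).1 * (starRingEnd ℂ) (PRF_nu ν0 (α s).2)).re s := (hα s).snd
    refine ⟨h1, ?_, PRF_nu_norm h _⟩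
    have h3 := (PRF_nu_deriv ν0 (α s).2).scomp s h2
    have h4 : ((α s).1 * (starRingEnd ℂ) (PRF_nu ν0 (α s).2)).re • (Complex.I * PRF_nu ν0 (α s).2)
        = Complex.I * ((((α s).1 * (starRingEnd ℂ) (PRF_nu ν0 (α s).2)).re : ℝ) : ℂ)
          * PRF_nu ν0 (α s).2 := by
      rw [Complex.real_smul]; ring
    rw [h4] at h3
    exact h3
  · show (α 0).1 = γ0
    rw [hα0]
  · show PRF_nu ν0 (α 0).2 = ν0
    rw [hα0]
    simp [PRF_nu]

end Pool.Agent.ShG
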