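import Pool.Agent.ShG.Targets

/-! ShG-PTH: smallness along a lift whose normal stays on the side of `N p`. -/

namespace Pool.Agent.ShG

open scoped BigOperators Topology ContDiff
open Set Filter

theorem pPTH (hVEL : tVEL) (hRCH : tRCH) (hCHN : tCHN) (hSTR : tSTR) : tPTH := by
  intro n R L τ0 η hR hL hτ hη
  have hLt : 0 ≤ L / τ0 := div_nonneg hL hτ.le
  obtain ⟨δS, hδS, hS⟩ := hSTR n (R + L / τ0) η (add_nonneg hR hLt) hη
  obtain ⟨δ, hδ, hC⟩ := hCHN.1 n (⌈40 * (L / τ0)⌉₊ + 1) R δS hR hδS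
  refine ⟨δ, hδ, ?_⟩
  intro S _ _ M c hstd p ι u s γ hι hXp hvp hu hs hlift hpos t ht
  have hw : ∀ q, M.w q ≤ 2 := by
    intro q
    have h1 := hstd.2.2.2 q
    have h2 := hstd.2.2.1
    linarith
  have hlip := (hVEL n S M p ι u s τ0 γ hι hlift hτ hpos).2
  have huL : ‖u‖ / τ0 ≤ L / τ0 := div_le_div_of_nonneg_right hu hτ.le
  have hs0 : 0 ≤ s := hs.1
  have ht0 : 0 ≤ t := ht.1
  have hts : t ≤ s := ht.2
  have ht1 : t ≤ 1 := hts.trans hs.2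
  have hsub : Icc (0:ℝ) t ⊆ Icc (0:ℝ) s := Icc_subset_Icc le_rfl hts
  have hcont : ContinuousOn γ (Icc 0 t) := hlift.1.mono hsub
  have hLip : ∀ a ∈ Icc (0:ℝ) t, ∀ b ∈ Icc (0:ℝ) t,
      ‖M.X (γ a) - M.X (γ b)‖ ≤ (L / τ0) * |a - b| := by
    intro a ha b hb
    exact (hlip a (hsub ha) b (hsub hb)).trans
      (mul_le_mul_of_nonneg_right huL (abs_nonneg _))
  have hk : (L / τ0) * t ≤ ((⌈40 * (L / τ0)⌉₊ + 1 : ℕ) : ℝ) / 40 := by
    have h1 : 40 * (L / τ0) ≤ (⌈40 * (L / τ0)⌉₊ : ℝ) := Nat.le_ceil _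
    have h2 : (L / τ0) * t ≤ (L / τ0) * 1 := mul_le_mul_of_nonneg_left ht1 hLt
    push_cast
    linarith
  have hr := hRCH n S M hw γ t (L / τ0) (⌈40 * (L / τ0)⌉₊ + 1) ht0 (Nat.le_add_left _ _)
    hcont hLip hk
  rw [hlift.2.1] at hr
  have hv : M.vv c (γ t) ≤ δS := hC S M c hstd p (γ t) hXp hr hvp
  have hX : ‖M.X (γ t)‖ ≤ R + L / τ0 := by
    have h1 := hLip t ⟨ht0, le_rfl⟩ 0 ⟨le_rfl, ht0⟩
    rw [hlift.2.1, sub_zero, abs_of_nonneg ht0] at h1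
    have h2 : (L / τ0) * t ≤ (L / τ0) * 1 := mul_le_mul_of_nonneg_left ht1 hLt
    have h3 : ‖M.X (γ t)‖ ≤ ‖M.X (γ t) - M.X p‖ + ‖M.X p‖ := by
      have := norm_add_le (M.X (γ t) - M.X p) (M.X p)
      simpa using this
    linarith
  exact hS S M c hstd (γ t) hX hv

end Pool.Agent.ShG
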