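import Pool.Agent.ShG.Targets

/-! RCH: a path with Lipschitz image is covered by few steps. -/

namespace Pool.Agent.ShG

open scoped BigOperators Topology ContDiff
open Set Filter Asymptotics

noncomputable section

/-- one step -/
lemma RCH_step (hUGC : tUGC) (hLOC : tLOC) {n : ℕ} {S : Type} [TopologicalSpace S] [T2Space S]
    (M : Hyp n S) (hw : ∀ p, M.w p ≤ 2) (γ : ℝ → S) (s L t t' : ℝ)
    (hγ : ContinuousOn γ (Icc 0 s))
    (hL : ∀ t ∈ Icc (0:ℝ) s, ∀ t' ∈ Icc (0:ℝ) s, ‖M.X (γ t) - M.X (γ t')‖ ≤ L * |t - t'|)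
    (ht : 0 ≤ t) (htt : t ≤ t') (hts : t' ≤ s) (h40 : L * (t' - t) ≤ 1 / 40) :
    M.Step (γ t) (γ t') := by
  obtain ⟨ι, g, σ, hN⟩ := hUGC n S M hw (γ t)
  have hsub : Icc t t' ⊆ Icc 0 s := Icc_subset_Icc ht hts
  have hA : IsPreconnected (γ '' Icc t t') := isPreconnected_Icc.image γ (hγ.mono hsub)
  have hp : γ t ∈ γ '' Icc t t' := ⟨t, left_mem_Icc.2 htt, rfl⟩
  have hb : ∀ q ∈ γ '' Icc t t', ‖M.X q - M.X (γ t)‖ ≤ 1 / 40 := by
    rintro q ⟨r, hr, rfl⟩
    refine (hL r (hsub hr) t (hsub (left_mem_Icc.2 htt))).trans ?_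
    rw [abs_of_nonneg (sub_nonneg.2 hr.1)]
    rcases le_total 0 L with h | h
    · exact (mul_le_mul_of_nonneg_left (by linarith [hr.2] : r - t ≤ t' - t) h).trans h40
    · have : L * (r - t) ≤ 0 := mul_nonpos_of_nonpos_of_nonneg h (sub_nonneg.2 hr.1)
      linarith
  obtain ⟨u, hu, hu2, hu3⟩ := hLOC n S M (γ t) ι g σ (1 / 8) (1 / 40) (by norm_num) hN.1 _ hA hp hb
    (γ t') ⟨t', right_mem_Icc.2 htt, rfl⟩
  refine ⟨ι, g, σ, hN, u, ?_, hu3⟩
  rw [mem_ball_zero_iff]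
  have := hb (γ t') ⟨t', right_mem_Icc.2 htt, rfl⟩
  linarith

theorem pRCH (hUGC : tUGC) (hLOC : tLOC) : tRCH := by
  intro n S _ _ M hw γ s L k hs hk hγ hL hk40
  have hk0 : (0 : ℝ) < k := by exact_mod_cast hk
  have key : ∀ j : ℕ, j ≤ k → M.Rch j (γ 0) (γ (j * (s / k))) := by
    intro j
    induction j with
    | zero =>
      intro _
      show γ (((0 : ℕ) : ℝ) * (s / k)) = γ 0
      rw [Nat.cast_zero, zero_mul]
    | succ j ih =>
      intro hj
      refine ⟨γ (j * (s / k)), ih (by omega), ?_⟩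
      have hsk : 0 ≤ s / k := div_nonneg hs hk0.le
      have h1 : ((j + 1 : ℕ) : ℝ) * (s / k) - j * (s / k) = s / k := by push_cast; ring
      refine RCH_step hUGC hLOC M hw γ s L _ _ hγ hL (by positivity) ?_ ?_ ?_
      · linarith
      · calc ((j + 1 : ℕ) : ℝ) * (s / k) ≤ k * (s / k) :=
            mul_le_mul_of_nonneg_right (by exact_mod_cast hj) hsk
          _ = s := by field_simp
      · rw [h1, ← mul_div_assoc, div_le_iff₀ hk0]
        linarith
  have h := key k le_rfl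
  have hks : (k : ℝ) * (s / k) = s := by field_simp
  rwa [hks] at h

end

end Pool.Agent.ShG
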