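import Pool.Agent.ShG.TargetsX

/-! Target `tRED` of the project ShG (helper92). -/

namespace Pool.Agent.ShG

open scoped BigOperators Topology ContDiff Manifold
open Set Filter Hyp

noncomputable section

/-- the orthogonal complement of the range is the line of the normal -/
lemma RED_line {n : ℕ} (A : Es n →ₗ[ℝ] Fs n) (ν : Fs n) (hA : Function.Injective A)
    (hν : ‖ν‖ = 1) (h : ∀ v, inner ℝ (A v) ν = (0:ℝ)) :
    (LinearMap.range A)ᗮ = Submodule.span ℝ {ν} := by
  have hν0 : ν ≠ 0 := by
    intro h0
    rw [h0] at hν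
    simp at hν
  have hfr : Module.finrank ℝ (LinearMap.range A) = n := by
    rw [LinearMap.finrank_range_of_inj hA]
    simp
  have hfo : Module.finrank ℝ (LinearMap.range A)ᗮ = 1 := by
    have := Submodule.finrank_add_finrank_orthogonal (LinearMap.range A)
    rw [hfr] at this
    simp at this
    omega
  symm
  refine Submodule.eq_of_le_of_finrank_eq ?_ ?_
  · rw [Submodule.span_singleton_le_iff_mem, Submodule.mem_orthogonal]
    rintro _ ⟨u, rfl⟩
    exact h u
  · rw [hfo, finrank_span_singleton hν0]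

lemma RED_nor {n : ℕ} (x : Es n → Fs n) (u : Es n) (ν : Fs n)
    (hA : Function.Injective (fderiv ℝ x u)) (hν : ‖ν‖ = 1)
    (h : ∀ v, inner ℝ (fderiv ℝ x u v) ν = (0:ℝ)) (y : Fs n) :
    nor x u y = (inner ℝ ν y : ℝ) • ν := by
  have h1 : (LinearMap.range (fderiv ℝ x u).toLinearMap)ᗮ = Submodule.span ℝ {ν} :=
    RED_line (fderiv ℝ x u).toLinearMap ν hA hν h
  unfold nor
  have h2 : ∀ (K L : Submodule ℝ (Fs n)) [K.HasOrthogonalProjection] [L.HasOrthogonalProjection],
      K = L → K.starProjection y = L.starProjection y := by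
    intro K L _ _ hKL
    subst hKL
    rfl
  rw [h2 _ _ h1]
  exact Submodule.starProjection_unit_singleton ℝ hν y

theorem pRED (hCOV : tCOV) (hMAN : tMAN) (hCM1 : tCM1) (hCM2 : tCM2) : tRED := by
  intro n c S _ _ _ _ _ X hsh hprop hII
  obtain ⟨S', i1, i2, i3, M, π, hπ, hsurj, hX, hN, hs⟩ :=
    hCOV n S X hsh.smooth hsh.immersion hprop
  have hmain : ∀ q : S', M.H q = - inner ℝ (M.X q) (M.N q) ∧ M.w q < 1 + c := by
    intro q
    set u : Es n := chartAt (EuclideanSpace ℝ (Fin n)) (π q) (π q) with hu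
    set x : Es n → Fs n := locX X (π q) with hx
    have hut : u ∈ (chartAt (EuclideanSpace ℝ (Fin n)) (π q)).target :=
      mem_chart_target (EuclideanSpace ℝ (Fin n)) (π q)
    have hinj : Function.Injective (fderiv ℝ x u) :=
      ((hMAN n S X hsh.smooth hsh.immersion (π q)).2 u hut).1
    have hNq : ∀ v, inner ℝ (fderiv ℝ x u v) (M.N q) = (0:ℝ) := hN q
    have hnor := RED_nor x u (M.N q) hinj (M.unit q) hNq
    have hNN : inner ℝ (M.N q) (M.N q) = (1 : ℝ) := M.NN q
    set hh : Fin n → Fin n → ℝ := fun i j => ∑ a, ∑ b, M.B a b q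
      * (fderiv ℝ x u).toLinearMap (EuclideanSpace.single i 1) a
      * (fderiv ℝ x u).toLinearMap (EuclideanSpace.single j 1) b with hhh
    have hcm1 : ∀ i j, inner ℝ (M.N q) (fderiv ℝ (fderiv ℝ x) u (EuclideanSpace.single i 1)
        (EuclideanSpace.single j 1)) = hh i j := by
      intro i j
      have h1 := hCM1 n S X hsh.smooth hsh.immersion S' M π hπ hX hN hs q
        (EuclideanSpace.single i 1) (EuclideanSpace.single j 1)
      rw [h1, inner_sum]
      simp only [hhh, Bv_apply]
      rw [Finset.sum_comm]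
      refine Finset.sum_congr rfl fun b _ => ?_
      rw [Finset.sum_mul]
      refine Finset.sum_congr rfl fun a _ => ?_
      rw [B_symm b a q]
      rfl
    have hsec : ∀ i j, secF x u i j = hh i j • M.N q := by
      intro i j
      unfold secF
      rw [hnor, hcm1]
    have hin : ∀ i j k l, inner ℝ (secF x u i j) (secF x u k l) = hh i j * hh k l := by
      intro i j k l
      rw [hsec, hsec, inner_smul_left, inner_smul_right, hNN]
      simp
    obtain ⟨hm, hw⟩ := hCM2 n (fderiv ℝ x u).toLinearMap (M.N q) (fun a b => M.B a b q) hinj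
      (M.unit q) hNq (fun a b => B_symm a b q) (fun a => B_N_right a q) (gram x u) hh
      (fun i j => rfl) (fun i j => rfl)
    have hw' : normIIsq x u = M.w q := by
      unfold normIIsq
      simp_rw [hin]
      exact hw
    have hm' : meanCurv x u = M.H q • M.N q := by
      unfold meanCurv
      simp_rw [hsec, smul_smul, ← Finset.sum_smul]
      rw [hm]
      rfl
    constructor
    · have h1 := hsh.shrinker (π q)
      rw [← hx, ← hu, hm', hnor, ← neg_smul] at h1
      have h2 := congrArg (fun y => inner ℝ (M.N q) y) h1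
      simp only [inner_smul_right, hNN, mul_one] at h2
      rw [h2, hX q, real_inner_comm]
    · have h1 := hII (π q)
      rw [← hx, ← hu, hw'] at h1
      exact h1
  refine ⟨S', i1, i2, i3, M, fun q => (hmain q).1, fun q => (hmain q).2, ?_⟩
  ext y
  constructor
  · rintro ⟨q, rfl⟩
    exact ⟨π q, (hX q).symm⟩
  · rintro ⟨p, rfl⟩
    obtain ⟨q, rfl⟩ := hsurj p
    exact ⟨q, hX q⟩

end

end Pool.Agent.ShG
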