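import Pool.Agent.ShG.Targets

/-! Rigidity: `F = w/H²` is constant and `𝒮 = 0` if `|H| > 9/20` everywhere. -/

namespace Pool.Agent.ShG

open scoped BigOperators Topology ContDiff
open Set Filter

noncomputable section

open Hyp

section

variable {n : ℕ} {S : Type} [TopologicalSpace S] {M : Hyp n S}

lemma RIG_LL_sub {Z1 Z2 : S → ℝ} {p : S} (h1 : M.Sm Z1 p) (h2 : M.Sm Z2 p) :
    M.LL (fun q => Z1 q - Z2 q) p = M.LL Z1 p - M.LL Z2 p := by
  unfold LL
  rw [Lap_sub h1 h2]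
  have e : ∑ a, M.ze a p * M.dl a (fun q => Z1 q - Z2 q) p
      = ∑ a, M.ze a p * M.dl a Z1 p - ∑ a, M.ze a p * M.dl a Z2 p := by
    rw [← Finset.sum_sub_distrib]
    refine Finset.sum_congr rfl fun a _ => ?_
    rw [dl_sub h1 h2]; ring
  rw [e]; ring

lemma RIG_LL_const_mul {Z : S → ℝ} {p : S} (c : ℝ) (h : M.Sm Z p) :
    M.LL (fun q => c * Z q) p = c * M.LL Z p := by
  unfold LL
  rw [Lap_const_mul c h]
  have e : ∑ a, M.ze a p * M.dl a (fun q => c * Z q) p
      = c * ∑ a, M.ze a p * M.dl a Z p := by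
    rw [Finset.mul_sum]
    refine Finset.sum_congr rfl fun a _ => ?_
    rw [dl_const_mul c h]; ring
  rw [e]; ring

lemma RIG_LL_max {Z : S → ℝ} {p : S} (h : M.Sm Z p) (hmax : ∀ᶠ q in 𝓝 p, Z q ≤ Z p) :
    M.LL Z p ≤ 0 := by
  obtain ⟨h1, -, h3⟩ := max_Lap h hmax
  unfold LL
  have : ∑ a, M.ze a p * M.dl a Z p = 0 := Finset.sum_eq_zero fun a _ => by rw [h1]; simp
  rw [this]; linarith

lemma RIG_LL_const (c : ℝ) (p : S) : M.LL (fun _ => c) p = 0 := by
  unfold LL
  rw [Lap_const]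
  have : ∑ a, M.ze a p * M.dl a (fun _ => c) p = 0 :=
    Finset.sum_eq_zero fun a _ => by rw [dl_const]; simp
  rw [this]; ring

/-- touching from below -/
lemma RIG_VSup {Y : S → ℝ} {Ω : Set S} (hY : ∀ q ∈ Ω, M.Sm Y q)
    (hLL : ∀ q ∈ Ω, M.LL Y q ≤ 0) :
    M.VSup (fun q => WithLp.toLp 2 (fun a => 2 * M.ze a q)) Y 0 Ω := by
  intro q hq φ hφ hev
  have hs := (hY q hq).sub hφ
  obtain ⟨h1, -, h3⟩ := min_Lap hs (by
    filter_upwards [hev] with q' hq'
    linarith)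
  rw [Lap_sub (hY q hq) hφ] at h3
  have h4 : ∀ a, M.dl a φ q = M.dl a Y q := by
    intro a
    have := h1 a
    rw [dl_sub (hY q hq) hφ] at this
    linarith
  have h5 : inner ℝ (WithLp.toLp 2 (fun a => 2 * M.ze a q) : Fs n) (M.gr φ q)
      = 2 * ∑ a, M.ze a q * M.dl a Y q := by
    rw [inner_sum, Finset.mul_sum]
    refine Finset.sum_congr rfl fun a _ => ?_
    rw [← h4 a]
    change 2 * M.ze a q * M.gr φ q a = 2 * (M.ze a q * M.gr φ q a)
    ring
  have h6 := hLL q hq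
  unfold LL at h6
  rw [h5]
  linarith

lemma RIG_V_norm {q : S} {L : ℝ} (hL : 0 ≤ L) (h : ∀ a, |M.ze a q| ≤ L) :
    ‖(WithLp.toLp 2 (fun a => 2 * M.ze a q) : Fs n)‖ ≤ 2 * (n + 1) * L := by
  have h0 : (0:ℝ) ≤ n := Nat.cast_nonneg n
  refine le_of_sq_le_sq ?_ (by positivity)
  rw [EuclideanSpace.norm_sq_eq]
  calc ∑ i : Fin (n + 1), ‖(WithLp.toLp 2 (fun a => 2 * M.ze a q) : Fs n) i‖ ^ 2
      ≤ ∑ i : Fin (n + 1), (2 * L) ^ 2 := by
        refine Finset.sum_le_sum fun a _ => ?_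
        change ‖2 * M.ze a q‖ ^ 2 ≤ (2 * L) ^ 2
        rw [Real.norm_eq_abs, abs_mul, abs_of_pos (by norm_num : (0:ℝ) < 2)]
        exact pow_le_pow_left₀ (by positivity) (by linarith [h a]) 2
    _ = (n + 1) * (2 * L) ^ 2 := by simp
    _ ≤ (2 * (n + 1) * L) ^ 2 := by nlinarith [sq_nonneg L, mul_nonneg h0 (sq_nonneg L)]

end

/-- the step by the maximum principle -/
lemma RIG_max (hLLR : tLLR) (hLLF : tLLF) (hLX : tLX) (hHW : tHW) (n : ℕ) (hn : 1 ≤ n)
    (S : Type) [TopologicalSpace S] [T2Space S] [Nonempty S] (M : Hyp n S) (c : ℝ)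
    (hM : M.Std c) (hH : ∀ p, 9 / 20 < |M.H p|) : ∃ p0, ∀ q, M.Fq q ≤ M.Fq p0 := by
  obtain ⟨hShr, hc0, hc1, hw⟩ := hM
  have hn1 : (1:ℝ) ≤ n := by exact_mod_cast hn
  have hw' : ∀ p, M.w p ≤ 101 / 100 := fun p => by linarith [hw p]
  have hw0 : ∀ p, 0 ≤ M.w p := fun p => M.w_nonneg p
  have hH0 : ∀ p, M.H p ≠ 0 := fun p h => by
    have := hH p; rw [h] at this; norm_num at this
  have hHpos : ∀ p, 0 < |M.H p| := fun p => abs_pos.mpr (hH0 p)
  have hH2 : ∀ p, 81 / 400 ≤ M.H p ^ 2 := fun p => by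
    rw [← sq_abs]; nlinarith [hH p]
  have hHn : ∀ p, |M.H p| ≤ 2 * n := by
    intro p
    refine abs_le_of_sq_le_sq ?_ (by linarith)
    have h1 := (hHW n S M p).1
    nlinarith [hw' p, hw0 p]
  have hF5 : ∀ p, M.Fq p ≤ 5 := by
    intro p
    unfold Fq
    rw [div_le_iff₀ (by have := hH2 p; positivity)]
    linarith [hH2 p, hw' p]
  have hF0 : ∀ p, 0 ≤ M.Fq p := fun p => div_nonneg (hw0 p) (sq_nonneg _)
  have hrho0 : ∀ p, 0 ≤ M.rho p := fun p => sq_nonneg _
  have hrc : Continuous M.rho := by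
    unfold Hyp.rho
    exact (M.proper.toContinuous.norm).pow 2
  have hFs : ∀ p, M.Sm M.Fq p := fun p => Sm.Fq (hH0 p)
  have hFc : Continuous M.Fq := continuous_iff_continuousAt.2 fun p => (hFs p).continuousAt
  set f : S → ℝ := fun q => 1 + M.rho q with hf
  have hfs : ∀ p, M.Sm f p := fun p => (Sm.const M 1 p).add (Sm.rho M p)
  set g : S → ℝ := fun q => f q / |M.H q| with hg
  have hgs : ∀ p, M.Sm g p := fun p => (hLLR n S M hShr f p (hH0 p) (hfs p)).1
  have hgc : Continuous g := continuous_iff_continuousAt.2 fun p => (hgs p).continuousAt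
  have hg0 : ∀ p, 0 ≤ g p := fun p => div_nonneg (by have := hrho0 p; simp only [hf]; linarith)
    (abs_nonneg _)
  have hgn : ∀ p, (1 + M.rho p) / (2 * n) ≤ g p := by
    intro p
    exact div_le_div_of_nonneg_left (by linarith [hrho0 p]) (hHpos p) (hHn p)
  have hLg : ∀ p, 2 * n + 1 ≤ M.rho p → M.LL g p < 0 := by
    intro p hp
    rw [hg, (hLLR n S M hShr f p (hH0 p) (hfs p)).2.1]
    have h1 : M.Lap f p = 2 * n - 2 * M.rho p := by
      rw [hf, Lap_add (Sm.const M 1 p) (Sm.rho M p), Lap_const, (hLX n S M hShr).2.2.1]; ring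
    rw [h1]
    refine div_neg_of_neg_of_pos ?_ (hHpos p)
    simp only [hf]
    have h2 : (M.w p - 1) * (1 + M.rho p) ≤ 1 / 100 * (1 + M.rho p) :=
      mul_le_mul_of_nonneg_right (by linarith [hw' p]) (by linarith [hrho0 p])
    nlinarith
  -- for each ε there is a maximum point
  have hε : ∀ ε : ℝ, 0 < ε → ∃ p, M.rho p < 2 * n + 1 ∧
      ∀ q, M.Fq q - ε * g q ≤ M.Fq p - ε * g p := by
    intro ε he
    obtain ⟨p1⟩ := (inferInstance : Nonempty S)
    set G : S → ℝ := fun q => M.Fq q - ε * g q with hG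
    have hGc : Continuous G := hFc.sub (continuous_const.mul hgc)
    obtain ⟨r, hr1, hr2⟩ : ∃ r : ℝ, M.rho p1 ≤ r ∧ ∀ q, r < M.rho q → G q ≤ G p1 := by
      refine ⟨max (M.rho p1) (2 * n * (5 - G p1) / ε), le_max_left _ _, fun q hq => ?_⟩
      have h1 : 2 * n * (5 - G p1) / ε < M.rho q := lt_of_le_of_lt (le_max_right _ _) hq
      rw [div_lt_iff₀ he] at h1
      have h2 := hgn q
      rw [div_le_iff₀ (by linarith)] at h2
      have h3 : (5 - G p1) ≤ ε * g q := by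
        have h4 : 2 * n * (5 - G p1) ≤ 2 * n * (ε * g q) := by nlinarith
        exact le_of_mul_le_mul_left h4 (by linarith)
      simp only [hG] at h3 ⊢
      linarith [hF5 q]
    obtain ⟨p, hp1, hp2⟩ := (M.isCompact_rho r).exists_isMaxOn ⟨p1, hr1⟩ hGc.continuousOn
    have hglob : ∀ q, G q ≤ G p := by
      intro q
      rcases le_or_gt (M.rho q) r with h | h
      · exact hp2 h
      · exact (hr2 q h).trans (hp2 (show M.rho p1 ≤ r from hr1))
    refine ⟨p, ?_, hglob⟩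
    by_contra hcon
    push Not at hcon
    have h1 := RIG_LL_max (M := M) (Z := G) (p := p) ((hFs p).sub ((hgs p).const_mul ε))
      (Filter.Eventually.of_forall hglob)
    rw [hG, RIG_LL_sub (hFs p) ((hgs p).const_mul ε), RIG_LL_const_mul ε (hgs p),
      (hLLF n S M hShr p (hH0 p)).1] at h1
    have h2 := hLg p hcon
    have h3 := M.ssq_nonneg p
    have h4 : ε * M.LL g p < 0 := mul_neg_of_pos_of_neg he h2
    linarith
  obtain ⟨p1, hp1, -⟩ := hε 1 one_pos
  obtain ⟨p0, hp01, hp02⟩ := (M.isCompact_rho (2 * n + 1)).exists_isMaxOn ⟨p1, hp1.le⟩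
    hFc.continuousOn
  refine ⟨p0, fun q => ?_⟩
  refine le_of_forall_pos_le_add fun δ hδ => ?_
  have hgq : 0 < g q + 1 := by linarith [hg0 q]
  obtain ⟨p, hp, hmax⟩ := hε (δ / (g q + 1)) (by positivity)
  have h1 := hmax q
  have h2 : M.Fq p ≤ M.Fq p0 := hp02 (show M.rho p ≤ 2 * n + 1 from hp.le)
  have h3 : 0 ≤ δ / (g q + 1) * g p := mul_nonneg (by positivity) (hg0 p)
  have h4 : δ / (g q + 1) * g q ≤ δ := by
    rw [div_mul_eq_mul_div, div_le_iff₀ hgq]
    nlinarith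
  linarith

theorem pRIG (hLLR : tLLR) (hLLF : tLLF) (hHARN : tHARN) (hBDS : tBDS) (hUGC : tUGC)
    (hLX : tLX) (hHW : tHW) (hSGE : tSGE) : tRIG := by
  intro n hn S _ _ _ M c hM hH
  obtain ⟨p0, hp0⟩ := RIG_max hLLR hLLF hLX hHW n hn S M c hM hH
  obtain ⟨hShr, hc0, hc1, hw⟩ := hM
  have hw2 : ∀ p, M.w p ≤ 2 := fun p => by linarith [hw p]
  have hH0 : ∀ p, M.H p ≠ 0 := fun p h => by
    have := hH p; rw [h] at this; norm_num at this
  have hFs : ∀ p, M.Sm M.Fq p := fun p => Sm.Fq (hH0 p)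
  have hFc : Continuous M.Fq := continuous_iff_continuousAt.2 fun p => (hFs p).continuousAt
  set Y : S → ℝ := fun q => M.Fq p0 - M.Fq q with hY
  have hYs : ∀ p, M.Sm Y p := fun p => (Sm.const M _ p).sub (hFs p)
  have hYc : Continuous Y := continuous_const.sub hFc
  have hY0 : ∀ p, 0 ≤ Y p := fun p => sub_nonneg.2 (hp0 p)
  have hYL : ∀ p, M.LL Y p ≤ 0 := by
    intro p
    rw [hY, RIG_LL_sub (Sm.const M _ p) (hFs p), RIG_LL_const, (hLLF n S M hShr p (hH0 p)).1]
    have := M.ssq_nonneg p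
    linarith
  have hgY : ∀ p, M.gsq Y p = M.gsq M.Fq p := by
    intro p
    unfold gsq
    refine Finset.sum_congr rfl fun a _ => ?_
    rw [hY, dl_sub (Sm.const M _ p) (hFs p), dl_const]; ring
  have hZcl : IsClosed {q | Y q = 0} := isClosed_eq hYc continuous_const
  have hZop : IsOpen {q | Y q = 0} := by
    rw [isOpen_iff_mem_nhds]
    intro p hp
    have hp' : Y p = 0 := hp
    obtain ⟨ι, g, σ, hN⟩ := hUGC n S M hw2 p
    have hsec := hN.1
    obtain ⟨L1, hL1, hB⟩ := hBDS n (‖M.X p‖ + 1) (by positivity)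
    have hXb : ∀ u ∈ Metric.ball (0 : Es n) (1 / 8), ‖M.X (σ u)‖ ≤ ‖M.X p‖ + 1 := by
      intro u hu
      have h1 := (hSGE n S M p ι g σ hN u hu 0 hsec.mem0).2.1
      rw [hsec.base, sub_zero] at h1
      have h2 : ‖u‖ < 1 / 8 := by simpa using hu
      have h3 := norm_le_norm_add_norm_sub' (M.X (σ u)) (M.X p)
      linarith
    have hBu : ∀ u ∈ Metric.ball (0 : Es n) (1 / 8),
        (∀ a, |M.ze a (σ u)| ≤ L1) ∧ M.gsq M.Fq (σ u) ≤ L1 := by
      intro u hu
      have := hB S M hShr hw2 (σ u) (hXb u hu) (by linarith [hH (σ u)])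
      exact ⟨this.1, this.2.2.1⟩
    set Λ : ℝ := 2 * (n + 1) * (L1 + 1) with hΛ
    have hn0 : (0:ℝ) ≤ n := Nat.cast_nonneg n
    have hΛ0 : 0 ≤ Λ := by positivity
    obtain ⟨κ, m, hκ, hκ1, hm, hK⟩ := hHARN n ‖M.X p‖ Λ (norm_nonneg _) hΛ0
    have key := hK S M hShr p ι g σ hN le_rfl
      (fun q => WithLp.toLp 2 (fun a => 2 * M.ze a q)) Y 0
      (RIG_VSup (fun q _ => hYs q) (fun q _ => hYL q))
      (by
        rintro q ⟨u, hu, rfl⟩
        refine ⟨?_, hY0 _⟩
        refine (RIG_V_norm hL1 (hBu u hu).1).trans ?_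
        rw [hΛ]
        exact mul_le_mul_of_nonneg_left (by linarith) (by positivity))
      (by
        intro u hu u' hu'
        have hseg : segment ℝ u' u ⊆ Metric.ball (0 : Es n) (1 / 8) :=
          (convex_ball _ _).segment_subset hu' hu
        have h1 := sec_lip hsec hseg (Z := Y) (L := L1 + 1) (by linarith)
          (fun v hv => by linarith [hN.2 v (hseg hv)]) (fun v hv => hYs _)
          (fun v hv => by
            rw [hgY]
            have := (hBu v (hseg hv)).2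
            nlinarith)
        refine h1.trans ?_
        refine mul_le_mul_of_nonneg_right ?_ (norm_nonneg _)
        rw [hΛ]
        nlinarith [mul_nonneg hn0 hL1])
    have hzero : ∀ u ∈ Metric.ball (0 : Es n) (1 / 32), Y (σ u) = 0 := by
      intro u hu
      by_contra hne
      have hpos : 0 < Y (σ u) := lt_of_le_of_ne (hY0 _) (Ne.symm hne)
      have hy : 0 < min 1 (Y (σ u)) := lt_min one_pos hpos
      have h1 := key u hu 0 (by simp) (min 1 (Y (σ u))) hy (min_le_left _ _) (min_le_right _ _)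
        (by positivity)
      rw [hsec.base, hp'] at h1
      have : 0 < κ * min 1 (Y (σ u)) ^ m := by positivity
      linarith
    refine mem_of_superset (hsec.image_mem0 (Metric.ball_mem_nhds (0 : Es n)
      (by norm_num : (0:ℝ) < 1 / 32))) ?_
    rintro q ⟨u, hu, rfl⟩
    exact hzero u hu
  have hall : ∀ q, Y q = 0 := by
    have h1 : {q | Y q = 0} = univ :=
      IsClopen.eq_univ ⟨hZcl, hZop⟩ ⟨p0, by simp [hY]⟩
    intro q
    have : q ∈ {q | Y q = 0} := by rw [h1]; trivial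
    exact this
  have hF : ∀ q, M.Fq q = M.Fq p0 := fun q => by
    have := hall q
    simp only [hY] at this
    linarith
  refine ⟨fun p => ?_, fun p q => (hF p).trans (hF q).symm⟩
  have h1 := (hLLF n S M hShr p (hH0 p)).1
  have h2 : M.Fq = fun _ => M.Fq p0 := funext hF
  rw [h2, RIG_LL_const] at h1
  linarith

end

end Pool.Agent.ShG
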