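import Pool.Agent.ShG.Targets

/-! Geometry inside a uniform section. -/

namespace Pool.Agent.ShG

open scoped BigOperators Topology ContDiff
open Set Filter Hyp

lemma SGE_grad {n : ℕ} (g : Es n → ℝ) (u : Es n) : ‖fderiv ℝ g u‖ = ‖gradient g u‖ := by
  unfold gradient
  rw [LinearIsometryEquiv.norm_map]

theorem pSGE : tSGE := by
  intro n S _ _ M p ι g σ hN u hu u' hu'
  obtain ⟨hs, hb⟩ := hN
  have hNp : ‖M.N p‖ = 1 := M.unit p
  have hgr : ‖g u - g u'‖ ≤ 1 / 4 * ‖u - u'‖ := by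
    apply Convex.norm_image_sub_le_of_norm_fderiv_le (𝕜 := ℝ) (f := g)
      (s := Metric.ball (0 : Es n) (1 / 8))
    · intro x hx; exact hs.gdiff hx
    · intro x hx
      rw [SGE_grad]
      exact hb x hx
    · exact convex_ball _ _
    · exact hu'
    · exact hu
  have hy : M.X (σ u) - M.X (σ u') = ι (u - u') + (g u - g u') • M.N p := by
    rw [hs.graph u hu, hs.graph u' hu', map_sub, sub_smul]
    abel
  have hperp : inner ℝ (ι (u - u')) (M.N p) = 0 := hs.perp _
  have hNN : inner ℝ (M.N p) (M.N p) = (1 : ℝ) := by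
    rw [real_inner_self_eq_norm_sq, hNp]; norm_num
  have hy2 : ‖M.X (σ u) - M.X (σ u')‖ ^ 2 = ‖u - u'‖ ^ 2 + (g u - g u') ^ 2 := by
    rw [hy, norm_add_sq_real, inner_smul_right, hperp, norm_smul, hNp, ι.norm_map,
      Real.norm_eq_abs, mul_one, sq_abs]
    ring
  have hg2 : (g u - g u') ^ 2 ≤ 1 / 16 * ‖u - u'‖ ^ 2 := by
    rw [Real.norm_eq_abs] at hgr
    have h1 := pow_le_pow_left₀ (abs_nonneg _) hgr 2
    rw [sq_abs] at h1
    linarith
  have hn0 : 0 ≤ ‖M.X (σ u) - M.X (σ u')‖ := norm_nonneg _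
  have hu0 : 0 ≤ ‖u - u'‖ := norm_nonneg _
  refine ⟨?_, ?_, ?_⟩
  · apply le_of_sq_le_sq _ hn0
    rw [hy2]
    nlinarith [sq_nonneg (g u - g u')]
  · apply le_of_sq_le_sq _ (by positivity)
    rw [hy2]
    nlinarith
  · set G := gradient g u with hG
    have hGb : ‖G‖ ≤ 1 / 4 := hb u hu
    set r : ℝ := Real.sqrt (1 + ‖G‖ ^ 2) with hr
    have hr1 : 1 ≤ r := by
      rw [hr]
      apply Real.one_le_sqrt.2
      nlinarith [sq_nonneg ‖G‖]
    have hin : inner ℝ (M.X (σ u) - M.X (σ u')) (M.N (σ u)) =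
        r⁻¹ * ((g u - g u') - inner ℝ (u - u') G) := by
      rw [hs.normal u hu, ← hG, ← hr, inner_smul_right, hy, inner_add_left, inner_sub_right,
        inner_sub_right, hperp, inner_smul_left, inner_smul_left, hNN, ι.inner_map_map]
      have : inner ℝ (M.N p) (ι G) = 0 := by
        rw [real_inner_comm]; exact hs.perp _
      rw [this]
      simp
      left
      ring
    have hab : |(g u - g u') - inner ℝ (u - u') G| ≤ 1 / 2 * ‖u - u'‖ := by
      have h1 : |inner ℝ (u - u') G| ≤ ‖u - u'‖ * ‖G‖ := abs_real_inner_le_norm _ _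
      have h2 : |(g u - g u') - inner ℝ (u - u') G| ≤ |g u - g u'| + |inner ℝ (u - u') G| :=
        abs_sub _ _
      rw [Real.norm_eq_abs] at hgr
      nlinarith
    have hsq : ((g u - g u') - inner ℝ (u - u') G) ^ 2 ≤ 1 / 4 * ‖u - u'‖ ^ 2 := by
      have h1 := pow_le_pow_left₀ (abs_nonneg _) hab 2
      rw [sq_abs] at h1
      linarith
    rw [hin, mul_pow]
    have hr2 : (r⁻¹) ^ 2 ≤ 1 := by
      have : r⁻¹ ≤ 1 := inv_le_one_of_one_le₀ hr1
      have h0 : 0 ≤ r⁻¹ := by positivity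
      nlinarith
    have h3 := mul_le_mul hr2 hsq (sq_nonneg _) (by norm_num)
    rw [hy2]
    nlinarith [sq_nonneg (g u - g u')]

end Pool.Agent.ShG
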