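import Pool.Agent.ShG.Targets

/-! # `tSMO`: the solutions of the profile system are smooth -/

namespace Pool.Agent.ShG

open scoped BigOperators Topology ContDiff
open Set Filter

noncomputable section

/-- all finite orders of smoothness, by induction -/
theorem SMO_nat (γ ν : ℝ → ℂ) (h : Prof γ ν) (k : ℕ) :
    ContDiff ℝ (k : WithTop ℕ∞) γ ∧ ContDiff ℝ (k : WithTop ℕ∞) ν := by
  have hγd : Differentiable ℝ γ := fun s => (h s).1.differentiableAt
  have hνd : Differentiable ℝ ν := fun s => (h s).2.1.differentiableAt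
  have hγ' : deriv γ = fun s => Complex.I * ν s := funext fun s => (h s).1.deriv
  have hν' : deriv ν = fun s =>
      Complex.I * ((γ s * (starRingEnd ℂ) (ν s)).re : ℂ) * ν s :=
    funext fun s => (h s).2.1.deriv
  induction k with
  | zero =>
    refine ⟨?_, ?_⟩
    · exact contDiff_zero.2 hγd.continuous
    · exact contDiff_zero.2 hνd.continuous
  | succ k ih =>
    obtain ⟨h1, h2⟩ := ih
    have hconj : ContDiff ℝ (k : WithTop ℕ∞) (fun s => (starRingEnd ℂ) (ν s)) :=
      (Complex.conjCLE.contDiff).comp h2
    have hre : ContDiff ℝ (k : WithTop ℕ∞)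
        (fun s => ((γ s * (starRingEnd ℂ) (ν s)).re : ℂ)) :=
      (Complex.ofRealCLM.contDiff).comp ((Complex.reCLM.contDiff).comp (h1.mul hconj))
    refine ⟨?_, ?_⟩
    · push_cast
      rw [contDiff_succ_iff_deriv]
      refine ⟨hγd, ?_, ?_⟩
      · intro hk
        exact absurd hk (by exact WithTop.natCast_ne_top k)
      · rw [hγ']
        exact contDiff_const.mul h2
    · push_cast
      rw [contDiff_succ_iff_deriv]
      refine ⟨hνd, ?_, ?_⟩
      · intro hk
        exact absurd hk (by exact WithTop.natCast_ne_top k)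
      · rw [hν']
        exact (contDiff_const.mul hre).mul h2

/-- solutions of `Prof` are smooth -/
theorem pSMO : tSMO := by
  intro γ ν h
  exact ⟨contDiff_infty.2 fun k => (SMO_nat γ ν h k).1,
    contDiff_infty.2 fun k => (SMO_nat γ ν h k).2⟩

end

end Pool.Agent.ShG
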