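import Pool.Agent.ShG.Targets

/-! The auxiliary function near the maximum point (target `tSS1`). -/

namespace Pool.Agent.ShG

open scoped BigOperators Topology ContDiff
open Set Filter

noncomputable section

/-- the exponential error beats the power -/
theorem SS1_exp (C κ : ℝ) (hC : 0 < C) (hκ : 0 < κ) (m : ℕ) :
    ∃ r0 : ℝ, ∀ r : ℝ, r0 ≤ r → 1 ≤ r → C * Real.exp (-r / 8) ≤ κ * ((r ^ 40)⁻¹) ^ m := by
  have h1 := Real.tendsto_pow_mul_exp_neg_atTop_nhds_zero (40 * m)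
  have h2 : Tendsto (fun r : ℝ => r / 8) atTop atTop :=
    tendsto_id.atTop_div_const (by norm_num)
  have h3 := h1.comp h2
  have h4 : (0 : ℝ) < κ / (C * 8 ^ (40 * m)) := by positivity
  have h5 := h3.eventually (gt_mem_nhds h4)
  obtain ⟨r0, hr0⟩ := eventually_atTop.1 h5
  refine ⟨r0, fun r hr h1r => ?_⟩
  have h6 := hr0 r hr
  simp only [Function.comp_apply] at h6
  have hrpos : (0 : ℝ) < r := by linarith
  have h7 : (r / 8) ^ (40 * m) * Real.exp (-(r / 8)) * (C * 8 ^ (40 * m)) < κ := by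
    rwa [lt_div_iff₀ (by positivity)] at h6
  have h8 : (r / 8) ^ (40 * m) * Real.exp (-(r / 8)) * (C * 8 ^ (40 * m))
      = C * Real.exp (-r / 8) * r ^ (40 * m) := by
    rw [div_pow, neg_div]
    field_simp
  rw [h8] at h7
  have h9 : ((r ^ 40)⁻¹) ^ m = (r ^ (40 * m))⁻¹ := by
    rw [inv_pow, ← pow_mul]
  rw [h9, ← div_eq_mul_inv, le_div_iff₀ (by positivity)]
  exact h7.le

/-- norm of the drift vector -/
theorem SS1_norm {n : ℕ} (z : Fin (n + 1) → ℝ) (Λ : ℝ) (hΛ : 0 ≤ Λ) (hz : ∀ a, |z a| ≤ Λ) :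
    ‖(WithLp.toLp 2 (fun a => 2 * z a) : Fs n)‖ ≤ 2 * (n + 1) * Λ := by
  have h1 : ‖(WithLp.toLp 2 (fun a => 2 * z a) : Fs n)‖ ^ 2 ≤ (2 * (n + 1) * Λ) ^ 2 := by
    rw [EuclideanSpace.norm_sq_eq]
    have h2 : ∀ a ∈ (Finset.univ : Finset (Fin (n + 1))),
        ‖(WithLp.toLp 2 (fun a => 2 * z a) : Fs n) a‖ ^ 2 ≤ 4 * Λ ^ 2 := by
      intro a _
      have h3 : ‖(WithLp.toLp 2 (fun a => 2 * z a) : Fs n) a‖ = 2 * |z a| := by
        simp
      rw [h3]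
      have := pow_le_pow_left₀ (abs_nonneg (z a)) (hz a) 2
      nlinarith
    refine (Finset.sum_le_sum h2).trans ?_
    rw [Finset.sum_const, Finset.card_univ, Fintype.card_fin, nsmul_eq_mul]
    push_cast
    have h4 : (0 : ℝ) ≤ n := Nat.cast_nonneg n
    have h5 : 0 ≤ Λ ^ 2 := sq_nonneg Λ
    nlinarith [mul_nonneg h4 h5, mul_nonneg (mul_nonneg h4 h4) h5]
  exact le_of_sq_le_sq h1 (by positivity)

/-- the section ball stays in the region -/
theorem SS1_region (hHW : tHW) (hSGE : tSGE) {n : ℕ} (hn : 1 ≤ n) {S : Type} [TopologicalSpace S]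
    [T2Space S] (M : Hyp n S) {r : ℝ} (hr : 4 * n + 9 ≤ r) (hD : Dich M r) (p : S)
    (hp : M.rho p < 2 * n) (hH : 9 / 20 < |M.H p|) (ι : Es n →ₗᵢ[ℝ] Fs n) (g : Es n → ℝ)
    (σ : Es n → S) (hN : M.Nice p ι g σ) :
    ‖M.X p‖ ≤ Real.sqrt (2 * n) ∧ ∀ u ∈ Metric.ball (0 : Es n) (1 / 8),
      ‖M.X (σ u)‖ ≤ Real.sqrt (2 * n) + 1 ∧ M.rho (σ u) ≤ 4 * n + 9 ∧ 9 / 20 < |M.H (σ u)| := by
  have hsec : IsSec M.X M.N p (Metric.ball 0 (1 / 8)) ι g σ := hN.1
  have h00 : (0 : Es n) ∈ Metric.ball (0 : Es n) (1 / 8) := Metric.mem_ball_self (by norm_num)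
  have hn1 : (1 : ℝ) ≤ n := by exact_mod_cast hn
  have hXp : ‖M.X p‖ ≤ Real.sqrt (2 * n) := by
    refine Real.le_sqrt_of_sq_le ?_
    exact hp.le
  have hs2 : Real.sqrt (2 * n) ^ 2 = 2 * n := Real.sq_sqrt (by positivity)
  have hs0 := Real.sqrt_nonneg (2 * (n : ℝ))
  have hdist : ∀ u ∈ Metric.ball (0 : Es n) (1 / 8), ‖M.X (σ u) - M.X p‖ ≤ 33 / 256 := by
    intro u hu
    have h1 := (hSGE n S M p ι g σ hN u hu 0 h00).2.1
    rw [hsec.base, sub_zero] at h1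
    have h2 : ‖u‖ < 1 / 8 := by simpa using hu
    linarith
  have hXu : ∀ u ∈ Metric.ball (0 : Es n) (1 / 8),
      ‖M.X (σ u)‖ ≤ Real.sqrt (2 * n) + 33 / 256 := by
    intro u hu
    have h1 : M.X (σ u) = M.X p + (M.X (σ u) - M.X p) := by abel
    rw [h1]
    refine (norm_add_le _ _).trans ?_
    linarith [hdist u hu]
  have hrho : ∀ u ∈ Metric.ball (0 : Es n) (1 / 8), M.rho (σ u) ≤ 4 * n + 9 := by
    intro u hu
    have h1 := pow_le_pow_left₀ (norm_nonneg _) (hXu u hu) 2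
    have h2 : Real.sqrt (2 * n) ≤ 2 * n := by
      nlinarith
    have h3 : (Real.sqrt (2 * n) + 33 / 256) ^ 2 ≤ 4 * n + 9 := by
      nlinarith
    exact h1.trans h3
  have hpre : IsPreconnected (σ '' Metric.ball (0 : Es n) (1 / 8)) :=
    (convex_ball (0 : Es n) (1 / 8)).isPreconnected.image σ hsec.cont
  have hcH : Continuous M.H := continuous_iff_continuousAt.2 fun q => (Hyp.Sm.H M q).continuousAt
  have hcw : Continuous M.w := continuous_iff_continuousAt.2 fun q => (Hyp.Sm.w M q).continuousAt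
  have hsub : σ '' Metric.ball (0 : Es n) (1 / 8) ⊆ {q | 9 / 20 < |M.H q|} := by
    refine IsPreconnected.subset_left_of_subset_union
      (v := {q | M.w q < 1 / (25 * n)}) (isOpen_lt continuous_const hcH.abs)
      (isOpen_lt hcw continuous_const) ?_ ?_ ?_ hpre
    · rw [Set.disjoint_left]
      intro q hq1 hq2
      have hq1' : 9 / 20 < |M.H q| := hq1
      have hq2' : M.w q < 1 / (25 * n) := hq2
      have h1 := (hHW n S M q).1
      have h2 : (n : ℝ) * M.w q ≤ 1 / 25 := by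
        have h3 : (n : ℝ) * M.w q ≤ n * (1 / (25 * n)) :=
          mul_le_mul_of_nonneg_left hq2'.le (by positivity)
        have h4 : (n : ℝ) * (1 / (25 * n)) = 1 / 25 := by field_simp
        linarith
      have h5 : |M.H q| ^ 2 ≤ 1 / 25 := by rw [sq_abs]; linarith
      nlinarith
    · rintro _ ⟨u, hu, rfl⟩
      exact hD (σ u) ((hrho u hu).trans hr)
    · exact ⟨p, ⟨0, h00, hsec.base⟩, hH⟩
  refine ⟨hXp, fun u hu => ⟨?_, hrho u hu, hsub ⟨u, hu, rfl⟩⟩⟩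
  linarith [hXu u hu]

theorem pSS1 (hHARN : tHARN) (hVIS : tVIS) (hLAM : tLAM) (hBDS : tBDS) (hLBB : tLBB)
    (hHW : tHW) (hSGE : tSGE) : tSS1 := by
  intro n hn
  have hn1 : (1 : ℝ) ≤ n := by exact_mod_cast hn
  have hs0 := Real.sqrt_nonneg (2 * (n : ℝ))
  obtain ⟨ΛL, hΛL, HL⟩ := hLAM n (Real.sqrt (2 * n)) hn hs0
  obtain ⟨ΛB, hΛB, HB⟩ := hBDS n (Real.sqrt (2 * n) + 1) (by positivity)
  obtain ⟨Cb, hCb, Hb⟩ := hLBB n hn
  set Λ : ℝ := 2 * (n + 1) * ΛB + 2 * Real.sqrt Cb + 2 * Real.sqrt ΛB + ΛL with hΛdef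
  have hΛ0 : 0 ≤ Λ := by positivity
  obtain ⟨κ, m, hκ, -, -, HH⟩ := hHARN n (Real.sqrt (2 * n)) Λ hs0 hΛ0
  obtain ⟨r0, hr0⟩ := SS1_exp Cb κ hCb hκ m
  refine ⟨max (4 * n + 9) r0, ?_, le_max_left _ _, ?_⟩
  · exact le_trans (by linarith) (le_max_left _ _)
  intro S _ _ M c r hStd hr hD p e hp hAdm hPsi hmax ι g σ hN
  have hr1 : 4 * (n : ℝ) + 9 ≤ r := (le_max_left _ _).trans hr
  have hr2 : r0 ≤ r := (le_max_right _ _).trans hr
  have h1r : 1 ≤ r := by linarith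
  obtain ⟨hShr, hc0, hc1, hw⟩ := hStd
  have hw2 : ∀ q, M.w q ≤ 2 := fun q => by linarith [hw q]
  obtain ⟨hXp, hreg⟩ := SS1_region hHW hSGE hn M hr1 hD p hp hAdm.2.1 ι g σ hN
  refine ⟨fun u hu => (hreg u hu).2, ?_⟩
  obtain ⟨HLa, HLb, -, HLd⟩ := HL S M hShr hw2
  have hsec : IsSec M.X M.N p (Metric.ball 0 (1 / 8)) ι g σ := hN.1
  -- the function
  set Y : S → ℝ := fun q => Psi M r p e + bb M r q - (1 / (100 * r)) * M.Fq q + lam M q with hY
  set V : S → Fs n := fun q => WithLp.toLp 2 (fun a => 2 * M.ze a q) with hV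
  have hσr0 : 0 ≤ 1 / (100 * r) := by positivity
  have hσr1 : 1 / (100 * r) ≤ 1 := by
    rw [div_le_one (by positivity)]; linarith
  have hexp1 : Real.exp (-r / 8) ≤ 1 := by
    rw [Real.exp_le_one_iff]; linarith
  have hstd : M.Std c := ⟨hShr, hc0, hc1, hw⟩
  -- viscosity inequality
  have hVS : M.VSup V Y (Cb * Real.exp (-r / 8)) (σ '' Metric.ball 0 (1 / 8)) := by
    rintro _ ⟨u, hu, rfl⟩ φ hφ hT
    obtain ⟨-, hrho, hH⟩ := hreg u hu
    have h1 := hVIS n hn S M c r hstd h1r (σ u) hH φ hφ (by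
      filter_upwards [hT] with q' hq'
      simp only [hY] at hq'
      linarith)
    obtain ⟨-, -, -, -, -, h2⟩ := Hb S M c r hstd h1r (σ u) hH
    have h3 := (h2 hrho).1
    have h4 : inner ℝ (V (σ u)) (M.gr φ (σ u)) = 2 * ∑ a, M.ze a (σ u) * M.dl a φ (σ u) := by
      rw [Hyp.inner_sum, Finset.mul_sum]
      refine Finset.sum_congr rfl fun a _ => ?_
      change 2 * M.ze a (σ u) * M.dl a φ (σ u) = _
      ring
    have h5 : 0 ≤ 2 * (1 / (100 * r)) * M.ssq (σ u) :=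
      mul_nonneg (by positivity) (Hyp.ssq_nonneg _)
    rw [h4]
    linarith
  -- bounds
  have hbd : ∀ q ∈ σ '' Metric.ball (0 : Es n) (1 / 8), ‖V q‖ ≤ Λ ∧ 0 ≤ Y q := by
    rintro _ ⟨u, hu, rfl⟩
    obtain ⟨hX, hrho, hH⟩ := hreg u hu
    constructor
    · have h1 := (HB S M hShr hw2 (σ u) hX (by linarith)).1
      have h2 := SS1_norm (fun a => M.ze a (σ u)) ΛB hΛB h1
      refine h2.trans ?_
      rw [hΛdef]
      have := Real.sqrt_nonneg Cb
      have := Real.sqrt_nonneg ΛB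
      linarith
    · obtain ⟨e', he1, he2, he3⟩ := HLa (σ u)
      have h1 := hmax (σ u) e' ⟨hrho.trans hr1, hH, he1, he2⟩
      have h2 : Psi M r (σ u) e' =
        - M.tq e' (σ u) + (1 / (100 * r)) * M.Fq (σ u) - bb M r (σ u) := rfl
      rw [h2, he3] at h1
      simp only [hY]
      linarith
  -- Lipschitz bounds
  have hseg : ∀ u ∈ Metric.ball (0 : Es n) (1 / 8), ∀ u' ∈ Metric.ball (0 : Es n) (1 / 8),
      segment ℝ u' u ⊆ Metric.ball (0 : Es n) (1 / 8) := fun u hu u' hu' =>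
    (convex_ball (0 : Es n) (1 / 8)).segment_subset hu' hu
  have hlip : ∀ u ∈ Metric.ball (0 : Es n) (1 / 8), ∀ u' ∈ Metric.ball (0 : Es n) (1 / 8),
      |Y (σ u) - Y (σ u')| ≤ Λ * ‖u - u'‖ := by
    intro u hu u' hu'
    have hsg := hseg u hu u' hu'
    have l1 : |bb M r (σ u) - bb M r (σ u')| ≤ 2 * Real.sqrt Cb * ‖u - u'‖ := by
      refine Hyp.sec_lip hsec hsg (Real.sqrt_nonneg Cb)
        (fun v hv => (hN.2 v (hsg hv)).trans (by norm_num)) (fun v hv => ?_) (fun v hv => ?_)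
      · exact (Hb S M c r hstd h1r (σ v) (hreg v (hsg hv)).2.2).1
      · obtain ⟨-, -, -, -, -, h2⟩ := Hb S M c r hstd h1r (σ v) (hreg v (hsg hv)).2.2
        have h3 := (h2 (hreg v (hsg hv)).2.1).2
        rw [Real.sq_sqrt hCb.le]
        nlinarith
    have l2 : |M.Fq (σ u) - M.Fq (σ u')| ≤ 2 * Real.sqrt ΛB * ‖u - u'‖ := by
      refine Hyp.sec_lip hsec hsg (Real.sqrt_nonneg ΛB)
        (fun v hv => (hN.2 v (hsg hv)).trans (by norm_num)) (fun v hv => ?_) (fun v hv => ?_)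
      · refine Hyp.Sm.Fq ?_
        intro h0
        have h1 := (hreg v (hsg hv)).2.2
        rw [h0, abs_zero] at h1
        linarith
      · obtain ⟨hX, -, hH⟩ := hreg v (hsg hv)
        rw [Real.sq_sqrt hΛB]
        exact (HB S M hShr hw2 (σ v) hX (by linarith)).2.2.1
    have l3 : |lam M (σ u) - lam M (σ u')| ≤ ΛL * ‖u - u'‖ := by
      refine HLd p ι g σ hN hXp ?_ u hu u' hu'
      rintro _ ⟨v, hv, rfl⟩
      linarith [(hreg v hv).2.2]
    have l4 : |(1 / (100 * r)) * (M.Fq (σ u) - M.Fq (σ u'))| ≤ 2 * Real.sqrt ΛB * ‖u - u'‖ := by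
      rw [abs_mul, abs_of_nonneg hσr0]
      calc (1 / (100 * r)) * |M.Fq (σ u) - M.Fq (σ u')|
          ≤ 1 * |M.Fq (σ u) - M.Fq (σ u')| :=
            mul_le_mul_of_nonneg_right hσr1 (abs_nonneg _)
        _ ≤ _ := by rw [one_mul]; exact l2
    have e1 : Y (σ u) - Y (σ u') = (bb M r (σ u) - bb M r (σ u'))
        - (1 / (100 * r)) * (M.Fq (σ u) - M.Fq (σ u')) + (lam M (σ u) - lam M (σ u')) := by
      simp only [hY]; ring
    rw [e1]
    refine (abs_add_le _ _).trans ?_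
    refine (add_le_add (abs_sub _ _) le_rfl).trans ?_
    have h7 : 0 ≤ 2 * (n + 1) * ΛB * ‖u - u'‖ := by positivity
    rw [hΛdef]
    nlinarith
  -- value at the maximum point
  have hYp : Y p ≤ 0 := by
    have h1 := HLb p e hAdm.2.2.1 hAdm.2.2.2
    have h2 : Psi M r p e = - M.tq e p + (1 / (100 * r)) * M.Fq p - bb M r p := rfl
    simp only [hY]
    rw [h2]
    linarith
  intro u hu
  by_contra hlt
  have hlt' : (r ^ 40)⁻¹ ≤ Y (σ u) := (not_le.1 hlt).le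
  have hy0 : 0 < (r ^ 40)⁻¹ := by positivity
  have hy1 : (r ^ 40)⁻¹ ≤ 1 := inv_le_one_of_one_le₀ (one_le_pow₀ h1r)
  have h1 := HH S M hShr p ι g σ hN hXp V Y (Cb * Real.exp (-r / 8)) hVS hbd hlip u hu 0
    (Metric.mem_ball_self (by norm_num)) (r ^ 40)⁻¹ hy0 hy1 hlt' (hr0 r hr2 h1r)
  rw [hsec.base] at h1
  have h2 : 0 < κ * ((r ^ 40)⁻¹) ^ m := by positivity
  linarith

end

end Pool.Agent.ShG
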