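import Pool.Agent.ShG.Targets

/-! # SSM: the tensor `𝒮` is tiny near the maximum point of `Ψ` -/

namespace Pool.Agent.ShG

open scoped BigOperators Topology ContDiff
open Set Filter

noncomputable section

lemma SSM_contH {n : ℕ} {S : Type} [TopologicalSpace S] (M : Hyp n S) : Continuous M.H :=
  continuous_iff_continuousAt.2 fun p => (Hyp.Sm.H M p).continuousAt

lemma SSM_contw {n : ℕ} {S : Type} [TopologicalSpace S] (M : Hyp n S) : Continuous M.w :=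
  continuous_iff_continuousAt.2 fun p => (Hyp.Sm.w M p).continuousAt

/-- the high part is open and closed in a preconnected set -/
lemma SSM_high {n : ℕ} (hn : 1 ≤ n) {S : Type} [TopologicalSpace S] {M : Hyp n S} (hHW : tHW)
    {r : ℝ} (hD : Dich M r) {A : Set S} (hA : IsPreconnected A) (hr : ∀ q ∈ A, M.rho q ≤ r)
    {q : S} (hq : q ∈ A) (hHq : 9/20 < |M.H q|) : ∀ q' ∈ A, 9/20 < |M.H q'| := by
  by_contra hcon
  push Not at hcon
  obtain ⟨q', hq', h'⟩ := hcon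
  have hw' : M.w q' < 1 / (25 * n) := (hD q' (hr q' hq')).resolve_left (not_lt.2 h')
  have hU : IsOpen {x | 9/20 < |M.H x|} := isOpen_lt continuous_const (SSM_contH M).abs
  have hV : IsOpen {x | M.w x < 1 / (25 * n)} := isOpen_lt (SSM_contw M) continuous_const
  obtain ⟨x, hx, hxU, hxV⟩ := hA _ _ hU hV (fun x hx => hD x (hr x hx)) ⟨q, hq, hHq⟩
    ⟨q', hq', hw'⟩
  have h1 := (hHW n S M x).1
  have hxU' : 9/20 < |M.H x| := hxU
  have hxV' : M.w x < 1 / (25 * n) := hxV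
  have h2 : (9/20 : ℝ) ^ 2 < M.H x ^ 2 := by
    rw [← sq_abs (M.H x)]
    exact pow_lt_pow_left₀ hxU' (by norm_num) (by norm_num)
  have hn' : (0:ℝ) < n := by exact_mod_cast hn
  have h3 : n * M.w x < n * (1 / (25 * n)) := mul_lt_mul_of_pos_left hxV' hn'
  have h4 : (n:ℝ) * (1 / (25 * n)) = 1 / 25 := by field_simp
  rw [h4] at h3
  norm_num at h2
  linarith

/-- lower bound of a sum of squares after a small change of the entries -/
lemma SSM_ssq {n : ℕ} {S : Type} [TopologicalSpace S] {M : Hyp n S} {q q' : S} {d : ℝ}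
    (h : ∀ a b c, |M.S3 a b c q' - M.S3 a b c q| ≤ d) :
    M.ssq q ≤ 2 * M.ssq q' + 2 * ((n + 1) ^ 3 * d ^ 2) := by
  have h1 : ∀ a b c, (M.S3 a b c q) ^ 2 ≤ 2 * (M.S3 a b c q') ^ 2 + 2 * d ^ 2 := by
    intro a b c
    have h2 := h a b c
    have h3 : (M.S3 a b c q' - M.S3 a b c q) ^ 2 ≤ d ^ 2 := by
      rw [← sq_abs]
      exact pow_le_pow_left₀ (abs_nonneg _) h2 2
    nlinarith [sq_nonneg (M.S3 a b c q' - (M.S3 a b c q - M.S3 a b c q')),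
      sq_nonneg (2 * M.S3 a b c q' - M.S3 a b c q)]
  have h4 : M.ssq q ≤ ∑ a, ∑ b, ∑ c, (2 * (M.S3 a b c q') ^ 2 + 2 * d ^ 2) :=
    Finset.sum_le_sum fun a _ => Finset.sum_le_sum fun b _ => Finset.sum_le_sum fun c _ => h1 a b c
  refine h4.trans (le_of_eq ?_)
  simp only [Finset.sum_add_distrib, ← Finset.mul_sum, Finset.sum_const, Finset.card_univ,
    Fintype.card_fin, nsmul_eq_mul]
  unfold Hyp.ssq
  push_cast
  ring

/-- the drift vector `2ζ` -/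
def SSM_V {n : ℕ} {S : Type} [TopologicalSpace S] (M : Hyp n S) (q : S) : Fs n :=
  WithLp.toLp 2 (fun a => 2 * M.ze a q)

lemma SSM_V_inner {n : ℕ} {S : Type} [TopologicalSpace S] (M : Hyp n S) (q : S) (φ : S → ℝ) :
    (inner ℝ (SSM_V M q) (M.gr φ q) : ℝ) = 2 * ∑ a, M.ze a q * M.dl a φ q := by
  rw [Hyp.inner_sum, Finset.mul_sum]
  refine Finset.sum_congr rfl fun a _ => ?_
  change 2 * M.ze a q * M.gr φ q a = 2 * (M.ze a q * M.gr φ q a)
  ring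

lemma SSM_V_norm {n : ℕ} {S : Type} [TopologicalSpace S] (M : Hyp n S) (q : S) {Λ : ℝ}
    (hΛ : 0 ≤ Λ) (h : ∀ a, |M.ze a q| ≤ Λ) : ‖SSM_V M q‖ ≤ 2 * (n + 1) * Λ := by
  have h1 : ‖SSM_V M q‖ ^ 2 ≤ (2 * (n + 1) * Λ) ^ 2 := by
    rw [EuclideanSpace.norm_sq_eq]
    have h2 : ∀ a : Fin (n + 1), ‖(SSM_V M q) a‖ ^ 2 ≤ 4 * Λ ^ 2 := by
      intro a
      have h3 : (SSM_V M q) a = 2 * M.ze a q := rfl
      rw [h3, Real.norm_eq_abs, sq_abs]
      have h4 : (M.ze a q) ^ 2 ≤ Λ ^ 2 := by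
        rw [← sq_abs]
        exact pow_le_pow_left₀ (abs_nonneg _) (h a) 2
      nlinarith
    refine (Finset.sum_le_sum fun a _ => h2 a).trans ?_
    rw [Finset.sum_const, Finset.card_univ, Fintype.card_fin, nsmul_eq_mul]
    push_cast
    have hn : (0:ℝ) ≤ n := Nat.cast_nonneg n
    nlinarith [sq_nonneg Λ, mul_nonneg hn (sq_nonneg Λ), mul_nonneg (mul_nonneg hn hn)
      (sq_nonneg Λ)]
  exact le_of_sq_le_sq h1 (by positivity)

/-- decay of the exponential -/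
lemma SSM_exp {C r : ℝ} (hr : 1 ≤ r)
    (h : 400 * C * (Nat.factorial 10 * 8 ^ 10) ≤ r) :
    C * Real.exp (-r / 8) ≤ (r ^ 9)⁻¹ / 400 := by
  have hr0 : 0 < r := by linarith
  have h1 : (r / 8) ^ 10 / (Nat.factorial 10 : ℝ) ≤ Real.exp (r / 8) :=
    Real.pow_div_factorial_le_exp (r / 8) (by positivity) 10
  have hf : (0:ℝ) < (Nat.factorial 10 : ℝ) := by exact_mod_cast Nat.factorial_pos 10
  have h2 : Real.exp (-r / 8) = (Real.exp (r / 8))⁻¹ := by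
    rw [← Real.exp_neg]
    congr 1
    ring
  rw [h2, ← div_eq_mul_inv, div_le_iff₀ (Real.exp_pos _)]
  have h3 : C ≤ (r ^ 9)⁻¹ / 400 * ((r / 8) ^ 10 / (Nat.factorial 10 : ℝ)) := by
    have h4 : (r ^ 9)⁻¹ / 400 * ((r / 8) ^ 10 / (Nat.factorial 10 : ℝ))
        = r / (400 * ((Nat.factorial 10 : ℝ) * 8 ^ 10)) := by
      field_simp
    rw [h4, le_div_iff₀ (by positivity)]
    linarith
  refine h3.trans ?_
  exact mul_le_mul_of_nonneg_left h1 (by positivity)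

theorem pSSM (hSS1 : tSS1) (hPAR : tPAR) (hVIS : tVIS) (hLAM : tLAM) (hBDS : tBDS)
    (hLBB : tLBB) (hUGC : tUGC) (hHW : tHW) (hSGE : tSGE) : tSSM := by
  intro n hn
  obtain ⟨ρa, hρa1, hρa2, Hss⟩ := hSS1 n hn
  have hn0 : (0:ℝ) ≤ n := Nat.cast_nonneg n
  have hn1 : (1:ℝ) ≤ n := by exact_mod_cast hn
  obtain ⟨R, hR⟩ : ∃ R : ℝ, R = 4 * n + 9 := ⟨_, rfl⟩
  have hR0 : 0 ≤ R := by rw [hR]; positivity
  have hR1 : 1 ≤ R := by rw [hR]; linarith
  obtain ⟨Λ, hΛ0, HB⟩ := hBDS n R hR0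
  obtain ⟨Λ', hΛ'0, HL⟩ := hLAM n R hn hR0
  obtain ⟨C, hC0, HC⟩ := hLBB n hn
  obtain ⟨κ, hκ0, HP⟩ := hPAR n R (2 * (n + 1) * Λ) hR0 (by positivity)
  obtain ⟨C1, hC1⟩ : ∃ C1 : ℝ, C1 = 16 * (n + 1) ^ 3 * (Λ + 1) := ⟨_, rfl⟩
  have hC1a : 16 ≤ C1 := by
    rw [hC1]
    have h1 : (1:ℝ) ≤ (n + 1) ^ 3 := one_le_pow₀ (by linarith)
    nlinarith
  have hC1b : 16 * (n + 1) ^ 3 * Λ ≤ C1 ^ 2 := by
    have h1 : 16 * ((n:ℝ) + 1) ^ 3 * Λ ≤ C1 := by
      rw [hC1]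
      have : (0:ℝ) ≤ (n + 1) ^ 3 := by positivity
      nlinarith
    nlinarith
  obtain ⟨K1, hK1⟩ : ∃ K : ℝ, K = 400 * C * (Nat.factorial 10 * 8 ^ 10) := ⟨_, rfl⟩
  obtain ⟨K2, hK2⟩ : ∃ K : ℝ, K = (400 * C1 ^ 2 + 1) / κ := ⟨_, rfl⟩
  have hpos1 : 0 ≤ K1 := by rw [hK1]; positivity
  have hpos2 : 0 ≤ K2 := by rw [hK2]; positivity
  refine ⟨ρa + K1 + K2, by linarith, by linarith, ?_⟩
  intro S _ _ M c r hStd hr hDich p e hρp hAdm hPsi hmax ι g σ hNice u hu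
  have hra : ρa ≤ r := by linarith
  have hr1 : 1 ≤ r := by linarith
  have hr0 : 0 < r := by linarith
  have hrC : 400 * C * (Nat.factorial 10 * 8 ^ 10) ≤ r := by rw [← hK1]; linarith
  have hrκ : (400 * C1 ^ 2 + 1) / κ ≤ r := by rw [← hK2]; linarith
  have hrn : 4 * n + 9 ≤ r := by linarith
  have hw2 : ∀ x, M.w x ≤ 2 := by
    intro x
    have h1 := hStd.2.2.2 x
    have h2 := hStd.2.2.1
    linarith
  obtain ⟨hball, hY⟩ := Hss S M c r hStd hra hDich p e hρp hAdm hPsi hmax ι g σ hNice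
  have hu8 : u ∈ Metric.ball (0 : Es n) (1/8) :=
    Metric.ball_subset_ball (by norm_num) hu
  have h08 : (0 : Es n) ∈ Metric.ball (0 : Es n) (1/8) := Metric.mem_ball_self (by norm_num)
  obtain ⟨hρu, hHu⟩ := hball u hu8
  refine ⟨hHu, ?_⟩
  by_contra hcon
  rw [not_le] at hcon
  obtain ⟨q, hq⟩ : ∃ q, q = σ u := ⟨_, rfl⟩
  rw [← hq] at hcon hρu hHu
  have hYq := hY u hu
  rw [← hq] at hYq
  -- position of `q`
  have hXp : ‖M.X p‖ ^ 2 < 2 * n := hρp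
  have hXqp : ‖M.X q - M.X p‖ ≤ 1/16 := by
    have h1 := (hSGE n S M p ι g σ hNice u hu8 0 h08).2.1
    rw [sub_zero, hNice.1.base, ← hq] at h1
    have h2 : ‖u‖ < 1/32 := by simpa using hu
    linarith
  -- uniform section at `q`
  obtain ⟨ι', g', σ', hN'⟩ := hUGC n S M hw2 q
  have hXq' : ∀ v ∈ Metric.ball (0 : Es n) (1/8), M.rho (σ' v) ≤ 4 * n + 9 := by
    intro v hv
    have h1 := (hSGE n S M q ι' g' σ' hN' v hv 0 h08).2.1
    rw [sub_zero, hN'.1.base] at h1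
    have h2 : ‖v‖ < 1/8 := by simpa using hv
    have h3 : ‖M.X (σ' v)‖ ≤ ‖M.X p‖ + 1/4 := by
      have e : M.X (σ' v) = (M.X (σ' v) - M.X q) + (M.X q - M.X p) + M.X p := by abel
      have h4 : ‖M.X (σ' v)‖ ≤ ‖M.X (σ' v) - M.X q‖ + ‖M.X q - M.X p‖ + ‖M.X p‖ := by
        conv_lhs => rw [e]
        refine (norm_add_le _ _).trans ?_
        gcongr
        exact norm_add_le _ _
      linarith
    change ‖M.X (σ' v)‖ ^ 2 ≤ 4 * n + 9
    nlinarith [norm_nonneg (M.X (σ' v)), norm_nonneg (M.X p), sq_nonneg (‖M.X p‖ - 1)]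
  have hXR : ∀ x, M.rho x ≤ 4 * n + 9 → ‖M.X x‖ ≤ R := by
    intro x hx
    have h1 : ‖M.X x‖ ^ 2 ≤ R := by rw [hR]; exact hx
    nlinarith [norm_nonneg (M.X x)]
  have hH' : ∀ v ∈ Metric.ball (0 : Es n) (1/8), 9/20 < |M.H (σ' v)| := by
    intro v hv
    refine SSM_high hn hHW hDich (A := σ' '' Metric.ball (0 : Es n) (1/8)) ?_ ?_ (q := q) ?_
      hHu _ ⟨v, hv, rfl⟩
    · exact ((convex_ball (0 : Es n) (1/8)).isPreconnected).image _ hN'.1.cont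
    · rintro x ⟨w, hw, rfl⟩
      exact (hXq' w hw).trans hrn
    · exact ⟨0, h08, hN'.1.base⟩
  have hH0 : ∀ v ∈ Metric.ball (0 : Es n) (1/8), M.H (σ' v) ≠ 0 := by
    intro v hv h0
    have := hH' v hv
    rw [h0, abs_zero] at this
    linarith
  have hH25 : ∀ v ∈ Metric.ball (0 : Es n) (1/8), 2/5 ≤ |M.H (σ' v)| := by
    intro v hv
    have := hH' v hv
    linarith
  have hXq : ‖M.X q‖ ≤ R := hXR q hρu
  obtain ⟨HL1, HL2, HL3, HL4⟩ := HL S M hStd.1 hw2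
  -- the radius
  obtain ⟨ρ1, hρ1⟩ : ∃ ρ1 : ℝ, ρ1 = (r ^ 4)⁻¹ / C1 := ⟨_, rfl⟩
  have hC1pos : 0 < C1 := by linarith
  have hρ1pos : 0 < ρ1 := by rw [hρ1]; positivity
  have hr4 : (r ^ 4)⁻¹ ≤ 1 := inv_le_one_of_one_le₀ (one_le_pow₀ hr1)
  have hρ1le : ρ1 ≤ 1/16 := by
    rw [hρ1, div_le_iff₀ hC1pos]
    linarith
  have hsub : Metric.ball (0 : Es n) ρ1 ⊆ Metric.ball (0 : Es n) (1/8) :=
    Metric.ball_subset_ball (by linarith)
  -- `ssq` stays large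
  have hssq : ∀ v ∈ Metric.ball (0 : Es n) ρ1, (r ^ 8)⁻¹ / 4 ≤ M.ssq (σ' v) := by
    intro v hv
    have hvn : ‖v‖ < ρ1 := by simpa using hv
    have hseg : segment ℝ (0 : Es n) v ⊆ Metric.ball (0 : Es n) (1/8) :=
      (convex_ball (0 : Es n) (1/8)).segment_subset h08 (hsub hv)
    have hd : ∀ a b c, |M.S3 a b c (σ' v) - M.S3 a b c q| ≤ 2 * Real.sqrt Λ * ρ1 := by
      intro a b c
      have h1 := Hyp.sec_lip (Z := M.S3 a b c) hN'.1 hseg (Real.sqrt_nonneg Λ)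
        (fun w hw => (hN'.2 w (hseg hw)).trans (by norm_num))
        (fun w hw => Hyp.Sm.S3 (hH0 w (hseg hw)) a b c)
        (fun w hw => by
          rw [Real.sq_sqrt hΛ0]
          exact (HB S M hStd.1 hw2 _ (hXR _ (hXq' w (hseg hw))) (hH25 w (hseg hw))).2.2.2.2.1 a b c)
      rw [hN'.1.base, sub_zero] at h1
      refine h1.trans ?_
      exact mul_le_mul_of_nonneg_left hvn.le (by positivity)
    have h2 := SSM_ssq hd
    have h3 : (2 * Real.sqrt Λ * ρ1) ^ 2 = 4 * Λ * ρ1 ^ 2 := by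
      rw [mul_pow, mul_pow, Real.sq_sqrt hΛ0]
      ring
    rw [h3] at h2
    have h4 : ρ1 ^ 2 = (r ^ 8)⁻¹ / C1 ^ 2 := by
      rw [hρ1, div_pow, inv_pow, ← pow_mul]
    have h5 : ((n:ℝ) + 1) ^ 3 * (4 * Λ * ρ1 ^ 2) ≤ (r ^ 8)⁻¹ / 4 := by
      rw [h4]
      have h6 : ((n:ℝ) + 1) ^ 3 * (4 * Λ * ((r ^ 8)⁻¹ / C1 ^ 2))
          = (r ^ 8)⁻¹ / 4 * ((16 * (n + 1) ^ 3 * Λ) / C1 ^ 2) := by
        field_simp
        ring
      rw [h6]
      have h7 : (16 * ((n:ℝ) + 1) ^ 3 * Λ) / C1 ^ 2 ≤ 1 := by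
        rw [div_le_one (by positivity)]
        exact hC1b
      have h8 : 0 ≤ (r ^ 8)⁻¹ / 4 := by positivity
      nlinarith
    linarith
  -- apply the paraboloid lemma
  obtain ⟨Y, hYdef⟩ : ∃ Y : S → ℝ, Y = fun x => Psi M r p e + bb M r x
    - (1 / (100 * r)) * M.Fq x + lam M x := ⟨_, rfl⟩
  have hfin := HP S M hStd.1 q ι' g' σ' hN' hXq (SSM_V M) Y ((r ^ 9)⁻¹ / 400) ρ1 (by positivity)
    hρ1pos hρ1le ?_ ?_ ?_
  · -- contradiction
    have hYq' : Y q ≤ (r ^ 40)⁻¹ := by rw [hYdef]; exact hYq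
    have h1 := hfin.trans hYq'
    have h4 : ρ1 ^ 2 = (r ^ 8)⁻¹ / C1 ^ 2 := by
      rw [hρ1, div_pow, inv_pow, ← pow_mul]
    rw [h4] at h1
    have h2 : κ * ((r ^ 9)⁻¹ / 400) * ((r ^ 8)⁻¹ / C1 ^ 2) = (κ * r ^ 23) / (400 * C1 ^ 2)
        * (r ^ 40)⁻¹ := by
      field_simp
    rw [h2] at h1
    have h3 : 0 < (r ^ 40)⁻¹ := by positivity
    have h5 : 1 < (κ * r ^ 23) / (400 * C1 ^ 2) := by
      rw [lt_div_iff₀ (by positivity), one_mul]
      have h6 : 400 * C1 ^ 2 + 1 ≤ r * κ := (div_le_iff₀ hκ0).1 hrκ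
      have h7 : r ≤ r ^ 23 := le_self_pow₀ hr1 (by norm_num)
      nlinarith
    nlinarith
  · -- viscosity
    rintro x ⟨v, hv, rfl⟩ φ hφ htouch
    have hv8 := hsub hv
    rw [SSM_V_inner]
    have h1 := hVIS n hn S M c r hStd hr1 (σ' v) (hH' v hv8) φ hφ (by
      refine htouch.mono fun x hx => hx.trans (le_of_eq ?_)
      rw [hYdef]
      ring)
    have h2 := ((HC S M c r hStd hr1 (σ' v) (hH' v hv8)).2.2.2.2.2 (hXq' v hv8)).1
    have h3 := SSM_exp hr1 hrC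
    have h4 := hssq v hv
    have h5 : 2 * (1 / (100 * r)) * ((r ^ 8)⁻¹ / 4) = 2 * ((r ^ 9)⁻¹ / 400) := by
      field_simp
      ring
    have h6 : 2 * (1 / (100 * r)) * ((r ^ 8)⁻¹ / 4) ≤ 2 * (1 / (100 * r)) * M.ssq (σ' v) :=
      mul_le_mul_of_nonneg_left h4 (by positivity)
    linarith
  · -- bounds
    rintro x ⟨v, hv, rfl⟩
    have hv8 := hsub hv
    refine ⟨SSM_V_norm M _ hΛ0
      (HB S M hStd.1 hw2 _ (hXR _ (hXq' v hv8)) (hH25 v hv8)).1, ?_⟩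
    obtain ⟨e', he1, he2, he3⟩ := HL1 (σ' v)
    have h1 := hmax (σ' v) e' ⟨(hXq' v hv8).trans hrn, hH' v hv8, he1, he2⟩
    rw [hYdef]
    change 0 ≤ Psi M r p e + bb M r (σ' v) - (1 / (100 * r)) * M.Fq (σ' v) + lam M (σ' v)
    rw [← he3]
    have h2 : Psi M r (σ' v) e' = - M.tq e' (σ' v) + (1 / (100 * r)) * M.Fq (σ' v)
      - bb M r (σ' v) := rfl
    linarith
  · -- continuity
    have hlam : ContinuousOn (fun v => lam M (σ' v)) (Metric.ball (0 : Es n) ρ1) := by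
      have h1 : LipschitzOnWith (Real.toNNReal Λ') (fun v => lam M (σ' v))
          (Metric.ball (0 : Es n) (1/8)) := by
        refine LipschitzOnWith.of_dist_le_mul fun v hv v' hv' => ?_
        rw [Real.dist_eq, dist_eq_norm, Real.coe_toNNReal _ hΛ'0]
        refine HL4 q ι' g' σ' hN' hXq ?_ v hv v' hv'
        rintro x ⟨w, hw, rfl⟩
        exact hH25 w hw
      exact h1.continuousOn.mono hsub
    have hrest : ∀ v ∈ Metric.ball (0 : Es n) ρ1, ContinuousAt (fun v => Psi M r p e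
        + bb M r (σ' v) - (1 / (100 * r)) * M.Fq (σ' v)) v := by
      intro v hv
      have hv8 := hsub hv
      have c1 : ContinuousAt (fun v => bb M r (σ' v)) v :=
        ContinuousAt.comp (f := σ') (g := bb M r)
          (HC S M c r hStd hr1 (σ' v) (hH' v hv8)).1.continuousAt (hN'.1.contAt hv8)
      have c2 : ContinuousAt (fun v => M.Fq (σ' v)) v :=
        ContinuousAt.comp (f := σ') (g := M.Fq)
          (Hyp.Sm.Fq (hH0 v hv8)).continuousAt (hN'.1.contAt hv8)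
      exact (continuousAt_const.add c1).sub (continuousAt_const.mul c2)
    rw [hYdef]
    exact ContinuousOn.add (fun v hv => (hrest v hv).continuousWithinAt) hlam

end

end Pool.Agent.ShG
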