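import Pool.Agent.ShG.Targets

/-!
# ShG: the tensor `∇A` (target `tT3`)
-/

namespace Pool.Agent.ShG

open scoped BigOperators Topology ContDiff
open Set Filter

noncomputable section

namespace Hyp

variable {n : ℕ} {S : Type} [TopologicalSpace S] {M : Hyp n S}

lemma T3_B_symm (a b : Fin (n + 1)) : M.B a b = M.B b a := funext fun p => B_symm a b p

lemma T3_B2_symm (a b : Fin (n + 1)) (p : S) : M.B2 a b p = M.B2 b a p := by
  unfold B2
  refine Finset.sum_congr rfl fun c _ => ?_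
  rw [B_symm a c, B_symm c b, mul_comm]

lemma T3_N_B2 (b : Fin (n + 1)) (p : S) : ∑ a, M.N p a * M.B2 a b p = 0 := by
  unfold B2
  have : ∑ a, M.N p a * ∑ c, M.B a c p * M.B c b p
      = ∑ c, (∑ a, M.N p a * M.B a c p) * M.B c b p := by
    simp_rw [Finset.mul_sum, Finset.sum_mul]
    rw [Finset.sum_comm]
    refine Finset.sum_congr rfl fun c _ => Finset.sum_congr rfl fun a _ => by ring
  rw [this]
  refine Finset.sum_eq_zero fun c _ => ?_
  rw [B_N_left, zero_mul]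

lemma T3_N_B2' (a : Fin (n + 1)) (p : S) : ∑ b, M.N p b * M.B2 a b p = 0 := by
  rw [← T3_N_B2 (M := M) a p]
  refine Finset.sum_congr rfl fun b _ => ?_
  rw [T3_B2_symm a b]

/-- `∑_b N_b δ_a B_bc = (B²)_ac` -/
lemma T3_N_dB (a c : Fin (n + 1)) (p : S) :
    ∑ b, M.N p b * M.dl a (M.B b c) p = M.B2 a c p := by
  have h1 : M.dl a (fun q => ∑ b, M.Nc b q * M.B b c q) p = 0 := by
    have e : (fun q => ∑ b, M.Nc b q * M.B b c q) = fun _ => (0 : ℝ) := by
      funext q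
      exact B_N_left c q
    rw [e, dl_const]
  rw [dl_sum (fun b _ => (Sm.Nc M b p).mul (Sm.B M b c p))] at h1
  have h2 : ∀ b, M.dl a (fun q => M.Nc b q * M.B b c q) p
      = M.N p b * M.dl a (M.B b c) p - M.B a b p * M.B b c p := by
    intro b
    rw [dl_mul (Sm.Nc M b p) (Sm.B M b c p), dl_Nc]
    unfold Nc
    ring
  simp_rw [h2] at h1
  rw [Finset.sum_sub_distrib] at h1
  unfold B2
  linarith

lemma T3_N_dB' (a c : Fin (n + 1)) (p : S) :
    ∑ b, M.N p b * M.dl a (M.B c b) p = M.B2 a c p := by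
  rw [← T3_N_dB (M := M) a c p]
  refine Finset.sum_congr rfl fun b _ => ?_
  rw [T3_B_symm c b]

lemma T3_last (a b c : Fin (n + 1)) (p : S) : M.T3 a b c p = M.T3 a c b p := by
  unfold T3
  rw [T3_B_symm b c]
  ring

lemma T3_dl_H (a : Fin (n + 1)) (p : S) : M.dl a M.H p = ∑ b, M.T3 a b b p := by
  have h1 : M.dl a M.H p = ∑ b, M.dl a (M.B b b) p :=
    dl_sum (fun b _ => Sm.B M b b p) a
  rw [h1]
  unfold T3
  rw [Finset.sum_sub_distrib, Finset.sum_sub_distrib, T3_N_B2' a p]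
  ring

lemma T3_dl_w (a : Fin (n + 1)) (p : S) :
    M.dl a M.w p = 2 * ∑ b, ∑ c, M.B b c p * M.T3 a b c p := by
  have h1 : M.dl a M.w p = ∑ b, ∑ c, 2 * M.B b c p * M.dl a (M.B b c) p := by
    have e : M.dl a M.w p = ∑ b, M.dl a (fun q => ∑ c, M.B b c q ^ 2) p :=
      dl_sum (fun b _ => Sm.sum fun c _ => (Sm.B M b c p).pow 2) a
    rw [e]
    refine Finset.sum_congr rfl fun b _ => ?_
    rw [dl_sum (fun c _ => (Sm.B M b c p).pow 2)]
    refine Finset.sum_congr rfl fun c _ => ?_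
    rw [dl_sq (Sm.B M b c p)]
  have h2 : ∑ b, ∑ c, M.B b c p * (M.N p b * M.B2 a c p) = 0 := by
    rw [Finset.sum_comm]
    refine Finset.sum_eq_zero fun c _ => ?_
    have : ∑ b, M.B b c p * (M.N p b * M.B2 a c p)
        = M.B2 a c p * ∑ b, M.N p b * M.B b c p := by
      rw [Finset.mul_sum]
      refine Finset.sum_congr rfl fun b _ => by ring
    rw [this, B_N_left, mul_zero]
  have h3 : ∑ b, ∑ c, M.B b c p * (M.N p c * M.B2 a b p) = 0 := by
    refine Finset.sum_eq_zero fun b _ => ?_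
    have : ∑ c, M.B b c p * (M.N p c * M.B2 a b p)
        = M.B2 a b p * ∑ c, M.N p c * M.B b c p := by
      rw [Finset.mul_sum]
      refine Finset.sum_congr rfl fun c _ => by ring
    rw [this, B_N_left', mul_zero]
  have h4 : 2 * ∑ b, ∑ c, M.B b c p * M.T3 a b c p
      = (∑ b, ∑ c, 2 * M.B b c p * M.dl a (M.B b c) p)
        - 2 * ∑ b, ∑ c, M.B b c p * (M.N p b * M.B2 a c p)
        - 2 * ∑ b, ∑ c, M.B b c p * (M.N p c * M.B2 a b p) := by
    simp_rw [Finset.mul_sum]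
    rw [← Finset.sum_sub_distrib, ← Finset.sum_sub_distrib]
    refine Finset.sum_congr rfl fun b _ => ?_
    rw [← Finset.sum_sub_distrib, ← Finset.sum_sub_distrib]
    refine Finset.sum_congr rfl fun c _ => ?_
    unfold T3
    ring
  rw [h4, h2, h3, h1]
  ring

lemma T3_J (p : S) : M.J p = M.e1 p - 2 * M.b4 p := by
  have hN : ∑ b, M.N p b * M.N p b = 1 := M.sum_NN p
  have hb : ∀ a, ∑ b, ∑ c, (M.T3 a b c p) ^ 2
      = (∑ b, ∑ c, (M.dl a (M.B b c) p) ^ 2) - 2 * ∑ b, (M.B2 a b p) ^ 2 := by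
    intro a
    have s1 : ∑ b, ∑ c, M.B2 a c p * (M.N p b * M.dl a (M.B b c) p)
        = ∑ c, (M.B2 a c p) ^ 2 := by
      rw [Finset.sum_comm]
      refine Finset.sum_congr rfl fun c _ => ?_
      rw [← Finset.mul_sum, T3_N_dB]
      ring
    have s2 : ∑ b, ∑ c, M.B2 a b p * (M.N p c * M.dl a (M.B b c) p)
        = ∑ c, (M.B2 a c p) ^ 2 := by
      refine Finset.sum_congr rfl fun b _ => ?_
      rw [← Finset.mul_sum, T3_N_dB']
      ring
    have s3 : ∑ b, ∑ c, (M.N p b * M.N p b) * (M.B2 a c p) ^ 2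
        = ∑ c, (M.B2 a c p) ^ 2 := by
      simp_rw [← Finset.mul_sum]
      rw [← Finset.sum_mul, hN, one_mul]
    have s4 : ∑ b, ∑ c, (M.B2 a b p) ^ 2 * (M.N p c * M.N p c)
        = ∑ c, (M.B2 a c p) ^ 2 := by
      refine Finset.sum_congr rfl fun b _ => ?_
      rw [← Finset.mul_sum, hN, mul_one]
    have s5 : ∑ b, ∑ c, (M.N p b * M.B2 a b p) * (M.N p c * M.B2 a c p) = 0 := by
      refine Finset.sum_eq_zero fun b _ => ?_
      rw [← Finset.mul_sum, T3_N_B2', mul_zero]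
    have e : ∑ b, ∑ c, (M.T3 a b c p) ^ 2
        = (∑ b, ∑ c, (M.dl a (M.B b c) p) ^ 2)
          - 2 * (∑ b, ∑ c, M.B2 a c p * (M.N p b * M.dl a (M.B b c) p))
          - 2 * (∑ b, ∑ c, M.B2 a b p * (M.N p c * M.dl a (M.B b c) p))
          + (∑ b, ∑ c, (M.N p b * M.N p b) * (M.B2 a c p) ^ 2)
          + (∑ b, ∑ c, (M.B2 a b p) ^ 2 * (M.N p c * M.N p c))
          + 2 * (∑ b, ∑ c, (M.N p b * M.B2 a b p) * (M.N p c * M.B2 a c p)) := by
      simp_rw [Finset.mul_sum]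
      rw [← Finset.sum_sub_distrib, ← Finset.sum_sub_distrib, ← Finset.sum_add_distrib,
        ← Finset.sum_add_distrib, ← Finset.sum_add_distrib]
      refine Finset.sum_congr rfl fun b _ => ?_
      rw [← Finset.sum_sub_distrib, ← Finset.sum_sub_distrib, ← Finset.sum_add_distrib,
        ← Finset.sum_add_distrib, ← Finset.sum_add_distrib]
      refine Finset.sum_congr rfl fun c _ => ?_
      unfold T3
      ring
    rw [e, s1, s2, s3, s4, s5]
    ring
  unfold J e1 b4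
  simp_rw [hb]
  rw [Finset.sum_sub_distrib, Finset.mul_sum]

lemma T3_gsq_H (p : S) : M.gsq M.H p ≤ (n + 1) * M.J p := by
  unfold gsq J
  rw [Finset.mul_sum]
  refine Finset.sum_le_sum fun a _ => ?_
  rw [T3_dl_H a p]
  have h1 : (∑ b, M.T3 a b b p) ^ 2 ≤ ((n : ℝ) + 1) * ∑ b, (M.T3 a b b p) ^ 2 := by
    have := sq_sum_le_card_mul_sum_sq (s := (Finset.univ : Finset (Fin (n + 1))))
      (f := fun b => M.T3 a b b p)
    simpa using this
  have h2 : ∑ b, (M.T3 a b b p) ^ 2 ≤ ∑ b, ∑ c, (M.T3 a b c p) ^ 2 := by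
    refine Finset.sum_le_sum fun b _ => ?_
    exact Finset.single_le_sum (f := fun c => (M.T3 a b c p) ^ 2) (fun c _ => sq_nonneg _)
      (Finset.mem_univ b)
  have h3 : (0 : ℝ) ≤ (n : ℝ) + 1 := by positivity
  exact h1.trans (mul_le_mul_of_nonneg_left h2 h3)

lemma T3_gsq_w (p : S) : M.gsq M.w p ≤ 4 * M.w p * M.J p := by
  have h : ∀ a, (M.dl a M.w p) ^ 2 ≤ 4 * M.w p * ∑ b, ∑ c, (M.T3 a b c p) ^ 2 := by
    intro a
    rw [T3_dl_w a p]
    have h1 : (∑ b, ∑ c, M.B b c p * M.T3 a b c p) ^ 2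
        ≤ M.w p * ∑ b, ∑ c, (M.T3 a b c p) ^ 2 := by
      have := Finset.sum_mul_sq_le_sq_mul_sq
        ((Finset.univ : Finset (Fin (n + 1))) ×ˢ (Finset.univ : Finset (Fin (n + 1))))
        (fun x => M.B x.1 x.2 p) (fun x => M.T3 a x.1 x.2 p)
      rw [Finset.sum_product, Finset.sum_product, Finset.sum_product] at this
      exact this
    nlinarith
  unfold gsq
  refine (Finset.sum_le_sum fun a _ => h a).trans (le_of_eq ?_)
  unfold J
  rw [Finset.mul_sum]

end Hyp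

open Hyp in
theorem pT3 (hCOD : tCOD) : tT3 := by
  intro n S _ M p
  refine ⟨fun a b c => ?_, fun a b c => T3_last a b c p, fun b c => ?_, T3_J p,
    fun a => T3_dl_H a p, fun a => T3_dl_w a p, T3_gsq_H p, T3_gsq_w p⟩
  · have h := hCOD n S M a b c p
    have h2 := T3_B2_symm (M := M) a b p
    unfold T3
    rw [h2]
    linarith
  · unfold T3
    have e : ∑ a, M.N p a * (M.dl a (M.B b c) p - M.N p b * M.B2 a c p - M.N p c * M.B2 a b p)
        = (∑ a, M.N p a * M.dl a (M.B b c) p) - M.N p b * (∑ a, M.N p a * M.B2 a c p)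
          - M.N p c * (∑ a, M.N p a * M.B2 a b p) := by
      simp_rw [Finset.mul_sum]
      rw [← Finset.sum_sub_distrib, ← Finset.sum_sub_distrib]
      refine Finset.sum_congr rfl fun a _ => by ring
    rw [e, M.dl_N, T3_N_B2, T3_N_B2]
    ring

end

end Pool.Agent.ShG
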