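import Pool.Agent.ShG.Targets

/-! TAU: the tensors `τ`, `ζ`, `𝒮`. -/

namespace Pool.Agent.ShG

open scoped BigOperators Topology ContDiff
open Set Filter

noncomputable section

variable {n : ℕ} {S : Type} [TopologicalSpace S] {M : Hyp n S}

open Hyp

lemma TAU_dl_tau {p : S} (hp : M.H p ≠ 0) (a b c : Fin (n + 1)) :
    M.dl a (M.tau b c) p
      = M.S3 a b c p + (M.N p b * M.B2 a c p + M.N p c * M.B2 a b p) / M.H p := by
  have e : M.tau b c = fun q => M.B b c q / M.H q := rfl
  rw [e, dl_div (Sm.B M b c p) (Sm.H M p) hp]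
  simp only [Hyp.S3, Hyp.T3, Hyp.ze]
  field_simp
  ring

lemma TAU_XN (hS : M.Shr) (p : S) : ∑ c, M.X p c * M.N p c = - M.H p := by
  rw [hS p, neg_neg, PiLp.inner_apply]
  refine Finset.sum_congr rfl fun c _ => ?_
  simp [mul_comm]

theorem pTAU (hT3 : tT3) (hGH : tGH) : tTAU := by
  intro n S _ M hS p hp
  obtain ⟨s12, s23, hN, -, -, -, -, -⟩ := hT3 n S M p
  have hgh := hGH n S M hS
  have hze : ∀ q, M.H q ≠ 0 → ∀ a, M.ze a q = ∑ b, M.tau a b q * M.X q b := by
    intro q _ a
    simp only [Hyp.ze, Hyp.tau]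
    rw [hgh a q, Finset.sum_div]
    refine Finset.sum_congr rfl fun b _ => ?_
    ring
  refine ⟨fun a b c => TAU_dl_tau hp a b c, ?_, ?_, ?_, ?_, ?_, ?_, hze p hp, ?_⟩
  · intro a b c
    simp only [Hyp.S3]
    rw [s23 a b c, B_symm b c]
  · intro b c
    have h1 : ∑ a, M.N p a * M.S3 a b c p =
        ((∑ a, M.N p a * M.T3 a b c p)
          - (∑ a, M.N p a * M.dl a M.H p) * (M.B b c p / M.H p)) / M.H p := by
      rw [Finset.sum_mul, ← Finset.sum_sub_distrib, Finset.sum_div]
      refine Finset.sum_congr rfl fun a _ => ?_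
      simp only [Hyp.S3, Hyp.ze]
      ring
    rw [h1, hN, M.dl_N]
    simp
  · intro a c
    have h1 : ∑ b, M.N p b * M.S3 a b c p =
        ((∑ b, M.N p b * M.T3 b a c p) - M.ze a p * (∑ b, M.N p b * M.B b c p)) / M.H p := by
      rw [Finset.mul_sum, ← Finset.sum_sub_distrib, Finset.sum_div]
      refine Finset.sum_congr rfl fun b _ => ?_
      simp only [Hyp.S3]
      rw [s12 b a c]
      ring
    rw [h1, hN, B_N_left]
    simp
  · intro a b c
    simp only [Hyp.S3, Hyp.tau]
    rw [s12 b a c]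
    ring
  · have h1 : ∑ a, M.tau a a p = M.H p / M.H p := by
      simp only [Hyp.tau]
      rw [← Finset.sum_div]
      rfl
    rw [h1, div_self hp]
  · simp only [Hyp.tau, Hyp.Fq, Hyp.w, div_pow]
    rw [Finset.sum_div]
    refine Finset.sum_congr rfl fun a _ => ?_
    rw [Finset.sum_div]
  · intro a b
    have hev : M.ze b =ᶠ[𝓝 p] fun q => ∑ c, M.tau b c q * M.Xc c q := by
      filter_upwards [(Sm.H M p).continuousAt.eventually_ne hp] with q hq
      exact hze q hq b
    rw [dl_congr M hev a, dl_sum (fun c _ => (Sm.tau hp b c).mul (Sm.Xc M c p)) a]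
    have h1 : ∀ c, M.dl a (fun q => M.tau b c q * M.Xc c q) p
        = (M.tau b c p * (if a = c then 1 else 0)) - M.N p a / M.H p * (M.B b c p * M.N p c)
          + M.S3 a b c p * M.X p c + M.N p b * (M.B2 a c p * M.X p c) / M.H p
          + M.B2 a b p / M.H p * (M.X p c * M.N p c) := by
      intro c
      rw [dl_mul (Sm.tau hp b c) (Sm.Xc M c p), M.dl_X, TAU_dl_tau hp]
      have e : M.Xc c p = M.X p c := rfl
      rw [e]
      simp only [Hyp.tau]
      ring
    simp_rw [h1]
    rw [Finset.sum_add_distrib, Finset.sum_add_distrib, Finset.sum_add_distrib,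
      Finset.sum_sub_distrib, ← Finset.mul_sum, ← Finset.mul_sum, B_N_right, TAU_XN hS,
      ← Finset.sum_div, ← Finset.mul_sum]
    simp only [mul_ite, mul_one, mul_zero, Finset.sum_ite_eq, Finset.mem_univ, if_true]
    have h2 : M.tau b a p = M.tau a b p := by
      simp only [Hyp.tau]
      rw [B_symm]
    rw [h2]
    field_simp
    ring

end

end Pool.Agent.ShG
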