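import Pool.Agent.ShG.Targets

/-! The function `ϑ(q) = τ_q(e,e)/(1 - ⟨e, N q⟩²)`. -/

namespace Pool.Agent.ShG

open scoped BigOperators Topology ContDiff
open Set Filter

noncomputable section

variable {n : ℕ} {S : Type} [TopologicalSpace S] {M : Hyp n S}

open Hyp

lemma THE_LL_mul {Z1 Z2 : S → ℝ} {p : S} (h1 : M.Sm Z1 p) (h2 : M.Sm Z2 p) :
    M.LL (fun q => Z1 q * Z2 q) p = Z1 p * M.LL Z2 p + Z2 p * M.LL Z1 p
      + 2 * ∑ a, M.dl a Z1 p * M.dl a Z2 p := by
  unfold LL
  rw [Lap_mul h1 h2]
  have e : ∑ a, M.ze a p * M.dl a (fun q => Z1 q * Z2 q) p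
      = Z1 p * ∑ a, M.ze a p * M.dl a Z2 p + Z2 p * ∑ a, M.ze a p * M.dl a Z1 p := by
    rw [Finset.mul_sum, Finset.mul_sum, ← Finset.sum_add_distrib]
    refine Finset.sum_congr rfl fun a _ => ?_
    rw [dl_mul h1 h2]; ring
  rw [e]; ring

/-- `ℒ (β / H) = (Lap β - (1-w) β)/H` -/
lemma THE_LL_divH (hLW : tLW) (hM : M.Shr) {β : S → ℝ} {p : S} (hH : M.H p ≠ 0)
    (hβ : M.Sm β p) :
    M.LL (fun q => β q * (M.H q)⁻¹) p = (M.Lap β p - (1 - M.w p) * β p) / M.H p := by
  have hHs := Sm.H M p
  unfold LL
  rw [Lap_mul hβ (hHs.inv hH), Lap_inv hHs hH, (hLW n S M hM p).1]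
  have e1 : ∑ a, M.dl a β p * M.dl a (fun q => (M.H q)⁻¹) p
      = - (∑ a, M.dl a β p * M.dl a M.H p) / (M.H p) ^ 2 := by
    rw [neg_div, Finset.sum_div, ← Finset.sum_neg_distrib]
    refine Finset.sum_congr rfl fun a _ => ?_
    rw [dl_inv hHs hH]; ring
  have e2 : ∑ a, M.ze a p * M.dl a (fun q => β q * (M.H q)⁻¹) p
      = (∑ a, M.dl a β p * M.dl a M.H p) / (M.H p) ^ 2 - β p * M.gsq M.H p / (M.H p) ^ 3 := by
    unfold gsq
    rw [Finset.mul_sum, Finset.sum_div, Finset.sum_div, ← Finset.sum_sub_distrib]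
    refine Finset.sum_congr rfl fun a _ => ?_
    rw [dl_mul hβ (hHs.inv hH), dl_inv hHs hH]
    unfold ze
    field_simp
    ring
  rw [e1, e2]
  field_simp
  ring

theorem pTHE (hLB : tLB) (hLW : tLW) : tTHE := by
  intro n S _ M hM p e l hH he heN hB
  have hee : ∑ a, e a * e a = 1 := by
    have h1 : inner ℝ e e = (1 : ℝ) := by rw [real_inner_self_eq_norm_sq, he]; norm_num
    rw [inner_sum] at h1
    exact h1
  have heN' : ∑ a, e a * M.N p a = 0 := by rw [← inner_sum]; exact heN
  have hBe : ∀ a, ∑ b, M.B a b p * e b = l * M.H p * e a := by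
    intro a
    have h1 := congrArg (fun v : Fs n => v a) hB
    simpa [Bv_apply] using h1
  have hBe' : ∀ a, ∑ b, e b * M.B a b p = l * M.H p * e a := by
    intro a
    rw [← hBe a]
    exact Finset.sum_congr rfl fun b _ => mul_comm _ _
  set β : S → ℝ := fun q => ∑ a, ∑ b, e a * e b * M.B a b q with hβdef
  have hβs : M.Sm β p :=
    Sm.sum fun a _ => Sm.sum fun b _ => (Sm.B M a b p).const_mul (e a * e b)
  have hβp : β p = l * M.H p := by
    have h1 : β p = ∑ a, e a * (l * M.H p * e a) := by
      refine Finset.sum_congr rfl fun a _ => ?_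
      rw [← hBe a, Finset.mul_sum]
      refine Finset.sum_congr rfl fun b _ => by ring
    rw [h1]
    calc ∑ a, e a * (l * M.H p * e a) = l * M.H p * ∑ a, e a * e a := by
          rw [Finset.mul_sum]
          exact Finset.sum_congr rfl fun a _ => by ring
      _ = l * M.H p := by rw [hee, mul_one]
  have htq : M.tq e = fun q => β q * (M.H q)⁻¹ := by
    funext q
    simp only [Hyp.tq, hβdef, Finset.sum_mul]
    refine Finset.sum_congr rfl fun a _ => Finset.sum_congr rfl fun b _ => ?_
    unfold Hyp.tau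
    rw [div_eq_mul_inv]; ring
  have htqp : M.tq e p = l := by
    rw [htq]
    change β p * (M.H p)⁻¹ = l
    rw [hβp]
    field_simp
  -- the function `u = ⟨e, N⟩`
  set u : S → ℝ := fun q => ∑ b, e b * M.Nc b q with hudef
  have hu : ∀ q, inner ℝ e (M.N q) = u q := by
    intro q
    rw [inner_sum]
    rfl
  have hus : M.Sm u p := Sm.sum fun b _ => (Sm.Nc M b p).const_mul (e b)
  have hup : u p = 0 := by rw [← hu]; exact heN
  have hdu : ∀ a, M.dl a u p = - (l * M.H p * e a) := by
    intro a
    rw [hudef, dl_sum (fun b _ => (Sm.Nc M b p).const_mul (e b)), ← hBe a,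
      ← Finset.sum_neg_distrib]
    refine Finset.sum_congr rfl fun b _ => ?_
    rw [dl_const_mul _ (Sm.Nc M b p), dl_Nc]; ring
  have hgu : M.gsq u p = (l * M.H p) ^ 2 := by
    unfold gsq
    have h1 : ∀ a, M.dl a u p ^ 2 = (l * M.H p) ^ 2 * (e a * e a) := by
      intro a
      rw [hdu]; ring
    simp only [h1]
    rw [← Finset.mul_sum, hee, mul_one]
  set D : S → ℝ := fun q => 1 - u q ^ 2 with hDdef
  have hDs : M.Sm D p := (Sm.const M 1 p).sub (hus.pow 2)
  have hDp : D p = 1 := by simp only [hDdef, hup]; norm_num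
  have hDp0 : D p ≠ 0 := by rw [hDp]; norm_num
  have hdD : ∀ a, M.dl a D p = 0 := by
    intro a
    rw [hDdef, dl_sub (Sm.const M 1 p) (hus.pow 2), dl_const, dl_sq hus, hup]; ring
  have hgD : M.gsq D p = 0 := by
    unfold gsq
    exact Finset.sum_eq_zero fun a _ => by rw [hdD]; norm_num
  have hLD : M.Lap D p = - 2 * (l * M.H p) ^ 2 := by
    rw [hDdef, Lap_sub (Sm.const M 1 p) (hus.pow 2), Lap_const, Lap_sq hus, hup, hgu]; ring
  have hfun : (fun q => M.tq e q / (1 - (inner ℝ e (M.N q)) ^ 2))
      = fun q => M.tq e q * (D q)⁻¹ := by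
    funext q
    rw [hu q, div_eq_mul_inv]
  have htqs : M.Sm (M.tq e) p := Sm.tq hH e
  refine ⟨?_, htqp, ?_⟩
  · rw [hfun]
    exact htqs.mul (hDs.inv hDp0)
  · rw [hfun, THE_LL_mul htqs (hDs.inv hDp0)]
    have e1 : ∑ a, M.dl a (M.tq e) p * M.dl a (fun q => (D q)⁻¹) p = 0 := by
      refine Finset.sum_eq_zero fun a _ => ?_
      rw [dl_inv hDs hDp0, hdD]; simp
    have e2 : M.LL (fun q => (D q)⁻¹) p = 2 * (l * M.H p) ^ 2 := by
      unfold LL
      rw [Lap_inv hDs hDp0, hLD, hgD, hDp]
      have : ∑ a, M.ze a p * M.dl a (fun q => (D q)⁻¹) p = 0 := by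
        refine Finset.sum_eq_zero fun a _ => ?_
        rw [dl_inv hDs hDp0, hdD]; simp
      rw [this]; ring
    have e3 : M.LL (M.tq e) p = - 2 * l ^ 3 * M.H p ^ 2 := by
      rw [htq, THE_LL_divH hLW hM hH hβs]
      have h1 : M.Lap β p = (1 - M.w p) * β p - 2 * (l * M.H p) ^ 3 := by
        have h2 : M.Lap β p = ∑ a, ∑ b, e a * e b * M.Lap (M.B a b) p := by
          rw [hβdef, Lap_sum (fun a _ => Sm.sum fun b _ =>
            (Sm.B M a b p).const_mul (e a * e b))]
          refine Finset.sum_congr rfl fun a _ => ?_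
          rw [Lap_sum (fun b _ => (Sm.B M a b p).const_mul (e a * e b))]
          refine Finset.sum_congr rfl fun b _ => ?_
          rw [Lap_const_mul _ (Sm.B M a b p)]
        have h3 : ∑ a, ∑ b, e a * e b * M.B3 a b p = (l * M.H p) ^ 3 := by
          have k1 : ∀ a, ∑ b, e a * e b * M.B3 a b p
              = e a * ((l * M.H p) ^ 3 * e a) := by
            intro a
            have k2 : ∀ c, ∑ b, e b * M.B c b p = l * M.H p * e c := hBe'
            have k3 : ∑ b, e b * M.B3 a b p = (l * M.H p) ^ 3 * e a := by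
              calc ∑ b, e b * M.B3 a b p
                  = ∑ b, ∑ c, M.B2 a c p * (e b * M.B c b p) := by
                    refine Finset.sum_congr rfl fun b _ => ?_
                    unfold Hyp.B3
                    rw [Finset.mul_sum]
                    exact Finset.sum_congr rfl fun c _ => by ring
                _ = ∑ c, M.B2 a c p * (l * M.H p * e c) := by
                    rw [Finset.sum_comm]
                    refine Finset.sum_congr rfl fun c _ => ?_
                    rw [← Finset.mul_sum, k2]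
                _ = ∑ c, ∑ d, l * M.H p * (M.B a d p * (e c * M.B d c p)) := by
                    refine Finset.sum_congr rfl fun c _ => ?_
                    unfold Hyp.B2
                    rw [Finset.sum_mul]
                    exact Finset.sum_congr rfl fun d _ => by ring
                _ = ∑ d, l * M.H p * (M.B a d p * (l * M.H p * e d)) := by
                    rw [Finset.sum_comm]
                    refine Finset.sum_congr rfl fun d _ => ?_
                    rw [← Finset.mul_sum, ← Finset.mul_sum, k2]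
                _ = (l * M.H p) ^ 2 * ∑ d, M.B a d p * e d := by
                    rw [Finset.mul_sum]
                    exact Finset.sum_congr rfl fun d _ => by ring
                _ = (l * M.H p) ^ 3 * e a := by rw [hBe]; ring
            calc ∑ b, e a * e b * M.B3 a b p = e a * ∑ b, e b * M.B3 a b p := by
                  rw [Finset.mul_sum]
                  exact Finset.sum_congr rfl fun b _ => by ring
              _ = _ := by rw [k3]
          simp only [k1]
          calc ∑ a, e a * ((l * M.H p) ^ 3 * e a) = (l * M.H p) ^ 3 * ∑ a, e a * e a := by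
                rw [Finset.mul_sum]
                exact Finset.sum_congr rfl fun a _ => by ring
            _ = (l * M.H p) ^ 3 := by rw [hee, mul_one]
        have h4 : ∀ x y : Fin (n + 1) → ℝ, ∑ a, ∑ b, (x a) * (y b) = (∑ a, x a) * ∑ b, y b := by
          intro x y
          rw [Finset.sum_mul_sum]
        rw [h2]
        have h5 : ∀ a b, e a * e b * M.Lap (M.B a b) p
            = (1 - M.w p) * (e a * e b * M.B a b p) - 2 * (e a * e b * M.B3 a b p)
              + 2 * M.tr3 p * ((e a * M.N p a) * (e b * M.N p b))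
              + (e a * M.dl a M.w p) * (e b * M.N p b)
              + (e a * M.N p a) * (e b * M.dl b M.w p) := by
          intro a b
          rw [hLB n S M hM a b p]; ring
        simp only [h5, Finset.sum_add_distrib, Finset.sum_sub_distrib]
        have h6 : ∑ a, ∑ b, (1 - M.w p) * (e a * e b * M.B a b p) = (1 - M.w p) * β p := by
          simp only [hβdef, Finset.mul_sum]
        have h7 : ∑ a, ∑ b, 2 * (e a * e b * M.B3 a b p) = 2 * (l * M.H p) ^ 3 := by
          rw [← h3]
          simp only [Finset.mul_sum]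
        have h8 : ∑ a, ∑ b, 2 * M.tr3 p * ((e a * M.N p a) * (e b * M.N p b)) = 0 := by
          have : ∑ a, ∑ b, 2 * M.tr3 p * ((e a * M.N p a) * (e b * M.N p b))
              = 2 * M.tr3 p * ((∑ a, e a * M.N p a) * ∑ b, e b * M.N p b) := by
            rw [← h4]
            simp only [Finset.mul_sum]
          rw [this, heN']; ring
        have h9 : ∑ a, ∑ b, (e a * M.dl a M.w p) * (e b * M.N p b) = 0 := by
          rw [h4 (fun a => e a * M.dl a M.w p) (fun b => e b * M.N p b), heN']; ring
        have h10 : ∑ a, ∑ b, (e a * M.N p a) * (e b * M.dl b M.w p) = 0 := by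
          rw [h4 (fun a => e a * M.N p a) (fun b => e b * M.dl b M.w p), heN']; ring
        rw [h6, h7, h8, h9, h10]; ring
      rw [h1]
      field_simp
      ring
    rw [e1, e2, e3, hDp, htqp]
    ring

end

end Pool.Agent.ShG
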