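import Pool.Agent.ShG.CG3

/-!
# ShG: transport in a section (target `tTRA`)
-/

set_option autoImplicit false

namespace Pool.Agent.ShG

open scoped BigOperators Topology ContDiff
open Set Filter

noncomputable section

/-- `cx f0 f1` as a continuous linear map -/
def TRA_cx {n : ℕ} (f0 f1 : Fs n) : Fs n →L[ℝ] ℂ :=
  (innerSL ℝ f0).smulRight (1 : ℂ) + (innerSL ℝ f1).smulRight Complex.I

lemma TRA_cx_apply {n : ℕ} (f0 f1 x : Fs n) : TRA_cx f0 f1 x = cx f0 f1 x := by
  unfold TRA_cx cx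
  rw [add_apply, ContinuousLinearMap.smulRight_apply, ContinuousLinearMap.smulRight_apply,
    innerSL_apply_apply, innerSL_apply_apply, real_inner_comm x f0, real_inner_comm x f1]
  apply Complex.ext <;> simp

variable {n : ℕ} {S : Type} [TopologicalSpace S]

/-- derivative of the components of the normal -/
lemma TRA_dN (M : Hyp n S) (f x : Fs n) (q : S) :
    ∑ a, M.dl a (fun q => (inner ℝ (M.N q) f : ℝ)) q * x a = - inner ℝ (M.Bv q x) f := by
  have e : (fun q => (inner ℝ (M.N q) f : ℝ)) = fun q => ∑ b, f b * M.Nc b q := by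
    funext q
    rw [PiLp.inner_apply]
    refine Finset.sum_congr rfl fun b _ => ?_
    change inner ℝ (M.N q b) (f b) = f b * M.N q b
    rw [RCLike.inner_apply, conj_trivial]
  rw [e]
  have h1 : ∀ a, M.dl a (fun q => ∑ b, f b * M.Nc b q) q = - ∑ b, f b * M.B a b q := by
    intro a
    rw [Hyp.dl_sum (fun b _ => (Hyp.Sm.Nc M b q).const_mul (f b)), ← Finset.sum_neg_distrib]
    refine Finset.sum_congr rfl fun b _ => ?_
    rw [Hyp.dl_const_mul _ (Hyp.Sm.Nc M b q), Hyp.dl_Nc]
    ring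
  simp_rw [h1]
  rw [PiLp.inner_apply, ← Finset.sum_neg_distrib]
  have h2 : ∀ a, (- ∑ b, f b * M.B a b q) * x a = ∑ b, - (f b * M.B a b q * x a) := by
    intro a
    rw [Finset.sum_neg_distrib, neg_mul, Finset.sum_mul]
  simp_rw [h2]
  rw [Finset.sum_comm]
  refine Finset.sum_congr rfl fun b _ => ?_
  rw [RCLike.inner_apply, conj_trivial, Hyp.Bv_apply, Finset.mul_sum, ← Finset.sum_neg_distrib]
  refine Finset.sum_congr rfl fun a _ => ?_
  rw [Hyp.B_symm a b q]
  ring

lemma TRA_smN (M : Hyp n S) (f : Fs n) (q : S) : M.Sm (fun q => (inner ℝ (M.N q) f : ℝ)) q := by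
  have e : (fun q => (inner ℝ (M.N q) f : ℝ)) = fun q => ∑ b, f b * M.Nc b q := by
    funext q
    rw [PiLp.inner_apply]
    refine Finset.sum_congr rfl fun b _ => ?_
    change inner ℝ (M.N q b) (f b) = f b * M.N q b
    rw [RCLike.inner_apply, conj_trivial]
  rw [e]
  exact Hyp.Sm.sum fun b _ => (Hyp.Sm.Nc M b q).const_mul (f b)

/-- transport in a section -/
theorem pTRA : tTRA := by
  intro n S _ _ M f0 f1 hS hP γ ν hprof p ι g σ hN u hu u' hu' s hs1 hs2
  obtain ⟨hsec, hslope⟩ := hN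
  set d : Es n := u' - u with hd
  set v : ℝ → Es n := fun t => u + t • d with hv
  have hvm : ∀ t ∈ Icc (0:ℝ) 1, v t ∈ Metric.ball (0 : Es n) (1 / 8) := fun t ht =>
    (convex_ball (0 : Es n) (1 / 8)).add_smul_sub_mem hu hu' ht
  have hvd : ∀ t, HasDerivAt v d t := by
    intro t
    have := ((hasDerivAt_id t).smul_const d).const_add u
    exact this.congr_deriv (one_smul ℝ d)
  set ξ : ℝ → Fs n := fun t => ι d + (fderiv ℝ g (v t) d) • M.N p with hξ
  -- derivative of functions along the curve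
  have hXd : ∀ t ∈ Icc (0:ℝ) 1, HasDerivAt (fun t => M.X (σ (v t))) (ξ t) t := by
    intro t ht
    have h1 := (hsec.hasFDeriv (hvm t ht)).comp_hasDerivAt t (hvd t)
    rw [IsSec.hasFDeriv_apply] at h1
    exact h1
  have hZd : ∀ (Z : S → ℝ), (∀ q, M.Sm Z q) → ∀ t ∈ Icc (0:ℝ) 1,
      HasDerivAt (fun t => Z (σ (v t))) (∑ a, M.dl a Z (σ (v t)) * ξ t a) t := by
    intro Z hZ t ht
    have h1 := (Hyp.sec_hasFDeriv hsec (hvm t ht) (hZ _)).comp_hasDerivAt t (hvd t)
    refine h1.congr_deriv ?_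
    rw [ContinuousLinearMap.comp_apply, IsSec.hasFDeriv_apply, innerSL_apply_apply,
      Hyp.inner_sum]
    rfl
  -- the velocity is tangential
  have hξN : ∀ t ∈ Icc (0:ℝ) 1, inner ℝ (ξ t) (M.N (σ (v t))) = (0:ℝ) := by
    intro t ht
    have hg : fderiv ℝ g (v t) d = inner ℝ (gradient g (v t)) d := by
      unfold gradient
      rw [InnerProductSpace.toDual_symm_apply]
    rw [hsec.normal _ (hvm t ht), inner_smul_right]
    simp only [hξ]
    rw [inner_add_left, inner_sub_right, inner_sub_right, hsec.perp, inner_smul_left,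
      inner_smul_left, M.NN, ι.inner_map_map, real_inner_comm (ι (gradient g (v t))) (M.N p),
      hsec.perp, hg, real_inner_comm d (gradient g (v t))]
    simp
  have hξn : ∀ t ∈ Icc (0:ℝ) 1, ‖ξ t‖ ≤ 2 * ‖d‖ := by
    intro t ht
    simp only [hξ]
    refine (norm_add_le _ _).trans ?_
    have hg : fderiv ℝ g (v t) d = inner ℝ (gradient g (v t)) d := by
      unfold gradient
      rw [InnerProductSpace.toDual_symm_apply]
    rw [ι.norm_map, norm_smul, M.unit, mul_one, hg]
    have h4 := norm_inner_le_norm (𝕜 := ℝ) (gradient g (v t)) d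
    have h5 := hslope (v t) (hvm t ht)
    nlinarith [norm_nonneg d, norm_nonneg (gradient g (v t))]
  -- components of the normal
  set n0 : ℝ → ℝ := fun t => inner ℝ (M.N (σ (v t))) f0 with hn0
  set n1 : ℝ → ℝ := fun t => inner ℝ (M.N (σ (v t))) f1 with hn1
  have hNN : ∀ t, n0 t * n0 t + n1 t * n1 t = 1 := by
    intro t
    have h1 : inner ℝ (M.N (σ (v t))) (M.N (σ (v t))) = inner ℝ (M.N (σ (v t)))
        ((inner ℝ (M.N (σ (v t))) f0 : ℝ) • f0 + (inner ℝ (M.N (σ (v t))) f1 : ℝ) • f1) :=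
      congrArg (fun x => inner ℝ (M.N (σ (v t))) x) (hP.2.2.2 (σ (v t))).1
    rw [M.NN, inner_add_right, inner_smul_right, inner_smul_right] at h1
    exact h1.symm
  set lam : ℝ → ℝ := fun t => - n1 t * inner ℝ (ξ t) f0 + n0 t * inner ℝ (ξ t) f1 with hlam
  have hperp : ∀ t ∈ Icc (0:ℝ) 1, n0 t * inner ℝ (ξ t) f0 + n1 t * inner ℝ (ξ t) f1 = 0 := by
    intro t ht
    have h1 := hξN t ht
    rw [(hP.2.2.2 (σ (v t))).1, inner_add_right, inner_smul_right, inner_smul_right] at h1
    exact h1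
  have hx0 : ∀ t ∈ Icc (0:ℝ) 1, inner ℝ (ξ t) f0 = - lam t * n1 t := by
    intro t ht
    have h1 := hperp t ht
    have h2 := hNN t
    simp only [hlam]
    linear_combination (- inner ℝ (ξ t) f0) * h2 + n0 t * h1
  have hx1 : ∀ t ∈ Icc (0:ℝ) 1, inner ℝ (ξ t) f1 = lam t * n0 t := by
    intro t ht
    have h1 := hperp t ht
    have h2 := hNN t
    simp only [hlam]
    linear_combination (- inner ℝ (ξ t) f1) * h2 + n1 t * h1
  have hlamn : ∀ t ∈ Icc (0:ℝ) 1, |lam t| ≤ 2 * ‖d‖ := by
    intro t ht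
    have h1 : lam t = inner ℝ (ξ t) (- n1 t • f0 + n0 t • f1) := by
      rw [inner_add_right, inner_smul_right, inner_smul_right]
    have h2 : ‖(- n1 t • f0 + n0 t • f1 : Fs n)‖ = 1 := by
      have h3 : ‖(- n1 t • f0 + n0 t • f1 : Fs n)‖ ^ 2 = 1 := by
        rw [norm_add_sq_real, norm_smul, norm_smul, inner_smul_left, inner_smul_right,
          hP.2.2.1, hP.1, hP.2.1]
        have := hNN t
        simp only [Real.norm_eq_abs, mul_one, sq_abs]
        simp
        linarith
      have := norm_nonneg (- n1 t • f0 + n0 t • f1 : Fs n)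
      nlinarith
    rw [h1]
    refine (abs_real_inner_le_norm _ _).trans ?_
    rw [h2, mul_one]
    exact hξn t ht
  -- derivatives of the components of the normal
  have hBv : ∀ t ∈ Icc (0:ℝ) 1, M.Bv (σ (v t)) (ξ t)
      = (M.H (σ (v t)) * lam t) • (- n1 t • f0 + n0 t • f1) := by
    intro t ht
    rw [(hP.2.2.2 (σ (v t))).2 (ξ t)]
    congr 2
    rw [inner_add_right, inner_smul_right, inner_smul_right]
  have hf00 : inner ℝ f0 f0 = (1:ℝ) := by rw [real_inner_self_eq_norm_sq, hP.1]; norm_num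
  have hf11 : inner ℝ f1 f1 = (1:ℝ) := by rw [real_inner_self_eq_norm_sq, hP.2.1]; norm_num
  have hf01 : inner ℝ f0 f1 = (0:ℝ) := hP.2.2.1
  have hf10 : inner ℝ f1 f0 = (0:ℝ) := by rw [real_inner_comm]; exact hf01
  have hn0d : ∀ t ∈ Icc (0:ℝ) 1, HasDerivAt n0 (M.H (σ (v t)) * lam t * n1 t) t := by
    intro t ht
    refine (hZd _ (fun q => TRA_smN M f0 q) t ht).congr_deriv ?_
    rw [TRA_dN, hBv t ht, inner_smul_left, inner_add_left, inner_smul_left, inner_smul_left,
      hf00, hf10]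
    simp
  have hn1d : ∀ t ∈ Icc (0:ℝ) 1, HasDerivAt n1 (- (M.H (σ (v t)) * lam t * n0 t)) t := by
    intro t ht
    refine (hZd _ (fun q => TRA_smN M f1 q) t ht).congr_deriv ?_
    rw [TRA_dN, hBv t ht, inner_smul_left, inner_add_left, inner_smul_left, inner_smul_left,
      hf01, hf11]
    simp
  -- continuity of `lam`
  have hlamc : ContinuousOn lam (Icc 0 1) := by
    have hvc : Continuous v := continuous_const.add (continuous_id.smul continuous_const)
    have hfd : ContinuousOn (fun t => fderiv ℝ g (v t) d) (Icc 0 1) := by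
      have h1 : ContinuousOn (fderiv ℝ g) (Metric.ball (0 : Es n) (1 / 8)) :=
        hsec.smooth.continuousOn_fderiv_of_isOpen Metric.isOpen_ball (by simp)
      exact (h1.comp hvc.continuousOn hvm).clm_apply continuousOn_const
    have hξc : ContinuousOn ξ (Icc 0 1) :=
      continuousOn_const.add (hfd.smul continuousOn_const)
    have h0 : ContinuousOn n0 (Icc 0 1) := fun t ht => (hn0d t ht).continuousAt.continuousWithinAt
    have h1 : ContinuousOn n1 (Icc 0 1) := fun t ht => (hn1d t ht).continuousAt.continuousWithinAt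
    exact (h1.neg.mul (hξc.inner continuousOn_const)).add (h0.mul (hξc.inner continuousOn_const))
  set lm : ℝ → ℝ := fun t => lam (projIcc 0 1 zero_le_one t : ℝ) with hlm
  have hlmc : Continuous lm := by
    refine hlamc.comp_continuous (continuous_subtype_val.comp continuous_projIcc) ?_
    exact fun t => (projIcc (0:ℝ) 1 zero_le_one t).2
  have hlme : ∀ t ∈ Icc (0:ℝ) 1, lm t = lam t := by
    intro t ht
    simp only [hlm]
    rw [projIcc_of_mem zero_le_one ht]
  have hlmn : ∀ t, |lm t| ≤ 2 * ‖d‖ := fun t => hlamn _ (projIcc (0:ℝ) 1 zero_le_one t).2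
  set θ : ℝ → ℝ := fun t => ∫ r in (0:ℝ)..t, lm r with hθ
  have hθd : ∀ t, HasDerivAt θ (lm t) t := fun t =>
    (hlmc.integral_hasStrictDerivAt 0 t).hasDerivAt
  -- the two solutions
  set F : ℝ → ℂ × ℂ := fun t => (cx f0 f1 (M.X (σ (v t))), cx f0 f1 (M.N (σ (v t)))) with hF
  set G : ℝ → ℂ × ℂ := fun t => (γ (s + θ t), ν (s + θ t)) with hG
  have hFd : ∀ t ∈ Icc (0:ℝ) 1, HasDerivAt F (lm t • CG3_v (F t)) t := by
    intro t ht
    have h1 : HasDerivAt (fun t => cx f0 f1 (M.X (σ (v t)))) (cx f0 f1 (ξ t)) t := by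
      have h2 := (TRA_cx f0 f1).hasFDerivAt.comp_hasDerivAt t (hXd t ht)
      rw [TRA_cx_apply] at h2
      refine h2.congr_of_eventuallyEq (Eventually.of_forall fun r => ?_)
      exact (TRA_cx_apply f0 f1 _).symm
    have h3 : HasDerivAt (fun t => cx f0 f1 (M.N (σ (v t))))
        ((M.H (σ (v t)) * lam t * n1 t : ℝ) + (- (M.H (σ (v t)) * lam t * n0 t) : ℝ) * Complex.I)
        t := by
      have h4 := (hn0d t ht).ofReal_comp.add ((hn1d t ht).ofReal_comp.mul_const Complex.I)
      refine h4.congr_of_eventuallyEq (Eventually.of_forall fun r => ?_)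
      apply Complex.ext <;> simp [cx, hn0, hn1]
    refine (h1.prodMk h3).congr_deriv ?_
    rw [hlme t ht]
    refine Prod.ext ?_ ?_
    · change cx f0 f1 (ξ t) = lam t • (Complex.I * cx f0 f1 (M.N (σ (v t))))
      apply Complex.ext
      · simp only [cx, hx0 t ht]
        simp [hn1]
      · simp only [cx, hx1 t ht]
        simp [hn0]
    · change _ = lam t • (Complex.I * ((cx f0 f1 (M.X (σ (v t)))
        * (starRingEnd ℂ) (cx f0 f1 (M.N (σ (v t))))).re : ℂ) * cx f0 f1 (M.N (σ (v t))))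
      have h5 := CG3_H M f0 f1 hS hP (σ (v t))
      set Q := (cx f0 f1 (M.X (σ (v t))) * (starRingEnd ℂ) (cx f0 f1 (M.N (σ (v t))))).re with hQ
      rw [h5]
      apply Complex.ext
      · simp [cx, hn1]
        ring
      · simp [cx, hn0]
        ring
  have hGd : ∀ t, HasDerivAt G (lm t • CG3_v (G t)) t := by
    intro t
    have h0 : HasDerivAt (fun t => s + θ t) (lm t) t := (hθd t).const_add s
    obtain ⟨a1, a2, -⟩ := hprof (s + θ t)
    exact (a1.scomp t h0).prodMk (a2.scomp t h0)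
  -- a common bound
  have hFc : ContinuousOn F (Icc 0 1) := fun t ht => (hFd t ht).continuousAt.continuousWithinAt
  have hGc : ContinuousOn G (Icc 0 1) := fun t _ => (hGd t).continuousAt.continuousWithinAt
  obtain ⟨R1, hR1⟩ := isCompact_Icc.exists_bound_of_continuousOn hFc
  obtain ⟨R2, hR2⟩ := isCompact_Icc.exists_bound_of_continuousOn hGc
  set R : ℝ := max 0 (max R1 R2) with hR
  have hR0 : 0 ≤ R := le_max_left _ _
  have hcxN : ∀ t, ‖cx f0 f1 (M.N (σ (v t)))‖ ≤ 1 := by
    intro t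
    have h1 : ‖cx f0 f1 (M.N (σ (v t)))‖ ^ 2 = 1 := by
      rw [← Complex.normSq_eq_norm_sq, Complex.normSq_apply]
      exact hNN t
    have := norm_nonneg (cx f0 f1 (M.N (σ (v t))))
    nlinarith
  have huniq := ODE_solution_unique_of_mem_Icc_right (v := fun t x => lm t • CG3_v x)
    (s := fun _ => {x : ℂ × ℂ | ‖x.1‖ ≤ R ∧ ‖x.2‖ ≤ 1})
    (K := Real.toNNReal (2 * ‖d‖ * (1 + 2 * R))) (f := F) (g := G) (a := 0) (b := 1)
    (fun t _ => ?_) hFc (fun t ht => (hFd t (Ico_subset_Icc_self ht)).hasDerivWithinAt)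
    (fun t ht => ⟨?_, hcxN t⟩) hGc (fun t _ => (hGd t).hasDerivWithinAt)
    (fun t ht => ⟨?_, (hprof _).2.2.le⟩) ?_
  · have h1 := huniq (right_mem_Icc.2 zero_le_one)
    refine ⟨θ 1, ?_, ?_, ?_⟩
    · have h2 := intervalIntegral.norm_integral_le_of_norm_le_const (a := (0:ℝ)) (b := 1)
        (f := lm) (C := 2 * ‖d‖) (fun x _ => by rw [Real.norm_eq_abs]; exact hlmn x)
      rw [Real.norm_eq_abs] at h2
      simpa using h2
    · have h2 := congrArg Prod.fst h1
      have h3 : v 1 = u' := by simp [hv, hd]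
      simp only [hF, hG, h3] at h2
      exact h2
    · have h2 := congrArg Prod.snd h1
      have h3 : v 1 = u' := by simp [hv, hd]
      simp only [hF, hG, h3] at h2
      exact h2
  · refine LipschitzOnWith.of_dist_le_mul fun x hx y hy => ?_
    rw [Real.coe_toNNReal _ (by positivity), dist_smul₀, Real.norm_eq_abs]
    have h1 := (CG3_lip R hR0).dist_le_mul x hx y hy
    rw [Real.coe_toNNReal _ (by linarith)] at h1
    calc |lm t| * dist (CG3_v x) (CG3_v y) ≤ (2 * ‖d‖) * ((1 + 2 * R) * dist x y) :=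
          mul_le_mul (hlmn t) h1 dist_nonneg (by positivity)
      _ = 2 * ‖d‖ * (1 + 2 * R) * dist x y := by ring
  · refine le_trans ?_ ((hR1 t (Ico_subset_Icc_self ht)).trans
      ((le_max_left _ _).trans (le_max_right _ _)))
    exact norm_fst_le (F t)
  · refine le_trans ?_ ((hR2 t (Ico_subset_Icc_self ht)).trans
      ((le_max_right _ _).trans (le_max_right _ _)))
    exact norm_fst_le (G t)
  · have h1 : θ 0 = 0 := by simp [hθ]
    have h2 : v 0 = u := by simp [hv]
    simp only [hF, hG, h1, h2, add_zero, hs1, hs2]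

end

end Pool.Agent.ShG
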