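import Pool.Agent.ShG.Targets

/-!
# Uniform graph charts
-/

namespace Pool.Agent.ShG

open scoped BigOperators Topology ContDiff
open Set Filter

noncomputable section

variable {n : ℕ} {S : Type} [TopologicalSpace S]

/-- derivative of the normal along a curve -/
lemma UGC_deriv (M : Hyp n S) {γ : ℝ → S} {t : ℝ} {s : Set ℝ} {ξ : Fs n}
    (hc : ContinuousWithinAt γ s t)
    (hx : HasDerivWithinAt (fun r => M.X (γ r)) ξ s t) :
    HasDerivWithinAt (fun r => M.N (γ r)) (-(M.Bv (γ t) ξ)) s t := by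
  rw [hasDerivWithinAt_iff_hasFDerivWithinAt, hasFDerivWithinAt_euclidean]
  intro a
  have h1 := Hyp.Sm.comp_within (Hyp.Sm.Nc M a (γ t)) hc hx
  have h2 : ∑ b, M.dl b (M.Nc a) (γ t) * ξ b = -(M.Bv (γ t) ξ a) := by
    rw [Hyp.Bv_apply, ← Finset.sum_neg_distrib]
    refine Finset.sum_congr rfl fun b _ => ?_
    rw [Hyp.dl_Nc, Hyp.B_symm]
    ring
  rw [h2] at h1
  have h3 := h1.hasFDerivWithinAt
  refine HasFDerivWithinAt.congr_fderiv h3 ?_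
  ext
  simp

/-- the norm of the difference of the normals -/
lemma UGC_phi (M : Hyp n S) (q p : S) :
    inner ℝ (M.N q) (M.N p) = 1 - ‖M.N q - M.N p‖ ^ 2 / 2 := by
  rw [norm_sub_sq_real, M.unit, M.unit]
  ring

/-- restriction of a lift -/
lemma UGC_restrict {M : Hyp n S} {p : S} {ι : Es n →ₗᵢ[ℝ] Fs n} {u : Es n} {s : ℝ} {γ : ℝ → S}
    (h : M.Lift p ι u s γ) {t : ℝ} (ht : t ≤ s) : M.Lift p ι u t γ := by
  have hsub : Icc (0:ℝ) t ⊆ Icc 0 s := Icc_subset_Icc_right ht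
  exact ⟨h.1.mono hsub, h.2.1, fun r hr => h.2.2.1 r (hsub hr), fun r hr => h.2.2.2 r (hsub hr)⟩

/-- the a priori estimate, under an assumption on the normal -/
lemma UGC_est (hVEL : tVEL) (hHW : tHW) [T2Space S] (M : Hyp n S) (hw : ∀ p, M.w p ≤ 2) (p : S)
    (ι : Es n →ₗᵢ[ℝ] Fs n) (hι : ∀ v, inner ℝ (ι v) (M.N p) = (0:ℝ)) {u : Es n} (hu : ‖u‖ ≤ 1 / 8)
    {s : ℝ} (hs0 : 0 ≤ s) (hs1 : s ≤ 1) {γ : ℝ → S} (h : M.Lift p ι u s γ)
    (h9 : ∀ t ∈ Icc (0:ℝ) s, 9 / 10 ≤ (inner ℝ (M.N (γ t)) (M.N p) : ℝ)) :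
    49 / 50 ≤ (inner ℝ (M.N (γ s)) (M.N p) : ℝ) ∧ ‖M.X (γ s)‖ ≤ ‖M.X p‖ + 1 := by
  obtain ⟨h1, h2⟩ := hVEL n S M p ι u s (9 / 10) γ hι h (by norm_num) h9
  have hu0 := norm_nonneg u
  have hs : s ∈ Icc (0:ℝ) s := ⟨hs0, le_rfl⟩
  have h0 : (0:ℝ) ∈ Icc (0:ℝ) s := ⟨le_rfl, hs0⟩
  choose! ξ hξ using h1
  constructor
  · have hder : ∀ t ∈ Icc (0:ℝ) s, HasDerivWithinAt (fun r => M.N (γ r))
        (-(M.Bv (γ t) (ξ t))) (Icc 0 s) t := fun t ht =>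
      UGC_deriv M (h.1 t ht) (hξ t ht).1
    have hbd : ∀ t ∈ Icc (0:ℝ) s, ‖-(M.Bv (γ t) (ξ t))‖ ≤ 1 / 5 := by
      intro t ht
      rw [norm_neg]
      have h3 := (hHW n S M (γ t)).2.2.1 (ξ t)
      have h4 := (hξ t ht).2.2.1
      have h5 : ‖ξ t‖ ≤ 5 / 36 := by
        refine h4.trans ?_
        rw [div_le_iff₀ (by norm_num)]
        linarith
      refine le_of_sq_le_sq ?_ (by norm_num)
      have h6 : ‖ξ t‖ ^ 2 ≤ (5 / 36) ^ 2 := pow_le_pow_left₀ (norm_nonneg _) h5 2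
      have h7 : M.w (γ t) * ‖ξ t‖ ^ 2 ≤ 2 * (5 / 36) ^ 2 :=
        mul_le_mul (hw _) h6 (sq_nonneg _) (by norm_num)
      refine h3.trans (h7.trans (by norm_num))
    have h3 := (convex_Icc (0:ℝ) s).norm_image_sub_le_of_norm_hasDerivWithin_le hder hbd h0 hs
    rw [h.2.1, sub_zero, Real.norm_of_nonneg hs0] at h3
    rw [UGC_phi]
    have h4 : ‖M.N (γ s) - M.N p‖ ≤ 1 / 5 := h3.trans (by linarith)
    have h5 := pow_le_pow_left₀ (norm_nonneg _) h4 2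
    linarith
  · have h3 := h2 s hs 0 h0
    rw [h.2.1, sub_zero, abs_of_nonneg hs0] at h3
    have h4 : ‖u‖ / (9 / 10) * s ≤ 1 := by
      have h5 : ‖u‖ / (9 / 10) ≤ 1 := by
        rw [div_le_iff₀ (by norm_num)]
        linarith
      calc ‖u‖ / (9 / 10) * s ≤ 1 * 1 := mul_le_mul h5 hs1 hs0 (by norm_num)
        _ = 1 := by norm_num
    have h5 : ‖M.X (γ s)‖ ≤ ‖M.X (γ s) - M.X p‖ + ‖M.X p‖ := by
      have := norm_add_le (M.X (γ s) - M.X p) (M.X p)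
      rwa [sub_add_cancel] at this
    linarith

/-- the a priori estimate -/
lemma UGC_apriori (hVEL : tVEL) (hHW : tHW) [T2Space S] (M : Hyp n S) (hw : ∀ p, M.w p ≤ 2)
    (p : S) (ι : Es n →ₗᵢ[ℝ] Fs n) (hι : ∀ v, inner ℝ (ι v) (M.N p) = (0:ℝ)) {u : Es n}
    (hu : ‖u‖ ≤ 1 / 8) {s : ℝ} (hs0 : 0 ≤ s) (hs1 : s ≤ 1) {γ : ℝ → S}
    (h : M.Lift p ι u s γ) :
    49 / 50 ≤ (inner ℝ (M.N (γ s)) (M.N p) : ℝ) ∧ ‖M.X (γ s)‖ ≤ ‖M.X p‖ + 1 := by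
  set φ : ℝ → ℝ := fun t => inner ℝ (M.N (γ t)) (M.N p) with hφ
  have hcont : ContinuousOn φ (Icc 0 s) :=
    (M.contN.comp_continuousOn h.1).inner continuousOn_const
  have hφ0 : φ 0 = 1 := by
    simp only [hφ]
    rw [h.2.1]
    exact M.NN p
  refine UGC_est hVEL hHW M hw p ι hι hu hs0 hs1 h ?_
  by_contra hcon
  push Not at hcon
  obtain ⟨t₂, ht₂, hlt⟩ := hcon
  -- the first time at which `φ = 19/20`
  set T : Set ℝ := Icc 0 s ∩ φ ⁻¹' {19 / 20} with hT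
  have hTc : IsCompact T := by
    have h1 : IsClosed T := hcont.preimage_isClosed_of_isClosed isClosed_Icc isClosed_singleton
    exact isCompact_Icc.of_isClosed_subset h1 inter_subset_left
  have hivt : ∀ t ∈ Icc (0:ℝ) s, φ t ≤ 19 / 20 → ∃ r ∈ T, r ≤ t := by
    intro t ht hle
    have h1 : ContinuousOn φ (Icc 0 t) := hcont.mono (Icc_subset_Icc_right ht.2)
    have h2 := intermediate_value_Icc' ht.1 h1
    obtain ⟨r, hr, hr2⟩ := h2 ⟨hle, by rw [hφ0]; norm_num⟩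
    exact ⟨r, ⟨⟨hr.1, hr.2.trans ht.2⟩, hr2⟩, hr.2⟩
  have hTn : T.Nonempty := by
    obtain ⟨r, hr, _⟩ := hivt t₂ ht₂ (by
      have : φ t₂ < 9 / 10 := hlt
      linarith)
    exact ⟨r, hr⟩
  obtain ⟨t₁, ht₁, hmin⟩ := hTc.exists_isLeast hTn
  have h1 : ∀ t ∈ Icc (0:ℝ) t₁, 9 / 10 ≤ φ t := by
    intro t ht
    by_contra hc
    push Not at hc
    have ht' : t ∈ Icc (0:ℝ) s := ⟨ht.1, ht.2.trans ht₁.1.2⟩
    obtain ⟨r, hr, hrt⟩ := hivt t ht' (by linarith)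
    have h2 : t₁ ≤ r := hmin hr
    have h3 : t = t₁ := le_antisymm ht.2 (h2.trans hrt)
    have h4 : φ t₁ = 19 / 20 := ht₁.2
    rw [h3, h4] at hc
    norm_num at hc
  have h2 := (UGC_est hVEL hHW M hw p ι hι hu ht₁.1.1 (ht₁.1.2.trans hs1)
    (UGC_restrict h ht₁.1.2) h1).1
  have h3 : φ t₁ = 19 / 20 := ht₁.2
  change 49 / 50 ≤ φ t₁ at h2
  rw [h3] at h2
  norm_num at h2

theorem pUGC (hVEL : tVEL) (hLIFT : tLIFT) (hHW : tHW) : tUGC := by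
  intro n S _ _ M hw p
  obtain ⟨U, ι, g0, σ0, h0⟩ := M.sec p
  have hι : ∀ v, inner ℝ (ι v) (M.N p) = (0:ℝ) := h0.perp
  obtain ⟨g, σ, hsec, hlift⟩ := hLIFT n S M p ι hι (Metric.ball 0 (1 / 8)) (9 / 10)
    (‖M.X p‖ + 1) Metric.isOpen_ball (Metric.mem_ball_self (by norm_num)) (convex_ball _ _)
    (by norm_num) (by
      intro u hu s hs γ hγ
      rw [mem_ball_zero_iff] at hu
      have h1 := UGC_apriori hVEL hHW M hw p ι hι hu.le hs.1 hs.2 hγ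
      exact ⟨by linarith [h1.1], h1.2⟩)
  refine ⟨ι, g, σ, hsec, fun u hu => ?_⟩
  have hu' := hu
  rw [mem_ball_zero_iff] at hu'
  have h1 := (UGC_apriori hVEL hHW M hw p ι hι hu'.le zero_le_one le_rfl (hlift u hu)).1
  simp only [one_smul] at h1
  rw [hsec.normal u hu, inner_smul_left, inner_sub_left, M.NN, hι, sub_zero, mul_one] at h1
  simp only [conj_trivial] at h1
  set G := ‖gradient g u‖ with hG
  have hG0 : 0 ≤ G := norm_nonneg _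
  have h2 : 0 < Real.sqrt (1 + G ^ 2) := by positivity
  have h3 : Real.sqrt (1 + G ^ 2) ≤ 50 / 49 := by
    have h4 := (le_inv_comm₀ (by norm_num) h2).1 h1
    refine h4.trans (by norm_num)
  have h4 : 1 + G ^ 2 ≤ (50 / 49) ^ 2 := by
    have h5 := pow_le_pow_left₀ h2.le h3 2
    rwa [Real.sq_sqrt (by positivity)] at h5
  nlinarith

end

end Pool.Agent.ShG
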