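import Pool.Agent.ShG.Targets

/-!
# Job VEL of the project ShG
-/

namespace Pool.Agent.ShG

open scoped BigOperators Topology ContDiff
open Set Filter

noncomputable section

theorem VEL_prj {n : ℕ} (ι : Es n →ₗᵢ[ℝ] Fs n) (e : Fs n) (he : ∀ v, inner ℝ (ι v) e = (0:ℝ))
    (u : Es n) (c : ℝ) : prj ι (ι u - c • e) = u := by
  refine ext_inner_right ℝ fun v => ?_
  rw [prj_inner, inner_sub_left, real_inner_smul_left, real_inner_comm (ι v) e, he v,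
    ι.inner_map_map]
  ring

theorem VEL_norm {n : ℕ} (x e m : Fs n) (hxe : inner ℝ x e = (0:ℝ)) (he : ‖e‖ = 1) (hm : ‖m‖ = 1)
    (τ0 : ℝ) (hτ : 0 < τ0) (hφ : τ0 ≤ inner ℝ m e) :
    ‖x - (inner ℝ x m / inner ℝ e m) • e‖ ≤ ‖x‖ / τ0 := by
  set φ : ℝ := inner ℝ m e with hφd
  have hφ' : (inner ℝ e m : ℝ) = φ := real_inner_comm m e
  have hφ0 : 0 < φ := lt_of_lt_of_le hτ hφ
  rw [hφ']
  set a : ℝ := inner ℝ x m with ha
  -- the tangential part of `m`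
  have h1 : a = inner ℝ x (m - φ • e) := by
    rw [inner_sub_right, real_inner_smul_right, hxe, ← ha]
    ring
  have h2 : ‖m - φ • e‖ ^ 2 = 1 - φ ^ 2 := by
    rw [norm_sub_sq_real, real_inner_smul_right, norm_smul, hm, he, ← hφd]
    rw [mul_one, Real.norm_eq_abs, sq_abs]
    ring
  have h3 : a ^ 2 ≤ ‖x‖ ^ 2 * (1 - φ ^ 2) := by
    have h4 : |a| ≤ ‖x‖ * ‖m - φ • e‖ := by
      rw [h1]
      exact abs_real_inner_le_norm _ _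
    calc a ^ 2 = |a| ^ 2 := (sq_abs a).symm
      _ ≤ (‖x‖ * ‖m - φ • e‖) ^ 2 := by gcongr
      _ = ‖x‖ ^ 2 * (1 - φ ^ 2) := by rw [mul_pow, h2]
  have h5 : ‖x - (a / φ) • e‖ ^ 2 = ‖x‖ ^ 2 + (a / φ) ^ 2 := by
    rw [norm_sub_sq_real, real_inner_smul_right, hxe, norm_smul, he]
    rw [mul_one, Real.norm_eq_abs, sq_abs]
    ring
  have h6 : ‖x - (a / φ) • e‖ ^ 2 ≤ (‖x‖ / φ) ^ 2 := by
    rw [h5, div_pow, div_pow]
    have h7 : a ^ 2 / φ ^ 2 ≤ ‖x‖ ^ 2 * (1 - φ ^ 2) / φ ^ 2 := by gcongr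
    have h8 : ‖x‖ ^ 2 * (1 - φ ^ 2) / φ ^ 2 = ‖x‖ ^ 2 / φ ^ 2 - ‖x‖ ^ 2 := by
      field_simp
    linarith
  have h9 : ‖x - (a / φ) • e‖ ≤ ‖x‖ / φ :=
    (sq_le_sq₀ (norm_nonneg _) (by positivity)).1 h6
  refine h9.trans ?_
  gcongr

theorem pVEL (hLFD : tLFD) : tVEL := by
  intro n S _ _ M p ι u s τ0 γ hι hL hτ hφ
  have hA : ∀ t ∈ Icc (0:ℝ) s, HasDerivWithinAt (fun r => M.X (γ r))
      (ι u - (inner ℝ (ι u) (M.N (γ t)) / inner ℝ (M.N p) (M.N (γ t))) • M.N p) (Icc 0 s) t :=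
    hLFD n S M p ι u s γ hι hL
  have hB : ∀ t ∈ Icc (0:ℝ) s,
      ‖ι u - (inner ℝ (ι u) (M.N (γ t)) / inner ℝ (M.N p) (M.N (γ t))) • M.N p‖ ≤ ‖u‖ / τ0 := by
    intro t ht
    have h := VEL_norm (ι u) (M.N p) (M.N (γ t)) (hι u) (M.unit p) (M.unit (γ t)) τ0 hτ (hφ t ht)
    rwa [ι.norm_map] at h
  refine ⟨fun t ht => ⟨_, hA t ht, ?_, hB t ht, VEL_prj ι (M.N p) hι u _⟩, ?_⟩
  · have h1 : (0:ℝ) < inner ℝ (M.N p) (M.N (γ t)) := by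
      rw [real_inner_comm]
      exact lt_of_lt_of_le hτ (hφ t ht)
    rw [inner_sub_left, real_inner_smul_left, div_mul_cancel₀ _ h1.ne', sub_self]
  · intro t ht t' ht'
    have h := Convex.norm_image_sub_le_of_norm_hasDerivWithin_le (C := ‖u‖ / τ0) hA hB
      (convex_Icc 0 s) ht' ht
    rwa [Real.norm_eq_abs] at h

end

end Pool.Agent.ShG
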