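import Pool.Agent.ShG.HW
import Pool.Agent.ShG.NM1
import Pool.Agent.ShG.GH
import Pool.Agent.ShG.COD
import Pool.Agent.ShG.DIV
import Pool.Agent.ShG.LX
import Pool.Agent.ShG.COM
import Pool.Agent.ShG.LB
import Pool.Agent.ShG.T3
import Pool.Agent.ShG.LW
import Pool.Agent.ShG.NM2
import Pool.Agent.ShG.LOI
import Pool.Agent.ShG.LI1
import Pool.Agent.ShG.LIFT
import Pool.Agent.ShG.LFD
import Pool.Agent.ShG.VEL
import Pool.Agent.ShG.UGC
import Pool.Agent.ShG.LOC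
import Pool.Agent.ShG.RCH
import Pool.Agent.ShG.LD
import Pool.Agent.ShG.SGE
import Pool.Agent.ShG.HARN
import Pool.Agent.ShG.BOC
import Pool.Agent.ShG.I1
import Pool.Agent.ShG.I2
import Pool.Agent.ShG.GE
import Pool.Agent.ShG.CUT
import Pool.Agent.ShG.BER
import Pool.Agent.ShG.HV
import Pool.Agent.ShG.CHN
import Pool.Agent.ShG.PAR
import Pool.Agent.ShG.JV
import Pool.Agent.ShG.LAND
import Pool.Agent.ShG.DDH
import Pool.Agent.ShG.HH
import Pool.Agent.ShG.STR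
import Pool.Agent.ShG.PTH
import Pool.Agent.ShG.HLB
import Pool.Agent.ShG.NS
import Pool.Agent.ShG.LSEC
import Pool.Agent.ShG.LEMA
import Pool.Agent.ShG.LOWA
import Pool.Agent.ShG.LOWC
import Pool.Agent.ShG.BASE
import Pool.Agent.ShG.LOWE
import Pool.Agent.ShG.LLR
import Pool.Agent.ShG.LBB
import Pool.Agent.ShG.MX1
import Pool.Agent.ShG.THE
import Pool.Agent.ShG.LLF
import Pool.Agent.ShG.MXP
import Pool.Agent.ShG.LAM
import Pool.Agent.ShG.VIS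
import Pool.Agent.ShG.BDS
import Pool.Agent.ShG.SS1
import Pool.Agent.ShG.SSM
import Pool.Agent.ShG.TAU
import Pool.Agent.ShG.A0
import Pool.Agent.ShG.NEG
import Pool.Agent.ShG.LOGH
import Pool.Agent.ShG.INW
import Pool.Agent.ShG.EXT
import Pool.Agent.ShG.ALL
import Pool.Agent.ShG.RIG
import Pool.Agent.ShG.CL0
import Pool.Agent.ShG.CZ1
import Pool.Agent.ShG.CZ2
import Pool.Agent.ShG.CG1
import Pool.Agent.ShG.PRF
import Pool.Agent.ShG.TRA
import Pool.Agent.ShG.LSO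
import Pool.Agent.ShG.LIN
import Pool.Agent.ShG.CG2
import Pool.Agent.ShG.CG3
import Pool.Agent.ShG.FRM
import Pool.Agent.ShG.SMO
import Pool.Agent.ShG.CAL
import Pool.Agent.ShG.GR0
import Pool.Agent.ShG.MAN
import Pool.Agent.ShG.COV
import Pool.Agent.ShG.CM1
import Pool.Agent.ShG.CM2
import Pool.Agent.ShG.RED
import Pool.Agent.ShG.FIN

/-! All targets proved: the main theorem. -/

namespace Pool.Agent.ShG

theorem aHW : tHW := pHW 
theorem aNM1 : tNM1 := pNM1 aHW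
theorem aGH : tGH := pGH 
theorem aCOD : tCOD := pCOD 
theorem aDIV : tDIV := pDIV aCOD
theorem aLX : tLX := pLX aDIV aGH
theorem aCOM : tCOM := pCOM aDIV aGH
theorem aLB : tLB := pLB aCOD aLX aCOM
theorem aT3 : tT3 := pT3 aCOD
theorem aLW : tLW := pLW aLB aT3
theorem aNM2 : tNM2 := pNM2 aGH aLX aLW aHW
theorem aLOI : tLOI := pLOI 
theorem aLI1 : tLI1 := pLI1 aLOI
theorem aLIFT : tLIFT := pLIFT aLI1 aLOI
theorem aLFD : tLFD := pLFD 
theorem aVEL : tVEL := pVEL aLFD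
theorem aUGC : tUGC := pUGC aVEL aLIFT aHW
theorem aLOC : tLOC := pLOC 
theorem aRCH : tRCH := pRCH aUGC aLOC
theorem aLD : tLD := pLD aLX
theorem aSGE : tSGE := pSGE 
theorem aHARN : tHARN := pHARN aLD aSGE
theorem aBOC : tBOC := pBOC aCOM
theorem aI1 : tI1 := pI1 aBOC aLB
theorem aI2 : tI2 := pI2 aBOC aCOM aLB
theorem aGE : tGE := pGE 
theorem aCUT : tCUT := pCUT aLX
theorem aBER : tBER := pBER aI1 aI2 aGE aCUT aLW aT3 aHW
theorem aHV : tHV := pHV aHARN aLW aT3 aBER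
theorem aCHN : tCHN := pCHN aHV aSGE
theorem aPAR : tPAR := pPAR aLD aSGE
theorem aJV : tJV := pJV aPAR aUGC aLW aBER aT3
theorem aLAND : tLAND := pLAND 
theorem aDDH : tDDH := pDDH aBER aGH
theorem aHH : tHH := pHH aGH
theorem aSTR : tSTR := pSTR aCHN aJV aT3 aLAND aDDH aHH aUGC aGH aSGE
theorem aPTH : tPTH := pPTH aVEL aRCH aCHN aSTR
theorem aHLB : tHLB := pHLB aHW
theorem aNS : tNS := pNS aPTH aVEL aHLB aGH aHW
theorem aLSEC : tLSEC := pLSEC aLIFT aNS aVEL aRCH aHW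
theorem aLEMA : tLEMA := pLEMA aNM1 aNM2 aLSEC aCHN aSTR aHLB
theorem aLOWA : tLOWA := pLOWA aLW aLX
theorem aLOWC : tLOWC := pLOWC aLW aLX
theorem aBASE : tBASE := pBASE aLEMA aLOWA aLOWC aSTR aHLB
theorem aLOWE : tLOWE := pLOWE aLW aLX aHW
theorem aLLR : tLLR := pLLR aLW
theorem aLBB : tLBB := pLBB aLLR aLX aHW aGH
theorem aMX1 : tMX1 := pMX1 aLBB aHW
theorem aTHE : tTHE := pTHE aLB aLW
theorem aLLF : tLLF := pLLF aLW aT3
theorem aMXP : tMXP := pMXP aMX1 aTHE aLLF aLBB aHW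
theorem aLAM : tLAM := pLAM aBER aHW
theorem aVIS : tVIS := pVIS aTHE aLLF aLBB aLAM
theorem aBDS : tBDS := pBDS aBER aGH
theorem aSS1 : tSS1 := pSS1 aHARN aVIS aLAM aBDS aLBB aHW aSGE
theorem aSSM : tSSM := pSSM aSS1 aPAR aVIS aLAM aBDS aLBB aUGC aHW aSGE
theorem aTAU : tTAU := pTAU aT3 aGH
theorem aA0 : tA0 := pA0 aTAU aBDS aLAND
theorem aNEG : tNEG := pNEG aMXP aSSM aA0 aUGC
theorem aLOGH : tLOGH := pLOGH aLX aLBB aHW aTAU
theorem aINW : tINW := pINW aUGC aT3 aBER aHW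
theorem aEXT : tEXT := pEXT aLOWE aNEG aLOGH aINW
theorem aALL : tALL := pALL aBASE aEXT aLOWE aHW
theorem aRIG : tRIG := pRIG aLLR aLLF aHARN aBDS aUGC aLX aHW aSGE
theorem aCL0 : tCL0 := pCL0 
theorem aCZ1 : tCZ1 := pCZ1 aTAU aGH
theorem aCZ2 : tCZ2 := pCZ2 
theorem aCG1 : tCG1 := pCG1 aTAU
theorem aPRF : tPRF := pPRF 
theorem aTRA : tTRA := pTRA 
theorem aLSO : tLSO := pLSO 
theorem aLIN : tLIN := pLIN aLSO
theorem aCG2 : tCG2 := pCG2 aPRF aTRA aLIN aUGC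
theorem aCG3 : tCG3 := pCG3 aTRA aUGC
theorem aFRM : tFRM := pFRM 
theorem aSMO : tSMO := pSMO 
theorem aCAL : tCAL := pCAL aSMO
theorem aGR0 : tGR0 := pGR0 
theorem aMAN : tMAN := pMAN 
theorem aCOV : tCOV := pCOV aGR0 aMAN
theorem aCM1 : tCM1 := pCM1 aMAN
theorem aCM2 : tCM2 := pCM2 
theorem aRED : tRED := pRED aCOV aMAN aCM1 aCM2
theorem aMAIN : tMAIN := pMAIN aALL aRIG aCL0 aCZ1 aCZ2 aCG1 aCG2 aCG3 aFRM aCAL aRED

end Pool.Agent.ShG
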