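import Mathlib

/-!
# Statement-level definitions for MP_61ae63_gt (short form)

Parametrised hypersurfaces `x : E → F` of Euclidean spaces, their second fundamental form and mean
curvature vector; immersed self-shrinkers `X : S → ℝ^{n+1}` of smooth manifolds; Abresch–Langer
curves; the model sets.
-/

namespace Pool.Agent.ShG.Mod

open scoped BigOperators Topology ContDiff Manifold

noncomputable section

section Param

variable {E F : Type} [NormedAddCommGroup E] [InnerProductSpace ℝ E] [FiniteDimensional ℝ E]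
  [NormedAddCommGroup F] [InnerProductSpace ℝ F]

/-- the directional derivative `∂_h x` at `u` -/
def dirD (x : E → F) (h u : E) : F := fderiv ℝ x u h

/-- the tangent space of the parametrised submanifold `x` at `u` -/
def tanS (x : E → F) (u : E) : Submodule ℝ F := LinearMap.range (fderiv ℝ x u).toLinearMap

instance tanS_fd (x : E → F) (u : E) : FiniteDimensional ℝ (tanS x u) := by
  unfold tanS; infer_instance

/-- the component of `y` orthogonal to the tangent space of `x` at `u` -/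
def perpC (x : E → F) (u : E) (y : F) : F := (tanS x u)ᗮ.starProjection y

/-- the Gram matrix `g_ij = ⟨∂_i x, ∂_j x⟩` in the basis `b` -/
def gramM {n : ℕ} (x : E → F) (b : Fin n → E) (u : E) : Matrix (Fin n) (Fin n) ℝ :=
  Matrix.of fun i j => inner ℝ (dirD x (b i) u) (dirD x (b j) u)

/-- the second fundamental form `II_ij = (∂_i ∂_j x)^⊥` -/
def sff {n : ℕ} (x : E → F) (b : Fin n → E) (u : E) (i j : Fin n) : F :=
  perpC x u (dirD (dirD x (b j)) (b i) u)

/-- `|II|² = g^{ik} g^{jl} ⟨II_ij, II_kl⟩` -/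
def sffSq {n : ℕ} (x : E → F) (b : Fin n → E) (u : E) : ℝ :=
  ∑ i, ∑ j, ∑ k, ∑ l,
    (gramM x b u)⁻¹ i k * (gramM x b u)⁻¹ j l * inner ℝ (sff x b u i j) (sff x b u k l)

/-- the mean curvature vector `g^{ij} II_ij` -/
def mcv {n : ℕ} (x : E → F) (b : Fin n → E) (u : E) : F :=
  ∑ i, ∑ j, (gramM x b u)⁻¹ i j • sff x b u i j

end Param

section Immersion

variable {n : ℕ} {S : Type} [TopologicalSpace S] [ChartedSpace (EuclideanSpace ℝ (Fin n)) S]

/-- the expression `X ∘ φ_p⁻¹` of `X` in the preferred chart `φ_p` at `p` -/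
def chartX (X : S → EuclideanSpace ℝ (Fin (n + 1))) (p : S) (u : EuclideanSpace ℝ (Fin n)) :
    EuclideanSpace ℝ (Fin (n + 1)) := X ((chartAt (EuclideanSpace ℝ (Fin n)) p).symm u)

/-- the coordinates `φ_p(p)` of the point `p` -/
def chartPt (p : S) : EuclideanSpace ℝ (Fin n) := chartAt (EuclideanSpace ℝ (Fin n)) p p

/-- the standard basis of `ℝ^n` -/
def stdB (n : ℕ) (i : Fin n) : EuclideanSpace ℝ (Fin n) := EuclideanSpace.single i 1

/-- `|II|²` of the immersion `X` at `p` -/
def IIsq (X : S → EuclideanSpace ℝ (Fin (n + 1))) (p : S) : ℝ :=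
  sffSq (chartX X p) (stdB n) (chartPt p)

/-- the mean curvature vector of the immersion `X` at `p` -/
def meanC (X : S → EuclideanSpace ℝ (Fin (n + 1))) (p : S) : EuclideanSpace ℝ (Fin (n + 1)) :=
  mcv (chartX X p) (stdB n) (chartPt p)

/-- the component of `y` normal to the immersion `X` at `p` -/
def normalC (X : S → EuclideanSpace ℝ (Fin (n + 1))) (p : S)
    (y : EuclideanSpace ℝ (Fin (n + 1))) : EuclideanSpace ℝ (Fin (n + 1)) :=
  perpC (chartX X p) (chartPt p) y

/-- `X` is smooth in every chart -/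
def IsSmoothMap (X : S → EuclideanSpace ℝ (Fin (n + 1))) : Prop :=
  ∀ p, ContDiffOn ℝ ∞ (chartX X p) (chartAt (EuclideanSpace ℝ (Fin n)) p).target

/-- the differential of `X` is injective at every point -/
def IsImm (X : S → EuclideanSpace ℝ (Fin (n + 1))) : Prop :=
  ∀ p, Function.Injective fun h => dirD (chartX X p) h (chartPt p)

/-- immersed self-shrinker: `X` is a smooth immersion with mean curvature vector `-X^⊥` -/
structure IsShrinker (X : S → EuclideanSpace ℝ (Fin (n + 1))) : Prop where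
  smooth : IsSmoothMap X
  immersion : IsImm X
  shrinker : ∀ p, meanC X p = - normalC X p (X p)

end Immersion

/-- the component of `γ` normal to the unit speed plane curve `γ` -/
def normalG (γ : ℝ → EuclideanSpace ℝ (Fin 2)) (s : ℝ) : EuclideanSpace ℝ (Fin 2) :=
  γ s - (inner ℝ (γ s) (deriv γ s) : ℝ) • deriv γ s

/-- a smooth closed (periodic) plane curve -/
def IsClosedCurve (γ : ℝ → EuclideanSpace ℝ (Fin 2)) : Prop :=
  ContDiff ℝ ∞ γ ∧ ∃ T : ℝ, 0 < T ∧ ∀ s, γ (s + T) = γ s

/-- the curve has unit speed -/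
def IsUnitSpeed (γ : ℝ → EuclideanSpace ℝ (Fin 2)) : Prop := ∀ s, ‖deriv γ s‖ = 1

/-- Abresch–Langer curve (including the unit circle): a closed unit speed curve in the plane whose
curvature vector is `-γ^⊥` -/
structure IsALCurve (γ : ℝ → EuclideanSpace ℝ (Fin 2)) : Prop where
  closed : IsClosedCurve γ
  unit : IsUnitSpeed γ
  shrinker : ∀ s, deriv (deriv γ) s = - normalG γ s

/-- a hyperplane through the origin -/
def IsHyperplane {m : ℕ} (A : Set (EuclideanSpace ℝ (Fin m))) : Prop :=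
  ∃ ν : EuclideanSpace ℝ (Fin m), ‖ν‖ = 1 ∧ A = {x | inner ℝ x ν = (0 : ℝ)}

/-- the round cylinder `{x ∈ ℝ^m : x_0² + ... + x_k² = k}` -/
def cylSet (m k : ℕ) : Set (EuclideanSpace ℝ (Fin m)) :=
  {x | ∑ i : Fin m, (if (i : ℕ) < k + 1 then x i ^ 2 else 0) = (k : ℝ)}

/-- the product `γ(ℝ) × ℝ^{m-1}` in `ℝ^{m+1}` -/
def prodSet (m : ℕ) (γ : ℝ → EuclideanSpace ℝ (Fin 2)) :
    Set (EuclideanSpace ℝ (Fin (m + 1))) :=
  {x | ∃ s, x 0 = γ s 0 ∧ x 1 = γ s 1}

/-- `A` is the image of `A'` under an orthogonal transformation -/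
def Congr {m : ℕ} (A A' : Set (EuclideanSpace ℝ (Fin m))) : Prop :=
  ∃ L : EuclideanSpace ℝ (Fin m) ≃ₗᵢ[ℝ] EuclideanSpace ℝ (Fin m), A = L '' A'

end

end Pool.Agent.ShG.Mod
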