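import Pool.Agent.ShG.All
import Pool.Agent.ShG.Model2

/-!
# Bridge: from the short statement-level definitions to the working ones
-/

namespace Pool.Agent.ShG

open scoped BigOperators Topology ContDiff Manifold
open Set Filter

noncomputable section

section

variable {n : ℕ} {S : Type} [TopologicalSpace S]
  [ChartedSpace (EuclideanSpace ℝ (Fin n)) S]

theorem BRG_smooth [IsManifold (𝓡 n) ∞ S] (X : S → EuclideanSpace ℝ (Fin (n + 1)))
    (h : Mod.IsSmoothMap X) :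
    ContMDiff (𝓡 n) 𝓘(ℝ, EuclideanSpace ℝ (Fin (n + 1))) ∞ X := by
  intro p
  have h1 : ContMDiffAt (𝓡 n) 𝓘(ℝ, EuclideanSpace ℝ (Fin (n + 1))) ∞
      (Mod.chartX X p) (chartAt (EuclideanSpace ℝ (Fin n)) p p) := by
    have h0 := (h p).contDiffAt ((chartAt (EuclideanSpace ℝ (Fin n)) p).open_target.mem_nhds
      (mem_chart_target _ p))
    exact h0.contMDiffAt
  have h2 : ContMDiffAt (𝓡 n) (𝓡 n) ∞ (chartAt (EuclideanSpace ℝ (Fin n)) p) p :=
    contMDiffAt_of_mem_maximalAtlas (IsManifold.chart_mem_maximalAtlas p) (mem_chart_source _ p)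
  have h3 := h1.comp p h2
  refine h3.congr_of_eventuallyEq ?_
  filter_upwards [(chartAt (EuclideanSpace ℝ (Fin n)) p).open_source.mem_nhds
    (mem_chart_source _ p)] with q hq
  simp only [Function.comp_apply, Mod.chartX]
  rw [(chartAt (EuclideanSpace ℝ (Fin n)) p).left_inv hq]

theorem BRG_imm [IsManifold (𝓡 n) ∞ S] (X : S → EuclideanSpace ℝ (Fin (n + 1)))
    (hs : Mod.IsSmoothMap X) (h : Mod.IsImm X) (p : S) :
    Function.Injective (mfderiv (𝓡 n) 𝓘(ℝ, EuclideanSpace ℝ (Fin (n + 1))) X p) := by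
  obtain ⟨A, hA, hA2⟩ := MAN_chain X (BRG_smooth X hs) p
    (chartAt (EuclideanSpace ℝ (Fin n)) p p) (mem_chart_target _ p)
  have hq : (chartAt (EuclideanSpace ℝ (Fin n)) p).symm
      (chartAt (EuclideanSpace ℝ (Fin n)) p p) = p :=
    (chartAt (EuclideanSpace ℝ (Fin n)) p).left_inv (mem_chart_source _ p)
  have key : Function.Injective (mfderiv (𝓡 n) 𝓘(ℝ, EuclideanSpace ℝ (Fin (n + 1))) X
      ((chartAt (EuclideanSpace ℝ (Fin n)) p).symm
      (chartAt (EuclideanSpace ℝ (Fin n)) p p))) := by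
    intro v w hvw
    obtain ⟨v', rfl⟩ := hA.2 v
    obtain ⟨w', rfl⟩ := hA.2 w
    rw [← hA2, ← hA2] at hvw
    have := h p hvw
    rw [this]
  rw [hq] at key
  exact key

end

section

variable {n : ℕ}

theorem BRG_dirD (x : EuclideanSpace ℝ (Fin n) → EuclideanSpace ℝ (Fin (n + 1)))
    (u : EuclideanSpace ℝ (Fin n)) (hx : ContDiffAt ℝ 2 x u) (a b : EuclideanSpace ℝ (Fin n)) :
    Mod.dirD (Mod.dirD x b) a u = fderiv ℝ (fderiv ℝ x) u a b := by
  have hd : DifferentiableAt ℝ (fderiv ℝ x) u := by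
    have h1 : ContDiffAt ℝ 1 (fderiv ℝ x) u := hx.fderiv_right (by norm_num)
    exact h1.differentiableAt (by norm_num)
  have h2 := (hd.hasFDerivAt.clm_apply (hasFDerivAt_const b u)).fderiv
  change fderiv ℝ (fun v => fderiv ℝ x v b) u a = _
  rw [h2]
  simp

theorem BRG_sff (x : EuclideanSpace ℝ (Fin n) → EuclideanSpace ℝ (Fin (n + 1)))
    (u : EuclideanSpace ℝ (Fin n)) (hx : ContDiffAt ℝ 2 x u) (i j : Fin n) :
    Mod.sff x (Mod.stdB n) u i j = secF x u i j := by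
  unfold Mod.sff secF
  rw [BRG_dirD x u hx]
  rfl

theorem BRG_gram (x : EuclideanSpace ℝ (Fin n) → EuclideanSpace ℝ (Fin (n + 1)))
    (u : EuclideanSpace ℝ (Fin n)) :
    Mod.gramM x (Mod.stdB n) u = gram x u := rfl

theorem BRG_sffSq (x : EuclideanSpace ℝ (Fin n) → EuclideanSpace ℝ (Fin (n + 1)))
    (u : EuclideanSpace ℝ (Fin n)) (hx : ContDiffAt ℝ 2 x u) :
    Mod.sffSq x (Mod.stdB n) u = normIIsq x u := by
  unfold Mod.sffSq normIIsq
  simp only [BRG_sff x u hx, BRG_gram]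

theorem BRG_mcv (x : EuclideanSpace ℝ (Fin n) → EuclideanSpace ℝ (Fin (n + 1)))
    (u : EuclideanSpace ℝ (Fin n)) (hx : ContDiffAt ℝ 2 x u) :
    Mod.mcv x (Mod.stdB n) u = meanCurv x u := by
  unfold Mod.mcv meanCurv
  simp only [BRG_sff x u hx, BRG_gram]

end

section

variable {n : ℕ} {S : Type} [TopologicalSpace S]
  [ChartedSpace (EuclideanSpace ℝ (Fin n)) S]

theorem BRG_c2 (X : S → EuclideanSpace ℝ (Fin (n + 1))) (h : Mod.IsSmoothMap X) (p : S) :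
    ContDiffAt ℝ 2 (Mod.chartX X p) (chartAt (EuclideanSpace ℝ (Fin n)) p p) := by
  have h0 := (h p).contDiffAt ((chartAt (EuclideanSpace ℝ (Fin n)) p).open_target.mem_nhds
      (mem_chart_target _ p))
  exact h0.of_le (WithTop.coe_le_coe.2 (le_top : (2 : ℕ∞) ≤ ⊤))

theorem BRG_IIsq (X : S → EuclideanSpace ℝ (Fin (n + 1))) (h : Mod.IsSmoothMap X) (p : S) :
    Mod.IIsq X p = normIIsq (locX X p) (chartAt (EuclideanSpace ℝ (Fin n)) p p) := by
  unfold Mod.IIsq Mod.chartPt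
  rw [BRG_sffSq _ _ (BRG_c2 X h p)]
  rfl

theorem BRG_shrinker [IsManifold (𝓡 n) ∞ S] (X : S → EuclideanSpace ℝ (Fin (n + 1)))
    (h : Mod.IsShrinker X) : IsShrinkerImmersion X := by
  refine ⟨BRG_smooth X h.smooth, BRG_imm X h.smooth h.immersion, fun p => ?_⟩
  have h1 := h.shrinker p
  unfold Mod.meanC Mod.chartPt at h1
  rw [BRG_mcv _ _ (BRG_c2 X h.smooth p)] at h1
  exact h1

end

theorem BRG_AL (γ : ℝ → EuclideanSpace ℝ (Fin 2)) (h : IsAL γ) : Mod.IsALCurve γ :=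
  ⟨⟨h.smooth, h.closed⟩, h.unit, h.shrinker⟩

/-- the main theorem in terms of the short definitions -/
theorem BRG_main : ∀ n : ℕ, 2 ≤ n → ∃ c : ℝ, 0 < c ∧
    ∀ (S : Type) [TopologicalSpace S] [T2Space S] [ConnectedSpace S]
      [ChartedSpace (EuclideanSpace ℝ (Fin n)) S] [IsManifold (𝓡 n) ∞ S]
      (X : S → EuclideanSpace ℝ (Fin (n + 1))), Mod.IsShrinker X → IsProperMap X →
      (∀ p, Mod.IIsq X p < 1 + c) →
      Mod.IsHyperplane (Set.range X) ∨
      (∃ k, 1 ≤ k ∧ k ≤ n ∧ Mod.Congr (Set.range X) (Mod.cylSet (n + 1) k)) ∨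
      (∃ γ, Mod.IsALCurve γ ∧ Set.range γ ≠ Metric.sphere 0 1 ∧
        Mod.Congr (Set.range X) (Mod.prodSet n γ)) := by
  intro n hn
  obtain ⟨c, hc, h⟩ := aMAIN n hn
  refine ⟨c, hc, ?_⟩
  intro S _ _ _ _ _ X h1 h2 h3
  have h3' : ∀ p, normIIsq (locX X p) (chartAt (EuclideanSpace ℝ (Fin n)) p p) < 1 + c := by
    intro p
    rw [← BRG_IIsq X h1.smooth p]
    exact h3 p
  rcases h S X (BRG_shrinker X h1) h2 h3' with h4 | ⟨k, L, hk1, hk2, h4⟩ | ⟨γ, L, h4, h5, h6⟩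
  · exact Or.inl h4
  · exact Or.inr (Or.inl ⟨k, hk1, hk2, L, h4⟩)
  · exact Or.inr (Or.inr ⟨γ, BRG_AL γ h4, h5, L, h6⟩)

end

end Pool.Agent.ShG
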