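import Pool.Agent.ShG.Defs

/-! Base calculus of `Hyp`: sections, tangential gradients, rules for `dl`. -/

namespace Pool.Agent.ShG

open scoped BigOperators Topology ContDiff
open Set Filter Asymptotics

noncomputable section

variable {n : ℕ} {S : Type} [TopologicalSpace S]

/-- coordinate projection of a section: the adjoint of `ι` -/
def prj (ι : Es n →ₗᵢ[ℝ] Fs n) : Fs n →L[ℝ] Es n :=
  ContinuousLinearMap.adjoint ι.toContinuousLinearMap

lemma prj_inner (ι : Es n →ₗᵢ[ℝ] Fs n) (x : Fs n) (u : Es n) :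
    inner ℝ (prj ι x) u = inner ℝ x (ι u) := by
  unfold prj
  rw [ContinuousLinearMap.adjoint_inner_left]
  rfl

lemma prj_ι (ι : Es n →ₗᵢ[ℝ] Fs n) (u : Es n) : prj ι (ι u) = u := by
  refine ext_inner_right ℝ fun v => ?_
  rw [prj_inner, ι.inner_map_map]

namespace IsSec

variable {X N : S → Fs n} {p : S} {U : Set (Es n)} {ι : Es n →ₗᵢ[ℝ] Fs n} {g : Es n → ℝ}
  {σ : Es n → S}

lemma prj_N (h : IsSec X N p U ι g σ) : prj ι (N p) = 0 := by
  refine ext_inner_right ℝ fun v => ?_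
  rw [prj_inner, inner_zero_left, real_inner_comm, h.perp]

/-- every ambient vector splits -/
lemma split (h : IsSec X N p U ι g σ) (hN : ‖N p‖ = 1) (x : Fs n) :
    x = ι (prj ι x) + (inner ℝ x (N p)) • N p := by
  have hN0 : N p ≠ 0 := by
    intro h0
    rw [h0] at hN
    simp at hN
  set R : Submodule ℝ (Fs n) := LinearMap.range ι.toLinearMap with hR
  have hfr : Module.finrank ℝ R = n := by
    rw [hR, LinearMap.finrank_range_of_inj ι.injective]
    simp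
  have hfo : Module.finrank ℝ Rᗮ = 1 := by
    have := Submodule.finrank_add_finrank_orthogonal R
    rw [hfr] at this
    simp at this
    omega
  have hNm : N p ∈ Rᗮ := by
    rw [Submodule.mem_orthogonal]
    rintro _ ⟨u, rfl⟩
    exact h.perp u
  set y : Fs n := x - ι (prj ι x) - (inner ℝ x (N p)) • N p with hy
  have hNN : inner ℝ (N p) (N p) = (1 : ℝ) := by
    rw [real_inner_self_eq_norm_sq, hN]; norm_num
  have hym : y ∈ Rᗮ := by
    rw [Submodule.mem_orthogonal]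
    rintro _ ⟨u, rfl⟩
    change inner ℝ (ι u) y = 0
    rw [hy, inner_sub_right, inner_sub_right, inner_smul_right, h.perp, ι.inner_map_map,
      real_inner_comm, ← prj_inner, real_inner_comm]
    ring
  have hyN : inner ℝ y (N p) = 0 := by
    rw [hy, inner_sub_left, inner_sub_left, inner_smul_left, hNN, h.perp]
    simp
  have h1 := (finrank_eq_one_iff_of_nonzero' (⟨N p, hNm⟩ : Rᗮ) (by
    intro h0; exact hN0 (congrArg Subtype.val h0))).1 hfo ⟨y, hym⟩
  obtain ⟨c, hc⟩ := h1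
  have hc' : c • N p = y := congrArg Subtype.val hc
  have : c = 0 := by
    have : inner ℝ (c • N p) (N p) = 0 := by rw [hc', hyN]
    rw [inner_smul_left, hNN] at this
    simpa using this
  rw [this, zero_smul] at hc'
  have : y = 0 := hc'.symm
  rw [hy] at this
  have h3 : x - ι (prj ι x) = (inner ℝ x (N p)) • N p := sub_eq_zero.1 this
  rw [← h3]; abel

lemma g_zero (h : IsSec X N p U ι g σ) (hN : ‖N p‖ = 1) : g 0 = 0 := by
  have h1 := h.graph 0 h.mem0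
  rw [h.base, map_zero, add_zero] at h1
  have h2 : g 0 • N p = 0 := by
    have := h1
    exact (left_eq_add.1 this)
  rcases smul_eq_zero.1 h2 with h3 | h3
  · exact h3
  · rw [h3] at hN; simp at hN

lemma graph_sub (h : IsSec X N p U ι g σ) {u : Es n} (hu : u ∈ U) :
    X (σ u) - X p = ι u + g u • N p := by
  rw [h.graph u hu]; abel

lemma proj (h : IsSec X N p U ι g σ) {u : Es n} (hu : u ∈ U) :
    prj ι (X (σ u) - X p) = u := by
  rw [h.graph_sub hu, map_add, map_smul, h.prj_N, prj_ι, smul_zero, add_zero]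

lemma inner_N (h : IsSec X N p U ι g σ) (hN : ‖N p‖ = 1) {u : Es n} (hu : u ∈ U) :
    inner ℝ (X (σ u) - X p) (N p) = g u := by
  rw [h.graph_sub hu, inner_add_left, h.perp, inner_smul_left, real_inner_self_eq_norm_sq, hN]
  simp

lemma norm_sq (h : IsSec X N p U ι g σ) (hN : ‖N p‖ = 1) {u : Es n} (hu : u ∈ U) :
    ‖X (σ u) - X p‖ ^ 2 = ‖u‖ ^ 2 + g u ^ 2 := by
  rw [h.graph_sub hu, norm_add_sq_real, inner_smul_right, h.perp, ι.norm_map, norm_smul, hN]
  simp [sq_abs]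

lemma norm_le (h : IsSec X N p U ι g σ) (hN : ‖N p‖ = 1) {u : Es n} (hu : u ∈ U) :
    ‖u‖ ≤ ‖X (σ u) - X p‖ := by
  have := h.norm_sq hN hu
  refine le_of_sq_le_sq ?_ (norm_nonneg _)
  rw [this]; nlinarith [sq_nonneg (g u)]

lemma grad_zero (h : IsSec X N p U ι g σ) : gradient g 0 = 0 := by
  have h1 := h.normal 0 h.mem0
  rw [h.base] at h1
  set G := gradient g 0 with hG
  have h2 : inner ℝ (N p) (ι G) = 0 := by rw [real_inner_comm]; exact h.perp G
  rw [h1, inner_smul_left, inner_sub_left] at h2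
  have h3 : inner ℝ (N p) (ι G) = 0 := by rw [real_inner_comm]; exact h.perp G
  rw [h3, ι.inner_map_map, real_inner_self_eq_norm_sq] at h2
  have h4 : (0:ℝ) < (Real.sqrt (1 + ‖G‖ ^ 2))⁻¹ := by positivity
  have h5 : (0 - ‖G‖ ^ 2 : ℝ) = 0 := by
    rcases mul_eq_zero.1 h2 with h6 | h6
    · exfalso
      simp at h6
      have : (0:ℝ) < Real.sqrt (1 + ‖G‖ ^ 2) := by positivity
      linarith
    · exact h6
  have : ‖G‖ = 0 := by nlinarith [norm_nonneg G]
  exact norm_eq_zero.1 this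

lemma image_mem (h : IsSec X N p U ι g σ) {u : Es n} (hu : u ∈ U) {V : Set (Es n)}
    (hV : V ∈ 𝓝 u) : σ '' V ∈ 𝓝 (σ u) := by
  obtain ⟨V', hV', ho, hm⟩ := mem_nhds_iff.1 (inter_mem hV (h.isOpen.mem_nhds hu))
  refine mem_of_superset ((h.opn V' (fun x hx => (hV' hx).2) ho).mem_nhds ⟨u, hm, rfl⟩) ?_
  exact image_mono (fun x hx => (hV' hx).1)

lemma image_mem0 (h : IsSec X N p U ι g σ) {V : Set (Es n)}
    (hV : V ∈ 𝓝 (0 : Es n)) : σ '' V ∈ 𝓝 p := by
  have := h.image_mem h.mem0 hV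
  rwa [h.base] at this

lemma contAt (h : IsSec X N p U ι g σ) {u : Es n} (hu : u ∈ U) : ContinuousAt σ u :=
  h.cont.continuousAt (h.isOpen.mem_nhds hu)

lemma gdiff (h : IsSec X N p U ι g σ) {u : Es n} (hu : u ∈ U) : DifferentiableAt ℝ g u :=
  (h.smooth.differentiableOn (by simp)).differentiableAt (h.isOpen.mem_nhds hu)

/-- derivative of `X ∘ σ` -/
lemma hasFDeriv (h : IsSec X N p U ι g σ) {u : Es n} (hu : u ∈ U) :
    HasFDerivAt (fun v => X (σ v))
      (ι.toContinuousLinearMap + (fderiv ℝ g u).smulRight (N p)) u := by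
  have h1 : HasFDerivAt (fun v => X p + ι v + g v • N p)
      (ι.toContinuousLinearMap + (fderiv ℝ g u).smulRight (N p)) u := by
    have a1 : HasFDerivAt (fun v => X p + ι v) ι.toContinuousLinearMap u := by
      have := (ι.toContinuousLinearMap.hasFDerivAt (x := u)).const_add (X p)
      exact this
    exact a1.add ((h.gdiff hu).hasFDerivAt.smul_const (N p))
  refine h1.congr_of_eventuallyEq ?_
  filter_upwards [h.isOpen.mem_nhds hu] with v hv
  exact h.graph v hv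

omit [TopologicalSpace S] in
lemma hasFDeriv_apply (u v : Es n) :
    (ι.toContinuousLinearMap + (fderiv ℝ g u).smulRight (N p)) v
      = ι v + (fderiv ℝ g u v) • N p := by
  simp

end IsSec

namespace Hyp

variable (M : Hyp n S)

lemma NN (p : S) : inner ℝ (M.N p) (M.N p) = (1 : ℝ) := by
  rw [real_inner_self_eq_norm_sq, M.unit]; norm_num

lemma sum_NN (p : S) : ∑ a, M.N p a * M.N p a = 1 := by
  have := M.NN p
  rw [PiLp.inner_apply] at this
  rw [← this]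
  refine Finset.sum_congr rfl fun a _ => ?_
  simp [pow_two]

lemma tangency (p : S) :
    (fun q => inner ℝ (M.N p) (M.X q - M.X p)) =o[𝓝 p] (fun q => M.X q - M.X p) := by
  obtain ⟨U, ι, g, σ, h⟩ := M.sec p
  rw [isLittleO_iff]
  intro ε hε
  have hg : HasFDerivAt g (0 : Es n →L[ℝ] ℝ) 0 := by
    have h1 := (h.gdiff h.mem0).hasGradientAt
    rw [h.grad_zero] at h1
    have h2 := h1.hasFDerivAt
    simpa using h2
  have h3 : ∀ᶠ u in 𝓝 (0 : Es n), |g u| ≤ ε * ‖u‖ := by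
    have h4 := hg.isLittleO
    rw [isLittleO_iff] at h4
    filter_upwards [h4 hε] with u hu
    simpa [h.g_zero (M.unit p)] using hu
  have h5 := h.image_mem0 (inter_mem h3 (h.isOpen.mem_nhds h.mem0))
  filter_upwards [h5] with q hq
  obtain ⟨u, ⟨hu1, hu2⟩, rfl⟩ := hq
  rw [real_inner_comm, h.inner_N (M.unit p) hu2, Real.norm_eq_abs]
  calc |g u| ≤ ε * ‖u‖ := hu1
    _ ≤ ε * ‖M.X (σ u) - M.X p‖ := by
        gcongr
        exact h.norm_le (M.unit p) hu2

lemma contX : Continuous M.X := M.proper.toContinuous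

lemma hasGr_unique {Z : S → ℝ} {p : S} {G G' : Fs n} (h1 : M.HasGr Z p G)
    (h2 : M.HasGr Z p G') : G = G' := by
  obtain ⟨U, ι, g, σ, h⟩ := M.sec p
  have h3 : (fun q => inner ℝ (G' - G) (M.X q - M.X p)) =o[𝓝 p] (fun q => M.X q - M.X p) := by
    have := h1.2.sub h2.2
    refine this.congr_left fun q => ?_
    rw [inner_sub_left]; ring
  have h3b : HasFDerivAt (fun q => M.X (σ q)) _ 0 := h.hasFDeriv h.mem0
  have hcont : Tendsto σ (𝓝 0) (𝓝 p) := by
    have := h.contAt h.mem0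
    rw [ContinuousAt, h.base] at this
    exact this
  have h4 : (fun u => inner ℝ (G' - G) (M.X (σ u) - M.X p)) =o[𝓝 0]
      (fun u : Es n => u - 0) := by
    have h5 := h3.comp_tendsto hcont
    have h6 : (fun u => M.X (σ u) - M.X p) =O[𝓝 0] (fun u : Es n => u - 0) := by
      have := h3b.isBigO_sub
      rwa [h.base] at this
    exact h5.trans_isBigO h6
  have h7 : HasFDerivAt (fun u => inner ℝ (G' - G) (M.X (σ u))) (0 : Es n →L[ℝ] ℝ) 0 := by
    rw [hasFDerivAt_iff_isLittleO]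
    refine h4.congr_left fun u => ?_
    rw [h.base, inner_sub_right]
    simp
  have h8 : HasFDerivAt (fun u => inner ℝ (G' - G) (M.X (σ u)))
      ((innerSL ℝ (G' - G)).comp
        (ι.toContinuousLinearMap + (fderiv ℝ g 0).smulRight (M.N p))) 0 :=
    ((innerSL ℝ (G' - G)).hasFDerivAt).comp (0 : Es n) h3b
  have h9 := h8.unique h7
  have h10 : ∀ u, inner ℝ (G' - G) (ι u) = 0 := by
    intro u
    have := DFunLike.congr_fun h9 u
    simp only [ContinuousLinearMap.comp_apply, IsSec.hasFDeriv_apply, innerSL_apply_apply,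
      inner_add_right, inner_smul_right, inner_sub_left, h1.1, h2.1] at this
    simpa [inner_sub_left] using this
  have h11 : G' - G = 0 := by
    rw [h.split (M.unit p) (G' - G)]
    have e1 : prj ι (G' - G) = 0 := by
      refine ext_inner_right ℝ fun v => ?_
      rw [prj_inner, h10, inner_zero_left]
    rw [e1, inner_sub_left, h1.1, h2.1]
    simp
  exact (sub_eq_zero.1 h11).symm

lemma gr_eq {Z : S → ℝ} {p : S} {G : Fs n} (h1 : M.HasGr Z p G) : M.gr Z p = G := by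
  have hex : ∃ G, M.HasGr Z p G := ⟨G, h1⟩
  unfold gr
  rw [dif_pos hex]
  exact M.hasGr_unique hex.choose_spec h1

lemma dl_eq {Z : S → ℝ} {p : S} {G : Fs n} (h1 : M.HasGr Z p G) (a : Fin (n + 1)) :
    M.dl a Z p = G a := by
  unfold dl
  rw [M.gr_eq h1]

/-- gradient of the pull-back of an ambient function -/
lemma hasGr_ambient {Z : S → ℝ} {p : S} {f : Fs n → ℝ} {v : Fs n}
    (hf : HasGradientAt f v (M.X p)) (hZ : ∀ᶠ q in 𝓝 p, Z q = f (M.X q)) :
    M.HasGr Z p (v - (inner ℝ v (M.N p)) • M.N p) := by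
  constructor
  · rw [inner_sub_left, inner_smul_left, M.NN]
    simp
  · have h1 := hf.hasFDerivAt.isLittleO
    have h2 := h1.comp_tendsto (M.contX.tendsto p)
    have h3 := h2.add ((M.tangency p).const_mul_left (inner ℝ v (M.N p)))
    refine h3.congr' ?_ EventuallyEq.rfl
    filter_upwards [hZ] with q hq
    rw [hq, hZ.self_of_nhds]
    simp only [Function.comp_apply, InnerProductSpace.toDual_apply_apply, inner_sub_left,
      inner_smul_left]
    simp
    ring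

lemma hasGr_congr {Z Z' : S → ℝ} {p : S} {G : Fs n} (h : Z =ᶠ[𝓝 p] Z') (h1 : M.HasGr Z p G) :
    M.HasGr Z' p G := by
  refine ⟨h1.1, h1.2.congr' ?_ EventuallyEq.rfl⟩
  filter_upwards [h] with q hq
  rw [hq, h.self_of_nhds]

lemma gr_congr {Z Z' : S → ℝ} {p : S} (h : Z =ᶠ[𝓝 p] Z') : M.gr Z p = M.gr Z' p := by
  have : M.HasGr Z p = M.HasGr Z' p := by
    funext G
    exact propext ⟨M.hasGr_congr h, M.hasGr_congr h.symm⟩
  unfold gr
  rw [this]

lemma dl_congr {Z Z' : S → ℝ} {p : S} (h : Z =ᶠ[𝓝 p] Z') (a : Fin (n + 1)) :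
    M.dl a Z p = M.dl a Z' p := by
  unfold dl
  rw [M.gr_congr h]

/-! ### smooth functions -/

variable {M}

lemma Sm.congr {Z Z' : S → ℝ} {p : S} (h1 : M.Sm Z p) (h : Z' =ᶠ[𝓝 p] Z) : M.Sm Z' p := by
  obtain ⟨f, W, hW, hp, hf, hZ⟩ := h1
  refine ⟨f, W, hW, hp, hf, ?_⟩
  filter_upwards [hZ, h] with q h1 h2
  rw [h2, h1]

lemma Sm.hasGradient {Z : S → ℝ} {p : S} (f : Fs n → ℝ) (W : Set (Fs n)) (hW : IsOpen W)
    (hp : M.X p ∈ W) (hf : ContDiffOn ℝ ∞ f W) (hZ : ∀ᶠ q in 𝓝 p, Z q = f (M.X q)) :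
    M.HasGr Z p (gradient f (M.X p) - (inner ℝ (gradient f (M.X p)) (M.N p)) • M.N p) := by
  refine M.hasGr_ambient ?_ hZ
  exact ((hf.differentiableOn (by simp)).differentiableAt (hW.mem_nhds hp)).hasGradientAt

lemma Sm.hasGr {Z : S → ℝ} {p : S} (h : M.Sm Z p) : M.HasGr Z p (M.gr Z p) := by
  obtain ⟨f, W, hW, hp, hf, hZ⟩ := h
  have h1 := Sm.hasGradient f W hW hp hf hZ
  rw [M.gr_eq h1]
  exact h1

lemma Sm.eventually {Z : S → ℝ} {p : S} (h : M.Sm Z p) : ∀ᶠ q in 𝓝 p, M.Sm Z q := by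
  obtain ⟨f, W, hW, hp, hf, hZ⟩ := h
  filter_upwards [hZ.eventually_nhds, M.contX.continuousAt.eventually (hW.mem_nhds hp)]
    with q h1 h2
  exact ⟨f, W, hW, h2, hf, h1⟩

lemma Sm.continuousAt {Z : S → ℝ} {p : S} (h : M.Sm Z p) : ContinuousAt Z p := by
  obtain ⟨f, W, hW, hp, hf, hZ⟩ := h
  have h1 : ContinuousAt (fun q => f (M.X q)) p :=
    ContinuousAt.comp (hf.continuousOn.continuousAt (hW.mem_nhds hp)) M.contX.continuousAt
  exact h1.congr (hZ.mono fun q hq => hq.symm)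

variable (M) in
lemma Sm.const (c : ℝ) (p : S) : M.Sm (fun _ => c) p :=
  ⟨fun _ => c, univ, isOpen_univ, mem_univ _, contDiffOn_const, Eventually.of_forall fun _ => rfl⟩

lemma Sm.op2 {Z1 Z2 : S → ℝ} {p : S} (φ : ℝ × ℝ → ℝ) (hφ : ContDiff ℝ ∞ φ)
    (h1 : M.Sm Z1 p) (h2 : M.Sm Z2 p) : M.Sm (fun q => φ (Z1 q, Z2 q)) p := by
  obtain ⟨f, W, hW, hp, hf, hZ⟩ := h1
  obtain ⟨f', W', hW', hp', hf', hZ'⟩ := h2
  refine ⟨fun x => φ (f x, f' x), W ∩ W', hW.inter hW', ⟨hp, hp'⟩, ?_, ?_⟩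
  · exact hφ.comp_contDiffOn ((hf.mono inter_subset_left).prodMk (hf'.mono inter_subset_right))
  · filter_upwards [hZ, hZ'] with q a b
    rw [a, b]

lemma Sm.add {Z1 Z2 : S → ℝ} {p : S} (h1 : M.Sm Z1 p) (h2 : M.Sm Z2 p) :
    M.Sm (fun q => Z1 q + Z2 q) p :=
  Sm.op2 (fun x => x.1 + x.2) (contDiff_fst.add contDiff_snd) h1 h2

lemma Sm.sub {Z1 Z2 : S → ℝ} {p : S} (h1 : M.Sm Z1 p) (h2 : M.Sm Z2 p) :
    M.Sm (fun q => Z1 q - Z2 q) p :=
  Sm.op2 (fun x => x.1 - x.2) (contDiff_fst.sub contDiff_snd) h1 h2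

lemma Sm.mul {Z1 Z2 : S → ℝ} {p : S} (h1 : M.Sm Z1 p) (h2 : M.Sm Z2 p) :
    M.Sm (fun q => Z1 q * Z2 q) p :=
  Sm.op2 (fun x => x.1 * x.2) (contDiff_fst.mul contDiff_snd) h1 h2

lemma Sm.comp {Z : S → ℝ} {p : S} {φ : ℝ → ℝ} {V : Set ℝ} (hV : IsOpen V) (hp : Z p ∈ V)
    (hφ : ContDiffOn ℝ ∞ φ V) (h : M.Sm Z p) : M.Sm (fun q => φ (Z q)) p := by
  obtain ⟨f, W, hW, hpW, hf, hZ⟩ := h
  refine ⟨fun x => φ (f x), W ∩ f ⁻¹' V, hf.continuousOn.isOpen_inter_preimage hW hV,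
    ⟨hpW, ?_⟩, ?_, ?_⟩
  · change f (M.X p) ∈ V
    rw [← hZ.self_of_nhds]; exact hp
  · exact hφ.comp (hf.mono inter_subset_left) (fun _ hx => hx.2)
  · filter_upwards [hZ] with q a
    rw [a]

lemma Sm.neg {Z : S → ℝ} {p : S} (h : M.Sm Z p) : M.Sm (fun q => - Z q) p :=
  Sm.comp (φ := fun x => -x) isOpen_univ (mem_univ _) contDiff_neg.contDiffOn h

lemma Sm.const_mul {Z : S → ℝ} {p : S} (c : ℝ) (h : M.Sm Z p) : M.Sm (fun q => c * Z q) p :=
  (Sm.const M c p).mul h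

lemma Sm.pow {Z : S → ℝ} {p : S} (h : M.Sm Z p) (k : ℕ) : M.Sm (fun q => Z q ^ k) p :=
  Sm.comp (φ := fun x => x ^ k) isOpen_univ (mem_univ _) (contDiff_id.pow k).contDiffOn h

lemma Sm.inv {Z : S → ℝ} {p : S} (h : M.Sm Z p) (h0 : Z p ≠ 0) : M.Sm (fun q => (Z q)⁻¹) p :=
  Sm.comp (φ := fun x => x⁻¹) (V := {0}ᶜ) isOpen_compl_singleton h0
    (fun _ hx => (contDiffAt_inv ℝ hx).contDiffWithinAt) h

lemma Sm.div {Z1 Z2 : S → ℝ} {p : S} (h1 : M.Sm Z1 p) (h2 : M.Sm Z2 p) (h0 : Z2 p ≠ 0) :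
    M.Sm (fun q => Z1 q / Z2 q) p := by
  refine (h1.mul (h2.inv h0)).congr (Eventually.of_forall fun q => ?_)
  simp [div_eq_mul_inv]

lemma Sm.exp {Z : S → ℝ} {p : S} (h : M.Sm Z p) : M.Sm (fun q => Real.exp (Z q)) p :=
  Sm.comp (φ := Real.exp) isOpen_univ (mem_univ _) Real.contDiff_exp.contDiffOn h

lemma Sm.log {Z : S → ℝ} {p : S} (h : M.Sm Z p) (h0 : Z p ≠ 0) :
    M.Sm (fun q => Real.log (Z q)) p :=
  Sm.comp (φ := Real.log) (V := {0}ᶜ) isOpen_compl_singleton h0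
    (fun _ hx => (Real.contDiffAt_log.2 hx).contDiffWithinAt) h

lemma Sm.sum {κ : Type*} {s : Finset κ} {Z : κ → S → ℝ} {p : S} (h : ∀ i ∈ s, M.Sm (Z i) p) :
    M.Sm (fun q => ∑ i ∈ s, Z i q) p := by
  classical
  induction s using Finset.induction_on with
  | empty => simpa using Sm.const M 0 p
  | insert i s hi ih =>
    have h1 := (h i (Finset.mem_insert_self i s)).add
      (ih fun j hj => h j (Finset.mem_insert_of_mem hj))
    refine h1.congr (Eventually.of_forall fun q => ?_)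
    simp [Finset.sum_insert hi]

variable (M) in
lemma Sm.ambient {f : Fs n → ℝ} (hf : ContDiff ℝ ∞ f) (p : S) : M.Sm (fun q => f (M.X q)) p :=
  ⟨f, univ, isOpen_univ, mem_univ _, hf.contDiffOn, Eventually.of_forall fun _ => rfl⟩

lemma contDiff_coord (a : Fin (n + 1)) : ContDiff ℝ ∞ (fun x : Fs n => x a) := by
  exact (EuclideanSpace.proj (𝕜 := ℝ) a : Fs n →L[ℝ] ℝ).contDiff

variable (M) in
lemma Sm.Xc (a : Fin (n + 1)) (p : S) : M.Sm (M.Xc a) p :=
  Sm.ambient M (contDiff_coord a) p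

lemma gradient_smooth {E : Type*} [NormedAddCommGroup E] [InnerProductSpace ℝ E] [CompleteSpace E]
    {g : E → ℝ} {U : Set E} (hU : IsOpen U) (hg : ContDiffOn ℝ ∞ g U) :
    ContDiffOn ℝ ∞ (gradient g) U := by
  have h1 : ContDiffOn ℝ ∞ (fderiv ℝ g) U := hg.fderiv_of_isOpen hU (by simp)
  have h2 := (InnerProductSpace.toDual ℝ E).symm.contDiff (n := ∞) |>.comp_contDiffOn h1
  exact h2

variable (M) in
/-- ambient extension of the normal -/
lemma exists_nu (p : S) : ∃ (ν : Fs n → Fs n) (W : Set (Fs n)), IsOpen W ∧ M.X p ∈ W ∧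
    ContDiffOn ℝ ∞ ν W ∧ ∀ᶠ q in 𝓝 p, M.N q = ν (M.X q) := by
  obtain ⟨U, ι, g, σ, h⟩ := M.sec p
  refine ⟨fun x => (Real.sqrt (1 + ‖gradient g (prj ι (x - M.X p))‖ ^ 2))⁻¹ •
    (M.N p - ι (gradient g (prj ι (x - M.X p)))),
    (fun x => prj ι (x - M.X p)) ⁻¹' U, ?_, ?_, ?_, ?_⟩
  · exact h.isOpen.preimage (by fun_prop)
  · simpa using h.mem0
  · have h1 : ContDiffOn ℝ ∞ (fun x => gradient g (prj ι (x - M.X p)))
        ((fun x => prj ι (x - M.X p)) ⁻¹' U) := by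
      refine (gradient_smooth h.isOpen h.smooth).comp ?_ (fun _ hx => hx)
      exact ((prj ι).contDiff.comp (contDiff_id.sub contDiff_const)).contDiffOn
    have h2 : ContDiffOn ℝ ∞ (fun x => (1 + ‖gradient g (prj ι (x - M.X p))‖ ^ 2))
        ((fun x => prj ι (x - M.X p)) ⁻¹' U) := contDiffOn_const.add (h1.norm_sq ℝ)
    have h3 : ContDiffOn ℝ ∞ (fun x => (Real.sqrt (1 + ‖gradient g (prj ι (x - M.X p))‖ ^ 2))⁻¹)
        ((fun x => prj ι (x - M.X p)) ⁻¹' U) := by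
      refine (h2.sqrt fun x _ => by positivity).inv fun x _ => ?_
      have : (0:ℝ) < 1 + ‖gradient g (prj ι (x - M.X p))‖ ^ 2 := by positivity
      exact (Real.sqrt_pos.2 this).ne'
    refine h3.smul (contDiffOn_const.sub ?_)
    exact ι.toContinuousLinearMap.contDiff.comp_contDiffOn h1
  · filter_upwards [h.image_mem0 (h.isOpen.mem_nhds h.mem0)] with q hq
    obtain ⟨u, hu, rfl⟩ := hq
    simp only [h.proj hu]
    exact h.normal u hu

variable (M) in
lemma Sm.Nc (a : Fin (n + 1)) (p : S) : M.Sm (M.Nc a) p := by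
  obtain ⟨ν, W, hW, hp, hν, hN⟩ := M.exists_nu p
  refine ⟨fun x => ν x a, W, hW, hp, (contDiff_coord a).comp_contDiffOn hν, ?_⟩
  filter_upwards [hN] with q hq
  change M.N q a = _
  rw [hq]

variable (M) in
lemma contN : Continuous M.N := by
  rw [continuous_iff_continuousAt]
  intro p
  obtain ⟨ν, W, hW, hp, hν, hN⟩ := M.exists_nu p
  have h1 : ContinuousAt (fun q => ν (M.X q)) p :=
    ContinuousAt.comp (hν.continuousOn.continuousAt (hW.mem_nhds hp)) M.contX.continuousAt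
  exact h1.congr (hN.mono fun q hq => hq.symm)

lemma coord_gradient {f : Fs n → ℝ} {x : Fs n} (a : Fin (n + 1)) :
    gradient f x a = fderiv ℝ f x (EuclideanSpace.single a 1) := by
  have h1 : inner ℝ (gradient f x) (EuclideanSpace.single a (1:ℝ))
      = fderiv ℝ f x (EuclideanSpace.single a 1) := by
    unfold gradient
    exact InnerProductSpace.toDual_symm_apply
  rw [← h1, real_inner_comm, EuclideanSpace.inner_single_left]
  simp

/-- `dl` of a pull-back -/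
lemma dl_ambient_aux {Z : S → ℝ} {p : S} {f : Fs n → ℝ} {W : Set (Fs n)} (hW : IsOpen W)
    (hp : M.X p ∈ W) (hf : ContDiffOn ℝ ∞ f W) (hZ : ∀ᶠ q in 𝓝 p, Z q = f (M.X q))
    (a : Fin (n + 1)) :
    M.dl a Z p = gradient f (M.X p) a
      - (∑ b, gradient f (M.X p) b * M.N p b) * M.N p a := by
  rw [M.dl_eq (Sm.hasGradient f W hW hp hf hZ)]
  have : inner ℝ (gradient f (M.X p)) (M.N p) = ∑ b, gradient f (M.X p) b * M.N p b := by
    rw [PiLp.inner_apply]
    refine Finset.sum_congr rfl fun b _ => ?_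
    simp [mul_comm]
  rw [this]
  simp

lemma Sm.dl {Z : S → ℝ} {p : S} (h : M.Sm Z p) (a : Fin (n + 1)) : M.Sm (M.dl a Z) p := by
  obtain ⟨f, W, hW, hp, hf, hZ⟩ := h
  have h1 : ∀ b, M.Sm (fun q => gradient f (M.X q) b) p := by
    intro b
    refine ⟨fun x => gradient f x b, W, hW, hp, ?_, Eventually.of_forall fun _ => rfl⟩
    exact (contDiff_coord b).comp_contDiffOn (gradient_smooth hW hf)
  have h2 : M.Sm (fun q => gradient f (M.X q) a
      - (∑ b, gradient f (M.X q) b * M.Nc b q) * M.Nc a q) p := by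
    refine (h1 a).sub ((Sm.sum fun b _ => (h1 b).mul (Sm.Nc M b p)).mul (Sm.Nc M a p))
  refine h2.congr ?_
  filter_upwards [hZ.eventually_nhds, M.contX.continuousAt.eventually (hW.mem_nhds hp)]
    with q h3 h4
  exact dl_ambient_aux hW h4 hf h3 a

variable (M) in
lemma Sm.B (a b : Fin (n + 1)) (p : S) : M.Sm (M.B a b) p := (Sm.dl (Sm.Nc M b p) a).neg

variable (M) in
lemma Sm.H (p : S) : M.Sm M.H p := Sm.sum fun a _ => Sm.B M a a p

variable (M) in
lemma Sm.w (p : S) : M.Sm M.w p := Sm.sum fun a _ => Sm.sum fun b _ => (Sm.B M a b p).pow 2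

variable (M) in
lemma rho_eq (p : S) : M.rho p = ∑ a, (M.Xc a p) ^ 2 := by
  unfold rho Hyp.Xc
  rw [EuclideanSpace.norm_sq_eq]
  simp

variable (M) in
lemma Sm.rho (p : S) : M.Sm M.rho p :=
  (Sm.sum fun a _ => (Sm.Xc M a p).pow 2).congr (Eventually.of_forall fun q => M.rho_eq q)

lemma Sm.gsq {Z : S → ℝ} {p : S} (h : M.Sm Z p) : M.Sm (M.gsq Z) p :=
  Sm.sum fun a _ => (h.dl a).pow 2

lemma Sm.Lap {Z : S → ℝ} {p : S} (h : M.Sm Z p) : M.Sm (M.Lap Z) p :=
  (Sm.sum fun a _ => (h.dl a).dl a).sub (Sm.sum fun a _ => (Sm.Xc M a p).mul (h.dl a))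

/-! ### rules for `dl` -/

lemma hasGr_add {Z1 Z2 : S → ℝ} {p : S} {G1 G2 : Fs n} (h1 : M.HasGr Z1 p G1)
    (h2 : M.HasGr Z2 p G2) : M.HasGr (fun q => Z1 q + Z2 q) p (G1 + G2) := by
  refine ⟨by rw [inner_add_left, h1.1, h2.1]; simp, ?_⟩
  refine (h1.2.add h2.2).congr_left fun q => ?_
  rw [inner_add_left]; ring

lemma dl_add {Z1 Z2 : S → ℝ} {p : S} (h1 : M.Sm Z1 p) (h2 : M.Sm Z2 p) (a : Fin (n + 1)) :
    M.dl a (fun q => Z1 q + Z2 q) p = M.dl a Z1 p + M.dl a Z2 p := by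
  rw [M.dl_eq (hasGr_add h1.hasGr h2.hasGr)]
  rfl

/-- chain rule for `φ ∘ Z` -/
lemma hasGr_comp {Z : S → ℝ} {p : S} {G : Fs n} {φ : ℝ → ℝ} {φ' : ℝ}
    (hφ : HasDerivAt φ φ' (Z p)) (h : M.HasGr Z p G) (hZ : ContinuousAt Z p) :
    M.HasGr (fun q => φ (Z q)) p (φ' • G) := by
  refine ⟨by rw [inner_smul_left, h.1]; simp, ?_⟩
  have h1 := (hasDerivAt_iff_isLittleO.1 hφ).comp_tendsto hZ
  have hO : (fun q => Z q - Z p) =O[𝓝 p] (fun q => M.X q - M.X p) := by
    have h2 : (fun q => inner ℝ G (M.X q - M.X p)) =O[𝓝 p] (fun q => M.X q - M.X p) :=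
      (innerSL ℝ G).isBigO_comp _ _
    have := h.2.isBigO.add h2
    refine this.congr_left fun q => by ring
  have h3 := (h1.trans_isBigO hO).add (h.2.const_mul_left φ')
  refine h3.congr_left fun q => ?_
  simp only [Function.comp_apply, smul_eq_mul, inner_smul_left]
  simp
  ring

lemma dl_comp {Z : S → ℝ} {p : S} {φ : ℝ → ℝ} {φ' : ℝ} (hφ : HasDerivAt φ φ' (Z p))
    (h : M.Sm Z p) (a : Fin (n + 1)) :
    M.dl a (fun q => φ (Z q)) p = φ' * M.dl a Z p := by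
  rw [M.dl_eq (hasGr_comp hφ h.hasGr h.continuousAt)]
  rfl

lemma dl_const (c : ℝ) (p : S) (a : Fin (n + 1)) : M.dl a (fun _ => c) p = 0 := by
  have h1 : M.HasGr (fun _ => c) p 0 := by
    refine ⟨by simp, ?_⟩
    simp
  rw [M.dl_eq h1]
  rfl

lemma dl_const_mul {Z : S → ℝ} {p : S} (c : ℝ) (h : M.Sm Z p) (a : Fin (n + 1)) :
    M.dl a (fun q => c * Z q) p = c * M.dl a Z p := by
  have h1 : HasDerivAt (fun x : ℝ => c * x) c (Z p) := by
    simpa using (hasDerivAt_id (Z p)).const_mul c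
  exact dl_comp h1 h a

lemma dl_neg {Z : S → ℝ} {p : S} (h : M.Sm Z p) (a : Fin (n + 1)) :
    M.dl a (fun q => - Z q) p = - M.dl a Z p := by
  have h1 : HasDerivAt (fun x : ℝ => - x) (-1) (Z p) := (hasDerivAt_id (Z p)).neg
  rw [dl_comp h1 h a]; ring

lemma dl_sub {Z1 Z2 : S → ℝ} {p : S} (h1 : M.Sm Z1 p) (h2 : M.Sm Z2 p) (a : Fin (n + 1)) :
    M.dl a (fun q => Z1 q - Z2 q) p = M.dl a Z1 p - M.dl a Z2 p := by
  have := dl_add h1 h2.neg a
  rw [dl_neg h2] at this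
  rw [← sub_eq_add_neg] at this
  rw [← this]
  rfl

lemma dl_sq {Z : S → ℝ} {p : S} (h : M.Sm Z p) (a : Fin (n + 1)) :
    M.dl a (fun q => Z q ^ 2) p = 2 * Z p * M.dl a Z p := by
  have h1 : HasDerivAt (fun x : ℝ => x ^ 2) (2 * Z p) (Z p) := by
    simpa using (hasDerivAt_pow 2 (Z p))
  exact dl_comp h1 h a

lemma dl_mul {Z1 Z2 : S → ℝ} {p : S} (h1 : M.Sm Z1 p) (h2 : M.Sm Z2 p) (a : Fin (n + 1)) :
    M.dl a (fun q => Z1 q * Z2 q) p = Z1 p * M.dl a Z2 p + Z2 p * M.dl a Z1 p := by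
  have e : (fun q => Z1 q * Z2 q) =
      fun q => (1/4 : ℝ) * ((Z1 q + Z2 q) ^ 2 - (Z1 q - Z2 q) ^ 2) := by
    funext q; ring
  rw [e, dl_const_mul _ (((h1.add h2).pow 2).sub ((h1.sub h2).pow 2)),
    dl_sub ((h1.add h2).pow 2) ((h1.sub h2).pow 2), dl_sq (h1.add h2), dl_sq (h1.sub h2),
    dl_add h1 h2, dl_sub h1 h2]
  ring

lemma dl_sum {κ : Type*} {s : Finset κ} {Z : κ → S → ℝ} {p : S} (h : ∀ i ∈ s, M.Sm (Z i) p)
    (a : Fin (n + 1)) :
    M.dl a (fun q => ∑ i ∈ s, Z i q) p = ∑ i ∈ s, M.dl a (Z i) p := by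
  classical
  induction s using Finset.induction_on with
  | empty => simpa using dl_const (M := M) 0 p a
  | insert i s hi ih =>
    have e : (fun q => ∑ j ∈ insert i s, Z j q) = fun q => Z i q + ∑ j ∈ s, Z j q := by
      funext q; rw [Finset.sum_insert hi]
    rw [e, dl_add (h i (Finset.mem_insert_self i s))
      (Sm.sum fun j hj => h j (Finset.mem_insert_of_mem hj)),
      ih fun j hj => h j (Finset.mem_insert_of_mem hj), Finset.sum_insert hi]

lemma dl_inv {Z : S → ℝ} {p : S} (h : M.Sm Z p) (h0 : Z p ≠ 0) (a : Fin (n + 1)) :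
    M.dl a (fun q => (Z q)⁻¹) p = - M.dl a Z p / (Z p) ^ 2 := by
  have h1 : HasDerivAt (fun x : ℝ => x⁻¹) (-(Z p ^ 2)⁻¹) (Z p) := hasDerivAt_inv h0
  rw [dl_comp h1 h a]; field_simp

lemma dl_div {Z1 Z2 : S → ℝ} {p : S} (h1 : M.Sm Z1 p) (h2 : M.Sm Z2 p) (h0 : Z2 p ≠ 0)
    (a : Fin (n + 1)) :
    M.dl a (fun q => Z1 q / Z2 q) p
      = M.dl a Z1 p / Z2 p - Z1 p * M.dl a Z2 p / (Z2 p) ^ 2 := by
  have e : (fun q => Z1 q / Z2 q) = fun q => Z1 q * (Z2 q)⁻¹ := by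
    funext q; rw [div_eq_mul_inv]
  rw [e, dl_mul h1 (h2.inv h0), dl_inv h2 h0]
  field_simp
  ring

lemma dl_exp {Z : S → ℝ} {p : S} (h : M.Sm Z p) (a : Fin (n + 1)) :
    M.dl a (fun q => Real.exp (Z q)) p = Real.exp (Z p) * M.dl a Z p :=
  dl_comp (Real.hasDerivAt_exp _) h a

lemma dl_log {Z : S → ℝ} {p : S} (h : M.Sm Z p) (h0 : Z p ≠ 0) (a : Fin (n + 1)) :
    M.dl a (fun q => Real.log (Z q)) p = M.dl a Z p / Z p := by
  rw [dl_comp (Real.hasDerivAt_log h0) h a]; field_simp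

variable (M)

/-- the gradient is tangential -/
lemma dl_N (Z : S → ℝ) (p : S) : ∑ a, M.N p a * M.dl a Z p = 0 := by
  unfold dl gr
  split_ifs with h
  · have h1 := h.choose_spec.1
    rw [PiLp.inner_apply] at h1
    rw [← h1]
    refine Finset.sum_congr rfl fun a _ => ?_
    simp
  · simp

lemma dl_X (a b : Fin (n + 1)) (p : S) :
    M.dl a (M.Xc b) p = (if a = b then 1 else 0) - M.N p a * M.N p b := by
  have h1 : HasGradientAt (fun x : Fs n => x b) (EuclideanSpace.single b (1:ℝ)) (M.X p) := by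
    rw [hasGradientAt_iff_hasFDerivAt]
    have h2 : HasFDerivAt (fun x : Fs n => x b) (EuclideanSpace.proj (𝕜 := ℝ) b : Fs n →L[ℝ] ℝ)
        (M.X p) := (EuclideanSpace.proj (𝕜 := ℝ) b : Fs n →L[ℝ] ℝ).hasFDerivAt
    have e : (EuclideanSpace.proj (𝕜 := ℝ) b : Fs n →L[ℝ] ℝ)
        = (InnerProductSpace.toDual ℝ (Fs n)) (EuclideanSpace.single b (1:ℝ)) := by
      ext x
      rw [InnerProductSpace.toDual_apply_apply, EuclideanSpace.inner_single_left]
      simp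
    rw [← e]
    exact h2
  have h0 : M.HasGr (M.Xc b) p _ :=
    M.hasGr_ambient (Z := M.Xc b) h1 (Eventually.of_forall fun q => rfl)
  rw [M.dl_eq h0]
  have h3 : inner ℝ (EuclideanSpace.single b (1:ℝ)) (M.N p) = M.N p b := by
    rw [EuclideanSpace.inner_single_left]
    simp
  rw [h3]
  simp only [PiLp.sub_apply, PiLp.smul_apply, PiLp.single_apply, smul_eq_mul]
  ring

end Hyp

end

end Pool.Agent.ShG
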