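import Pool.Agent.ShG.Calc

/-! Base calculus, part 2: chain rule along maps and sections, symmetry of the second derivative,
commutator, maximum rule, mean value inequality, locally constant functions. -/

namespace Pool.Agent.ShG

open scoped BigOperators Topology ContDiff
open Set Filter Asymptotics

noncomputable section

variable {n : ℕ} {S : Type} [TopologicalSpace S]

namespace Hyp

variable {M : Hyp n S}

/-- chain rule along a map `γ` such that `X ∘ γ` is differentiable -/
lemma HasGr.comp {E' : Type*} [NormedAddCommGroup E'] [NormedSpace ℝ E'] {Z : S → ℝ}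
    {γ : E' → S} {t : E'} {G : Fs n} {x' : E' →L[ℝ] Fs n} (h : M.HasGr Z (γ t) G)
    (hc : ContinuousAt γ t) (hx : HasFDerivAt (fun s => M.X (γ s)) x' t) :
    HasFDerivAt (fun s => Z (γ s)) ((innerSL ℝ G).comp x') t := by
  have h1 := h.2.comp_tendsto hc
  have hO : (fun s => M.X (γ s) - M.X (γ t)) =O[𝓝 t] (fun s => s - t) := hx.isBigO_sub
  have h2 := h1.trans_isBigO hO
  have h3 : HasFDerivAt (fun s => inner ℝ G (M.X (γ s))) ((innerSL ℝ G).comp x') t :=
    ((innerSL ℝ G).hasFDerivAt).comp t hx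
  have h4 := h3.isLittleO
  rw [hasFDerivAt_iff_isLittleO]
  refine (h2.add h4).congr_left fun s => ?_
  simp only [Function.comp_apply, inner_sub_right]
  ring

lemma inner_sum (x y : Fs n) : inner ℝ x y = ∑ a, x a * y a := by
  rw [PiLp.inner_apply]
  refine Finset.sum_congr rfl fun a _ => ?_
  simp [mul_comm]

/-- derivative of `Z ∘ σ` along a section -/
lemma sec_hasFDeriv {Z : S → ℝ} {p : S} {U : Set (Es n)} {ι : Es n →ₗᵢ[ℝ] Fs n} {g : Es n → ℝ}
    {σ : Es n → S} (h : IsSec M.X M.N p U ι g σ) {u : Es n} (hu : u ∈ U) (hZ : M.Sm Z (σ u)) :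
    HasFDerivAt (fun v => Z (σ v)) ((innerSL ℝ (M.gr Z (σ u))).comp
      (ι.toContinuousLinearMap + (fderiv ℝ g u).smulRight (M.N p))) u :=
  HasGr.comp hZ.hasGr (h.contAt hu) (h.hasFDeriv hu)

lemma sec_fderiv_apply {Z : S → ℝ} {p : S} {U : Set (Es n)} {ι : Es n →ₗᵢ[ℝ] Fs n} {g : Es n → ℝ}
    {σ : Es n → S} (h : IsSec M.X M.N p U ι g σ) {u : Es n} (hu : u ∈ U) (hZ : M.Sm Z (σ u))
    (v : Es n) :
    fderiv ℝ (fun v => Z (σ v)) u v
      = ∑ a, M.dl a Z (σ u) * (ι v a + fderiv ℝ g u v * M.N p a) := by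
  rw [(sec_hasFDeriv h hu hZ).fderiv]
  simp only [ContinuousLinearMap.comp_apply, IsSec.hasFDeriv_apply, innerSL_apply_apply]
  rw [inner_sum]
  rfl

/-- the Hessian form of `Z` at `p` -/
def hs (M : Hyp n S) (Z : S → ℝ) (p : S) (x y : Fs n) : ℝ :=
  ∑ a, ∑ b, x a * y b * M.dl a (M.dl b Z) p

/-- second derivative of `Z ∘ σ` at the base point -/
lemma sec_second {Z : S → ℝ} {p : S} {U : Set (Es n)} {ι : Es n →ₗᵢ[ℝ] Fs n} {g : Es n → ℝ}
    {σ : Es n → S} (h : IsSec M.X M.N p U ι g σ) (hZ : M.Sm Z p) :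
    ∃ (f' : Es n → Es n →L[ℝ] ℝ) (f'' : Es n →L[ℝ] Es n →L[ℝ] ℝ),
      (∀ᶠ u in 𝓝 (0 : Es n), HasFDerivAt (fun v => Z (σ v)) (f' u) u) ∧
      HasFDerivAt f' f'' 0 ∧
      ∀ x y, f'' x y = M.hs Z p (ι x) (ι y) := by
  have hσ0 : Tendsto σ (𝓝 0) (𝓝 p) := by
    have := h.contAt h.mem0
    rw [ContinuousAt, h.base] at this
    exact this
  set pr : Fin (n + 1) → (Fs n →L[ℝ] ℝ) := fun b => EuclideanSpace.proj (𝕜 := ℝ) b with hpr
  set f' : Es n → Es n →L[ℝ] ℝ := fun u =>
    (∑ b, M.dl b Z (σ u) • ((pr b).comp ι.toContinuousLinearMap))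
      + (∑ b, M.dl b Z (σ u) * M.N p b) • fderiv ℝ g u with hf'
  have hdl : ∀ b, HasFDerivAt (fun u => M.dl b Z (σ u))
      ((innerSL ℝ (M.gr (M.dl b Z) p)).comp ι.toContinuousLinearMap) 0 := by
    intro b
    have h1 : HasFDerivAt (fun u => M.dl b Z (σ u)) _ 0 :=
      sec_hasFDeriv h h.mem0 (Z := M.dl b Z) (by rw [h.base]; exact hZ.dl b)
    rw [h.base] at h1
    have e : (innerSL ℝ (M.gr (M.dl b Z) p)).comp ι.toContinuousLinearMap
        = (innerSL ℝ (M.gr (M.dl b Z) p)).comp
          (ι.toContinuousLinearMap + (fderiv ℝ g 0).smulRight (M.N p)) := by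
      ext v
      rw [ContinuousLinearMap.comp_apply, ContinuousLinearMap.comp_apply, IsSec.hasFDeriv_apply,
        innerSL_apply_apply, innerSL_apply_apply]
      have hfd : fderiv ℝ g 0 v = 0 := by
        have : fderiv ℝ g 0 v = inner ℝ (gradient g 0) v := by
          unfold gradient
          rw [InnerProductSpace.toDual_symm_apply]
        rw [this, h.grad_zero]; simp
      rw [hfd]
      simp
    rw [e]
    exact h1
  have hg2 : DifferentiableAt ℝ (fderiv ℝ g) 0 := by
    have h1 : ContDiffOn ℝ ∞ (fderiv ℝ g) U := h.smooth.fderiv_of_isOpen h.isOpen (by simp)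
    exact (h1.differentiableOn (by simp)).differentiableAt (h.isOpen.mem_nhds h.mem0)
  have hfd0 : fderiv ℝ g 0 = 0 := by
    ext v
    have : fderiv ℝ g 0 v = inner ℝ (gradient g 0) v := by
      unfold gradient
      rw [InnerProductSpace.toDual_symm_apply]
    rw [this, h.grad_zero]; simp
  have hm0 : (∑ b, M.dl b Z (σ 0) * M.N p b) = 0 := by
    rw [h.base]
    have := M.dl_N Z p
    rw [← this]
    refine Finset.sum_congr rfl fun b _ => by ring
  have hm : HasFDerivAt (fun u => ∑ b, M.dl b Z (σ u) * M.N p b)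
      (∑ b, M.N p b • ((innerSL ℝ (M.gr (M.dl b Z) p)).comp ι.toContinuousLinearMap)) 0 := by
    refine HasFDerivAt.fun_sum fun b _ => ?_
    exact (hdl b).mul_const _
  refine ⟨f', ∑ b, ((innerSL ℝ (M.gr (M.dl b Z) p)).comp ι.toContinuousLinearMap).smulRight
      ((pr b).comp ι.toContinuousLinearMap), ?_, ?_, ?_⟩
  · filter_upwards [h.isOpen.mem_nhds h.mem0, hσ0.eventually hZ.eventually] with u hu hzu
    have h1 := sec_hasFDeriv h hu hzu
    have e : f' u = (innerSL ℝ (M.gr Z (σ u))).comp
          (ι.toContinuousLinearMap + (fderiv ℝ g u).smulRight (M.N p)) := by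
      ext v
      rw [ContinuousLinearMap.comp_apply, IsSec.hasFDeriv_apply, innerSL_apply_apply, inner_sum]
      simp only [hf', add_apply, sum_apply,
        smul_apply, ContinuousLinearMap.comp_apply, smul_eq_mul]
      rw [Finset.sum_mul, ← Finset.sum_add_distrib]
      refine Finset.sum_congr rfl fun b _ => ?_
      simp only [hpr, PiLp.add_apply, PiLp.smul_apply, smul_eq_mul]
      unfold dl
      simp
      ring
    rw [e]
    exact h1
  · have h1 : HasFDerivAt (fun u => ∑ b, M.dl b Z (σ u) • ((pr b).comp ι.toContinuousLinearMap))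
        (∑ b, ((innerSL ℝ (M.gr (M.dl b Z) p)).comp ι.toContinuousLinearMap).smulRight
      ((pr b).comp ι.toContinuousLinearMap)) 0 := by
      refine HasFDerivAt.fun_sum fun b _ => ?_
      exact (hdl b).smul_const ((pr b).comp ι.toContinuousLinearMap)
    have h2 := hm.fun_smul hg2.hasFDerivAt
    have h3 := h1.add h2
    rw [hfd0, hm0, zero_smul, zero_add] at h3
    have e : (∑ b, M.N p b • ((innerSL ℝ (M.gr (M.dl b Z) p)).comp
        ι.toContinuousLinearMap)).smulRight (0 : Es n →L[ℝ] ℝ) = 0 := by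
      ext x y
      simp
    rw [e, add_zero] at h3
    exact h3
  · intro x y
    simp only [sum_apply, ContinuousLinearMap.smulRight_apply,
      ContinuousLinearMap.comp_apply, innerSL_apply_apply, smul_apply,
      smul_eq_mul]
    unfold hs
    rw [Finset.sum_comm]
    refine Finset.sum_congr rfl fun b _ => ?_
    rw [inner_sum, Finset.sum_mul]
    refine Finset.sum_congr rfl fun a _ => ?_
    simp only [hpr]
    change M.dl a (M.dl b Z) p * _ * _ = _
    simp
    ring

lemma hs_symm_tan {Z : S → ℝ} {p : S} {U : Set (Es n)} {ι : Es n →ₗᵢ[ℝ] Fs n} {g : Es n → ℝ}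
    {σ : Es n → S} (h : IsSec M.X M.N p U ι g σ) (hZ : M.Sm Z p) (x y : Es n) :
    M.hs Z p (ι x) (ι y) = M.hs Z p (ι y) (ι x) := by
  obtain ⟨f', f'', h1, h2, h3⟩ := sec_second h hZ
  rw [← h3, ← h3]
  exact second_derivative_symmetric_of_eventually_of_real h1 h2 x y

lemma hs_add_left (Z : S → ℝ) (p : S) (x x' y : Fs n) :
    M.hs Z p (x + x') y = M.hs Z p x y + M.hs Z p x' y := by
  unfold hs
  rw [← Finset.sum_add_distrib]
  refine Finset.sum_congr rfl fun a _ => ?_
  rw [← Finset.sum_add_distrib]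
  refine Finset.sum_congr rfl fun b _ => ?_
  simp only [PiLp.add_apply]; ring

lemma hs_add_right (Z : S → ℝ) (p : S) (x y y' : Fs n) :
    M.hs Z p x (y + y') = M.hs Z p x y + M.hs Z p x y' := by
  unfold hs
  rw [← Finset.sum_add_distrib]
  refine Finset.sum_congr rfl fun a _ => ?_
  rw [← Finset.sum_add_distrib]
  refine Finset.sum_congr rfl fun b _ => ?_
  simp only [PiLp.add_apply]; ring

lemma hs_smul_left (Z : S → ℝ) (p : S) (c : ℝ) (x y : Fs n) :
    M.hs Z p (c • x) y = c * M.hs Z p x y := by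
  unfold hs
  rw [Finset.mul_sum]
  refine Finset.sum_congr rfl fun a _ => ?_
  rw [Finset.mul_sum]
  refine Finset.sum_congr rfl fun b _ => ?_
  simp only [PiLp.smul_apply, smul_eq_mul]; ring

lemma hs_smul_right (Z : S → ℝ) (p : S) (c : ℝ) (x y : Fs n) :
    M.hs Z p x (c • y) = c * M.hs Z p x y := by
  unfold hs
  rw [Finset.mul_sum]
  refine Finset.sum_congr rfl fun a _ => ?_
  rw [Finset.mul_sum]
  refine Finset.sum_congr rfl fun b _ => ?_
  simp only [PiLp.smul_apply, smul_eq_mul]; ring

/-- the Hessian vanishes in the normal direction (first slot) -/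
lemma hs_N_left (Z : S → ℝ) (p : S) (y : Fs n) : M.hs Z p (M.N p) y = 0 := by
  unfold hs
  rw [Finset.sum_comm]
  have : ∀ b, ∑ a, M.N p a * y b * M.dl a (M.dl b Z) p = 0 := by
    intro b
    have h1 := M.dl_N (M.dl b Z) p
    have : ∑ a, M.N p a * y b * M.dl a (M.dl b Z) p
        = y b * ∑ a, M.N p a * M.dl a (M.dl b Z) p := by
      rw [Finset.mul_sum]
      refine Finset.sum_congr rfl fun a _ => by ring
    rw [this, h1, mul_zero]
  exact Finset.sum_eq_zero fun b _ => this b

/-- `∑_b N_b δ_a N_b = 0` -/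
lemma B_N_right (a : Fin (n + 1)) (p : S) : ∑ b, M.B a b p * M.N p b = 0 := by
  have h1 : M.dl a (fun q => ∑ b, M.Nc b q ^ 2) p = 0 := by
    have e : (fun q => ∑ b, M.Nc b q ^ 2) = fun _ => (1 : ℝ) := by
      funext q
      rw [← M.sum_NN q]
      refine Finset.sum_congr rfl fun b _ => ?_
      unfold Nc; ring
    rw [e, dl_const]
  rw [dl_sum (fun b _ => (Sm.Nc M b p).pow 2)] at h1
  have h2 : ∑ b, M.B a b p * M.N p b = -(1/2 : ℝ) * ∑ b, M.dl a (fun q => M.Nc b q ^ 2) p := by
    rw [Finset.mul_sum]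
    refine Finset.sum_congr rfl fun b _ => ?_
    rw [dl_sq (Sm.Nc M b p)]
    unfold B Nc
    ring
  rw [h2, h1, mul_zero]

lemma B_N_left (b : Fin (n + 1)) (p : S) : ∑ a, M.N p a * M.B a b p = 0 := by
  have h1 := M.dl_N (M.Nc b) p
  have : ∑ a, M.N p a * M.B a b p = - ∑ a, M.N p a * M.dl a (M.Nc b) p := by
    rw [← Finset.sum_neg_distrib]
    refine Finset.sum_congr rfl fun a _ => ?_
    unfold B; ring
  rw [this, h1, neg_zero]

lemma dl_Nc (a b : Fin (n + 1)) (p : S) : M.dl a (M.Nc b) p = - M.B a b p := by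
  unfold B; ring

/-- `δ_a δ_b X_c` -/
lemma dl_dl_X (a b c : Fin (n + 1)) (p : S) :
    M.dl a (M.dl b (M.Xc c)) p = M.B a b p * M.N p c + M.N p b * M.B a c p := by
  have e : M.dl b (M.Xc c) = fun q => (if b = c then 1 else 0) - M.Nc b q * M.Nc c q := by
    funext q
    exact M.dl_X b c q
  rw [e, dl_sub (Sm.const M _ p) ((Sm.Nc M b p).mul (Sm.Nc M c p)), dl_const,
    dl_mul (Sm.Nc M b p) (Sm.Nc M c p), dl_Nc, dl_Nc]
  unfold Nc
  ring

/-- the second fundamental form is symmetric -/
theorem B_symm (a b : Fin (n + 1)) (p : S) : M.B a b p = M.B b a p := by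
  obtain ⟨U, ι, g, σ, h⟩ := M.sec p
  set T : Fs n → Fs n → ℝ := fun x y => ∑ a, ∑ b, x a * y b * M.B a b p with hT
  -- on tangent vectors the form is `∑_c N_c Hess X_c`
  have h1 : ∀ x y : Fs n, inner ℝ y (M.N p) = 0 → T x y = ∑ c, M.N p c * M.hs (M.Xc c) p x y := by
    intro x y hy
    rw [inner_sum] at hy
    unfold hs
    simp_rw [dl_dl_X]
    have e1 : ∀ c, M.N p c * ∑ a, ∑ b, x a * y b * (M.B a b p * M.N p c + M.N p b * M.B a c p)
        = (M.N p c * M.N p c) * T x y := by
      intro c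
      have e2 : ∀ a, ∑ b, x a * y b * (M.B a b p * M.N p c + M.N p b * M.B a c p)
          = M.N p c * ∑ b, x a * y b * M.B a b p := by
        intro a
        have : ∑ b, x a * y b * (M.B a b p * M.N p c + M.N p b * M.B a c p)
            = M.N p c * (∑ b, x a * y b * M.B a b p)
              + x a * M.B a c p * ∑ b, y b * M.N p b := by
          rw [Finset.mul_sum, Finset.mul_sum, ← Finset.sum_add_distrib]
          refine Finset.sum_congr rfl fun b _ => by ring
        rw [this, hy]; ring
      simp_rw [e2]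
      rw [← Finset.mul_sum, hT]
      ring
    simp_rw [e1]
    rw [← Finset.sum_mul, M.sum_NN, one_mul]
  have h2 : ∀ x y : Es n, T (ι x) (ι y) = T (ι y) (ι x) := by
    intro x y
    rw [h1 _ _ (h.perp y), h1 _ _ (h.perp x)]
    refine Finset.sum_congr rfl fun c _ => ?_
    rw [hs_symm_tan h (Sm.Xc M c p)]
  have hadd1 : ∀ x x' y, T (x + x') y = T x y + T x' y := by
    intro x x' y
    simp only [hT]
    rw [← Finset.sum_add_distrib]
    refine Finset.sum_congr rfl fun a _ => ?_
    rw [← Finset.sum_add_distrib]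
    refine Finset.sum_congr rfl fun b _ => ?_
    simp only [PiLp.add_apply]; ring
  have hadd2 : ∀ x y y', T x (y + y') = T x y + T x y' := by
    intro x y y'
    simp only [hT]
    rw [← Finset.sum_add_distrib]
    refine Finset.sum_congr rfl fun a _ => ?_
    rw [← Finset.sum_add_distrib]
    refine Finset.sum_congr rfl fun b _ => ?_
    simp only [PiLp.add_apply]; ring
  have hN1 : ∀ (c : ℝ) y, T (c • M.N p) y = 0 := by
    intro c y
    simp only [hT]
    rw [Finset.sum_comm]
    refine Finset.sum_eq_zero fun b _ => ?_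
    have := B_N_left (M := M) b p
    have e : ∑ a, (c • M.N p) a * y b * M.B a b p = c * y b * ∑ a, M.N p a * M.B a b p := by
      rw [Finset.mul_sum]
      refine Finset.sum_congr rfl fun a _ => ?_
      simp only [PiLp.smul_apply, smul_eq_mul]; ring
    rw [e, this, mul_zero]
  have hN2 : ∀ (c : ℝ) x, T x (c • M.N p) = 0 := by
    intro c x
    simp only [hT]
    refine Finset.sum_eq_zero fun a _ => ?_
    have := B_N_right (M := M) a p
    have e : ∑ b, x a * (c • M.N p) b * M.B a b p = c * x a * ∑ b, M.B a b p * M.N p b := by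
      rw [Finset.mul_sum]
      refine Finset.sum_congr rfl fun b _ => ?_
      simp only [PiLp.smul_apply, smul_eq_mul]; ring
    rw [e, this, mul_zero]
  have h3 : ∀ x y, T x y = T y x := by
    intro x y
    rw [h.split (M.unit p) x, h.split (M.unit p) y]
    simp only [hadd1, hadd2, hN1, hN2, add_zero]
    exact h2 _ _
  have h4 : ∀ a b, T (EuclideanSpace.single a 1) (EuclideanSpace.single b 1) = M.B a b p := by
    intro a b
    simp only [hT, PiLp.single_apply]
    rw [Finset.sum_eq_single a, Finset.sum_eq_single b]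
    · simp
    · intro b' _ hb'; simp [hb']
    · simp
    · intro a' _ ha'
      refine Finset.sum_eq_zero fun b' _ => ?_
      simp [ha']
    · simp
  rw [← h4, h3, h4]

lemma B_N_left' (a : Fin (n + 1)) (p : S) : ∑ b, M.N p b * M.B a b p = 0 := by
  have := B_N_right (M := M) a p
  rw [← this]
  refine Finset.sum_congr rfl fun b _ => by ring

/-- `∑_b N_b δ_a δ_b Z = ∑_b B_ab δ_b Z` -/
lemma hs_N_right {Z : S → ℝ} {p : S} (hZ : M.Sm Z p) (a : Fin (n + 1)) :
    ∑ b, M.N p b * M.dl a (M.dl b Z) p = ∑ b, M.B a b p * M.dl b Z p := by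
  have h1 : M.dl a (fun q => ∑ b, M.Nc b q * M.dl b Z q) p = 0 := by
    have e : (fun q => ∑ b, M.Nc b q * M.dl b Z q) = fun _ => (0 : ℝ) := by
      funext q
      exact M.dl_N Z q
    rw [e, dl_const]
  rw [dl_sum (fun b _ => (Sm.Nc M b p).mul (hZ.dl b))] at h1
  have h2 : ∀ b, M.dl a (fun q => M.Nc b q * M.dl b Z q) p
      = M.N p b * M.dl a (M.dl b Z) p - M.B a b p * M.dl b Z p := by
    intro b
    rw [dl_mul (Sm.Nc M b p) (hZ.dl b), dl_Nc]
    unfold Nc
    ring
  simp_rw [h2] at h1
  rw [Finset.sum_sub_distrib] at h1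
  linarith

/-- commutator of tangential derivatives -/
theorem dl_comm {Z : S → ℝ} {p : S} (hZ : M.Sm Z p) (a b : Fin (n + 1)) :
    M.dl a (M.dl b Z) p - M.dl b (M.dl a Z) p
      = M.N p b * (∑ c, M.B a c p * M.dl c Z p) - M.N p a * (∑ c, M.B b c p * M.dl c Z p) := by
  obtain ⟨U, ι, g, σ, h⟩ := M.sec p
  have e1 : ∀ a b, M.hs Z p (EuclideanSpace.single a 1) (EuclideanSpace.single b 1)
      = M.dl a (M.dl b Z) p := by
    intro a b
    unfold hs
    simp only [PiLp.single_apply]
    rw [Finset.sum_eq_single a, Finset.sum_eq_single b]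
    · simp
    · intro b' _ hb'; simp [hb']
    · simp
    · intro a' _ ha'
      refine Finset.sum_eq_zero fun b' _ => ?_
      simp [ha']
    · simp
  -- right slot with the normal
  have e2 : ∀ a, M.hs Z p (EuclideanSpace.single a 1) (M.N p)
      = ∑ b, M.B a b p * M.dl b Z p := by
    intro a
    rw [← hs_N_right hZ a]
    unfold hs
    rw [Finset.sum_eq_single a]
    · refine Finset.sum_congr rfl fun b _ => ?_
      simp
    · intro a' _ ha'
      refine Finset.sum_eq_zero fun b' _ => ?_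
      simp [ha']
    · simp
  have e3 : ∀ a b, M.hs Z p (EuclideanSpace.single a 1) (EuclideanSpace.single b 1)
      = M.hs Z p (ι (prj ι (EuclideanSpace.single a 1))) (ι (prj ι (EuclideanSpace.single b 1)))
        + M.N p b * (∑ c, M.B a c p * M.dl c Z p) := by
    intro a b
    have s1 := h.split (M.unit p) (EuclideanSpace.single a (1:ℝ))
    have s2 := h.split (M.unit p) (EuclideanSpace.single b (1:ℝ))
    have i2 : inner ℝ (EuclideanSpace.single b (1:ℝ)) (M.N p) = M.N p b := by
      rw [EuclideanSpace.inner_single_left]; simp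
    calc M.hs Z p (EuclideanSpace.single a 1) (EuclideanSpace.single b 1)
        = M.hs Z p (EuclideanSpace.single a 1) (ι (prj ι (EuclideanSpace.single b 1)))
          + M.N p b * M.hs Z p (EuclideanSpace.single a 1) (M.N p) := by
          conv_lhs => rw [s2]
          rw [hs_add_right, hs_smul_right, i2]
      _ = _ := by
          rw [e2]
          congr 1
          conv_lhs => rw [s1]
          rw [hs_add_left, hs_smul_left, hs_N_left, mul_zero, add_zero]
  rw [← e1, ← e1, e3 a b, e3 b a, hs_symm_tan h hZ]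
  ring

/-- maximum rule -/
theorem max_rule {Z : S → ℝ} {p : S} (hZ : M.Sm Z p) (hmax : ∀ᶠ q in 𝓝 p, Z q ≤ Z p) :
    (∀ a, M.dl a Z p = 0) ∧ ∑ a, M.dl a (M.dl a Z) p ≤ 0 := by
  obtain ⟨U, ι, g, σ, h⟩ := M.sec p
  have hσ0 : Tendsto σ (𝓝 0) (𝓝 p) := by
    have := h.contAt h.mem0
    rw [ContinuousAt, h.base] at this
    exact this
  obtain ⟨f', f'', h1, h2, h3⟩ := sec_second h hZ
  have hm : IsLocalMax (fun v => Z (σ v)) 0 := by
    filter_upwards [hσ0.eventually hmax] with v hv
    rw [h.base]; exact hv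
  have hfd : HasFDerivAt (fun v => Z (σ v)) _ 0 :=
    sec_hasFDeriv h h.mem0 (Z := Z) (by rw [h.base]; exact hZ)
  have h4 := hm.hasFDerivAt_eq_zero hfd
  have hg0 : fderiv ℝ g 0 = 0 := by
    ext v
    have : fderiv ℝ g 0 v = inner ℝ (gradient g 0) v := by
      unfold gradient
      rw [InnerProductSpace.toDual_symm_apply]
    rw [this, h.grad_zero]; simp
  have h5 : ∀ v, inner ℝ (M.gr Z p) (ι v) = 0 := by
    intro v
    have := DFunLike.congr_fun h4 v
    simp only [ContinuousLinearMap.comp_apply, IsSec.hasFDeriv_apply, innerSL_apply_apply,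
      hg0, h.base] at this
    simpa using this
  have h6 : M.gr Z p = 0 := by
    rw [h.split (M.unit p) (M.gr Z p), hZ.hasGr.1]
    have : prj ι (M.gr Z p) = 0 := by
      refine ext_inner_right ℝ fun v => ?_
      rw [prj_inner, h5, inner_zero_left]
    rw [this]; simp
  refine ⟨fun a => by unfold dl; rw [h6]; rfl, ?_⟩
  -- second derivative
  have h7 : ∀ x : Es n, f'' x x ≤ 0 := by
    intro x
    by_contra hcon
    rw [not_le] at hcon
    set φ : ℝ → ℝ := fun t => Z (σ (t • x)) with hφ
    have hlin : ∀ t : ℝ, HasDerivAt (fun s : ℝ => s • x) x t := by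
      intro t
      simpa using (hasDerivAt_id t).smul_const x
    have ht0 : Tendsto (fun t : ℝ => t • x) (𝓝 0) (𝓝 0) := by
      have : ContinuousAt (fun t : ℝ => t • x) 0 := (hlin 0).continuousAt
      rw [ContinuousAt, zero_smul] at this
      exact this
    have hd1 : ∀ᶠ t in 𝓝 (0:ℝ), HasDerivAt φ (f' (t • x) x) t := by
      filter_upwards [ht0.eventually h1] with t ht
      exact ht.comp_hasDerivAt t (hlin t)
    have hd2 : HasDerivAt (fun t : ℝ => f' (t • x) x) (f'' x x) 0 := by
      have a1 : HasDerivAt (fun t : ℝ => f' (t • x)) (f'' x) 0 := by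
        have a0 : HasFDerivAt f' f'' ((0:ℝ) • x) := by rw [zero_smul]; exact h2
        exact a0.comp_hasDerivAt 0 (hlin 0)
      exact (ContinuousLinearMap.apply ℝ ℝ x).hasFDerivAt.comp_hasDerivAt 0 a1
    have hdd : deriv (deriv φ) 0 = f'' x x := by
      have e : deriv φ =ᶠ[𝓝 0] fun t : ℝ => f' (t • x) x := hd1.mono fun t ht => ht.deriv
      rw [e.deriv_eq]
      exact hd2.deriv
    have hmax1 : IsLocalMax φ 0 := by
      have := ht0.eventually hm
      filter_upwards [this] with t ht
      simp only [hφ, zero_smul]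
      exact ht
    have hmin1 : IsLocalMin φ 0 := by
      refine isLocalMin_of_deriv_deriv_pos (by rw [hdd]; exact hcon) hmax1.deriv_eq_zero ?_
      exact hd1.self_of_nhds.continuousAt
    have hc : φ =ᶠ[𝓝 0] fun _ => φ 0 := by
      filter_upwards [hmax1, hmin1] with t a b
      exact le_antisymm a b
    have : deriv (deriv φ) 0 = 0 := by
      have e1 : deriv φ =ᶠ[𝓝 0] fun _ => (0:ℝ) := by
        filter_upwards [hc.eventuallyEq_nhds] with t ht
        rw [ht.deriv_eq]; simp
      rw [e1.deriv_eq]; simp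
    rw [hdd] at this
    linarith
  -- trace
  have h8 : ∀ a, M.hs Z p (EuclideanSpace.single a 1) (EuclideanSpace.single a 1)
      = M.dl a (M.dl a Z) p := by
    intro a
    unfold hs
    simp only [PiLp.single_apply]
    rw [Finset.sum_eq_single a, Finset.sum_eq_single a]
    · simp
    · intro b' _ hb'; simp [hb']
    · simp
    · intro a' _ ha'
      refine Finset.sum_eq_zero fun b' _ => ?_
      simp [ha']
    · simp
  have h9 : ∀ a, M.dl a (M.dl a Z) p = M.hs Z p (ι (prj ι (EuclideanSpace.single a 1)))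
      (ι (prj ι (EuclideanSpace.single a 1))) + M.N p a *
        (M.hs Z p (EuclideanSpace.single a 1) (M.N p)) := by
    intro a
    rw [← h8]
    have s1 := h.split (M.unit p) (EuclideanSpace.single a (1:ℝ))
    have i2 : inner ℝ (EuclideanSpace.single a (1:ℝ)) (M.N p) = M.N p a := by
      rw [EuclideanSpace.inner_single_left]; simp
    have t1 : ∀ y, M.hs Z p (EuclideanSpace.single a 1) y
        = M.hs Z p (ι (prj ι (EuclideanSpace.single a 1))) y := by
      intro y
      conv_lhs => rw [s1]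
      rw [hs_add_left, hs_smul_left, hs_N_left, mul_zero, add_zero]
    have t2 : ∀ x, M.hs Z p x (EuclideanSpace.single a 1)
        = M.hs Z p x (ι (prj ι (EuclideanSpace.single a 1))) + M.N p a * M.hs Z p x (M.N p) := by
      intro x
      conv_lhs => rw [s1]
      rw [hs_add_right, hs_smul_right, i2]
    rw [t2, t1 (ι (prj ι (EuclideanSpace.single a 1)))]
  have h10 : ∑ a, M.N p a * (M.hs Z p (EuclideanSpace.single a 1) (M.N p)) = 0 := by
    have : ∀ a, M.hs Z p (EuclideanSpace.single a 1) (M.N p)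
        = ∑ b, M.B a b p * M.dl b Z p := by
      intro a
      rw [← hs_N_right hZ a]
      unfold hs
      rw [Finset.sum_eq_single a]
      · refine Finset.sum_congr rfl fun b _ => ?_
        simp
      · intro a' _ ha'
        refine Finset.sum_eq_zero fun b' _ => ?_
        simp [ha']
      · simp
    simp_rw [this]
    refine Finset.sum_eq_zero fun a _ => ?_
    have : ∑ b, M.B a b p * M.dl b Z p = 0 := by
      refine Finset.sum_eq_zero fun b _ => ?_
      unfold dl
      rw [h6]
      simp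
    rw [this, mul_zero]
  simp_rw [h9]
  rw [Finset.sum_add_distrib, h10, add_zero]
  refine Finset.sum_nonpos fun a _ => ?_
  rw [← h3]
  exact h7 _

end Hyp

end

end Pool.Agent.ShG
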