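import Pool.Agent.ShG.Calc2

/-! Base calculus, part 3: rules for the drift Laplacian, derivative along curves (within sets),
mean value inequality in sections, functions with zero gradient. -/

namespace Pool.Agent.ShG

open scoped BigOperators Topology ContDiff
open Set Filter Asymptotics

noncomputable section

variable {n : ℕ} {S : Type} [TopologicalSpace S]

namespace Hyp

variable {M : Hyp n S}

lemma gsq_congr {Z Z' : S → ℝ} {p : S} (h : Z =ᶠ[𝓝 p] Z') : M.gsq Z p = M.gsq Z' p := by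
  unfold gsq
  refine Finset.sum_congr rfl fun a _ => ?_
  rw [M.dl_congr h]

lemma dl_eventuallyEq {Z Z' : S → ℝ} {p : S} (h : Z =ᶠ[𝓝 p] Z') (a : Fin (n + 1)) :
    M.dl a Z =ᶠ[𝓝 p] M.dl a Z' := by
  filter_upwards [h.eventuallyEq_nhds] with q hq
  exact M.dl_congr hq a

lemma Lap_congr {Z Z' : S → ℝ} {p : S} (h : Z =ᶠ[𝓝 p] Z') : M.Lap Z p = M.Lap Z' p := by
  unfold Lap
  congr 1
  · refine Finset.sum_congr rfl fun a _ => ?_
    exact M.dl_congr (dl_eventuallyEq h a) a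
  · refine Finset.sum_congr rfl fun a _ => ?_
    rw [M.dl_congr h]

lemma dl_const' (c : ℝ) (a : Fin (n + 1)) : M.dl a (fun _ => c) = fun _ => 0 := by
  funext p
  exact dl_const c p a

lemma Lap_const (c : ℝ) (p : S) : M.Lap (fun _ => c) p = 0 := by
  unfold Lap
  simp only [dl_const']
  simp

lemma gsq_nonneg (Z : S → ℝ) (p : S) : 0 ≤ M.gsq Z p :=
  Finset.sum_nonneg fun _ _ => sq_nonneg _

lemma gsq_eq_norm (Z : S → ℝ) (p : S) : M.gsq Z p = ‖M.gr Z p‖ ^ 2 := by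
  unfold gsq dl
  rw [EuclideanSpace.norm_sq_eq]
  simp

lemma Lap_add {Z1 Z2 : S → ℝ} {p : S} (h1 : M.Sm Z1 p) (h2 : M.Sm Z2 p) :
    M.Lap (fun q => Z1 q + Z2 q) p = M.Lap Z1 p + M.Lap Z2 p := by
  unfold Lap
  have e : ∀ a, M.dl a (fun q => Z1 q + Z2 q) =ᶠ[𝓝 p] fun q => M.dl a Z1 q + M.dl a Z2 q := by
    intro a
    filter_upwards [h1.eventually, h2.eventually] with q a1 a2
    exact dl_add a1 a2 a
  have e2 : ∀ a, M.dl a (M.dl a (fun q => Z1 q + Z2 q)) p
      = M.dl a (M.dl a Z1) p + M.dl a (M.dl a Z2) p := by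
    intro a
    rw [M.dl_congr (e a), dl_add (h1.dl a) (h2.dl a)]
  simp_rw [e2, dl_add h1 h2]
  rw [Finset.sum_add_distrib]
  have : ∑ a, M.X p a * (M.dl a Z1 p + M.dl a Z2 p)
      = ∑ a, M.X p a * M.dl a Z1 p + ∑ a, M.X p a * M.dl a Z2 p := by
    rw [← Finset.sum_add_distrib]
    refine Finset.sum_congr rfl fun a _ => by ring
  rw [this]; ring

/-- chain rule for the drift Laplacian -/
lemma Lap_comp {Z : S → ℝ} {p : S} {φ φ' : ℝ → ℝ} {φ'' : ℝ}
    (hφ : ∀ᶠ x in 𝓝 (Z p), HasDerivAt φ (φ' x) x) (hφ' : HasDerivAt φ' φ'' (Z p))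
    (hs : ∀ᶠ q in 𝓝 p, M.Sm (fun q => φ' (Z q)) q) (h : M.Sm Z p) :
    M.Lap (fun q => φ (Z q)) p = φ' (Z p) * M.Lap Z p + φ'' * M.gsq Z p := by
  unfold Lap gsq
  have e : ∀ a, M.dl a (fun q => φ (Z q)) =ᶠ[𝓝 p] fun q => φ' (Z q) * M.dl a Z q := by
    intro a
    filter_upwards [h.eventually, h.continuousAt.eventually hφ] with q a1 a2
    exact dl_comp a2 a1 a
  have e2 : ∀ a, M.dl a (M.dl a (fun q => φ (Z q))) p
      = φ' (Z p) * M.dl a (M.dl a Z) p + φ'' * (M.dl a Z p) ^ 2 := by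
    intro a
    rw [M.dl_congr (e a), dl_mul hs.self_of_nhds (h.dl a), dl_comp hφ' h]
    ring
  have e3 : ∀ a, M.dl a (fun q => φ (Z q)) p = φ' (Z p) * M.dl a Z p :=
    fun a => dl_comp hφ.self_of_nhds h a
  simp_rw [e2, e3]
  rw [Finset.sum_add_distrib, mul_sub, Finset.mul_sum, Finset.mul_sum, Finset.mul_sum]
  have : ∑ a, M.X p a * (φ' (Z p) * M.dl a Z p) = ∑ a, φ' (Z p) * (M.X p a * M.dl a Z p) :=
    Finset.sum_congr rfl fun a _ => by ring
  rw [this]; ring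

lemma Lap_const_mul {Z : S → ℝ} {p : S} (c : ℝ) (h : M.Sm Z p) :
    M.Lap (fun q => c * Z q) p = c * M.Lap Z p := by
  have := Lap_comp (M := M) (Z := Z) (p := p) (φ := fun x => c * x) (φ' := fun _ => c)
    (φ'' := 0) (Eventually.of_forall fun x => by simpa using (hasDerivAt_id x).const_mul c)
    (hasDerivAt_const _ _) (Eventually.of_forall fun q => Sm.const M c q) h
  simpa using this

lemma Lap_neg {Z : S → ℝ} {p : S} (h : M.Sm Z p) :
    M.Lap (fun q => - Z q) p = - M.Lap Z p := by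
  have := Lap_const_mul (M := M) (-1) h
  simpa using this

lemma Lap_sub {Z1 Z2 : S → ℝ} {p : S} (h1 : M.Sm Z1 p) (h2 : M.Sm Z2 p) :
    M.Lap (fun q => Z1 q - Z2 q) p = M.Lap Z1 p - M.Lap Z2 p := by
  have h := Lap_add h1 h2.neg
  rw [Lap_neg h2, ← sub_eq_add_neg] at h
  rw [← h]
  rfl

lemma Lap_sq {Z : S → ℝ} {p : S} (h : M.Sm Z p) :
    M.Lap (fun q => Z q ^ 2) p = 2 * Z p * M.Lap Z p + 2 * M.gsq Z p := by
  have := Lap_comp (M := M) (Z := Z) (p := p) (φ := fun x => x ^ 2) (φ' := fun x => 2 * x)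
    (φ'' := 2) (Eventually.of_forall fun x => by simpa using (hasDerivAt_pow 2 x))
    (by simpa using (hasDerivAt_id (Z p)).const_mul (2:ℝ))
    (h.eventually.mono fun q hq => hq.const_mul 2) h
  simpa using this

/-- product rule for the drift Laplacian -/
lemma Lap_mul {Z1 Z2 : S → ℝ} {p : S} (h1 : M.Sm Z1 p) (h2 : M.Sm Z2 p) :
    M.Lap (fun q => Z1 q * Z2 q) p
      = Z1 p * M.Lap Z2 p + Z2 p * M.Lap Z1 p + 2 * ∑ a, M.dl a Z1 p * M.dl a Z2 p := by
  have e : (fun q => Z1 q * Z2 q) =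
      fun q => (1/4 : ℝ) * ((Z1 q + Z2 q) ^ 2 - (Z1 q - Z2 q) ^ 2) := by
    funext q; ring
  rw [e, Lap_const_mul _ (((h1.add h2).pow 2).sub ((h1.sub h2).pow 2)),
    Lap_sub ((h1.add h2).pow 2) ((h1.sub h2).pow 2), Lap_sq (h1.add h2), Lap_sq (h1.sub h2),
    Lap_add h1 h2, Lap_sub h1 h2]
  have e1 : M.gsq (fun q => Z1 q + Z2 q) p - M.gsq (fun q => Z1 q - Z2 q) p
      = 4 * ∑ a, M.dl a Z1 p * M.dl a Z2 p := by
    unfold gsq
    rw [← Finset.sum_sub_distrib, Finset.mul_sum]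
    refine Finset.sum_congr rfl fun a _ => ?_
    rw [dl_add h1 h2, dl_sub h1 h2]
    ring
  linarith

lemma Lap_sum {κ : Type*} {s : Finset κ} {Z : κ → S → ℝ} {p : S} (h : ∀ i ∈ s, M.Sm (Z i) p) :
    M.Lap (fun q => ∑ i ∈ s, Z i q) p = ∑ i ∈ s, M.Lap (Z i) p := by
  classical
  induction s using Finset.induction_on with
  | empty => simpa using Lap_const (M := M) 0 p
  | insert i s hi ih =>
    have e : (fun q => ∑ j ∈ insert i s, Z j q) = fun q => Z i q + ∑ j ∈ s, Z j q := by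
      funext q; rw [Finset.sum_insert hi]
    rw [e, Lap_add (h i (Finset.mem_insert_self i s))
      (Sm.sum fun j hj => h j (Finset.mem_insert_of_mem hj)),
      ih fun j hj => h j (Finset.mem_insert_of_mem hj), Finset.sum_insert hi]

lemma Lap_exp {Z : S → ℝ} {p : S} (h : M.Sm Z p) :
    M.Lap (fun q => Real.exp (Z q)) p = Real.exp (Z p) * (M.Lap Z p + M.gsq Z p) := by
  have := Lap_comp (M := M) (Z := Z) (p := p) (φ := Real.exp) (φ' := Real.exp)
    (φ'' := Real.exp (Z p)) (Eventually.of_forall fun x => Real.hasDerivAt_exp x)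
    (Real.hasDerivAt_exp _) (h.eventually.mono fun q hq => hq.exp) h
  rw [this]; ring

lemma Lap_inv {Z : S → ℝ} {p : S} (h : M.Sm Z p) (h0 : Z p ≠ 0) :
    M.Lap (fun q => (Z q)⁻¹) p = - M.Lap Z p / (Z p) ^ 2 + 2 * M.gsq Z p / (Z p) ^ 3 := by
  have hev : ∀ᶠ x in 𝓝 (Z p), x ≠ 0 := isOpen_ne.mem_nhds h0
  have := Lap_comp (M := M) (Z := Z) (p := p) (φ := fun x => x⁻¹) (φ' := fun x => -(x ^ 2)⁻¹)
    (φ'' := 2 * ((Z p) ^ 3)⁻¹) (hev.mono fun x hx => hasDerivAt_inv hx)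
    (by
      have h1 : HasDerivAt (fun x : ℝ => -(x ^ 2)⁻¹) _ (Z p) :=
        ((hasDerivAt_pow 2 (Z p)).fun_inv (pow_ne_zero 2 h0)).fun_neg
      refine h1.congr_deriv ?_
      push_cast
      field_simp)
    (by
      filter_upwards [h.eventually, h.continuousAt.eventually hev] with q a b
      exact ((a.pow 2).inv (pow_ne_zero 2 b)).neg) h
  rw [this]
  field_simp

lemma Lap_log {Z : S → ℝ} {p : S} (h : M.Sm Z p) (h0 : Z p ≠ 0) :
    M.Lap (fun q => Real.log (Z q)) p = M.Lap Z p / Z p - M.gsq Z p / (Z p) ^ 2 := by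
  have hev : ∀ᶠ x in 𝓝 (Z p), x ≠ 0 := isOpen_ne.mem_nhds h0
  have := Lap_comp (M := M) (Z := Z) (p := p) (φ := Real.log) (φ' := fun x => x⁻¹)
    (φ'' := -((Z p) ^ 2)⁻¹) (hev.mono fun x hx => Real.hasDerivAt_log hx)
    (hasDerivAt_inv h0)
    (by
      filter_upwards [h.eventually, h.continuousAt.eventually hev] with q a b
      exact a.inv b) h
  rw [this]
  field_simp
  ring

/-- maximum rule for the drift Laplacian -/
lemma max_Lap {Z : S → ℝ} {p : S} (hZ : M.Sm Z p) (hmax : ∀ᶠ q in 𝓝 p, Z q ≤ Z p) :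
    (∀ a, M.dl a Z p = 0) ∧ M.gsq Z p = 0 ∧ M.Lap Z p ≤ 0 := by
  obtain ⟨h1, h2⟩ := max_rule hZ hmax
  refine ⟨h1, ?_, ?_⟩
  · unfold gsq
    exact Finset.sum_eq_zero fun a _ => by rw [h1]; simp
  · unfold Lap
    have : ∑ a, M.X p a * M.dl a Z p = 0 := Finset.sum_eq_zero fun a _ => by rw [h1]; simp
    linarith

lemma min_Lap {Z : S → ℝ} {p : S} (hZ : M.Sm Z p) (hmin : ∀ᶠ q in 𝓝 p, Z p ≤ Z q) :
    (∀ a, M.dl a Z p = 0) ∧ M.gsq Z p = 0 ∧ 0 ≤ M.Lap Z p := by
  have h := max_Lap hZ.neg (hmin.mono fun q hq => neg_le_neg hq)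
  have h1 : ∀ a, M.dl a Z p = 0 := by
    intro a
    have := h.1 a
    rw [dl_neg hZ] at this
    linarith
  refine ⟨h1, ?_, ?_⟩
  · unfold gsq
    exact Finset.sum_eq_zero fun a _ => by rw [h1]; simp
  · have := h.2.2
    rw [Lap_neg hZ] at this
    linarith

/-- derivative of `Z ∘ γ` within a set of times -/
lemma HasGr.comp_within {Z : S → ℝ} {γ : ℝ → S} {t : ℝ} {s : Set ℝ} {G x' : Fs n}
    (h : M.HasGr Z (γ t) G) (hc : ContinuousWithinAt γ s t)
    (hx : HasDerivWithinAt (fun r => M.X (γ r)) x' s t) :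
    HasDerivWithinAt (fun r => Z (γ r)) (inner ℝ G x') s t := by
  have h1 := h.2.comp_tendsto hc
  have hx' := hx.hasFDerivWithinAt
  have hO : (fun r => M.X (γ r) - M.X (γ t)) =O[𝓝[s] t] (fun r => r - t) :=
    hx'.isBigO_sub
  have h2 := h1.trans_isBigO hO
  have h3 : HasDerivWithinAt (fun r => inner ℝ G (M.X (γ r))) (inner ℝ G x') s t := by
    have := ((innerSL ℝ G).hasFDerivAt.comp_hasDerivWithinAt t hx)
    exact this
  have h4 := h3.hasFDerivWithinAt.isLittleO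
  rw [hasDerivWithinAt_iff_isLittleO]
  refine (h2.add h4).congr_left fun r => ?_
  simp only [Function.comp_apply, inner_sub_right, ContinuousLinearMap.toSpanSingleton_apply,
    smul_eq_mul]
  ring

lemma Sm.comp_within {Z : S → ℝ} {γ : ℝ → S} {t : ℝ} {s : Set ℝ} {x' : Fs n}
    (h : M.Sm Z (γ t)) (hc : ContinuousWithinAt γ s t)
    (hx : HasDerivWithinAt (fun r => M.X (γ r)) x' s t) :
    HasDerivWithinAt (fun r => Z (γ r)) (∑ a, M.dl a Z (γ t) * x' a) s t := by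
  have := HasGr.comp_within h.hasGr hc hx
  rw [inner_sum] at this
  exact this

/-- mean value inequality in a section -/
lemma sec_lip {Z : S → ℝ} {p : S} {U : Set (Es n)} {ι : Es n →ₗᵢ[ℝ] Fs n} {g : Es n → ℝ}
    {σ : Es n → S} (h : IsSec M.X M.N p U ι g σ) {u u' : Es n} (hseg : segment ℝ u u' ⊆ U)
    {L : ℝ} (hL : 0 ≤ L) (hslope : ∀ v ∈ segment ℝ u u', ‖gradient g v‖ ≤ 1)
    (hZ : ∀ v ∈ segment ℝ u u', M.Sm Z (σ v))
    (hG : ∀ v ∈ segment ℝ u u', M.gsq Z (σ v) ≤ L ^ 2) :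
    |Z (σ u') - Z (σ u)| ≤ 2 * L * ‖u' - u‖ := by
  have hb : ∀ v ∈ segment ℝ u u', HasFDerivWithinAt (fun v => Z (σ v))
      ((innerSL ℝ (M.gr Z (σ v))).comp
      (ι.toContinuousLinearMap + (fderiv ℝ g v).smulRight (M.N p))) (segment ℝ u u') v :=
    fun v hv => (sec_hasFDeriv h (hseg hv) (hZ v hv)).hasFDerivWithinAt
  have hbd : ∀ v ∈ segment ℝ u u', ‖(innerSL ℝ (M.gr Z (σ v))).comp
      (ι.toContinuousLinearMap + (fderiv ℝ g v).smulRight (M.N p))‖ ≤ 2 * L := by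
    intro v hv
    refine ContinuousLinearMap.opNorm_le_bound _ (by positivity) fun x => ?_
    rw [ContinuousLinearMap.comp_apply, IsSec.hasFDeriv_apply, innerSL_apply_apply]
    have h1 : ‖M.gr Z (σ v)‖ ≤ L := by
      have := hG v hv
      rw [gsq_eq_norm] at this
      exact le_of_sq_le_sq this hL
    have h2 : ‖ι x + (fderiv ℝ g v x) • M.N p‖ ≤ 2 * ‖x‖ := by
      refine (norm_add_le _ _).trans ?_
      rw [ι.norm_map, norm_smul, M.unit, mul_one]
      have h3 : fderiv ℝ g v x = inner ℝ (gradient g v) x := by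
        unfold gradient
        rw [InnerProductSpace.toDual_symm_apply]
      rw [h3]
      have h4 := norm_inner_le_norm (𝕜 := ℝ) (gradient g v) x
      have h5 := hslope v hv
      nlinarith [norm_nonneg x, norm_nonneg (gradient g v)]
    refine (norm_inner_le_norm _ _).trans ?_
    calc ‖M.gr Z (σ v)‖ * ‖ι x + (fderiv ℝ g v x) • M.N p‖ ≤ L * (2 * ‖x‖) := by
          gcongr
      _ = 2 * L * ‖x‖ := by ring
  have := (convex_segment u u').norm_image_sub_le_of_norm_hasFDerivWithin_le hb hbd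
    (left_mem_segment ℝ u u') (right_mem_segment ℝ u u')
  simpa using this

/-- a function with zero gradient is locally constant -/
lemma locConst {Z : S → ℝ} {p : S} (hZ : ∀ᶠ q in 𝓝 p, M.Sm Z q)
    (h0 : ∀ᶠ q in 𝓝 p, ∀ a, M.dl a Z q = 0) : ∀ᶠ q in 𝓝 p, Z q = Z p := by
  obtain ⟨U, ι, g, σ, h⟩ := M.sec p
  have hσ0 : Tendsto σ (𝓝 0) (𝓝 p) := by
    have := h.contAt h.mem0
    rw [ContinuousAt, h.base] at this
    exact this
  have h1 : ∀ᶠ u in 𝓝 (0 : Es n), u ∈ U ∧ M.Sm Z (σ u) ∧ ∀ a, M.dl a Z (σ u) = 0 := by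
    filter_upwards [h.isOpen.mem_nhds h.mem0, hσ0.eventually hZ, hσ0.eventually h0]
      with u a b c
    exact ⟨a, b, c⟩
  obtain ⟨r, hr, hb⟩ := Metric.eventually_nhds_iff_ball.1 h1
  have h2 : ∀ u ∈ Metric.ball (0 : Es n) r, Z (σ u) = Z p := by
    intro u hu
    have hd : ∀ v ∈ Metric.ball (0 : Es n) r, HasFDerivWithinAt (fun v => Z (σ v))
        (0 : Es n →L[ℝ] ℝ) (Metric.ball (0 : Es n) r) v := by
      intro v hv
      obtain ⟨a1, a2, a3⟩ := hb v hv
      have h3 := sec_hasFDeriv h a1 a2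
      have h4 : M.gr Z (σ v) = 0 := by
        ext a
        exact a3 a
      rw [h4, map_zero, ContinuousLinearMap.zero_comp] at h3
      exact h3.hasFDerivWithinAt
    have := (convex_ball (0 : Es n) r).norm_image_sub_le_of_norm_hasFDerivWithin_le (C := 0) hd
      (fun v _ => by simp) (Metric.mem_ball_self hr) hu
    rw [zero_mul] at this
    have h5 := norm_le_zero_iff.1 this
    rw [h.base] at h5
    exact sub_eq_zero.1 h5
  filter_upwards [h.image_mem0 (Metric.ball_mem_nhds 0 hr)] with q hq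
  obtain ⟨u, hu, rfl⟩ := hq
  exact h2 u hu

lemma const_of_dl_zero [PreconnectedSpace S] {Z : S → ℝ} (hZ : ∀ q, M.Sm Z q)
    (h0 : ∀ q a, M.dl a Z q = 0) (p q : S) : Z p = Z q := by
  have : IsLocallyConstant Z := by
    rw [IsLocallyConstant.iff_eventually_eq]
    intro x
    exact locConst (Eventually.of_forall hZ) (Eventually.of_forall h0)
  exact this.apply_eq_of_isPreconnected isPreconnected_univ (mem_univ p) (mem_univ q)

end Hyp

end

end Pool.Agent.ShG
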