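import Mathlib

/-!
# ShG: upper curvature gap for immersed self-shrinking hypersurfaces (MP_61ae63_gt)

`Hyp n S`: an oriented, properly immersed hypersurface `X : S → ℝ^{n+1}` with unit normal `N`,
described through graph sections.  Calculus: a function `Z : S → ℝ` is smooth at `p` (`M.Sm Z p`)
if near `p` it is the pull-back of an ambient smooth function; its tangential gradient
`M.gr Z p` is the vector `G ⊥ N p` with `Z q - Z p = ⟨G, X q - X p⟩ + o(|X q - X p|)`, and
`M.dl a Z` is its `a`-th coordinate (the tangential derivative `δ_a Z`).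
-/

namespace Pool.Agent.ShG

open scoped BigOperators Topology ContDiff
open Set Filter

noncomputable section

/-- the ambient space -/
abbrev Fs (n : ℕ) := EuclideanSpace ℝ (Fin (n + 1))
/-- the parameter space -/
abbrev Es (n : ℕ) := EuclideanSpace ℝ (Fin n)

/-- `σ : U → S` is a graph section at `p`: `σ 0 = p`, `σ` is continuous and open on `U`,
`X (σ u) = X p + ι u + g u • N p` where `ι` is a linear isometry onto `(N p)^⊥`, and `N (σ u)` is
the normal of the graph of `g` (on the side of `N p`). -/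
structure IsSec {n : ℕ} {S : Type} [TopologicalSpace S] (X N : S → Fs n) (p : S)
    (U : Set (Es n)) (ι : Es n →ₗᵢ[ℝ] Fs n) (g : Es n → ℝ) (σ : Es n → S) : Prop where
  isOpen : IsOpen U
  mem0 : (0 : Es n) ∈ U
  base : σ 0 = p
  cont : ContinuousOn σ U
  opn : ∀ V : Set (Es n), V ⊆ U → IsOpen V → IsOpen (σ '' V)
  perp : ∀ u, inner ℝ (ι u) (N p) = 0
  smooth : ContDiffOn ℝ ∞ g U
  graph : ∀ u ∈ U, X (σ u) = X p + ι u + g u • N p
  normal : ∀ u ∈ U, N (σ u) = (Real.sqrt (1 + ‖gradient g u‖ ^ 2))⁻¹ • (N p - ι (gradient g u))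

/-- an oriented properly immersed hypersurface of `ℝ^{n+1}` -/
structure Hyp (n : ℕ) (S : Type) [TopologicalSpace S] where
  X : S → Fs n
  N : S → Fs n
  proper : IsProperMap X
  unit : ∀ p, ‖N p‖ = 1
  sec : ∀ p, ∃ U ι g σ, IsSec X N p U ι g σ

variable {n : ℕ} {S : Type} [TopologicalSpace S]

namespace Hyp

/-- `Z` is smooth at `p`: near `p` it is the pull-back of a smooth function of `ℝ^{n+1}` -/
def Sm (M : Hyp n S) (Z : S → ℝ) (p : S) : Prop :=
  ∃ (f : Fs n → ℝ) (W : Set (Fs n)), IsOpen W ∧ M.X p ∈ W ∧ ContDiffOn ℝ ∞ f W ∧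
    ∀ᶠ q in 𝓝 p, Z q = f (M.X q)

/-- `G` is the tangential gradient of `Z` at `p` -/
def HasGr (M : Hyp n S) (Z : S → ℝ) (p : S) (G : Fs n) : Prop :=
  inner ℝ G (M.N p) = 0 ∧
    (fun q => Z q - Z p - inner ℝ G (M.X q - M.X p)) =o[𝓝 p] (fun q => M.X q - M.X p)

open Classical in
/-- the tangential gradient (0 if there is none) -/
def gr (M : Hyp n S) (Z : S → ℝ) (p : S) : Fs n :=
  if h : ∃ G, M.HasGr Z p G then h.choose else 0

/-- tangential derivative `δ_a Z` -/
def dl (M : Hyp n S) (a : Fin (n + 1)) (Z : S → ℝ) : S → ℝ := fun p => M.gr Z p a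

/-- squared length of the tangential gradient -/
def gsq (M : Hyp n S) (Z : S → ℝ) : S → ℝ := fun p => ∑ a, (M.dl a Z p) ^ 2

/-- coordinate functions of the position and of the normal -/
def Xc (M : Hyp n S) (a : Fin (n + 1)) : S → ℝ := fun p => M.X p a
def Nc (M : Hyp n S) (a : Fin (n + 1)) : S → ℝ := fun p => M.N p a

/-- second fundamental form `B_ab = -δ_a N_b` -/
def B (M : Hyp n S) (a b : Fin (n + 1)) : S → ℝ := fun p => - M.dl a (M.Nc b) p

/-- mean curvature -/
def H (M : Hyp n S) : S → ℝ := fun p => ∑ a, M.B a a p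

/-- squared norm of the second fundamental form -/
def w (M : Hyp n S) : S → ℝ := fun p => ∑ a, ∑ b, (M.B a b p) ^ 2

/-- squared distance to the origin -/
def rho (M : Hyp n S) : S → ℝ := fun p => ‖M.X p‖ ^ 2

/-- the drift Laplacian -/
def Lap (M : Hyp n S) (Z : S → ℝ) : S → ℝ :=
  fun p => ∑ a, M.dl a (M.dl a Z) p - ∑ a, M.X p a * M.dl a Z p

/-- the shrinker equation `H = -⟨X, N⟩` -/
def Shr (M : Hyp n S) : Prop := ∀ p, M.H p = - inner ℝ (M.X p) (M.N p)

end Hyp

end

end Pool.Agent.ShG
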