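import Pool.Agent.ShG.Calc3

/-! Derived quantities (tensors built from `B`) and their smoothness. -/

namespace Pool.Agent.ShG

open scoped BigOperators Topology ContDiff
open Set Filter

noncomputable section

variable {n : ℕ} {S : Type} [TopologicalSpace S]

namespace Hyp

variable (M : Hyp n S)

/-- `(B²)_ab` -/
def B2 (a b : Fin (n + 1)) : S → ℝ := fun p => ∑ c, M.B a c p * M.B c b p
/-- `(B³)_ab` -/
def B3 (a b : Fin (n + 1)) : S → ℝ := fun p => ∑ c, M.B2 a c p * M.B c b p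
/-- `tr B³` -/
def tr3 : S → ℝ := fun p => ∑ a, M.B3 a a p
/-- `tr B⁴` -/
def b4 : S → ℝ := fun p => ∑ a, ∑ b, (M.B2 a b p) ^ 2
/-- the tensor `∇A`: `T_abc = δ_a B_bc - N_b (B²)_ac - N_c (B²)_ab` -/
def T3 (a b c : Fin (n + 1)) : S → ℝ := fun p =>
  M.dl a (M.B b c) p - M.N p b * M.B2 a c p - M.N p c * M.B2 a b p
/-- `J = |∇A|²` -/
def J : S → ℝ := fun p => ∑ a, ∑ b, ∑ c, (M.T3 a b c p) ^ 2
/-- `|DB|²` -/
def e1 : S → ℝ := fun p => ∑ a, ∑ b, ∑ c, (M.dl a (M.B b c) p) ^ 2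
/-- `|DDB|²` -/
def e2 : S → ℝ := fun p => ∑ a, ∑ b, ∑ c, ∑ d, (M.dl a (M.dl b (M.B c d)) p) ^ 2
/-- `|DDDB|²` -/
def e3 : S → ℝ := fun p =>
  ∑ f, ∑ a, ∑ b, ∑ c, ∑ d, (M.dl f (M.dl a (M.dl b (M.B c d))) p) ^ 2
/-- `τ = B/H` -/
def tau (a b : Fin (n + 1)) : S → ℝ := fun p => M.B a b p / M.H p
/-- `ζ = ∇H/H` -/
def ze (a : Fin (n + 1)) : S → ℝ := fun p => M.dl a M.H p / M.H p
/-- the tensor `∇τ`: `𝒮_abc = (T_abc - ζ_a B_bc)/H` -/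
def S3 (a b c : Fin (n + 1)) : S → ℝ := fun p => (M.T3 a b c p - M.ze a p * M.B b c p) / M.H p
/-- `|𝒮|²` -/
def ssq : S → ℝ := fun p => ∑ a, ∑ b, ∑ c, (M.S3 a b c p) ^ 2
/-- `F = |τ|² = w/H²` -/
def Fq : S → ℝ := fun p => M.w p / (M.H p) ^ 2
/-- the operator `ℒ = Lap + 2⟨ζ, ∇·⟩` -/
def LL (Z : S → ℝ) : S → ℝ := fun p => M.Lap Z p + 2 * ∑ a, M.ze a p * M.dl a Z p
/-- `τ(x,x)` -/
def tq (x : Fs n) : S → ℝ := fun p => ∑ a, ∑ b, x a * x b * M.tau a b p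
/-- the vector `B(p) x` -/
def Bv (p : S) (x : Fs n) : Fs n := WithLp.toLp 2 (fun a => ∑ b, M.B a b p * x b)
/-- `v = 1 + 2c - w` -/
def vv (c : ℝ) : S → ℝ := fun p => 1 + 2 * c - M.w p

/-- standing assumptions: shrinker, `0 < c ≤ 1/100`, `w < 1 + c` -/
def Std (c : ℝ) : Prop := M.Shr ∧ 0 < c ∧ c ≤ 1 / 100 ∧ ∀ p, M.w p < 1 + c

/-- a uniform section: radius `1/8`, slope at most `1/4` -/
def Nice (p : S) (ι : Es n →ₗᵢ[ℝ] Fs n) (g : Es n → ℝ) (σ : Es n → S) : Prop :=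
  IsSec M.X M.N p (Metric.ball 0 (1 / 8)) ι g σ ∧
    ∀ u ∈ Metric.ball (0 : Es n) (1 / 8), ‖gradient g u‖ ≤ 1 / 4

/-- `γ` lifts the segment `t ↦ t • u`, `0 ≤ t ≤ s`, starting at `p`, with `⟨N, N p⟩ > 0` -/
def Lift (p : S) (ι : Es n →ₗᵢ[ℝ] Fs n) (u : Es n) (s : ℝ) (γ : ℝ → S) : Prop :=
  ContinuousOn γ (Icc 0 s) ∧ γ 0 = p ∧
    (∀ t ∈ Icc (0:ℝ) s, prj ι (M.X (γ t) - M.X p) = t • u) ∧
    ∀ t ∈ Icc (0:ℝ) s, 0 < inner ℝ (M.N (γ t)) (M.N p)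

/-- `q` lies in the ball of radius `1/32` of a uniform section at `p` -/
def Step (p q : S) : Prop :=
  ∃ ι g σ, M.Nice p ι g σ ∧ ∃ u ∈ Metric.ball (0 : Es n) (1 / 32), σ u = q

/-- reachable by `k` steps -/
def Rch : ℕ → S → S → Prop
  | 0, p, q => q = p
  | k + 1, p, q => ∃ q', Rch k p q' ∧ M.Step q' q

/-- viscosity supersolution: every smooth `φ` touching `Y` from below at `q ∈ Ω` satisfies
`Lap φ + ⟨V, ∇φ⟩ ≤ β` at `q` -/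
def VSup (V : S → Fs n) (Y : S → ℝ) (β : ℝ) (Ω : Set S) : Prop :=
  ∀ q ∈ Ω, ∀ φ : S → ℝ, M.Sm φ q → (∀ᶠ q' in 𝓝 q, φ q' - φ q ≤ Y q' - Y q) →
    M.Lap φ q + inner ℝ (V q) (M.gr φ q) ≤ β

variable {M}

lemma Sm.B2 (a b : Fin (n + 1)) (p : S) : M.Sm (M.B2 a b) p :=
  Sm.sum fun c _ => (Sm.B M a c p).mul (Sm.B M c b p)

lemma Sm.B3 (a b : Fin (n + 1)) (p : S) : M.Sm (M.B3 a b) p :=
  Sm.sum fun c _ => (Sm.B2 a c p).mul (Sm.B M c b p)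

lemma Sm.tr3 (p : S) : M.Sm M.tr3 p := Sm.sum fun a _ => Sm.B3 a a p

lemma Sm.b4 (p : S) : M.Sm M.b4 p := Sm.sum fun a _ => Sm.sum fun b _ => (Sm.B2 a b p).pow 2

lemma Sm.T3 (a b c : Fin (n + 1)) (p : S) : M.Sm (M.T3 a b c) p :=
  (((Sm.B M b c p).dl a).sub ((Sm.Nc M b p).mul (Sm.B2 a c p))).sub
    ((Sm.Nc M c p).mul (Sm.B2 a b p))

lemma Sm.J (p : S) : M.Sm M.J p :=
  Sm.sum fun a _ => Sm.sum fun b _ => Sm.sum fun c _ => (Sm.T3 a b c p).pow 2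

lemma Sm.e1 (p : S) : M.Sm M.e1 p :=
  Sm.sum fun a _ => Sm.sum fun b _ => Sm.sum fun c _ => ((Sm.B M b c p).dl a).pow 2

lemma Sm.e2 (p : S) : M.Sm M.e2 p :=
  Sm.sum fun a _ => Sm.sum fun b _ => Sm.sum fun c _ => Sm.sum fun d _ =>
    (((Sm.B M c d p).dl b).dl a).pow 2

lemma Sm.vv (c : ℝ) (p : S) : M.Sm (M.vv c) p := (Sm.const M (1 + 2 * c) p).sub (Sm.w M p)

lemma Sm.tau {p : S} (h : M.H p ≠ 0) (a b : Fin (n + 1)) : M.Sm (M.tau a b) p :=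
  (Sm.B M a b p).div (Sm.H M p) h

lemma Sm.ze {p : S} (h : M.H p ≠ 0) (a : Fin (n + 1)) : M.Sm (M.ze a) p :=
  ((Sm.H M p).dl a).div (Sm.H M p) h

lemma Sm.S3 {p : S} (h : M.H p ≠ 0) (a b c : Fin (n + 1)) : M.Sm (M.S3 a b c) p :=
  ((Sm.T3 a b c p).sub ((Sm.ze h a).mul (Sm.B M b c p))).div (Sm.H M p) h

lemma Sm.ssq {p : S} (h : M.H p ≠ 0) : M.Sm M.ssq p :=
  Sm.sum fun a _ => Sm.sum fun b _ => Sm.sum fun c _ => (Sm.S3 h a b c).pow 2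

lemma Sm.Fq {p : S} (h : M.H p ≠ 0) : M.Sm M.Fq p :=
  (Sm.w M p).div ((Sm.H M p).pow 2) (pow_ne_zero 2 h)

lemma Sm.tq {p : S} (h : M.H p ≠ 0) (x : Fs n) : M.Sm (M.tq x) p :=
  Sm.sum fun a _ => Sm.sum fun b _ => (Sm.tau h a b).const_mul (x a * x b)

lemma w_nonneg (p : S) : 0 ≤ M.w p :=
  Finset.sum_nonneg fun _ _ => Finset.sum_nonneg fun _ _ => sq_nonneg _

lemma J_nonneg (p : S) : 0 ≤ M.J p :=
  Finset.sum_nonneg fun _ _ => Finset.sum_nonneg fun _ _ => Finset.sum_nonneg fun _ _ =>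
    sq_nonneg _

lemma ssq_nonneg (p : S) : 0 ≤ M.ssq p :=
  Finset.sum_nonneg fun _ _ => Finset.sum_nonneg fun _ _ => Finset.sum_nonneg fun _ _ =>
    sq_nonneg _

lemma e1_nonneg (p : S) : 0 ≤ M.e1 p :=
  Finset.sum_nonneg fun _ _ => Finset.sum_nonneg fun _ _ => Finset.sum_nonneg fun _ _ =>
    sq_nonneg _

lemma e2_nonneg (p : S) : 0 ≤ M.e2 p :=
  Finset.sum_nonneg fun _ _ => Finset.sum_nonneg fun _ _ => Finset.sum_nonneg fun _ _ =>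
    Finset.sum_nonneg fun _ _ => sq_nonneg _

lemma Bv_apply (p : S) (x : Fs n) (a : Fin (n + 1)) :
    M.Bv p x a = ∑ b, M.B a b p * x b := rfl

/-- sublevel sets of `rho` are compact -/
lemma isCompact_rho (r : ℝ) : IsCompact {p | M.rho p ≤ r} := by
  have h1 : {p | M.rho p ≤ r} = M.X ⁻¹' {x | ‖x‖ ^ 2 ≤ r} := rfl
  rw [h1]
  refine M.proper.isCompact_preimage ?_
  refine Metric.isCompact_of_isClosed_isBounded
    (isClosed_le (continuous_norm.pow 2) continuous_const) ?_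
  refine (Metric.isBounded_closedBall (x := (0 : Fs n)) (r := Real.sqrt r)).subset ?_
  intro x hx
  rw [mem_closedBall_zero_iff]
  exact Real.le_sqrt_of_sq_le hx

end Hyp

end

end Pool.Agent.ShG
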