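import Pool.Agent.ShG.Targets

/-! `H² ≤ n w`, `b4 ≤ w²` and the operator `B x` (helper4). -/

namespace Pool.Agent.ShG

open scoped BigOperators Topology ContDiff
open Set Filter

noncomputable section

/-- Cauchy-Schwarz for double sums -/
lemma HW_cs {m : ℕ} (f g : Fin m → Fin m → ℝ) :
    (∑ a, ∑ b, f a b * g a b) ^ 2 ≤ (∑ a, ∑ b, (f a b) ^ 2) * ∑ a, ∑ b, (g a b) ^ 2 := by
  have h := Finset.sum_mul_sq_le_sq_mul_sq (Finset.univ : Finset (Fin m × Fin m))
    (fun x => f x.1 x.2) (fun x => g x.1 x.2)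
  rw [Fintype.sum_prod_type, Fintype.sum_prod_type, Fintype.sum_prod_type] at h
  exact h

/-- squared norm of the projection onto the complement of a unit vector -/
lemma HW_proj {m : ℕ} (N : Fin (m + 1) → ℝ) (hN : ∑ a, N a * N a = 1) :
    ∑ a, ∑ b, ((if a = b then (1:ℝ) else 0) - N a * N b) ^ 2 = m := by
  have h1 : ∀ a b : Fin (m + 1), ((if a = b then (1:ℝ) else 0) - N a * N b) ^ 2
      = (if a = b then (1 - 2 * (N a * N b)) else 0) + (N a * N a) * (N b * N b) := by
    intro a b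
    by_cases hab : a = b
    · subst hab
      simp only [if_true]
      ring
    · simp only [if_neg hab]
      ring
  have h2 : ∀ a : Fin (m + 1), ∑ b, ((if a = b then (1:ℝ) else 0) - N a * N b) ^ 2
      = 1 - 2 * (N a * N a) + N a * N a := by
    intro a
    rw [Finset.sum_congr rfl fun b _ => h1 a b, Finset.sum_add_distrib, ← Finset.mul_sum, hN,
      Finset.sum_ite_eq]
    simp
  rw [Finset.sum_congr rfl fun a _ => h2 a, Finset.sum_add_distrib, Finset.sum_sub_distrib,
    ← Finset.mul_sum, hN]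
  simp
  ring

lemma HW_H {n : ℕ} {S : Type} [TopologicalSpace S] (M : Hyp n S) (p : S) :
    M.H p = ∑ a, ∑ b, ((if a = b then (1:ℝ) else 0) - M.N p a * M.N p b) * M.B a b p := by
  have h1 : ∀ a : Fin (n + 1), ∑ b, ((if a = b then (1:ℝ) else 0) - M.N p a * M.N p b) * M.B a b p
      = M.B a a p := by
    intro a
    have h2 : ∀ b : Fin (n + 1), ((if a = b then (1:ℝ) else 0) - M.N p a * M.N p b) * M.B a b p
        = (if a = b then M.B a b p else 0) - M.N p a * (M.N p b * M.B a b p) := by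
      intro b
      by_cases hab : a = b
      · subst hab
        simp only [if_true]
        ring
      · simp only [if_neg hab]
        ring
    rw [Finset.sum_congr rfl fun b _ => h2 b, Finset.sum_sub_distrib, ← Finset.mul_sum,
      Hyp.B_N_left', Finset.sum_ite_eq]
    simp
  rw [Finset.sum_congr rfl fun a _ => h1 a]
  rfl

lemma HW_inner {n : ℕ} (x y : Fs n) : (inner ℝ x y : ℝ) = ∑ a, x a * y a := by
  rw [PiLp.inner_apply]
  refine Finset.sum_congr rfl fun a _ => ?_
  simp [mul_comm]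

lemma HW_norm {n : ℕ} (x : Fs n) : ‖x‖ ^ 2 = ∑ a, (x a) ^ 2 := by
  rw [EuclideanSpace.norm_sq_eq]
  simp

theorem pHW : tHW := by
  intro n S _ M p
  refine ⟨?_, ?_, ?_, ?_, ?_, ?_⟩
  · have h := HW_cs (fun a b => (if a = b then (1:ℝ) else 0) - M.N p a * M.N p b)
      (fun a b => M.B a b p)
    rw [HW_proj (fun a => M.N p a) (M.sum_NN p), ← HW_H] at h
    exact h
  · have h1 : ∀ a b, (M.B2 a b p) ^ 2 ≤ (∑ c, (M.B a c p) ^ 2) * ∑ c, (M.B c b p) ^ 2 := by
      intro a b
      exact Finset.sum_mul_sq_le_sq_mul_sq Finset.univ (fun c => M.B a c p) (fun c => M.B c b p)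
    calc M.b4 p = ∑ a, ∑ b, (M.B2 a b p) ^ 2 := rfl
      _ ≤ ∑ a, ∑ b, (∑ c, (M.B a c p) ^ 2) * ∑ c, (M.B c b p) ^ 2 :=
          Finset.sum_le_sum fun a _ => Finset.sum_le_sum fun b _ => h1 a b
      _ = (∑ a, ∑ c, (M.B a c p) ^ 2) * ∑ b, ∑ c, (M.B c b p) ^ 2 := by
          rw [Finset.sum_mul_sum]
      _ = (∑ a, ∑ c, (M.B a c p) ^ 2) * ∑ c, ∑ b, (M.B c b p) ^ 2 := by
          rw [Finset.sum_comm (f := fun b c => (M.B c b p) ^ 2)]
      _ = M.w p ^ 2 := by
          change M.w p * M.w p = _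
          ring
  · intro x
    rw [HW_norm, HW_norm]
    calc ∑ a, (M.Bv p x a) ^ 2 ≤ ∑ a, (∑ b, (M.B a b p) ^ 2) * ∑ b, (x b) ^ 2 := by
          refine Finset.sum_le_sum fun a _ => ?_
          rw [Hyp.Bv_apply]
          exact Finset.sum_mul_sq_le_sq_mul_sq Finset.univ (fun c => M.B a c p) (fun c => x c)
      _ = M.w p * ∑ b, (x b) ^ 2 := by
          rw [← Finset.sum_mul]
          rfl
  · intro x t
    ext a
    rw [Hyp.Bv_apply, Hyp.Bv_apply]
    have h : ∀ b, M.B a b p * (x + t • M.N p) b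
        = M.B a b p * x b + t * (M.N p b * M.B a b p) := by
      intro b
      simp only [PiLp.add_apply, PiLp.smul_apply, smul_eq_mul]
      ring
    rw [Finset.sum_congr rfl fun b _ => h b, Finset.sum_add_distrib, ← Finset.mul_sum,
      Hyp.B_N_left']
    ring
  · intro x
    rw [HW_inner]
    have h : ∀ a, M.Bv p x a * M.N p a = ∑ b, x b * (M.N p a * M.B a b p) := by
      intro a
      rw [Hyp.Bv_apply, Finset.sum_mul]
      refine Finset.sum_congr rfl fun b _ => ?_
      ring
    rw [Finset.sum_congr rfl fun a _ => h a, Finset.sum_comm]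
    refine Finset.sum_eq_zero fun b _ => ?_
    rw [← Finset.mul_sum, Hyp.B_N_left, mul_zero]
  · intro x y
    rw [HW_inner, HW_inner]
    have h1 : ∀ a, M.Bv p x a * y a = ∑ b, x b * M.B b a p * y a := by
      intro a
      rw [Hyp.Bv_apply, Finset.sum_mul]
      refine Finset.sum_congr rfl fun b _ => ?_
      rw [M.B_symm a b p]
      ring
    have h2 : ∀ b, x b * M.Bv p y b = ∑ a, x b * M.B b a p * y a := by
      intro b
      rw [Hyp.Bv_apply, Finset.mul_sum]
      refine Finset.sum_congr rfl fun a _ => ?_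
      ring
    rw [Finset.sum_congr rfl fun a _ => h1 a, Finset.sum_congr rfl fun b _ => h2 b,
      Finset.sum_comm]

end

end Pool.Agent.ShG
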