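import Pool.Agent.ShG.Targets

namespace Pool.Agent.ShG

open scoped BigOperators Topology ContDiff
open Set Filter

theorem pLOC : tLOC := by
  intro n S _ _ M p ι g σ r r' hr hs A hA hpA hle
  let L : Fs n →L[ℝ] Es n := ContinuousLinearMap.adjoint ι.toContinuousLinearMap
  have hLin : ∀ (x : Fs n) (w : Es n), inner ℝ (L x) w = inner ℝ x (ι w) := by
    intro x w
    exact ContinuousLinearMap.adjoint_inner_left ι.toContinuousLinearMap w x
  have hL : ∀ v : Es n, L (ι v) = v := by
    intro v
    apply ext_inner_right ℝ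
    intro w
    rw [hLin, ι.inner_map_map]
  have hLN : L (M.N p) = 0 := by
    apply ext_inner_right ℝ
    intro w
    rw [hLin, inner_zero_left, real_inner_comm]
    exact hs.perp w
  have hnorm : ∀ x : Fs n, ‖L x‖ ≤ ‖x‖ := by
    intro x
    have h1 : ‖L x‖ * ‖L x‖ ≤ ‖x‖ * ‖L x‖ := by
      rw [← real_inner_self_eq_norm_mul_norm, hLin]
      calc inner ℝ x (ι (L x)) ≤ ‖x‖ * ‖ι (L x)‖ := real_inner_le_norm _ _
        _ = ‖x‖ * ‖L x‖ := by rw [ι.norm_map]
    rcases (norm_nonneg (L x)).eq_or_lt with h | h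
    · rw [← h]; exact norm_nonneg x
    · exact le_of_mul_le_mul_right h1 h
  have hLs : ∀ v ∈ Metric.ball (0 : Es n) r, L (M.X (σ v) - M.X p) = v := by
    intro v hv
    rw [hs.graph v hv]
    have : M.X p + ι v + g v • M.N p - M.X p = ι v + g v • M.N p := by abel
    rw [this, map_add, hL, map_smul, hLN, smul_zero, add_zero]
  have hXc : Continuous M.X := M.proper.continuous
  have hopen : IsOpen (σ '' Metric.ball (0 : Es n) r) :=
    hs.opn _ (Subset.refl _) Metric.isOpen_ball
  have hsub : A ⊆ σ '' Metric.ball (0 : Es n) r := by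
    apply hA.subset_of_closure_inter_subset hopen
    · exact ⟨p, hpA, 0, hs.mem0, hs.base⟩
    · rintro q ⟨hq, hqA⟩
      set u : Es n := L (M.X q - M.X p) with hu
      have hur : u ∈ Metric.ball (0 : Es n) r := by
        rw [mem_ball_zero_iff]
        exact lt_of_le_of_lt ((hnorm _).trans (hle q hqA)) hr
      have hne : (𝓝[σ '' Metric.ball (0 : Es n) r] q).NeBot :=
        mem_closure_iff_nhdsWithin_neBot.mp hq
      have ht : Tendsto (fun y => L (M.X y - M.X p)) (𝓝[σ '' Metric.ball (0 : Es n) r] q) (𝓝 u) := by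
        have hc : Continuous (fun y => L (M.X y - M.X p)) :=
          L.continuous.comp (hXc.sub continuous_const)
        exact (hc.tendsto q).mono_left nhdsWithin_le_nhds
      have hσu : ContinuousAt σ u := hs.cont.continuousAt (hs.isOpen.mem_nhds hur)
      have ht2 : Tendsto (fun y => σ (L (M.X y - M.X p)))
          (𝓝[σ '' Metric.ball (0 : Es n) r] q) (𝓝 (σ u)) := hσu.tendsto.comp ht
      have heq : (fun y => σ (L (M.X y - M.X p))) =ᶠ[𝓝[σ '' Metric.ball (0 : Es n) r] q]
          (fun y => y) := by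
        filter_upwards [self_mem_nhdsWithin] with y hy
        obtain ⟨v, hv, rfl⟩ := hy
        rw [hLs v hv]
      have ht3 : Tendsto (fun y : S => y) (𝓝[σ '' Metric.ball (0 : Es n) r] q) (𝓝 (σ u)) :=
        ht2.congr' heq
      have ht4 : Tendsto (fun y : S => y) (𝓝[σ '' Metric.ball (0 : Es n) r] q) (𝓝 q) :=
        tendsto_id.mono_left nhdsWithin_le_nhds
      exact ⟨u, hur, tendsto_nhds_unique ht3 ht4⟩
  intro q hq
  obtain ⟨u, hu, rfl⟩ := hsub hq
  refine ⟨u, hu, ?_, rfl⟩
  have := hnorm (M.X (σ u) - M.X p)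
  rwa [hLs u hu] at this

end Pool.Agent.ShG
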