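import Pool.Agent.ShG.Targets

/-! ShG-LSO: local existence of points in the product case. -/

namespace Pool.Agent.ShG

open scoped BigOperators Topology ContDiff
open Set Filter

noncomputable section

/-- the formula for the normal in a section -/
def LSO_nn {n : ℕ} (ι : Es n →ₗᵢ[ℝ] Fs n) (g : Es n → ℝ) (N0 : Fs n) (u : Es n) : Fs n :=
  (Real.sqrt (1 + ‖gradient g u‖ ^ 2))⁻¹ • (N0 - ι (gradient g u))

lemma LSO_nn_smooth {n : ℕ} {S : Type} [TopologicalSpace S] {X N : S → Fs n} {p : S}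
    {U : Set (Es n)} {ι : Es n →ₗᵢ[ℝ] Fs n} {g : Es n → ℝ} {σ : Es n → S}
    (h : IsSec X N p U ι g σ) : ContDiffOn ℝ ∞ (LSO_nn ι g (N p)) U := by
  have h1 : ContDiffOn ℝ ∞ (gradient g) U := Hyp.gradient_smooth h.isOpen h.smooth
  have h2 : ContDiffOn ℝ ∞ (fun x => (1 + ‖gradient g x‖ ^ 2)) U :=
    contDiffOn_const.add (h1.norm_sq ℝ)
  have h3 : ContDiffOn ℝ ∞ (fun x => (Real.sqrt (1 + ‖gradient g x‖ ^ 2))⁻¹) U := by
    refine (h2.sqrt fun x _ => by positivity).inv fun x _ => ?_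
    have : (0:ℝ) < 1 + ‖gradient g x‖ ^ 2 := by positivity
    exact (Real.sqrt_pos.2 this).ne'
  refine h3.smul (contDiffOn_const.sub ?_)
  exact ι.toContinuousLinearMap.contDiff.comp_contDiffOn h1

/-- the rotated vector -/
def LSO_z {n : ℕ} (f0 f1 x : Fs n) : Fs n :=
  -(inner ℝ x f1 : ℝ) • f0 + (inner ℝ x f0 : ℝ) • f1

/-- tangent vectors lift -/
lemma LSO_tangent {n : ℕ} {S : Type} [TopologicalSpace S] (M : Hyp n S) {q : S}
    {U : Set (Es n)} {ι : Es n →ₗᵢ[ℝ] Fs n} {g : Es n → ℝ} {σ : Es n → S}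
    (h : IsSec M.X M.N q U ι g σ) {u : Es n} (hu : u ∈ U) (ξ : Fs n)
    (hξ : inner ℝ ξ (M.N (σ u)) = (0:ℝ)) :
    ι (prj ι ξ) + (fderiv ℝ g u (prj ι ξ)) • M.N q = ξ := by
  have h1 := h.split (M.unit q) ξ
  have h2 : fderiv ℝ g u (prj ι ξ) = inner ℝ (gradient g u) (prj ι ξ) := by
    unfold gradient
    rw [InnerProductSpace.toDual_symm_apply]
  have h3 : (inner ℝ ξ (M.N q) : ℝ) = inner ℝ ξ (ι (gradient g u)) := by
    rw [h.normal u hu, inner_smul_right, inner_sub_right] at hξ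
    have h4 : (0:ℝ) < (Real.sqrt (1 + ‖gradient g u‖ ^ 2))⁻¹ := by positivity
    rcases mul_eq_zero.1 hξ with h5 | h5
    · exact absurd h5 h4.ne'
    · linarith
  rw [h2, real_inner_comm, prj_inner, ← h3]
  exact h1.symm

/-- velocity of `X ∘ σ ∘ α` -/
lemma LSO_vel {n : ℕ} {S : Type} [TopologicalSpace S] (M : Hyp n S) {q : S}
    {U : Set (Es n)} {ι : Es n →ₗᵢ[ℝ] Fs n} {g : Es n → ℝ} {σ : Es n → S}
    (h : IsSec M.X M.N q U ι g σ) {α : ℝ → Es n} {t : ℝ} (hu : α t ∈ U) (ξ : Fs n)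
    (hξ : inner ℝ ξ (M.N (σ (α t))) = (0:ℝ)) (hα : HasDerivAt α (prj ι ξ) t) :
    HasDerivAt (fun r => M.X (σ (α r))) ξ t := by
  have h1 := (h.hasFDeriv hu).comp_hasDerivAt t hα
  rw [IsSec.hasFDeriv_apply, LSO_tangent M h hu ξ hξ] at h1
  exact h1

/-- derivative of `⟨N, f⟩` along a curve -/
lemma LSO_velN {n : ℕ} {S : Type} [TopologicalSpace S] (M : Hyp n S) {c : ℝ → S} {t : ℝ}
    (hc : ContinuousAt c t) (ξ : Fs n) (hX : HasDerivAt (fun r => M.X (c r)) ξ t) (f : Fs n) :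
    HasDerivAt (fun r => (inner ℝ (M.N (c r)) f : ℝ)) (- inner ℝ (M.Bv (c t) ξ) f) t := by
  have h1 : ∀ a, HasDerivAt (fun r => M.Nc a (c r)) (- M.Bv (c t) ξ a) t := by
    intro a
    have h2 := Hyp.Sm.comp_within (s := univ) (Hyp.Sm.Nc M a (c t))
      (continuousWithinAt_univ c t |>.2 hc) (hasDerivWithinAt_univ.2 hX)
    rw [hasDerivWithinAt_univ] at h2
    have e : - M.Bv (c t) ξ a = ∑ b, M.dl b (M.Nc a) (c t) * ξ b := by
      rw [Hyp.Bv_apply, ← Finset.sum_neg_distrib]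
      refine Finset.sum_congr rfl fun b _ => ?_
      rw [Hyp.dl_Nc, Hyp.B_symm]
      ring
    rw [e]
    exact h2
  have h3 : HasDerivAt (fun r => ∑ a, M.Nc a (c r) * f a) (∑ a, (- M.Bv (c t) ξ a) * f a) t :=
    HasDerivAt.fun_sum fun a _ => (h1 a).mul_const (f a)
  have e1 : (fun r => (inner ℝ (M.N (c r)) f : ℝ)) = fun r => ∑ a, M.Nc a (c r) * f a := by
    funext r
    exact Hyp.inner_sum _ _
  have e2 : (- inner ℝ (M.Bv (c t) ξ) f : ℝ) = ∑ a, (- M.Bv (c t) ξ a) * f a := by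
    rw [Hyp.inner_sum, ← Finset.sum_neg_distrib]
    refine Finset.sum_congr rfl fun a _ => ?_
    ring
  rw [e1, e2]
  exact h3

/-- derivative of a complex coordinate function -/
lemma LSO_cx {x0 x1 : ℝ → ℝ} {d0 d1 t : ℝ} (h0 : HasDerivAt x0 d0 t) (h1 : HasDerivAt x1 d1 t) :
    HasDerivAt (fun r => (⟨x0 r, x1 r⟩ : ℂ)) (⟨d0, d1⟩ : ℂ) t := by
  have e : (fun r => (⟨x0 r, x1 r⟩ : ℂ)) = fun r => (x0 r : ℂ) + (x1 r : ℂ) * Complex.I := by
    funext r
    apply Complex.ext <;> simp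
  have e2 : (⟨d0, d1⟩ : ℂ) = (d0 : ℂ) + (d1 : ℂ) * Complex.I := by
    apply Complex.ext <;> simp
  rw [e, e2]
  exact h0.ofReal_comp.add (h1.ofReal_comp.mul_const _)

/-- the vector field of the product system -/
def LSO_vf {n : ℕ} (η : ℝ) (y : Fs n) (x : ℂ × ℂ × Fs n) : ℂ × ℂ × Fs n :=
  ((η : ℂ) * (Complex.I * x.2.1),
    (η : ℂ) * (Complex.I * ((x.1 * (starRingEnd ℂ) x.2.1).re : ℂ) * x.2.1), y)

lemma LSO_vf_smooth {n : ℕ} (η : ℝ) (y : Fs n) : ContDiff ℝ 1 (LSO_vf η y) := by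
  have h1 : ContDiff ℝ 1 (fun x : ℂ × ℂ × Fs n => x.1) := contDiff_fst
  have h2 : ContDiff ℝ 1 (fun x : ℂ × ℂ × Fs n => x.2.1) := contDiff_fst.comp contDiff_snd
  have h3 : ContDiff ℝ 1 (fun x : ℂ × ℂ × Fs n => (starRingEnd ℂ) x.2.1) :=
    Complex.conjCLE.contDiff.comp h2
  have h4 : ContDiff ℝ 1 (fun x : ℂ × ℂ × Fs n => (x.1 * (starRingEnd ℂ) x.2.1).re) :=
    Complex.reCLM.contDiff.comp (h1.mul h3)
  have h5 : ContDiff ℝ 1 (fun x : ℂ × ℂ × Fs n => ((x.1 * (starRingEnd ℂ) x.2.1).re : ℂ)) :=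
    Complex.ofRealCLM.contDiff.comp h4
  unfold LSO_vf
  refine ContDiff.prodMk ?_ (ContDiff.prodMk ?_ contDiff_const)
  · exact contDiff_const.mul (contDiff_const.mul h2)
  · exact contDiff_const.mul ((contDiff_const.mul h5).mul h2)

theorem pLSO : tLSO := by
  intro n S _ _ M f0 f1 hShr hP γ ν hprof q s hq1 hq2 η y hy0 hy1
  obtain ⟨hf0, hf1, hf01, hN⟩ := hP
  obtain ⟨U, ι, g, σ, h⟩ := M.sec q
  have h00 : (inner ℝ f0 f0 : ℝ) = 1 := by rw [real_inner_self_eq_norm_sq, hf0]; norm_num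
  have h11 : (inner ℝ f1 f1 : ℝ) = 1 := by rw [real_inner_self_eq_norm_sq, hf1]; norm_num
  have h10 : (inner ℝ f1 f0 : ℝ) = 0 := by rw [real_inner_comm]; exact hf01
  -- inner products with `z`
  have hz0 : ∀ x, (inner ℝ (LSO_z f0 f1 x) f0 : ℝ) = - inner ℝ x f1 := by
    intro x
    unfold LSO_z
    rw [inner_add_left, inner_smul_left, inner_smul_left, h00, h10]
    simp
  have hz1 : ∀ x, (inner ℝ (LSO_z f0 f1 x) f1 : ℝ) = inner ℝ x f0 := by
    intro x
    unfold LSO_z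
    rw [inner_add_left, inner_smul_left, inner_smul_left, h11, hf01]
    simp
  have hNsq : ∀ p, (inner ℝ (M.N p) f0 : ℝ) ^ 2 + (inner ℝ (M.N p) f1 : ℝ) ^ 2 = 1 := by
    intro p
    have h1 := M.NN p
    have h2 : (inner ℝ (M.N p) (M.N p) : ℝ) = inner ℝ (M.N p)
        ((inner ℝ (M.N p) f0 : ℝ) • f0 + (inner ℝ (M.N p) f1 : ℝ) • f1) := by
      rw [← (hN p).1]
    rw [h2, inner_add_right, inner_smul_right, inner_smul_right] at h1
    rw [← h1]; ring
  have hinN : ∀ (p : S) (x : Fs n), (inner ℝ x (M.N p) : ℝ)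
      = inner ℝ (M.N p) f0 * inner ℝ x f0 + inner ℝ (M.N p) f1 * inner ℝ x f1 := by
    intro p x
    have h2 : (inner ℝ x (M.N p) : ℝ) = inner ℝ x
        ((inner ℝ (M.N p) f0 : ℝ) • f0 + (inner ℝ (M.N p) f1 : ℝ) • f1) := by
      rw [← (hN p).1]
    rw [h2, inner_add_right, inner_smul_right, inner_smul_right]
  -- the velocity field
  set ξ : Fs n → Fs n := fun x => η • LSO_z f0 f1 x + y with hξdef
  have hξ0 : ∀ x, (inner ℝ (ξ x) f0 : ℝ) = η * (- inner ℝ x f1) := by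
    intro x
    rw [hξdef]
    simp only
    rw [inner_add_left, inner_smul_left, hz0, hy0]
    simp
  have hξ1 : ∀ x, (inner ℝ (ξ x) f1 : ℝ) = η * inner ℝ x f0 := by
    intro x
    rw [hξdef]
    simp only
    rw [inner_add_left, inner_smul_left, hz1, hy1]
    simp
  have hξN : ∀ p, (inner ℝ (ξ (M.N p)) (M.N p) : ℝ) = 0 := by
    intro p
    rw [hinN, hξ0, hξ1]; ring
  have hξz : ∀ p, (inner ℝ (ξ (M.N p)) (LSO_z f0 f1 (M.N p)) : ℝ) = η := by
    intro p
    unfold LSO_z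
    rw [inner_add_right, inner_smul_right, inner_smul_right, hξ0, hξ1]
    have := hNsq p
    linear_combination η * this
  have hBv : ∀ p, M.Bv p (ξ (M.N p)) = (M.H p * η) • LSO_z f0 f1 (M.N p) := by
    intro p
    rw [(hN p).2]
    change (M.H p * inner ℝ (ξ (M.N p)) (LSO_z f0 f1 (M.N p))) • LSO_z f0 f1 (M.N p) = _
    rw [hξz]
  have hH : ∀ p, M.H p = - (inner ℝ (M.N p) f0 * inner ℝ (M.X p) f0
      + inner ℝ (M.N p) f1 * inner ℝ (M.X p) f1) := by
    intro p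
    rw [hShr p, hinN]
  -- the ODE in the section
  set F : Es n → Es n := fun u => prj ι (ξ (LSO_nn ι g (M.N q) u)) with hF
  have hFs : ContDiffAt ℝ 1 F 0 := by
    have h1 : ContDiffOn ℝ ∞ F U := by
      have hn := LSO_nn_smooth h
      have e0 : ContDiffOn ℝ ∞ (fun u => (inner ℝ (LSO_nn ι g (M.N q) u) f0 : ℝ)) U :=
        hn.inner ℝ contDiffOn_const
      have e1 : ContDiffOn ℝ ∞ (fun u => (inner ℝ (LSO_nn ι g (M.N q) u) f1 : ℝ)) U :=
        hn.inner ℝ contDiffOn_const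
      have e2 : ContDiffOn ℝ ∞ (fun u => ξ (LSO_nn ι g (M.N q) u)) U := by
        have e3 : ContDiffOn ℝ ∞ (fun u => LSO_z f0 f1 (LSO_nn ι g (M.N q) u)) U :=
          (e1.neg.smul contDiffOn_const).add (e0.smul contDiffOn_const)
        exact (e3.const_smul η).add contDiffOn_const
      exact (prj ι).contDiff.comp_contDiffOn e2
    exact (h1.contDiffAt (h.isOpen.mem_nhds h.mem0)).of_le (by simp)
  obtain ⟨α, hα0, ε0, hε0, hα⟩ :=
    hFs.exists_forall_mem_closedBall_exists_eq_forall_mem_Ioo_hasDerivAt₀ (0:ℝ)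
  have hαev : ∀ᶠ t in 𝓝 (0:ℝ), α t ∈ U ∧ HasDerivAt α (F (α t)) t := by
    have h1 : ∀ᶠ t in 𝓝 (0:ℝ), HasDerivAt α (F (α t)) t := by
      filter_upwards [Ioo_mem_nhds (show (0:ℝ) - ε0 < 0 by linarith)
        (show (0:ℝ) < 0 + ε0 by linarith)] with t ht
      exact hα t ht
    have h2 : ContinuousAt α 0 := h1.self_of_nhds.continuousAt
    have h3 : ∀ᶠ t in 𝓝 (0:ℝ), α t ∈ U := by
      have : U ∈ 𝓝 (α 0) := by rw [hα0]; exact h.isOpen.mem_nhds h.mem0
      exact h2.eventually this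
    exact h3.and h1
  -- the curve
  set c : ℝ → S := fun t => σ (α t) with hc
  have hc0 : c 0 = q := by rw [hc]; simp only; rw [hα0, h.base]
  have hcur : ∀ᶠ t in 𝓝 (0:ℝ), ContinuousAt c t ∧
      HasDerivAt (fun r => M.X (c r)) (ξ (M.N (c t))) t := by
    filter_upwards [hαev] with t ht
    have hcont : ContinuousAt c t := ContinuousAt.comp (h.contAt ht.1) ht.2.continuousAt
    refine ⟨hcont, ?_⟩
    have e : LSO_nn ι g (M.N q) (α t) = M.N (c t) := (h.normal (α t) ht.1).symm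
    have h1 : HasDerivAt α (prj ι (ξ (M.N (c t)))) t := by
      have := ht.2
      rw [hF] at this
      simp only at this
      rw [e] at this
      exact this
    exact LSO_vel M h ht.1 (ξ (M.N (c t))) (hξN (c t)) h1
  -- the state curve
  set P : Fs n → Fs n := fun x => x - (inner ℝ x f0 : ℝ) • f0 - (inner ℝ x f1 : ℝ) • f1 with hPdef
  set st : ℝ → ℂ × ℂ × Fs n := fun t =>
    (cx f0 f1 (M.X (c t)), cx f0 f1 (M.N (c t)), P (M.X (c t))) with hst
  have hstd : ∀ᶠ t in 𝓝 (0:ℝ), HasDerivAt st (LSO_vf η y (st t)) t := by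
    filter_upwards [hcur] with t ht
    obtain ⟨ht1, ht2⟩ := ht
    have d0 : HasDerivAt (fun r => (inner ℝ (M.X (c r)) f0 : ℝ))
        (inner ℝ (ξ (M.N (c t))) f0) t := by
      have := ht2.inner ℝ (hasDerivAt_const t f0)
      simpa using this
    have d1 : HasDerivAt (fun r => (inner ℝ (M.X (c r)) f1 : ℝ))
        (inner ℝ (ξ (M.N (c t))) f1) t := by
      have := ht2.inner ℝ (hasDerivAt_const t f1)
      simpa using this
    have n0 := LSO_velN M ht1 _ ht2 f0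
    have n1 := LSO_velN M ht1 _ ht2 f1
    have dX := LSO_cx d0 d1
    have dN := LSO_cx n0 n1
    have dP : HasDerivAt (fun r => P (M.X (c r))) (P (ξ (M.N (c t)))) t := by
      rw [hPdef]
      exact (ht2.sub (d0.smul_const f0)).sub (d1.smul_const f1)
    have hall := dX.prodMk (dN.prodMk dP)
    have e : LSO_vf η y (st t) = ((⟨inner ℝ (ξ (M.N (c t))) f0, inner ℝ (ξ (M.N (c t))) f1⟩ : ℂ),
        (⟨-inner ℝ (M.Bv (c t) (ξ (M.N (c t)))) f0,
          -inner ℝ (M.Bv (c t) (ξ (M.N (c t)))) f1⟩ : ℂ), P (ξ (M.N (c t)))) := by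
      rw [hst]
      unfold LSO_vf cx
      refine Prod.ext ?_ (Prod.ext ?_ ?_)
      · apply Complex.ext
        · simp only [hξ0]
          simp
        · simp only [hξ1]
          simp
      · rw [hBv]
        simp only [inner_smul_left, hz0, hz1]
        rw [hH]
        apply Complex.ext
        · simp
          ring
        · simp
          ring
      · simp only
        rw [hPdef]
        simp only
        rw [hξ0, hξ1, hξdef]
        simp only
        unfold LSO_z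
        module
    rw [e]
    exact hall
  -- the model curve
  set mo : ℝ → ℂ × ℂ × Fs n := fun t =>
    (γ (s + t * η), ν (s + t * η), P (M.X q) + t • y) with hmo
  have hmod : ∀ t, HasDerivAt mo (LSO_vf η y (mo t)) t := by
    intro t
    obtain ⟨g1, g2, _⟩ := hprof (s + t * η)
    have hl : HasDerivAt (fun r : ℝ => s + r * η) η t := by
      have := ((hasDerivAt_id t).mul_const η).const_add s
      simpa using this
    have a1 := g1.scomp t hl
    have a2 := g2.scomp t hl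
    have a3 : HasDerivAt (fun r : ℝ => P (M.X q) + r • y) y t := by
      have := ((hasDerivAt_id t).smul_const y).const_add (P (M.X q))
      simpa using this
    have hall := a1.prodMk (a2.prodMk a3)
    have e : LSO_vf η y (mo t) = (η • (Complex.I * ν (s + t * η)),
        η • (Complex.I * ((γ (s + t * η) * (starRingEnd ℂ) (ν (s + t * η))).re : ℂ)
          * ν (s + t * η)), y) := by
      rw [hmo]
      unfold LSO_vf
      simp only [Complex.real_smul]
    rw [e]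
    exact hall
  have heq : st 0 = mo 0 := by
    rw [hst, hmo]
    simp only
    rw [hc0, hq1, hq2]
    simp
  obtain ⟨K, T, hT, hLip⟩ := (LSO_vf_smooth η y).contDiffAt (x := st 0)
    |>.exists_lipschitzOnWith
  have hf : ∀ᶠ t in 𝓝 (0:ℝ), HasDerivAt st (LSO_vf η y (st t)) t ∧ st t ∈ T :=
    hstd.and (hstd.self_of_nhds.continuousAt.eventually hT)
  have hg : ∀ᶠ t in 𝓝 (0:ℝ), HasDerivAt mo (LSO_vf η y (mo t)) t ∧ mo t ∈ T := by
    have h1 : ∀ᶠ t in 𝓝 (0:ℝ), mo t ∈ T := by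
      rw [heq] at hT
      exact (hmod 0).continuousAt.eventually hT
    exact (Eventually.of_forall hmod).and h1
  have huniq := ODE_solution_unique_of_eventually (v := fun _ => LSO_vf η y) (s := fun _ => T)
    (t₀ := 0) (Eventually.of_forall fun _ => hLip) hf hg heq
  obtain ⟨ε, hε, hfin⟩ := Metric.eventually_nhds_iff.1 huniq
  refine ⟨ε, hε, fun r hr => ⟨c r, ?_⟩⟩
  have h1 : st r = mo r := hfin (by rw [Real.dist_eq, sub_zero]; exact hr)
  rw [hst, hmo] at h1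
  simp only [Prod.mk.injEq] at h1
  exact ⟨h1.1, h1.2.1, h1.2.2⟩

end

end Pool.Agent.ShG
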