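import Mathlib

/-!
# Statement-level definitions for MP_61ae63_gt

Immersed self-shrinking hypersurfaces `X : S → ℝ^{n+1}` of a smooth `n`-manifold `S` (Mathlib
manifold), their second fundamental form and mean curvature vector computed in the preferred charts,
and Abresch–Langer curves.
-/

namespace Pool.Agent.ShG

open scoped BigOperators Topology ContDiff Manifold

noncomputable section

/-- the expression `X ∘ φ_p⁻¹` of `X` in the preferred chart `φ_p = chartAt p` -/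
def locX {n : ℕ} {S : Type} [TopologicalSpace S] [ChartedSpace (EuclideanSpace ℝ (Fin n)) S]
    (X : S → EuclideanSpace ℝ (Fin (n + 1))) (p : S) :
    EuclideanSpace ℝ (Fin n) → EuclideanSpace ℝ (Fin (n + 1)) :=
  fun u => X ((chartAt (EuclideanSpace ℝ (Fin n)) p).symm u)

/-- Gram matrix `g_ij = ⟨∂_i x, ∂_j x⟩` of a parametrised hypersurface -/
def gram {n : ℕ} (x : EuclideanSpace ℝ (Fin n) → EuclideanSpace ℝ (Fin (n + 1)))
    (u : EuclideanSpace ℝ (Fin n)) : Matrix (Fin n) (Fin n) ℝ :=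
  Matrix.of fun i j => inner ℝ (fderiv ℝ x u (EuclideanSpace.single i 1))
    (fderiv ℝ x u (EuclideanSpace.single j 1))

/-- the component of `y` orthogonal to the tangent space `range (Dx(u))` -/
def nor {n : ℕ} (x : EuclideanSpace ℝ (Fin n) → EuclideanSpace ℝ (Fin (n + 1)))
    (u : EuclideanSpace ℝ (Fin n)) (y : EuclideanSpace ℝ (Fin (n + 1))) :
    EuclideanSpace ℝ (Fin (n + 1)) :=
  ((LinearMap.range (fderiv ℝ x u).toLinearMap)ᗮ).starProjection y

/-- the second fundamental form `II_ij = (∂_i ∂_j x)^⊥` -/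
def secF {n : ℕ} (x : EuclideanSpace ℝ (Fin n) → EuclideanSpace ℝ (Fin (n + 1)))
    (u : EuclideanSpace ℝ (Fin n)) (i j : Fin n) : EuclideanSpace ℝ (Fin (n + 1)) :=
  nor x u (fderiv ℝ (fderiv ℝ x) u (EuclideanSpace.single i 1) (EuclideanSpace.single j 1))

/-- `|II|² = g^{ik} g^{jl} ⟨II_ij, II_kl⟩` -/
def normIIsq {n : ℕ} (x : EuclideanSpace ℝ (Fin n) → EuclideanSpace ℝ (Fin (n + 1)))
    (u : EuclideanSpace ℝ (Fin n)) : ℝ :=
  ∑ i, ∑ j, ∑ k, ∑ l, (gram x u)⁻¹ i k * (gram x u)⁻¹ j l * inner ℝ (secF x u i j) (secF x u k l)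

/-- the mean curvature vector `g^{ij} II_ij` -/
def meanCurv {n : ℕ} (x : EuclideanSpace ℝ (Fin n) → EuclideanSpace ℝ (Fin (n + 1)))
    (u : EuclideanSpace ℝ (Fin n)) : EuclideanSpace ℝ (Fin (n + 1)) :=
  ∑ i, ∑ j, (gram x u)⁻¹ i j • secF x u i j

/-- `X : S → ℝ^{n+1}` is a smooth immersion whose mean curvature vector is `-X^⊥` -/
structure IsShrinkerImmersion {n : ℕ} {S : Type} [TopologicalSpace S]
    [ChartedSpace (EuclideanSpace ℝ (Fin n)) S]
    (X : S → EuclideanSpace ℝ (Fin (n + 1))) : Prop where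
  smooth : ContMDiff (𝓡 n) 𝓘(ℝ, EuclideanSpace ℝ (Fin (n + 1))) ∞ X
  immersion : ∀ p, Function.Injective (mfderiv (𝓡 n) 𝓘(ℝ, EuclideanSpace ℝ (Fin (n + 1))) X p)
  shrinker : ∀ p, meanCurv (locX X p) (chartAt (EuclideanSpace ℝ (Fin n)) p p)
    = - nor (locX X p) (chartAt (EuclideanSpace ℝ (Fin n)) p p) (X p)

/-- Abresch–Langer curve (including the unit circle): a closed unit speed curve in the plane whose
curvature vector is `-γ^⊥` -/
structure IsAL (γ : ℝ → EuclideanSpace ℝ (Fin 2)) : Prop where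
  smooth : ContDiff ℝ ∞ γ
  closed : ∃ T : ℝ, 0 < T ∧ ∀ s, γ (s + T) = γ s
  unit : ∀ s, ‖deriv γ s‖ = 1
  shrinker : ∀ s, deriv (deriv γ) s = - (γ s - (inner ℝ (γ s) (deriv γ s) : ℝ) • deriv γ s)

end

end Pool.Agent.ShG
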