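import Pool.Agent.ShG.Targets

/-! STR: structure where `v` is small. -/

namespace Pool.Agent.ShG

open scoped BigOperators Topology ContDiff
open Set Filter

noncomputable section

open Hyp

variable {n : ℕ} {S : Type} [TopologicalSpace S] {M : Hyp n S}

lemma STR_coord_le (x : Fs n) (a : Fin (n + 1)) : |x a| ≤ ‖x‖ := by
  have := PiLp.norm_apply_le x a
  rwa [Real.norm_eq_abs] at this

lemma STR_T3_sq (a b c : Fin (n + 1)) (p : S) : M.T3 a b c p ^ 2 ≤ M.J p := by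
  unfold Hyp.J
  calc M.T3 a b c p ^ 2 ≤ ∑ c, M.T3 a b c p ^ 2 :=
        Finset.single_le_sum (f := fun c => M.T3 a b c p ^ 2) (fun _ _ => sq_nonneg _)
          (Finset.mem_univ c)
    _ ≤ ∑ b, ∑ c, M.T3 a b c p ^ 2 :=
        Finset.single_le_sum (f := fun b => ∑ c, M.T3 a b c p ^ 2)
          (fun _ _ => Finset.sum_nonneg fun _ _ => sq_nonneg _) (Finset.mem_univ b)
    _ ≤ ∑ a, ∑ b, ∑ c, M.T3 a b c p ^ 2 :=
        Finset.single_le_sum (f := fun a => ∑ b, ∑ c, M.T3 a b c p ^ 2)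
          (fun _ _ => Finset.sum_nonneg fun _ _ => Finset.sum_nonneg fun _ _ => sq_nonneg _)
          (Finset.mem_univ a)

lemma STR_B_sq (a b : Fin (n + 1)) (p : S) : M.B a b p ^ 2 ≤ M.w p := by
  unfold Hyp.w
  calc M.B a b p ^ 2 ≤ ∑ b, M.B a b p ^ 2 :=
        Finset.single_le_sum (f := fun b => M.B a b p ^ 2) (fun _ _ => sq_nonneg _)
          (Finset.mem_univ b)
    _ ≤ ∑ a, ∑ b, M.B a b p ^ 2 :=
        Finset.single_le_sum (f := fun a => ∑ b, M.B a b p ^ 2)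
          (fun _ _ => Finset.sum_nonneg fun _ _ => sq_nonneg _) (Finset.mem_univ a)

lemma STR_dl_sq (Z : S → ℝ) (a : Fin (n + 1)) (p : S) : M.dl a Z p ^ 2 ≤ M.gsq Z p := by
  unfold Hyp.gsq
  exact Finset.single_le_sum (f := fun a => M.dl a Z p ^ 2) (fun _ _ => sq_nonneg _)
    (Finset.mem_univ a)

lemma STR_B2X (a : Fin (n + 1)) (p : S) :
    ∑ c, M.B2 a c p * M.X p c = ∑ d, M.B a d p * ∑ c, M.B d c p * M.X p c := by
  unfold Hyp.B2
  simp_rw [Finset.sum_mul, Finset.mul_sum]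
  rw [Finset.sum_comm]
  refine Finset.sum_congr rfl fun d _ => Finset.sum_congr rfl fun c _ => ?_
  ring

/-- the constants -/
lemma STR_consts (m R η CJ CL : ℝ) (hm : 1 ≤ m) (hR : 0 ≤ R) (hη : 0 < η) (hCJ : 0 < CJ)
    (hCL : 0 ≤ CL) : ∃ e0 j1 h1 : ℝ, 0 < e0 ∧ e0 ≤ 1 ∧ 0 < j1 ∧ 0 < h1 ∧
      CL * Real.sqrt e0 ≤ η / 3 ∧ m * (2 * e0) ≤ η / 3 ∧ m * j1 ≤ e0 ^ 2 ∧ m * j1 ≤ η ∧ j1 ≤ η ∧
      m * (Real.sqrt j1 * R) ≤ η / 3 ∧ CJ * h1 = j1 ^ 2 := by
  have hm0 : 0 < m := by linarith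
  set s1 : ℝ := η / (3 * (CL + 1)) with hs1
  have hs1p : 0 < s1 := by positivity
  set e0 : ℝ := min 1 (min (η / (6 * m)) (s1 ^ 2)) with he0
  have he0p : 0 < e0 := by
    rw [he0]
    refine lt_min one_pos (lt_min (by positivity) (by positivity))
  have he01 : e0 ≤ 1 := min_le_left _ _
  have he02 : e0 ≤ η / (6 * m) := le_trans (min_le_right _ _) (min_le_left _ _)
  have he03 : e0 ≤ s1 ^ 2 := le_trans (min_le_right _ _) (min_le_right _ _)
  set s2 : ℝ := η / (3 * m * (R + 1)) with hs2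
  have hs2p : 0 < s2 := by positivity
  set j1 : ℝ := min (e0 ^ 2 / m) (min (η / m) (s2 ^ 2)) with hj1
  have hj1p : 0 < j1 := by
    rw [hj1]
    refine lt_min (by positivity) (lt_min (by positivity) (by positivity))
  have hj11 : j1 ≤ e0 ^ 2 / m := min_le_left _ _
  have hj12 : j1 ≤ η / m := le_trans (min_le_right _ _) (min_le_left _ _)
  have hj13 : j1 ≤ s2 ^ 2 := le_trans (min_le_right _ _) (min_le_right _ _)
  refine ⟨e0, j1, j1 ^ 2 / CJ, he0p, he01, hj1p, by positivity, ?_, ?_, ?_, ?_, ?_, ?_, ?_⟩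
  · have h1 : Real.sqrt e0 ≤ s1 := by
      rw [← Real.sqrt_sq hs1p.le]
      exact Real.sqrt_le_sqrt he03
    calc CL * Real.sqrt e0 ≤ CL * s1 := mul_le_mul_of_nonneg_left h1 hCL
      _ ≤ (CL + 1) * s1 := by nlinarith
      _ = η / 3 := by rw [hs1]; field_simp
  · have h1 : m * (2 * e0) ≤ m * (2 * (η / (6 * m))) := by gcongr
    refine h1.trans (le_of_eq ?_)
    field_simp
    ring
  · rw [le_div_iff₀ hm0] at hj11
    linarith
  · rw [le_div_iff₀ hm0] at hj12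
    linarith
  · refine hj12.trans ?_
    rw [div_le_iff₀ hm0]
    nlinarith
  · have h1 : Real.sqrt j1 ≤ s2 := by
      rw [← Real.sqrt_sq hs2p.le]
      exact Real.sqrt_le_sqrt hj13
    calc m * (Real.sqrt j1 * R) ≤ m * (s2 * (R + 1)) := by
          gcongr
          linarith
      _ = η / 3 := by rw [hs2]; field_simp
  · field_simp

theorem pSTR (hCHN : tCHN) (hJV : tJV) (hT3 : tT3) (hLAND : tLAND) (hDDH : tDDH) (hHH : tHH)
    (hUGC : tUGC) (hGH : tGH) (hSGE : tSGE) : tSTR := by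
  intro n R η hR hη
  obtain ⟨Λ, hΛ, hD⟩ := hDDH n (R + 1) (by linarith)
  obtain ⟨CJ, hCJ, hJ⟩ := hJV n (R + 1) (by linarith)
  obtain ⟨CL, hCL, hL⟩ := hLAND n Λ hΛ
  obtain ⟨e0, j1, h1, he0, he01, hj1, hh1, c1, c2, c3, c4, c5, c6, c7⟩ :=
    STR_consts ((n : ℝ) + 1) R η CJ CL (by have : (0:ℝ) ≤ n := Nat.cast_nonneg n; linarith)
      hR hη hCJ hCL
  obtain ⟨δ1, hδ1, hC⟩ := hCHN.1 n 1 R h1 hR hh1
  refine ⟨min δ1 (min h1 (η / 2)), lt_min hδ1 (lt_min hh1 (by linarith)), ?_⟩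
  intro S _ _ M c hStd p hp hv
  obtain ⟨hS, hc0, hc1, hw⟩ := hStd
  have hw2 : ∀ q, M.w q ≤ 2 := fun q => by linarith [hw q]
  have hv1 : M.vv c p ≤ δ1 := hv.trans (min_le_left _ _)
  have hv2 : M.vv c p ≤ h1 := hv.trans ((min_le_right _ _).trans (min_le_left _ _))
  have hv3 : M.vv c p ≤ η / 2 := hv.trans ((min_le_right _ _).trans (min_le_right _ _))
  have hm : (1 : ℝ) ≤ (n : ℝ) + 1 := by have : (0:ℝ) ≤ n := Nat.cast_nonneg n; linarith
  -- J is small where v is small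
  have hJs : ∀ q, ‖M.X q‖ ≤ R + 1 → M.vv c q ≤ h1 → M.J q ≤ j1 := by
    intro q hq hvq
    have a1 := hJ S M c ⟨hS, hc0, hc1, hw⟩ q hq
    have a2 : M.J q ^ 2 ≤ j1 ^ 2 := by
      rw [← c7]
      exact a1.trans (mul_le_mul_of_nonneg_left hvq hCJ.le)
    exact (abs_le_of_sq_le_sq' a2 hj1.le).2
  have hT := hT3 n S M
  have hgs : ∀ q, ‖M.X q‖ ≤ R + 1 → M.vv c q ≤ h1 → M.gsq M.H q ≤ ((n : ℝ) + 1) * j1 := by
    intro q hq hvq
    have a1 := (hT q).2.2.2.2.2.2.1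
    exact a1.trans (mul_le_mul_of_nonneg_left (hJs q hq hvq) (by linarith))
  have hdH : ∀ q, ‖M.X q‖ ≤ R + 1 → M.vv c q ≤ h1 → ∀ b, |M.dl b M.H q| ≤ e0 := by
    intro q hq hvq b
    have a1 : M.dl b M.H q ^ 2 ≤ e0 ^ 2 :=
      (STR_dl_sq M.H b q).trans ((hgs q hq hvq).trans c3)
    exact abs_le_of_sq_le_sq a1 he0.le
  have hpR : ‖M.X p‖ ≤ R + 1 := by linarith
  have hJp := hJs p hpR hv2
  have hvc : c < M.vv c p := by
    have := hw p
    unfold Hyp.vv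
    linarith
  refine ⟨by linarith, ?_, hJp.trans c5, (hgs p hpR hv2).trans c4, ?_⟩
  · have : M.w p - 1 = 2 * c - M.vv c p := by
      unfold Hyp.vv
      ring
    rw [this, abs_le]
    constructor <;> linarith
  -- the section
  obtain ⟨ι, g, σ, hN⟩ := hUGC n S M hw2 p
  have hsec : ∀ u ∈ Metric.ball (0 : Es n) (1/32), ‖M.X (σ u)‖ ≤ R + 1 ∧ M.vv c (σ u) ≤ h1 := by
    intro u hu
    have hu' : ‖u‖ < 1/32 := by simpa using hu
    constructor
    · have a1 := (hSGE n S M p ι g σ hN u (by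
        rw [mem_ball_zero_iff]; linarith) 0 (by simp)).2.1
      rw [hN.1.base, sub_zero] at a1
      have a2 : ‖M.X (σ u)‖ ≤ ‖M.X (σ u) - M.X p‖ + ‖M.X p‖ := by
        have := norm_add_le (M.X (σ u) - M.X p) (M.X p)
        rwa [sub_add_cancel] at this
      linarith
    · refine hC S M c ⟨hS, hc0, hc1, hw⟩ p (σ u) hp ?_ hv1
      exact ⟨p, rfl, ι, g, σ, hN, u, hu, rfl⟩
  have hdd : ∀ a b, |M.dl a (M.dl b M.H) p| ≤ CL * Real.sqrt e0 := by
    intro a b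
    refine hL S M p ι g σ hN (M.dl b M.H) e0 he0.le he01 ?_ a
    intro u hu
    obtain ⟨q1, q2⟩ := hsec u hu
    obtain ⟨d1, d2, d3⟩ := hD S M hS hw2 (σ u) q1
    exact ⟨(Sm.H M (σ u)).dl b, hdH _ q1 q2 b, fun a => d2 a b, fun a a' => d3 a a' b⟩
  intro a b
  have key := hHH n S M hS a b p
  have e1 : M.B a b p - M.H p * M.B2 a b p = M.dl a (M.dl b M.H) p
      - ∑ c, M.T3 a b c p * M.X p c - M.N p b * ∑ c, M.B2 a c p * M.X p c := by
    rw [key]; ring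
  have hcard : (Finset.univ : Finset (Fin (n + 1))).card = n + 1 := by simp
  have t2 : |∑ c, M.T3 a b c p * M.X p c| ≤ ((n : ℝ) + 1) * (Real.sqrt j1 * R) := by
    refine (Finset.abs_sum_le_sum_abs _ _).trans ?_
    have : ∀ c ∈ (Finset.univ : Finset (Fin (n + 1))), |M.T3 a b c p * M.X p c| ≤
        Real.sqrt j1 * R := by
      intro c _
      rw [abs_mul]
      have b1 : |M.T3 a b c p| ≤ Real.sqrt j1 := by
        refine Real.abs_le_sqrt ?_
        exact (STR_T3_sq a b c p).trans hJp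
      have b2 : |M.X p c| ≤ R := (STR_coord_le _ _).trans hp
      exact mul_le_mul b1 b2 (abs_nonneg _) (Real.sqrt_nonneg _)
    refine (Finset.sum_le_card_nsmul _ _ _ this).trans (le_of_eq ?_)
    rw [hcard, nsmul_eq_mul]
    push_cast
    ring
  have t3 : |∑ c, M.B2 a c p * M.X p c| ≤ ((n : ℝ) + 1) * (2 * e0) := by
    rw [STR_B2X]
    refine (Finset.abs_sum_le_sum_abs _ _).trans ?_
    have : ∀ d ∈ (Finset.univ : Finset (Fin (n + 1))),
        |M.B a d p * ∑ c, M.B d c p * M.X p c| ≤ 2 * e0 := by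
      intro d _
      rw [abs_mul, ← hGH n S M hS d p]
      have b1 : |M.B a d p| ≤ 2 := by
        refine abs_le_of_sq_le_sq ?_ (by norm_num)
        have := STR_B_sq (M := M) a d p
        have := hw2 p
        linarith
      exact mul_le_mul b1 (hdH p hpR hv2 d) (abs_nonneg _) (by norm_num)
    refine (Finset.sum_le_card_nsmul _ _ _ this).trans (le_of_eq ?_)
    rw [hcard, nsmul_eq_mul]
    push_cast
    ring
  have t4 : |M.N p b * ∑ c, M.B2 a c p * M.X p c| ≤ ((n : ℝ) + 1) * (2 * e0) := by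
    rw [abs_mul]
    have b1 : |M.N p b| ≤ 1 := by
      have := STR_coord_le (M.N p) b
      rwa [M.unit] at this
    calc |M.N p b| * |∑ c, M.B2 a c p * M.X p c| ≤ 1 * |∑ c, M.B2 a c p * M.X p c| :=
          mul_le_mul_of_nonneg_right b1 (abs_nonneg _)
      _ ≤ _ := by rw [one_mul]; exact t3
  rw [e1]
  have t5 := hdd a b
  have t6 := abs_sub (M.dl a (M.dl b M.H) p - ∑ c, M.T3 a b c p * M.X p c)
    (M.N p b * ∑ c, M.B2 a c p * M.X p c)
  have t7 := abs_sub (M.dl a (M.dl b M.H) p) (∑ c, M.T3 a b c p * M.X p c)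
  linarith

end

end Pool.Agent.ShG
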