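import Pool.Agent.ShG.Defs2

/-!
# Targets of the project ShG (MP_61ae63_gt, full positive answer)

Every `tXYZ : Prop` is a job: the file `Pool/Agent/ShG/XYZ.lean` proves
`theorem pXYZ (h1 : tABC) ... : tXYZ` from the targets listed in its docstring.
The docstring contains the complete proof on paper.

Index conventions: all indices run over the ambient coordinates `Fin (n+1)`;
`δ_a = M.dl a`.  Rules (proved in Calc, Calc2, Calc3): Leibniz `dl_mul`, `dl_add`, ..., chain rule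
`dl_comp`, `δ_a X_b = δ_ab - N_a N_b` (`dl_X`), `δ_a N_b = -B_ab` (`dl_Nc`), `B_symm`,
`∑ N_a B_ab = 0` (`B_N_left`, `B_N_left'`, `B_N_right`), `∑ N_a δ_a Z = 0` (`dl_N`),
`∑_b N_b δ_a δ_b Z = ∑_b B_ab δ_b Z` (`hs_N_right`), commutator `dl_comm`,
maximum rule `max_Lap`, `min_Lap`, `Lap_mul`, `Lap_sq`, `Lap_comp`, `Lap_sum`, ...

No cycles: besides the targets listed as (uses ...), every target that stands EARLIER in this file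
may be taken as a hypothesis.
-/

namespace Pool.Agent.ShG

open scoped BigOperators Topology ContDiff
open Set Filter

noncomputable section

/-! ## Group I: identities -/

/-- Codazzi. Proof: `dl_comm` for `Z = N_c`. -/
def tCOD : Prop := ∀ (n : ℕ) (S : Type) [TopologicalSpace S] (M : Hyp n S)
  (a b c : Fin (n + 1)) (p : S),
  M.dl a (M.B b c) p - M.dl b (M.B a c) p = M.N p b * M.B2 a c p - M.N p a * M.B2 b c p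

/-- `δ_a H = ∑ B_ab X_b` for shrinkers (differentiate `H = -∑ X_b N_b`). -/
def tGH : Prop := ∀ (n : ℕ) (S : Type) [TopologicalSpace S] (M : Hyp n S), M.Shr →
  ∀ (a : Fin (n + 1)) (p : S), M.dl a M.H p = ∑ b, M.B a b p * M.X p b

/-- `∑_a δ_a B_ab = δ_b H + w N_b`. Proof: by Codazzi `δ_a B_ba = δ_b B_aa + N_b (B²)_aa - N_a (B²)_ba`,
sum over `a`; `∑_a (B²)_aa = w`, `∑_a N_a (B²)_ba = 0`.  (uses tCOD) -/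
def tDIV : Prop := ∀ (n : ℕ) (S : Type) [TopologicalSpace S] (M : Hyp n S)
  (b : Fin (n + 1)) (p : S),
  ∑ a, M.dl a (M.B a b) p = M.dl b M.H p + M.w p * M.N p b

/-- `Lap X_b = - X_b`, `Lap N_b = - w N_b`, `Lap ρ = 2n - 2ρ`, `δ_a ρ = 2 (X_a + H N_a)`,
`|∇ρ|² = 4 (ρ - H²)`.  Proof: `Lap X_b = -∑ δ_a (N_a N_b) - ∑ X_a (δ_ab - N_a N_b)`
`= H N_b - X_b - H N_b`; `Lap N_b = -∑ δ_a B_ab + ∑ X_a B_ab` and tDIV, tGH; `ρ = ∑ X_a²`.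
(uses tDIV, tGH) -/
def tLX : Prop := ∀ (n : ℕ) (S : Type) [TopologicalSpace S] (M : Hyp n S), M.Shr →
  (∀ (b : Fin (n + 1)) (p : S), M.Lap (M.Xc b) p = - M.X p b) ∧
  (∀ (b : Fin (n + 1)) (p : S), M.Lap (M.Nc b) p = - M.w p * M.N p b) ∧
  (∀ p, M.Lap M.rho p = 2 * n - 2 * M.rho p) ∧
  (∀ (a : Fin (n + 1)) (p : S), M.dl a M.rho p = 2 * (M.X p a + M.H p * M.N p a)) ∧
  (∀ p, M.gsq M.rho p = 4 * (M.rho p - M.H p ^ 2))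

/-- the function `D = |X - x₀|²`: it is smooth, `Lap D = 2n - 2⟨X, X - x₀⟩`,
`δ_a D = 2 (y_a - ⟨y,N⟩ N_a)`, `|∇D|² = 4 (|y|² - ⟨y,N⟩²)` with `y = X - x₀`.
Proof: `D = ∑ (X_a - x₀_a)²`, `δ_a (X_b - x₀_b) = δ_ab - N_a N_b`, `Lap (X_b - x₀_b) = -X_b`
(tLX), `∑_b |∇X_b|² = n`.  (uses tLX) -/
def tLD : Prop := ∀ (n : ℕ) (S : Type) [TopologicalSpace S] (M : Hyp n S), M.Shr →
  ∀ (x0 : Fs n) (p : S), M.Sm (fun q => ‖M.X q - x0‖ ^ 2) p ∧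
    M.Lap (fun q => ‖M.X q - x0‖ ^ 2) p = 2 * n - 2 * inner ℝ (M.X p) (M.X p - x0) ∧
    (∀ a, M.dl a (fun q => ‖M.X q - x0‖ ^ 2) p
      = 2 * ((M.X p - x0) a - inner ℝ (M.X p - x0) (M.N p) * M.N p a)) ∧
    M.gsq (fun q => ‖M.X q - x0‖ ^ 2) p
      = 4 * (‖M.X p - x0‖ ^ 2 - (inner ℝ (M.X p - x0) (M.N p)) ^ 2)

/-- commutation of `Lap` and `δ_a`:
`Lap (δ_a Z) = δ_a (Lap Z) + δ_a Z - 2 ∑_b (B²)_ab δ_b Z + 2 N_a ∑_bc B_bc δ_b δ_c Z`.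
Proof: `G_b := δ_b Z`. `δ_b G_a = δ_a G_b + N_a (BG)_b - N_b (BG)_a` (dl_comm). Apply `δ_b`, sum:
`∑ δ_b δ_a G_b = δ_a ∑ δ_b G_b + N_a ∑ B_bc δ_c G_b - ∑_bc N_b B_ac δ_c G_b`, and
`∑_b N_b δ_c G_b = (BG)_c` (hs_N_right) so the last term is `-(B²G)_a`;
`∑_b δ_b [N_a (BG)_b - N_b (BG)_a] = -(B²G)_a + N_a ∑_b δ_b (BG)_b + H (BG)_a`, where
`∑_b δ_b (BG)_b = ⟨∇H, G⟩ + ∑ B_bc δ_b G_c` (tDIV and `∑ N_c G_c = 0`).  The drift part: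
`-∑ X_b δ_b G_a = -δ_a (∑ X_b G_b) + G_a - N_a ⟨X, BG⟩ - H (BG)_a` using `⟨X,N⟩ = -H`, and
`⟨X, BG⟩ = ⟨∇H, G⟩` (tGH).  (uses tDIV, tGH) -/
def tCOM : Prop := ∀ (n : ℕ) (S : Type) [TopologicalSpace S] (M : Hyp n S), M.Shr →
  ∀ (Z : S → ℝ) (p : S), M.Sm Z p → ∀ a : Fin (n + 1),
    M.Lap (M.dl a Z) p = M.dl a (M.Lap Z) p + M.dl a Z p - 2 * ∑ b, M.B2 a b p * M.dl b Z p
      + 2 * M.N p a * ∑ b, ∑ c, M.B b c p * M.dl b (M.dl c Z) p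

/-- Bochner: `Lap |∇Z|² = 2 |DDZ|² + 2 ⟨∇Z, ∇ Lap Z⟩ + 2 |∇Z|² - 4 (B²)(∇Z,∇Z)`.
Proof: `Lap_sum`, `Lap_sq`, tCOM, `∑ N_a δ_a Z = 0`.  (uses tCOM) -/
def tBOC : Prop := ∀ (n : ℕ) (S : Type) [TopologicalSpace S] (M : Hyp n S), M.Shr →
  ∀ (Z : S → ℝ) (p : S), M.Sm Z p →
    M.Lap (M.gsq Z) p = 2 * ∑ a, ∑ b, (M.dl b (M.dl a Z) p) ^ 2
      + 2 * ∑ a, M.dl a Z p * M.dl a (M.Lap Z) p + 2 * M.gsq Z p
      - 4 * ∑ a, ∑ b, M.B2 a b p * M.dl a Z p * M.dl b Z p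

/-- `Lap B_ab = (1-w) B_ab - 2 (B³)_ab + 2 tr(B³) N_a N_b + N_b δ_a w + N_a δ_b w`.
Proof: `B_ab = -δ_a N_b`, so `Lap B_ab = -Lap (δ_a N_b)`; tCOM for `Z = N_b` with
`Lap N_b = -w N_b` (tLX); `∑_cd B_cd δ_c δ_d N_b = -∑ B_cd δ_c B_db`, and by Codazzi
`∑ B_cd δ_c B_db = ½ δ_b w + N_b tr(B³)`.  (uses tCOD, tLX, tCOM) -/
def tLB : Prop := ∀ (n : ℕ) (S : Type) [TopologicalSpace S] (M : Hyp n S), M.Shr →
  ∀ (a b : Fin (n + 1)) (p : S),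
    M.Lap (M.B a b) p = (1 - M.w p) * M.B a b p - 2 * M.B3 a b p
      + 2 * M.tr3 p * M.N p a * M.N p b + M.N p b * M.dl a M.w p + M.N p a * M.dl b M.w p

/-- the tensor `T = ∇A`: totally symmetric, no normal component, `J = e1 - 2 tr B⁴`,
`∑_b T_abb = δ_a H`, `δ_a w = 2 ∑ B_bc T_abc`, hence `|∇H|² ≤ (n+1) J`, `|∇w|² ≤ 4 w J`.
Proof: symmetry in the last two indices: `B_symm`; in the first two: Codazzi (tCOD);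
`∑_b N_b δ_a B_bc = (B²)_ac` from `∑_b N_b B_bc = 0`; Cauchy-Schwarz.  (uses tCOD) -/
def tT3 : Prop := ∀ (n : ℕ) (S : Type) [TopologicalSpace S] (M : Hyp n S) (p : S),
  (∀ a b c, M.T3 a b c p = M.T3 b a c p) ∧ (∀ a b c, M.T3 a b c p = M.T3 a c b p) ∧
  (∀ b c, ∑ a, M.N p a * M.T3 a b c p = 0) ∧ M.J p = M.e1 p - 2 * M.b4 p ∧
  (∀ a, M.dl a M.H p = ∑ b, M.T3 a b b p) ∧
  (∀ a, M.dl a M.w p = 2 * ∑ b, ∑ c, M.B b c p * M.T3 a b c p) ∧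
  M.gsq M.H p ≤ (n + 1) * M.J p ∧ M.gsq M.w p ≤ 4 * M.w p * M.J p

/-- `Lap H = (1-w) H` and `Lap w = 2 J + 2 w (1-w)`.  Proof: `Lap_sum`, `Lap_sq`, tLB;
`∑ B_ab (B³)_ab = tr B⁴ = b4`, the terms with `N` vanish; `J = e1 - 2 b4` (tT3).
(uses tLB, tT3) -/
def tLW : Prop := ∀ (n : ℕ) (S : Type) [TopologicalSpace S] (M : Hyp n S), M.Shr →
  ∀ p : S, M.Lap M.H p = (1 - M.w p) * M.H p ∧
    M.Lap M.w p = 2 * M.J p + 2 * M.w p * (1 - M.w p)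

/-- `H² ≤ n w`, `b4 ≤ w²`, `∑ |B2_ab|² = b4`; the operator bound `‖B x‖² ≤ w ‖x‖²`, and `B x` only
depends on the tangential part of `x`.  Proof: `H = ∑_ab (δ_ab - N_a N_b) B_ab`,
`∑ (δ_ab - N_a N_b)² = n`, Cauchy-Schwarz. -/
def tHW : Prop := ∀ (n : ℕ) (S : Type) [TopologicalSpace S] (M : Hyp n S) (p : S),
  M.H p ^ 2 ≤ n * M.w p ∧ M.b4 p ≤ M.w p ^ 2 ∧
  (∀ x, ‖M.Bv p x‖ ^ 2 ≤ M.w p * ‖x‖ ^ 2) ∧
  (∀ (x : Fs n) (t : ℝ), M.Bv p (x + t • M.N p) = M.Bv p x) ∧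
  (∀ x, inner ℝ (M.Bv p x) (M.N p) = (0:ℝ)) ∧
  (∀ x y, inner ℝ (M.Bv p x) y = (inner ℝ x (M.Bv p y) : ℝ))

/-- second derivative of `H`:
`δ_a δ_b H = ∑_c T_abc X_c + B_ab - H (B²)_ab + N_b ∑_c (B²)_ac X_c`.
Proof: `δ_b H = ∑ B_bc X_c` (tGH) near `p`; Leibniz; `δ_a B_bc = T_abc + N_b (B²)_ac + N_c (B²)_ab`
(definition of `T3`), `δ_a X_c = δ_ac - N_a N_c`, `∑ X_c N_c = -H`.  (uses tGH) -/
def tHH : Prop := ∀ (n : ℕ) (S : Type) [TopologicalSpace S] (M : Hyp n S), M.Shr →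
  ∀ (a b : Fin (n + 1)) (p : S),
    M.dl a (M.dl b M.H) p = ∑ c, M.T3 a b c p * M.X p c + M.B a b p - M.H p * M.B2 a b p
      + M.N p b * ∑ c, M.B2 a c p * M.X p c

/-- the tensors `τ, ζ, 𝒮` where `H ≠ 0`:
`δ_a τ_bc = 𝒮_abc + (N_b (B²)_ac + N_c (B²)_ab)/H`, symmetry of `𝒮` in the last two indices, no normal
components, the Codazzi identity `ζ_a τ_bc - ζ_b τ_ac = 𝒮_bac - 𝒮_abc`, `∑ τ_aa = 1`,
`∑ τ_ab² = F`, `ζ_a = ∑ τ_ab X_b`, and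
`δ_a ζ_b = ∑_c 𝒮_abc X_c + τ_ab - (B²)_ab + N_b ∑_c (B²)_ac X_c / H`.
(uses tT3, tGH; the last identity: `ζ_b = ∑ τ_bc X_c` near `p`) -/
def tTAU : Prop := ∀ (n : ℕ) (S : Type) [TopologicalSpace S] (M : Hyp n S), M.Shr →
  ∀ p : S, M.H p ≠ 0 →
  (∀ a b c, M.dl a (M.tau b c) p
    = M.S3 a b c p + (M.N p b * M.B2 a c p + M.N p c * M.B2 a b p) / M.H p) ∧
  (∀ a b c, M.S3 a b c p = M.S3 a c b p) ∧
  (∀ b c, ∑ a, M.N p a * M.S3 a b c p = 0) ∧ (∀ a c, ∑ b, M.N p b * M.S3 a b c p = 0) ∧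
  (∀ a b c, M.ze a p * M.tau b c p - M.ze b p * M.tau a c p = M.S3 b a c p - M.S3 a b c p) ∧
  (∑ a, M.tau a a p = 1) ∧ (∑ a, ∑ b, (M.tau a b p) ^ 2 = M.Fq p) ∧
  (∀ a, M.ze a p = ∑ b, M.tau a b p * M.X p b) ∧
  (∀ a b, M.dl a (M.ze b) p = ∑ c, M.S3 a b c p * M.X p c + M.tau a b p - M.B2 a b p
    + M.N p b * (∑ c, M.B2 a c p * M.X p c) / M.H p)

/-- `ℒ F = 2 |𝒮|²` and `|∇F|² ≤ 4 F |𝒮|²` where `H ≠ 0`.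
Proof: `F = ∑ τ_ab²` near `p`; for a quotient `ℒ (B_ab/H) = (Lap B_ab - B_ab Lap H / H)/H`
(expand `Lap_mul`, `Lap_inv`), so by tLB, tLW
`ℒ τ_ab = (-2 (B³)_ab + 2 tr3 N_a N_b + N_b δ_a w + N_a δ_b w)/H`, hence
`2 ∑ τ_ab ℒ τ_ab = -4 b4/H²`, and `∑ |∇τ_ab|² = |𝒮|² + 2 b4/H²` (tTAU);
`δ_a F = 2 ∑ τ_bc 𝒮_abc`.  (uses tLB, tLW, tTAU, tT3) -/
def tLLF : Prop := ∀ (n : ℕ) (S : Type) [TopologicalSpace S] (M : Hyp n S), M.Shr →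
  ∀ p : S, M.H p ≠ 0 → M.LL M.Fq p = 2 * M.ssq p ∧ M.gsq M.Fq p ≤ 4 * M.Fq p * M.ssq p

/-- `ℒ (f/|H|) = (Lap f - (1-w) f)/|H|` where `H ≠ 0`, and
`δ_a (f/|H|) = δ_a f/|H| - f ζ_a/|H|`.
Proof: near `p` the sign of `H` is constant, `|H| = ± H`; `Lap_mul`, `Lap_inv`, `Lap H = (1-w)H`
(tLW); the cross terms cancel.  (uses tLW) -/
def tLLR : Prop := ∀ (n : ℕ) (S : Type) [TopologicalSpace S] (M : Hyp n S), M.Shr →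
  ∀ (f : S → ℝ) (p : S), M.H p ≠ 0 → M.Sm f p →
    M.Sm (fun q => f q / |M.H q|) p ∧
    M.LL (fun q => f q / |M.H q|) p = (M.Lap f p - (1 - M.w p) * f p) / |M.H p| ∧
    ∀ a, M.dl a (fun q => f q / |M.H q|) p
      = M.dl a f p / |M.H p| - f p * M.ze a p / |M.H p|

/-- the function `ϑ(q) = τ_q(e,e)/(1 - ⟨e, N q⟩²)` for a fixed unit vector `e ⊥ N p` with
`B(p) e = λ H(p) e`: smooth at `p`, `ϑ(p) = λ`, `ℒ ϑ (p) = 0`, `δ_a ϑ (p) = ∑ 𝒮_abc e_b e_c`.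
Proof: `f = τ(e,e)`, `D = 1 - ⟨e,N⟩²`: `D(p) = 1`, `∇D(p) = 0`,
`Lap D (p) = -2 |∇⟨e,N⟩|² = -2 |B e|² = -2 λ² H²`; `ℒ f (p) = -2 (B³)(e,e)/H = -2 λ³ H²` (see tLLF
for `ℒ τ_ab`; terms with `N` vanish as `⟨e,N p⟩ = 0`); `ℒ (f/D) = ℒ f - f ℒ D = 0`.
(uses tLB, tLW, tTAU, tLX) -/
def tTHE : Prop := ∀ (n : ℕ) (S : Type) [TopologicalSpace S] (M : Hyp n S), M.Shr →
  ∀ (p : S) (e : Fs n) (l : ℝ), M.H p ≠ 0 → ‖e‖ = 1 → inner ℝ e (M.N p) = (0:ℝ) →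
    M.Bv p e = (l * M.H p) • e →
    M.Sm (fun q => M.tq e q / (1 - (inner ℝ e (M.N q)) ^ 2)) p ∧
    M.tq e p = l ∧
    M.LL (fun q => M.tq e q / (1 - (inner ℝ e (M.N q)) ^ 2)) p = 0

/-! ## Group II: global derivative bounds (Bernstein) -/

/-- `Lap e1 ≥ e2 - A e1 - A` where `w ≤ 2`.
Proof: tBOC for every `Z = B_bc` (then `∑_bc gsq B_bc = e1`, `∑ |DDB_bc|² = e2`):
`Lap e1 = 2 e2 + 2 ∑ ⟨∇B_bc, ∇ Lap B_bc⟩ + 2 e1 - 4 ∑ (B²)(∇B_bc,∇B_bc)`.  By tLB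
`Lap B_bc = (1-w)B_bc - 2(B³)_bc + 2 tr3 N_b N_c + N_c δ_b w + N_b δ_c w`.  All entries of `B` are
`≤ √2`, `|δ_a w| ≤ C |DB|`, `|δ_a N_b| ≤ √2`, so the first three terms have gradient `≤ C(1 + |DB|)`;
for the last two, `δ_a (N_c δ_b w) = -B_ac δ_b w + N_c δ_a δ_b w`, the first part is `≤ C |DB|`, and
`∑_abc δ_a B_bc N_c δ_a δ_b w = ∑_ab (B²)_ab δ_a δ_b w` because `∑_c N_c δ_a B_bc = (B²)_ab`;
`|δ_a δ_b w| ≤ C (|DB|² + |DDB|)`.  Hence `Lap e1 ≥ 2 e2 - C √e2 - C e1 - C ≥ e2 - A e1 - A`.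
(uses tBOC, tLB) -/
def tI1 : Prop := ∀ n : ℕ, ∃ A : ℝ, 0 ≤ A ∧ ∀ (S : Type) [TopologicalSpace S] (M : Hyp n S),
  M.Shr → ∀ p : S, M.w p ≤ 2 → M.e2 p - A * M.e1 p - A ≤ M.Lap M.e1 p

/-- `Lap e2 ≥ e3 - A e2 - A` where `w ≤ 2`, `e1 ≤ C₁`.
Proof: tBOC for every `Z' = δ_b B_cd`: `Lap e2 = 2 e3 + 2 ∑⟨∇Z', ∇ Lap Z'⟩ + 2 e2 - 4 ∑ B²(∇Z',∇Z')`
and `Lap Z' = δ_b (Lap B_cd) + Z' - 2 ∑ (B²)_be δ_e B_cd + 2 N_b ∑ B_ef δ_e δ_f B_cd` (tCOM), with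
`Lap B_cd` from tLB (an equality of functions).  Bookkeeping: call `f` of class O0 (polynomials in
`N, B`): `|f|, |Df| ≤ C`; O1 (polynomials in `N, B, DB`): `|f| ≤ C`, `|Df| ≤ C (1+√e2)`;
O2 : `|f| ≤ C (1+√e2)`, `|Df| ≤ C (1 + √e2 + √e3)`; O0·O2 ⊂ O2, O1 ⊂ O2, O2 + O2 ⊂ O2, and
`δ_b (Lap B_cd)` is in O2 because `δ_b δ_c w = 2 ∑ (δ_b B δ_c B + B δ_b δ_c B)`.
Hence `|∇ Lap Z'| ≤ C (1 + √e2 + √e3)` and `Lap e2 ≥ 2 e3 - C √e2 (1 + √e2 + √e3) - C e2 ≥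
e3 - A e2 - A`.  (uses tBOC, tCOM, tLB) -/
def tI2 : Prop := ∀ (n : ℕ) (C1 : ℝ), ∃ A : ℝ, 0 ≤ A ∧
  ∀ (S : Type) [TopologicalSpace S] (M : Hyp n S),
  M.Shr → ∀ p : S, M.w p ≤ 2 → M.e1 p ≤ C1 → M.e3 p - A * M.e2 p - A ≤ M.Lap M.e2 p

/-- `|∇ e1|² ≤ 4 e1 e2`, `|∇ e2|² ≤ 4 e2 e3` (Cauchy-Schwarz). -/
def tGE : Prop := ∀ (n : ℕ) (S : Type) [TopologicalSpace S] (M : Hyp n S) (p : S),
  M.gsq M.e1 p ≤ 4 * M.e1 p * M.e2 p ∧ M.gsq M.e2 p ≤ 4 * M.e2 p * M.e3 p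

/-- the Bernstein argument with cutoff.
Proof: `K = 17 A + 4 n + 1`, `R ≥ 1`; on the compact set `{ρ ≤ R²}` (`isCompact_rho`) maximise
`Z = φ f1 + K f0`, `φ = (1 - ρ/R²)²`.  If the maximum point `p` has `ρ(p) < R²` it is a local maximum
(`{ρ < R²}` is open), so `Lap Z ≤ 0`:
`0 ≥ φ (G - A f1 - A) + 2⟨∇φ,∇f1⟩ + f1 Lap φ + K (f1 - A)`, with `|∇φ|² ≤ 16 φ/R²`
(`∇φ = -2 √φ ∇ρ/R²`, `|∇ρ|² ≤ 4ρ ≤ 4R²`), `2|⟨∇φ,∇f1⟩| ≤ 2·(4√φ/R) √(A f1 G) ≤ φ G + 16 A f1/R²`,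
`Lap φ = -2√φ (2n - 2ρ)/R² + 2|∇ρ|²/R⁴ ≥ -4n/R²`; so `f1(p) ≤ A + K A`.  In both cases
`φ(q) f1(q) + K f0(q) ≤ max Z ≤ A + 2 K A`, let `R → ∞`.  (uses tLX) -/
def tCUT : Prop := ∀ (n : ℕ) (A : ℝ), 0 ≤ A → ∃ C : ℝ,
  ∀ (S : Type) [TopologicalSpace S] (M : Hyp n S), M.Shr → ∀ f0 f1 G : S → ℝ,
    (∀ p, M.Sm f0 p) → (∀ p, M.Sm f1 p) → (∀ p, 0 ≤ f1 p) → (∀ p, 0 ≤ G p) →
    (∀ p, |f0 p| ≤ A) → (∀ p, G p - A * f1 p - A ≤ M.Lap f1 p) →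
    (∀ p, M.gsq f1 p ≤ A * f1 p * G p) → (∀ p, f1 p - A ≤ M.Lap f0 p) →
    ∀ p, f1 p ≤ C

/-- global bounds `|DB|² ≤ C`, `|DDB|² ≤ C`.
Proof: tCUT with `f1 = e1, f0 = w, G = e2` (`Lap w = 2 e1 - 4 b4 + 2w(1-w) ≥ e1 - 20`), then with
`f1 = e2, f0 = e1, G = e3`.  (uses tI1, tI2, tGE, tCUT, tLW, tT3, tHW) -/
def tBER : Prop := ∀ n : ℕ, ∃ C : ℝ, 0 ≤ C ∧ ∀ (S : Type) [TopologicalSpace S] (M : Hyp n S),
  M.Shr → (∀ p, M.w p ≤ 2) → ∀ p, M.e1 p ≤ C ∧ M.e2 p ≤ C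

/-! ## Group III: sections and lifts -/

/-- derivative of a lift: `(X ∘ γ)' = ι u - (⟨ι u, N⟩/⟨N p, N⟩) N p`.
Proof: at `t`, `q = γ t`, `ξ(r) = X(γ r) - X q = (r-t) ι u + λ(r) N p` (split, because `prj ξ = (r-t) u`)
and `⟨ξ(r), N q⟩ = o(|ξ(r)|)` (`tangency` composed with the continuity of `γ`), so
`(r-t) ⟨ι u, N q⟩ + λ(r) ⟨N p, N q⟩ = o(|r-t| + |λ(r)|)`, `⟨N p, N q⟩ > 0`. -/
def tLFD : Prop := ∀ (n : ℕ) (S : Type) [TopologicalSpace S] [T2Space S] (M : Hyp n S)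
  (p : S) (ι : Es n →ₗᵢ[ℝ] Fs n) (u : Es n) (s : ℝ) (γ : ℝ → S),
  (∀ v, inner ℝ (ι v) (M.N p) = (0:ℝ)) → M.Lift p ι u s γ → ∀ t ∈ Icc (0:ℝ) s,
    HasDerivWithinAt (fun r => M.X (γ r))
      (ι u - (inner ℝ (ι u) (M.N (γ t)) / inner ℝ (M.N p) (M.N (γ t))) • M.N p)
      (Icc 0 s) t

/-- local inverses of `q ↦ prj ι (X q - X p)` where `⟨N q, N p⟩ > 0`.
Proof: take a section `(ι', g', σ')` at `q` (field `sec`), `F(v) = prj ι (X (σ' v) - X p)` is smooth with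
derivative `v ↦ prj ι (ι' v)` at `0`, injective because `ι' v ⊥ N q` and `prj ι (ι' v) = 0` force
`ι' v = c N p`, `c ⟨N p, N q⟩ = 0`; inverse function theorem
(`ContDiffAt.toOpenPartialHomeomorph`), `τ = σ' ∘ F⁻¹` on a small open `V`. -/
def tLOI : Prop := ∀ (n : ℕ) (S : Type) [TopologicalSpace S] [T2Space S] (M : Hyp n S)
  (p : S) (ι : Es n →ₗᵢ[ℝ] Fs n), (∀ v, inner ℝ (ι v) (M.N p) = (0:ℝ)) →
  ∀ q : S, 0 < (inner ℝ (M.N q) (M.N p) : ℝ) →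
  ∃ (V : Set (Es n)) (τ : Es n → S), IsOpen V ∧ prj ι (M.X q - M.X p) ∈ V ∧
    τ (prj ι (M.X q - M.X p)) = q ∧ ContinuousOn τ V ∧
    (∀ W ⊆ V, IsOpen W → IsOpen (τ '' W)) ∧
    (∀ u ∈ V, prj ι (M.X (τ u) - M.X p) = u) ∧
    ContDiffOn ℝ ∞ (fun u => M.X (τ u)) V ∧
    (∀ u ∈ V, 0 < (inner ℝ (M.N (τ u)) (M.N p) : ℝ))

/-- velocity of a lift with `⟨N,N p⟩ ≥ τ₀`: the curve `X ∘ γ` is Lipschitz with constant `‖u‖/τ₀`, and the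
velocity vector `ξ` of tLFD is tangential with `‖ξ‖ ≤ ‖u‖/τ₀`.
Proof: `ξ = ι u - (⟨ι u,N⟩/φ) e`, `φ = ⟨N,e⟩`, `⟨ι u,N⟩² ≤ |u|²(1-φ²)` (`N = φ e + ν`, `|ν|² = 1-φ²`), so
`|ξ|² ≤ |u|²/φ²`; mean value inequality on `Icc 0 s`.  (uses tLFD) -/
def tVEL : Prop := ∀ (n : ℕ) (S : Type) [TopologicalSpace S] [T2Space S] (M : Hyp n S)
  (p : S) (ι : Es n →ₗᵢ[ℝ] Fs n) (u : Es n) (s τ0 : ℝ) (γ : ℝ → S),
  (∀ v, inner ℝ (ι v) (M.N p) = (0:ℝ)) → M.Lift p ι u s γ → 0 < τ0 →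
  (∀ t ∈ Icc (0:ℝ) s, τ0 ≤ inner ℝ (M.N (γ t)) (M.N p)) →
  (∀ t ∈ Icc (0:ℝ) s, ∃ ξ : Fs n, HasDerivWithinAt (fun r => M.X (γ r)) ξ (Icc 0 s) t ∧
    inner ℝ ξ (M.N (γ t)) = (0:ℝ) ∧ ‖ξ‖ ≤ ‖u‖ / τ0 ∧ prj ι ξ = u) ∧
  ∀ t ∈ Icc (0:ℝ) s, ∀ t' ∈ Icc (0:ℝ) s, ‖M.X (γ t) - M.X (γ t')‖ ≤ (‖u‖ / τ0) * |t - t'|

/-- the lifting lemma, topological part: if all lifts of initial pieces of the segments `[0,u]`, `u ∈ K`, stay in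
a fixed compact region `{⟨N, N p⟩ ≥ τ₀, |X| ≤ R'}` then the end points define a map `σ` on `K` which
agrees near every `u₀ ∈ K` with every local inverse (in the sense of tLOI) at `σ u₀`.
Proof: uniqueness of lifts: `S` is T2 and `q ↦ prj ι (X q - X p)` is locally injective on the open set
`{⟨N,N p⟩ > 0}` (tLOI: the image of `τ` is a neighbourhood of `q` on which the map has inverse `τ`).
Existence of the lift on `[0,1]` for `u ∈ K`: the set of `s ∈ [0,1]` for which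
there is a lift on `[0,s]` contains `0`, is open in `[0,1]` by tLOI; closed: lifts on `[0,s_j]`,
`s_j ↑ s`, are compatible, the points stay in the compact set
`X⁻¹(closedBall 0 R') ∩ {⟨N,N p⟩ ≥ τ₀}`, take a cluster point `q` as `t → s`; by tLOI at `q` the lift
is `τ(t u)` for `t` near `s`.  (Or use `IsLocalHomeomorph.continuous_lift` and path lifting from
Mathlib for the restriction to the open set `{⟨N,N p⟩ > 0}`.)  `σ(u) :=` end point of the lift of `u`.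
Agreement: along the compact path of `u₀` choose finitely many local inverses `τ_i` covering
subintervals; for `u` near `u₀` the lift of `u` runs through the same `τ_i`.  (uses tLOI) -/
def tLI1 : Prop := ∀ (n : ℕ) (S : Type) [TopologicalSpace S] [T2Space S] (M : Hyp n S)
  (p : S) (ι : Es n →ₗᵢ[ℝ] Fs n), (∀ v, inner ℝ (ι v) (M.N p) = (0:ℝ)) →
  ∀ (K : Set (Es n)) (τ0 R' : ℝ), IsOpen K → (0 : Es n) ∈ K → Convex ℝ K → 0 < τ0 →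
  (∀ u ∈ K, ∀ s ∈ Icc (0:ℝ) 1, ∀ γ : ℝ → S, M.Lift p ι u s γ →
    τ0 ≤ inner ℝ (M.N (γ s)) (M.N p) ∧ ‖M.X (γ s)‖ ≤ R') →
  ∃ σ : Es n → S, σ 0 = p ∧ (∀ u ∈ K, M.Lift p ι u 1 (fun t => σ (t • u))) ∧
    ∀ u0 ∈ K, ∀ (V : Set (Es n)) (τ : Es n → S), IsOpen V → u0 ∈ V → τ u0 = σ u0 →
      ContinuousOn τ V → (∀ u ∈ V, prj ι (M.X (τ u) - M.X p) = u) →
      (∀ u ∈ V, 0 < (inner ℝ (M.N (τ u)) (M.N p) : ℝ)) → ∀ᶠ u in 𝓝 u0, σ u = τ u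

/-- the lifting lemma: under the same hypothesis there is a section over the whole of `K`.
Proof: `σ` from tLI1.  Near `u₀ ∈ K`, `σ` agrees with the local inverse `τ` of tLOI at `σ u₀`
(`prj ι (X(σ u₀) - X p) = u₀`), so `σ` is continuous and open, and `g(u) = ⟨X(σ u) - X p, N p⟩` is smooth as
`X ∘ τ` is; `X(σ u) = X p + ι u + g(u) N p` by `IsSec.split` (for the isometry `ι`: `ι` is onto
`(N p)^⊥`, see the proof of `IsSec.split`); the normal formula: `N(σ u)` is orthogonal to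
`ι v + (Dg(u) v) N p` for all `v` (by `tangency` composed with the continuous map `σ`), has norm 1 and
`⟨N(σ u), N p⟩ > 0`, so it equals `(1+|∇g|²)^(-1/2) (N p - ι ∇g)`.  (uses tLI1, tLOI) -/
def tLIFT : Prop := ∀ (n : ℕ) (S : Type) [TopologicalSpace S] [T2Space S] (M : Hyp n S)
  (p : S) (ι : Es n →ₗᵢ[ℝ] Fs n), (∀ v, inner ℝ (ι v) (M.N p) = (0:ℝ)) →
  ∀ (K : Set (Es n)) (τ0 R' : ℝ), IsOpen K → (0 : Es n) ∈ K → Convex ℝ K → 0 < τ0 →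
  (∀ u ∈ K, ∀ s ∈ Icc (0:ℝ) 1, ∀ γ : ℝ → S, M.Lift p ι u s γ →
    τ0 ≤ inner ℝ (M.N (γ s)) (M.N p) ∧ ‖M.X (γ s)‖ ≤ R') →
  ∃ (g : Es n → ℝ) (σ : Es n → S), IsSec M.X M.N p K ι g σ ∧
    ∀ u ∈ K, M.Lift p ι u 1 (fun t => σ (t • u))

/-- uniform graph charts: radius `1/8`, slope `≤ 1/4`, if `w ≤ 2`.
Proof: take `ι` from `M.sec p`; tLIFT with `K = ball 0 (1/8)`, `τ₀ = 9/10`, `R' = |X p| + 1`.
A priori bound: along a lift `γ` let `φ(t) = ⟨N(γ t), N p⟩`.  By tVEL the velocity `ξ` has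
`|ξ| ≤ |u|/φ`, so `|(N∘γ)'| ≤ |B ξ| ≤ √2 |u|/φ` (`Sm.comp_within` for
`Nc a`, `|Bξ|² ≤ w|ξ|²`, tHW).  As long as `φ ≥ 9/10`: `|N - N p| ≤ √2/(8·0.9) < 0.2`, so
`φ = 1 - |N - N p|²/2 ≥ 0.98`; by continuity `φ ≥ 0.98` on the whole interval.  Slope: in the section
`φ = (1+|∇g|²)^(-1/2) ≥ 0.98` gives `|∇g| ≤ 0.21`.  (uses tVEL, tLIFT, tHW) -/
def tUGC : Prop := ∀ (n : ℕ) (S : Type) [TopologicalSpace S] [T2Space S] (M : Hyp n S),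
  (∀ p, M.w p ≤ 2) → ∀ p, ∃ ι g σ, M.Nice p ι g σ

/-- localisation: a preconnected set containing `p` whose image lies in the ball of radius `r' < r`
about `X p` is contained in the image of the section over `ball 0 r`.
Proof: `A ∩ σ(ball 0 r)` is open in `A`; it is closed in `A`: if `q ∈ A` is a limit of
`σ(u_j) ∈ A` then `u_j = prj ι (X(σ u_j) - X p) → u := prj ι (X q - X p)`, `‖u‖ ≤ r' < r`, so
`σ(u_j) → σ(u)` and `q = σ(u)` (T2). -/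
def tLOC : Prop := ∀ (n : ℕ) (S : Type) [TopologicalSpace S] [T2Space S] (M : Hyp n S)
  (p : S) (ι : Es n →ₗᵢ[ℝ] Fs n) (g : Es n → ℝ) (σ : Es n → S) (r r' : ℝ), r' < r →
  IsSec M.X M.N p (Metric.ball 0 r) ι g σ → ∀ A : Set S, IsPreconnected A → p ∈ A →
  (∀ q ∈ A, ‖M.X q - M.X p‖ ≤ r') →
  ∀ q ∈ A, ∃ u ∈ Metric.ball (0 : Es n) r, ‖u‖ ≤ ‖M.X q - M.X p‖ ∧ σ u = q

/-- a path with Lipschitz image is covered by few steps.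
Proof: divide `[0,s]` into `k` equal pieces; on each the image moves by at most `1/40 < 1/32`; tUGC
and tLOC (`r = 1/8`, `r' = 1/40`, `A` = image of the piece).  (uses tUGC, tLOC) -/
def tRCH : Prop := ∀ (n : ℕ) (S : Type) [TopologicalSpace S] [T2Space S] (M : Hyp n S),
  (∀ p, M.w p ≤ 2) → ∀ (γ : ℝ → S) (s L : ℝ) (k : ℕ), 0 ≤ s → 1 ≤ k →
  ContinuousOn γ (Icc 0 s) →
  (∀ t ∈ Icc (0:ℝ) s, ∀ t' ∈ Icc (0:ℝ) s, ‖M.X (γ t) - M.X (γ t')‖ ≤ L * |t - t'|) →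
  L * s ≤ k / 40 → M.Rch k (γ 0) (γ s)

/-- geometry inside a uniform section: with `y = X(σ u) - X(σ u')`: `|u-u'| ≤ |y| ≤ (33/32)|u-u'|` and
`⟨y, N(σ u)⟩² ≤ ¼ |y|²`.
Proof: `y = ι(u-u') + (g u - g u') N p`, `|g u - g u'| ≤ ¼ |u-u'|` (mean value), and
`⟨y, N(σ u)⟩ = (1+|∇g|²)^(-1/2) [(g u - g u') - ⟨u-u', ∇g(u)⟩]` has absolute value `≤ ½ |u-u'|`. -/
def tSGE : Prop := ∀ (n : ℕ) (S : Type) [TopologicalSpace S] [T2Space S] (M : Hyp n S)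
  (p : S) (ι : Es n →ₗᵢ[ℝ] Fs n) (g : Es n → ℝ) (σ : Es n → S), M.Nice p ι g σ →
  ∀ u ∈ Metric.ball (0 : Es n) (1/8), ∀ u' ∈ Metric.ball (0 : Es n) (1/8),
    ‖u - u'‖ ≤ ‖M.X (σ u) - M.X (σ u')‖ ∧
    ‖M.X (σ u) - M.X (σ u')‖ ≤ (33/32) * ‖u - u'‖ ∧
    (inner ℝ (M.X (σ u) - M.X (σ u')) (M.N (σ u))) ^ 2
      ≤ (1/4) * ‖M.X (σ u) - M.X (σ u')‖ ^ 2

/-! ## Group IV: local maximum principle lemmas -/

/-- quantitative Hopf lemma (viscosity form).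
Proof.  Fix `k ∈ ℕ`, `k ≥ 1`, with `(2k+2)·(3/4) ≥ n + R + Λ + 3`.  Let `s(q) = |X q - X(σ u1)|²`.  By tLD and
`Lap_comp`, where `s > 0`,
`Lap s^(-k) = -k s^(-k-1) (2n - 2⟨X,y⟩) + k(k+1) s^(-k-2)·4(|y|² - ⟨y,N⟩²)` and
`⟨V,∇s^(-k)⟩ ≥ -2k s^(-k-1) Λ |y|`; on the section `|y| ≤ 1`, `|X| ≤ R+1`,
`|y|²-⟨y,N⟩² ≥ ¾ s` (tSGE), so `Lap s^(-k) + ⟨V,∇s^(-k)⟩ ≥ 2k s^(-k-1) ≥ 2k`.
Let `r_in = y/(2Λ+2)·(1/16) ` (so `Y ≥ y/2` where `|u-u1| ≤ r_in`), `r_out = 9/100`,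
`κ' = (y/2) r_in^(2k)`, `φ = κ' (s^(-k) - r_out^(-2k))`.  If `β < 2kκ'`, the minimum of `Y - φ` over the
compact set `{u ∈ closedBall 0 (0.124) : r_in² ≤ s(σ u) ≤ r_out²}` is `≥ 0`: on `s = r_in²` (or less)
`φ ≤ y/2 ≤ Y`, on `s = r_out²` `φ = 0 ≤ Y`, and an interior negative minimum would be touched from
below by `φ`, giving `2kκ' ≤ β`.  (`s(σ u) ≤ r_out²` forces `|u| ≤ 1/32 + 0.09 < 0.124`.)
At `u2`: `|u2-u1| ≤ 1/16`, by tSGE `|y| ≤ (33/32)(1/16) < 0.065`, so (if `s ≥ r_in²`)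
`Y(σ u2) ≥ min (y/2, κ' (0.065^(-2k) - 0.09^(-2k))) ≥ κ y^(2k+1)`.  `m = 2k+1`.
(uses tLD, tSGE; for n = 0 the ball is a point) -/
def tHARN : Prop := ∀ (n : ℕ) (R Λ : ℝ), 0 ≤ R → 0 ≤ Λ → ∃ (κ : ℝ) (m : ℕ), 0 < κ ∧ κ ≤ 1 ∧
  1 ≤ m ∧ ∀ (S : Type) [TopologicalSpace S] [T2Space S] (M : Hyp n S), M.Shr →
  ∀ (p : S) (ι : Es n →ₗᵢ[ℝ] Fs n) (g : Es n → ℝ) (σ : Es n → S), M.Nice p ι g σ →
  ‖M.X p‖ ≤ R → ∀ (V : S → Fs n) (Y : S → ℝ) (β : ℝ),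
  M.VSup V Y β (σ '' Metric.ball 0 (1/8)) →
  (∀ q ∈ σ '' Metric.ball (0 : Es n) (1/8), ‖V q‖ ≤ Λ ∧ 0 ≤ Y q) →
  (∀ u ∈ Metric.ball (0 : Es n) (1/8), ∀ u' ∈ Metric.ball (0 : Es n) (1/8),
    |Y (σ u) - Y (σ u')| ≤ Λ * ‖u - u'‖) →
  ∀ u1 ∈ Metric.ball (0 : Es n) (1/32), ∀ u2 ∈ Metric.ball (0 : Es n) (1/32),
  ∀ y : ℝ, 0 < y → y ≤ 1 → y ≤ Y (σ u1) → β ≤ κ * y ^ m → κ * y ^ m ≤ Y (σ u2)

/-- paraboloid lemma.  Proof: `D = |X - X p|²`, `|Lap D + ⟨V,∇D⟩| ≤ C := 2n + 2(R+1) + 2Λ + 1` on the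
section ball (tLD, `|y| ≤ 1`).  With `b = θ/(2C)`, minimise `Y + b D` over `σ(closedBall 0 r')`,
`r' = r/2`: an interior minimum point `q` would give `-bC ≤ Lap(-bD) + ⟨V,∇(-bD)⟩ ≤ -θ`, contradiction;
so the minimum is on `|u| = r'`, where `D ≥ r'²`: `Y(p) ≥ b r'²`, `κ = 1/(8C)`.  (uses tLD, tSGE) -/
def tPAR : Prop := ∀ (n : ℕ) (R Λ : ℝ), 0 ≤ R → 0 ≤ Λ → ∃ κ : ℝ, 0 < κ ∧
  ∀ (S : Type) [TopologicalSpace S] [T2Space S] (M : Hyp n S), M.Shr →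
  ∀ (p : S) (ι : Es n →ₗᵢ[ℝ] Fs n) (g : Es n → ℝ) (σ : Es n → S), M.Nice p ι g σ →
  ‖M.X p‖ ≤ R → ∀ (V : S → Fs n) (Y : S → ℝ) (θ r : ℝ), 0 < θ → 0 < r → r ≤ 1/16 →
  M.VSup V Y (-θ) (σ '' Metric.ball 0 r) →
  (∀ q ∈ σ '' Metric.ball (0 : Es n) r, ‖V q‖ ≤ Λ ∧ 0 ≤ Y q) →
  ContinuousOn (fun u => Y (σ u)) (Metric.ball 0 r) →
  κ * θ * r ^ 2 ≤ Y p

/-- Hopf lemma for `v = 1 + 2c - w`.  Proof: tHARN with `V = 0`, `β = 5c`: `Lap v = -2J - 2w(v - 2c)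
≤ 4cw ≤ 5c` (tLW; note `1 - w = v - 2c`, and `v ≥ c > 0`; if `v ≥ 2c` the last term is `≤ 0`); a
smooth function is a viscosity supersolution by `max_Lap` applied to `φ - v`; Lipschitz constant by
`sec_lip`, `|∇w|² ≤ 4wJ ≤ 8 e1 ≤ C` (tT3, tBER).  (uses tHARN, tLW, tT3, tBER) -/
def tHV : Prop := ∀ (n : ℕ) (R : ℝ), 0 ≤ R → ∃ (κ : ℝ) (m : ℕ), 0 < κ ∧ κ ≤ 1 ∧ 1 ≤ m ∧
  ∀ (S : Type) [TopologicalSpace S] [T2Space S] (M : Hyp n S) (c : ℝ), M.Std c →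
  ∀ (p : S) (ι : Es n →ₗᵢ[ℝ] Fs n) (g : Es n → ℝ) (σ : Es n → S), M.Nice p ι g σ →
  ‖M.X p‖ ≤ R →
  ∀ u1 ∈ Metric.ball (0 : Es n) (1/32), ∀ u2 ∈ Metric.ball (0 : Es n) (1/32),
  ∀ y : ℝ, 0 < y → y ≤ 1 → y ≤ M.vv c (σ u1) → 5 * c ≤ κ * y ^ m →
    κ * y ^ m ≤ M.vv c (σ u2)

/-- `J² ≤ C v` for `|X| ≤ R`.
Proof: let `j = J(p)`.  If `j ≤ 40 c` then `j² ≤ C c ≤ C v` (`J ≤ C`, `v > c`).  Else: every
`T_abc` is Lipschitz along the uniform section (tUGC, `sec_lip`, `|∇T_abc|² ≤ C` by tBER), so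
`√J` is Lipschitz and `J ≥ j/4` on `σ(ball 0 r)`, `r = min (1/16, √j/C')`; there
`Lap v ≤ -2J + 5c ≤ -j/2 + j/8 ≤ -j/4`; tPAR with `θ = j/4`: `v(p) ≥ κ (j/4) r² ≥ j²/C`.
(uses tPAR, tUGC, tLW, tBER, tT3) -/
def tJV : Prop := ∀ (n : ℕ) (R : ℝ), 0 ≤ R → ∃ C : ℝ, 0 < C ∧
  ∀ (S : Type) [TopologicalSpace S] [T2Space S] (M : Hyp n S) (c : ℝ), M.Std c →
  ∀ p, ‖M.X p‖ ≤ R → M.J p ^ 2 ≤ C * M.vv c p

/-- `v` stays small / stays positive after `k` steps.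
Proof: `k = 1`: tHV.  Small: given `η ≤ 1` let `δ = κ η^m/6`; if `v(q) ≥ η` then, since
`5c < 5 v(p) ≤ κ η^m`, `v(p) ≥ κ η^m > δ`, contradiction.  Positive: `y' = κ y^m`, `c₀ = κ y^m/5` (for
`y ≤ 1`; replace `y` by `min y 1`).  Induction on `k` (`Rch (k+1)` = `Rch k` then `Step`), with `R`
replaced by `R + k` (a step moves `X` by at most `1/16`).  Positive part: from `p` to `q`.
(uses tHV, tSGE) -/
def tCHN : Prop :=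
  (∀ (n k : ℕ) (R η : ℝ), 0 ≤ R → 0 < η → ∃ δ : ℝ, 0 < δ ∧
    ∀ (S : Type) [TopologicalSpace S] [T2Space S] (M : Hyp n S) (c : ℝ), M.Std c →
    ∀ p q, ‖M.X p‖ ≤ R → M.Rch k p q → M.vv c p ≤ δ → M.vv c q ≤ η) ∧
  (∀ (n k : ℕ) (R y : ℝ), 0 ≤ R → 0 < y → ∃ y' c0 : ℝ, 0 < y' ∧ 0 < c0 ∧
    ∀ (S : Type) [TopologicalSpace S] [T2Space S] (M : Hyp n S) (c : ℝ), M.Std c → c ≤ c0 →
    ∀ p q, ‖M.X p‖ ≤ R → M.Rch k p q → y ≤ M.vv c p → y' ≤ M.vv c q)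

/-- Landau inequality in a uniform section: if `|Z| ≤ ε ≤ 1` and the first and second tangential
derivatives are `≤ Λ` on `σ(ball 0 (1/32))` then `|δ_a Z(p)| ≤ C √ε`.
Proof: unit `h`, `0 < t < 1/32`, mean value: `Z(σ(t h)) - Z(p) = t ∑_a δ_a Z(σ(θh)) (ι h + (Dg(θh)h) N p)_a`
(`sec_fderiv_apply`); `|δ_a Z(σ(θ h)) - δ_a Z(p)| ≤ 2 √(n+1) Λ θ` (`sec_lip`) and
`∑ δ_a Z(p) N_a(p) = 0`, so `|∑_a δ_a Z(p) (ι h)_a| ≤ 2ε/t + C t`; `t = √ε/33`.  Finally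
`gr Z p = ι (prj ι (gr Z p))`. -/
def tLAND : Prop := ∀ (n : ℕ) (Λ : ℝ), 0 ≤ Λ → ∃ C : ℝ, 0 ≤ C ∧
  ∀ (S : Type) [TopologicalSpace S] [T2Space S] (M : Hyp n S)
    (p : S) (ι : Es n →ₗᵢ[ℝ] Fs n) (g : Es n → ℝ) (σ : Es n → S), M.Nice p ι g σ →
  ∀ (Z : S → ℝ) (ε : ℝ), 0 ≤ ε → ε ≤ 1 →
  (∀ u ∈ Metric.ball (0 : Es n) (1/32), M.Sm Z (σ u) ∧ |Z (σ u)| ≤ ε ∧
    (∀ a, |M.dl a Z (σ u)| ≤ Λ) ∧ ∀ a b, |M.dl a (M.dl b Z) (σ u)| ≤ Λ) →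
  ∀ a, |M.dl a Z p| ≤ C * Real.sqrt ε

/-- bounds for the derivatives of `H` up to order 3 and of `B`, for `|X| ≤ R`, `w ≤ 2`.
Proof: `|B_ab| ≤ 2`, `|δB|, |δδB| ≤ C` (tBER), `δ_c H = ∑ B_cd X_d` (tGH), Leibniz.
(uses tBER, tGH) -/
def tDDH : Prop := ∀ (n : ℕ) (R : ℝ), 0 ≤ R → ∃ Λ : ℝ, 0 ≤ Λ ∧
  ∀ (S : Type) [TopologicalSpace S] [T2Space S] (M : Hyp n S), M.Shr → (∀ p, M.w p ≤ 2) →
  ∀ p, ‖M.X p‖ ≤ R → (∀ a, |M.dl a M.H p| ≤ Λ) ∧ (∀ a b, |M.dl a (M.dl b M.H) p| ≤ Λ) ∧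
    ∀ a b c, |M.dl a (M.dl b (M.dl c M.H)) p| ≤ Λ

/-- structure where `v` is small.
Proof: for `|X p| ≤ R`, `v(p) ≤ δ`: on the uniform section ball of radius `1/32` `v ≤ η₁` (tCHN, one
step), `J ≤ √(C η₁)` (tJV), `|δ_b H| ≤ √((n+1)J)` (tT3); tLAND for `Z = δ_b H` gives
`|δ_a δ_b H (p)|` small (bounds by tDDH); then tHH: `B_ab - H (B²)_ab = δ_a δ_b H - ∑ T_abc X_c -
N_b ∑ (B²)_ac X_c` and `∑_c (B²)_ac X_c = ∑_d B_ad δ_d H` is small.  `|w - 1| ≤ 2c + v ≤ 3v`.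
(uses tCHN, tJV, tT3, tLAND, tDDH, tHH, tUGC, tGH) -/
def tSTR : Prop := ∀ (n : ℕ) (R η : ℝ), 0 ≤ R → 0 < η → ∃ δ : ℝ, 0 < δ ∧
  ∀ (S : Type) [TopologicalSpace S] [T2Space S] (M : Hyp n S) (c : ℝ), M.Std c →
  ∀ p, ‖M.X p‖ ≤ R → M.vv c p ≤ δ →
    M.vv c p ≤ η ∧ |M.w p - 1| ≤ η ∧ M.J p ≤ η ∧ M.gsq M.H p ≤ η ∧
    ∀ a b, |M.B a b p - M.H p * M.B2 a b p| ≤ η

/-- `|H| ≥ 0.95` where `w ≈ 1`, `B ≈ H B²`.  Proof: `w = ∑ B_ab B_ab ≈ H ∑ B_ab (B²)_ab`, and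
`∑ B_ab (B²)_ab ≈ H b4`, so `w ≤ H² b4 + C η ≤ H² w² + Cη`.  (uses tHW) -/
def tHLB : Prop := ∀ n : ℕ, ∃ η : ℝ, 0 < η ∧ ∀ (S : Type) [TopologicalSpace S] (M : Hyp n S)
  (p : S), |M.w p - 1| ≤ η → (∀ a b, |M.B a b p - M.H p * M.B2 a b p| ≤ η) →
  19/20 ≤ |M.H p|

/-! ## Group V: no intermediate values of `v` (Lemma A)

Constants: `t0 = 1/(20 n)`, `t2 = 1/(40 n)`, `a = 61 n + R²`.  Near-structure of `q` relative to `p`. -/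

/-- near-structure: with `e = N p` (`X^T = X + H N` is the tangential part) -/
def NSt {n : ℕ} {S : Type} [TopologicalSpace S] (M : Hyp n S) (p q : S) (η : ℝ) : Prop :=
  |(inner ℝ (M.N q) (M.N p)) ^ 2 + ‖M.Bv p (M.X q - M.X p)‖ ^ 2 - 1| ≤ η ∧
  ‖M.H p • M.Bv q (M.N p) - (M.N p - (inner ℝ (M.N q) (M.N p) : ℝ) • M.N q)‖ ≤ η ∧
  M.gsq M.H q ≤ η ∧ |M.w q - 1| ≤ η ∧ |M.H q ^ 2 - M.H p ^ 2| ≤ η ∧
  |(inner ℝ (M.X q) (M.N p) : ℝ) + M.H p * inner ℝ (M.N q) (M.N p)| ≤ η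

/-- the domain of the long section -/
def Kset {n : ℕ} {S : Type} [TopologicalSpace S] (M : Hyp n S) (p : S)
    (ι : Es n →ₗᵢ[ℝ] Fs n) (R : ℝ) : Set (Es n) :=
  {u | ‖M.Bv p (ι u)‖ ^ 2 < 1 - (1 / (40 * n)) ^ 2 ∧
    ‖(M.X p + M.H p • M.N p) + ι u‖ ^ 2 < 61 * n + R ^ 2}

/-- smallness along a lift whose normal stays on the side of `N p`.
Proof: by tVEL `X∘γ` is Lipschitz with constant `L/τ₀` on `[0,s]`; every `γ(t)` is reached from `p`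
in `k = ⌈40 L/τ₀⌉ + 1` steps (tRCH on `[0,t]`), and `|X(γ t)| ≤ R + L/τ₀`.  tCHN (first part) makes `v(γ t)`
smaller than the `δ` of tSTR for `R + L/τ₀`.  (uses tVEL, tRCH, tCHN, tSTR) -/
def tPTH : Prop := ∀ (n : ℕ) (R L τ0 η : ℝ), 0 ≤ R → 0 ≤ L → 0 < τ0 → 0 < η → ∃ δ : ℝ, 0 < δ ∧
  ∀ (S : Type) [TopologicalSpace S] [T2Space S] (M : Hyp n S) (c : ℝ), M.Std c →
  ∀ (p : S) (ι : Es n →ₗᵢ[ℝ] Fs n) (u : Es n) (s : ℝ) (γ : ℝ → S),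
    (∀ v, inner ℝ (ι v) (M.N p) = (0:ℝ)) → ‖M.X p‖ ≤ R → M.vv c p ≤ δ → ‖u‖ ≤ L →
    s ∈ Icc (0:ℝ) 1 → M.Lift p ι u s γ →
    (∀ t ∈ Icc (0:ℝ) s, τ0 ≤ inner ℝ (M.N (γ t)) (M.N p)) →
    ∀ t ∈ Icc (0:ℝ) s, M.vv c (γ t) ≤ η ∧ |M.w (γ t) - 1| ≤ η ∧ M.J (γ t) ≤ η ∧
      M.gsq M.H (γ t) ≤ η ∧
      ∀ a b, |M.B a b (γ t) - M.H (γ t) * M.B2 a b (γ t)| ≤ η

/-- near-structure along a lift whose normal stays on the side of `N p`.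
Proof.  Let all quantities of tPTH be `≤ η'` along the path, velocity `|ξ| ≤ L/τ₀` (tVEL).  Put
`H₀ = H(p)`, `P_ab(q) = N_a N_b + H₀ B_ab`, `P⁰ = P(p)`.  Along the path
`d/dt P_ab(γ) = ∑ ξ_c δ_c P_ab` (`Sm.comp_within`),
`δ_c P_ab = H₀ T_cab + N_a (H₀ B² - B)_cb + N_b (H₀ B² - B)_ca` (definition of `T3`), and
`H₀ B² - B = (H B² - B) + (H₀ - H) B²`, `|H - H₀| ≤ √η' L/τ₀`: all small, so `|P - P⁰| ≤ C√η'`.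
`V = P⁰ X + H₀ N` has derivative `P⁰ ξ - H₀ B ξ = (P⁰ - P) ξ` (`P ξ = H₀ B ξ` as `⟨ξ,N⟩ = 0`), and
`V(p) = N ⟨N,X⟩ + H₀ B X + H₀ N = H₀ ∇H(p)` (tGH) is small; so `V` is small.  `P⁰ N p = N p`:
- `⟨V, N p⟩ = ⟨X q, N p⟩ + H₀ ⟨N q, N p⟩` small (last item);
- write `D = X q - X p = D' + G N p`, `D' ⊥ N p`; `P⁰ D = H₀ B₀ D + G N p`; from `V(q) - V(p)` small:
  `H₀ (N q - N p) ≈ -P⁰ D = -H₀ B₀ D - G N p`, so `N q ≈ (1 - G/H₀) N p - B₀ D` (`|H₀| ≥ 0.95` by tHLB),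
  `⟨N q,N p⟩ ≈ 1 - G/H₀` and `1 = |N q|² ≈ ⟨N q,N p⟩² + |B₀ D|²` (first item; `|B₀ D|` is bounded);
- `P(q) N p ≈ P⁰ N p = N p` and `P(q) N p = ⟨N q, N p⟩ N q + H₀ B(q) N p` (second item).
(uses tPTH, tVEL, tHLB, tGH, tT3, tHW) -/
def tNS : Prop := ∀ (n : ℕ) (R L τ0 η : ℝ), 0 ≤ R → 0 ≤ L → 0 < τ0 → 0 < η → ∃ δ : ℝ, 0 < δ ∧
  ∀ (S : Type) [TopologicalSpace S] [T2Space S] (M : Hyp n S) (c : ℝ), M.Std c →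
  ∀ (p : S) (ι : Es n →ₗᵢ[ℝ] Fs n) (u : Es n) (s : ℝ) (γ : ℝ → S),
    (∀ v, inner ℝ (ι v) (M.N p) = (0:ℝ)) → ‖M.X p‖ ≤ R → M.vv c p ≤ δ → ‖u‖ ≤ L →
    s ∈ Icc (0:ℝ) 1 → M.Lift p ι u s γ →
    (∀ t ∈ Icc (0:ℝ) s, τ0 ≤ inner ℝ (M.N (γ t)) (M.N p)) → NSt M p (γ s) η

/-- the long section.  Proof: `ι` from `M.sec p`; tLIFT with `K = Kset M p ι R` (open, convex:
`‖B₀ ι u‖²` and `‖X^T + ι u‖²` are convex; contains 0 because `X^T` has norm `≤ R`; bounded: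
`‖u‖ ≤ √(61n+R²) + R =: L`), `τ₀ = 1/(80 n)`.  A priori bound: let `γ` be a lift on `[0,s]`; the set of
`s' ≤ s` with `⟨N(γ t),N p⟩ ≥ τ₀` on `[0,s']` is closed, contains 0; for such `s'` tNS (with
`η' = min η (t2²/4)`) gives `⟨N,N p⟩² ≥ 1 - ‖B₀(X(γ s') - X p)‖² - t2²/4`, and
`B₀ (X(γ s')-X p) = s' B₀ ι u` (tHW), so `⟨N,N p⟩² ≥ ¾ t2² > τ₀²`: the set is open.  Near-structure at all
points: tNS again; `Rch k`: tRCH with the Lipschitz bound `L/τ₀` from tVEL, `k ≥ 40 L/τ₀`, `k ≥ 1`.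
(uses tLIFT, tNS, tVEL, tRCH, tHW) -/
def tLSEC : Prop := ∀ (n : ℕ) (R : ℝ), 2 ≤ n → 0 ≤ R → ∃ k : ℕ, ∀ η : ℝ, 0 < η → ∃ δ : ℝ, 0 < δ ∧
  ∀ (S : Type) [TopologicalSpace S] [T2Space S] (M : Hyp n S) (c : ℝ), M.Std c →
  ∀ p : S, ‖M.X p‖ ≤ R → M.vv c p ≤ δ → ∃ ι g σ,
    IsSec M.X M.N p (Kset M p ι R) ι g σ ∧
    ∀ u ∈ Kset M p ι R, 1 / (80 * n) ≤ (inner ℝ (M.N (σ u)) (M.N p) : ℝ) ∧
      NSt M p (σ u) η ∧ M.Rch k p (σ u)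

/-- existence of the maximum point.  `t = ⟨N, N p⟩`, `A₁ = t - t0`, `A₂ = a - ρ`, `a = 61n + R²`,
`t0 = 1/(20n)`.
Proof.  On `K = Kset`, `f(u) = max(A₁,0)³ max(A₂,0)³ / v²` is continuous, positive at `0` (`t = 1`,
`ρ(p) ≤ R²`), and the set `{u ∈ K : t ≥ t0, ρ ≤ a}` is compact: it is bounded, and closed because it stays
away from the boundary of `K`: by NSt (first item, `B(p)(X(σ u) - X p) = B(p) ι u` by tHW)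
`‖B₀ ι u‖² ≤ 1 + η - t0² < 1 - t2²`, and `X(σ u) = (X^T + ι u) + ⟨X,e⟩ e`,
`X^T + ι u ⊥ e = N p`, so `‖X^T+ι u‖² = ρ - ⟨X,e⟩² ≤ a - (0.9 t0)²` because
`|⟨X,e⟩| ≥ |H₀| t - η` (last item).  So `f` attains its maximum at some `u₁` with `A₁, A₂ > 0`; `σ` is open,
so this is a local maximum on `S`.  (uses tHW; `η = min(t0²/4, 1/100, t0/100)`) -/
def tNM1 : Prop := ∀ (n : ℕ) (R : ℝ), 2 ≤ n → 0 ≤ R → ∃ η : ℝ, 0 < η ∧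
  ∀ (S : Type) [TopologicalSpace S] [T2Space S] (M : Hyp n S) (c : ℝ), M.Std c →
  ∀ (p : S) (ι : Es n →ₗᵢ[ℝ] Fs n) (g : Es n → ℝ) (σ : Es n → S),
    ‖M.X p‖ ≤ R → 9/10 ≤ M.H p ^ 2 → IsSec M.X M.N p (Kset M p ι R) ι g σ →
    (∀ u ∈ Kset M p ι R, 1 / (80 * n) ≤ (inner ℝ (M.N (σ u)) (M.N p) : ℝ) ∧
      NSt M p (σ u) η) →
    ∃ u ∈ Kset M p ι R, 1 / (20 * n) < (inner ℝ (M.N (σ u)) (M.N p) : ℝ) ∧
      M.rho (σ u) < 61 * n + R ^ 2 ∧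
      ∀ᶠ q in 𝓝 (σ u), ((inner ℝ (M.N q) (M.N p) : ℝ) - 1 / (20 * n)) ^ 3
          * (61 * n + R ^ 2 - M.rho q) ^ 3 / M.vv c q ^ 2
        ≤ ((inner ℝ (M.N (σ u)) (M.N p) : ℝ) - 1 / (20 * n)) ^ 3
          * (61 * n + R ^ 2 - M.rho (σ u)) ^ 3 / M.vv c (σ u) ^ 2

/-- the numerical heart: at such a maximum point `q` (with near-structure relative to `p`)
`v ≤ 13 c`.  `e = N p`.
Proof.  `Z = (3/2) log A₁ + (3/2) log A₂ - log v` has a local maximum at `q`: `∇v/v = (3/2)(∇A₁/A₁ +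
∇A₂/A₂)` and `Lap Z ≤ 0` (`Lap_log`), i.e.
`Lap v/v ≥ (3/2)[Lap A₁/A₁ - |∇A₁|²/A₁² + Lap A₂/A₂ - |∇A₂|²/A₂²] + (9/4)|∇A₁/A₁ + ∇A₂/A₂|²`
`= (3/2) Lap A₁/A₁ + (3/4)|∇A₁|²/A₁² + (3/2) Lap A₂/A₂ + (3/4)|∇A₂|²/A₂² + (9/2)⟨∇A₁,∇A₂⟩/(A₁A₂)`.
Here `Lap A₁ = -w t`, `∇A₁ = -B e`, `H₀²|∇A₁|² ≥ 1 - t² - 4η` (NSt), `H₀² ≤ n(1+c)` (tHW), `Lap A₂ = 2ρ - 2n`,
`|∇A₂|² = 4(ρ - H²)`, `⟨∇A₁,∇A₂⟩ = 2⟨B e, X⟩ = 2⟨e,∇H⟩ ≥ -2√η`.  Estimates (`x = A₁ ∈ (0,1)`, `n ≥ 2`):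
(i) `x ≤ 0.9`: `-(3/2)w t/x + (3/4)|∇A₁|²/A₁² ≥ -(3/2)w + (0.03/n)/x²` because
`(3/4)(1-t²-4η)/(1.01 n) - (3/2)(1.01) x/(20 n) ≥ 0.03/n` (at `x = 0.9`, `t ≤ 0.925`, `1 - t² ≥ 0.144`);
(ii) `x > 0.9`: `≥ -(3/2)w - 0.045`;
(iii) `(3/2)(2ρ-2n)/A₂ ≥ -3n/(a-n) ≥ -0.05` and `(3/4)|∇A₂|²/A₂² = 3(ρ-H²)/A₂² ≥ 0`, and it is
`≥ 2.9/A₂²` if `ρ ≥ 2n`; if `ρ < 2n`, `A₂ ≥ 59`;
(iv) the mixed term `≥ -9√η/(A₁A₂) ≥ -4.5√η (1/A₁² + 1/A₂²)` is absorbed by (i), (iii) or small.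
So `Lap v/v ≥ -(3/2) w - 0.1 - small ≥ -1.67 w` (`w ≥ 1 - η`).  But `Lap v ≤ -2w(v-2c)` (tLW), so
`2(1 - 2c/v) ≤ 1.67`, `v ≤ 12.2 c`.  (uses tLX, tLW, tHW, tGH) -/
def tNM2 : Prop := ∀ (n : ℕ) (R : ℝ), 2 ≤ n → 0 ≤ R → ∃ η : ℝ, 0 < η ∧
  ∀ (S : Type) [TopologicalSpace S] [T2Space S] (M : Hyp n S) (c : ℝ), M.Std c →
  ∀ (p q : S), 9/10 ≤ M.H p ^ 2 → NSt M p q η →
    1 / (20 * n) < (inner ℝ (M.N q) (M.N p) : ℝ) → M.rho q < 61 * n + R ^ 2 →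
    (∀ᶠ q' in 𝓝 q, ((inner ℝ (M.N q') (M.N p) : ℝ) - 1 / (20 * n)) ^ 3
          * (61 * n + R ^ 2 - M.rho q') ^ 3 / M.vv c q' ^ 2
        ≤ ((inner ℝ (M.N q) (M.N p) : ℝ) - 1 / (20 * n)) ^ 3
          * (61 * n + R ^ 2 - M.rho q) ^ 3 / M.vv c q ^ 2) →
    M.vv c q ≤ 13 * c

/-- Lemma A: no intermediate values of `v`.
Proof: `η` = minimum of those of tNM1, tNM2 (NSt is monotone in `η`), `k` and `δ` from tLSEC (and `δ` so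
small that `H(p)² ≥ 9/10`, by tSTR, tHLB); `δs = min δ (1/4)`.
Given `δ1`, tCHN (second part, `k` steps, `y = δ1`) gives `y', c0'`; `c0 = min c0' (y'/14)`: if
`δ1 ≤ v(p) ≤ δs` then `v(σ u) ≥ y' > 13 c` for all `u ∈ K`, contradicting tNM1 + tNM2.
(uses tNM1, tNM2, tLSEC, tCHN, tSTR, tHLB) -/
def tLEMA : Prop := ∀ (n : ℕ) (R : ℝ), 2 ≤ n → 0 ≤ R → ∃ δs : ℝ, 0 < δs ∧ δs ≤ 1/4 ∧
  ∀ δ1 : ℝ, 0 < δ1 → δ1 ≤ δs → ∃ c0 : ℝ, 0 < c0 ∧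
  ∀ (S : Type) [TopologicalSpace S] [T2Space S] (M : Hyp n S) (c : ℝ), M.Std c → c ≤ c0 →
  ∀ p : S, ‖M.X p‖ ≤ R → ¬ (δ1 ≤ M.vv c p ∧ M.vv c p ≤ δs)

/-! ## Group VI: the dichotomy on a large ball -/

/-- lower barrier for `v` on the low part `{v > δb}`.
Proof: the set `{ρ ≤ R1², v ≥ δb}` is compact and relatively open in `{ρ ≤ R1²}` (it is also
`{v ≥ δ1}`).  Minimise `Z = v - δa (1 - ρ/R1²)`.  If the minimum is negative it is attained at `p` with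
`ρ(p) < R1²` (`Z = v > 0` on `ρ = R1²`); if `ρ(p) ≤ 2n` then `v > δa` and `Z > 0`; so `ρ(p) > 2n`,
`p` is a local minimum, `0 ≤ Lap Z = Lap v + δa (2n - 2ρ)/R1² ≤ 5c - 2n δa/R1² < 0`.
(uses tLW, tLX) -/
def tLOWA : Prop := ∀ (n : ℕ), 1 ≤ n → ∀ (S : Type) [TopologicalSpace S] [T2Space S]
  (M : Hyp n S) (c δ1 δb δa R1 : ℝ), M.Std c → 0 < δ1 → δ1 < δb → δb ≤ δa → 0 < R1 →
  5 * c * R1 ^ 2 < 2 * n * δa →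
  (∀ p, M.rho p ≤ 2 * n → M.vv c p < δ1 ∨ δa < M.vv c p) →
  (∀ p, M.rho p ≤ R1 ^ 2 → M.vv c p < δ1 ∨ δb < M.vv c p) →
  ∀ p, M.rho p ≤ R1 ^ 2 → δb < M.vv c p → δa * (1 - M.rho p / R1 ^ 2) ≤ M.vv c p

/-- `w` is tiny on the low part, deep inside.
Proof: on `{ρ ≤ R1²/2, v > δb}` `v ≥ δa/2`, so `Lap w ≥ 2w(v-2c) ≥ (δa/2) w` for `c ≤ δa/8`.  Barrier
`f = 2 exp(λ(ρ - R1²/2))`, `λ = δa/(8n) ≤ 1/2`: `Lap f = f (λ(2n-2ρ) + 4λ²(ρ-H²)) ≤ 2nλ f = (δa/4) f`.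
A positive interior maximum of `w - f` is impossible (`Lap w ≥ (δa/2) w > (δa/2) f > Lap f`), on
`ρ = R1²/2` `w < 2 = f`.  So `w ≤ 2 exp(λ(r0² - R1²/2)) ≤ εw` for `ρ ≤ r0²`, `R1` large.
Compactness as in the previous target.  (uses tLW, tLX) -/
def tLOWC : Prop := ∀ (n : ℕ) (δa εw r0 : ℝ), 1 ≤ n → 0 < δa → δa ≤ 1/4 → 0 < εw → ∃ Rm : ℝ,
  ∀ R1 : ℝ, Rm ≤ R1 → ∀ (S : Type) [TopologicalSpace S] [T2Space S]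
  (M : Hyp n S) (c δ1 δb : ℝ), M.Std c → c ≤ δa / 8 → 0 < δ1 → δ1 < δb →
  (∀ p, M.rho p ≤ R1 ^ 2 → M.vv c p < δ1 ∨ δb < M.vv c p) →
  (∀ p, M.rho p ≤ R1 ^ 2 → δb < M.vv c p → δa * (1 - M.rho p / R1 ^ 2) ≤ M.vv c p) →
  ∀ p, M.rho p ≤ r0 ^ 2 → δb < M.vv c p → M.w p ≤ εw

/-- base of the continuation: on any fixed ball `|H| ≥ 0.95` or `w ≤ εw` if `c` is small.
Proof: `δa` = `δs` of tLEMA for `R = √(2n)`; `R1 ≥ r0` from tLOWC (also `R1² ≥ 2n`); `δb = min δa (δs of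
tLEMA for R1)`, `δ1 < δb` so small that `v ≤ δ1`, `ρ ≤ R1²` implies `|H| ≥ 0.95` (tSTR, tHLB); `c0` from
tLEMA (twice, `δ1` halved if necessary), `5 c R1² < 2nδa`, `c ≤ δa/8`.  (uses tLEMA, tLOWA, tLOWC,
tSTR, tHLB) -/
def tBASE : Prop := ∀ (n : ℕ) (r0 εw : ℝ), 2 ≤ n → 0 < εw → ∃ c0 : ℝ, 0 < c0 ∧
  ∀ (S : Type) [TopologicalSpace S] [T2Space S] (M : Hyp n S) (c : ℝ), M.Std c → c ≤ c0 →
  ∀ p : S, M.rho p ≤ r0 → 19/20 ≤ |M.H p| ∨ M.w p ≤ εw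

/-! ## Group VII: continuation to the whole hypersurface -/

/-- the dichotomy on `{ρ ≤ r}` -/
def Dich {n : ℕ} {S : Type} [TopologicalSpace S] (M : Hyp n S) (r : ℝ) : Prop :=
  ∀ p, M.rho p ≤ r → 9/20 < |M.H p| ∨ M.w p < 1 / (25 * n)

/-- low part: `w ≤ (1/(25n)) exp((ρ - r)/(4n))`.
Proof: the set `{ρ ≤ r, w < 1/(25n)} = {ρ ≤ r, |H| ≤ 9/20}` is compact (the alternatives exclude each
other because `H² ≤ n w`), and relatively open.  Maximise `w - f`, `f = (1/(25n)) exp((ρ-r)/(4n))`: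
at an interior positive maximum `Lap w ≥ 2w(1-w) ≥ w > f`, but
`Lap f = f ((2n-2ρ)/(4n) + 4(ρ-H²)/(16n²)) ≤ f/2` (`n ≥ 1`); on `ρ = r` `w < f`.
(uses tLW, tLX, tHW) -/
def tLOWE : Prop := ∀ (n : ℕ), 1 ≤ n → ∀ (S : Type) [TopologicalSpace S] [T2Space S]
  (M : Hyp n S) (c r : ℝ), M.Std c → Dich M r →
  ∀ p, M.rho p ≤ r → M.w p < 1 / (25 * n) →
    M.w p ≤ (1 / (25 * n)) * Real.exp ((M.rho p - r) / (4 * n))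

/-- the weighted barrier `b = 4n exp((ρ - r)/8)/|H|` -/
def bb {n : ℕ} {S : Type} [TopologicalSpace S] (M : Hyp n S) (r : ℝ) : S → ℝ :=
  fun q => 4 * n * Real.exp ((M.rho q - r) / 8) / |M.H q|

/-- `Ψ(q,e) = -τ_q(e,e) + σ F(q) - b(q)`, `σ = 1/(100 r)` -/
def Psi {n : ℕ} {S : Type} [TopologicalSpace S] (M : Hyp n S) (r : ℝ) (q : S) (e : Fs n) : ℝ :=
  - M.tq e q + (1 / (100 * r)) * M.Fq q - bb M r q

/-- `(q,e)` admissible: `ρ ≤ r`, `|H| > 9/20`, `e` a unit tangent vector -/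
def Adm {n : ℕ} {S : Type} [TopologicalSpace S] (M : Hyp n S) (r : ℝ) (q : S) (e : Fs n) : Prop :=
  M.rho q ≤ r ∧ 9/20 < |M.H q| ∧ ‖e‖ = 1 ∧ inner ℝ e (M.N q) = (0:ℝ)

/-- `ℒ b = b [ (n-ρ)/4 + (ρ-H²)/16 - (1-w) ]`, so `ℒ b < 0` for `ρ ≥ 2n` and
`ℒ b ≤ C e^(-r/8)` for `ρ ≤ 4n + 9`; bounds of `b` and `∇b` there; `b ≥ 3` on `ρ = r`.
Proof: tLLR with `f = 4n exp((ρ-r)/8)`, `Lap f = f[(2n-2ρ)/8 + 4(ρ-H²)/64]` (`Lap_exp`, tLX);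
`c < n/8`; `|H| ≤ √(1.01 n)`; `∇b = b (∇ρ/8 - ζ)`, `|∇H|² = |BX|² ≤ 2ρ`, `b² ≤ C b e^(-r/8)`.
(uses tLLR, tLX, tHW, tGH) -/
def tLBB : Prop := ∀ n : ℕ, 1 ≤ n → ∃ C : ℝ, 0 < C ∧ ∀ (S : Type) [TopologicalSpace S]
  (M : Hyp n S) (c r : ℝ), M.Std c → 1 ≤ r → ∀ p, 9/20 < |M.H p| →
  M.Sm (bb M r) p ∧ (2 * n ≤ M.rho p → M.LL (bb M r) p < 0) ∧ (M.rho p = r → 3 ≤ bb M r p) ∧
  0 < bb M r p ∧ bb M r p ≤ (80/9) * n * Real.exp ((M.rho p - r) / 8) ∧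
  (M.rho p ≤ 4 * n + 9 → M.LL (bb M r) p ≤ C * Real.exp (-r / 8) ∧
    M.gsq (bb M r) p ≤ C * Real.exp (-r / 8))

/-- maximum of `Ψ`, existence: either `Ψ ≤ 0` or there is a maximising pair with `ρ < r`, and its vector is
an eigenvector.
Proof: the set of admissible pairs is compact: it is the compact set `{ρ ≤ r, w ≥ 1/(25n)}` (by `Dich` and
`H² ≤ n w` this is `{ρ ≤ r, |H| > 9/20}`) together with a closed condition on unit vectors; `Ψ` is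
continuous on it.  On `ρ = r`: `-τ(e,e) + σF ≤ √F + σ F < 3 ≤ b` (`F = w/H² ≤ 5`,
`|τ(e,e)| ≤ √F`).  So if `Ψ > 0` somewhere the maximum point `(p,e)` has `ρ(p) < r`.  `e`
minimises `τ_p(e',e')` over unit tangent `e'`; first variation (`e' = (e + t f)/|e + t f|`, `f` tangent) gives
`B(p) e = τ(e,e) H(p) e` (both sides orthogonal to `N p`).  (uses tLBB, tHW) -/
def tMX1 : Prop := ∀ (n : ℕ), 1 ≤ n → ∀ (S : Type) [TopologicalSpace S] [T2Space S]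
  (M : Hyp n S) (c r : ℝ), M.Std c → 1 ≤ r → 2 * n ≤ r → Dich M r →
  (∀ q e, Adm M r q e → Psi M r q e ≤ 0) ∨
  ∃ p e, M.rho p < r ∧ Adm M r p e ∧ 0 < Psi M r p e ∧
    (∀ q e', Adm M r q e' → Psi M r q e' ≤ Psi M r p e) ∧ M.Bv p e = (M.tq e p * M.H p) • e

/-- maximum of `Ψ`: either `Ψ ≤ 0` or it is attained at a point with `ρ < 2n`.
Proof: `(p,e)` from tMX1.  `{ρ < r, |H| > 9/20}` is a neighbourhood of `p`; for `q` near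
`p`, `ϑ(q) = τ_q(e,e)/(1-⟨e,N q⟩²) = τ_q(e',e')`, `e' = e^T/|e^T|` unit tangent at `q` (`B(q)` kills `N q`); so
`-ϑ + σF - b` has a local maximum at `p`; `max_Lap`, tTHE, tLLF: `0 ≥ ℒ(-ϑ+σF-b) = 2σ|𝒮|² - ℒ b`,
so `ℒ b (p) ≥ 0` and `ρ(p) < 2n` by tLBB.  (uses tMX1, tTHE, tLLF, tLBB, tHW) -/
def tMXP : Prop := ∀ (n : ℕ), 1 ≤ n → ∀ (S : Type) [TopologicalSpace S] [T2Space S]
  (M : Hyp n S) (c r : ℝ), M.Std c → 1 ≤ r → 2 * n ≤ r → Dich M r →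
  (∀ q e, Adm M r q e → Psi M r q e ≤ 0) ∨
  ∃ p e, M.rho p < 2 * n ∧ Adm M r p e ∧ 0 < Psi M r p e ∧
    (∀ q e', Adm M r q e' → Psi M r q e' ≤ Psi M r p e) ∧ M.Bv p e = (M.tq e p * M.H p) • e

/-- the smallest eigenvalue of `τ` on the tangent space -/
def lam {n : ℕ} {S : Type} [TopologicalSpace S] (M : Hyp n S) (q : S) : ℝ :=
  sInf ((fun e => M.tq e q) '' {e : Fs n | ‖e‖ = 1 ∧ inner ℝ e (M.N q) = (0:ℝ)})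

/-- properties of `lam`: attained (with eigenvector equation), lower bound, Lipschitz in uniform
sections contained in `{|H| ≥ 2/5}`, `|X| ≤ R`.
Proof: compactness of the unit tangent sphere (nonempty as `n ≥ 1`); first variation for the
eigenvector equation.  Lipschitz: `τ_ab` has gradient `≤ C_R` on `{|H| ≥ 2/5}` (tBER, `Sm.tau`,
`dl_div`), `N` too; if `e` is optimal at `q'`, use `e^T/|e^T|` at `q` when `|N q - N q'| ≤ 1/2`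
(always true inside a uniform section).  (uses tBER, tSGE, tHW) -/
def tLAM : Prop := ∀ (n : ℕ) (R : ℝ), 1 ≤ n → 0 ≤ R → ∃ Λ : ℝ, 0 ≤ Λ ∧
  ∀ (S : Type) [TopologicalSpace S] [T2Space S] (M : Hyp n S), M.Shr → (∀ p, M.w p ≤ 2) →
  (∀ q, ∃ e : Fs n, ‖e‖ = 1 ∧ inner ℝ e (M.N q) = (0:ℝ) ∧ M.tq e q = lam M q) ∧
  (∀ q, ∀ e : Fs n, ‖e‖ = 1 → inner ℝ e (M.N q) = (0:ℝ) → lam M q ≤ M.tq e q) ∧
  (∀ q, M.H q ≠ 0 → ∀ e : Fs n, ‖e‖ = 1 → inner ℝ e (M.N q) = (0:ℝ) → M.tq e q = lam M q →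
    M.Bv q e = (lam M q * M.H q) • e) ∧
  (∀ (p : S) (ι : Es n →ₗᵢ[ℝ] Fs n) (g : Es n → ℝ) (σ : Es n → S), M.Nice p ι g σ →
    ‖M.X p‖ ≤ R → (∀ q ∈ σ '' Metric.ball (0 : Es n) (1/8), 2/5 ≤ |M.H q|) →
    ∀ u ∈ Metric.ball (0 : Es n) (1/8), ∀ u' ∈ Metric.ball (0 : Es n) (1/8),
      |lam M (σ u) - lam M (σ u')| ≤ Λ * ‖u - u'‖)

/-- viscosity inequality for `Y = const + b - σF + lam`: a smooth `φ` touching `Y` from below at `q`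
satisfies `Lap φ + ⟨2ζ,∇φ⟩ ≤ ℒ b - 2σ|𝒮|²`.
Proof: take `e` with `τ_q(e,e) = lam(q)`, `ϑ ≥ lam` near `q` with equality at `q` (as in tMXP), so
`ϑ + b - σF - φ` has a local minimum at `q`; `min_Lap`, tTHE, tLLF.  (uses tTHE, tLLF, tLBB, tLAM) -/
def tVIS : Prop := ∀ (n : ℕ), 1 ≤ n → ∀ (S : Type) [TopologicalSpace S] [T2Space S]
  (M : Hyp n S) (c r : ℝ), M.Std c → 1 ≤ r → ∀ (q : S), 9/20 < |M.H q| →
  ∀ (φ : S → ℝ), M.Sm φ q →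
  (∀ᶠ q' in 𝓝 q, φ q' - φ q ≤ (bb M r q' - (1 / (100 * r)) * M.Fq q' + lam M q')
    - (bb M r q - (1 / (100 * r)) * M.Fq q + lam M q)) →
  M.Lap φ q + 2 * ∑ a, M.ze a q * M.dl a φ q
    ≤ M.LL (bb M r) q - 2 * (1 / (100 * r)) * M.ssq q

/-- Lipschitz and size bounds on `{|H| ≥ 2/5, |X| ≤ R}`: `|ζ|`, `F`, `|∇F|`, `|𝒮|`, `|∇𝒮_abc|`,
`|τ|`, first and second derivatives of the functions `ζ_a τ_bc`.
Proof: everything is a rational function of `X, N, B, DB` (`ζ = BX/H`, tGH) with denominator a power of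
`H`; tBER.  (uses tBER, tGH) -/
def tBDS : Prop := ∀ (n : ℕ) (R : ℝ), 0 ≤ R → ∃ Λ : ℝ, 0 ≤ Λ ∧
  ∀ (S : Type) [TopologicalSpace S] [T2Space S] (M : Hyp n S), M.Shr → (∀ p, M.w p ≤ 2) →
  ∀ p, ‖M.X p‖ ≤ R → 2/5 ≤ |M.H p| →
    (∀ a, |M.ze a p| ≤ Λ) ∧ M.Fq p ≤ Λ ∧ M.gsq M.Fq p ≤ Λ ∧ M.ssq p ≤ Λ ∧
    (∀ a b c, M.gsq (M.S3 a b c) p ≤ Λ) ∧
    (∀ a b c f, |M.dl f (fun q => M.ze a q * M.tau b c q) p| ≤ Λ) ∧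
    (∀ a b c f f', |M.dl f' (M.dl f (fun q => M.ze a q * M.tau b c q)) p| ≤ Λ)

/-- the function `Y = S4 + b - σF + lam` (`S4 = Ψ(p,e)`) is tiny near the maximum point of `Ψ`.
Proof.  `(p,e)` as in tMXP; `Y ≥ 0` where `ρ ≤ r`, `|H| > 9/20` (tLAM: `lam` attained), `Y(p) = 0` (`e` realises
`lam(p)`, since a better vector would increase `Ψ`).  The section ball `σ(ball 0 (1/8))` lies in
`{ρ ≤ 4n+9 ≤ r}` (`|X| ≤ √(2n) + 0.13`) and in `{|H| > 9/20}` (it is preconnected, contains `p`, and by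
`Dich`, `H² ≤ n w` the relatively open sets `{|H| > 9/20}`, `{w < 1/(25n)}` are disjoint on it and cover
it).  There tVIS and tLBB give `VSup (2ζ) Y β`, `β = C e^(-r/8)`.  Lipschitz constants: tLBB, tBDS, tLAM.
tHARN with `y = r^(-40)`: if `Y(σ u) ≥ y` for some `|u| < 1/32` then, as `β ≤ κ y^m` for large `r`,
`Y(p) ≥ κ y^m > 0`, contradiction.  (uses tHARN, tVIS, tLAM, tBDS, tLBB, tHW, tSGE) -/
def tSS1 : Prop := ∀ (n : ℕ), 1 ≤ n → ∃ ρ0 : ℝ, 1 ≤ ρ0 ∧ 4 * n + 9 ≤ ρ0 ∧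
  ∀ (S : Type) [TopologicalSpace S] [T2Space S]
  (M : Hyp n S) (c r : ℝ), M.Std c → ρ0 ≤ r → Dich M r → ∀ (p : S) (e : Fs n),
  M.rho p < 2 * n → Adm M r p e → 0 < Psi M r p e →
  (∀ q e', Adm M r q e' → Psi M r q e' ≤ Psi M r p e) →
  ∀ (ι : Es n →ₗᵢ[ℝ] Fs n) (g : Es n → ℝ) (σ : Es n → S), M.Nice p ι g σ →
  (∀ u ∈ Metric.ball (0 : Es n) (1/8), M.rho (σ u) ≤ 4 * n + 9 ∧ 9/20 < |M.H (σ u)|) ∧
  ∀ u ∈ Metric.ball (0 : Es n) (1/32),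
    Psi M r p e + bb M r (σ u) - (1 / (100 * r)) * M.Fq (σ u) + lam M (σ u) ≤ (r ^ 40)⁻¹

/-- `𝒮` is tiny near the maximum point of `Ψ`.
Proof.  Let `q = σ u`, `|u| < 1/32`, `Y(q) ≤ r^(-40)` (tSS1), `s = √ssq(q)`, and suppose `s ≥ r^(-4)`.  Take a
uniform section at `q` (tUGC); on its ball of radius `1/16` `ρ ≤ 4n+9`, `|H| > 9/20` (as in tSS1:
preconnected).  `√ssq` is Lipschitz there (tBDS, `sec_lip`), so `ssq ≥ s²/4` on the ball of radius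
`ρ₁ = min(1/16, s/C)`; by tVIS, tLBB a function touching `Y` from below satisfies
`ℒφ ≤ C e^(-r/8) - s²/(200 r) ≤ -θ`, `θ = s²/(400 r)`, for `r` large; `Y ≥ 0` there.  tPAR (`V = 2ζ`):
`r^(-40) ≥ Y(q) ≥ κ θ ρ₁² ≥ c r^(-1) s⁴ ≥ c r^(-17)`, false for large `r`.  So `ssq(q) ≤ r^(-8)`.
(uses tSS1, tPAR, tVIS, tLAM, tBDS, tLBB, tUGC, tHW, tSGE) -/
def tSSM : Prop := ∀ (n : ℕ), 1 ≤ n → ∃ ρ0 : ℝ, 1 ≤ ρ0 ∧ 4 * n + 9 ≤ ρ0 ∧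
  ∀ (S : Type) [TopologicalSpace S] [T2Space S]
  (M : Hyp n S) (c r : ℝ), M.Std c → ρ0 ≤ r → Dich M r → ∀ (p : S) (e : Fs n),
  M.rho p < 2 * n → Adm M r p e → 0 < Psi M r p e →
  (∀ q e', Adm M r q e' → Psi M r q e' ≤ Psi M r p e) →
  ∀ (ι : Es n →ₗᵢ[ℝ] Fs n) (g : Es n → ℝ) (σ : Es n → S), M.Nice p ι g σ →
  ∀ u ∈ Metric.ball (0 : Es n) (1/32), 9/20 < |M.H (σ u)| ∧ M.ssq (σ u) ≤ (r ^ 8)⁻¹

/-- the rigidity step: where `𝒮` is small near `p` the negative eigenvalue is small.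
Proof: `e` eigenvector of `τ(p)` with eigenvalue `-a₀ < 0`.  Choose a unit tangent `f ⊥ e` with
`τ(f,f) ≥ 1/n` (trace 1; `n ≥ 2`); `τ(e,f) = 0`.  Put
`T̂ = ∑ e_a f_b f_c (ζ_a τ_bc - ζ_b τ_ac)` (fixed vectors).  By the Codazzi identity of tTAU
`|T̂| ≤ 2|𝒮| ≤ 2ε` on `σ(ball 0 (1/32))`; first and second derivatives bounded (tBDS); tLAND:
`|∑ e_a δ_a T̂(p)| ≤ C √ε`.  At `p`, by tTAU,
`δ_e T̂ = (δ_e ζ_e) τ_ff + ζ_e δ_e τ_ff - (δ_e ζ_f) τ_ef - ζ_f δ_e τ_ef`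
`= (δ_e ζ_e) τ_ff + O(ε)`, `δ_e ζ_e = ∑ 𝒮_eec X_c - a₀ - H² a₀²` (`(B²)_ee = H²a₀²`).  So
`a₀/n ≤ C√ε`.  (uses tTAU, tBDS, tLAND) -/
def tA0 : Prop := ∀ (n : ℕ), 2 ≤ n → ∃ C : ℝ, 0 ≤ C ∧
  ∀ (S : Type) [TopologicalSpace S] [T2Space S] (M : Hyp n S) (c : ℝ), M.Std c →
  ∀ (p : S) (ι : Es n →ₗᵢ[ℝ] Fs n) (g : Es n → ℝ) (σ : Es n → S), M.Nice p ι g σ →
  M.rho p < 2 * n → ∀ (e : Fs n) (ε : ℝ), 0 ≤ ε → ε ≤ 1 → ‖e‖ = 1 →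
  inner ℝ e (M.N p) = (0:ℝ) → M.tq e p < 0 → M.Bv p e = (M.tq e p * M.H p) • e →
  (∀ u ∈ Metric.ball (0 : Es n) (1/32), 9/20 < |M.H (σ u)| ∧ M.ssq (σ u) ≤ ε ^ 2) →
  - M.tq e p ≤ C * Real.sqrt ε

/-- almost convexity of the cylindrical part: `-τ(e,e) ≤ 1/(10 r) + b`.
Proof: tMXP; in the second case `a₀ = -τ_p(e,e)`; if `a₀ ≤ 0`, `Ψ(p,e) ≤ σF ≤ 5/(100 r)`; otherwise
tSSM and tA0 with `ε = r^(-4)`: `a₀ ≤ C r^(-2) ≤ 1/(100 r)` for `r` large, so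
`Ψ(p,e) ≤ a₀ + 5σ ≤ 6/(100 r)`.  Then `-τ(e,e) ≤ Ψ(p,e) + b - σF`.  (uses tMXP, tSSM, tA0, tUGC) -/
def tNEG : Prop := ∀ (n : ℕ), 2 ≤ n → ∃ ρ0 : ℝ, 1 ≤ ρ0 ∧
  ∀ (S : Type) [TopologicalSpace S] [T2Space S] (M : Hyp n S) (c r : ℝ), M.Std c → ρ0 ≤ r →
  Dich M r → ∀ q e, Adm M r q e → - M.tq e q ≤ 1 / (10 * r) + bb M r q

/-- lower bound of `|H|` deep inside.
Proof: `κ(x) = (320/9)·n·... exp((x-r)/8)`: take `κ(x) = 36 n exp((x - r)/8)`, so that `2κ' = 9 n exp ≥ b` (tLBB: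
`b ≤ (80/9) n exp`), and `ε' = 1/(19 r)`.  Minimise `Y = log|H| + κ(ρ) + ε' ρ` over the compact set
`{ρ ≤ r, |H| > 9/20}`.  Boundary `ρ = r`: `Y ≥ log(9/20) + 36 n > 0`.  Interior: `δ_a Y = 0`; contract with
`X_a`: `∑ X_a ζ_a + 2(κ'+ε')(ρ - H²) = 0` (`∑ X_a δ_a ρ = 2(ρ-H²)`, tLX), and `∑ X_a ζ_a = τ(X,X) =
τ(X^T,X^T) ≥ -(1/(10r) + b)(ρ-H²)` (`|X^T|² = ρ - H²`); since `2(κ'+ε') > 1/(10r) + b` this forces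
`ρ = H² ≤ 1.01 n ≤ 2n`, where `|H| ≥ 19/20` by hypothesis (the other alternative is excluded by
`|H| > 9/20`).  So `log|H(q)| ≥ log(19/20) - κ(ρ(q)) - 1/19 ≥ log(21/25)` for `ρ(q) ≤ r - D`.
(uses tLX, tLBB, tHW, tTAU, tGH) -/
def tLOGH : Prop := ∀ (n : ℕ), 1 ≤ n → ∃ D : ℝ, 0 < D ∧
  ∀ (S : Type) [TopologicalSpace S] [T2Space S] (M : Hyp n S) (c r : ℝ), M.Std c → 1 ≤ r →
  2 * n ≤ r → Dich M r →
  (∀ p, M.rho p ≤ 2 * n → 19/20 ≤ |M.H p| ∨ M.w p ≤ 1 / (200 * n)) →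
  (∀ q e, Adm M r q e → - M.tq e q ≤ 1 / (10 * r) + bb M r q) →
  ∀ p, M.rho p ≤ r - D → 9/20 < |M.H p| → 21/25 ≤ |M.H p|

/-- inward motion: from a far point one reaches `ρ - D` by a short move.
Proof: uniform section at `q` (tUGC), `h = -prj ι (X q)/|..|`, `|prj ι (X q)|² = ρ - H² ≥ ρ - 2n`.
`ρ(σ(s h)) = ρ(q) - 2s√(ρ-H²) + s² - 2 g H + g²`, `|g| ≤ s/4`, `|H| ≤ √(2n)`: for `s = (D+1)/√ρ(q)` small
this is `≤ ρ(q) - D`.  `|H(σ(sh)) - H(q)| ≤ C s`, `|w(σ(sh)) - w(q)| ≤ C s` by `sec_lip`, tT3, tBER.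
(uses tUGC, tT3, tBER, tHW) -/
def tINW : Prop := ∀ (n : ℕ) (D η : ℝ), 0 < D → 0 < η → ∃ ρ0 : ℝ, 1 ≤ ρ0 ∧
  ∀ (S : Type) [TopologicalSpace S] [T2Space S] (M : Hyp n S) (c : ℝ), M.Std c →
  ∀ q, ρ0 ≤ M.rho q → ∃ q', M.rho q' ≤ M.rho q - D ∧ |M.H q' - M.H q| ≤ η ∧
    |M.w q' - M.w q| ≤ η

/-- one step of the continuation.
Proof: given `q` with `r < ρ(q) ≤ r+1` take `q'` with `ρ(q') ≤ r - D'`, `D' = max D (8 n)`, `η = 1/(200n)`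
(tINW with `D'+1`; `ρ(q) - (D'+1) ≤ r - D'`).  At `q'`: `|H(q')| > 9/20` gives `|H(q')| ≥ 21/25` (tLOGH with
tNEG) and `|H(q)| ≥ 21/25 - 1/200 > 9/20`; or `w(q') ≤ (1/(25n)) e^(-2) ≤ 1/(180 n)` (tLOWE, `8n/(4n) = 2`)
and `w(q) ≤ 1/(180n) + 1/(200n) < 1/(25n)`.  (uses tLOWE, tNEG, tLOGH, tINW) -/
def tEXT : Prop := ∀ (n : ℕ), 2 ≤ n → ∃ ρ0 : ℝ, 2 * n ≤ ρ0 ∧
  ∀ (S : Type) [TopologicalSpace S] [T2Space S] (M : Hyp n S) (c : ℝ), M.Std c →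
  (∀ p, M.rho p ≤ 2 * n → 19/20 ≤ |M.H p| ∨ M.w p ≤ 1 / (200 * n)) →
  ∀ r, ρ0 ≤ r → Dich M r → Dich M (r + 1)

/-- global dichotomy.  Proof: tBASE with `r0 = ρ0` of tEXT, `εw = 1/(200n)`, gives `Dich M ρ0` and the
hypothesis of tEXT; induction gives `Dich M (ρ0 + k)` for all `k`.  If `S` is preconnected, the closed
open sets `{|H| > 9/20}`, `{w < 1/(25n)}` are disjoint (`H² ≤ n w`) and cover `S`; in the second case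
tLOWE for all `r` gives `w = 0`.  (uses tBASE, tEXT, tLOWE, tHW) -/
def tALL : Prop := ∀ (n : ℕ), 2 ≤ n → ∃ c0 : ℝ, 0 < c0 ∧ c0 ≤ 1/100 ∧
  ∀ (S : Type) [TopologicalSpace S] [T2Space S] [ConnectedSpace S] (M : Hyp n S), M.Shr →
  (∀ p, M.w p < 1 + c0) → (∀ p, M.w p = 0) ∨ (∀ p, 9/20 < |M.H p|)

/-! ## Group VIII: rigidity and classification -/

/-- `F` is constant and `𝒮 = 0`.
Proof: `g̃ = (1+ρ)/|H|`: `ℒ g̃ = (2n - 2ρ - (1-w)(1+ρ))/|H| < 0` for `ρ ≥ 2n+1` (tLLR, `w - 1 ≤ 1/100`).  For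
`ε > 0` `F - ε g̃` (bounded minus proper) has a maximum at `p_ε`; `0 ≥ ℒ(F - εg̃) ≥ -ε ℒ g̃`, so
`ρ(p_ε) < 2n+1`; hence `F ≤ F₀ := max_{ρ ≤ 2n+1} F` everywhere (let `ε → 0`).  `Y = F₀ - F ≥ 0`,
`ℒ Y = -2|𝒮|² ≤ 0`: the set `{Y = 0}` is closed, and open by tHARN (`β = 0`, `V = 2ζ`, Lipschitz
constants from tBDS; `Y(p) = 0` and `Y(σ u) = y > 0` contradict `Y(p) ≥ κ y^m`).  So `F ≡ F₀`,
`|𝒮|² = ½ℒF = 0`.  (uses tLLR, tLLF, tHARN, tBDS, tUGC, tLX, tHW) -/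
def tRIG : Prop := ∀ (n : ℕ), 1 ≤ n → ∀ (S : Type) [TopologicalSpace S] [T2Space S]
  [ConnectedSpace S] (M : Hyp n S) (c : ℝ), M.Std c → (∀ p, 9/20 < |M.H p|) →
  (∀ p, M.ssq p = 0) ∧ ∀ p q, M.Fq p = M.Fq q

/-- `w ≡ 0`: the image is a hyperplane through 0.
Proof: `δ_a N_b = -B_ab = 0`, so `N` is constant `= ν` (`const_of_dl_zero`), `⟨X,ν⟩ = -H = 0`; the image
is closed (proper) and open in the hyperplane (a section at `p` covers a neighbourhood: for `x` with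
`⟨x,ν⟩ = 0` near `X p`, `u = prj ι (x - X p)`, `g ≡ 0`), and the hyperplane is connected. -/
def tCL0 : Prop := ∀ (n : ℕ) (S : Type) [TopologicalSpace S] [T2Space S]
  [ConnectedSpace S] (M : Hyp n S), M.Shr → (∀ p, M.w p = 0) →
  ∃ ν : Fs n, ‖ν‖ = 1 ∧ Set.range M.X = {x | inner ℝ x ν = (0:ℝ)}

/-- the cylinder case, algebra: if `𝒮 = 0` and `∇H = 0` then there are a symmetric idempotent `P`
(constant) of trace `k+1`, `H² = k ∈ {1..n}`, with `P N = N`, `P X = -H N`.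
Proof: `H` is constant (`const_of_dl_zero`); `δζ = 0` and tTAU give `τ_ab - (B²)_ab + N_b(...) = 0` with
`∑ (B²)_ac X_c = ∑ B_ad δ_d H = 0`, so `B = H B²`; `T = 0` (definition of `𝒮`); `P = N N^T + H B` satisfies
`P² = P`, `δ_c P_ab = H T + N_a (H B² - B) + ... = 0`, so `P` is constant; `tr P = 1 + H²`; the trace of an
idempotent is its rank, a natural number; `H ≠ 0`, and `rank P ≤ n+1`; `P X = N⟨N,X⟩ + H B X = -H N`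
(tGH).  (uses tTAU, tGH) -/
def tCZ1 : Prop := ∀ (n : ℕ) (S : Type) [TopologicalSpace S] [T2Space S]
  [ConnectedSpace S] (M : Hyp n S), M.Shr → (∀ p, 9/20 < |M.H p|) → (∀ p, M.ssq p = 0) →
  (∀ p, M.gsq M.H p = 0) →
  ∃ (k : ℕ) (P : Fs n →L[ℝ] Fs n), 1 ≤ k ∧ k ≤ n ∧ (∀ x, P (P x) = P x) ∧
    (∀ x y, inner ℝ (P x) y = (inner ℝ x (P y) : ℝ)) ∧
    Module.finrank ℝ (LinearMap.range P.toLinearMap) = k + 1 ∧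
    ∀ p, P (M.N p) = M.N p ∧ P (M.X p) = - M.H p • M.N p ∧ M.H p ^ 2 = k

/-- from the algebra to the image.  Proof: `X(S) ⊂ C = {|P x|² = k}`.  Closed: proper.  Open in `C`: let
`x ∈ C` be close to `X p`, `u = prj ι (x - X p)`, `x = X p + ι u + s N p`, and `X(σ u) = X p + ι u + g(u) N p`; for
both, `|P·|² = (s - H)² + |P ι u|² = k` (`P N p = N p`, `⟨P ι u, N p⟩ = 0`), and `s, g(u)` are close to `0`
while `H² = k ≥ 1`, so `s = g(u)`.  `C` is connected (`{y ∈ range P : |y|² = k}` is a sphere of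
dimension `k ≥ 1`, times the kernel; continuous image of a connected product).  Finally an
orthonormal basis of `range P` and of its complement gives a linear isometry `L` with
`C = L '' {∑_{i<k+1} x_i² = k}`. -/
def tCZ2 : Prop := ∀ (n k : ℕ) (S : Type) [TopologicalSpace S] [T2Space S]
  [ConnectedSpace S] (M : Hyp n S) (P : Fs n →L[ℝ] Fs n), 1 ≤ k → k ≤ n →
  (∀ x, P (P x) = P x) → (∀ x y, inner ℝ (P x) y = (inner ℝ x (P y) : ℝ)) →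
  Module.finrank ℝ (LinearMap.range P.toLinearMap) = k + 1 →
  (∀ p, P (M.N p) = M.N p ∧ P (M.X p) = - M.H p • M.N p ∧ M.H p ^ 2 = k) →
  ∃ L : Fs n ≃ₗᵢ[ℝ] Fs n,
    Set.range M.X = L '' {x | ∑ i : Fin (n + 1), (if (i : ℕ) < k + 1 then x i ^ 2 else 0) = (k : ℝ)}

/-- the product case, algebra: if `𝒮 = 0`, `F` constant and `∇H ≠ 0` somewhere, there is an orthonormal
pair `f0, f1` with: `N = n0 f0 + n1 f1`, and `B = H z z^T`, `z = -n1 f0 + n0 f1` (`= i N`).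
Proof: at `p₀` with `ζ ≠ 0`, `ζ_a τ_bc = ζ_b τ_ac` gives `τ = ζζ^T/|ζ|²` (trace 1), so `τ² = τ` at `p₀`.  With
`𝒮 = 0` the functions `tr τ^m` have zero derivative (the `N`-terms of tTAU cancel), in particular
`∑_ab (τ²-τ)_ab² = tr τ⁴ - 2 tr τ³ + tr τ²` is constant, `= 0`: `τ² = τ` everywhere, trace 1: `τ = z z^T`.
`Q = N N^T + τ` has `δ_c Q_ab = -B_ca N_b - N_a B_cb + (N_a (B²)_cb + N_b (B²)_ca)/H = 0`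
(`B²/H = H τ² = B`), so `Q` is constant, a symmetric idempotent of trace 2; take an orthonormal basis
`f0,f1` of its range; `N p` and the line of `τ` lie in it and are orthogonal.  (uses tTAU) -/
def tCG1 : Prop := ∀ (n : ℕ), 1 ≤ n → ∀ (S : Type) [TopologicalSpace S] [T2Space S]
  [ConnectedSpace S] (M : Hyp n S), M.Shr → (∀ p, 9/20 < |M.H p|) → (∀ p, M.ssq p = 0) →
  (∃ p, M.gsq M.H p ≠ 0) →
  ∃ f0 f1 : Fs n, ‖f0‖ = 1 ∧ ‖f1‖ = 1 ∧ inner ℝ f0 f1 = (0:ℝ) ∧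
    ∀ p, M.N p = (inner ℝ (M.N p) f0 : ℝ) • f0 + (inner ℝ (M.N p) f1 : ℝ) • f1 ∧
      ∀ x, M.Bv p x = (M.H p * inner ℝ x
        (-(inner ℝ (M.N p) f1 : ℝ) • f0 + (inner ℝ (M.N p) f0 : ℝ) • f1)) •
        (-(inner ℝ (M.N p) f1 : ℝ) • f0 + (inner ℝ (M.N p) f0 : ℝ) • f1)

/-- complex coordinates in the plane of `f0, f1` -/
def cx {n : ℕ} (f0 f1 x : Fs n) : ℂ := ⟨inner ℝ x f0, inner ℝ x f1⟩

/-- the system of the profile curve: `γ' = i ν`, `ν' = i Re(γ ν̄) ν` -/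
def Prof (γ ν : ℝ → ℂ) : Prop := ∀ s, HasDerivAt γ (Complex.I * ν s) s ∧
  HasDerivAt ν (Complex.I * ((γ s * (starRingEnd ℂ) (ν s)).re : ℂ) * ν s) s ∧ ‖ν s‖ = 1

/-- the common hypothesis of the product case -/
def Prd {n : ℕ} {S : Type} [TopologicalSpace S] (M : Hyp n S) (f0 f1 : Fs n) : Prop :=
  ‖f0‖ = 1 ∧ ‖f1‖ = 1 ∧ inner ℝ f0 f1 = (0:ℝ) ∧
    ∀ p, M.N p = (inner ℝ (M.N p) f0 : ℝ) • f0 + (inner ℝ (M.N p) f1 : ℝ) • f1 ∧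
      ∀ x, M.Bv p x = (M.H p * inner ℝ x
        (-(inner ℝ (M.N p) f1 : ℝ) • f0 + (inner ℝ (M.N p) f0 : ℝ) • f1)) •
        (-(inner ℝ (M.N p) f1 : ℝ) • f0 + (inner ℝ (M.N p) f0 : ℝ) • f1)

/-- existence of the profile curve with given initial data, and its bounds: `|γ|²` is bounded because
`h = -Re(γ ν̄)` satisfies `h' = h Re(γ · conj (iν))`, `(|γ|²/2)' = Re(γ conj (iν))`, so
`h exp(-|γ|²/2)` is constant, and `|h| ≤ |γ|`... only global existence is claimed here.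
Proof: the vector field is locally Lipschitz on ℂ × ℂ; `|ν| = 1` is preserved and `|γ'| = 1`, so the
solution stays bounded on bounded times and is global (Picard-Lindelöf + continuation; or use the
truncated, globally Lipschitz vector field on each `[-T,T]` and uniqueness). -/
def tPRF : Prop := ∀ (γ0 ν0 : ℂ), ‖ν0‖ = 1 → ∃ γ ν : ℝ → ℂ, Prof γ ν ∧ γ 0 = γ0 ∧ ν 0 = ν0

/-- transport in a section: two points of the same uniform section carry states of the same profile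
curve.  Proof: along `t ↦ σ(u + t(u'-u))`, with velocity `ξ(t) = d/dt X(σ ..)`, `λ(t) = ⟨z, ξ⟩`, the functions
`α = cx X`, `ν̂ = cx N` satisfy `α' = λ i ν̂`, `ν̂' = -λ H i ν̂`, `H = -⟨X,N⟩ = -Re(α conj ν̂)`; the functions
`γ(s + θ(t)), ν(s+θ(t))`, `θ(t) = ∫₀ᵗ λ`, satisfy the same linear-in-λ system with the same initial values;
ODE uniqueness (`ODE_solution_unique_of_mem_Icc` or Gronwall).  `|θ| ≤ 2‖u - u'‖`.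
(uses tSGE, tHW) -/
def tTRA : Prop := ∀ (n : ℕ) (S : Type) [TopologicalSpace S] [T2Space S]
  (M : Hyp n S) (f0 f1 : Fs n), M.Shr → Prd M f0 f1 → ∀ γ ν : ℝ → ℂ, Prof γ ν →
  ∀ (p : S) (ι : Es n →ₗᵢ[ℝ] Fs n) (g : Es n → ℝ) (σ : Es n → S), M.Nice p ι g σ →
  ∀ u ∈ Metric.ball (0 : Es n) (1/8), ∀ u' ∈ Metric.ball (0 : Es n) (1/8), ∀ s : ℝ,
    cx f0 f1 (M.X (σ u)) = γ s → cx f0 f1 (M.N (σ u)) = ν s →
    ∃ θ : ℝ, |θ| ≤ 2 * ‖u' - u‖ ∧ cx f0 f1 (M.X (σ u')) = γ (s + θ) ∧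
      cx f0 f1 (M.N (σ u')) = ν (s + θ)

/-- local existence of points: near a point `q` with state `s` one can move a little in every direction
`(η, y)` of (profile parameter) × (vectors orthogonal to `f0, f1`).
Proof: section at `q` (field `sec`); solve in `U` the ODE `u'(r) = prj ι (η z(σ u) + y)`, `u(0) = 0`
(Picard-Lindelöf: `exists_forall_hasDerivAt_Ioo_eq_of_contDiffAt`; the field is smooth, `z = -n1 f0 + n0 f1`).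
A tangent vector `ξ` at `σ u` satisfies `D(X∘σ)(u)(prj ι ξ) = ξ` (for `v` with `ι v + (Dg v) N q = ξ`,
`prj ι ξ = v`), so `X(σ(u(r)))` has velocity `η z + y` (`y` is tangent because `N ∈ span(f0,f1)`), and
`(cx X)' = η i ν̂`, `(cx N)' = -η H i ν̂`, i.e. the system `Prof` in the time `s + r η` with the same initial
value; uniqueness (`ODE_solution_unique_of_mem_Ioo` or Gronwall).  The component orthogonal to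
`f0, f1` has velocity `y`.  (uses tHW) -/
def tLSO : Prop := ∀ (n : ℕ) (S : Type) [TopologicalSpace S] [T2Space S]
  (M : Hyp n S) (f0 f1 : Fs n), M.Shr → Prd M f0 f1 → ∀ γ ν : ℝ → ℂ, Prof γ ν →
  ∀ (q : S) (s : ℝ), cx f0 f1 (M.X q) = γ s → cx f0 f1 (M.N q) = ν s →
  ∀ (η : ℝ) (y : Fs n), inner ℝ y f0 = (0:ℝ) → inner ℝ y f1 = (0:ℝ) →
  ∃ ε : ℝ, 0 < ε ∧ ∀ r : ℝ, |r| < ε →
  ∃ q' : S, cx f0 f1 (M.X q') = γ (s + r * η) ∧ cx f0 f1 (M.N q') = ν (s + r * η) ∧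
    (M.X q' - (inner ℝ (M.X q') f0 : ℝ) • f0 - (inner ℝ (M.X q') f1 : ℝ) • f1)
      = (M.X q - (inner ℝ (M.X q) f0 : ℝ) • f0 - (inner ℝ (M.X q) f1 : ℝ) • f1) + r • y

/-- existence of points: from a point `p` with state `s` one reaches every `(s', y)`.
Here `y` ranges over vectors orthogonal to `f0, f1`.
Proof: with `η = s' - s` the set of `r ∈ [0,1]` for which there is a point `q`
with `cx X = γ(s+rη)`, `cx N = ν(s+rη)` and the component of `X q` orthogonal to `f0,f1` equal to that of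
`X p + r y` is closed (properness: `|X q|` bounded because `γ` is bounded on compact intervals; take a
cluster point; continuity of `X`, `N`) and open (tLSO), contains 0.  (uses tLSO) -/
def tLIN : Prop := ∀ (n : ℕ) (S : Type) [TopologicalSpace S] [T2Space S]
  (M : Hyp n S) (f0 f1 : Fs n), M.Shr → Prd M f0 f1 → ∀ γ ν : ℝ → ℂ, Prof γ ν →
  ∀ (p : S) (s : ℝ), cx f0 f1 (M.X p) = γ s → cx f0 f1 (M.N p) = ν s →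
  ∀ (s' : ℝ) (y : Fs n), inner ℝ y f0 = (0:ℝ) → inner ℝ y f1 = (0:ℝ) →
  ∃ q : S, cx f0 f1 (M.X q) = γ s' ∧ cx f0 f1 (M.N q) = ν s' ∧
    (M.X q - (inner ℝ (M.X q) f0 : ℝ) • f0 - (inner ℝ (M.X q) f1 : ℝ) • f1)
      = (M.X p - (inner ℝ (M.X p) f0 : ℝ) • f0 - (inner ℝ (M.X p) f1 : ℝ) • f1) + y

/-- the product case, image: the image is `{x : cx x ∈ γ(ℝ)}` and every state `s` occurs with a fixed
orthogonal component.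
Proof: `γ, ν` from tPRF with the state of some `p₀` at `s = 0` (`|cx N| = 1` by Prd).
`{q : ∃ s, state of q = (γ s, ν s)}` is open and closed by tTRA in the uniform sections of tUGC (points of the
same section ball are both in the set or both outside), so it is `S`; with tLIN
(arbitrary `s'`, `y`) the image is exactly `{x : cx x ∈ range γ}`.  (uses tPRF, tTRA, tLIN, tUGC) -/
def tCG2 : Prop := ∀ (n : ℕ) (S : Type) [TopologicalSpace S] [T2Space S]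
  [ConnectedSpace S] (M : Hyp n S) (f0 f1 : Fs n), M.Shr → (∀ p, M.w p ≤ 2) →
  Prd M f0 f1 →
  ∃ (γ ν : ℝ → ℂ), Prof γ ν ∧ Set.range M.X = {x | cx f0 f1 x ∈ Set.range γ} ∧
    ∃ x0 : Fs n, ∀ s : ℝ, ∃ q : S, cx f0 f1 (M.X q) = γ s ∧ cx f0 f1 (M.N q) = ν s ∧
      (M.X q - (inner ℝ (M.X q) f0 : ℝ) • f0 - (inner ℝ (M.X q) f1 : ℝ) • f1) = x0

/-- periodicity of the profile curve.
Proof: (a) `|γ|` is bounded: with `h = -Re(γ ν̄)` one has `h' = h Re(γ conj(iν))` and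
`(|γ|²/2)' = Re(γ conj(iν))`, so `h exp(-|γ|²/2)` is constant; at the state of `q`, `h = H(q)`
(shrinker equation), `H² = w ≤ 2` (`B = H z z^T`), `h ≠ 0`; so `exp(|γ|²/2) = |h|/const` is bounded.
(b) the points `q_j`, `j ∈ ℕ`, with state `j` and orthogonal component `x0` lie in a compact set; let `q*` be a
cluster point of the sequence; infinitely many `q_j` lie in the neighbourhood `σ(ball 0 (1/32))` of `q*`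
(tUGC); take two, `i < j`; tTRA gives `θ`, `|θ| ≤ 1/8`, with `(γ,ν)(i+θ) = (γ,ν)(j)`; uniqueness for the
(autonomous, locally Lipschitz) ODE: `γ(s + (j - i - θ)) = γ(s)` for all `s`, `T = j-i-θ > 0`.
(uses tTRA, tUGC) -/
def tCG3 : Prop := ∀ (n : ℕ) (S : Type) [TopologicalSpace S] [T2Space S]
  (M : Hyp n S) (f0 f1 : Fs n), M.Shr → (∀ p, M.w p ≤ 2) →
  (∀ p, 9/20 < |M.H p|) → Prd M f0 f1 → ∀ (γ ν : ℝ → ℂ), Prof γ ν → ∀ x0 : Fs n,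
  (∀ s : ℝ, ∃ q : S, cx f0 f1 (M.X q) = γ s ∧ cx f0 f1 (M.N q) = ν s ∧
      (M.X q - (inner ℝ (M.X q) f0 : ℝ) • f0 - (inner ℝ (M.X q) f1 : ℝ) • f1) = x0) →
  ∃ T : ℝ, 0 < T ∧ ∀ s, γ (s + T) = γ s

/-- solutions of `Prof` are smooth.  Proof: induction on `k` (`contDiff_succ_iff_deriv`): if `γ, ν` are `C^k`
then `γ' = iν`, `ν' = i Re(γν̄)ν` are `C^k`. -/
def tSMO : Prop := ∀ γ ν : ℝ → ℂ, Prof γ ν → ContDiff ℝ ∞ γ ∧ ContDiff ℝ ∞ ν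

/-- adapted isometry.  Proof: extend the orthonormal pair to an orthonormal basis. -/
def tFRM : Prop := ∀ (n : ℕ), 1 ≤ n → ∀ f0 f1 : Fs n, ‖f0‖ = 1 → ‖f1‖ = 1 →
  inner ℝ f0 f1 = (0:ℝ) → ∃ L : Fs n ≃ₗᵢ[ℝ] Fs n,
    ∀ x : Fs n, inner ℝ (L x) f0 = (x 0 : ℝ) ∧ inner ℝ (L x) f1 = (x 1 : ℝ)

end

end Pool.Agent.ShG
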