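import Pool.Agent.ShG.Targets
import Pool.Agent.ShG.Model

/-!
# Targets of the project ShG, part X: reduction from immersed manifolds to `Hyp`, final steps
-/

namespace Pool.Agent.ShG

open scoped BigOperators Topology ContDiff Manifold
open Set Filter

noncomputable section

/-- local graph representation of a parametrised hypersurface near `u0` with a chosen unit normal `ν`.
Proof: `ι` = a linear isometry of `Es n` onto `ν^⊥` (orthonormal basis of the orthogonal complement of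
`ν`, dimension `n`), `F(u) = prj ι (x u - x u0)`: derivative at `u0` is `prj ι ∘ Dx(u0)`, bijective;
inverse function theorem gives `ψ = F⁻¹` smooth on an open `U ∋ 0` (shrink so that `ψ U ⊂ V`);
`g(v) = ⟨x(ψ v) - x u0, ν⟩`; the last item: `range Dx(ψ v) = range D(x∘ψ)(v) = {ι h + (Dg(v)h) ν}`, which
is orthogonal to `ν - ι ∇g(v)`. -/
def tGR0 : Prop := ∀ (n : ℕ) (x : Es n → Fs n) (V : Set (Es n)) (u0 : Es n) (ν : Fs n),
  IsOpen V → u0 ∈ V → ContDiffOn ℝ ∞ x V → (∀ u ∈ V, Function.Injective (fderiv ℝ x u)) →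
  ‖ν‖ = 1 → (∀ h, inner ℝ (fderiv ℝ x u0 h) ν = (0:ℝ)) →
  ∃ (ι : Es n →ₗᵢ[ℝ] Fs n) (U : Set (Es n)) (g : Es n → ℝ) (ψ : Es n → Es n),
    IsOpen U ∧ (0 : Es n) ∈ U ∧ (∀ u, inner ℝ (ι u) ν = (0:ℝ)) ∧ ψ 0 = u0 ∧ MapsTo ψ U V ∧
    ContinuousOn ψ U ∧ (∀ W ⊆ U, IsOpen W → IsOpen (ψ '' W)) ∧ ContDiffOn ℝ ∞ g U ∧
    (∀ v ∈ U, x (ψ v) = x u0 + ι v + g v • ν) ∧
    ∀ v ∈ U, ∀ h, inner ℝ (fderiv ℝ x (ψ v) h) (ν - ι (gradient g v)) = (0:ℝ)

/-- facts about the preferred charts: smooth immersion in coordinates, and the tangent space at a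
point does not depend on the chart.
Proof: `X ∘ φ⁻¹` on the chart target (`contMDiffOn_chart_symm`, `ContMDiff.comp_contMDiffOn`,
`contMDiffOn_iff_contDiffOn`); injectivity: chain rule for `mfderiv`, the chart inverse has bijective
derivative; for `q = φ_p⁻¹ u`: `locX X p = locX X q ∘ (φ_q ∘ φ_p⁻¹)` near `u`, and the transition map has
bijective derivative. -/
def tMAN : Prop := ∀ (n : ℕ) (S : Type) [TopologicalSpace S]
  [ChartedSpace (EuclideanSpace ℝ (Fin n)) S] [IsManifold (𝓡 n) ∞ S]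
  (X : S → EuclideanSpace ℝ (Fin (n + 1))),
  ContMDiff (𝓡 n) 𝓘(ℝ, EuclideanSpace ℝ (Fin (n + 1))) ∞ X →
  (∀ p, Function.Injective (mfderiv (𝓡 n) 𝓘(ℝ, EuclideanSpace ℝ (Fin (n + 1))) X p)) →
  ∀ p : S, ContDiffOn ℝ ∞ (locX X p) (chartAt (EuclideanSpace ℝ (Fin n)) p).target ∧
    ∀ u ∈ (chartAt (EuclideanSpace ℝ (Fin n)) p).target,
      Function.Injective (fderiv ℝ (locX X p) u) ∧
      LinearMap.range (fderiv ℝ (locX X p) u).toLinearMap
        = LinearMap.range (fderiv ℝ (locX X ((chartAt (EuclideanSpace ℝ (Fin n)) p).symm u))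
            (chartAt (EuclideanSpace ℝ (Fin n)) ((chartAt (EuclideanSpace ℝ (Fin n)) p).symm u)
              ((chartAt (EuclideanSpace ℝ (Fin n)) p).symm u))).toLinearMap

/-- the orientation double cover.
Proof: `S₂ = {(p,ν) ∈ S × F : ‖ν‖ = 1, ν ⊥ range D(locX X p)(φ_p p)}` with the subspace topology, T2,
`X₂(p,ν) = X p`, `N₂(p,ν) = ν`.  Section at `(p,ν)`: tGR0 for `x = locX X p` on the chart target gives
`ι, U, g, ψ`; `σ(v) = (φ_p⁻¹(ψ v), (1+|∇g|²)^(-1/2) (ν - ι ∇g(v)))`: in `S₂` by tGR0 and tMAN (chart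
independence), continuous; open: near `(p,ν)` a point `(p',ν')` of `S₂` with `p' = φ_p⁻¹(ψ v)` has
`ν' = ± n(v)`, and `ν'` close to `ν` excludes the minus sign (and the same near every other point of the
image).  `X₂` is proper: `S₂ → S` is proper (closed subset of `S ×` sphere: the condition is closed by the
same local description, the sphere is compact).  Local sections `s` of `π(p,ν) = p` near `(p,ν)`: the map
`φ_p⁻¹(ψ v) ↦ σ(v)`.  Let `S'` be the connected component of some point of `S₂` (`S₂` is locally connected: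
sections; so components are open and closed); `π(S')` is open (local sections) and closed (`π` is a
closed map, proper), so all of `S`.  `X` restricted to the closed set `S'` is still proper; sections at
points of `S'`: shrink `U` to a ball, its image is connected, so stays in `S'`.
(uses tGR0, tMAN) -/
def tCOV : Prop := ∀ (n : ℕ) (S : Type) [TopologicalSpace S] [T2Space S] [ConnectedSpace S]
  [ChartedSpace (EuclideanSpace ℝ (Fin n)) S] [IsManifold (𝓡 n) ∞ S]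
  (X : S → EuclideanSpace ℝ (Fin (n + 1))),
  ContMDiff (𝓡 n) 𝓘(ℝ, EuclideanSpace ℝ (Fin (n + 1))) ∞ X →
  (∀ p, Function.Injective (mfderiv (𝓡 n) 𝓘(ℝ, EuclideanSpace ℝ (Fin (n + 1))) X p)) →
  IsProperMap X →
  ∃ (S' : Type) (_ : TopologicalSpace S') (_ : T2Space S') (_ : ConnectedSpace S')
    (M : Hyp n S') (π : S' → S), Continuous π ∧ Function.Surjective π ∧
    (∀ q, M.X q = X (π q)) ∧
    (∀ q h, inner ℝ (fderiv ℝ (locX X (π q)) (chartAt (EuclideanSpace ℝ (Fin n)) (π q) (π q)) h)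
      (M.N q) = (0:ℝ)) ∧
    (∀ q, ∃ s : S → S', s (π q) = q ∧ ContinuousAt s (π q) ∧ ∀ᶠ p in 𝓝 (π q), π (s p) = p)

/-- comparison of `B` with the second derivative of the parametrisation:
`⟨N, D²x(h,k)⟩ = ⟨B Dx h, Dx k⟩`.
Proof: `x = locX X (π q)`, `u0` = chart point; for small `t` `p_t = φ⁻¹(u0 + t h)`, `q_t = s(p_t) → q`,
`M.X q_t = x(u0 + t h)`.  `0 = ⟨N(q_t), Dx(u0+th) k⟩` (normality at `q_t` in the chart of `p_t`, and chart
independence tMAN).  Subtract the same at `t = 0` and divide by `t`: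
`⟨(N(q_t) - N(q))/t, Dx(u0+th)k⟩ + ⟨N q, (Dx(u0+th)k - Dx(u0)k)/t⟩ = 0`; the first term tends to
`-⟨B(q) Dx h, Dx k⟩` because each `N_b` has gradient `-B_b·` (`Sm.hasGr`, `dl_Nc`).  (uses tMAN) -/
def tCM1 : Prop := ∀ (n : ℕ) (S : Type) [TopologicalSpace S]
  [ChartedSpace (EuclideanSpace ℝ (Fin n)) S] [IsManifold (𝓡 n) ∞ S]
  (X : S → EuclideanSpace ℝ (Fin (n + 1))),
  ContMDiff (𝓡 n) 𝓘(ℝ, EuclideanSpace ℝ (Fin (n + 1))) ∞ X →
  (∀ p, Function.Injective (mfderiv (𝓡 n) 𝓘(ℝ, EuclideanSpace ℝ (Fin (n + 1))) X p)) →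
  ∀ (S' : Type) [TopologicalSpace S'] (M : Hyp n S') (π : S' → S), Continuous π →
    (∀ q, M.X q = X (π q)) →
    (∀ q h, inner ℝ (fderiv ℝ (locX X (π q)) (chartAt (EuclideanSpace ℝ (Fin n)) (π q) (π q)) h)
      (M.N q) = (0:ℝ)) →
    (∀ q, ∃ s : S → S', s (π q) = q ∧ ContinuousAt s (π q) ∧ ∀ᶠ p in 𝓝 (π q), π (s p) = p) →
    ∀ (q : S') (h k : Es n),
      inner ℝ (M.N q) (fderiv ℝ (fderiv ℝ (locX X (π q)))
        (chartAt (EuclideanSpace ℝ (Fin n)) (π q) (π q)) h k)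
      = (inner ℝ (M.Bv q (fderiv ℝ (locX X (π q))
          (chartAt (EuclideanSpace ℝ (Fin n)) (π q) (π q)) h))
        (fderiv ℝ (locX X (π q)) (chartAt (EuclideanSpace ℝ (Fin n)) (π q) (π q)) k) : ℝ)

/-- linear algebra: traces in a non-orthonormal basis.
Proof: `a_i = A e_i`, `G = (⟨a_i,a_j⟩)` is invertible (injectivity), and
`∑_ij G⁻¹_ij (a_i)_a (a_j)_b = δ_ab - ν_a ν_b` (both sides are the orthogonal projection onto
`range A = ν^⊥`: check on `a_k` and on `ν`).  Insert: `∑ G⁻¹_ij h_ij = ∑_ab (δ_ab - ν_aν_b) B_ab = tr B`,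
`∑ G⁻¹_ik G⁻¹_jl h_ij h_kl = ∑ B_ab B_cd P_ac P_bd = ∑ B_ab²`. -/
def tCM2 : Prop := ∀ (n : ℕ) (A : Es n →ₗ[ℝ] Fs n) (ν : Fs n)
  (B : Fin (n + 1) → Fin (n + 1) → ℝ), Function.Injective A → ‖ν‖ = 1 →
  (∀ h, inner ℝ (A h) ν = (0:ℝ)) → (∀ a b, B a b = B b a) → (∀ a, ∑ b, B a b * ν b = 0) →
  ∀ (G : Matrix (Fin n) (Fin n) ℝ) (hh : Fin n → Fin n → ℝ),
  (∀ i j, G i j = inner ℝ (A (EuclideanSpace.single i 1)) (A (EuclideanSpace.single j 1))) →
  (∀ i j, hh i j = ∑ a, ∑ b, B a b * A (EuclideanSpace.single i 1) a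
    * A (EuclideanSpace.single j 1) b) →
  (∑ i, ∑ j, G⁻¹ i j * hh i j = ∑ a, B a a) ∧
  (∑ i, ∑ j, ∑ k, ∑ l, G⁻¹ i k * G⁻¹ j l * (hh i j * hh k l) = ∑ a, ∑ b, (B a b) ^ 2)

/-- the reduction: from an immersed shrinker to an oriented connected `Hyp`.
Proof: tCOV; `nor x u y = ⟨y, N⟩ N` (`(range Dx)^⊥` is the line of `N`: dimension count with tMAN), so
`secF i j = h_ij N` with `h_ij = ⟨B a_i, a_j⟩` by tCM1, and tCM2 gives `normIIsq = w`,
`meanCurv = H N`; the equation `meanCurv = -nor X` becomes `H = -⟨X,N⟩`.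
(uses tCOV, tMAN, tCM1, tCM2) -/
def tRED : Prop := ∀ (n : ℕ) (c : ℝ) (S : Type) [TopologicalSpace S] [T2Space S]
  [ConnectedSpace S] [ChartedSpace (EuclideanSpace ℝ (Fin n)) S] [IsManifold (𝓡 n) ∞ S]
  (X : S → EuclideanSpace ℝ (Fin (n + 1))), IsShrinkerImmersion X → IsProperMap X →
  (∀ p, normIIsq (locX X p) (chartAt (EuclideanSpace ℝ (Fin n)) p p) < 1 + c) →
  ∃ (S' : Type) (_ : TopologicalSpace S') (_ : T2Space S') (_ : ConnectedSpace S')
    (M : Hyp n S'), M.Shr ∧ (∀ q, M.w q < 1 + c) ∧ Set.range M.X = Set.range X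

/-- a periodic solution of `Prof` is an Abresch–Langer curve in `EuclideanSpace ℝ (Fin 2)`.
Proof: tSMO; `γ' = iν`, `|iν| = 1`, `γ'' = i ν' = -Re(γ ν̄) ν` and
`γ = Re(γ ν̄) ν + Re(γ conj(iν)) iν`.  (uses tSMO) -/
def tCAL : Prop := ∀ (γ ν : ℝ → ℂ) (T : ℝ), Prof γ ν → 0 < T → (∀ s, γ (s + T) = γ s) →
  IsAL (fun s => WithLp.toLp 2 ![(γ s).re, (γ s).im])

end

end Pool.Agent.ShG
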