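import Pool.Agent.ShG.Targets

/-! ShG-VIS: the viscosity inequality of `b - σF + lam` (`tVIS`). -/

namespace Pool.Agent.ShG

open scoped BigOperators Topology ContDiff
open Set Filter Hyp

noncomputable section

variable {n : ℕ} {S : Type} [TopologicalSpace S]

lemma VIS_tq_smul (M : Hyp n S) (t : ℝ) (x : Fs n) (p : S) :
    M.tq (t • x) p = t ^ 2 * M.tq x p := by
  unfold Hyp.tq
  rw [Finset.mul_sum]
  refine Finset.sum_congr rfl fun a _ => ?_
  rw [Finset.mul_sum]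
  refine Finset.sum_congr rfl fun b _ => ?_
  simp only [PiLp.smul_apply, smul_eq_mul]
  ring

lemma VIS_tq_sub_N (M : Hyp n S) (s : ℝ) (x : Fs n) (p : S) :
    M.tq (x - s • M.N p) p = M.tq x p := by
  have h1 : ∑ a, ∑ b, M.N p a * x b * M.tau a b p = 0 := by
    rw [Finset.sum_comm]
    refine Finset.sum_eq_zero fun b _ => ?_
    have h := B_N_left (M := M) b p
    have h2 : ∑ a, M.N p a * x b * M.tau a b p
        = (x b / M.H p) * ∑ a, M.N p a * M.B a b p := by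
      rw [Finset.mul_sum]
      refine Finset.sum_congr rfl fun a _ => ?_
      unfold Hyp.tau
      ring
    rw [h2, h, mul_zero]
  have h3 : ∀ y : Fs n, ∑ a, ∑ b, y a * M.N p b * M.tau a b p = 0 := by
    intro y
    refine Finset.sum_eq_zero fun a _ => ?_
    have h := B_N_left' (M := M) a p
    have h2 : ∑ b, y a * M.N p b * M.tau a b p
        = (y a / M.H p) * ∑ b, M.N p b * M.B a b p := by
      rw [Finset.mul_sum]
      refine Finset.sum_congr rfl fun b _ => ?_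
      unfold Hyp.tau
      ring
    rw [h2, h, mul_zero]
  have h4 : M.tq (x - s • M.N p) p = M.tq x p
      - s * (∑ a, ∑ b, M.N p a * x b * M.tau a b p)
      - s * (∑ a, ∑ b, x a * M.N p b * M.tau a b p)
      + s ^ 2 * (∑ a, ∑ b, M.N p a * M.N p b * M.tau a b p) := by
    unfold Hyp.tq
    simp only [Finset.mul_sum]
    simp only [← Finset.sum_sub_distrib, ← Finset.sum_add_distrib]
    refine Finset.sum_congr rfl fun a _ => ?_
    refine Finset.sum_congr rfl fun b _ => ?_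
    simp only [PiLp.sub_apply, PiLp.smul_apply, smul_eq_mul]
    ring
  rw [h4, h1, h3 x, h3 (M.N p)]
  ring

lemma VIS_theta (M : Hyp n S) (q : S)
    (hlb : ∀ e : Fs n, ‖e‖ = 1 → inner ℝ e (M.N q) = (0:ℝ) → lam M q ≤ M.tq e q)
    (e : Fs n) (he : ‖e‖ = 1) (hpos : 0 < 1 - (inner ℝ e (M.N q)) ^ 2) :
    lam M q ≤ M.tq e q / (1 - (inner ℝ e (M.N q)) ^ 2) := by
  set s : ℝ := inner ℝ e (M.N q) with hs
  set y : Fs n := e - s • M.N q with hy
  have hNN : inner ℝ (M.N q) (M.N q) = (1:ℝ) := NN M q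
  have h1 : inner ℝ y (M.N q) = (0:ℝ) := by
    rw [hy, inner_sub_left, inner_smul_left, hNN, ← hs]
    simp
  have h2 : ‖y‖ ^ 2 = 1 - s ^ 2 := by
    rw [hy, norm_sub_sq_real, inner_smul_right, ← hs, he, norm_smul, M.unit q]
    rw [mul_one, Real.norm_eq_abs, sq_abs]
    ring
  have hyp : 0 < ‖y‖ := by
    have : 0 < ‖y‖ ^ 2 := by rw [h2]; exact hpos
    by_contra h
    have h0 : ‖y‖ = 0 := le_antisymm (not_lt.1 h) (norm_nonneg _)
    rw [h0] at this
    norm_num at this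
  have h3 : ‖(‖y‖⁻¹ : ℝ) • y‖ = 1 := by
    rw [norm_smul, norm_inv, norm_norm, inv_mul_cancel₀ hyp.ne']
  have h4 : inner ℝ ((‖y‖⁻¹ : ℝ) • y) (M.N q) = (0:ℝ) := by
    rw [inner_smul_left, h1, mul_zero]
  have h5 := hlb _ h3 h4
  rw [VIS_tq_smul, hy, VIS_tq_sub_N, ← hy, inv_pow, h2] at h5
  rw [div_eq_inv_mul]
  exact h5

lemma VIS_LL_add {M : Hyp n S} {Z1 Z2 : S → ℝ} {p : S} (h1 : M.Sm Z1 p) (h2 : M.Sm Z2 p) :
    M.LL (fun q => Z1 q + Z2 q) p = M.LL Z1 p + M.LL Z2 p := by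
  unfold Hyp.LL
  rw [Lap_add h1 h2]
  have : ∑ a, M.ze a p * M.dl a (fun q => Z1 q + Z2 q) p
      = ∑ a, M.ze a p * M.dl a Z1 p + ∑ a, M.ze a p * M.dl a Z2 p := by
    rw [← Finset.sum_add_distrib]
    refine Finset.sum_congr rfl fun a _ => ?_
    rw [dl_add h1 h2]
    ring
  rw [this]
  ring

lemma VIS_LL_sub {M : Hyp n S} {Z1 Z2 : S → ℝ} {p : S} (h1 : M.Sm Z1 p) (h2 : M.Sm Z2 p) :
    M.LL (fun q => Z1 q - Z2 q) p = M.LL Z1 p - M.LL Z2 p := by
  unfold Hyp.LL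
  rw [Lap_sub h1 h2]
  have : ∑ a, M.ze a p * M.dl a (fun q => Z1 q - Z2 q) p
      = ∑ a, M.ze a p * M.dl a Z1 p - ∑ a, M.ze a p * M.dl a Z2 p := by
    rw [← Finset.sum_sub_distrib]
    refine Finset.sum_congr rfl fun a _ => ?_
    rw [dl_sub h1 h2]
    ring
  rw [this]
  ring

lemma VIS_LL_const_mul {M : Hyp n S} {Z : S → ℝ} {p : S} (c : ℝ) (h : M.Sm Z p) :
    M.LL (fun q => c * Z q) p = c * M.LL Z p := by
  unfold Hyp.LL
  rw [Lap_const_mul c h]
  have : ∑ a, M.ze a p * M.dl a (fun q => c * Z q) p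
      = c * ∑ a, M.ze a p * M.dl a Z p := by
    rw [Finset.mul_sum]
    refine Finset.sum_congr rfl fun a _ => ?_
    rw [dl_const_mul c h]
    ring
  rw [this]
  ring

/-- a local minimum has nonnegative `ℒ` -/
lemma VIS_min_LL {M : Hyp n S} {Z : S → ℝ} {p : S} (hZ : M.Sm Z p)
    (hmin : ∀ᶠ q in 𝓝 p, Z p ≤ Z q) : 0 ≤ M.LL Z p := by
  obtain ⟨h1, -, h3⟩ := min_Lap hZ hmin
  unfold Hyp.LL
  have : ∑ a, M.ze a p * M.dl a Z p = 0 := Finset.sum_eq_zero fun a _ => by rw [h1]; simp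
  rw [this]
  linarith

theorem pVIS (hTHE : tTHE) (hLLF : tLLF) (hLBB : tLBB) (hLAM : tLAM) : tVIS := by
  intro n hn S _ _ M c r hstd hr q hHq φ hφ htouch
  obtain ⟨hshr, hc0, hc1, hw⟩ := hstd
  have hw2 : ∀ p, M.w p ≤ 2 := fun p => by
    have := hw p
    linarith
  have hH0 : M.H q ≠ 0 := by
    intro h
    rw [h, abs_zero] at hHq
    norm_num at hHq
  obtain ⟨C, -, hC⟩ := hLBB n hn
  obtain ⟨hbsm, -, -, -, -, -⟩ := hC S M c r ⟨hshr, hc0, hc1, hw⟩ hr q hHq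
  obtain ⟨Λ, -, hΛ⟩ := hLAM n 0 hn le_rfl
  obtain ⟨hatt, hlb, heig, -⟩ := hΛ S M hshr hw2
  obtain ⟨e, he1, heN, heq⟩ := hatt q
  have hB := heig q hH0 e he1 heN heq
  obtain ⟨hth, -, hthL⟩ := hTHE n S M hshr q e (lam M q) hH0 he1 heN hB
  have hF := (hLLF n S M hshr q hH0).1
  have hFsm : M.Sm M.Fq q := Sm.Fq hH0
  set θ : S → ℝ := fun q' => M.tq e q' / (1 - (inner ℝ e (M.N q')) ^ 2) with hθ
  set Z : S → ℝ := fun q' => ((θ q' + bb M r q') - (1 / (100 * r)) * M.Fq q') - φ q' with hZ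
  have s1 : M.Sm (fun q' => θ q' + bb M r q') q := hth.add hbsm
  have s2 : M.Sm (fun q' => (1 / (100 * r)) * M.Fq q') q := hFsm.const_mul _
  have s3 : M.Sm (fun q' => (θ q' + bb M r q') - (1 / (100 * r)) * M.Fq q') q := s1.sub s2
  have s4 : M.Sm Z q := s3.sub hφ
  have hθq : θ q = lam M q := by
    simp only [hθ]
    rw [heN, heq]
    simp
  -- local minimum
  have hcont : ∀ᶠ q' in 𝓝 q, 0 < 1 - (inner ℝ e (M.N q')) ^ 2 := by
    have hc : Continuous fun q' => 1 - (inner ℝ e (M.N q') : ℝ) ^ 2 :=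
      continuous_const.sub ((continuous_const.inner (contN M)).pow 2)
    have h0 : 0 < 1 - (inner ℝ e (M.N q) : ℝ) ^ 2 := by
      rw [heN]
      norm_num
    exact hc.continuousAt.eventually (isOpen_Ioi.mem_nhds h0)
  have hmin : ∀ᶠ q' in 𝓝 q, Z q ≤ Z q' := by
    filter_upwards [hcont, htouch] with q' h1 h2
    have h3 : lam M q' ≤ θ q' := VIS_theta M q' (hlb q') e he1 h1
    simp only [hZ]
    rw [hθq]
    linarith
  have h5 := VIS_min_LL s4 hmin
  have h6 : M.LL Z q = M.LL θ q + M.LL (bb M r) q - (1 / (100 * r)) * M.LL M.Fq q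
      - M.LL φ q := by
    rw [hZ, VIS_LL_sub s3 hφ, VIS_LL_sub s1 s2, VIS_LL_add hth hbsm, VIS_LL_const_mul _ hFsm]
  rw [h6, hF, hthL] at h5
  have h7 : M.LL φ q = M.Lap φ q + 2 * ∑ a, M.ze a q * M.dl a φ q := rfl
  rw [h7] at h5
  linarith

end

end Pool.Agent.ShG
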